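import Mathlib

/-!
Growth of Dirichlet L-functions in the half plane `0 < re s` and a lower bound on `re s = 2`.
-/

set_option autoImplicit false

open Complex MeasureTheory Set Filter Topology Asymptotics

namespace Pool.Agent.MP_f259ea_nt

/-- Partial sums of a periodic sequence are linear up to a bounded error. -/
theorem periodic_partial_sums (N : ℕ) (hN : 0 < N) (a : ℕ → ℂ) (ha : ∀ n, a (n + N) = a n) :
    ∃ (c : ℂ) (B : ℝ), ∀ n : ℕ, ‖∑ k ∈ Finset.Icc 1 n, a k - c * n‖ ≤ B := by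
  have hconst : ∀ n, ∑ k ∈ Finset.range N, a (n + k) = ∑ k ∈ Finset.range N, a k := by
    intro n
    induction n with
    | zero => simp
    | succ n ih =>
      have h1 := Finset.sum_range_succ (fun k => a (n + k)) N
      have h2 := Finset.sum_range_succ' (fun k => a (n + k)) N
      have h3 : ∑ k ∈ Finset.range N, a (n + (k + 1)) = ∑ k ∈ Finset.range N, a (n + 1 + k) :=
        Finset.sum_congr rfl fun k _ => by congr 1; ring
      rw [h1, ha, h3] at h2
      simp only [add_zero] at h2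
      rw [← ih]
      exact (add_right_cancel h2).symm
  set c : ℂ := (∑ k ∈ Finset.range N, a k) / N with hc
  have hN' : (N : ℂ) ≠ 0 := by exact_mod_cast hN.ne'
  set D : ℕ → ℂ := fun n => ∑ k ∈ Finset.Icc 1 n, a k - c * n with hD
  have hIcc : ∀ n, ∑ k ∈ Finset.Icc 1 n, a k = ∑ k ∈ Finset.range n, a (1 + k) := by
    intro n
    rw [← Finset.Ico_add_one_right_eq_Icc, Finset.sum_Ico_eq_sum_range]
    simp
  have hper : ∀ n, D (n + N) = D n := by
    intro n
    simp only [hD, hIcc]
    rw [Finset.sum_range_add]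
    have h3 : ∑ k ∈ Finset.range N, a (1 + (n + k)) = ∑ k ∈ Finset.range N, a ((1 + n) + k) :=
      Finset.sum_congr rfl fun k _ => by congr 1; ring
    rw [h3, hconst, hc]
    push_cast
    field_simp
    ring
  have hmod : ∀ q r, D (r + N * q) = D r := by
    intro q
    induction q with
    | zero => simp
    | succ q ih =>
      intro r
      have : r + N * (q + 1) = (r + N * q) + N := by ring
      rw [this, hper, ih]
  refine ⟨c, ∑ i ∈ Finset.range N, ‖D i‖, fun n => ?_⟩
  have h1 : D n = D (n % N) := by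
    conv_lhs => rw [← Nat.mod_add_div n N]
    exact hmod _ _
  change ‖D n‖ ≤ _
  rw [h1]
  exact Finset.single_le_sum (f := fun i => ‖D i‖) (fun i _ => norm_nonneg _)
    (Finset.mem_range.2 (Nat.mod_lt n hN))

/-- The error term of the partial sums, as a function of a real variable. -/
noncomputable def errFun (a : ℕ → ℂ) (c : ℂ) (t : ℝ) : ℂ :=
  (Ioi (1 : ℝ)).indicator (fun t => ∑ k ∈ Finset.Icc 1 ⌊t⌋₊, a k - c * t) t

theorem measurable_errFun (a : ℕ → ℂ) (c : ℂ) : Measurable (errFun a c) := by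
  unfold errFun
  refine Measurable.indicator ?_ measurableSet_Ioi
  refine Measurable.sub ?_ (by fun_prop)
  exact (measurable_from_nat (f := fun n => ∑ k ∈ Finset.Icc 1 n, a k)).comp Nat.measurable_floor

theorem norm_errFun_le {a : ℕ → ℂ} {c : ℂ} {B : ℝ}
    (h : ∀ n : ℕ, ‖∑ k ∈ Finset.Icc 1 n, a k - c * n‖ ≤ B) (t : ℝ) :
    ‖errFun a c t‖ ≤ B + ‖c‖ := by
  have hB : 0 ≤ B := (norm_nonneg _).trans (h 0)
  unfold errFun
  by_cases ht : t ∈ Ioi (1 : ℝ)
  · rw [indicator_of_mem ht]
    have ht0 : 0 ≤ t := by have : 1 < t := ht; linarith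
    have h1 := h ⌊t⌋₊
    have h2 : ‖c * ((⌊t⌋₊ : ℂ) - t)‖ ≤ ‖c‖ := by
      rw [norm_mul]
      have : ‖((⌊t⌋₊ : ℂ) - t)‖ ≤ 1 := by
        have e : ((⌊t⌋₊ : ℂ) - t) = (((⌊t⌋₊ : ℝ) - t : ℝ) : ℂ) := by push_cast; rfl
        rw [e, Complex.norm_real, Real.norm_eq_abs, abs_le]
        have := Nat.floor_le ht0
        have := Nat.lt_floor_add_one t
        constructor <;> linarith
      nlinarith [norm_nonneg c]
    calc _ = ‖(∑ k ∈ Finset.Icc 1 ⌊t⌋₊, a k - c * (⌊t⌋₊ : ℕ)) + c * ((⌊t⌋₊ : ℂ) - t)‖ := by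
          congr 1; ring
      _ ≤ _ := (norm_add_le _ _).trans (add_le_add h1 h2)
  · rw [indicator_of_notMem ht]; simp; positivity

theorem mellin_errFun (a : ℕ → ℂ) (c : ℂ) (s : ℂ) :
    mellin (errFun a c) (-s) =
      ∫ t in Ioi (1 : ℝ), (∑ k ∈ Finset.Icc 1 ⌊t⌋₊, a k - c * t) * (t : ℂ) ^ (-(s + 1)) := by
  unfold mellin
  have h1 : ∀ t : ℝ, (t : ℂ) ^ (-s - 1) • errFun a c t =
      (Ioi (1 : ℝ)).indicator
        (fun t : ℝ => (∑ k ∈ Finset.Icc 1 ⌊t⌋₊, a k - c * t) * (t : ℂ) ^ (-(s + 1))) t := by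
    intro t
    unfold errFun
    by_cases ht : t ∈ Ioi (1 : ℝ)
    · rw [indicator_of_mem ht, indicator_of_mem ht, smul_eq_mul, mul_comm]
      congr 2; ring
    · rw [indicator_of_notMem ht, indicator_of_notMem ht]; simp
  simp_rw [h1]
  rw [setIntegral_indicator measurableSet_Ioi]
  congr 2
  ext t
  simp only [mem_inter_iff, mem_Ioi]
  constructor
  · exact fun h => h.2
  · exact fun h => ⟨by linarith, h⟩

theorem differentiableAt_mellin_errFun {a : ℕ → ℂ} {c : ℂ} {B : ℝ}
    (h : ∀ n : ℕ, ‖∑ k ∈ Finset.Icc 1 n, a k - c * n‖ ≤ B) {s : ℂ} (hs : 0 < s.re) :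
    DifferentiableAt ℂ (fun s => mellin (errFun a c) (-s)) s := by
  have hd : DifferentiableAt ℂ (mellin (errFun a c)) (-s) := by
    refine mellin_differentiableAt_of_isBigO_rpow (a := 0) (b := -s.re - 1) ?_ ?_ ?_ ?_ ?_
    · refine LocallyIntegrable.locallyIntegrableOn ?_ _
      intro x
      refine ⟨Metric.ball x 1, Metric.ball_mem_nhds x one_pos, ?_⟩
      refine Measure.integrableOn_of_bounded (M := B + ‖c‖) ?_
        (measurable_errFun a c).aestronglyMeasurable ?_
      · exact measure_ball_lt_top.ne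
      · exact Eventually.of_forall fun t => norm_errFun_le h t
    · refine IsBigO.of_bound (B + ‖c‖) (Eventually.of_forall fun t => ?_)
      simpa using norm_errFun_le h t
    · simpa using hs
    · refine IsBigO.of_bound 0 ?_
      have : ∀ᶠ t in 𝓝[>] (0 : ℝ), t < 1 :=
        mem_nhdsWithin_of_mem_nhds (Iio_mem_nhds one_pos)
      filter_upwards [this] with t ht
      unfold errFun
      rw [indicator_of_notMem (by simpa using ht.le)]
      simp
    · simp
  exact hd.comp s differentiableAt_id.neg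

theorem norm_mellin_errFun_le {a : ℕ → ℂ} {c : ℂ} {B : ℝ}
    (h : ∀ n : ℕ, ‖∑ k ∈ Finset.Icc 1 n, a k - c * n‖ ≤ B) {s : ℂ} (hs : 0 < s.re) :
    ‖mellin (errFun a c) (-s)‖ ≤ (B + ‖c‖) / s.re := by
  rw [mellin_errFun]
  have hint : IntegrableOn (fun t : ℝ => (B + ‖c‖) * t ^ (-(s.re + 1))) (Ioi 1) :=
    (integrableOn_Ioi_rpow_of_lt (by linarith) one_pos).const_mul _
  calc _ ≤ ∫ t in Ioi (1 : ℝ), (B + ‖c‖) * t ^ (-(s.re + 1)) := by
        refine norm_integral_le_of_norm_le hint ?_
        rw [ae_restrict_iff' measurableSet_Ioi]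
        refine Eventually.of_forall fun t ht => ?_
        have ht1 : 1 < t := ht
        have h1 := norm_errFun_le h t
        unfold errFun at h1
        rw [indicator_of_mem ht] at h1
        rw [norm_mul, Complex.norm_cpow_eq_rpow_re_of_pos (by linarith)]
        have e : (-(s + 1)).re = -(s.re + 1) := by simp
        rw [e]
        gcongr
    _ = (B + ‖c‖) / s.re := by
        rw [integral_const_mul, integral_Ioi_rpow_of_lt (by linarith) one_pos]
        simp only [Real.one_rpow]
        have : -(s.re + 1) + 1 = -s.re := by ring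
        rw [this]
        field_simp

theorem LSeries_eq_err {a : ℕ → ℂ} {c : ℂ} {B : ℝ}
    (h : ∀ n : ℕ, ‖∑ k ∈ Finset.Icc 1 n, a k - c * n‖ ≤ B) {s : ℂ} (hs : 1 < s.re)
    (hS : LSeriesSummable a s) :
    LSeries a s = c * s / (s - 1) + s * mellin (errFun a c) (-s) := by
  have hB : 0 ≤ B := (norm_nonneg _).trans (h 0)
  have hO : (fun n => ∑ k ∈ Finset.Icc 1 n, a k) =O[atTop] fun n : ℕ => (n : ℝ) ^ (1 : ℝ) := by
    refine IsBigO.of_bound (B + ‖c‖) ?_
    filter_upwards [eventually_ge_atTop 1] with n hn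
    have hn' : (1 : ℝ) ≤ n := by exact_mod_cast hn
    have h1 := h n
    have h2 : ‖∑ k ∈ Finset.Icc 1 n, a k‖ ≤ B + ‖c‖ * n := by
      calc _ = ‖(∑ k ∈ Finset.Icc 1 n, a k - c * n) + c * n‖ := by congr 1; ring
        _ ≤ _ := (norm_add_le _ _).trans (add_le_add h1 (by rw [norm_mul]; simp))
    simp only [Real.rpow_one, Real.norm_natCast]
    nlinarith [norm_nonneg c]
  rw [LSeries_eq_mul_integral a zero_le_one hs hS hO, mellin_errFun]
  have hs1 : s - 1 ≠ 0 := by
    intro h0
    have := congrArg Complex.re h0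
    simp at this
    linarith
  have hre : (-s).re < -1 := by simp; linarith
  have hI1 : IntegrableOn (fun t : ℝ => c * (t : ℂ) ^ (-s)) (Ioi 1) :=
    (integrableOn_Ioi_cpow_of_lt hre one_pos).const_mul _
  have hI2 : IntegrableOn
      (fun t : ℝ => (∑ k ∈ Finset.Icc 1 ⌊t⌋₊, a k - c * t) * (t : ℂ) ^ (-(s + 1))) (Ioi 1) := by
    have hint : IntegrableOn (fun t : ℝ => (B + ‖c‖) * t ^ (-(s.re + 1))) (Ioi 1) :=
      (integrableOn_Ioi_rpow_of_lt (by linarith) one_pos).const_mul _
    refine Integrable.mono' hint ?_ ?_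
    · refine AEStronglyMeasurable.mul ?_ ?_
      · refine (Measurable.sub ?_ (by fun_prop)).aestronglyMeasurable
        exact (measurable_from_nat (f := fun n => ∑ k ∈ Finset.Icc 1 n, a k)).comp
          Nat.measurable_floor
      · exact (Measurable.pow_const (by fun_prop) _).aestronglyMeasurable
    · rw [ae_restrict_iff' measurableSet_Ioi]
      refine Eventually.of_forall fun t ht => ?_
      have ht1 : 1 < t := ht
      have h1 := norm_errFun_le h t
      unfold errFun at h1
      rw [indicator_of_mem ht] at h1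
      rw [norm_mul, Complex.norm_cpow_eq_rpow_re_of_pos (by linarith)]
      have e : (-(s + 1)).re = -(s.re + 1) := by simp
      rw [e]
      gcongr
  have hsplit : ∫ t in Ioi (1 : ℝ), (∑ k ∈ Finset.Icc 1 ⌊t⌋₊, a k) * (t : ℂ) ^ (-(s + 1)) =
      (∫ t in Ioi (1 : ℝ), c * (t : ℂ) ^ (-s)) + ∫ t in Ioi (1 : ℝ),
        (∑ k ∈ Finset.Icc 1 ⌊t⌋₊, a k - c * t) * (t : ℂ) ^ (-(s + 1)) := by
    rw [← integral_add hI1 hI2]
    refine setIntegral_congr_fun measurableSet_Ioi fun t ht => ?_
    have ht1 : 1 < t := ht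
    have ht0 : (t : ℂ) ≠ 0 := by exact_mod_cast (by linarith : t ≠ 0)
    have e : (t : ℂ) ^ (-s) = t * (t : ℂ) ^ (-(s + 1)) := by
      have : -s = 1 + -(s + 1) := by ring
      rw [this, Complex.cpow_add _ _ ht0, Complex.cpow_one]
    simp only [e]
    ring
  rw [hsplit, integral_const_mul, integral_Ioi_cpow_of_lt hre one_pos]
  have hs2 : -s + 1 ≠ 0 := by
    intro h0; apply hs1; linear_combination -h0
  simp only [ofReal_one, one_cpow]
  field_simp
  ring

/-- Polynomial growth of `L(s, χ)` in the right half plane. -/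
theorem LFunction_growth (N : ℕ) [NeZero N] (χ : DirichletCharacter ℂ N) :
    ∃ C : ℝ, 0 < C ∧ ∀ s : ℂ, 1 / 20 ≤ s.re → 1 ≤ s.im →
      ‖DirichletCharacter.LFunction χ s‖ ≤ C * ‖s‖ := by
  obtain ⟨c, B, h⟩ := periodic_partial_sums N (Nat.pos_of_ne_zero (NeZero.ne N))
    (fun n => χ n) (fun n => by simp)
  have hB : 0 ≤ B := (norm_nonneg _).trans (h 0)
  set U : Set ℂ := {s | 0 < s.re} ∩ {s | 0 < s.im} with hU
  have hUo : IsOpen U :=
    (isOpen_lt continuous_const Complex.continuous_re).inter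
      (isOpen_lt continuous_const Complex.continuous_im)
  have hUc : IsPreconnected U :=
    ((convex_halfSpace_re_gt 0).inter (convex_halfSpace_im_gt 0)).isPreconnected
  have hne : ∀ s ∈ U, s ≠ 1 := by
    intro s hs h1
    have := hs.2
    simp [h1] at this
  have h1 : AnalyticOnNhd ℂ (DirichletCharacter.LFunction χ) U := by
    refine DifferentiableOn.analyticOnNhd (fun s hs => ?_) hUo
    exact (DirichletCharacter.differentiableAt_LFunction χ s (Or.inl (hne s hs))).differentiableWithinAt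
  have h2 : AnalyticOnNhd ℂ
      (fun s => c * s / (s - 1) + s * mellin (errFun (fun n => χ n) c) (-s)) U := by
    refine DifferentiableOn.analyticOnNhd (fun s hs => ?_) hUo
    refine DifferentiableAt.differentiableWithinAt ?_
    refine DifferentiableAt.add ?_ (differentiableAt_id.mul (differentiableAt_mellin_errFun h hs.1))
    exact DifferentiableAt.div (by fun_prop) (by fun_prop) (sub_ne_zero.2 (hne s hs))
  have hz : (2 + I : ℂ) ∈ U := by constructor <;> simp
  have heq : DirichletCharacter.LFunction χ =ᶠ[𝓝 (2 + I)]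
      fun s => c * s / (s - 1) + s * mellin (errFun (fun n => χ n) c) (-s) := by
    have : ∀ᶠ s in 𝓝 (2 + I : ℂ), 1 < s.re :=
      (isOpen_lt continuous_const Complex.continuous_re).mem_nhds (by simp)
    filter_upwards [this] with s hs
    rw [DirichletCharacter.LFunction_eq_LSeries χ hs]
    exact LSeries_eq_err h hs (DirichletCharacter.LSeriesSummable_of_one_lt_re χ hs)
  have hEq := h1.eqOn_of_preconnected_of_eventuallyEq h2 hUc hz heq
  refine ⟨‖c‖ + 20 * (B + ‖c‖) + 1, by positivity, fun s hs1 hs2 => ?_⟩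
  have hsU : s ∈ U := ⟨by simp only [mem_ofPred_eq]; linarith, by simp only [mem_ofPred_eq]; linarith⟩
  rw [hEq hsU]
  have hre : 0 < s.re := by linarith
  have hm := norm_mellin_errFun_le h hre
  have hm' : ‖mellin (errFun (fun n => χ n) c) (-s)‖ ≤ 20 * (B + ‖c‖) := by
    refine hm.trans ?_
    rw [div_le_iff₀ hre]
    have : 0 ≤ B + ‖c‖ := by positivity
    nlinarith
  have hn1 : 1 ≤ ‖s - 1‖ := by
    have := Complex.abs_im_le_norm (s - 1)
    simp only [sub_im, one_im, sub_zero] at this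
    exact hs2.trans ((le_abs_self _).trans this)
  have hA : ‖c * s / (s - 1)‖ ≤ ‖c‖ * ‖s‖ := by
    rw [norm_div, norm_mul]
    exact div_le_self (by positivity) hn1
  calc _ ≤ ‖c * s / (s - 1)‖ + ‖s * mellin (errFun (fun n => χ n) c) (-s)‖ := norm_add_le _ _
    _ ≤ ‖c‖ * ‖s‖ + ‖s‖ * (20 * (B + ‖c‖)) := by
        rw [norm_mul]; gcongr
    _ ≤ _ := by nlinarith [norm_nonneg s]

/-- A uniform lower bound for `L(s, χ)` on the line `re s = 2`. -/
theorem LFunction_lower (N : ℕ) [NeZero N] (χ : DirichletCharacter ℂ N) :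
    ∃ δ : ℝ, 0 < δ ∧ ∀ s : ℂ, s.re = 2 → δ ≤ ‖DirichletCharacter.LFunction χ s‖ := by
  have hsum : Summable fun n : ℕ => ‖LSeries.term (fun _ => (1 : ℂ)) 2 n‖ := by
    have : LSeriesSummable (fun _ => (1 : ℂ)) 2 :=
      LSeriesSummable_of_bounded_of_one_lt_re (m := 1) (fun n _ => by simp) (by simp)
    exact this.norm
  set Z : ℝ := ∑' n : ℕ, ‖LSeries.term (fun _ => (1 : ℂ)) 2 n‖ with hZ
  have hZ0 : 0 ≤ Z := tsum_nonneg fun n => norm_nonneg _
  refine ⟨1 / (Z + 1), by positivity, fun s hs => ?_⟩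
  have hs1 : 1 < s.re := by rw [hs]; norm_num
  rw [DirichletCharacter.LFunction_eq_LSeries χ hs1]
  have hmul := DirichletCharacter.LSeries.mul_mu_eq_one χ hs1
  have hle : ‖LSeries ((fun n : ℕ => χ n) * fun n : ℕ => ((ArithmeticFunction.moebius n : ℤ) : ℂ)) s‖
      ≤ Z := by
    unfold LSeries
    refine tsum_of_norm_bounded hsum.hasSum fun n => ?_
    rw [LSeries.norm_term_eq, LSeries.norm_term_eq, hs]
    split_ifs with hn
    · exact le_rfl
    · simp only [norm_one, re_ofNat]
      gcongr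
      rw [Pi.mul_apply, norm_mul]
      have h1 := χ.norm_le_one (n : ZMod N)
      have h2 : ‖((ArithmeticFunction.moebius n : ℤ) : ℂ)‖ ≤ 1 := by
        rw [Complex.norm_intCast]
        exact_mod_cast ArithmeticFunction.abs_moebius_le_one
      nlinarith [norm_nonneg (χ (n : ZMod N)),
        norm_nonneg ((ArithmeticFunction.moebius n : ℤ) : ℂ)]
  have h1 := congrArg norm hmul
  rw [norm_mul, norm_one] at h1
  rw [div_le_iff₀ (by positivity)]
  have h0 := norm_nonneg (LSeries (fun n : ℕ => χ n) s)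
  nlinarith [mul_le_mul_of_nonneg_left hle h0]

end Pool.Agent.MP_f259ea_nt
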