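import Mathlib

/-!
Local zero counting and the pole expansion of the logarithmic derivative.
-/

set_option autoImplicit false

open Complex Set Filter Topology Metric

namespace Pool.Agent.MP_f259ea_nt

/-- Factor out finitely many zeros of an analytic function. -/
theorem exists_factor (K : Set ℂ) (f : ℂ → ℂ) (hf : AnalyticOnNhd ℂ f K) (m : ℂ → ℕ)
    (Z : Finset ℂ) (hZ : ∀ ρ ∈ Z, ρ ∈ K ∧ analyticOrderAt f ρ = m ρ) :
    ∃ g : ℂ → ℂ, AnalyticOnNhd ℂ g K ∧ (∀ z, f z = (∏ ρ ∈ Z, (z - ρ) ^ m ρ) * g z) ∧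
      ∀ ρ ∈ Z, g ρ ≠ 0 := by
  classical
  induction Z using Finset.induction_on with
  | empty => exact ⟨f, hf, by simp, by simp⟩
  | insert a Z ha ih =>
    obtain ⟨g, hg, hfg, hg0⟩ := ih fun ρ hρ => hZ ρ (Finset.mem_insert_of_mem hρ)
    obtain ⟨haK, hma⟩ := hZ a (Finset.mem_insert_self _ _)
    have hP : AnalyticAt ℂ (fun z => ∏ ρ ∈ Z, (z - ρ) ^ m ρ) a :=
      Finset.analyticAt_fun_prod _ fun ρ _ => by fun_prop
    have hPa : (∏ ρ ∈ Z, (a - ρ) ^ m ρ) ≠ 0 := by
      refine Finset.prod_ne_zero_iff.2 fun ρ hρ => pow_ne_zero _ (sub_ne_zero.2 ?_)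
      rintro rfl
      exact ha hρ
    have hord : analyticOrderAt g a = m a := by
      have e : f = (fun z => ∏ ρ ∈ Z, (z - ρ) ^ m ρ) * g := by
        ext z; simp [hfg z]
      rw [e, analyticOrderAt_mul hP (hg a haK), hP.analyticOrderAt_eq_zero.2 hPa, zero_add] at hma
      exact hma
    obtain ⟨h, hh, hha, hgh⟩ := (hg a haK).analyticOrderAt_eq_natCast.1 hord
    set g' : ℂ → ℂ := fun z => if z = a then h a else g z / (z - a) ^ m a with hg'
    have hev : g' =ᶠ[𝓝 a] h := by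
      filter_upwards [hgh] with z hz
      by_cases hza : z = a
      · simp [hg', hza]
      · simp only [hg', if_neg hza, hz, smul_eq_mul]
        have : (z - a) ^ m a ≠ 0 := pow_ne_zero _ (sub_ne_zero.2 hza)
        field_simp
    have hgg' : ∀ z, g z = (z - a) ^ m a * g' z := by
      intro z
      by_cases hza : z = a
      · subst hza
        have := hgh.self_of_nhds
        simpa [hg'] using this
      · simp only [hg', if_neg hza]
        have : (z - a) ^ m a ≠ 0 := pow_ne_zero _ (sub_ne_zero.2 hza)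
        field_simp
    refine ⟨g', fun z hz => ?_, fun z => ?_, fun ρ hρ => ?_⟩
    · by_cases hza : z = a
      · subst hza
        exact hh.congr hev.symm
      · have h1 : AnalyticAt ℂ (fun w => g w / (w - a) ^ m a) z :=
          (hg z hz).div (by fun_prop) (pow_ne_zero _ (sub_ne_zero.2 hza))
        refine h1.congr ?_
        filter_upwards [isOpen_ne.mem_nhds hza] with w hw
        simp [hg', hw]
    · rw [Finset.prod_insert ha, hfg z, hgg' z]; ring
    · rcases Finset.mem_insert.1 hρ with rfl | hρ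
      · simpa [hg'] using hha
      · intro h0
        exact hg0 ρ hρ (by rw [hgg' ρ, h0, mul_zero])

/-- Borel-Caratheodory bound for the logarithmic derivative of a zero-free function. -/
theorem logDeriv_bound_of_ne_zero (g : ℂ → ℂ) (c : ℂ) (M : ℝ) (hM : 0 < M)
    (hg : DifferentiableOn ℂ g (ball c (9 / 5)))
    (h0 : ∀ z ∈ ball c (9 / 5), g z ≠ 0)
    (hb : ∀ z ∈ ball c (9 / 5), ‖g z‖ ≤ Real.exp M * ‖g c‖) :
    ∀ z ∈ closedBall c (8 / 5), ‖logDeriv g z‖ ≤ 340 * M := by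
  have hd : DifferentiableOn ℂ (logDeriv g) (ball c (9 / 5)) := by
    have : logDeriv g = fun z => deriv g z / g z := by ext z; exact logDeriv_apply g z
    rw [this]
    exact (hg.deriv isOpen_ball).div hg h0
  obtain ⟨h, hc, hh⟩ := hd.isExactOn_ball.with_val_at c 0
  have hcb : c ∈ ball c (9 / 5 : ℝ) := mem_ball_self (by norm_num)
  have hconst : ∀ z ∈ ball c (9 / 5 : ℝ), g z * Complex.exp (-h z) = g c := by
    intro z hz
    have hD : ∀ w ∈ ball c (9 / 5 : ℝ),
        HasDerivAt (fun w => g w * Complex.exp (-h w)) 0 w := by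
      intro w hw
      have h1 : HasDerivAt g (deriv g w) w :=
        (hg.differentiableAt (isOpen_ball.mem_nhds hw)).hasDerivAt
      have h2 := (hh w hw).neg.cexp
      have h3 := h1.mul h2
      have e : deriv g w * cexp ((-h) w) + g w * (cexp ((-h) w) * -logDeriv g w) = 0 := by
        rw [logDeriv_apply]
        have := h0 w hw
        field_simp
        ring
      rw [e] at h3
      exact h3
    have := isOpen_ball.is_const_of_deriv_eq_zero (𝕜 := ℂ) (convex_ball c (9 / 5 : ℝ)).isPreconnected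
      (fun w hw => (hD w hw).differentiableAt.differentiableWithinAt)
      (fun w hw => (hD w hw).deriv) hz hcb
    simpa [hc] using this
  have hre : ∀ z ∈ ball c (9 / 5 : ℝ), (h z).re ≤ M := by
    intro z hz
    have e := hconst z hz
    have e2 : g z = g c * Complex.exp (h z) := by
      rw [← e, mul_assoc, ← Complex.exp_add]; simp
    have h1 := hb z hz
    rw [e2, norm_mul, Complex.norm_exp, mul_comm] at h1
    have hpos : 0 < ‖g c‖ := norm_pos_iff.2 (h0 c hcb)
    exact Real.exp_le_exp.1 (le_of_mul_le_mul_right h1 hpos)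
  have hhd : DifferentiableOn ℂ h (ball c (9 / 5)) :=
    fun w hw => (hh w hw).differentiableAt.differentiableWithinAt
  have hBC : ∀ z ∈ closedBall c (17 / 10 : ℝ), ‖h z‖ ≤ 34 * M := by
    intro z hz
    have hzc : ‖z - c‖ ≤ 17 / 10 := by rwa [mem_closedBall, dist_eq_norm] at hz
    have hmaps : ∀ w ∈ ball (0 : ℂ) (9 / 5 : ℝ), c + w ∈ ball c (9 / 5 : ℝ) := by
      intro w hw
      simpa [mem_ball, dist_eq_norm] using hw
    have := Complex.borelCaratheodory_zero (f := fun w => h (c + w)) (R := 9 / 5) (z := z - c) hM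
      (hhd.comp (by fun_prop) hmaps) (fun w hw => hre _ (hmaps w hw)) (by norm_num)
      (by rw [mem_ball_zero_iff]; linarith) (by simpa using hc)
    simp only [add_sub_cancel] at this
    refine this.trans ?_
    rw [div_le_iff₀ (by linarith)]
    nlinarith [norm_nonneg (z - c)]
  intro z hz
  have hzc : dist z c ≤ 8 / 5 := hz
  have hsub : closedBall z (1 / 10 : ℝ) ⊆ closedBall c (17 / 10 : ℝ) :=
    closedBall_subset_closedBall' (by linarith)
  have hsub2 : closedBall z (1 / 10 : ℝ) ⊆ ball c (9 / 5 : ℝ) :=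
    hsub.trans (closedBall_subset_ball (by norm_num))
  have hdc : DiffContOnCl ℂ h (ball z (1 / 10)) := by
    refine DifferentiableOn.diffContOnCl ?_
    rw [closure_ball z (by norm_num)]
    exact hhd.mono hsub2
  have hC := Complex.norm_deriv_le_of_forall_mem_sphere_norm_le (by norm_num) hdc
    (fun w hw => hBC w (hsub (sphere_subset_closedBall hw)))
  have hzb : z ∈ ball c (9 / 5 : ℝ) := hsub2 (mem_closedBall_self (by norm_num))
  rw [(hh z hzb).deriv] at hC
  linarith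

/-- Local structure of an analytic function on a disc: number of zeros and pole expansion. -/
theorem local_structure (f : ℂ → ℂ) (c : ℂ) (M : ℝ) (hM : 1 ≤ M)
    (hf : AnalyticOnNhd ℂ f (closedBall c (19 / 10))) (hc : f c ≠ 0)
    (hb : ∀ z ∈ sphere c (19 / 10), ‖f z‖ ≤ Real.exp M * ‖f c‖)
    (h1 : 1 ≤ Real.exp M * ‖f c‖) :
    ∃ Z : Finset ℂ, (∀ z, z ∈ Z ↔ z ∈ closedBall c (9 / 5) ∧ f z = 0) ∧
      (∀ ρ ∈ Z, 1 ≤ (analyticOrderAt f ρ).toNat) ∧
      (∑ ρ ∈ Z, ((analyticOrderAt f ρ).toNat : ℝ) ≤ 20 * M) ∧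
      ∀ z ∈ closedBall c (8 / 5), f z ≠ 0 →
        ‖logDeriv f z - ∑ ρ ∈ Z, ((analyticOrderAt f ρ).toNat : ℂ) / (z - ρ)‖ ≤ 30000 * M := by
  classical
  have hsub : closedBall c (9 / 5 : ℝ) ⊆ closedBall c (19 / 10 : ℝ) :=
    closedBall_subset_closedBall (by norm_num)
  have hf' := hf.mono hsub
  have htop : ∀ z ∈ closedBall c (19 / 10 : ℝ), analyticOrderAt f z ≠ ⊤ := by
    intro z hz
    refine hf.analyticOrderAt_ne_top_of_isPreconnected
      (convex_closedBall c _).isPreconnected (mem_closedBall_self (by norm_num)) hz ?_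
    rw [(hf c (mem_closedBall_self (by norm_num))).analyticOrderAt_eq_zero.2 hc]
    simp
  set m : ℂ → ℕ := fun ρ => (analyticOrderAt f ρ).toNat with hm
  have hmo : ∀ z ∈ closedBall c (19 / 10 : ℝ), analyticOrderAt f z = m z := by
    intro z hz
    simp only [hm]
    exact (ENat.natCast_toNat (htop z hz)).symm
  have hdiv : ∀ z ∈ closedBall c (9 / 5 : ℝ),
      MeromorphicOn.divisor f (closedBall c (9 / 5 : ℝ)) z = m z := by
    intro z hz
    rw [MeromorphicOn.AnalyticOnNhd.divisor_apply hf' hz, hmo z (hsub hz)]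
    simp
  have hfin := (MeromorphicOn.divisor f (closedBall c (9 / 5 : ℝ))).finiteSupport
    (isCompact_closedBall _ _)
  set Z : Finset ℂ := hfin.toFinset with hZdef
  have hZ : ∀ z, z ∈ Z ↔ z ∈ closedBall c (9 / 5) ∧ f z = 0 := by
    intro z
    simp only [hZdef, Set.Finite.mem_toFinset, Function.mem_support]
    constructor
    · intro h
      have hz : z ∈ closedBall c (9 / 5 : ℝ) := by
        by_contra hz
        exact h (Function.locallyFinsuppWithin.apply_eq_zero_of_notMem _ hz)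
      refine ⟨hz, ?_⟩
      by_contra h0
      apply h
      rw [hdiv z hz]
      simp only [hm]
      rw [(hf' z hz).analyticOrderAt_eq_zero.2 h0]
      simp
    · rintro ⟨hz, h0⟩
      rw [hdiv z hz]
      intro hm0
      have h2 : m z = 0 := by exact_mod_cast hm0
      have h3 := hmo z (hsub hz)
      rw [h2] at h3
      exact (hf' z hz).analyticOrderAt_eq_zero.1 (by simpa using h3) h0
  have hpos : ∀ ρ ∈ Z, 1 ≤ m ρ := by
    intro ρ hρ
    obtain ⟨hz, h0⟩ := (hZ ρ).1 hρ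
    by_contra hlt
    have h2 : m ρ = 0 := by omega
    have h3 := hmo ρ (hsub hz)
    rw [h2] at h3
    exact (hf' ρ hz).analyticOrderAt_eq_zero.1 (by simpa using h3) h0
  have hfc : 0 < ‖f c‖ := norm_pos_iff.2 hc
  have hcount : ∑ ρ ∈ Z, (m ρ : ℝ) ≤ 20 * M := by
    have hJ := AnalyticOnNhd.sum_divisor_le (c := c) (r := 9 / 5) (R := 19 / 10)
      (M := Real.exp M * ‖f c‖) (f := f) (by norm_num) (by norm_num [abs_of_pos]) h1
      (by rwa [abs_of_pos (by norm_num : (0 : ℝ) < 19 / 10)]) hc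
      (by rwa [abs_of_pos (by norm_num : (0 : ℝ) < 19 / 10)])
    rw [abs_of_pos (by norm_num : (0 : ℝ) < 9 / 5), mul_div_assoc, div_self hfc.ne', mul_one,
      Real.log_exp, finsum_eq_sum_of_support_subset (s := Z) _ (by simp [hZdef])] at hJ
    have e : ((∑ ρ ∈ Z, MeromorphicOn.divisor f (closedBall c (9 / 5 : ℝ)) ρ : ℤ) : ℝ)
        = ∑ ρ ∈ Z, (m ρ : ℝ) := by
      push_cast
      refine Finset.sum_congr rfl fun ρ hρ => ?_
      rw [hdiv ρ ((hZ ρ).1 hρ).1]
      simp
    rw [e] at hJ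
    refine hJ.trans ?_
    have hlog : (1 / 20 : ℝ) ≤ Real.log (19 / 10 / (9 / 5)) := by
      have := Real.one_sub_inv_le_log_of_pos (x := 19 / 10 / (9 / 5)) (by norm_num)
      linarith [show (1 / 20 : ℝ) ≤ 1 - (19 / 10 / (9 / 5))⁻¹ by norm_num]
    rw [div_le_iff₀ (by linarith)]
    nlinarith
  refine ⟨Z, hZ, hpos, hcount, fun z hz hz0 => ?_⟩
  obtain ⟨g, hg, hfg, hg0⟩ := exists_factor _ f hf m Z
    fun ρ hρ => ⟨hsub ((hZ ρ).1 hρ).1, hmo ρ (hsub ((hZ ρ).1 hρ).1)⟩
  set n : ℕ := ∑ ρ ∈ Z, m ρ with hn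
  have hnR : (n : ℝ) ≤ 20 * M := by rw [hn]; push_cast; exact hcount
  have hgne : ∀ w ∈ closedBall c (9 / 5 : ℝ), g w ≠ 0 := by
    intro w hw h0
    by_cases hwZ : w ∈ Z
    · exact hg0 w hwZ h0
    · exact hwZ ((hZ w).2 ⟨hw, by rw [hfg w, h0, mul_zero]⟩)
  have hgc : ‖f c‖ ≤ 2 ^ n * ‖g c‖ := by
    rw [hfg c, norm_mul, norm_prod, hn, ← Finset.prod_pow_eq_pow_sum]
    gcongr with ρ hρ
    rw [norm_pow]
    gcongr
    have := ((hZ ρ).1 hρ).1
    rw [mem_closedBall, dist_comm, dist_eq_norm] at this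
    linarith
  have hsph : ∀ w ∈ sphere c (19 / 10 : ℝ), ‖g w‖ ≤ Real.exp (M + 3 * n) * ‖g c‖ := by
    intro w hw
    have hP : (1 / 10 : ℝ) ^ n ≤ ‖∏ ρ ∈ Z, (w - ρ) ^ m ρ‖ := by
      rw [norm_prod, hn, ← Finset.prod_pow_eq_pow_sum]
      gcongr with ρ hρ
      rw [norm_pow]
      gcongr
      have h2 : dist ρ c ≤ 9 / 5 := ((hZ ρ).1 hρ).1
      have h3 : dist w c = 19 / 10 := hw
      have := dist_triangle w ρ c
      rw [dist_eq_norm w ρ] at this
      linarith
    have h2 := hb w hw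
    rw [hfg w, norm_mul] at h2
    have h3 : (1 / 10 : ℝ) ^ n * ‖g w‖ ≤ Real.exp M * (2 ^ n * ‖g c‖) := by
      calc _ ≤ ‖∏ ρ ∈ Z, (w - ρ) ^ m ρ‖ * ‖g w‖ := by gcongr
        _ ≤ _ := h2.trans (by gcongr)
    have h20 : (20 : ℝ) ^ n ≤ Real.exp (3 * n) := by
      rw [mul_comm, Real.exp_nat_mul]
      gcongr
      have := Real.exp_one_gt_d9
      have e3 : Real.exp 3 = Real.exp 1 ^ 3 := by rw [← Real.exp_nat_mul]; norm_num
      rw [e3]
      have : (2.7182818283 : ℝ) ^ 3 ≤ Real.exp 1 ^ 3 := by gcongr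
      linarith [show (20 : ℝ) ≤ (2.7182818283 : ℝ) ^ 3 by norm_num]
    have h10 : (0 : ℝ) < (1 / 10) ^ n := by positivity
    have e20 : (20 : ℝ) ^ n * (1 / 10) ^ n = 2 ^ n := by rw [← mul_pow]; norm_num
    refine le_of_mul_le_mul_left (h3.trans ?_) h10
    rw [Real.exp_add, ← e20]
    have := Real.exp_pos M
    have := norm_nonneg (g c)
    calc Real.exp M * (20 ^ n * (1 / 10) ^ n * ‖g c‖)
        ≤ Real.exp M * (Real.exp (3 * n) * (1 / 10) ^ n * ‖g c‖) := by gcongr
      _ = _ := by ring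
  have hball : ∀ w ∈ ball c (9 / 5 : ℝ), ‖g w‖ ≤ Real.exp (M + 3 * n) * ‖g c‖ := by
    intro w hw
    have hdc : DiffContOnCl ℂ g (ball c (19 / 10)) := by
      refine DifferentiableOn.diffContOnCl ?_
      rw [closure_ball c (by norm_num)]
      exact hg.differentiableOn
    refine Complex.norm_le_of_forall_mem_frontier_norm_le isBounded_ball hdc ?_ ?_
    · rw [frontier_ball c (by norm_num)]
      exact hsph
    · rw [closure_ball c (by norm_num)]
      exact hsub (ball_subset_closedBall hw)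
  have hL := logDeriv_bound_of_ne_zero g c (M + 3 * n) (by positivity)
    (hg.differentiableOn.mono (ball_subset_closedBall.trans hsub))
    (fun w hw => hgne w (ball_subset_closedBall hw)) hball z hz
  have hz' : z ∈ closedBall c (9 / 5 : ℝ) := closedBall_subset_closedBall (by norm_num) hz
  have hzρ : ∀ ρ ∈ Z, z - ρ ≠ 0 := by
    intro ρ hρ h0
    have : z = ρ := sub_eq_zero.1 h0
    exact hz0 (this ▸ ((hZ ρ).1 hρ).2)
  have hlog : logDeriv f z = ∑ ρ ∈ Z, (m ρ : ℂ) / (z - ρ) + logDeriv g z := by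
    have e : f = fun w => (∏ ρ ∈ Z, (w - ρ) ^ m ρ) * g w := funext hfg
    have hPz : (∏ ρ ∈ Z, (z - ρ) ^ m ρ) ≠ 0 :=
      Finset.prod_ne_zero_iff.2 fun ρ hρ => pow_ne_zero _ (hzρ ρ hρ)
    conv_lhs => rw [e]
    rw [logDeriv_mul z hPz (hgne z hz') (by fun_prop) (hg z (hsub hz')).differentiableAt,
      logDeriv_prod (f := fun ρ w => (w - ρ) ^ m ρ) (fun ρ hρ => pow_ne_zero _ (hzρ ρ hρ))
        (fun ρ _ => by fun_prop)]
    congr 1
    refine Finset.sum_congr rfl fun ρ hρ => ?_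
    rw [logDeriv_fun_pow (by fun_prop), logDeriv_apply]
    simp [div_eq_mul_inv]
  change ‖logDeriv f z - ∑ ρ ∈ Z, (m ρ : ℂ) / (z - ρ)‖ ≤ _
  rw [hlog, add_sub_cancel_left]
  nlinarith

/-- Pigeonhole: a point of `[t, t + 1]` far from finitely many given reals. -/
theorem exists_far_point (Z : Finset ℂ) (t : ℝ) :
    ∃ t' ∈ Icc t (t + 1), ∀ ρ ∈ Z, 1 / (2 * ((Z.card : ℝ) + 1)) ≤ |t' - ρ.im| := by
  classical
  set k : ℕ := Z.card with hk
  have hk1 : (0 : ℝ) < (k : ℝ) + 1 := by positivity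
  have hcard : (Z.image fun ρ => ⌊(ρ.im - t) * (k + 1)⌋).card <
      ((Finset.range (k + 1)).image fun j : ℕ => (j : ℤ)).card := by
    rw [Finset.card_image_of_injective _ Nat.cast_injective, Finset.card_range]
    exact Nat.lt_succ_of_le Finset.card_image_le
  obtain ⟨j, hj1, hj2⟩ := Finset.exists_mem_notMem_of_card_lt_card hcard
  obtain ⟨i, hi, rfl⟩ := Finset.mem_image.1 hj1
  have hik : (i : ℝ) ≤ k := by exact_mod_cast Nat.lt_succ_iff.1 (Finset.mem_range.1 hi)
  have hi0 : (0 : ℝ) ≤ i := Nat.cast_nonneg i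
  refine ⟨t + (i + 1 / 2) / (k + 1), ⟨?_, ?_⟩, fun ρ hρ => ?_⟩
  · have : 0 ≤ ((i : ℝ) + 1 / 2) / (k + 1) := by positivity
    linarith
  · have : ((i : ℝ) + 1 / 2) / (k + 1) ≤ 1 := by rw [div_le_one hk1]; linarith
    linarith
  · by_contra hlt
    push Not at hlt
    apply hj2
    refine Finset.mem_image.2 ⟨ρ, hρ, ?_⟩
    rw [Int.floor_eq_iff]
    rw [abs_lt] at hlt
    obtain ⟨h1, h2⟩ := hlt
    have e1 : (t + (i + 1 / 2) / (k + 1) - ρ.im) * (k + 1) = i + 1 / 2 - (ρ.im - t) * (k + 1) := by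
      field_simp; ring
    have e2 : (1 / (2 * ((k : ℝ) + 1))) * (k + 1) = 1 / 2 := by field_simp
    have h1' := mul_lt_mul_of_pos_right h1 hk1
    have h2' := mul_lt_mul_of_pos_right h2 hk1
    rw [e1] at h1' h2'
    rw [neg_mul, e2] at h1'
    rw [e2] at h2'
    push_cast
    constructor <;> linarith

end Pool.Agent.MP_f259ea_nt
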