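import Pool.Agent.MP_f259ea_nt.A_Stmts
import Pool.Agent.MP_f259ea_nt.A_HeightsGrowth
import Pool.Agent.MP_f259ea_nt.A_HeightsLocal

/-!
Good heights and local zero counts for Dirichlet L-functions.
-/

set_option autoImplicit false

open Complex Set Filter Topology Metric

namespace Pool.Agent.MP_f259ea_nt

theorem one_le_log_of_three_le {t : ℝ} (ht : 3 ≤ t) : 1 ≤ Real.log t := by
  rw [Real.le_log_iff_exp_le (by linarith)]
  linarith [Real.exp_one_lt_d9]

theorem mem_closedBall_of_rect {t : ℝ} {z : ℂ} (h1 : 1 / 2 ≤ z.re) (h2 : z.re ≤ 2)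
    (h3 : t ≤ z.im) (h4 : z.im ≤ t + 1) :
    z ∈ closedBall ((2 : ℂ) + ((t + 1 / 2 : ℝ) : ℂ) * I) (8 / 5) := by
  rw [mem_closedBall, dist_eq_norm, Complex.norm_eq_sqrt_sq_add_sq]
  refine Real.sqrt_le_iff.2 ⟨by norm_num, ?_⟩
  simp only [sub_re, add_re, re_ofNat, mul_re, ofReal_re, I_re, mul_zero, ofReal_im, I_im,
    mul_one, sub_self, add_zero, sub_im, add_im, im_ofNat, mul_im, zero_add]
  nlinarith

/-- Zeros of `L(s, χ)` near height `t` and the pole expansion of `L'/L`. -/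
theorem LFunction_local (N : ℕ) [NeZero N] (χ : DirichletCharacter ℂ N) :
    ∃ C : ℝ, 1 ≤ C ∧ ∀ t : ℝ, 3 ≤ t → ∃ Z : Finset ℂ,
      (∀ z, z ∈ Z ↔ z ∈ closedBall ((2 : ℂ) + ((t + 1 / 2 : ℝ) : ℂ) * I) (9 / 5) ∧
        DirichletCharacter.LFunction χ z = 0) ∧
      (∀ ρ ∈ Z, 1 ≤ (analyticOrderAt (DirichletCharacter.LFunction χ) ρ).toNat) ∧
      (∑ ρ ∈ Z, ((analyticOrderAt (DirichletCharacter.LFunction χ) ρ).toNat : ℝ)
        ≤ C * Real.log t) ∧
      ∀ z ∈ closedBall ((2 : ℂ) + ((t + 1 / 2 : ℝ) : ℂ) * I) (8 / 5),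
        DirichletCharacter.LFunction χ z ≠ 0 →
        ‖logDeriv (DirichletCharacter.LFunction χ) z -
          ∑ ρ ∈ Z, ((analyticOrderAt (DirichletCharacter.LFunction χ) ρ).toNat : ℂ) / (z - ρ)‖
          ≤ C * Real.log t := by
  obtain ⟨C, hC, hgr⟩ := LFunction_growth N χ
  obtain ⟨δ, hδ, hlow⟩ := LFunction_lower N χ
  set A : ℝ := (3 * C + 1) / δ with hA
  have hApos : 0 < A := by positivity
  have habs := abs_nonneg (Real.log A)
  refine ⟨30000 * (|Real.log A| + 2), by linarith, fun t ht => ?_⟩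
  have hlog := one_le_log_of_three_le ht
  set c : ℂ := (2 : ℂ) + ((t + 1 / 2 : ℝ) : ℂ) * I with hc
  have hcre : c.re = 2 := by simp [hc]
  have hcim : c.im = t + 1 / 2 := by simp [hc]
  set M : ℝ := |Real.log A| + 1 + Real.log t with hM
  have hM1 : 1 ≤ M := by linarith
  have hMle : M ≤ (|Real.log A| + 2) * Real.log t := by nlinarith
  have hball : ∀ z ∈ closedBall c (19 / 10 : ℝ), 1 / 20 ≤ z.re ∧ 1 ≤ z.im ∧ ‖z‖ ≤ 3 * t := by
    intro z hz
    rw [mem_closedBall, dist_eq_norm] at hz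
    have h1 := (abs_le.1 ((Complex.abs_re_le_norm (z - c)).trans hz)).1
    have h2 := (abs_le.1 ((Complex.abs_im_le_norm (z - c)).trans hz)).1
    rw [sub_re, hcre] at h1
    rw [sub_im, hcim] at h2
    refine ⟨by linarith, by linarith, ?_⟩
    have h3 : ‖c‖ ≤ 2 + (t + 1 / 2) := by
      refine (Complex.norm_le_abs_re_add_abs_im c).trans ?_
      rw [hcre, hcim, abs_of_pos (by norm_num), abs_of_pos (by linarith)]
    have h4 : ‖z‖ ≤ ‖z - c‖ + ‖c‖ := norm_le_norm_sub_add _ _
    linarith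
  have han : AnalyticOnNhd ℂ (DirichletCharacter.LFunction χ) (closedBall c (19 / 10)) := by
    have hU : IsOpen {s : ℂ | 0 < s.im} := isOpen_lt continuous_const Complex.continuous_im
    refine (DifferentiableOn.analyticOnNhd (s := {s : ℂ | 0 < s.im}) (fun s hs => ?_) hU).mono ?_
    · refine (DirichletCharacter.differentiableAt_LFunction χ s (Or.inl ?_)).differentiableWithinAt
      rintro rfl
      simp at hs
    · intro z hz
      have := (hball z hz).2.1
      change 0 < z.im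
      linarith
  have hLc := hlow c hcre
  have hexp : A * t ≤ Real.exp M := by
    rw [hM, Real.exp_add, Real.exp_log (by linarith)]
    gcongr
    calc A = Real.exp (Real.log A) := (Real.exp_log hApos).symm
      _ ≤ _ := Real.exp_le_exp.2 (by linarith [le_abs_self (Real.log A)])
  have hbig : (3 * C + 1) * t ≤ Real.exp M * ‖DirichletCharacter.LFunction χ c‖ := by
    calc (3 * C + 1) * t = A * t * δ := by rw [hA]; field_simp
      _ ≤ _ := by gcongr
  obtain ⟨Z, hZ, hpos, hcount, hpf⟩ := local_structure (DirichletCharacter.LFunction χ) c M hM1 han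
    (norm_pos_iff.1 (hδ.trans_le hLc))
    (fun z hz => by
      obtain ⟨h1, h2, h3⟩ := hball z (sphere_subset_closedBall hz)
      have := hgr z h1 h2
      nlinarith)
    (by nlinarith)
  refine ⟨Z, hZ, hpos, hcount.trans (by nlinarith), fun z hz hz0 => (hpf z hz hz0).trans ?_⟩
  nlinarith

theorem stmtCount : StmtCount := by
  classical
  intro N _ χ
  obtain ⟨C, _, h⟩ := LFunction_local N χ
  refine ⟨C, 3, fun t ht Z' hZ' => ?_⟩
  obtain ⟨Z, hZ, -, hcount, -⟩ := h t ht
  refine le_trans ?_ hcount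
  have key : ∑ ρ ∈ Z', (analyticOrderAt (DirichletCharacter.LFunction χ) ρ).toNat ≤
      ∑ ρ ∈ Z, (analyticOrderAt (DirichletCharacter.LFunction χ) ρ).toNat := ?_
  · exact_mod_cast key
  refine Finset.sum_le_sum_of_ne_zero fun ρ hρ hne => ?_
  obtain ⟨h1, h2, h3, h4⟩ := hZ' ρ hρ
  refine (hZ ρ).2 ⟨closedBall_subset_closedBall (by norm_num) (mem_closedBall_of_rect h1 h2 h3 h4),
    ?_⟩
  refine apply_eq_zero_of_analyticOrderAt_ne_zero fun h0 => hne ?_
  rw [h0]; simp

theorem stmtHeights : StmtHeights := by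
  intro N _ χ
  obtain ⟨C, hC, h⟩ := LFunction_local N χ
  refine ⟨C + 4 * C ^ 2, 3, fun t ht => ?_⟩
  obtain ⟨Z, hZ, hpos, hcount, hpf⟩ := h t ht
  have hlog := one_le_log_of_three_le ht
  obtain ⟨t', ht', hfar⟩ := exists_far_point Z t
  refine ⟨t', ht', fun σ hσ => ?_⟩
  set z : ℂ := σ + t' * I with hz
  have hzre : z.re = σ := by simp [hz]
  have hzim : z.im = t' := by simp [hz]
  have hzb := mem_closedBall_of_rect (t := t) (z := z) (by rw [hzre]; exact hσ.1)
    (by rw [hzre]; exact hσ.2) (by rw [hzim]; exact ht'.1) (by rw [hzim]; exact ht'.2)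
  have hk : (0 : ℝ) < 1 / (2 * ((Z.card : ℝ) + 1)) := by positivity
  have hne : DirichletCharacter.LFunction χ z ≠ 0 := by
    intro h0
    have hzZ := (hZ z).2 ⟨closedBall_subset_closedBall (by norm_num) hzb, h0⟩
    have := hfar z hzZ
    rw [hzim, sub_self, abs_zero] at this
    linarith
  refine ⟨hne, ?_⟩
  have h1 := hpf z hzb hne
  have hcard : (Z.card : ℝ) ≤ C * Real.log t := by
    refine le_trans ?_ hcount
    rw [Finset.card_eq_sum_ones]
    push_cast
    exact Finset.sum_le_sum fun ρ hρ => by exact_mod_cast hpos ρ hρ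
  have hCl : 1 ≤ C * Real.log t := by nlinarith
  have h2 : ‖∑ ρ ∈ Z, ((analyticOrderAt (DirichletCharacter.LFunction χ) ρ).toNat : ℂ) / (z - ρ)‖
      ≤ C * Real.log t * (4 * (C * Real.log t)) := by
    refine (norm_sum_le _ _).trans ?_
    calc _ ≤ ∑ ρ ∈ Z, ((analyticOrderAt (DirichletCharacter.LFunction χ) ρ).toNat : ℝ) *
          (4 * (C * Real.log t)) := by
          refine Finset.sum_le_sum fun ρ hρ => ?_
          rw [norm_div, Complex.norm_natCast, div_eq_mul_inv]
          gcongr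
          have h3 : 1 / (2 * ((Z.card : ℝ) + 1)) ≤ ‖z - ρ‖ := by
            refine (hfar ρ hρ).trans ?_
            have := Complex.abs_im_le_norm (z - ρ)
            rwa [sub_im, hzim] at this
          calc ‖z - ρ‖⁻¹ ≤ (1 / (2 * ((Z.card : ℝ) + 1)))⁻¹ := inv_anti₀ hk h3
            _ = 2 * ((Z.card : ℝ) + 1) := by simp
            _ ≤ _ := by linarith
      _ ≤ _ := by rw [← Finset.sum_mul]; gcongr
  have h3 := norm_le_norm_sub_add (logDeriv (DirichletCharacter.LFunction χ) z)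
    (∑ ρ ∈ Z, ((analyticOrderAt (DirichletCharacter.LFunction χ) ρ).toNat : ℂ) / (z - ρ))
  have h4 : C * Real.log t ≤ C * Real.log t ^ 2 := by
    have : Real.log t ≤ Real.log t ^ 2 := by nlinarith
    gcongr
  nlinarith

end Pool.Agent.MP_f259ea_nt
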