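import Pool.Agent.MP_f259ea_nt.A_Stmts

/-!
The logarithmic derivative of the Gamma factor on the critical line.
-/

set_option autoImplicit false

open Complex Set Filter Topology
open scoped Real

namespace Pool.Agent.MP_f259ea_nt

lemma ne_neg_nat_of_re_pos {s : ℂ} (hs : 0 < s.re) (m : ℕ) : s ≠ -m := by
  intro h
  rw [h] at hs
  simp only [neg_re, natCast_re] at hs
  linarith [m.cast_nonneg (α := ℝ)]

lemma digamma_add_nat {s : ℂ} (hs : 0 < s.re) (n : ℕ) :
    digamma (s + n) = digamma s + ∑ j ∈ Finset.range n, (s + j)⁻¹ := by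
  induction n with
  | zero => simp
  | succ n ih =>
    rw [Finset.sum_range_succ, ← add_assoc, ← ih, Nat.cast_succ, ← add_assoc,
      digamma_apply_add_one]
    refine ne_neg_nat_of_re_pos ?_
    simp only [add_re, natCast_re]
    linarith [n.cast_nonneg (α := ℝ)]

lemma digamma_ofReal_bounds {y : ℝ} (hy : 1 < y) :
    ∃ r : ℝ, digamma y = r ∧ Real.log (y - 1) ≤ r ∧ r ≤ Real.log y := by
  have hy0 : 0 < y := by linarith
  have hd : DifferentiableAt ℂ Gamma (y : ℂ) :=
    differentiableAt_Gamma _ (ne_neg_nat_of_re_pos (by simpa using hy0))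
  have hr : DifferentiableAt ℝ Real.Gamma y :=
    Real.differentiableAt_Gamma fun m => by linarith [m.cast_nonneg (α := ℝ)]
  have h1 : HasDerivAt (fun x : ℝ => Gamma (x : ℂ)) (deriv Gamma (y : ℂ)) y :=
    hd.hasDerivAt.comp_ofReal
  have h2 : HasDerivAt (fun x : ℝ => Gamma (x : ℂ)) ((deriv Real.Gamma y : ℝ) : ℂ) y := by
    simp only [Gamma_ofReal]
    exact hr.hasDerivAt.ofReal_comp
  have hpos := Real.Gamma_pos_of_pos hy0
  have h3 : HasDerivAt (Real.log ∘ Real.Gamma) (deriv Real.Gamma y / Real.Gamma y) y :=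
    hr.hasDerivAt.log hpos.ne'
  refine ⟨deriv Real.Gamma y / Real.Gamma y, ?_, ?_, ?_⟩
  · rw [digamma_def, logDeriv_apply, h1.unique h2, Gamma_ofReal]; push_cast; rfl
  · have := Real.convexOn_log_Gamma.slope_le_of_hasDerivAt (x := y - 1) (y := y)
      (by simp only [mem_Ioi]; linarith) hy0 (by linarith) h3
    refine le_trans (le_of_eq ?_) this
    have e : Real.Gamma y = (y - 1) * Real.Gamma (y - 1) := by
      rw [← Real.Gamma_add_one (by linarith)]; congr 1; ring
    rw [slope_def_field]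
    simp only [Function.comp_apply]
    rw [e, Real.log_mul (by linarith) (Real.Gamma_pos_of_pos (by linarith)).ne']
    simp
  · have := Real.convexOn_log_Gamma.le_slope_of_hasDerivAt (x := y) (y := y + 1)
      hy0 (by simp only [mem_Ioi]; linarith) (by linarith) h3
    refine this.trans (le_of_eq ?_)
    rw [slope_def_field]
    simp only [Function.comp_apply]
    rw [Real.Gamma_add_one hy0.ne', Real.log_mul hy0.ne' hpos.ne']
    simp

lemma digamma_diff_tendsto {x : ℝ} (hx : 0 < x) (hx2 : x ≤ 2) :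
    Tendsto (fun n : ℕ => digamma ((x : ℂ) + n) - digamma (1 + n)) atTop (𝓝 0) := by
  have hlim : Tendsto (fun n : ℕ => 3 / ((n : ℝ) - 1)) atTop (𝓝 0) :=
    tendsto_const_nhds.div_atTop (tendsto_atTop_add_const_right _ (-1) tendsto_natCast_atTop_atTop)
  refine squeeze_zero_norm' ?_ hlim
  filter_upwards [eventually_ge_atTop 2] with n hn
  have hn' : (2 : ℝ) ≤ n := by exact_mod_cast hn
  obtain ⟨r, h1, h2, h3⟩ := digamma_ofReal_bounds (y := x + n) (by linarith)
  obtain ⟨r', h1', h2', h3'⟩ := digamma_ofReal_bounds (y := 1 + n) (by linarith)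
  push_cast at h1 h1'
  rw [h1, h1', ← ofReal_sub, norm_real, Real.norm_eq_abs]
  have a1 : Real.log ((n : ℝ) - 1) ≤ Real.log (x + n - 1) := Real.log_le_log (by linarith) (by linarith)
  have a2 : Real.log ((n : ℝ) - 1) ≤ Real.log (1 + n - 1) := Real.log_le_log (by linarith) (by linarith)
  have a3 : Real.log (x + n) ≤ Real.log (n + 2) := Real.log_le_log (by linarith) (by linarith)
  have a4 : Real.log (1 + n) ≤ Real.log (n + 2) := Real.log_le_log (by linarith) (by linarith)
  have a5 : Real.log (((n : ℝ) + 2) / (n - 1)) ≤ (n + 2) / (n - 1) - 1 :=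
    Real.log_le_sub_one_of_pos (div_pos (by linarith) (by linarith))
  rw [Real.log_div (by linarith) (by linarith)] at a5
  have a6 : ((n : ℝ) + 2) / (n - 1) - 1 = 3 / (n - 1) := by
    have : (n : ℝ) - 1 ≠ 0 := by linarith
    field_simp; ring
  rw [abs_le]
  constructor <;> linarith

/-- the terms of the digamma series -/
noncomputable def dgTerm (j : ℕ) (s : ℂ) : ℂ := ((1 : ℂ) + j)⁻¹ - (s + j)⁻¹

lemma norm_dgTerm {s : ℂ} (hs : 0 < s.re) (j : ℕ) :
    ‖dgTerm j s‖ ≤ ‖s - 1‖ / ((1 + j) * (s.re + j)) := by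
  have hj : (0 : ℝ) ≤ j := j.cast_nonneg
  have h1 : s.re + j ≤ ‖s + j‖ := by simpa using re_le_norm (s + j)
  have h2 : s + j ≠ 0 := norm_pos_iff.1 (by linarith)
  have h3 : ‖(1 : ℂ) + j‖ = 1 + j := by
    rw [show (1 : ℂ) + j = ((1 + j : ℝ) : ℂ) by push_cast; rfl, norm_real,
      Real.norm_of_nonneg (by linarith)]
  have h4 : (1 : ℂ) + j ≠ 0 := norm_pos_iff.1 (by linarith)
  have e : dgTerm j s = (s - 1) / ((1 + j) * (s + j)) := by
    unfold dgTerm; field_simp; ring
  rw [e, norm_div, norm_mul, h3]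
  gcongr

lemma digamma_series {s : ℂ} (hs : 1 / 8 < s.re) :
    Tendsto (fun n => ∑ j ∈ Finset.range n, dgTerm j s) atTop (𝓝 (digamma s - digamma 1)) := by
  set R : ℝ := ‖s‖ + 2 with hR
  let U : Set ℂ := {z | 1 / 8 < z.re} ∩ Metric.ball 0 R
  have hUo : IsOpen U := (isOpen_lt continuous_const continuous_re).inter Metric.isOpen_ball
  have hUc : IsPreconnected U :=
    ((convex_halfSpace_re_gt (1 / 8)).inter (convex_ball 0 R)).isPreconnected
  have hsU : s ∈ U := ⟨hs, by simp [hR]⟩
  have h1U : (1 : ℂ) ∈ U := ⟨by norm_num, by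
    simp only [Metric.mem_ball, dist_zero_right, norm_one]; linarith [norm_nonneg s]⟩
  have hsum : Summable fun j : ℕ => 8 * (R + 1) * (1 / ((j : ℝ) + 1) ^ 2) := by
    refine Summable.mul_left _ ?_
    have := (summable_nat_add_iff 1).2 (Real.summable_one_div_nat_pow.2 one_lt_two)
    simpa using this
  have hbd : ∀ (j : ℕ) (z : ℂ), z ∈ U → ‖dgTerm j z‖ ≤ 8 * (R + 1) * (1 / ((j : ℝ) + 1) ^ 2) := by
    intro j z hz
    have hz1 : 1 / 8 < z.re := hz.1
    have hz2 : ‖z‖ < R := by simpa using hz.2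
    have hj : (0 : ℝ) ≤ j := j.cast_nonneg
    refine (norm_dgTerm (by linarith) j).trans ?_
    have h1 : ‖z - 1‖ ≤ R + 1 := (norm_sub_le _ _).trans (by rw [norm_one]; linarith)
    calc ‖z - 1‖ / ((1 + j) * (z.re + j)) ≤ (R + 1) / ((1 + j) * ((1 + j) / 8)) := by
          refine div_le_div₀ (by linarith [norm_nonneg (z - 1)]) h1 (by positivity) ?_
          exact mul_le_mul_of_nonneg_left (by linarith) (by linarith)
      _ = _ := by field_simp; ring
  have hF : DifferentiableOn ℂ (fun z => ∑' j, dgTerm j z) U := by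
    refine differentiableOn_tsum_of_summable_norm hsum (fun j z hz => ?_) hUo hbd
    have hz1 : 1 / 8 < z.re := hz.1
    have h2 : z + j ≠ 0 := fun h => ne_neg_nat_of_re_pos (s := z) (by linarith) j
      (eq_neg_of_add_eq_zero_left h)
    have h3 : DifferentiableAt ℂ (fun w : ℂ => w + j) z := differentiableAt_id.add_const _
    exact ((differentiableAt_const _).sub (h3.inv h2)).differentiableWithinAt
  have hG : AnalyticOnNhd ℂ Gamma U := by
    refine DifferentiableOn.analyticOnNhd (fun z hz => ?_) hUo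
    have hz1 : 1 / 8 < z.re := hz.1
    exact (differentiableAt_Gamma _ (ne_neg_nat_of_re_pos (by linarith))).differentiableWithinAt
  have hψ : AnalyticOnNhd ℂ (fun z => digamma z - digamma 1) U := by
    refine AnalyticOnNhd.sub ?_ analyticOnNhd_const
    refine hG.deriv.div hG fun z hz => ?_
    have hz1 : 1 / 8 < z.re := hz.1
    exact Gamma_ne_zero (ne_neg_nat_of_re_pos (by linarith))
  have hlim : ∀ z ∈ U, Tendsto (fun n => ∑ j ∈ Finset.range n, dgTerm j z) atTop
      (𝓝 (∑' j, dgTerm j z)) := fun z hz =>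
    (Summable.of_norm_bounded hsum fun j => hbd j z hz).hasSum.tendsto_sum_nat
  have hreal : ∀ x : ℝ, 1 / 8 < x → x < 2 → ∑' j, dgTerm j x = digamma x - digamma 1 := by
    intro x h1 h2
    have hxU : (x : ℂ) ∈ U := ⟨by simpa using h1, by
      simp only [Metric.mem_ball, dist_zero_right, norm_real, Real.norm_eq_abs]
      rw [abs_of_pos (by linarith)]; linarith [norm_nonneg s]⟩
    refine tendsto_nhds_unique (hlim _ hxU) ?_
    have := (digamma_diff_tendsto (x := x) (by linarith) h2.le).const_sub (digamma x - digamma 1)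
    rw [sub_zero] at this
    refine this.congr fun n => ?_
    rw [digamma_add_nat (by simp; linarith), digamma_add_nat (by simp)]
    simp only [dgTerm, Finset.sum_sub_distrib]
    ring
  have hfreq : ∃ᶠ z in 𝓝[≠] (1 : ℂ), ∑' j, dgTerm j z = digamma z - digamma 1 := by
    have ht : Tendsto (fun x : ℝ => (x : ℂ)) (𝓝[≠] 1) (𝓝[≠] 1) := by
      refine tendsto_nhdsWithin_iff.2 ⟨?_, ?_⟩
      · exact (continuous_ofReal.tendsto 1).mono_left nhdsWithin_le_nhds
      · filter_upwards [self_mem_nhdsWithin] with x hx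
        simpa using hx
    refine ht.frequently (Eventually.frequently ?_)
    filter_upwards [nhdsWithin_le_nhds (Ioo_mem_nhds (show (1 / 8 : ℝ) < 1 by norm_num) one_lt_two)]
      with x hx using hreal x hx.1 hx.2
  have := (hF.analyticOnNhd hUo).eqOn_of_preconnected_of_frequently_eq hψ hUc h1U hfreq hsU
  simp only at this
  rw [← this]
  exact hlim s hsU

lemma digamma_sub_log {s : ℂ} (hs : 1 / 8 < s.re) (hs1 : s.re ≤ 1) (hy : 1 ≤ s.im) :
    ‖digamma s - (Real.log s.im : ℝ)‖ ≤ ‖digamma 1‖ + 8 := by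
  set y := s.im with hydef
  set n := ⌈y⌉₊ + 1 with hn
  have hn1 : y + 1 ≤ n := by rw [hn]; push_cast; linarith [Nat.le_ceil y]
  have hn2 : (n : ℝ) ≤ 3 * y := by
    rw [hn]; push_cast; linarith [Nat.ceil_lt_add_one (show 0 ≤ y by linarith)]
  have hn0 : (0 : ℝ) < n := by linarith
  have hs2 : ‖s - 1‖ ≤ n := by
    refine (norm_le_abs_re_add_abs_im _).trans ?_
    simp only [sub_re, one_re, sub_im, one_im, sub_zero]
    rw [abs_of_nonpos (by linarith), abs_of_pos (by linarith)]
    linarith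
  have hA : ‖∑ j ∈ Finset.range n, dgTerm j s - (Real.log y : ℝ)‖ ≤ 7 := by
    have e : ∑ j ∈ Finset.range n, dgTerm j s - (Real.log y : ℝ) =
        (((harmonic n : ℝ) - Real.log y : ℝ) : ℂ) - ∑ j ∈ Finset.range n, (s + j)⁻¹ := by
      simp only [dgTerm, Finset.sum_sub_distrib, harmonic]
      push_cast
      simp only [add_comm (1 : ℂ)]
      ring
    rw [e]
    refine (norm_sub_le _ _).trans ?_
    have h1 : ‖∑ j ∈ Finset.range n, (s + j)⁻¹‖ ≤ 3 := by
      refine (norm_sum_le_of_le _ (n := fun _ => y⁻¹) fun j _ => ?_).trans ?_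
      · rw [norm_inv]
        refine inv_anti₀ (by linarith) ?_
        simpa using im_le_norm (s + j)
      · simp only [Finset.sum_const, Finset.card_range, nsmul_eq_mul]
        rw [← div_eq_mul_inv, div_le_iff₀ (by linarith)]; exact hn2
    have h2 := log_add_one_le_harmonic n
    have h3 := harmonic_le_one_add_log n
    push_cast at h2
    have h4 : Real.log y ≤ Real.log (n + 1) := Real.log_le_log (by linarith) (by linarith)
    have h5 : Real.log n ≤ Real.log 3 + Real.log y := by
      rw [← Real.log_mul (by norm_num) (by linarith)]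
      exact Real.log_le_log hn0 hn2
    have h6 : Real.log 3 ≤ 2 := by
      linarith [Real.log_le_sub_one_of_pos (show (0 : ℝ) < 3 by norm_num)]
    rw [norm_real, Real.norm_eq_abs, abs_of_nonneg (by linarith)]
    linarith
  have hB : ∀ m : ℕ, ‖∑ j ∈ Finset.range (n + m), dgTerm j s - (Real.log y : ℝ)‖ ≤
      8 - n / (n + m) := by
    intro m
    induction m with
    | zero => simp only [add_zero, Nat.cast_zero, div_self hn0.ne']; linarith
    | succ m ih =>
      rw [← add_assoc, Finset.sum_range_succ, add_sub_right_comm]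
      refine (norm_add_le _ _).trans ?_
      have hm : (0 : ℝ) ≤ m := m.cast_nonneg
      have h1 := norm_dgTerm (s := s) (by linarith) (n + m)
      have h2 : ‖s - 1‖ / ((1 + (n + m : ℕ)) * (s.re + (n + m : ℕ))) ≤
          n / ((1 + (n + m)) * (n + m)) := by
        push_cast
        refine div_le_div₀ hn0.le hs2 (by positivity) ?_
        exact mul_le_mul_of_nonneg_left (by linarith) (by linarith)
      have h3 : (n : ℝ) / ((1 + (n + m)) * (n + m)) = n / (n + m) - n / (n + (m + 1 : ℕ)) := by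
        push_cast; field_simp; ring
      linarith
  have hC : ‖digamma s - digamma 1 - (Real.log y : ℝ)‖ ≤ 8 := by
    have ht := ((digamma_series hs).comp (tendsto_add_atTop_nat n)).sub_const
      ((Real.log y : ℝ) : ℂ)
    refine le_of_tendsto ht.norm (Eventually.of_forall fun m => ?_)
    have := hB m
    have h0 : (0 : ℝ) ≤ n / (n + m) := by positivity
    simp only [Function.comp_apply, add_comm m n]
    linarith
  calc ‖digamma s - (Real.log y : ℝ)‖ = ‖digamma 1 + (digamma s - digamma 1 - (Real.log y : ℝ))‖ := by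
        congr 1; ring
    _ ≤ _ := (norm_add_le _ _).trans (by linarith)

lemma logDeriv_Gammaℝ {s : ℂ} (hs : 0 < s.re) :
    logDeriv Gammaℝ s = -(Complex.log π) / 2 + digamma (s / 2) / 2 := by
  have hs2 : 0 < (s / 2).re := by simp; linarith
  have hπ : (π : ℂ) ≠ 0 := by exact_mod_cast Real.pi_ne_zero
  have h1 : HasDerivAt (fun z : ℂ => (π : ℂ) ^ (-z / 2)) ((π : ℂ) ^ (-s / 2) * Complex.log π * (-1 / 2))
      s := ((hasDerivAt_id' s).neg.div_const 2).const_cpow (Or.inl hπ)
  have h2 : HasDerivAt (fun z : ℂ => Gamma (z / 2)) (deriv Gamma (s / 2) * (1 / 2)) s :=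
    (differentiableAt_Gamma _ (ne_neg_nat_of_re_pos hs2)).hasDerivAt.comp s
      ((hasDerivAt_id' s).div_const 2)
  have h3 : HasDerivAt Gammaℝ _ s := h1.fun_mul h2
  have h4 : (π : ℂ) ^ (-s / 2) ≠ 0 := by
    rw [Ne, cpow_eq_zero_iff]; tauto
  have h5 := Gamma_ne_zero (ne_neg_nat_of_re_pos hs2)
  rw [logDeriv_apply, h3.deriv, digamma_def, logDeriv_apply, Gammaℝ_def]
  field_simp

lemma logDeriv_Gammaℝ_bound {σ t : ℝ} (h1 : 1 / 2 ≤ σ) (h2 : σ ≤ 2) (ht : 2 ≤ t) :
    ‖logDeriv Gammaℝ (σ + t * I) - ((Real.log t / 2 : ℝ) : ℂ)‖ ≤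
      ‖Complex.log π‖ + ‖digamma 1‖ + 9 := by
  rw [logDeriv_Gammaℝ (by simp; linarith)]
  have e1 : ((σ + t * I : ℂ) / 2).re = σ / 2 := by simp
  have e2 : ((σ + t * I : ℂ) / 2).im = t / 2 := by simp
  have h3 := digamma_sub_log (s := (σ + t * I) / 2) (by rw [e1]; linarith) (by rw [e1]; linarith)
    (by rw [e2]; linarith)
  rw [e2, Real.log_div (by linarith) (by norm_num)] at h3
  have e : -(Complex.log π) / 2 + digamma ((σ + t * I) / 2) / 2 - ((Real.log t / 2 : ℝ) : ℂ) =
      (-(Complex.log π) + (digamma ((σ + t * I) / 2) - ((Real.log t - Real.log 2 : ℝ) : ℂ))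
        - ((Real.log 2 : ℝ) : ℂ)) / 2 := by
    push_cast; ring
  rw [e, norm_div]
  have h4 := norm_sub_le (-(Complex.log π) + (digamma ((σ + t * I) / 2) -
    ((Real.log t - Real.log 2 : ℝ) : ℂ))) ((Real.log 2 : ℝ) : ℂ)
  have h5 := norm_add_le (-(Complex.log π)) (digamma ((σ + t * I) / 2) -
    ((Real.log t - Real.log 2 : ℝ) : ℂ))
  have h6 : ‖((Real.log 2 : ℝ) : ℂ)‖ ≤ 1 := by
    rw [norm_real, Real.norm_of_nonneg (Real.log_nonneg one_le_two)]
    linarith [Real.log_le_sub_one_of_pos (show (0 : ℝ) < 2 by norm_num)]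
  rw [norm_neg] at h5
  have := norm_nonneg (Complex.log π)
  have := norm_nonneg (digamma 1)
  simp only [Complex.norm_ofNat]
  linarith

theorem stmtDigamma : StmtDigamma := by
  intro N χ
  refine ⟨‖Complex.log π‖ + ‖digamma 1‖ + 9, fun t ht => ?_⟩
  by_cases hχ : χ.Even
  · have e : DirichletCharacter.gammaFactor χ = Gammaℝ := funext fun s => hχ.gammaFactor_def s
    have := logDeriv_Gammaℝ_bound (σ := 1 / 2) le_rfl (by norm_num) ht
    rw [e]
    convert this using 4
    push_cast; rfl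
  · have e : DirichletCharacter.gammaFactor χ = fun s => Gammaℝ (s + 1) := funext fun s => by
      simp [DirichletCharacter.gammaFactor, hχ]
    have := logDeriv_Gammaℝ_bound (σ := 3 / 2) (by norm_num) (by norm_num) ht
    rw [e, logDeriv_apply, deriv_comp_add_const, ← logDeriv_apply]
    convert this using 4
    push_cast; ring

end Pool.Agent.MP_f259ea_nt
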