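import Pool.Agent.MP_f259ea_nt.A_Stmts

/-!
Mertens-type upper bound for the diagonal prime sum.
-/

set_option autoImplicit false

open MeasureTheory Set Finset ArithmeticFunction

namespace Pool.Agent.MP_f259ea_nt

/-- the partial sums of `Λ n / n` -/
noncomputable def mertSum (N : ℕ) : ℝ := ∑ n ∈ Finset.Icc 1 N, vonMangoldt n / n

lemma sum_log_eq (N : ℕ) : ∑ n ∈ Finset.Icc 1 N, Real.log n =
    ∑ d ∈ Finset.Icc 1 N, vonMangoldt d * ((N / d : ℕ) : ℝ) := by
  induction N with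
  | zero => simp
  | succ N ih =>
    rw [Finset.sum_Icc_succ_top (by omega), ih]
    have h1 : ∑ d ∈ Finset.Icc 1 (N + 1), vonMangoldt d * (((N + 1) / d : ℕ) : ℝ) =
        ∑ d ∈ Finset.Icc 1 (N + 1), vonMangoldt d * ((N / d : ℕ) : ℝ) +
          ∑ d ∈ Finset.Icc 1 (N + 1), if d ∣ N + 1 then vonMangoldt d else 0 := by
      rw [← Finset.sum_add_distrib]
      refine Finset.sum_congr rfl fun d _ => ?_
      rw [Nat.succ_div]
      split_ifs <;> push_cast <;> ring
    rw [h1, Finset.sum_Icc_succ_top (by omega) (fun d => vonMangoldt d * ((N / d : ℕ) : ℝ)),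
      Nat.div_eq_of_lt (Nat.lt_succ_self N), ← Finset.sum_filter, ← vonMangoldt_sum]
    simp only [Nat.cast_zero, mul_zero, add_zero]
    congr 1

lemma sum_log_bounds (N : ℕ) : N * Real.log N - N ≤ ∑ n ∈ Finset.Icc 1 N, Real.log n ∧
    ∑ n ∈ Finset.Icc 1 N, Real.log n ≤ N * Real.log N := by
  constructor
  · induction N with
    | zero => simp
    | succ N ih =>
      rw [Finset.sum_Icc_succ_top (by omega)]
      rcases Nat.eq_zero_or_pos N with rfl | hN
      · simp
      have hN' : (0 : ℝ) < N := by exact_mod_cast hN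
      have h1 : Real.log ((N + 1) / N) ≤ (N + 1) / N - 1 := Real.log_le_sub_one_of_pos (by positivity)
      rw [Real.log_div (by positivity) hN'.ne'] at h1
      have h2 : (N : ℝ) * (Real.log (N + 1) - Real.log N) ≤ 1 := by
        calc (N : ℝ) * (Real.log (N + 1) - Real.log N) ≤ N * ((N + 1) / N - 1) := by gcongr
          _ = 1 := by field_simp; ring
      push_cast
      nlinarith
  · calc ∑ n ∈ Finset.Icc 1 N, Real.log n ≤ ∑ n ∈ Finset.Icc 1 N, Real.log N := by
          refine Finset.sum_le_sum fun n hn => ?_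
          rw [Finset.mem_Icc] at hn
          exact Real.log_le_log (by exact_mod_cast hn.1) (by exact_mod_cast hn.2)
      _ = N * Real.log N := by simp

lemma mertSum_bounds {N : ℕ} (hN : 1 ≤ N) :
    Real.log N - 1 ≤ mertSum N ∧ mertSum N ≤ Real.log N + (Real.log 4 + 4) := by
  have hN' : (0 : ℝ) < N := by exact_mod_cast hN
  obtain ⟨h1, h2⟩ := sum_log_bounds N
  rw [sum_log_eq] at h1 h2
  have h3 : ∑ d ∈ Finset.Icc 1 N, vonMangoldt d * ((N / d : ℕ) : ℝ) ≤ N * mertSum N := by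
    rw [mertSum, Finset.mul_sum]
    refine Finset.sum_le_sum fun d _ => ?_
    have := (Nat.cast_div_le (α := ℝ) (m := N) (n := d))
    calc vonMangoldt d * ((N / d : ℕ) : ℝ) ≤ vonMangoldt d * (N / d) := by
          gcongr
      _ = _ := by ring
  have h4 : N * mertSum N ≤ ∑ d ∈ Finset.Icc 1 N, vonMangoldt d * ((N / d : ℕ) : ℝ) +
      ∑ d ∈ Finset.Icc 1 N, vonMangoldt d := by
    rw [mertSum, Finset.mul_sum, ← Finset.sum_add_distrib]
    refine Finset.sum_le_sum fun d hd => ?_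
    have h5 : (N : ℝ) / d ≤ ((N / d : ℕ) : ℝ) + 1 := by
      rw [← Nat.floor_div_eq_div (K := ℝ)]
      exact (Nat.lt_floor_add_one _).le
    calc (N : ℝ) * (vonMangoldt d / d) = vonMangoldt d * (N / d) := by ring
      _ ≤ vonMangoldt d * (((N / d : ℕ) : ℝ) + 1) := by gcongr
      _ = _ := by ring
  have h6 : ∑ d ∈ Finset.Icc 1 N, vonMangoldt d ≤ (Real.log 4 + 4) * N := by
    have := Chebyshev.psi_le_const_mul_self hN'.le
    rw [Chebyshev.psi_eq_sum_Icc, Nat.floor_natCast] at this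
    refine le_trans (Finset.sum_le_sum_of_subset_of_nonneg ?_ fun _ _ _ => vonMangoldt_nonneg) this
    exact Finset.Icc_subset_Icc (by omega) le_rfl
  constructor
  · exact le_of_mul_le_mul_left (by nlinarith) hN'
  · exact le_of_mul_le_mul_left (by nlinarith) hN'

lemma mertSum_diff {x y : ℝ} (hx : 1 ≤ x) (hxy : x ≤ y) :
    ∑ n ∈ Finset.Ioc ⌊x⌋₊ ⌊y⌋₊, vonMangoldt n / n ≤ Real.log y - Real.log x + 10 := by
  have hx1 : 1 ≤ ⌊x⌋₊ := Nat.le_floor (by exact_mod_cast hx)
  have hxy' : ⌊x⌋₊ ≤ ⌊y⌋₊ := Nat.floor_mono hxy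
  have e : ∑ n ∈ Finset.Ioc ⌊x⌋₊ ⌊y⌋₊, vonMangoldt n / n = mertSum ⌊y⌋₊ - mertSum ⌊x⌋₊ := by
    have := Finset.sum_Ioc_consecutive (fun n : ℕ => vonMangoldt n / n) (Nat.zero_le ⌊x⌋₊) hxy'
    simp only [mertSum, ← Finset.Icc_add_one_left_eq_Ioc, zero_add] at this ⊢
    linarith
  have h1 := (mertSum_bounds hx1).1
  have h2 := (mertSum_bounds (hx1.trans hxy')).2
  have hx1' : (1 : ℝ) ≤ ⌊x⌋₊ := by exact_mod_cast hx1
  have h3 : Real.log ⌊y⌋₊ ≤ Real.log y :=
    Real.log_le_log (by have : (⌊x⌋₊ : ℝ) ≤ ⌊y⌋₊ := by exact_mod_cast hxy'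
                        linarith) (Nat.floor_le (by linarith))
  have h4 : Real.log x ≤ Real.log 2 + Real.log ⌊x⌋₊ := by
    rw [← Real.log_mul (by norm_num) (by linarith)]
    exact Real.log_le_log (by linarith) (by linarith [Nat.lt_floor_add_one x])
  have h5 : Real.log 2 ≤ 1 := by linarith [Real.log_le_sub_one_of_pos (show (0 : ℝ) < 2 by norm_num)]
  have h6 : Real.log 4 ≤ 3 := by linarith [Real.log_le_sub_one_of_pos (show (0 : ℝ) < 4 by norm_num)]
  linarith

lemma piece_le {g : ℝ → ℝ} {Y a b G : ℝ} (hY : 0 < Y) (ha : 0 ≤ a) (hab : a ≤ b) (hG0 : 0 ≤ G)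
    (hG : ∀ t ∈ Set.Icc a b, g t ≤ G) :
    ∑ n ∈ Finset.Ioc ⌊Real.exp (a * Y)⌋₊ ⌊Real.exp (b * Y)⌋₊,
      vonMangoldt n / n * g (Real.log n / Y) ≤ G * ((b - a) * Y + 10) := by
  have h1 := mertSum_diff (x := Real.exp (a * Y)) (y := Real.exp (b * Y))
    (Real.one_le_exp (by positivity)) (Real.exp_le_exp.2 (by gcongr))
  rw [Real.log_exp, Real.log_exp] at h1
  calc _ ≤ ∑ n ∈ Finset.Ioc ⌊Real.exp (a * Y)⌋₊ ⌊Real.exp (b * Y)⌋₊, G * (vonMangoldt n / n) := by
        refine Finset.sum_le_sum fun n hn => ?_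
        rw [Finset.mem_Ioc] at hn
        have h2 : Real.exp (a * Y) < n := Nat.lt_of_floor_lt hn.1
        have h3 : (n : ℝ) ≤ Real.exp (b * Y) := (Nat.le_floor_iff (Real.exp_pos _).le).1 hn.2
        have hn0 : (0 : ℝ) < n := (Real.exp_pos _).trans h2
        rw [mul_comm G]
        refine mul_le_mul_of_nonneg_left (hG _ ⟨?_, ?_⟩) (div_nonneg vonMangoldt_nonneg hn0.le)
        · rw [le_div_iff₀ hY]; exact ((Real.lt_log_iff_exp_lt hn0).2 h2).le
        · rw [div_le_iff₀ hY]; exact (Real.log_le_iff_le_exp hn0).2 h3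
    _ ≤ _ := by
        rw [← Finset.mul_sum]
        exact mul_le_mul_of_nonneg_left (by linarith) hG0

theorem stmtMertens : StmtMertens := by
  intro f hf hf0 ε hε
  let g : ℝ → ℝ := fun a => a * f a
  have hg : Continuous g := continuous_id.mul hf
  obtain ⟨B, hB⟩ := (isCompact_Icc (a := (0 : ℝ)) (b := 2)).bddAbove_image hg.continuousOn
  have hB' : ∀ t ∈ Set.Icc (0 : ℝ) 2, g t ≤ B := fun t ht => hB (Set.mem_image_of_mem g ht)
  have hB0 : 0 ≤ B := le_trans (by simp [g]) (hB' 0 (by simp))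
  obtain ⟨δ, hδ, hU⟩ := Metric.uniformContinuousOn_iff.1
    ((isCompact_Icc (a := (0 : ℝ)) (b := 2)).uniformContinuousOn_of_continuous hg.continuousOn)
    (ε / 4) (by linarith)
  obtain ⟨K, hK⟩ := exists_nat_one_div_lt hδ
  set k : ℝ := K + 1 with hk
  have hk0 : 0 < k := by positivity
  refine ⟨max 1 ((k * ((B + ε) * 10) + B * 11) / (ε / 2)), fun Y hY X hX => ?_⟩
  have hY1 : 1 ≤ Y := le_trans (le_max_left _ _) hY
  have hY0 : 0 < Y := by linarith
  have hY2 : k * ((B + ε) * 10) + B * 11 ≤ Y * (ε / 2) :=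
    (div_le_iff₀ (by linarith)).1 (le_trans (le_max_right _ _) hY)
  let T : ℕ → ℝ := fun n => vonMangoldt n / n * g (Real.log n / Y)
  have hT0 : ∀ n, 0 ≤ T n := fun n => mul_nonneg (div_nonneg vonMangoldt_nonneg n.cast_nonneg)
    (mul_nonneg (div_nonneg (Real.log_natCast_nonneg n) hY0.le) (hf0 _))
  have step : ∀ j : ℕ, j ≤ K + 1 → ∑ n ∈ Finset.Ioc 0 ⌊Real.exp (j / k * Y)⌋₊, T n ≤
      Y * (∫ a in (0 : ℝ)..(j / k), g a) + j * (ε / 2 * Y / k + (B + ε) * 10) := by
    intro j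
    induction j with
    | zero => intro _; simp [T]
    | succ j ih =>
      intro hj
      have hj' : (j : ℝ) + 1 ≤ k := by rw [hk]; exact_mod_cast hj
      have h0 : (0 : ℝ) ≤ j / k := by positivity
      have h1 : (j : ℝ) / k ≤ (j + 1 : ℕ) / k := by push_cast; gcongr; linarith
      have h2 : ((j + 1 : ℕ) : ℝ) / k ≤ 1 := by push_cast; rwa [div_le_one hk0]
      have h3 : ((j + 1 : ℕ) : ℝ) / k - j / k = 1 / k := by push_cast; ring
      have hclose : ∀ t ∈ Set.Icc ((j : ℝ) / k) ((j + 1 : ℕ) / k), |g t - g (j / k)| < ε / 4 :=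
        fun t ht => hU t ⟨by linarith [ht.1], by linarith [ht.2]⟩ _ ⟨h0, by linarith⟩ (by
          rw [Real.dist_eq, abs_of_nonneg (by linarith [ht.1])]; linarith [ht.2])
      have hg0 : 0 ≤ g (j / k) := mul_nonneg h0 (hf0 _)
      have hp := piece_le (g := g) hY0 h0 h1 (G := g (j / k) + ε / 4) (by linarith)
        fun t ht => by linarith [(abs_lt.1 (hclose t ht)).2]
      have hint : (g (j / k) - ε / 4) * (1 / k) ≤ ∫ a in ((j : ℝ) / k)..((j + 1 : ℕ) / k), g a := by
        have := intervalIntegral.integral_mono_on h1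
          (intervalIntegrable_const (μ := volume) (c := g (j / k) - ε / 4))
          (hg.intervalIntegrable _ _) fun t ht => by linarith [(abs_lt.1 (hclose t ht)).1]
        rwa [intervalIntegral.integral_const, h3, smul_eq_mul, mul_comm] at this
      rw [← Finset.sum_Ioc_consecutive T (Nat.zero_le ⌊Real.exp (j / k * Y)⌋₊)
        (Nat.floor_mono (Real.exp_le_exp.2 (by gcongr))),
        ← intervalIntegral.integral_add_adjacent_intervals (hg.intervalIntegrable 0 (j / k))
          (hg.intervalIntegrable _ _)]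
      have ih' := ih (by omega)
      rw [h3] at hp
      have hgB := hB' (j / k) ⟨h0, by linarith⟩
      have h4 := mul_le_mul_of_nonneg_left hint hY0.le
      have e1 : (g (j / k) + ε / 4) * (1 / k * Y + 10) =
          Y * ((g (j / k) - ε / 4) * (1 / k)) + ε / 2 * Y / k + (g (j / k) + ε / 4) * 10 := by ring
      have e2 : ((j + 1 : ℕ) : ℝ) * (ε / 2 * Y / k + (B + ε) * 10) =
          j * (ε / 2 * Y / k + (B + ε) * 10) + (ε / 2 * Y / k + (B + ε) * 10) := by
        push_cast; ring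
      rw [e2, mul_add]
      simp only [T] at ih' ⊢
      linarith
  have h1 := step (K + 1) le_rfl
  have ek : ((K + 1 : ℕ) : ℝ) = k := by rw [hk]; push_cast; ring
  rw [ek, div_self hk0.ne'] at h1
  have hl2 : Real.log 2 ≤ 1 := by linarith [Real.log_le_sub_one_of_pos (show (0 : ℝ) < 2 by norm_num)]
  have hl0 : 0 ≤ Real.log 2 := Real.log_nonneg one_le_two
  have hq : Real.log 2 / Y ≤ 1 := by rw [div_le_one hY0]; linarith
  have hq0 : 0 ≤ Real.log 2 / Y := by positivity
  have h2 := piece_le (g := g) hY0 zero_le_one (b := 1 + Real.log 2 / Y) (by linarith) hB0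
    fun t ht => hB' t ⟨by linarith [ht.1], by linarith [ht.2]⟩
  have e3 : (1 + Real.log 2 / Y - 1) * Y = Real.log 2 := by field_simp; ring
  rw [e3] at h2
  have hX' : X ≤ ⌊Real.exp ((1 + Real.log 2 / Y) * Y)⌋₊ := by
    refine Nat.le_floor ?_
    have : (1 + Real.log 2 / Y) * Y = Real.log 2 + Y := by field_simp; ring
    rwa [this, Real.exp_add, Real.exp_log two_pos]
  have h3 : ∑ n ∈ Finset.Icc 1 X, T n ≤ Y * ((∫ a in (0 : ℝ)..1, g a) + ε) := by
    calc ∑ n ∈ Finset.Icc 1 X, T n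
        ≤ ∑ n ∈ Finset.Ioc 0 ⌊Real.exp ((1 + Real.log 2 / Y) * Y)⌋₊, T n := by
          refine Finset.sum_le_sum_of_subset_of_nonneg (fun n hn => ?_) fun n _ _ => hT0 n
          rw [Finset.mem_Icc] at hn
          rw [Finset.mem_Ioc]; omega
      _ = _ := (Finset.sum_Ioc_consecutive T (Nat.zero_le ⌊Real.exp (1 * Y)⌋₊)
          (Nat.floor_mono (Real.exp_le_exp.2 (by gcongr; linarith)))).symm
      _ ≤ _ := by
          have e4 : k * (ε / 2 * Y / k + (B + ε) * 10) = ε / 2 * Y + k * ((B + ε) * 10) := by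
            field_simp
          rw [e4] at h1
          have := mul_le_mul_of_nonneg_left hl2 hB0
          simp only [T] at h1 ⊢
          nlinarith
  calc _ ≤ ∑ n ∈ Finset.Icc 1 X, Y * T n := by
        refine Finset.sum_le_sum fun n _ => ?_
        have h4 : vonMangoldt n ≤ Real.log n := vonMangoldt_le_log
        have h5 : 0 ≤ vonMangoldt n := vonMangoldt_nonneg
        have e : Y * T n = vonMangoldt n * Real.log n / n * f (Real.log n / Y) := by
          simp only [T, g]; field_simp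
        rw [e, sq]
        have := hf0 (Real.log n / Y)
        gcongr
    _ ≤ _ := by
        rw [← Finset.mul_sum, sq, mul_assoc]
        exact mul_le_mul_of_nonneg_left h3 hY0.le

end Pool.Agent.MP_f259ea_nt
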