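import Pool.Agent.MP_f259ea_nt.A_Weight1

set_option autoImplicit false

open Complex MeasureTheory Set Filter Topology FourierTransform
open scoped Real ComplexConjugate ContDiff

namespace Pool.Agent.MP_f259ea_nt

/-- The Fourier-Laplace transform. -/
noncomputable def om (g : ℝ → ℂ) (z : ℂ) : ℂ := ∫ x : ℝ, g x * Complex.exp (-(2 * π * I * x * z))

theorem norm_exp_om (x : ℝ) (z : ℂ) :
    ‖Complex.exp (-(2 * π * I * x * z))‖ = Real.exp (2 * π * x * z.im) := by
  rw [Complex.norm_exp]
  congr 1
  simp

theorem hcs_of {g : ℝ → ℂ} {R : ℝ} (h : ∀ x, R ≤ |x| → g x = 0) : HasCompactSupport g :=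
  HasCompactSupport.intro (isCompact_Icc (a := -R) (b := R)) fun x hx => h x (by
    by_contra h'
    exact hx ⟨(abs_lt.1 (not_le.1 h')).1.le, (abs_lt.1 (not_le.1 h')).2.le⟩)

theorem om_integrable {g : ℝ → ℂ} (hg : Continuous g) (hc : HasCompactSupport g) (z : ℂ) :
    Integrable fun x : ℝ => g x * Complex.exp (-(2 * π * I * x * z)) :=
  Continuous.integrable_of_hasCompactSupport (by fun_prop) hc.mul_right

theorem om_differentiable {g : ℝ → ℂ} (hg : Continuous g) {R : ℝ}
    (h : ∀ x, R ≤ |x| → g x = 0) : Differentiable ℂ (om g) := by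
  intro z₀
  have hc := hcs_of h
  refine (hasDerivAt_integral_of_dominated_loc_of_deriv_le (μ := volume)
    (F := fun (z : ℂ) (x : ℝ) => g x * Complex.exp (-(2 * π * I * x * z)))
    (F' := fun (z : ℂ) (x : ℝ) => g x * (Complex.exp (-(2 * π * I * x * z)) * -(2 * π * I * x)))
    (bound := fun x => ‖g x‖ * (Real.exp (2 * π * (R * (‖z₀‖ + 1))) * ‖-(2 * π * I * x : ℂ)‖))
    (Metric.ball_mem_nhds z₀ one_pos)
    (Eventually.of_forall fun z => (om_integrable hg hc z).1) (om_integrable hg hc z₀)
    (Continuous.aestronglyMeasurable (by fun_prop)) (Eventually.of_forall fun x z hz => ?_)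
    (Continuous.integrable_of_hasCompactSupport (by fun_prop) hc.norm.mul_right)
    (Eventually.of_forall fun x z _ => ?_)).2.differentiableAt
  · by_cases hx : R ≤ |x|
    · simp [h x hx]
    · rw [norm_mul, norm_mul, norm_exp_om]
      have h1 : |z.im| ≤ ‖z₀‖ + 1 := (abs_im_le_norm z).trans (by
        have := norm_sub_norm_le z z₀
        rw [mem_ball_iff_norm] at hz
        linarith)
      have h2 : x * z.im ≤ R * (‖z₀‖ + 1) := (le_abs_self _).trans (by
        rw [abs_mul]
        exact mul_le_mul (not_le.1 hx).le h1 (abs_nonneg _)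
          ((abs_nonneg _).trans (not_le.1 hx).le))
      refine mul_le_mul_of_nonneg_left (mul_le_mul_of_nonneg_right (Real.exp_le_exp.2 ?_)
        (norm_nonneg _)) (norm_nonneg _)
      rw [mul_assoc]
      exact mul_le_mul_of_nonneg_left h2 (by positivity)
  · exact ((((hasDerivAt_id z).const_mul (2 * π * I * x : ℂ)).neg).cexp.const_mul (g x)).congr_deriv
      (by simp)

theorem om_deriv {g : ℝ → ℂ} (hg : ContDiff ℝ ∞ g) (hc : HasCompactSupport g) (z : ℂ) :
    om (deriv g) z = 2 * π * I * z * om g z := by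
  have h1 := om_integrable hg.continuous hc z
  have h2 := om_integrable (hg.continuous_deriv (by simp)) hc.deriv z
  have h := integral_eq_zero_of_hasDerivAt_of_integrable
    (f := fun x : ℝ => g x * Complex.exp (-(2 * π * I * x * z)))
    (f' := fun x : ℝ => deriv g x * Complex.exp (-(2 * π * I * x * z)) -
      2 * π * I * z * (g x * Complex.exp (-(2 * π * I * x * z)))) (fun x => ?_)
    (h2.sub (h1.const_mul _)) h1
  · rw [integral_sub h2 (h1.const_mul _), integral_const_mul] at h
    exact sub_eq_zero.1 h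
  · have h3 : HasDerivAt (fun x : ℝ => Complex.exp (-(2 * π * I * x * z)))
        (Complex.exp (-(2 * π * I * x * z)) * -(2 * π * I * z)) x := by
      have := (((hasDerivAt_id x).ofReal_comp.const_mul (2 * π * I : ℂ)).mul_const z).neg.cexp
      simpa using this
    exact ((hg.differentiable (by simp) x).hasDerivAt.mul h3).congr_deriv (by ring)

theorem om_decay (j : ℕ) : ∀ g : ℝ → ℂ, ContDiff ℝ ∞ g → (∀ x, 1 < |x| → g x = 0) →
    ∃ C, ∀ z : ℂ, |z.im| ≤ 1 → ‖om g z‖ * (1 + |z.re|) ^ j ≤ C := by
  induction j with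
  | zero =>
    intro g hg h
    have hc : HasCompactSupport g := hcs_of (R := 2) fun x hx => h x (by linarith)
    refine ⟨∫ x, ‖g x‖ * Real.exp (2 * π), fun z hz => ?_⟩
    rw [pow_zero, mul_one]
    refine norm_integral_le_of_norm_le (Continuous.integrable_of_hasCompactSupport
      (hg.continuous.norm.mul continuous_const) hc.norm.mul_right)
      (Eventually.of_forall fun x => ?_)
    by_cases hx : 1 < |x|
    · simp [h x hx]
    · rw [norm_mul, norm_exp_om]
      have h2 : x * z.im ≤ 1 := (le_abs_self _).trans (by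
        rw [abs_mul]
        exact mul_le_one₀ (not_lt.1 hx) (abs_nonneg _) hz)
      refine mul_le_mul_of_nonneg_left (Real.exp_le_exp.2 ?_) (norm_nonneg _)
      rw [mul_assoc]
      exact mul_le_of_le_one_right (by positivity) h2
  | succ j ih =>
    intro g hg h
    have hc : HasCompactSupport g := hcs_of (R := 2) fun x hx => h x (by linarith)
    obtain ⟨C, hC⟩ := ih g hg h
    obtain ⟨C', hC'⟩ := ih (deriv g) (contDiff_infty_iff_deriv.1 hg).2 fun x hx => by
      have : g =ᶠ[𝓝 x] fun _ => 0 :=
        mem_of_superset ((isOpen_lt continuous_const continuous_abs).mem_nhds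
          (show x ∈ {x : ℝ | 1 < |x|} from hx)) h
      rw [this.deriv_eq, deriv_const]
    refine ⟨C + C', fun z hz => ?_⟩
    have h1 := hC' z hz
    rw [om_deriv hg hc] at h1
    have h2 : |z.re| * ‖om g z‖ ≤ ‖2 * π * I * z * om g z‖ := by
      rw [norm_mul]
      refine mul_le_mul_of_nonneg_right ((abs_re_le_norm z).trans ?_) (norm_nonneg _)
      rw [norm_mul]
      refine le_mul_of_one_le_left (norm_nonneg _) ?_
      simp only [norm_mul, Complex.norm_ofNat, norm_real, norm_I, mul_one,
        Real.norm_of_nonneg Real.pi_pos.le]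
      linarith [Real.pi_gt_three]
    have h3 := mul_le_mul_of_nonneg_right h2 (show 0 ≤ (1 + |z.re|) ^ j by positivity)
    have h4 := hC z hz
    rw [pow_succ]
    nlinarith

theorem om_eq_fourier (g : ℝ → ℂ) (v t : ℝ) :
    om g (t + v * I) = 𝓕 (fun x : ℝ => g x * Complex.exp (2 * π * x * v)) t := by
  rw [Real.fourier_real_eq_integral_exp_smul]
  unfold om
  congr 1; funext x
  rw [smul_eq_mul, mul_left_comm, ← Complex.exp_add]
  congr 2
  push_cast
  linear_combination (-2 * π * x * v) * I_sq

theorem om_inv {g : ℝ → ℂ} (hg : Continuous g) (hc : HasCompactSupport g) (v : ℝ)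
    (hi : Integrable fun t : ℝ => om g (t + v * I)) (u : ℝ) :
    ∫ t : ℝ, om g (t + v * I) * Complex.exp (2 * π * I * u * (t + v * I)) = g u := by
  simp_rw [om_eq_fourier] at hi ⊢
  have hc' : Continuous fun x : ℝ => g x * Complex.exp (2 * π * x * v) := by fun_prop
  have h := congrFun (hc'.fourierInv_fourier_eq
    (hc'.integrable_of_hasCompactSupport hc.mul_right) hi) u
  rw [Real.fourierInv_eq'] at h
  have e : g u = (g u * Complex.exp (2 * π * u * v)) * Complex.exp (-(2 * π * u * v)) := by
    rw [mul_assoc, ← Complex.exp_add]; simp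
  rw [e, ← h, ← integral_mul_const]
  congr 1; funext t
  rw [smul_eq_mul, mul_comm (Complex.exp _), mul_assoc _ (Complex.exp _), ← Complex.exp_add]
  congr 2
  simp only [RCLike.inner_apply, conj_trivial]
  push_cast
  linear_combination (2 * π * u * v) * I_sq

theorem tail_le {ψ : ℝ → ℂ} (hψ : Continuous ψ) {C : ℝ} {k : ℕ}
    (h : ∀ x, ‖ψ x‖ * (1 + |x|) ^ (k + 2) ≤ C) {y : ℝ} (hy : 0 ≤ y) {T : Set ℝ}
    (hT : MeasurableSet T) (hTy : ∀ x ∈ T, y ≤ |x|) :
    Integrable ψ ∧ ‖∫ x in T, ψ x‖ * (1 + y) ^ k ≤ C * π := by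
  have hC : 0 ≤ C := le_trans (by positivity) (h 0)
  have key : ∀ x y, 0 ≤ y → y ≤ |x| → ‖ψ x‖ ≤ C / (1 + y) ^ k * (1 + x ^ 2)⁻¹ := by
    intro x y h0 h1
    rw [← div_eq_mul_inv, div_div, le_div_iff₀ (by positivity)]
    refine le_trans (mul_le_mul_of_nonneg_left ?_ (norm_nonneg _)) (h x)
    rw [pow_add]
    gcongr
    have := abs_nonneg x
    rw [← sq_abs x]
    nlinarith
  have hi := integrable_inv_one_add_sq
  refine ⟨(hi.const_mul _).mono' hψ.aestronglyMeasurable
    (Eventually.of_forall fun x => key x 0 le_rfl (abs_nonneg _)), ?_⟩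
  rw [← le_div_iff₀ (by positivity)]
  refine (norm_integral_le_of_norm_le (hi.const_mul (C / (1 + y) ^ k)).integrableOn
    ((ae_restrict_iff' hT).2 (Eventually.of_forall fun x hx => key x y hy (hTy x hx)))).trans ?_
  refine (setIntegral_le_integral (hi.const_mul _)
    (Eventually.of_forall fun x => by positivity)).trans (le_of_eq ?_)
  rw [integral_const_mul, integral_univ_inv_one_add_sq]
  ring

theorem stmtWeight : StmtWeight := by
  intro k
  let β : ContDiffBump (0 : ℝ) := ⟨1 / 2, 1, by norm_num, by norm_num⟩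
  let b : ℝ → ℂ := fun x => (β x : ℝ)
  have hb : ContDiff ℝ ∞ b := Complex.ofRealCLM.contDiff.comp β.contDiff
  have hb0 : ∀ x, 1 ≤ |x| → b x = 0 := fun x hx => by
    simp only [b]
    rw [β.zero_of_le_dist (by simpa [β] using hx), ofReal_zero]
  have hb1 : b 0 = 1 := by
    simp only [b]
    rw [β.one_of_mem_closedBall (by simp [β]), ofReal_one]
  have hbn : ∀ x, ‖b x‖ ≤ 1 := fun x => by
    simp only [b, norm_real, Real.norm_of_nonneg β.nonneg]
    exact β.le_one
  obtain ⟨C, hC⟩ := om_decay (k + 2 + 2) b hb fun x hx => hb0 x hx.le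
  have hC0 : 0 ≤ C := le_trans (by positivity) (hC 0 (by simp))
  have hπ := Real.pi_pos
  refine ⟨C * π * (4 * π) + 1, by positivity, fun H A B hH hAB => ?_⟩
  have hH0 : 0 < H := by linarith
  have hH' : (H : ℂ) ≠ 0 := ofReal_ne_zero.2 hH0.ne'
  let W : ℝ → ℂ := fun u => b (H * u) * ∫ s in A..B, Complex.exp (2 * π * I * u * s)
  have hWc : Continuous W := (hb.continuous.comp (by fun_prop)).mul
    (intervalIntegral.continuous_parametric_intervalIntegral_of_continuous' (by fun_prop) _ _)
  have hW0 : ∀ u, 1 / H ≤ |u| → W u = 0 := fun u hu => by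
    simp only [W]
    rw [hb0, zero_mul]
    rwa [abs_mul, abs_of_pos hH0, mul_comm, ← div_le_iff₀ hH0]
  have hWn : ∀ u, W (-u) = conj (W u) := fun u => by
    simp only [W, b, map_mul, conj_ofReal, mul_neg, β.neg]
    rw [intervalIntegral.integral_of_le hAB, intervalIntegral.integral_of_le hAB, ← integral_conj]
    congr 2; funext s
    rw [← Complex.exp_conj]
    congr 1
    simp [map_ofNat]
  -- representation of `om W`
  have hψ : ∀ v : ℝ, Continuous fun x : ℝ => om b (x + v * I) := fun v =>
    (om_differentiable hb.continuous hb0).continuous.comp (by fun_prop)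
  have rep : ∀ z : ℂ, om W z =
      ∫ x in Ioc ((z.re - B) / H) ((z.re - A) / H), om b (x + (z.im / H : ℝ) * I) := by
    intro z
    have h1 : Integrable fun u : ℝ => b (H * u) * Complex.exp (-(2 * π * I * u * z)) :=
      om_integrable (g := fun u => b (H * u)) (hb.continuous.comp (by fun_prop))
        (hcs_of (R := 1 / H) fun u hu => hb0 _ (by
          rwa [abs_mul, abs_of_pos hH0, mul_comm, ← div_le_iff₀ hH0])) z
    have h2 := swap_exp (f := (Ioc A B).indicator fun _ => (1 : ℂ))
      ((integrable_indicator_iff measurableSet_Ioc).2 (by simp)) h1 (2 * π)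
    have h3 : ∀ s : ℝ, ∫ u : ℝ, b (H * u) * Complex.exp (-(2 * π * I * u * z)) *
        Complex.exp ((2 * π : ℝ) * I * u * s) =
        (H⁻¹ : ℝ) • om b ((z.re / H - s / H : ℝ) + (z.im / H : ℝ) * I) := by
      intro s
      have := Measure.integral_comp_mul_left (fun x : ℝ => b x * Complex.exp (-(2 * π * I * x *
        ((z.re / H - s / H : ℝ) + (z.im / H : ℝ) * I)))) H
      rw [abs_of_pos (inv_pos.2 hH0)] at this
      rw [om, ← this]
      congr 1; funext u
      rw [mul_assoc, ← Complex.exp_add]
      congr 2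
      conv_lhs => rw [← re_add_im z]
      push_cast
      field_simp
      ring
    have h4 : ∀ φ : ℝ → ℂ, ∫ t : ℝ, (Ioc A B).indicator (fun _ => (1 : ℂ)) t * φ t =
        ∫ t in A..B, φ t := fun φ => by
      rw [intervalIntegral.integral_of_le hAB, ← integral_indicator measurableSet_Ioc]
      congr 1; funext t
      by_cases h : t ∈ Ioc A B <;> simp [h]
    simp_rw [h3, h4] at h2
    rw [intervalIntegral.integral_smul, intervalIntegral.integral_comp_sub_div
      (fun x : ℝ => om b (x + (z.im / H : ℝ) * I)) hH0.ne', smul_smul, inv_mul_cancel₀ hH0.ne',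
      one_smul, ← sub_div, ← sub_div, intervalIntegral.integral_of_le (by gcongr)] at h2
    rw [← h2, om]
    congr 1; funext u
    simp only [W]
    push_cast
    ring
  have hv : ∀ z : ℂ, |z.im| ≤ 2 → ∀ x : ℝ,
      ‖om b (x + (z.im / H : ℝ) * I)‖ * (1 + |x|) ^ (k + 2 + 2) ≤ C := fun z hz x => by
    have := hC (x + (z.im / H : ℝ) * I) (by
      simp only [add_im, ofReal_im, mul_im, ofReal_re, I_im, mul_one, I_re, mul_zero, add_zero,
        zero_add]
      rw [abs_div, abs_of_pos hH0, div_le_one hH0]
      linarith)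
    simpa only [add_re, ofReal_re, mul_re, I_re, mul_zero, ofReal_im, I_im, mul_one, sub_self,
      add_zero] using this
  have conv : ∀ (a D : ℝ), 0 ≤ a → H ≤ D → a * (1 + D / H) ^ (k + 2) ≤ C * π →
      a ≤ C * π * (H / D) ^ (k + 2) := fun a D ha hD h => by
    have hD0 : 0 < D := by linarith
    rw [← inv_div, inv_pow, ← div_eq_mul_inv, le_div_iff₀ (by positivity)]
    refine le_trans ?_ h
    gcongr
    linarith
  have weak : ∀ D : ℝ, H ≤ D → C * π * (H / D) ^ (k + 2) ≤ (C * π * (4 * π) + 1) * (H / D) ^ k :=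
    fun D hD => by
      have hD0 : 0 < D := by linarith
      refine mul_le_mul ?_ (pow_le_pow_of_le_one (by positivity) ((div_le_one hD0).2 hD)
        (by omega)) (by positivity) (by positivity)
      nlinarith [Real.pi_gt_three, mul_nonneg hC0 hπ.le]
  have out : ∀ (z : ℂ) (D : ℝ), |z.im| ≤ 2 → H ≤ D → (z.re ≤ A - D ∨ B + D ≤ z.re) →
      ‖om W z‖ ≤ C * π * (H / D) ^ (k + 2) := fun z D hz hD h => by
    have hD0 : 0 < D := by linarith
    refine conv _ D (norm_nonneg _) hD ?_
    rw [rep]
    refine (tail_le (hψ _) (hv z hz) (by positivity) measurableSet_Ioc fun x hx => ?_).2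
    rcases h with h | h
    · refine le_trans ?_ (neg_le_abs x)
      have : (z.re - A) / H ≤ -D / H := by gcongr; linarith
      rw [neg_div] at this
      linarith [hx.2]
    · refine le_trans ?_ (le_abs_self x)
      have : D / H ≤ (z.re - B) / H := by gcongr; linarith
      linarith [hx.1]
  have hwd : Differentiable ℂ (om W) := om_differentiable hWc hW0
  have hdom : Integrable fun t : ℝ => (1 + ((t - A) / H) ^ 2)⁻¹ + (1 + ((t - B) / H) ^ 2)⁻¹ :=
    ((integrable_inv_one_add_sq.comp_div hH0.ne').comp_sub_right A).add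
      ((integrable_inv_one_add_sq.comp_div hH0.ne').comp_sub_right B)
  have out2 : ∀ v D : ℝ, |v| ≤ 2 → H ≤ D → ∀ t ∈ (Icc (A - D) (B + D))ᶜ,
      ‖om W (t + v * I)‖ ≤ C * π * (H / D) ^ k * 2 *
        ((1 + ((t - A) / H) ^ 2)⁻¹ + (1 + ((t - B) / H) ^ 2)⁻¹) := by
    intro v D hv hD t ht
    have hD0 : 0 < D := by linarith
    have key : ∀ E, D ≤ E → (t ≤ A - E ∨ B + E ≤ t) → ‖om W (t + v * I)‖ ≤
        C * π * (H / D) ^ k * 2 * (1 + (E / H) ^ 2)⁻¹ := fun E hE h => by
      have hE0 : 0 < E := by linarith
      refine (out _ E (by simpa using hv) (hD.trans hE) (by simpa using h)).trans ?_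
      rw [pow_add, mul_assoc (C * π * _), ← mul_assoc]
      gcongr
      have : 1 ≤ E / H := (one_le_div hH0).2 (hD.trans hE)
      rw [← inv_div, inv_pow, ← div_eq_mul_inv, inv_eq_one_div,
        div_le_div_iff₀ (by positivity) (by positivity)]
      nlinarith
    rw [mem_compl_iff, mem_Icc, not_and_or, not_le, not_le] at ht
    rcases ht with ht | ht
    · refine (key (A - t) (by linarith) (Or.inl (by linarith))).trans ?_
      rw [show ((A - t) / H) ^ 2 = ((t - A) / H) ^ 2 by ring]
      gcongr
      exact le_add_of_nonneg_right (by positivity)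
    · refine (key (t - B) (by linarith) (Or.inr (by linarith))).trans ?_
      gcongr
      exact le_add_of_nonneg_left (by positivity)
  have hint : ∀ v : ℝ, |v| ≤ 2 → Integrable fun t : ℝ => om W (t + v * I) := fun v hv => by
    have hc : Continuous fun t : ℝ => om W (t + v * I) := hwd.continuous.comp (by fun_prop)
    rw [← integrableOn_univ, ← union_compl_self (Icc (A - H) (B + H))]
    refine hc.integrableOn_Icc.union ((hdom.const_mul _).integrableOn.mono'
      hc.aestronglyMeasurable ((ae_restrict_iff' measurableSet_Icc.compl).2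
        (Eventually.of_forall (out2 v H hv le_rfl))))
  refine ⟨om W, W, hwd, fun z => ?_, hWc, hWn, hW0, by simp [W, hb1], ?_,
    fun v hv => ⟨hint v hv, om_inv hWc (hcs_of hW0) v (hint v hv)⟩, fun z hz => ?_,
    fun z D hz hD h1 h2 => ?_, fun z D hz hD h => (out z D hz hD h).trans (weak D hD),
    fun v D hv hD => ?_⟩
  · rw [om, om, ← integral_conj, ← integral_neg_eq_self]
    congr 1; funext u
    rw [map_mul, hWn, ← Complex.exp_conj]
    congr 2
    simp [map_ofNat]
  · have h := stmtPlanch (fun _ => 1) A B 1 (1 / H) hAB (by positivity) continuousOn_const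
      (by simp)
    simp only [one_mul, one_pow] at h
    refine le_trans ?_ h
    rw [← intervalIntegral.integral_eq_integral_of_support_subset (a := -(1 / H)) (b := 1 / H)]
    · refine intervalIntegral.integral_mono_on (by linarith [one_div_pos.2 hH0])
        (Continuous.intervalIntegrable (by fun_prop) _ _) (Continuous.intervalIntegrable
        ((intervalIntegral.continuous_parametric_intervalIntegral_of_continuous'
          (by fun_prop) _ _).norm.pow 2) _ _) fun u _ => ?_
      simp only [W, norm_mul]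
      gcongr
      exact mul_le_of_le_one_left (norm_nonneg _) (hbn _)
    · intro u hu
      by_contra h'
      refine hu ?_
      beta_reduce
      rw [hW0 u]
      · simp
      · by_contra h''
        exact h' ⟨(abs_lt.1 (not_le.1 h'')).1, (abs_lt.1 (not_le.1 h'')).2.le⟩
  · have := (tail_le (hψ _) (hv z hz) le_rfl (T := Ioc ((z.re - B) / H) ((z.re - A) / H))
      measurableSet_Ioc fun x _ => abs_nonneg x).2
    rw [← rep] at this
    simp only [add_zero, one_pow, mul_one] at this
    nlinarith [Real.pi_gt_three, mul_nonneg hC0 hπ.le]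
  · have hD0 : 0 < D := by linarith
    refine le_trans (conv _ D (norm_nonneg _) hD ?_) (weak D hD)
    obtain ⟨h3, h4⟩ := tail_le (hψ _) (hv z hz) (y := D / H) (by positivity)
      (T := (Ioc ((z.re - B) / H) ((z.re - A) / H))ᶜ) measurableSet_Ioc.compl fun x hx => by
        rw [mem_compl_iff, mem_Ioc, not_and_or, not_lt, not_le] at hx
        rcases hx with hx | hx
        · refine le_trans ?_ (neg_le_abs x)
          have : (z.re - B) / H ≤ -D / H := by gcongr; linarith
          rw [neg_div] at this
          linarith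
        · refine le_trans ?_ (le_abs_self x)
          have : D / H ≤ (z.re - A) / H := by gcongr; linarith
          linarith
    have h5 := om_inv hb.continuous (hcs_of hb0) _ h3 0
    simp only [ofReal_zero, mul_zero, zero_mul, Complex.exp_zero, mul_one, hb1] at h5
    rw [← h5, ← integral_add_compl (s := Ioc ((z.re - B) / H) ((z.re - A) / H))
      measurableSet_Ioc h3, rep z, sub_add_cancel_left, norm_neg]
    exact h4
  · have hD0 : 0 < D := by linarith
    refine (setIntegral_mono_on (hint v hv).norm.integrableOn (hdom.const_mul _).integrableOn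
      measurableSet_Icc.compl (out2 v D hv hD)).trans ((setIntegral_le_integral (hdom.const_mul _)
      (Eventually.of_forall fun t => by positivity)).trans ?_)
    have e : ∀ c : ℝ, ∫ t : ℝ, (1 + ((t - c) / H) ^ 2)⁻¹ = H * π := fun c => by
      rw [integral_sub_right_eq_self (fun t : ℝ => (1 + (t / H) ^ 2)⁻¹) c,
        Measure.integral_comp_div (fun t : ℝ => (1 + t ^ 2)⁻¹), integral_univ_inv_one_add_sq,
        abs_of_pos hH0, smul_eq_mul]
    rw [integral_const_mul, integral_add
      ((integrable_inv_one_add_sq.comp_div hH0.ne').comp_sub_right A)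
      ((integrable_inv_one_add_sq.comp_div hH0.ne').comp_sub_right B), e, e]
    have : 0 ≤ H * (H / D) ^ k := by positivity
    nlinarith

end Pool.Agent.MP_f259ea_nt
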