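import Pool.Agent.MP_f259ea_nt.A_Count

/-!
The analysis at a fixed height `T`.
-/

set_option autoImplicit false

open Complex MeasureTheory Set Filter Topology DirichletCharacter
open scoped Real ComplexConjugate

namespace Pool.Agent.MP_f259ea_nt

variable {N : ℕ} [NeZero N] (χ : DirichletCharacter ℂ N)

/-- The zero sum with weight `1` on interior zeros and weight `w` on transition zeros. -/
noncomputable def nu (w : ℂ → ℂ) (Zi Zt : Finset ℂ) (u : ℝ) : ℂ :=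
  ∑ z ∈ Zi, (nn χ z : ℂ) * Complex.exp (2 * π * I * u * z)
    + ∑ z ∈ Zt, ((nn χ z : ℂ) * w z) * Complex.exp (2 * π * I * u * z)

lemma continuous_nu (w : ℂ → ℂ) (Zi Zt : Finset ℂ) : Continuous (nu χ w Zi Zt) := by
  unfold nu
  fun_prop

lemma nu_sub {w : ℂ → ℂ} (Zr : Finset ℂ) (P : ℂ → Prop) [DecidablePred P] {ω : ℝ} (hω0 : 0 ≤ ω)
    (him : ∀ z ∈ Zr, |z.im| ≤ 1 / 2) (hω : ∀ z ∈ Zr, P z → ‖w z - 1‖ ≤ ω) (u : ℝ) :
    ‖nu χ w (Zr.filter P) (Zr.filter fun z => ¬ P z) u - ∑ z ∈ Zr, (nn χ z : ℂ) * gu w u z‖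
      ≤ (∑ z ∈ Zr, (nn χ z : ℝ)) * ω * Real.exp (π * |u|) := by
  rw [← Finset.sum_filter_add_sum_filter_not Zr P (fun z => (nn χ z : ℂ) * gu w u z)]
  unfold nu gu
  have h1 : ∑ z ∈ Zr.filter P, (nn χ z : ℂ) * Complex.exp (2 * π * I * u * z)
      + ∑ z ∈ Zr.filter (fun z => ¬ P z), ((nn χ z : ℂ) * w z) * Complex.exp (2 * π * I * u * z)
      - (∑ z ∈ Zr.filter P, (nn χ z : ℂ) * (w z * Complex.exp (2 * π * I * u * z))
        + ∑ z ∈ Zr.filter (fun z => ¬ P z),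
          (nn χ z : ℂ) * (w z * Complex.exp (2 * π * I * u * z)))
      = ∑ z ∈ Zr.filter P, -((nn χ z : ℂ) * ((w z - 1) * Complex.exp (2 * π * I * u * z))) := by
    simp_rw [mul_assoc]
    rw [add_sub_add_right_eq_sub, ← Finset.sum_sub_distrib]
    refine Finset.sum_congr rfl fun z _ => by ring
  rw [h1]
  refine (norm_sum_le _ _).trans ?_
  rw [Finset.sum_mul, Finset.sum_mul]
  refine le_trans (Finset.sum_le_sum fun z hz => ?_)
    (Finset.sum_le_sum_of_subset_of_nonneg (Finset.filter_subset P Zr) (fun _ _ _ => by positivity))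
  rw [Finset.mem_filter] at hz
  have h2 := hω z hz.1 hz.2
  have h3 := norm_exp_uz_le u z (him z hz.1)
  have h4 : 2 * π * |u| * (1 / 2) = π * |u| := by ring
  rw [h4] at h3
  rw [norm_neg, norm_mul, norm_mul, norm_natCast, mul_assoc (nn χ z : ℝ)]
  gcongr

omit [NeZero N] in
lemma Psum_zero {W : ℝ → ℂ} {δ : ℝ} (hsupp : ∀ u, δ ≤ |u| → W u = 0) (h2 : δ ≤ un 2) :
    Psum χ W 0 = 0 := by
  unfold Psum
  have : ∀ n : ℕ, coef χ n * W (0 - un n) = 0 := by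
    intro n
    rcases lt_or_ge n 2 with hn | hn
    · interval_cases n
      · simp [coef_zero]
      · simp [coef_one]
    · rw [hsupp, mul_zero]
      rw [zero_sub, abs_neg, abs_of_nonneg (un_nonneg n)]
      exact h2.trans (un_mono (by norm_num) hn)
  simp only [this, tsum_zero]

omit [NeZero N] in
lemma norm_Efun_le {Cg T t : ℝ} (hT : 2 ≤ T) (ht : t ∈ Icc T (2 * T))
    (hg : ∀ t : ℝ, 2 ≤ t →
      ‖logDeriv (gammaFactor χ) (1 / 2 + t * I) - ((Real.log t / 2 : ℝ) : ℂ)‖ ≤ Cg) :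
    ‖Efun χ (Real.log T) t‖ ≤ Real.log N / 2 + Cg + 1 := by
  have h1 := hg t (hT.trans ht.1)
  have h2 : Efun χ (Real.log T) t = ((Real.log N / 2 : ℝ) : ℂ)
      + (logDeriv (gammaFactor χ) (1 / 2 + t * I) - ((Real.log t / 2 : ℝ) : ℂ))
      + (((Real.log t - Real.log T) / 2 : ℝ) : ℂ) := by
    unfold Efun; push_cast; ring
  rw [h2]
  refine norm_add₃_le.trans ?_
  rw [norm_real, norm_real, Real.norm_eq_abs, Real.norm_eq_abs,
    abs_of_nonneg (by have := Real.log_natCast_nonneg N; positivity)]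
  have h3 : Real.log T ≤ Real.log t := Real.log_le_log (by linarith) ht.1
  have h4 : Real.log t ≤ Real.log (2 * T) := Real.log_le_log (by linarith [ht.1]) ht.2
  rw [Real.log_mul (by norm_num) (by linarith)] at h4
  have h5 := Real.log_two_lt_d9
  rw [abs_of_nonneg (by linarith)]
  linarith

/-- The analysis at a fixed height. -/
lemma finite_core (hrect : StmtRect) (hP : StmtPlanch) (hχ : χ.IsPrimitive)
    {K Kt : ℝ → ℝ} {Km ε : ℝ} (hK : ContinuousOn K (Icc (-1) 1))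
    (hK0 : ∀ a ∈ Icc (-1 : ℝ) 1, 0 ≤ K a) (hKm : ∀ a ∈ Icc (-1 : ℝ) 1, K a ≤ Km)
    (hε : 0 < ε) (hKt0 : ∀ a, 0 ≤ Kt a)
    {T U H ℓ Cw r Bh Cg Nall θ : ℝ} {X : ℕ} (hT : 2 ≤ T) (hHU : H ≤ U) (hU : 2 * U + 2 ≤ T)
    (hH : 0 < H) (hℓ : 0 < ℓ) (hCw : 0 < Cw) (hr : 0 ≤ r)
    {w : ℂ → ℂ} {W : ℝ → ℂ} (hw : Differentiable ℂ w) (hwc : ∀ z, w (conj z) = conj (w z))
    (hW : Continuous W) (hWc : ∀ u, W (-u) = conj (W u)) (hsupp : ∀ u, 1 / H ≤ |u| → W u = 0)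
    (hW0 : W 0 = (((2 * T - 1 - U) - (T + 1 + U) : ℝ) : ℂ))
    (hW2 : ∫ u, ‖W u‖ ^ 2 ≤ (2 * T - 1 - U) - (T + 1 + U))
    (hFT : ∀ v : ℝ, |v| ≤ 2 → Integrable (fun t : ℝ => w (t + v * I)) ∧
        ∀ u : ℝ, ∫ t : ℝ, w (t + v * I) * Complex.exp (2 * π * I * u * (t + v * I)) = W u)
    (hwb : ∀ z : ℂ, |z.im| ≤ 2 → ‖w z‖ ≤ Cw)
    (hin : ∀ z : ℂ, |z.im| ≤ 2 → T + 1 + U + U ≤ z.re → z.re ≤ 2 * T - 1 - U - U →
        ‖w z - 1‖ ≤ Cw * r)
    (hout : ∀ z : ℂ, |z.im| ≤ 2 → (z.re ≤ T + 1 + U - U ∨ 2 * T - 1 - U + U ≤ z.re) →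
        ‖w z‖ ≤ Cw * r)
    (htail : ∀ v : ℝ, |v| ≤ 2 →
        ∫ t in (Icc (T + 1 + U - U) (2 * T - 1 - U + U))ᶜ, ‖w (t + v * I)‖ ≤ Cw * H * r)
    {a b : ℝ} (ha : a ∈ Icc T (T + 1)) (hb : b ∈ Icc (2 * T - 1) (2 * T))
    (hL : ∀ t : ℝ, t = a ∨ t = b → ∀ σ ∈ Icc (1 / 2 : ℝ) 2, LFunction χ (σ + t * I) ≠ 0 ∧
      ‖logDeriv (LFunction χ) (σ + t * I)‖ ≤ Bh)
    (hg : ∀ t : ℝ, 2 ≤ t →
      ‖logDeriv (gammaFactor χ) (1 / 2 + t * I) - ((Real.log t / 2 : ℝ) : ℂ)‖ ≤ Cg)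
    (hX : ∀ n : ℕ, X < n → ℓ + 1 / H ≤ un n) (h1 : 2 * (1 / H) ≤ 1 / (2 * π * X))
    (h2 : 2 * (1 / H) ≤ un 2)
    (hKt : ∀ a ∈ Icc (-1 : ℝ) 1, ∀ a', |a - a'| < 1 / H / ℓ → K a ≤ Kt a' + ε)
    (Z : Finset ℂ) (hZ : ∀ z, z ∈ Z ↔ T < z.re ∧ z.re ≤ 2 * T ∧ Xi χ z = 0)
    (hNall : ∑ z ∈ Z, (nn χ z : ℝ) ≤ Nall)
    (hθ : 2 * (3 * Bh * (Cw * r) + Btwo χ * (Cw * H * r)) * Real.exp (3 * π * ℓ)
      + Real.log T * (Cw * H * r) + 2 * π * (Nall * (Cw * r) * Real.exp (π * ℓ)) ≤ θ) :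
    ∃ Zt : Finset ℂ, Zt ⊆ Z.filter (fun z => ¬ (T + 1 + U + U ≤ z.re ∧ z.re ≤ 2 * T - 1 - U - U)) ∧
      (∀ z ∈ Zt, conj z ∈ Zt) ∧
      (4 * π ^ 2 * ∫ s in (-1 : ℝ)..1, K s * ‖nu χ w
          (Z.filter (fun z => T + 1 + U + U ≤ z.re ∧ z.re ≤ 2 * T - 1 - U - U)) Zt (s * ℓ)‖ ^ 2
        ≤ (1 + ε) * (T / ℓ * (Real.log T ^ 2 * (Kt 0 + ε) + ∑ n ∈ Finset.Icc 1 X,
          ArithmeticFunction.vonMangoldt n ^ 2 / n
            * (Kt (Real.log n / (2 * π * ℓ)) + Kt (-(Real.log n / (2 * π * ℓ))) + 2 * ε)))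
          + (1 + 1 / ε) * Km * (6 * (((Real.log N / 2 + Cg + 1) * Cw) ^ 2 * T / ℓ) + 6 * θ ^ 2)) ∧
      Real.log T * (T - 2 - 2 * U) ≤ 2 * π * ‖nu χ w
          (Z.filter (fun z => T + 1 + U + U ≤ z.re ∧ z.re ≤ 2 * T - 1 - U - U)) Zt 0‖
        + 2 * ((Real.log N / 2 + Cg + 1) * Cw * T) + θ := by
  classical
  have hU0 : 0 < U := hH.trans_le hHU
  have ha0 : 0 < a := by linarith [ha.1]
  have hab : a < b := by linarith [ha.2, hb.1]
  have hL0 : 0 ≤ Real.log T := Real.log_nonneg (by linarith)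
  set P : ℂ → Prop := fun z => T + 1 + U + U ≤ z.re ∧ z.re ≤ 2 * T - 1 - U - U with hPdef
  set Zr := Z.filter (fun z => a ≤ z.re ∧ z.re ≤ b) with hZr
  have him : ∀ z ∈ Z, |z.im| < 1 / 2 := fun z hz => by
    obtain ⟨h1, -, h3⟩ := (hZ z).1 hz
    exact abs_im_lt_of_Xi_eq_zero χ hχ (by linarith) h3
  have hXa := Xi_vert_ne_zero χ hχ ha0 (hL a (Or.inl rfl))
  have hZr' : ∀ z, z ∈ Zr ↔ z ∈ Icc a b ×ℂ Icc (-(3 / 2) : ℝ) (3 / 2) ∧ Xi χ z = 0 := by
    intro z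
    rw [hZr, Finset.mem_filter]
    constructor
    · rintro ⟨h1, h2⟩
      have h3 := abs_lt.1 (him z h1)
      exact ⟨⟨h2, ⟨by linarith, by linarith⟩⟩, ((hZ z).1 h1).2.2⟩
    · rintro ⟨⟨h1, -⟩, h3⟩
      refine ⟨(hZ z).2 ⟨?_, h1.2.trans hb.2, h3⟩, h1⟩
      refine ha.1.trans_lt (lt_of_le_of_ne h1.1 ?_)
      intro h
      apply hXa z.im
      rw [h, re_add_im]; exact h3
  have hZi : Zr.filter P = Z.filter P := by
    ext z
    simp only [hZr, Finset.mem_filter, hPdef]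
    constructor
    · rintro ⟨⟨h1, -⟩, h3⟩; exact ⟨h1, h3⟩
    · rintro ⟨h1, h3⟩
      exact ⟨⟨h1, by linarith [ha.2, h3.1], by linarith [hb.1, h3.2]⟩, h3⟩
  have htail' : ∀ v : ℝ, |v| ≤ 2 → ∫ t in (Icc a b)ᶜ, ‖w (t + v * I)‖ ≤ Cw * H * r := by
    intro v hv
    refine le_trans ?_ (htail v hv)
    refine setIntegral_mono_set (hFT v hv).1.norm.integrableOn
      (Eventually.of_forall fun _ => norm_nonneg _) (LE.le.eventuallyLE ?_)
    exact compl_subset_compl.2 (Icc_subset_Icc (by linarith [ha.2]) (by linarith [hb.1]))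
  have hv1 : |(-(3 / 2) : ℝ)| ≤ 2 := by norm_num [abs_le]
  have hv0 : |(0 : ℝ)| ≤ 2 := by norm_num
  have hEF := explicit_formula' χ hrect hχ hw hwc hWc (hFT _ hv1).1 (hFT _ hv1).2
    (by simpa using (hFT _ hv0).1) (by simpa [gu] using (hFT _ hv0).2) ha0 hab hL0 (htail' _ hv1)
    (by simpa using htail' _ hv0) hL (ω := Cw * r) (by
      intro t ht y hy
      apply hout
      · simp; rw [abs_le]; constructor <;> linarith [hy.1, hy.2]
      · rcases ht with rfl | rfl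
        · left; simp; linarith [ha.2]
        · right; simp; linarith [hb.1]) Zr hZr'
  have hNr : ∑ z ∈ Zr, (nn χ z : ℝ) ≤ Nall :=
    (Finset.sum_le_sum_of_subset_of_nonneg (Finset.filter_subset _ _)
      (fun _ _ _ => by positivity)).trans hNall
  have hBh : 0 ≤ Bh := (norm_nonneg _).trans (hL a (Or.inl rfl) 1 (by norm_num)).2
  have hB2 := Btwo_nonneg χ
  have key : ∀ u : ℝ, |u| ≤ ℓ →
      ‖2 * π * nu χ w (Z.filter P) (Zr.filter fun z => ¬ P z) u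
        - (Real.log T * W u - Psum χ W u - conj (Psum χ W (-u)))
        - Err χ w a b (Real.log T) u - conj (Err χ w a b (Real.log T) (-u))‖ ≤ θ := by
    intro u hu
    have h3 := hEF u
    have h4 := nu_sub χ (w := w) Zr P (ω := Cw * r) (by positivity)
      (fun z hz => (him z (Finset.mem_of_mem_filter z hz)).le) (fun z hz hP =>
        hin z (by linarith [him z (Finset.mem_of_mem_filter z hz)]) hP.1 hP.2) u
    rw [hZi] at h4
    set ν := nu χ w (Z.filter P) (Zr.filter fun z => ¬ P z) u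
    change ‖2 * π * (∑ ρ ∈ Zr, (nn χ ρ : ℂ) * gu w u ρ) - _ - _ - _‖ ≤ _ at h3
    set μ := ∑ ρ ∈ Zr, (nn χ ρ : ℂ) * gu w u ρ
    have h5 : 2 * π * ν - (Real.log T * W u - Psum χ W u - conj (Psum χ W (-u)))
        - Err χ w a b (Real.log T) u - conj (Err χ w a b (Real.log T) (-u))
        = (2 * π * μ - (Real.log T * W u - Psum χ W u - conj (Psum χ W (-u)))
        - Err χ w a b (Real.log T) u - conj (Err χ w a b (Real.log T) (-u)))
          + 2 * π * (ν - μ) := by ring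
    rw [h5]
    refine (norm_add_le _ _).trans (le_trans ?_ hθ)
    have h6 : ‖2 * π * (ν - μ)‖ = 2 * π * ‖ν - μ‖ := by
      rw [norm_mul, norm_mul, norm_real, Real.norm_eq_abs, abs_of_pos Real.pi_pos]
      simp
    have h7 : Real.exp (3 * π * |u|) ≤ Real.exp (3 * π * ℓ) := by
      have := Real.pi_pos
      gcongr
    have h8 : ‖ν - μ‖ ≤ Nall * (Cw * r) * Real.exp (π * ℓ) := by
      refine h4.trans ?_
      have := Real.pi_pos
      have : 0 ≤ Nall := le_trans (by positivity) hNr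
      gcongr
    rw [h6]
    have := Real.pi_pos
    have h9 : 2 * (3 * Bh * (Cw * r) + Btwo χ * (Cw * H * r)) * Real.exp (3 * π * |u|)
        ≤ 2 * (3 * Bh * (Cw * r) + Btwo χ * (Cw * H * r)) * Real.exp (3 * π * ℓ) := by gcongr
    have h10 : 2 * π * ‖ν - μ‖ ≤ 2 * π * (Nall * (Cw * r) * Real.exp (π * ℓ)) := by gcongr
    linarith
  have hME : ∀ t ∈ Icc a b, ‖Efun χ (Real.log T) t * w t‖ ≤ (Real.log N / 2 + Cg + 1) * Cw := by
    intro t ht
    have h3 := norm_Efun_le χ hT (t := t) ⟨ha.1.trans ht.1, ht.2.trans hb.2⟩ hg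
    have h4 := hwb t (by simp)
    rw [norm_mul]
    have := (norm_nonneg _).trans h3
    gcongr
  have hME0 : 0 ≤ (Real.log N / 2 + Cg + 1) * Cw := (norm_nonneg _).trans (hME a ⟨le_rfl, hab.le⟩)
  have hba : b - a ≤ T := by linarith [ha.1, hb.2]
  refine ⟨Zr.filter fun z => ¬ P z, ?_, ?_, ?_, ?_⟩
  · exact Finset.filter_subset_filter _ (Finset.filter_subset _ _)
  · intro z hz
    simp only [hZr, Finset.mem_filter, hZ, hPdef, conj_re] at hz ⊢
    refine ⟨⟨⟨hz.1.1.1, hz.1.1.2.1, ?_⟩, hz.1.2⟩, hz.2⟩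
    exact (Xi_conj_eq_zero_iff χ hχ (by linarith [hz.1.1.1])).2 hz.1.1.2.2
  · obtain ⟨e1, e2⟩ := integral_Err_sq_le χ hP hw (L := Real.log T) hab.le hℓ hME
    have hQ : ((Real.log N / 2 + Cg + 1) * Cw) ^ 2 * (b - a) / ℓ
        ≤ ((Real.log N / 2 + Cg + 1) * Cw) ^ 2 * T / ℓ := by gcongr
    have hcE := continuous_Err χ hw a b (Real.log T)
    have hcν := continuous_nu χ w (Z.filter P) (Zr.filter fun z => ¬ P z)
    have hSc : ContinuousOn (fun s : ℝ => Real.log T * W (s * ℓ) - Psum χ W (s * ℓ)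
        - conj (Psum χ W (-(s * ℓ)))) (Icc (-1) 1) := by
      refine ContinuousOn.congr (f := fun s : ℝ =>
        ∑ i ∈ (insert 0 (Finset.Icc 2 X)).disjSum (Finset.Icc 2 X),
          alp χ (Real.log T) i * W (s * ℓ - cen i)) (Continuous.continuousOn (by fun_prop)) ?_
      intro s hs
      apply main_eq_sum χ hsupp hWc hX
      rw [abs_mul, abs_of_pos hℓ]
      have : |s| ≤ 1 := abs_le.2 hs
      nlinarith
    have h3 := perturb (K := K)
      (μ := fun s => 2 * π * nu χ w (Z.filter P) (Zr.filter fun z => ¬ P z) (s * ℓ))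
      (S := fun s => Real.log T * W (s * ℓ) - Psum χ W (s * ℓ) - conj (Psum χ W (-(s * ℓ))))
      (E₁ := fun s => Err χ w a b (Real.log T) (s * ℓ))
      (E₂ := fun s => conj (Err χ w a b (Real.log T) (-(s * ℓ)))) (θ := θ) hK hK0 hKm
      (by fun_prop) hSc (by fun_prop) (by fun_prop) hε (fun s hs => key _ (by
        rw [abs_mul, abs_of_pos hℓ]
        have : |s| ≤ 1 := abs_le.2 hs
        nlinarith)) (e1.trans hQ) (e2.trans hQ)
    have h4 := mean_value_main χ (L := Real.log T) (D := T) hK hK0 hW hsupp hWc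
      (hW2.trans (by linarith)) hℓ hε.le hX h1 h2 hKt0 hKt
    have h5 : 4 * π ^ 2 * ∫ s in (-1 : ℝ)..1,
          K s * ‖nu χ w (Z.filter P) (Zr.filter fun z => ¬ P z) (s * ℓ)‖ ^ 2
        = ∫ s in (-1 : ℝ)..1,
          K s * ‖2 * π * nu χ w (Z.filter P) (Zr.filter fun z => ¬ P z) (s * ℓ)‖ ^ 2 := by
      rw [← intervalIntegral.integral_const_mul]
      congr 1
      funext s
      rw [norm_mul, norm_mul, norm_real, Real.norm_eq_abs, abs_of_pos Real.pi_pos]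
      simp only [norm_ofNat]
      ring
    rw [h5]
    refine h3.trans ?_
    gcongr
  · have h3 := key 0 (by simpa using hℓ.le)
    have hδ : 1 / H ≤ un 2 := by
      have : 0 < 1 / H := by positivity
      linarith
    rw [neg_zero, Psum_zero χ hsupp hδ, hW0] at h3
    have h4 := norm_Err_le χ (L := Real.log T) hab.le hME 0
    have h5 : (Real.log N / 2 + Cg + 1) * Cw * (b - a) ≤ (Real.log N / 2 + Cg + 1) * Cw * T := by
      gcongr
    set ν := nu χ w (Z.filter P) (Zr.filter fun z => ¬ P z) 0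
    set E := Err χ w a b (Real.log T) 0
    have h6 : ((Real.log T * (T - 2 - 2 * U) : ℝ) : ℂ) = 2 * π * ν - E - conj E
        - (2 * π * ν - (Real.log T * (((2 * T - 1 - U) - (T + 1 + U) : ℝ) : ℂ) - 0 - conj 0)
          - E - conj E) := by
      simp only [map_zero]; push_cast; ring
    have h7 := congrArg norm h6
    rw [norm_real, Real.norm_eq_abs, abs_of_nonneg (mul_nonneg hL0 (by linarith))] at h7
    rw [h7]
    refine (norm_sub_le _ _).trans ?_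
    have h8 : ‖2 * π * ν - E - conj E‖ ≤ 2 * π * ‖ν‖ + ‖E‖ + ‖E‖ := by
      refine (norm_sub_le _ _).trans ?_
      rw [RCLike.norm_conj]
      gcongr
      refine (norm_sub_le _ _).trans ?_
      rw [norm_mul, norm_mul, norm_real, Real.norm_eq_abs, abs_of_pos Real.pi_pos]
      simp
    linarith

end Pool.Agent.MP_f259ea_nt
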