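import Pool.Agent.MP_f259ea_nt.A_Gam

/-!
Counting zeros in the variable `z`.
-/

set_option autoImplicit false

open Complex MeasureTheory Set Filter Topology DirichletCharacter
open scoped Real ComplexConjugate

namespace Pool.Agent.MP_f259ea_nt

variable {N : ℕ} [NeZero N] (χ : DirichletCharacter ℂ N)

/-- The multiplicity of a zero. -/
noncomputable def nn (z : ℂ) : ℕ := (analyticOrderAt (Xi χ) z).toNat

lemma sOf_injective : Function.Injective sOf := by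
  intro z w h
  unfold sOf at h
  exact mul_left_cancel₀ I_ne_zero (add_left_cancel h)

lemma nn_conj (hχ : χ.IsPrimitive) {z : ℂ} (hz : 0 < z.re) : nn χ (conj z) = nn χ z := by
  unfold nn; rw [order_Xi_conj χ hχ hz]

lemma one_le_nn {z : ℂ} (hz : 0 < z.re) (h : Xi χ z = 0) : 1 ≤ nn χ z := by
  unfold nn
  obtain ⟨n, hn⟩ := ENat.ne_top_iff_exists.1 (order_Xi_ne_top χ hz)
  have h1 := (analyticOnNhd_Xi χ z hz).analyticOrderAt_ne_zero.2 h
  rw [← hn] at h1 ⊢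
  simp only [ENat.toNat_natCast]
  have : n ≠ 0 := by simpa using h1
  omega

lemma count_unit (hc : StmtCount) (hχ : χ.IsPrimitive) :
    ∃ C t₀ : ℝ, 0 ≤ C ∧ 1 ≤ t₀ ∧ ∀ t : ℝ, t₀ ≤ t → ∀ Z : Finset ℂ,
      (∀ z ∈ Z, t ≤ z.re ∧ z.re ≤ t + 1 ∧ |z.im| < 1 / 2) →
        ∑ z ∈ Z, (nn χ z : ℝ) ≤ C * Real.log t := by
  classical
  obtain ⟨C, t₀, h⟩ := hc N χ
  have key : ∀ t : ℝ, max t₀ 1 ≤ t → ∀ Z : Finset ℂ,
      (∀ z ∈ Z, t ≤ z.re ∧ z.re ≤ t + 1 ∧ |z.im| < 1 / 2 ∧ z.im ≤ 0) →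
        ∑ z ∈ Z, (nn χ z : ℝ) ≤ max C 0 * Real.log t := by
    intro t ht Z hZ
    have ht1 : 1 ≤ t := (le_max_right _ _).trans ht
    have h1 := h t ((le_max_left _ _).trans ht) (Z.image sOf) (by
      intro ρ hρ
      obtain ⟨z, hz, rfl⟩ := Finset.mem_image.1 hρ
      obtain ⟨h1, h2, h3, h4⟩ := hZ z hz
      rw [abs_lt] at h3
      simp only [sOf_re, sOf_im]
      exact ⟨by linarith, by linarith, h1, h2⟩)
    rw [Finset.sum_image (fun _ _ _ _ h => sOf_injective h)] at h1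
    calc ∑ z ∈ Z, (nn χ z : ℝ)
        = ∑ z ∈ Z, ((analyticOrderAt (LFunction χ) (sOf z)).toNat : ℝ) := by
          refine Finset.sum_congr rfl fun z hz => ?_
          obtain ⟨h1, -, -, h4⟩ := hZ z hz
          unfold nn
          rw [order_Xi_eq χ (by linarith) (by linarith)]
      _ ≤ C * Real.log t := h1
      _ ≤ _ := by
          have := Real.log_nonneg ht1
          gcongr
          exact le_max_left _ _
  refine ⟨2 * max C 0, max t₀ 1, by positivity, le_max_right _ _, fun t ht Z hZ => ?_⟩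
  have ht1 : 1 ≤ t := (le_max_right _ _).trans ht
  rw [← Finset.sum_filter_add_sum_filter_not Z (fun z => z.im ≤ 0)]
  have h1 := key t ht (Z.filter (fun z => z.im ≤ 0)) (by
    intro z hz
    rw [Finset.mem_filter] at hz
    obtain ⟨h1, h2, h3⟩ := hZ z hz.1
    exact ⟨h1, h2, h3, hz.2⟩)
  have h2 := key t ht ((Z.filter (fun z => ¬ z.im ≤ 0)).image conj) (by
    intro ρ hρ
    obtain ⟨z, hz, rfl⟩ := Finset.mem_image.1 hρ
    rw [Finset.mem_filter] at hz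
    obtain ⟨h1, h2, h3⟩ := hZ z hz.1
    simp only [conj_re, conj_im, abs_neg]
    exact ⟨h1, h2, h3, by linarith [not_le.1 hz.2]⟩)
  rw [Finset.sum_image (fun _ _ _ _ h => by simpa using congrArg conj h)] at h2
  have h3 : ∑ z ∈ Z.filter (fun z => ¬ z.im ≤ 0), (nn χ (conj z) : ℝ)
      = ∑ z ∈ Z.filter (fun z => ¬ z.im ≤ 0), (nn χ z : ℝ) := by
    refine Finset.sum_congr rfl fun z hz => ?_
    rw [Finset.mem_filter] at hz
    rw [nn_conj χ hχ (by linarith [(hZ z hz.1).1])]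
  linarith

lemma count_long (hc : StmtCount) (hχ : χ.IsPrimitive) :
    ∃ C t₀ : ℝ, 0 ≤ C ∧ 1 ≤ t₀ ∧ ∀ t R : ℝ, t₀ ≤ t → 0 ≤ R → ∀ Z : Finset ℂ,
      (∀ z ∈ Z, t ≤ z.re ∧ z.re ≤ t + R ∧ |z.im| < 1 / 2) →
        ∑ z ∈ Z, (nn χ z : ℝ) ≤ C * (R + 1) * Real.log (t + R + 1) := by
  classical
  obtain ⟨C, t₀, hC, ht₀, h⟩ := count_unit χ hc hχ
  have key : ∀ (n : ℕ) (t : ℝ), t₀ ≤ t → ∀ Z : Finset ℂ,
      (∀ z ∈ Z, t ≤ z.re ∧ z.re ≤ t + (n + 1) ∧ |z.im| < 1 / 2) →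
        ∑ z ∈ Z, (nn χ z : ℝ) ≤ C * (n + 1) * Real.log (t + n) := by
    intro n t ht
    induction n with
    | zero => intro Z hZ; simpa using h t ht Z (by simpa using hZ)
    | succ n ih =>
      intro Z hZ
      rw [← Finset.sum_filter_add_sum_filter_not Z (fun z => z.re ≤ t + (n + 1))]
      have h1 := ih (Z.filter (fun z => z.re ≤ t + (n + 1))) (by
        intro z hz
        rw [Finset.mem_filter] at hz
        obtain ⟨h1, -, h3⟩ := hZ z hz.1
        exact ⟨h1, hz.2, h3⟩)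
      have hn : (0 : ℝ) ≤ n := by positivity
      have h2 := h (t + (n + 1)) (by linarith) (Z.filter (fun z => ¬ z.re ≤ t + (n + 1))) (by
        intro z hz
        rw [Finset.mem_filter] at hz
        obtain ⟨-, h2, h3⟩ := hZ z hz.1
        push_cast at h2
        exact ⟨(not_le.1 hz.2).le, by linarith, h3⟩)
      have h3 : Real.log (t + n) ≤ Real.log (t + (n + 1)) := by
        gcongr
        · linarith
        · linarith
      have h4 : C * (n + 1) * Real.log (t + n) ≤ C * (n + 1) * Real.log (t + (n + 1)) := by gcongr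
      push_cast
      nlinarith
  refine ⟨C, t₀, hC, ht₀, fun t R ht hR Z hZ => ?_⟩
  have h1 := key ⌊R⌋₊ t ht Z (by
    intro z hz
    obtain ⟨h1, h2, h3⟩ := hZ z hz
    exact ⟨h1, by linarith [Nat.lt_floor_add_one R], h3⟩)
  refine h1.trans ?_
  have h2 := Nat.floor_le hR
  have hn : (0 : ℝ) ≤ ⌊R⌋₊ := by positivity
  have h3 : 0 ≤ Real.log (t + ⌊R⌋₊) := Real.log_nonneg (by linarith)
  have h4 : Real.log (t + ⌊R⌋₊) ≤ Real.log (t + R + 1) :=
    Real.log_le_log (by linarith) (by linarith)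
  gcongr

lemma isCompact_rect (a b c d : ℝ) : IsCompact (Icc a b ×ℂ Icc c d) :=
  isCompact_Icc.reProdIm isCompact_Icc

lemma target_sets (hχ : χ.IsPrimitive) {T : ℝ} (hT : 0 < T) :
    ∃ Z : Finset ℂ, (∀ z, z ∈ Z ↔ T < z.re ∧ z.re ≤ 2 * T ∧ Xi χ z = 0) ∧
      (∑ᶠ ρ ∈ {s : ℂ | 0 < s.re ∧ s.re < 1 ∧ T < s.im ∧ s.im ≤ 2 * T ∧ LFunction χ s = 0},
            ((analyticOrderAt (LFunction χ) ρ).toNat : ℝ)) = ∑ z ∈ Z, (nn χ z : ℝ) ∧
      {s : ℂ | 0 < s.re ∧ s.re < 1 ∧ T < s.im ∧ s.im ≤ 2 * T ∧ LFunction χ s = 0}.ncard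
        = Z.card := by
  classical
  have hfin := finite_zeros_Xi χ (isCompact_rect T (2 * T) (-1) 1)
    (fun z hz => hT.trans_le hz.1.1)
  set Z := hfin.toFinset.filter (fun z => T < z.re) with hZdef
  have hZ : ∀ z, z ∈ Z ↔ T < z.re ∧ z.re ≤ 2 * T ∧ Xi χ z = 0 := by
    intro z
    rw [hZdef, Finset.mem_filter, Finite.mem_toFinset]
    constructor
    · rintro ⟨⟨h1, h2⟩, h3⟩
      exact ⟨h3, h1.1.2, h2⟩
    · rintro ⟨h1, h2, h3⟩
      have h4 := abs_lt.1 (abs_im_lt_of_Xi_eq_zero χ hχ (hT.trans h1) h3)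
      exact ⟨⟨⟨⟨h1.le, h2⟩, ⟨by linarith, by linarith⟩⟩, h3⟩, h1⟩
  have hS : {s : ℂ | 0 < s.re ∧ s.re < 1 ∧ T < s.im ∧ s.im ≤ 2 * T ∧ LFunction χ s = 0}
      = ((Z.image sOf : Finset ℂ) : Set ℂ) := by
    ext s
    simp only [mem_ofPred_eq, Finset.coe_image, mem_image, Finset.mem_coe, hZ]
    constructor
    · rintro ⟨h1, h2, h3, h4, h5⟩
      have hs : sOf ((s - 1 / 2) / I) = s := by unfold sOf; field_simp; ring
      have hre := sOf_re ((s - 1 / 2) / I)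
      have him := sOf_im ((s - 1 / 2) / I)
      rw [hs] at hre him
      refine ⟨(s - 1 / 2) / I, ⟨by linarith, by linarith, ?_⟩, hs⟩
      rw [Xi_eq_zero_iff χ (by linarith)]
      unfold Lz
      rwa [hs]
    · rintro ⟨z, ⟨h1, h2, h3⟩, rfl⟩
      have h4 := abs_lt.1 (abs_im_lt_of_Xi_eq_zero χ hχ (hT.trans h1) h3)
      simp only [sOf_re, sOf_im]
      exact ⟨by linarith, by linarith, h1, h2, (Xi_eq_zero_iff χ h4.2).1 h3⟩
  refine ⟨Z, hZ, ?_, ?_⟩
  · rw [hS, finsum_mem_coe_finset, Finset.sum_image (fun _ _ _ _ h => sOf_injective h)]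
    refine Finset.sum_congr rfl fun z hz => ?_
    obtain ⟨h1, -, h3⟩ := (hZ z).1 hz
    have h4 := abs_lt.1 (abs_im_lt_of_Xi_eq_zero χ hχ (hT.trans h1) h3)
    unfold nn
    rw [order_Xi_eq χ h4.2 (hT.trans h1)]
  · rw [hS, ncard_coe_finset, Finset.card_image_of_injective _ sOf_injective]

end Pool.Agent.MP_f259ea_nt
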