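import Pool.Agent.MP_f259ea_nt.A_Line

/-!
The explicit formula on a finite rectangle.
-/

set_option autoImplicit false

open Complex MeasureTheory Set Filter Topology DirichletCharacter
open scoped Real ComplexConjugate

namespace Pool.Agent.MP_f259ea_nt

variable {N : ℕ} [NeZero N] (χ : DirichletCharacter ℂ N)

/-- The Archimedean term. -/
noncomputable def Gam (w : ℂ → ℂ) (a b u : ℝ) : ℂ :=
  ∫ x in a..b, (((Real.log N / 2 : ℝ) : ℂ) + logDeriv (gammaFactor χ) (1 / 2 + x * I)) * gu w u x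

lemma sOf_vert (t y : ℝ) : sOf (t + y * I) = ((1 / 2 - y : ℝ) : ℂ) + t * I := by
  apply Complex.ext <;> simp

lemma Lz_vert {t B : ℝ} (ht : 0 < t)
    (hL : ∀ σ ∈ Icc (1 / 2 : ℝ) 2, LFunction χ (σ + t * I) ≠ 0 ∧
      ‖logDeriv (LFunction χ) (σ + t * I)‖ ≤ B) {y : ℝ} (hy : y ∈ Icc (-(3 / 2) : ℝ) 0) :
    Lz χ (t + y * I) ≠ 0 ∧ ‖logDeriv (Lz χ) (t + y * I)‖ ≤ B := by
  have h := hL (1 / 2 - y) ⟨by linarith [hy.2], by linarith [hy.1]⟩
  rw [logDeriv_Lz χ (by simpa using ht), norm_mul, norm_I, one_mul]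
  unfold Lz
  rw [sOf_vert]
  exact h

lemma Xi_vert_ne_zero (hχ : χ.IsPrimitive) {t B : ℝ} (ht : 0 < t)
    (hL : ∀ σ ∈ Icc (1 / 2 : ℝ) 2, LFunction χ (σ + t * I) ≠ 0 ∧
      ‖logDeriv (LFunction χ) (σ + t * I)‖ ≤ B) (y : ℝ) : Xi χ (t + y * I) ≠ 0 := by
  have key : ∀ y : ℝ, y ≤ 0 → Xi χ (t + y * I) ≠ 0 := by
    intro y hy
    by_cases h1 : y ≤ -(1 / 2)
    · exact Xi_ne_zero_of_im_le χ (by simpa using h1) (by simpa using ht)
    · rw [Ne, Xi_eq_zero_iff χ (by simp; linarith)]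
      exact (Lz_vert χ ht hL ⟨by linarith, hy⟩).1
  rcases le_total y 0 with hy | hy
  · exact key y hy
  · have h1 := key (-y) (by linarith)
    rw [Ne, ← Xi_conj_eq_zero_iff χ hχ (by simpa using ht)] at h1
    simpa using h1

lemma half_Lz {w : ℂ → ℂ} {W : ℝ → ℂ}
    (hi : Integrable (fun t : ℝ => w (t + (-(3 / 2) : ℝ) * I)))
    (hW : ∀ u : ℝ, ∫ t : ℝ, gu w u (t + (-(3 / 2) : ℝ) * I) = W u)
    {a b τ B ω : ℝ} (ha : 0 < a) (hab : a < b)
    (hτ : ∫ t in (Icc a b)ᶜ, ‖w (t + (-(3 / 2) : ℝ) * I)‖ ≤ τ)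
    (hL : ∀ t : ℝ, t = a ∨ t = b → ∀ σ ∈ Icc (1 / 2 : ℝ) 2, LFunction χ (σ + t * I) ≠ 0 ∧
      ‖logDeriv (LFunction χ) (σ + t * I)‖ ≤ B)
    (hω : ∀ t : ℝ, t = a ∨ t = b → ∀ y ∈ Icc (-(3 / 2) : ℝ) 0, ‖w (t + y * I)‖ ≤ ω) (u : ℝ) :
    ‖Half (fun z => logDeriv (Lz χ) z * gu w u z) a b (-(3 / 2)) + I * Psum χ W u‖
      ≤ (3 * B * ω + Btwo χ * τ) * Real.exp (3 * π * |u|) := by
  have hvert : ∀ t : ℝ, t = a ∨ t = b →
      ‖∫ y in (-(3 / 2) : ℝ)..0, logDeriv (Lz χ) (t + y * I) * gu w u (t + y * I)‖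
        ≤ B * ω * Real.exp (3 * π * |u|) * (3 / 2) := by
    intro t ht
    have ht0 : 0 < t := by rcases ht with rfl | rfl <;> linarith
    have h1 := intervalIntegral.norm_integral_le_of_norm_le_const (a := (-(3 / 2) : ℝ)) (b := 0)
      (C := B * ω * Real.exp (3 * π * |u|))
      (f := fun y : ℝ => logDeriv (Lz χ) (t + y * I) * gu w u (t + y * I)) ?_
    · have h2 : |(0 : ℝ) - -(3 / 2)| = 3 / 2 := by norm_num [abs_of_pos]
      rwa [h2] at h1
    · intro y hy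
      rw [uIoc_of_le (by norm_num)] at hy
      have hy' : y ∈ Icc (-(3 / 2) : ℝ) 0 := Ioc_subset_Icc_self hy
      have h2 := (Lz_vert χ ht0 (hL t ht) hy').2
      have h3 := hω t ht y hy'
      have h4 := norm_exp_uz_le u (t + y * I) (r := 3 / 2) (by
        simp; rw [abs_le]; constructor <;> linarith [hy'.1, hy'.2])
      have h5 : 2 * π * |u| * (3 / 2) = 3 * π * |u| := by ring
      rw [h5] at h4
      unfold gu
      rw [norm_mul, norm_mul]
      have hB : 0 ≤ B := (norm_nonneg _).trans h2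
      have hω0 : 0 ≤ ω := (norm_nonneg _).trans h3
      calc _ ≤ B * (ω * Real.exp (3 * π * |u|)) := by gcongr
        _ = _ := by ring
  have hhor : (∫ x in a..b, logDeriv (Lz χ) (x + (-(3 / 2) : ℝ) * I)
        * gu w u (x + (-(3 / 2) : ℝ) * I))
      = -I * ∫ t in a..b, LSeries (chiL χ) (sOf (t + (-(3 / 2) : ℝ) * I))
        * gu w u (t + (-(3 / 2) : ℝ) * I) := by
    rw [← intervalIntegral.integral_const_mul]
    apply intervalIntegral.integral_congr
    intro x hx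
    rw [uIcc_of_le hab.le] at hx
    simp only
    rw [logDeriv_Lz χ (by simp; linarith [hx.1]), logDeriv_LFunction_eq χ (by simp; norm_num)]
    ring
  have hseg := segment_integral χ hi hW u hab.le hτ
  unfold Half
  rw [hhor]
  set X := ∫ t in a..b, LSeries (chiL χ) (sOf (t + (-(3 / 2) : ℝ) * I))
        * gu w u (t + (-(3 / 2) : ℝ) * I)
  set V₁ := ∫ y in (-(3 / 2) : ℝ)..0, logDeriv (Lz χ) (b + y * I) * gu w u (b + y * I)
  set V₂ := ∫ y in (-(3 / 2) : ℝ)..0, logDeriv (Lz χ) (a + y * I) * gu w u (a + y * I)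
  have h1 : -I * X + I * V₁ - I * V₂ + I * Psum χ W u = I * (V₁ - V₂ - (X - Psum χ W u)) := by ring
  rw [h1, norm_mul, norm_I, one_mul]
  have h2 := hvert a (Or.inl rfl)
  have h3 := hvert b (Or.inr rfl)
  calc _ ≤ ‖V₁‖ + ‖V₂‖ + ‖X - Psum χ W u‖ :=
        (norm_sub_le _ _).trans (by gcongr; exact norm_sub_le _ _)
    _ ≤ _ := by nlinarith

lemma half_Gz {w : ℂ → ℂ} (hw : Differentiable ℂ w) {a b : ℝ} (hab : a < b) (u : ℝ) :
    Half (fun z => logDeriv (Gz χ) z * gu w u z) a b (-(3 / 2)) = I * Gam χ w a b u := by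
  rw [Half_eq_of_differentiableOn hab.le (by norm_num)]
  · unfold Gam
    rw [← intervalIntegral.integral_const_mul]
    congr 1
    funext x
    rw [logDeriv_Gz χ (by simp)]
    have : sOf x = 1 / 2 + x * I := by unfold sOf; ring
    rw [this]; ring
  · intro z hz
    have hz' : z.im < 1 / 2 := by
      have := hz.2.2
      linarith
    exact ((differentiableAt_logDeriv (analyticOnNhd_Gz χ z hz') (Gz_ne_zero χ hz')).mul
      (differentiable_gu hw u z)).differentiableWithinAt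

lemma intervalIntegrable_of_continuousAt {f : ℂ → ℂ} {p : ℝ → ℂ} (hp : Continuous p) {a b : ℝ}
    (hab : a ≤ b) (h : ∀ x ∈ Icc a b, ContinuousAt f (p x)) :
    IntervalIntegrable (fun x => f (p x)) volume a b := by
  apply ContinuousOn.intervalIntegrable
  rw [uIcc_of_le hab]
  intro x hx
  exact ((h x hx).comp hp.continuousAt).continuousWithinAt

lemma half_Xi {w : ℂ → ℂ} {W : ℝ → ℂ} (hw : Differentiable ℂ w)
    (hi : Integrable (fun t : ℝ => w (t + (-(3 / 2) : ℝ) * I)))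
    (hW : ∀ u : ℝ, ∫ t : ℝ, gu w u (t + (-(3 / 2) : ℝ) * I) = W u)
    {a b τ B ω : ℝ} (ha : 0 < a) (hab : a < b)
    (hτ : ∫ t in (Icc a b)ᶜ, ‖w (t + (-(3 / 2) : ℝ) * I)‖ ≤ τ)
    (hL : ∀ t : ℝ, t = a ∨ t = b → ∀ σ ∈ Icc (1 / 2 : ℝ) 2, LFunction χ (σ + t * I) ≠ 0 ∧
      ‖logDeriv (LFunction χ) (σ + t * I)‖ ≤ B)
    (hω : ∀ t : ℝ, t = a ∨ t = b → ∀ y ∈ Icc (-(3 / 2) : ℝ) 0, ‖w (t + y * I)‖ ≤ ω) (u : ℝ) :
    ‖Half (fun z => logDeriv (Xi χ) z * gu w u z) a b (-(3 / 2))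
        - I * (Gam χ w a b u - Psum χ W u)‖
      ≤ (3 * B * ω + Btwo χ * τ) * Real.exp (3 * π * |u|) := by
  have hb : 0 < b := ha.trans hab
  have hg := (differentiable_gu hw u).continuous
  have hLh : ∀ x ∈ Icc a b, Lz χ (x + (-(3 / 2) : ℝ) * I) ≠ 0 := fun x hx =>
    Lz_ne_zero χ (by simp; norm_num) (by simp; linarith [hx.1])
  have hLa : ∀ y ∈ Icc (-(3 / 2) : ℝ) 0, Lz χ (a + y * I) ≠ 0 := fun y hy =>
    (Lz_vert χ ha (hL a (Or.inl rfl)) hy).1
  have hLb : ∀ y ∈ Icc (-(3 / 2) : ℝ) 0, Lz χ (b + y * I) ≠ 0 := fun y hy =>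
    (Lz_vert χ hb (hL b (Or.inr rfl)) hy).1
  have cG : ∀ z : ℂ, z.im < 1 / 2 → ContinuousAt (fun z => logDeriv (Gz χ) z * gu w u z) z :=
    fun z hz => (continuousAt_logDeriv (analyticOnNhd_Gz χ z hz) (Gz_ne_zero χ hz)).mul
      hg.continuousAt
  have cL : ∀ z : ℂ, 0 < z.re → Lz χ z ≠ 0 →
      ContinuousAt (fun z => logDeriv (Lz χ) z * gu w u z) z :=
    fun z hz h => (continuousAt_logDeriv (analyticOnNhd_Lz χ z hz) h).mul hg.continuousAt
  have h1 : Half (fun z => logDeriv (Xi χ) z * gu w u z) a b (-(3 / 2))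
      = Half (fun z => logDeriv (Gz χ) z * gu w u z + logDeriv (Lz χ) z * gu w u z) a b
        (-(3 / 2)) := by
    apply Half_congr hab.le (by norm_num)
    · intro x hx
      rw [logDeriv_Xi_eq χ (by simp; norm_num) (by simp; linarith [hx.1]) (hLh x hx)]; ring
    · intro y hy
      rw [logDeriv_Xi_eq χ (by simp; linarith [hy.2]) (by simpa using hb) (hLb y hy)]; ring
    · intro y hy
      rw [logDeriv_Xi_eq χ (by simp; linarith [hy.2]) (by simpa using ha) (hLa y hy)]; ring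
  rw [h1, Half_add (φ := fun z => logDeriv (Gz χ) z * gu w u z)
    (ψ := fun z => logDeriv (Lz χ) z * gu w u z), half_Gz χ hw hab]
  · have h2 := half_Lz χ hi hW ha hab hτ hL hω u
    convert h2 using 2
    ring
  · exact intervalIntegrable_of_continuousAt (p := fun x : ℝ => x + (-(3 / 2) : ℝ) * I)
      (by fun_prop) hab.le (fun x _ => cG _ (by simp; norm_num))
  · exact intervalIntegrable_of_continuousAt (p := fun x : ℝ => x + (-(3 / 2) : ℝ) * I)
      (by fun_prop) hab.le (fun x hx => cL _ (by simp; linarith [hx.1]) (hLh x hx))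
  · exact intervalIntegrable_of_continuousAt (p := fun y : ℝ => b + y * I)
      (by fun_prop) (by norm_num) (fun y hy => cG _ (by simp; linarith [hy.2]))
  · exact intervalIntegrable_of_continuousAt (p := fun y : ℝ => b + y * I)
      (by fun_prop) (by norm_num) (fun y hy => cL _ (by simpa using hb) (hLb y hy))
  · exact intervalIntegrable_of_continuousAt (p := fun y : ℝ => a + y * I)
      (by fun_prop) (by norm_num) (fun y hy => cG _ (by simp; linarith [hy.2]))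
  · exact intervalIntegrable_of_continuousAt (p := fun y : ℝ => a + y * I)
      (by fun_prop) (by norm_num) (fun y hy => cL _ (by simpa using ha) (hLa y hy))

theorem explicit_formula (hrect : StmtRect) (hχ : χ.IsPrimitive) {w : ℂ → ℂ} {W : ℝ → ℂ}
    (hw : Differentiable ℂ w) (hwc : ∀ z, w (conj z) = conj (w z))
    (hi : Integrable (fun t : ℝ => w (t + (-(3 / 2) : ℝ) * I)))
    (hW : ∀ u : ℝ, ∫ t : ℝ, gu w u (t + (-(3 / 2) : ℝ) * I) = W u)
    {a b τ B ω : ℝ} (ha : 0 < a) (hab : a < b)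
    (hτ : ∫ t in (Icc a b)ᶜ, ‖w (t + (-(3 / 2) : ℝ) * I)‖ ≤ τ)
    (hL : ∀ t : ℝ, t = a ∨ t = b → ∀ σ ∈ Icc (1 / 2 : ℝ) 2, LFunction χ (σ + t * I) ≠ 0 ∧
      ‖logDeriv (LFunction χ) (σ + t * I)‖ ≤ B)
    (hω : ∀ t : ℝ, t = a ∨ t = b → ∀ y ∈ Icc (-(3 / 2) : ℝ) 0, ‖w (t + y * I)‖ ≤ ω)
    (Z : Finset ℂ)
    (hZ : ∀ z, z ∈ Z ↔ z ∈ Icc a b ×ℂ Icc (-(3 / 2) : ℝ) (3 / 2) ∧ Xi χ z = 0) (u : ℝ) :
    ‖2 * π * (∑ ρ ∈ Z, ((analyticOrderAt (Xi χ) ρ).toNat : ℂ) * gu w u ρ)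
        - (Gam χ w a b u + conj (Gam χ w a b (-u)) - Psum χ W u - conj (Psum χ W (-u)))‖
      ≤ 2 * (3 * B * ω + Btwo χ * τ) * Real.exp (3 * π * |u|) := by
  have hb : 0 < b := ha.trans hab
  have hXa := Xi_vert_ne_zero χ hχ ha (hL a (Or.inl rfl))
  have hXb := Xi_vert_ne_zero χ hχ hb (hL b (Or.inr rfl))
  have hR := hrect (Xi χ) (gu w u) a b (-(3 / 2)) (3 / 2) Z hab (by norm_num)
    ((analyticOnNhd_Xi χ).mono (fun z hz => ha.trans_le hz.1.1)) (differentiable_gu hw u) hZ ?_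
  · have hcont : ∀ t : ℝ, 0 < t → (∀ y : ℝ, Xi χ (t + y * I) ≠ 0) →
        ContinuousOn (fun y : ℝ => logDeriv (Xi χ) (t + y * I) * gu w u (t + y * I))
          (Icc (-(3 / 2) : ℝ) (-(-(3 / 2)))) := by
      intro t ht hX y _
      have h1 : ContinuousAt (fun z => logDeriv (Xi χ) z * gu w u z) (t + y * I) :=
        (continuousAt_logDeriv (analyticOnNhd_Xi χ _ (by simpa using ht)) (hX y)).mul
          (differentiable_gu hw u).continuous.continuousAt
      exact (ContinuousAt.comp (f := fun y : ℝ => (t : ℂ) + y * I) h1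
        (by fun_prop)).continuousWithinAt
    have hT := total_eq_half (φ := fun z => logDeriv (Xi χ) z * gu w u z)
      (φ' := fun z => logDeriv (Xi χ) z * gu w (-u) z) (a := a) (b := b) (c := -(3 / 2)) hab.le
      (by norm_num) (fun z hz => by
        rw [logDeriv_Xi_conj χ hχ (ha.trans_le hz), gu_conj hwc, map_mul])
      (hcont a ha hXa) (hcont b hb hXb)
    simp only [neg_neg] at hT
    rw [hR] at hT
    have h1 := half_Xi χ hw hi hW ha hab hτ hL hω u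
    have h2 := half_Xi χ hw hi hW ha hab hτ hL hω (-u)
    rw [abs_neg] at h2
    set H₁ := Half (fun z => logDeriv (Xi χ) z * gu w u z) a b (-(3 / 2))
    set H₂ := Half (fun z => logDeriv (Xi χ) z * gu w (-u) z) a b (-(3 / 2))
    set S := ∑ ρ ∈ Z, ((analyticOrderAt (Xi χ) ρ).toNat : ℂ) * gu w u ρ
    have h3 : I * (2 * π * S - (Gam χ w a b u + conj (Gam χ w a b (-u)) - Psum χ W u
          - conj (Psum χ W (-u))))
        = (H₁ - I * (Gam χ w a b u - Psum χ W u))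
          - conj (H₂ - I * (Gam χ w a b (-u) - Psum χ W (-u))) := by
      simp only [map_sub, map_mul, conj_I]
      linear_combination hT
    have h4 := congrArg norm h3
    rw [norm_mul, norm_I, one_mul] at h4
    rw [h4]
    refine (norm_sub_le _ _).trans ?_
    rw [RCLike.norm_conj]
    linarith
  · intro z hz
    obtain ⟨⟨h1, h2⟩, h3⟩ := (hZ z).1 hz
    have h4 := abs_im_lt_of_Xi_eq_zero χ hχ (ha.trans_le h1.1) h3
    rw [abs_lt] at h4
    refine ⟨⟨lt_of_le_of_ne h1.1 ?_, lt_of_le_of_ne h1.2 ?_⟩, by simp; constructor <;> linarith⟩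
    · intro h
      apply hXa z.im
      rw [h, re_add_im]; exact h3
    · intro h
      apply hXb z.im
      rw [← h, re_add_im]; exact h3

end Pool.Agent.MP_f259ea_nt
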