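import Pool.Agent.MP_f259ea_nt.A_MV

/-!
The Archimedean term, and the explicit formula in its final form.
-/

set_option autoImplicit false

open Complex MeasureTheory Set Filter Topology DirichletCharacter
open scoped Real ComplexConjugate

namespace Pool.Agent.MP_f259ea_nt

variable {N : ℕ} (χ : DirichletCharacter ℂ N)

/-- The bounded remainder of the Archimedean density. -/
noncomputable def Efun (L x : ℝ) : ℂ :=
  ((Real.log N / 2 : ℝ) : ℂ) + logDeriv (gammaFactor χ) (1 / 2 + x * I) - ((L / 2 : ℝ) : ℂ)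

/-- The Archimedean error term. -/
noncomputable def Err (w : ℂ → ℂ) (a b L u : ℝ) : ℂ :=
  ∫ t in a..b, (Efun χ L t * w t) * Complex.exp (2 * π * I * u * t)

lemma analyticAt_gammaFactor {s : ℂ} (hs : 0 < s.re) : AnalyticAt ℂ (gammaFactor χ) s :=
  DifferentiableOn.analyticOnNhd
    (fun _ hz => (differentiableAt_gammaFactor χ hz).differentiableWithinAt) isOpen_rePos s hs

lemma continuous_Efun (L : ℝ) : Continuous (Efun χ L) := by
  unfold Efun
  refine (continuous_const.add ?_).sub continuous_const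
  rw [continuous_iff_continuousAt]
  intro x
  have hs : 0 < (1 / 2 + x * I : ℂ).re := by simp
  exact ContinuousAt.comp (f := fun x : ℝ => (1 / 2 + x * I : ℂ))
    (continuousAt_logDeriv (analyticAt_gammaFactor χ hs) (gammaFactor_ne_zero χ hs)) (by fun_prop)

lemma continuous_Err {w : ℂ → ℂ} (hw : Differentiable ℂ w) (a b L : ℝ) :
    Continuous (Err χ w a b L) := by
  have h1 := continuous_Efun χ L
  have h2 := hw.continuous
  unfold Err
  apply intervalIntegral.continuous_parametric_intervalIntegral_of_continuous'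
  fun_prop

lemma norm_Err_le {w : ℂ → ℂ} {a b L M : ℝ} (hab : a ≤ b)
    (hM : ∀ t ∈ Icc a b, ‖Efun χ L t * w t‖ ≤ M) (u : ℝ) : ‖Err χ w a b L u‖ ≤ M * (b - a) := by
  have h1 := intervalIntegral.norm_integral_le_of_norm_le_const (a := a) (b := b) (C := M)
    (f := fun t : ℝ => (Efun χ L t * w t) * Complex.exp (2 * π * I * u * t)) (by
      intro t ht
      rw [uIoc_of_le hab] at ht
      rw [norm_mul, norm_exp_uz]
      simpa using hM t (Ioc_subset_Icc_self ht))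
  rwa [abs_of_nonneg (by linarith)] at h1

lemma integral_Err_sq_le (hP : StmtPlanch) {w : ℂ → ℂ} (hw : Differentiable ℂ w)
    {a b L M ℓ : ℝ} (hab : a ≤ b) (hℓ : 0 < ℓ)
    (hM : ∀ t ∈ Icc a b, ‖Efun χ L t * w t‖ ≤ M) :
    (∫ s in (-1 : ℝ)..1, ‖Err χ w a b L (s * ℓ)‖ ^ 2 ≤ M ^ 2 * (b - a) / ℓ) ∧
    (∫ s in (-1 : ℝ)..1, ‖conj (Err χ w a b L (-(s * ℓ)))‖ ^ 2 ≤ M ^ 2 * (b - a) / ℓ) := by
  have h1 := hP (fun t => Efun χ L t * w t) a b M ℓ hab hℓ.le
    ((continuous_Efun χ L).mul (hw.continuous.comp continuous_ofReal)).continuousOn hM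
  have h2 : ∫ s in (-1 : ℝ)..1, ‖Err χ w a b L (s * ℓ)‖ ^ 2 ≤ M ^ 2 * (b - a) / ℓ := by
    rw [intervalIntegral.integral_comp_mul_right (fun u => ‖Err χ w a b L u‖ ^ 2) hℓ.ne',
      smul_eq_mul, div_eq_inv_mul]
    gcongr
    simpa [Err] using h1
  refine ⟨h2, ?_⟩
  simp_rw [RCLike.norm_conj, ← neg_mul]
  rw [intervalIntegral.integral_comp_neg (fun s => ‖Err χ w a b L (s * ℓ)‖ ^ 2)]
  simpa using h2

variable [NeZero N]

lemma gam_decomp {w : ℂ → ℂ} {W : ℝ → ℂ} (hw : Differentiable ℂ w)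
    (hi : Integrable (fun t : ℝ => w t)) (hW : ∀ u : ℝ, ∫ t : ℝ, gu w u t = W u)
    {a b τ L : ℝ} (hab : a ≤ b) (hL : 0 ≤ L) (hτ : ∫ t in (Icc a b)ᶜ, ‖w t‖ ≤ τ) (u : ℝ) :
    ‖Gam χ w a b u - ((L / 2 : ℝ) : ℂ) * W u - Err χ w a b L u‖ ≤ L / 2 * τ := by
  have hg : Integrable (fun t : ℝ => gu w u t) := by
    have := integrable_gu (w := w) (v := 0) (by simpa using hi) u
    simpa using this
  have hgc : Continuous (fun t : ℝ => gu w u t) :=
    (differentiable_gu hw u).continuous.comp continuous_ofReal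
  have h1 : Gam χ w a b u = Err χ w a b L u + ((L / 2 : ℝ) : ℂ) * ∫ t in a..b, gu w u t := by
    unfold Gam Err
    rw [← intervalIntegral.integral_const_mul, ← intervalIntegral.integral_add]
    · congr 1
      funext t
      unfold Efun gu
      ring
    · have h1 := continuous_Efun χ L
      have h2 := hw.continuous
      exact Continuous.intervalIntegrable (by fun_prop) _ _
    · exact Continuous.intervalIntegrable (by fun_prop) _ _
  rw [h1, ← hW u, ← integral_add_compl (s := Icc a b) measurableSet_Icc hg,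
    intervalIntegral.integral_of_le hab, integral_Icc_eq_integral_Ioc]
  have h2 : Err χ w a b L u + ((L / 2 : ℝ) : ℂ) * (∫ t in Ioc a b, gu w u t)
      - ((L / 2 : ℝ) : ℂ) * ((∫ t in Ioc a b, gu w u t) + ∫ t in (Icc a b)ᶜ, gu w u t)
      - Err χ w a b L u = -(((L / 2 : ℝ) : ℂ) * ∫ t in (Icc a b)ᶜ, gu w u t) := by ring
  rw [h2, norm_neg, norm_mul, norm_real, Real.norm_eq_abs, abs_of_nonneg (by positivity)]
  gcongr
  refine (norm_integral_le_integral_norm _).trans (le_trans (le_of_eq ?_) hτ)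
  congr 1
  funext t
  unfold gu
  rw [norm_mul, norm_exp_uz]
  simp

theorem explicit_formula' (hrect : StmtRect) (hχ : χ.IsPrimitive) {w : ℂ → ℂ} {W : ℝ → ℂ}
    (hw : Differentiable ℂ w) (hwc : ∀ z, w (conj z) = conj (w z))
    (hWc : ∀ u, W (-u) = conj (W u))
    (hi : Integrable (fun t : ℝ => w (t + (-(3 / 2) : ℝ) * I)))
    (hW : ∀ u : ℝ, ∫ t : ℝ, gu w u (t + (-(3 / 2) : ℝ) * I) = W u)
    (hi0 : Integrable (fun t : ℝ => w t)) (hW0 : ∀ u : ℝ, ∫ t : ℝ, gu w u t = W u)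
    {a b τ B ω L : ℝ} (ha : 0 < a) (hab : a < b) (hL0 : 0 ≤ L)
    (hτ : ∫ t in (Icc a b)ᶜ, ‖w (t + (-(3 / 2) : ℝ) * I)‖ ≤ τ)
    (hτ0 : ∫ t in (Icc a b)ᶜ, ‖w t‖ ≤ τ)
    (hL : ∀ t : ℝ, t = a ∨ t = b → ∀ σ ∈ Icc (1 / 2 : ℝ) 2, LFunction χ (σ + t * I) ≠ 0 ∧
      ‖logDeriv (LFunction χ) (σ + t * I)‖ ≤ B)
    (hω : ∀ t : ℝ, t = a ∨ t = b → ∀ y ∈ Icc (-(3 / 2) : ℝ) 0, ‖w (t + y * I)‖ ≤ ω)
    (Z : Finset ℂ)
    (hZ : ∀ z, z ∈ Z ↔ z ∈ Icc a b ×ℂ Icc (-(3 / 2) : ℝ) (3 / 2) ∧ Xi χ z = 0) (u : ℝ) :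
    ‖2 * π * (∑ ρ ∈ Z, ((analyticOrderAt (Xi χ) ρ).toNat : ℂ) * gu w u ρ)
        - (L * W u - Psum χ W u - conj (Psum χ W (-u)))
        - Err χ w a b L u - conj (Err χ w a b L (-u))‖
      ≤ 2 * (3 * B * ω + Btwo χ * τ) * Real.exp (3 * π * |u|) + L * τ := by
  have h1 := explicit_formula χ hrect hχ hw hwc hi hW ha hab hτ hL hω Z hZ u
  have h2 := gam_decomp χ hw hi0 hW0 hab.le hL0 hτ0 u
  have h3 := gam_decomp χ hw hi0 hW0 hab.le hL0 hτ0 (-u)
  rw [← RCLike.norm_conj] at h3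
  set S := ∑ ρ ∈ Z, ((analyticOrderAt (Xi χ) ρ).toNat : ℂ) * gu w u ρ
  have h4 : 2 * π * S - (L * W u - Psum χ W u - conj (Psum χ W (-u)))
        - Err χ w a b L u - conj (Err χ w a b L (-u))
      = (2 * π * S
        - (Gam χ w a b u + conj (Gam χ w a b (-u)) - Psum χ W u - conj (Psum χ W (-u))))
        + (Gam χ w a b u - ((L / 2 : ℝ) : ℂ) * W u - Err χ w a b L u)
        + conj (Gam χ w a b (-u) - ((L / 2 : ℝ) : ℂ) * W (-u) - Err χ w a b L (-u)) := by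
    rw [hWc]
    simp only [map_sub, map_mul, conj_conj, conj_ofReal]
    push_cast
    ring
  rw [h4]
  refine (norm_add₃_le).trans ?_
  linarith

end Pool.Agent.MP_f259ea_nt
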