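import Pool.Agent.MP_f259ea_nt.A_Sym

/-!
Half contours and the prime side of the explicit formula.
-/

set_option autoImplicit false

open Complex MeasureTheory Set Filter Topology DirichletCharacter
open scoped Real ComplexConjugate

namespace Pool.Agent.MP_f259ea_nt

/-- The test function `w(z) e(u z)`. -/
noncomputable def gu (w : ℂ → ℂ) (u : ℝ) (z : ℂ) : ℂ := w z * Complex.exp (2 * π * I * u * z)

lemma differentiable_gu {w : ℂ → ℂ} (hw : Differentiable ℂ w) (u : ℝ) :
    Differentiable ℂ (gu w u) := by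
  unfold gu
  fun_prop

lemma norm_exp_uz (u : ℝ) (z : ℂ) :
    ‖Complex.exp (2 * π * I * u * z)‖ = Real.exp (-(2 * π * u * z.im)) := by
  rw [Complex.norm_exp]
  congr 1
  simp

lemma norm_exp_uz_le (u : ℝ) (z : ℂ) {r : ℝ} (hz : |z.im| ≤ r) :
    ‖Complex.exp (2 * π * I * u * z)‖ ≤ Real.exp (2 * π * |u| * r) := by
  rw [norm_exp_uz]
  apply Real.exp_le_exp.2
  have h1 : -(u * z.im) ≤ |u| * r := by
    calc -(u * z.im) ≤ |u * z.im| := neg_le_abs _
      _ = |u| * |z.im| := abs_mul _ _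
      _ ≤ |u| * r := by gcongr
  have := Real.pi_pos
  nlinarith

lemma gu_conj {w : ℂ → ℂ} (hw : ∀ z, w (conj z) = conj (w z)) (u : ℝ) (z : ℂ) :
    gu w u (conj z) = conj (gu w (-u) z) := by
  unfold gu
  rw [hw, map_mul, ← Complex.exp_conj]
  congr 2
  simp [map_ofNat]

/-- The lower half of a rectangular contour, from `a` to `b` through height `c ≤ 0`. -/
noncomputable def Half (φ : ℂ → ℂ) (a b c : ℝ) : ℂ :=
  (∫ x in a..b, φ (x + c * I)) + I * (∫ y in c..0, φ (b + y * I)) - I * ∫ y in c..0, φ (a + y * I)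

lemma Half_eq_of_differentiableOn {φ : ℂ → ℂ} {a b c : ℝ} (hab : a ≤ b) (hc : c ≤ 0)
    (h : DifferentiableOn ℂ φ (Icc a b ×ℂ Icc c 0)) : Half φ a b c = ∫ x in a..b, φ x := by
  have h1 := integral_boundary_rect_eq_zero_of_differentiableOn φ (a + c * I) b
    (by simpa [uIcc_of_le hab, uIcc_of_le hc] using h)
  simp only [add_re, ofReal_re, mul_re, I_re, mul_zero, ofReal_im, I_im, mul_one, sub_self,
    add_zero, add_im, mul_im, zero_add, ofReal_zero, zero_mul, smul_eq_mul] at h1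
  unfold Half
  linear_combination h1

lemma Half_add {φ ψ : ℂ → ℂ} {a b c : ℝ}
    (h1 : IntervalIntegrable (fun x : ℝ => φ (x + c * I)) volume a b)
    (h1' : IntervalIntegrable (fun x : ℝ => ψ (x + c * I)) volume a b)
    (h2 : IntervalIntegrable (fun y : ℝ => φ (b + y * I)) volume c 0)
    (h2' : IntervalIntegrable (fun y : ℝ => ψ (b + y * I)) volume c 0)
    (h3 : IntervalIntegrable (fun y : ℝ => φ (a + y * I)) volume c 0)
    (h3' : IntervalIntegrable (fun y : ℝ => ψ (a + y * I)) volume c 0) :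
    Half (fun z => φ z + ψ z) a b c = Half φ a b c + Half ψ a b c := by
  unfold Half
  rw [intervalIntegral.integral_add h1 h1', intervalIntegral.integral_add h2 h2',
    intervalIntegral.integral_add h3 h3']
  ring

lemma Half_congr {φ ψ : ℂ → ℂ} {a b c : ℝ} (hab : a ≤ b) (hc : c ≤ 0)
    (h1 : ∀ x ∈ Icc a b, φ (x + c * I) = ψ (x + c * I))
    (h2 : ∀ y ∈ Icc c 0, φ (b + y * I) = ψ (b + y * I))
    (h3 : ∀ y ∈ Icc c 0, φ (a + y * I) = ψ (a + y * I)) :
    Half φ a b c = Half ψ a b c := by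
  unfold Half
  rw [intervalIntegral.integral_congr (g := fun x : ℝ => ψ (x + c * I))
      (by rw [uIcc_of_le hab]; exact h1),
    intervalIntegral.integral_congr (f := fun y : ℝ => φ (b + y * I))
      (g := fun y : ℝ => ψ (b + y * I)) (by rw [uIcc_of_le hc]; exact h2),
    intervalIntegral.integral_congr (f := fun y : ℝ => φ (a + y * I))
      (g := fun y : ℝ => ψ (a + y * I)) (by rw [uIcc_of_le hc]; exact h3)]

lemma vertical_split {φ φ' : ℂ → ℂ} {t c : ℝ} (hc : c ≤ 0)
    (hsym : ∀ y : ℝ, φ (conj (t + y * I)) = conj (φ' (t + y * I)))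
    (hcont : ContinuousOn (fun y : ℝ => φ (t + y * I)) (Icc c (-c))) :
    ∫ y in c..(-c), φ (t + y * I)
      = (∫ y in c..0, φ (t + y * I)) + conj (∫ y in c..0, φ' (t + y * I)) := by
  have i1 : IntervalIntegrable (fun y : ℝ => φ (t + y * I)) volume c 0 :=
    (hcont.mono (by rw [uIcc_of_le hc]; exact Icc_subset_Icc_right (by linarith))).intervalIntegrable
  have i2 : IntervalIntegrable (fun y : ℝ => φ (t + y * I)) volume 0 (-c) :=
    (hcont.mono (by
      rw [uIcc_of_le (by linarith)]; exact Icc_subset_Icc_left hc)).intervalIntegrable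
  rw [← intervalIntegral.integral_add_adjacent_intervals i1 i2,
    ← intervalIntegral.intervalIntegral_conj]
  congr 1
  have h1 := intervalIntegral.integral_comp_neg (a := c) (b := 0)
    (fun y : ℝ => φ (t + y * I))
  rw [neg_zero] at h1
  rw [← h1]
  congr 1
  funext y
  rw [← hsym]
  congr 1
  simp

lemma total_eq_half {φ φ' : ℂ → ℂ} {a b c : ℝ} (hab : a ≤ b) (hc : c ≤ 0)
    (hsym : ∀ z : ℂ, a ≤ z.re → φ (conj z) = conj (φ' z))
    (ha : ContinuousOn (fun y : ℝ => φ (a + y * I)) (Icc c (-c)))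
    (hb : ContinuousOn (fun y : ℝ => φ (b + y * I)) (Icc c (-c))) :
    (∫ x in a..b, φ (x + c * I)) - (∫ x in a..b, φ (x + (-c : ℝ) * I))
      + I * (∫ y in c..(-c), φ (b + y * I)) - I * (∫ y in c..(-c), φ (a + y * I))
      = Half φ a b c - conj (Half φ' a b c) := by
  rw [vertical_split hc (fun y => hsym _ (by simpa using hab)) hb,
    vertical_split hc (fun y => hsym _ (by simp)) ha]
  have h1 : (∫ x in a..b, φ (x + (-c : ℝ) * I)) = conj (∫ x in a..b, φ' (x + c * I)) := by
    rw [← intervalIntegral.intervalIntegral_conj]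
    apply intervalIntegral.integral_congr
    intro x hx
    rw [uIcc_of_le hab] at hx
    have := hsym (x + c * I) (by simpa using hx.1)
    simp only
    rw [← this]
    congr 1
    simp
  rw [h1]
  unfold Half
  simp only [map_sub, map_add, map_mul, conj_I]
  ring

lemma continuousAt_logDeriv {f : ℂ → ℂ} {z : ℂ} (hf : AnalyticAt ℂ f z) (h : f z ≠ 0) :
    ContinuousAt (logDeriv f) z :=
  hf.deriv.continuousAt.div hf.continuousAt h

lemma differentiableAt_logDeriv {f : ℂ → ℂ} {z : ℂ} (hf : AnalyticAt ℂ f z) (h : f z ≠ 0) :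
    DifferentiableAt ℂ (logDeriv f) z :=
  hf.deriv.differentiableAt.div hf.differentiableAt h

/-- The frequency `log n / (2 π)`. -/
noncomputable def un (n : ℕ) : ℝ := Real.log n / (2 * π)

variable {N : ℕ} (χ : DirichletCharacter ℂ N)

/-- The coefficient `χ(n) Λ(n) / √n`. -/
noncomputable def coef (n : ℕ) : ℂ :=
  χ n * (ArithmeticFunction.vonMangoldt n : ℝ) / (Real.sqrt n : ℝ)

/-- The prime side `∑ χ(n) Λ(n) n^{-1/2} W(u - log n / 2π)`. -/
noncomputable def Psum (W : ℝ → ℂ) (u : ℝ) : ℂ := ∑' n : ℕ, coef χ n * W (u - un n)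

/-- The coefficient sequence `χ Λ`. -/
noncomputable def chiL : ℕ → ℂ :=
  (fun n : ℕ => χ n) * (fun n : ℕ => ((ArithmeticFunction.vonMangoldt n : ℝ) : ℂ))

/-- The bound `∑ |χ(n) Λ(n)| / n^2`. -/
noncomputable def Btwo : ℝ := ∑' n, ‖LSeries.term (chiL χ) 2 n‖

lemma summable_Btwo : Summable fun n => ‖LSeries.term (chiL χ) 2 n‖ :=
  (LSeriesSummable_twist_vonMangoldt χ (s := 2) (by simp)).norm

lemma Btwo_nonneg : 0 ≤ Btwo χ := tsum_nonneg fun _ => norm_nonneg _

lemma norm_term_of_re {s : ℂ} (hs : s.re = 2) (n : ℕ) :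
    ‖LSeries.term (chiL χ) s n‖ = ‖LSeries.term (chiL χ) 2 n‖ := by
  rw [LSeries.norm_term_eq, LSeries.norm_term_eq, hs]
  simp

lemma norm_LSeries_chiL_le {s : ℂ} (hs : s.re = 2) : ‖LSeries (chiL χ) s‖ ≤ Btwo χ := by
  unfold LSeries Btwo
  have h := summable_Btwo χ
  simp_rw [← norm_term_of_re χ hs] at h ⊢
  exact norm_tsum_le_tsum_norm h

lemma term_mul_gu (w : ℂ → ℂ) (u : ℝ) (z : ℂ) (n : ℕ) :
    LSeries.term (chiL χ) (sOf z) n * gu w u z = coef χ n * gu w (u - un n) z := by
  rcases eq_or_ne n 0 with rfl | hn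
  · simp [coef]
  · have hn0 : (0 : ℝ) < n := by positivity
    have hnc : (n : ℂ) ≠ 0 := by exact_mod_cast hn
    have h1 : (n : ℂ) ^ (sOf z)
        = (Real.sqrt n : ℝ) * Complex.exp (2 * π * I * (un n) * z) := by
      rw [cpow_def_of_ne_zero hnc, Real.sqrt_eq_rpow, Real.rpow_def_of_pos hn0, ofReal_exp,
        ← Complex.exp_add]
      congr 1
      have hpi : (π : ℂ) ≠ 0 := by exact_mod_cast Real.pi_ne_zero
      unfold un sOf
      push_cast
      field_simp
    have h2 : ((Real.sqrt n : ℝ) : ℂ) ≠ 0 := by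
      exact_mod_cast (Real.sqrt_pos.2 hn0).ne'
    rw [LSeries.term_of_ne_zero hn, h1]
    unfold gu coef chiL
    have h3 : Complex.exp (2 * π * I * u * z)
        = Complex.exp (2 * π * I * ((u - un n : ℝ) : ℂ) * z)
          * Complex.exp (2 * π * I * (un n) * z) := by
      rw [← Complex.exp_add]; congr 1; push_cast; ring
    rw [h3]
    have h4 := Complex.exp_ne_zero (2 * π * I * (un n) * z)
    simp only [Pi.mul_apply]
    field_simp

lemma integrable_gu {w : ℂ → ℂ} {v : ℝ} (hi : Integrable (fun t : ℝ => w (t + v * I))) (u : ℝ) :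
    Integrable (fun t : ℝ => gu w u (t + v * I)) := by
  unfold gu
  refine hi.mul_bdd (c := Real.exp (2 * π * |u| * |v|)) (by fun_prop) ?_
  filter_upwards with t
  exact norm_exp_uz_le u _ (by simp)

lemma line_integral {w : ℂ → ℂ} {W : ℝ → ℂ}
    (hi : Integrable (fun t : ℝ => w (t + (-(3 / 2) : ℝ) * I)))
    (hW : ∀ u : ℝ, ∫ t : ℝ, gu w u (t + (-(3 / 2) : ℝ) * I) = W u) (u : ℝ) :
    ∫ t : ℝ, LSeries (chiL χ) (sOf (t + (-(3 / 2) : ℝ) * I)) * gu w u (t + (-(3 / 2) : ℝ) * I)
      = Psum χ W u := by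
  have hre : ∀ t : ℝ, (sOf (t + (-(3 / 2) : ℝ) * I)).re = 2 := by
    intro t; simp; norm_num
  have h := integral_tsum_of_summable_integral_norm (μ := volume)
    (F := fun (n : ℕ) (t : ℝ) => LSeries.term (chiL χ) (sOf (t + (-(3 / 2) : ℝ) * I)) n
      * gu w u (t + (-(3 / 2) : ℝ) * I)) ?_ ?_
  · unfold Psum LSeries
    simp_rw [← tsum_mul_right]
    rw [← h]
    congr 1
    funext n
    simp_rw [term_mul_gu]
    rw [integral_const_mul, hW]
  · intro n
    simp_rw [term_mul_gu]
    exact (integrable_gu hi _).const_mul _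
  · simp_rw [norm_mul, norm_term_of_re χ (hre _), integral_const_mul]
    exact (summable_Btwo χ).mul_right _

lemma continuous_LSeries_line :
    Continuous fun t : ℝ => LSeries (chiL χ) (sOf (t + (-(3 / 2) : ℝ) * I)) := by
  have hre : ∀ t : ℝ, (sOf (t + (-(3 / 2) : ℝ) * I)).re = 2 := by
    intro t; simp; norm_num
  unfold LSeries
  refine continuous_tsum (fun n => ?_) (summable_Btwo χ)
    (fun n t => (norm_term_of_re χ (hre t) n).le)
  rcases eq_or_ne n 0 with rfl | hn
  · simp [continuous_const]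
  · simp_rw [LSeries.term_of_ne_zero hn]
    have hnc : (n : ℂ) ≠ 0 := by exact_mod_cast hn
    refine continuous_const.div ?_ (fun t => by simp [cpow_eq_zero_iff, hn])
    refine Continuous.const_cpow ?_ (Or.inl hnc)
    exact differentiable_sOf.continuous.comp (by fun_prop)

/-- The segment integral differs from the prime sum by a tail. -/
lemma segment_integral {w : ℂ → ℂ} {W : ℝ → ℂ}
    (hi : Integrable (fun t : ℝ => w (t + (-(3 / 2) : ℝ) * I)))
    (hW : ∀ u : ℝ, ∫ t : ℝ, gu w u (t + (-(3 / 2) : ℝ) * I) = W u) (u : ℝ) {a b τ : ℝ}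
    (hab : a ≤ b) (hτ : ∫ t in (Icc a b)ᶜ, ‖w (t + (-(3 / 2) : ℝ) * I)‖ ≤ τ) :
    ‖(∫ t in a..b, LSeries (chiL χ) (sOf (t + (-(3 / 2) : ℝ) * I))
        * gu w u (t + (-(3 / 2) : ℝ) * I)) - Psum χ W u‖
      ≤ Btwo χ * Real.exp (3 * π * |u|) * τ := by
  have hre : ∀ t : ℝ, (sOf (t + (-(3 / 2) : ℝ) * I)).re = 2 := by
    intro t; simp; norm_num
  have hint : Integrable (fun t : ℝ => LSeries (chiL χ) (sOf (t + (-(3 / 2) : ℝ) * I))
      * gu w u (t + (-(3 / 2) : ℝ) * I)) := by
    refine (integrable_gu hi u).bdd_mul (c := Btwo χ)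
      (continuous_LSeries_line χ).aestronglyMeasurable ?_
    filter_upwards with t
    exact norm_LSeries_chiL_le χ (hre t)
  rw [← line_integral χ hi hW u, ← integral_add_compl (s := Icc a b) measurableSet_Icc hint,
    intervalIntegral.integral_of_le hab, integral_Icc_eq_integral_Ioc]
  rw [sub_add_cancel_left, norm_neg]
  calc _ ≤ ∫ t in (Icc a b)ᶜ, Btwo χ * Real.exp (3 * π * |u|) * ‖w (t + (-(3 / 2) : ℝ) * I)‖ := by
        refine norm_integral_le_of_norm_le (hi.norm.const_mul _).integrableOn ?_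
        filter_upwards with t
        rw [norm_mul]
        unfold gu
        rw [norm_mul]
        have h1 := norm_LSeries_chiL_le χ (hre t)
        have h2 := norm_exp_uz_le u (t + (-(3 / 2) : ℝ) * I) (r := 3 / 2) (by
          simp; norm_num [abs_of_pos])
        have h3 : 2 * π * |u| * (3 / 2) = 3 * π * |u| := by ring
        rw [h3] at h2
        have := Btwo_nonneg χ
        calc _ ≤ Btwo χ * (‖w (t + (-(3 / 2) : ℝ) * I)‖ * Real.exp (3 * π * |u|)) := by gcongr
          _ = _ := by ring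
    _ ≤ _ := by
        rw [integral_const_mul]
        have := Btwo_nonneg χ
        gcongr

lemma logDeriv_LFunction_eq [NeZero N] {s : ℂ} (hs : 1 < s.re) :
    logDeriv (LFunction χ) s = -LSeries (chiL χ) s := by
  rw [logDeriv_apply, deriv_LFunction_eq_deriv_LSeries χ hs, LFunction_eq_LSeries χ hs]
  have := LSeries_twist_vonMangoldt_eq χ hs
  unfold chiL
  rw [this]; ring

end Pool.Agent.MP_f259ea_nt
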