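import Pool.Agent.MP_f259ea_nt.A_Explicit

/-!
Mean value of sums of disjointly supported translates.
-/

set_option autoImplicit false

open Complex MeasureTheory Set Filter Topology DirichletCharacter
open scoped Real ComplexConjugate

namespace Pool.Agent.MP_f259ea_nt

lemma norm_sum_sq_le_of_disjoint {ι : Type*} (s : Finset ι) (f : ι → ℂ)
    (h : ∀ i ∈ s, ∀ j ∈ s, i ≠ j → f i = 0 ∨ f j = 0) :
    ‖∑ i ∈ s, f i‖ ^ 2 ≤ ∑ i ∈ s, ‖f i‖ ^ 2 := by
  by_cases h0 : ∀ i ∈ s, f i = 0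
  · rw [Finset.sum_eq_zero h0]
    simpa using Finset.sum_nonneg fun i _ => by positivity
  · push Not at h0
    obtain ⟨i, hi, hfi⟩ := h0
    rw [Finset.sum_eq_single_of_mem i hi (fun j hj hji => (h j hj i hi hji).resolve_right hfi)]
    exact Finset.single_le_sum (f := fun i => ‖f i‖ ^ 2) (fun _ _ => by positivity) hi

lemma integrable_norm_sq_of_support {W : ℝ → ℂ} {δ : ℝ} (hW : Continuous W)
    (hsupp : ∀ u, δ ≤ |u| → W u = 0) : Integrable (fun u => ‖W u‖ ^ 2) := by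
  refine Continuous.integrable_of_hasCompactSupport (by fun_prop) ?_
  refine HasCompactSupport.intro (isCompact_Icc (a := -δ) (b := δ)) (fun u hu => ?_)
  have : δ ≤ |u| := by
    by_contra h
    exact hu (abs_le.1 (not_le.1 h).le)
  simp [hsupp u this]

lemma integral_translate_le {W : ℝ → ℂ} {δ D ℓ : ℝ} (hW : Continuous W)
    (hsupp : ∀ u, δ ≤ |u| → W u = 0) (hD : ∫ u, ‖W u‖ ^ 2 ≤ D) (hℓ : 0 < ℓ) (c : ℝ) :
    ∫ a in (-1 : ℝ)..1, ‖W (a * ℓ - c)‖ ^ 2 ≤ D / ℓ := by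
  have h1 := intervalIntegral.integral_comp_mul_sub (a := -1) (b := 1) (fun u => ‖W u‖ ^ 2)
    hℓ.ne' c
  simp only [mul_comm ℓ] at h1
  rw [h1, smul_eq_mul, div_eq_inv_mul]
  gcongr
  refine le_trans ?_ hD
  rw [intervalIntegral.integral_of_le (by linarith)]
  exact setIntegral_le_integral (integrable_norm_sq_of_support hW hsupp)
    (Eventually.of_forall fun _ => by positivity)

lemma mean_value_translates {ι : Type*} (s : Finset ι) (c : ι → ℝ) (α : ι → ℂ) (Ki : ι → ℝ)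
    {K : ℝ → ℝ} {W : ℝ → ℂ} {δ D ℓ : ℝ} (hK : ContinuousOn K (Icc (-1) 1))
    (hK0 : ∀ a ∈ Icc (-1 : ℝ) 1, 0 ≤ K a) (hW : Continuous W)
    (hsupp : ∀ u, δ ≤ |u| → W u = 0) (hD : ∫ u, ‖W u‖ ^ 2 ≤ D) (hℓ : 0 < ℓ)
    (hsep : ∀ i ∈ s, ∀ j ∈ s, i ≠ j → 2 * δ ≤ |c i - c j|)
    (hKi0 : ∀ i ∈ s, 0 ≤ Ki i)
    (hKi : ∀ i ∈ s, ∀ a ∈ Icc (-1 : ℝ) 1, |a * ℓ - c i| < δ → K a ≤ Ki i) :
    ∫ a in (-1 : ℝ)..1, K a * ‖∑ i ∈ s, α i * W (a * ℓ - c i)‖ ^ 2
      ≤ D / ℓ * ∑ i ∈ s, ‖α i‖ ^ 2 * Ki i := by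
  have hc : ∀ i, Continuous fun a : ℝ => ‖W (a * ℓ - c i)‖ ^ 2 := fun i => by fun_prop
  calc _ ≤ ∫ a in (-1 : ℝ)..1, ∑ i ∈ s, ‖α i‖ ^ 2 * Ki i * ‖W (a * ℓ - c i)‖ ^ 2 := by
        apply intervalIntegral.integral_mono_on (by norm_num)
        · apply ContinuousOn.intervalIntegrable
          rw [uIcc_of_le (by norm_num)]
          exact hK.mul (Continuous.continuousOn (by fun_prop))
        · exact Continuous.intervalIntegrable (by fun_prop) _ _
        · intro a ha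
          have h1 := norm_sum_sq_le_of_disjoint s (fun i => α i * W (a * ℓ - c i)) (by
            intro i hi j hj hij
            have h2 := hsep i hi j hj hij
            by_cases h3 : δ ≤ |a * ℓ - c i|
            · left; simp [hsupp _ h3]
            · right
              have h4 : δ ≤ |a * ℓ - c j| := by
                have h5 : |c i - c j| ≤ |a * ℓ - c i| + |a * ℓ - c j| := by
                  have := abs_sub_le (c i) (a * ℓ) (c j)
                  rwa [abs_sub_comm (c i) (a * ℓ)] at this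
                linarith [not_le.1 h3]
              simp [hsupp _ h4])
          calc _ ≤ K a * ∑ i ∈ s, ‖α i * W (a * ℓ - c i)‖ ^ 2 := by
                have := hK0 a ha
                gcongr
            _ ≤ _ := by
                rw [Finset.mul_sum]
                refine Finset.sum_le_sum fun i hi => ?_
                by_cases h3 : δ ≤ |a * ℓ - c i|
                · simp [hsupp _ h3]
                · have h4 := hKi i hi a ha (not_le.1 h3)
                  rw [norm_mul, mul_pow]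
                  have : K a * (‖α i‖ ^ 2 * ‖W (a * ℓ - c i)‖ ^ 2)
                      ≤ Ki i * (‖α i‖ ^ 2 * ‖W (a * ℓ - c i)‖ ^ 2) := by gcongr
                  linarith
    _ = ∑ i ∈ s, ‖α i‖ ^ 2 * Ki i * ∫ a in (-1 : ℝ)..1, ‖W (a * ℓ - c i)‖ ^ 2 := by
        rw [intervalIntegral.integral_finsetSum
          (fun i _ => Continuous.intervalIntegrable (by fun_prop) _ _)]
        simp_rw [intervalIntegral.integral_const_mul]
    _ ≤ _ := by
        rw [Finset.mul_sum]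
        refine Finset.sum_le_sum fun i hi => ?_
        have h1 := integral_translate_le hW hsupp hD hℓ (c i)
        have h2 := hKi0 i hi
        calc _ ≤ ‖α i‖ ^ 2 * Ki i * (D / ℓ) := by gcongr
          _ = _ := by ring

lemma norm_add_sq_le (x y : ℂ) {ε : ℝ} (hε : 0 < ε) :
    ‖x + y‖ ^ 2 ≤ (1 + ε) * ‖x‖ ^ 2 + (1 + 1 / ε) * ‖y‖ ^ 2 := by
  have h1 : ‖x + y‖ ^ 2 ≤ (‖x‖ + ‖y‖) ^ 2 := by
    have := norm_add_le x y
    gcongr
  have h2 : 2 * ‖x‖ * ‖y‖ ≤ ε * ‖x‖ ^ 2 + 1 / ε * ‖y‖ ^ 2 := by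
    have h3 : 0 ≤ (ε * ‖x‖ - ‖y‖) ^ 2 / ε := by positivity
    have h4 : (ε * ‖x‖ - ‖y‖) ^ 2 / ε = ε * ‖x‖ ^ 2 + 1 / ε * ‖y‖ ^ 2 - 2 * ‖x‖ * ‖y‖ := by
      field_simp; ring
    linarith
  nlinarith

/-- `L^2` perturbation: `μ = S + E₁ + E₂ + O(θ)`. -/
lemma perturb {K : ℝ → ℝ} {μ S E₁ E₂ : ℝ → ℂ} {Km θ ε Q : ℝ} (hK : ContinuousOn K (Icc (-1) 1))
    (hK0 : ∀ a ∈ Icc (-1 : ℝ) 1, 0 ≤ K a) (hKm : ∀ a ∈ Icc (-1 : ℝ) 1, K a ≤ Km)
    (hμ : Continuous μ) (hS : ContinuousOn S (Icc (-1) 1)) (hE₁ : Continuous E₁)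
    (hE₂ : Continuous E₂) (hε : 0 < ε)
    (hθ : ∀ a ∈ Icc (-1 : ℝ) 1, ‖μ a - S a - E₁ a - E₂ a‖ ≤ θ)
    (h₁ : ∫ a in (-1 : ℝ)..1, ‖E₁ a‖ ^ 2 ≤ Q) (h₂ : ∫ a in (-1 : ℝ)..1, ‖E₂ a‖ ^ 2 ≤ Q) :
    ∫ a in (-1 : ℝ)..1, K a * ‖μ a‖ ^ 2
      ≤ (1 + ε) * (∫ a in (-1 : ℝ)..1, K a * ‖S a‖ ^ 2)
        + (1 + 1 / ε) * Km * (6 * Q + 6 * θ ^ 2) := by
  have hKm0 : 0 ≤ Km := (hK0 0 (by simp)).trans (hKm 0 (by simp))
  have i1 : IntervalIntegrable (fun a => K a * ‖S a‖ ^ 2) volume (-1) 1 := by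
    apply ContinuousOn.intervalIntegrable
    rw [uIcc_of_le (by norm_num)]
    exact hK.mul (hS.norm.pow 2)
  have i2 : IntervalIntegrable (fun a => ‖E₁ a‖ ^ 2) volume (-1) 1 :=
    Continuous.intervalIntegrable (by fun_prop) _ _
  have i3 : IntervalIntegrable (fun a => ‖E₂ a‖ ^ 2) volume (-1) 1 :=
    Continuous.intervalIntegrable (by fun_prop) _ _
  calc _ ≤ ∫ a in (-1 : ℝ)..1, ((1 + ε) * (K a * ‖S a‖ ^ 2)
          + (1 + 1 / ε) * Km * (3 * ‖E₁ a‖ ^ 2 + 3 * ‖E₂ a‖ ^ 2 + 3 * θ ^ 2)) := by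
        apply intervalIntegral.integral_mono_on (by norm_num)
        · apply ContinuousOn.intervalIntegrable
          rw [uIcc_of_le (by norm_num)]
          exact hK.mul (Continuous.continuousOn (by fun_prop))
        · exact (i1.const_mul _).add (Continuous.intervalIntegrable (by fun_prop) _ _)
        · intro a ha
          have h3 := norm_add_sq_le (S a) (μ a - S a) hε
          rw [add_sub_cancel] at h3
          have h4 : ‖μ a - S a‖ ≤ ‖E₁ a‖ + ‖E₂ a‖ + θ := by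
            have h5 : μ a - S a = E₁ a + E₂ a + (μ a - S a - E₁ a - E₂ a) := by ring
            rw [h5]
            refine (norm_add_le _ _).trans ?_
            have := norm_add_le (E₁ a) (E₂ a)
            have := hθ a ha
            linarith
          have h6 : ‖μ a - S a‖ ^ 2 ≤ 3 * ‖E₁ a‖ ^ 2 + 3 * ‖E₂ a‖ ^ 2 + 3 * θ ^ 2 := by
            have h7 : ‖μ a - S a‖ ^ 2 ≤ (‖E₁ a‖ + ‖E₂ a‖ + θ) ^ 2 := by gcongr
            nlinarith [sq_nonneg (‖E₁ a‖ - ‖E₂ a‖), sq_nonneg (‖E₁ a‖ - θ), sq_nonneg (‖E₂ a‖ - θ)]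
          have h8 := hK0 a ha
          have h9 := hKm a ha
          calc K a * ‖μ a‖ ^ 2
              ≤ K a * ((1 + ε) * ‖S a‖ ^ 2 + (1 + 1 / ε) * ‖μ a - S a‖ ^ 2) := by gcongr
            _ = (1 + ε) * (K a * ‖S a‖ ^ 2) + (1 + 1 / ε) * K a * ‖μ a - S a‖ ^ 2 := by ring
            _ ≤ _ := by gcongr
    _ = (1 + ε) * (∫ a in (-1 : ℝ)..1, K a * ‖S a‖ ^ 2)
          + (1 + 1 / ε) * Km * (3 * (∫ a in (-1 : ℝ)..1, ‖E₁ a‖ ^ 2)
            + 3 * (∫ a in (-1 : ℝ)..1, ‖E₂ a‖ ^ 2) + 6 * θ ^ 2) := by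
        rw [intervalIntegral.integral_add (i1.const_mul _)
          (Continuous.intervalIntegrable (by fun_prop) _ _), intervalIntegral.integral_const_mul,
          intervalIntegral.integral_const_mul,
          intervalIntegral.integral_add ((i2.const_mul _).add (i3.const_mul _))
            intervalIntegrable_const,
          intervalIntegral.integral_add (i2.const_mul _) (i3.const_mul _),
          intervalIntegral.integral_const_mul, intervalIntegral.integral_const_mul,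
          intervalIntegral.integral_const]
        simp only [smul_eq_mul]
        ring
    _ ≤ _ := by
        have : 3 * (∫ a in (-1 : ℝ)..1, ‖E₁ a‖ ^ 2) + 3 * (∫ a in (-1 : ℝ)..1, ‖E₂ a‖ ^ 2)
          + 6 * θ ^ 2 ≤ 6 * Q + 6 * θ ^ 2 := by linarith
        gcongr

variable {N : ℕ} (χ : DirichletCharacter ℂ N)

lemma un_mono {m n : ℕ} (hm : 0 < m) (h : m ≤ n) : un m ≤ un n := by
  unfold un
  have := Real.pi_pos
  gcongr

lemma un_nonneg (n : ℕ) : 0 ≤ un n := by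
  unfold un
  have := Real.pi_pos
  have := Real.log_natCast_nonneg n
  positivity

lemma un_sep {m n X : ℕ} (hm : 0 < m) (h : m < n) (hn : n ≤ X) :
    1 / (2 * π * X) ≤ un n - un m := by
  have hm' : (0 : ℝ) < m := by exact_mod_cast hm
  have hmn : (m : ℝ) + 1 ≤ n := by exact_mod_cast h
  have hX : (n : ℝ) ≤ X := by exact_mod_cast hn
  have hn' : (0 : ℝ) < n := by linarith
  have h1 : Real.log (m / n) ≤ m / n - 1 := Real.log_le_sub_one_of_pos (by positivity)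
  rw [Real.log_div hm'.ne' hn'.ne'] at h1
  have h2 : 1 / (X : ℝ) ≤ 1 - m / n := by
    calc 1 / (X : ℝ) ≤ 1 / n := by gcongr
      _ ≤ (n - m) / n := by gcongr; linarith
      _ = 1 - m / n := by field_simp
  unfold un
  have := Real.pi_pos
  rw [← sub_div, le_div_iff₀ (by positivity)]
  have h3 : 1 / (2 * π * X) * (2 * π) = 1 / (X : ℝ) := by
    have : (0 : ℝ) < X := by linarith
    field_simp
  linarith

lemma coef_zero : coef χ 0 = 0 := by simp [coef]

lemma coef_one : coef χ 1 = 0 := by simp [coef]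

lemma norm_coef_sq_le (n : ℕ) : ‖coef χ n‖ ^ 2 ≤ ArithmeticFunction.vonMangoldt n ^ 2 / n := by
  unfold coef
  rw [norm_div, norm_mul, div_pow, mul_pow, norm_real, norm_real, Real.norm_eq_abs,
    Real.norm_eq_abs, sq_abs, sq_abs, Real.sq_sqrt (by positivity)]
  gcongr
  have h1 := χ.norm_le_one (n : ZMod N)
  have h2 : ‖χ (n : ZMod N)‖ ^ 2 ≤ 1 := by
    have := norm_nonneg (χ (n : ZMod N))
    nlinarith
  nlinarith [sq_nonneg (ArithmeticFunction.vonMangoldt n)]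

lemma Psum_eq_sum {W : ℝ → ℂ} {δ ℓ : ℝ} (hsupp : ∀ u, δ ≤ |u| → W u = 0) {X : ℕ}
    (hX : ∀ n : ℕ, X < n → ℓ + δ ≤ un n) {u : ℝ} (hu : u ≤ ℓ) :
    Psum χ W u = ∑ n ∈ Finset.Icc 2 X, coef χ n * W (u - un n) := by
  unfold Psum
  apply tsum_eq_sum
  intro n hn
  rw [Finset.mem_Icc, not_and_or, not_le, not_le] at hn
  rcases hn with hn | hn
  · interval_cases n
    · simp [coef_zero]
    · simp [coef_one]
  · have h1 := hX n hn
    rw [hsupp, mul_zero]
    rw [abs_sub_comm]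
    exact le_trans (by linarith) (le_abs_self _)

/-- Centres of the translates. -/
noncomputable def cen : ℕ ⊕ ℕ → ℝ := Sum.elim un (fun n => -un n)

/-- Coefficients of the translates. -/
noncomputable def alp (L : ℝ) : ℕ ⊕ ℕ → ℂ :=
  Sum.elim (fun n => if n = 0 then (L : ℂ) else -coef χ n) (fun n => -conj (coef χ n))

lemma un_zero : un 0 = 0 := by simp [un]

lemma main_eq_sum {W : ℝ → ℂ} {δ ℓ : ℝ} (hsupp : ∀ u, δ ≤ |u| → W u = 0)
    (hWc : ∀ u, W (-u) = conj (W u)) {X : ℕ}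
    (hX : ∀ n : ℕ, X < n → ℓ + δ ≤ un n) (L : ℝ) {u : ℝ} (hu : |u| ≤ ℓ) :
    L * W u - Psum χ W u - conj (Psum χ W (-u))
      = ∑ i ∈ (insert 0 (Finset.Icc 2 X)).disjSum (Finset.Icc 2 X),
          alp χ L i * W (u - cen i) := by
  rw [abs_le] at hu
  rw [Psum_eq_sum χ hsupp hX hu.2, Psum_eq_sum χ hsupp hX (u := -u) (by linarith),
    Finset.sum_disjSum, Finset.sum_insert (by simp), map_sum]
  simp only [alp, cen, Sum.elim_inl, Sum.elim_inr, un_zero, sub_zero, if_true, sub_neg_eq_add]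
  have h1 : ∑ n ∈ Finset.Icc 2 X, (if n = 0 then (L : ℂ) else -coef χ n) * W (u - un n)
      = -∑ n ∈ Finset.Icc 2 X, coef χ n * W (u - un n) := by
    rw [← Finset.sum_neg_distrib]
    refine Finset.sum_congr rfl fun n hn => ?_
    have : n ≠ 0 := by rw [Finset.mem_Icc] at hn; omega
    rw [if_neg this]; ring
  have h2 : ∑ n ∈ Finset.Icc 2 X, -conj (coef χ n) * W (u + un n)
      = -∑ n ∈ Finset.Icc 2 X, conj (coef χ n * W (-u - un n)) := by
    rw [← Finset.sum_neg_distrib]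
    refine Finset.sum_congr rfl fun n _ => ?_
    have : -u - un n = -(u + un n) := by ring
    rw [this, hWc, map_mul, conj_conj]; ring
  rw [h1, h2]; ring

lemma cen_sep {δ : ℝ} {X : ℕ} (h1 : 2 * δ ≤ 1 / (2 * π * X)) (h2 : 2 * δ ≤ un 2) :
    ∀ i ∈ (insert 0 (Finset.Icc 2 X)).disjSum (Finset.Icc 2 X),
      ∀ j ∈ (insert 0 (Finset.Icc 2 X)).disjSum (Finset.Icc 2 X), i ≠ j →
        2 * δ ≤ |cen i - cen j| := by
  have key : ∀ m n : ℕ, m ∈ insert 0 (Finset.Icc 2 X) → n ∈ insert 0 (Finset.Icc 2 X) → m < n →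
      2 * δ ≤ un n - un m := by
    intro m n hm hn hmn
    simp only [Finset.mem_insert, Finset.mem_Icc] at hm hn
    rcases hm with rfl | hm
    · have := un_mono (m := 2) (n := n) (by norm_num) (by omega)
      rw [un_zero]; linarith
    · exact h1.trans (un_sep (by omega) hmn (by omega))
  have key2 : ∀ m n : ℕ, m ∈ insert 0 (Finset.Icc 2 X) → n ∈ insert 0 (Finset.Icc 2 X) → m ≠ n →
      2 * δ ≤ |un m - un n| := by
    intro m n hm hn hmn
    rcases lt_or_gt_of_ne hmn with h | h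
    · rw [abs_sub_comm]; exact (key m n hm hn h).trans (le_abs_self _)
    · exact (key n m hn hm h).trans (le_abs_self _)
  have key3 : ∀ m n : ℕ, n ∈ Finset.Icc 2 X → 2 * δ ≤ un m + un n := by
    intro m n hn
    rw [Finset.mem_Icc] at hn
    have := un_mono (m := 2) (n := n) (by norm_num) hn.1
    have := un_nonneg m
    linarith
  rintro (m | m) hm (n | n) hn hmn
  · simp only [Finset.inl_mem_disjSum] at hm hn
    exact key2 m n hm hn (fun h => hmn (by rw [h]))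
  · simp only [Finset.inr_mem_disjSum] at hn
    simp only [cen, Sum.elim_inl, Sum.elim_inr, sub_neg_eq_add]
    exact (key3 m n hn).trans (le_abs_self _)
  · simp only [Finset.inr_mem_disjSum] at hm
    simp only [cen, Sum.elim_inl, Sum.elim_inr]
    rw [abs_sub_comm, sub_neg_eq_add]
    exact (key3 n m hm).trans (le_abs_self _)
  · simp only [Finset.inr_mem_disjSum] at hm hn
    simp only [cen, Sum.elim_inr]
    have := key2 n m (Finset.mem_insert_of_mem hn) (Finset.mem_insert_of_mem hm)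
      (fun h => hmn (by rw [h]))
    convert this using 2
    ring

/-- Mean value of the main term. -/
lemma mean_value_main {K Kt : ℝ → ℝ} {W : ℝ → ℂ} {δ D ℓ L ε : ℝ} {X : ℕ}
    (hK : ContinuousOn K (Icc (-1) 1))
    (hK0 : ∀ a ∈ Icc (-1 : ℝ) 1, 0 ≤ K a) (hW : Continuous W)
    (hsupp : ∀ u, δ ≤ |u| → W u = 0) (hWc : ∀ u, W (-u) = conj (W u))
    (hD : ∫ u, ‖W u‖ ^ 2 ≤ D) (hℓ : 0 < ℓ) (hε : 0 ≤ ε)
    (hX : ∀ n : ℕ, X < n → ℓ + δ ≤ un n) (h1 : 2 * δ ≤ 1 / (2 * π * X)) (h2 : 2 * δ ≤ un 2)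
    (hKt0 : ∀ a, 0 ≤ Kt a)
    (hKt : ∀ a ∈ Icc (-1 : ℝ) 1, ∀ a', |a - a'| < δ / ℓ → K a ≤ Kt a' + ε) :
    ∫ a in (-1 : ℝ)..1, K a
        * ‖L * W (a * ℓ) - Psum χ W (a * ℓ) - conj (Psum χ W (-(a * ℓ)))‖ ^ 2
      ≤ D / ℓ * (L ^ 2 * (Kt 0 + ε) + ∑ n ∈ Finset.Icc 1 X,
          ArithmeticFunction.vonMangoldt n ^ 2 / n
            * (Kt (Real.log n / (2 * π * ℓ)) + Kt (-(Real.log n / (2 * π * ℓ))) + 2 * ε)) := by
  have hD0 : 0 ≤ D := le_trans (integral_nonneg fun _ => by positivity) hD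
  have h3 := mean_value_translates ((insert 0 (Finset.Icc 2 X)).disjSum (Finset.Icc 2 X)) cen
    (alp χ L) (fun i => Kt (cen i / ℓ) + ε) hK hK0 hW hsupp hD hℓ (cen_sep h1 h2)
    (fun i _ => by have := hKt0 (cen i / ℓ); positivity) (by
      intro i _ a ha h
      apply hKt a ha
      rw [lt_div_iff₀ hℓ]
      have : a * ℓ - cen i = (a - cen i / ℓ) * ℓ := by field_simp
      rwa [this, abs_mul, abs_of_pos hℓ] at h)
  have h4 : ∫ a in (-1 : ℝ)..1, K a
        * ‖L * W (a * ℓ) - Psum χ W (a * ℓ) - conj (Psum χ W (-(a * ℓ)))‖ ^ 2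
      = ∫ a in (-1 : ℝ)..1, K a * ‖∑ i ∈ (insert 0 (Finset.Icc 2 X)).disjSum (Finset.Icc 2 X),
          alp χ L i * W (a * ℓ - cen i)‖ ^ 2 := by
    apply intervalIntegral.integral_congr
    intro a ha
    rw [uIcc_of_le (by norm_num)] at ha
    simp only
    rw [main_eq_sum χ hsupp hWc hX L]
    rw [abs_mul, abs_of_pos hℓ]
    have : |a| ≤ 1 := abs_le.2 ha
    nlinarith
  rw [h4]
  refine h3.trans ?_
  gcongr
  rw [Finset.sum_disjSum, Finset.sum_insert (by simp)]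
  simp only [alp, cen, Sum.elim_inl, Sum.elim_inr, un_zero, if_true, zero_div, norm_real,
    Real.norm_eq_abs, sq_abs]
  rw [add_assoc, ← Finset.sum_add_distrib]
  gcongr
  have hsub : Finset.Icc 2 X ⊆ Finset.Icc 1 X := Finset.Icc_subset_Icc_left (by norm_num)
  refine le_trans ?_ (Finset.sum_le_sum_of_subset_of_nonneg hsub (fun n _ _ => ?_))
  · refine Finset.sum_le_sum fun n hn => ?_
    have hn0 : n ≠ 0 := by rw [Finset.mem_Icc] at hn; omega
    rw [if_neg hn0, norm_neg, norm_neg, RCLike.norm_conj]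
    have e1 : un n / ℓ = Real.log n / (2 * π * ℓ) := by unfold un; rw [div_div]
    rw [neg_div, e1]
    have h5 := norm_coef_sq_le χ n
    have h6 := hKt0 (Real.log n / (2 * π * ℓ))
    have h7 := hKt0 (-(Real.log n / (2 * π * ℓ)))
    calc _ = ‖coef χ n‖ ^ 2 * (Kt (Real.log n / (2 * π * ℓ))
          + Kt (-(Real.log n / (2 * π * ℓ))) + 2 * ε) := by ring
      _ ≤ _ := by gcongr
  · have h6 := hKt0 (Real.log n / (2 * π * ℓ))
    have h7 := hKt0 (-(Real.log n / (2 * π * ℓ)))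
    positivity

end Pool.Agent.MP_f259ea_nt
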