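import Pool.Agent.MP_f259ea_nt.A_Asymp

/-!
Part A: the finite inequality implies the bound for distinct zeros.
-/

set_option autoImplicit false

open Complex MeasureTheory Set Filter Topology DirichletCharacter
open scoped Real ComplexConjugate

namespace Pool.Agent.MP_f259ea_nt

lemma mu_image (Z : Finset ℂ) (c : ℂ → ℂ) {ℓ : ℝ} (hℓ : 0 < ℓ) (s : ℝ) :
    mu (Z.image fun z => (ℓ : ℂ) * z) (fun x => c (x / ℓ)) s
      = ∑ z ∈ Z, c z * Complex.exp (2 * π * I * ((s * ℓ : ℝ) : ℂ) * z) := by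
  have hℓ' : (ℓ : ℂ) ≠ 0 := by exact_mod_cast hℓ.ne'
  unfold mu
  rw [Finset.sum_image (fun _ _ _ _ h => mul_left_cancel₀ hℓ' h)]
  refine Finset.sum_congr rfl fun z _ => ?_
  simp only [mul_div_cancel_left₀ _ hℓ']
  congr 2
  push_cast; ring

lemma exists_lam {K0 J α β η c : ℝ} (h : c * β < α - η - (K0 + J)) :
    ∃ lam ε : ℝ, 0 < lam ∧ lam < 1 ∧ 0 < ε ∧ ε < 1 ∧
      c * β < α * (1 - ε) - η * lam - (K0 / lam + lam * J + ε) - ε := by
  have hc : ContinuousAt (fun e : ℝ => α * (1 - e) - η * (1 - e)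
      - (K0 / (1 - e) + (1 - e) * J + e) - e) 0 := by
    fun_prop (disch := norm_num)
  have h1 : ∀ᶠ e in 𝓝 (0 : ℝ), c * β < α * (1 - e) - η * (1 - e)
      - (K0 / (1 - e) + (1 - e) * J + e) - e :=
    continuousAt_const.eventually_lt hc (by simpa using h)
  have h2 : ∀ᶠ e in 𝓝 (0 : ℝ), e < 1 := eventually_lt_nhds one_pos
  obtain ⟨e, ⟨he1, he3⟩, he2⟩ := (((h1.and h2).filter_mono nhdsWithin_le_nhds).and
    (self_mem_nhdsWithin (a := (0 : ℝ)) (s := Ioi 0))).exists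
  have he2' : 0 < e := he2
  exact ⟨1 - e, e, by linarith, by linarith, he2', he3, he1⟩

lemma arith_final {M Ni Na D c α β η lam Jl ε : ℝ} (hM : 0 ≤ M) (hβ : 0 < β) (hc : 0 ≤ c)
    (hε1 : ε < 1) (hε : 0 < ε) (hη : 0 ≤ η) (hl : 0 < lam) (hJ : 0 ≤ Jl)
    (h : c * β < α * (1 - ε) - η * lam - (Jl + ε) - ε)
    (h1 : (1 - ε) * M ≤ Ni) (h2 : Na ≤ Ni + ε * M)
    (h3 : α * Ni - β * D - η * (lam * M) - ε * M ≤ (Jl + ε) * M) : c * Na ≤ D := by
  have hNi : 0 ≤ Ni := le_trans (mul_nonneg (by linarith) hM) h1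
  have h4 : (1 - ε) * Na ≤ Ni := by nlinarith
  have hA : 0 ≤ η * lam + Jl + 2 * ε := by positivity
  have h5 : (η * lam + Jl + 2 * ε) * ((1 - ε) * M) ≤ (η * lam + Jl + 2 * ε) * Ni := by gcongr
  have h6 : (1 - ε) * (α * Ni - (η * lam + Jl + 2 * ε) * M) ≤ (1 - ε) * (β * D) := by
    apply mul_le_mul_of_nonneg_left _ (by linarith)
    linarith
  have h7 : c * β * Ni ≤ (α * (1 - ε) - η * lam - (Jl + ε) - ε) * Ni := by gcongr
  have h8 : c * β * ((1 - ε) * Na) ≤ c * β * Ni := by gcongr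
  have h9 : (1 - ε) * β * (c * Na) ≤ (1 - ε) * β * D := by nlinarith
  exact le_of_mul_le_mul_left h9 (mul_pos (by linarith) hβ)

theorem stmtA : StmtA := by
  classical
  intro K α β η c hK hK0 hβ hη hB hc N _ χ hχ
  rcases lt_or_ge c 0 with hc0 | hc0
  · refine ⟨0, fun T _ => le_trans ?_ (Nat.cast_nonneg _)⟩
    exact mul_nonpos_of_nonpos_of_nonneg hc0.le
      (finsum_nonneg fun _ => finsum_nonneg fun _ => Nat.cast_nonneg _)
  obtain ⟨CB, hB⟩ := hB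
  unfold Jval at hc
  set J := ∫ a in (-1 : ℝ)..1, |a| * K a with hJ
  have hJ0 : 0 ≤ J := intervalIntegral.integral_nonneg (by norm_num)
    (fun a ha => mul_nonneg (abs_nonneg _) (hK0 a ha))
  have hK00 : 0 ≤ K 0 := hK0 0 (by simp)
  obtain ⟨lam, ε, hl0, hl1, hε, hε1, hsm⟩ := exists_lam hc
  have hC1 : 0 < max CB 0 + 1 := by positivity
  have hε' : 0 < ε / (max CB 0 + 1) := by positivity
  have hε'' : ε / (max CB 0 + 1) ≤ ε := div_le_self hε.le (by linarith [le_max_right CB 0])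
  have hcore := core_asymp χ hχ hK hK0 hl0 hl1 hε'
  obtain ⟨T₀, hT₀⟩ := eventually_atTop.1 (hcore.and (eventually_gt_atTop 1))
  refine ⟨T₀, fun T hT => ?_⟩
  obtain ⟨h1, hT1⟩ := hT₀ T hT
  have hT0 : 0 < T := by linarith
  obtain ⟨Z, hZ, e1, e2⟩ := target_sets χ hχ hT0
  rw [e1, e2]
  obtain ⟨Zi, Zt, w, hZi, hZt, hZic, hZtc, hwc, hI, hN1, hN2, hN3⟩ := h1 Z hZ
  have hL : 0 < Real.log T := Real.log_pos hT1
  have hpi := Real.pi_pos
  set ℓ := lam * Real.log T / (2 * π) with hℓdef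
  set M := T * Real.log T / (2 * π) with hM
  have hℓ : 0 < ℓ := by positivity
  have hM0 : 0 ≤ M := by positivity
  have hℓ' : (ℓ : ℂ) ≠ 0 := by exact_mod_cast hℓ.ne'
  have hinj : Function.Injective fun z : ℂ => (ℓ : ℂ) * z := fun _ _ h => mul_left_cancel₀ hℓ' h
  have h2 := hB (Zi.image fun z => (ℓ : ℂ) * z) (Zt.image fun z => (ℓ : ℂ) * z)
    (fun x => nn χ (x / ℓ)) (fun x => (nn χ (x / ℓ) : ℂ) * w (x / ℓ)) (ℓ * T) (ℓ * T)
    (by positivity) (by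
      intro x hx
      obtain ⟨z, hz, rfl⟩ := Finset.mem_image.1 hx
      obtain ⟨h1, h2, h3⟩ := (hZ z).1 (hZi hz)
      have e : conj ((ℓ : ℂ) * z) = ℓ * conj z := by simp
      refine ⟨Finset.mem_image.2 ⟨conj z, hZic z hz, e.symm⟩, ?_, ?_, ?_, ?_⟩
      · simp only [e, mul_div_cancel_left₀ _ hℓ']
        exact nn_conj χ hχ (hT0.trans h1)
      · simp only [mul_div_cancel_left₀ _ hℓ']
        exact one_le_nn χ (hT0.trans h1) h3
      · simp only [re_ofReal_mul]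
        gcongr
      · simp only [re_ofReal_mul]
        nlinarith) (by
      intro x hx
      obtain ⟨z, hz, rfl⟩ := Finset.mem_image.1 hx
      obtain ⟨h1, -, -⟩ := (hZ z).1 (hZt hz)
      have e : conj ((ℓ : ℂ) * z) = ℓ * conj z := by simp
      refine ⟨Finset.mem_image.2 ⟨conj z, hZtc z hz, e.symm⟩, ?_⟩
      simp only [e, mul_div_cancel_left₀ _ hℓ']
      rw [nn_conj χ hχ (hT0.trans h1), hwc]
      simp)
  have e3 : ∀ s : ℝ, mu (Zi.image fun z => (ℓ : ℂ) * z) (fun x => (nn χ (x / ℓ) : ℂ)) s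
      + mu (Zt.image fun z => (ℓ : ℂ) * z) (fun x => (nn χ (x / ℓ) : ℂ) * w (x / ℓ)) s
      = nu χ w Zi Zt (s * ℓ) := by
    intro s
    rw [mu_image Zi (fun z => (nn χ z : ℂ)) hℓ, mu_image Zt (fun z => (nn χ z : ℂ) * w z) hℓ]
    rfl
  simp only [e3] at h2
  rw [Finset.sum_image (fun _ _ _ _ h => hinj h), Finset.sum_image (fun _ _ _ _ h => hinj h),
    Finset.card_image_of_injective _ hinj] at h2
  simp only [mul_div_cancel_left₀ _ hℓ'] at h2
  have hcard : (Zi.card : ℝ) ≤ Z.card := by exact_mod_cast Finset.card_le_card hZi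
  have hS0 : 0 ≤ 1 + ∑ z ∈ Zt, (1 + ‖(nn χ z : ℂ) * w z‖) := by positivity
  have h3 : CB * (1 + ∑ z ∈ Zt, (1 + ‖(nn χ z : ℂ) * w z‖)) ≤ ε * M := by
    calc _ ≤ (max CB 0 + 1) * (1 + ∑ z ∈ Zt, (1 + ‖(nn χ z : ℂ) * w z‖)) := by
          gcongr
          linarith [le_max_left CB 0]
      _ ≤ (max CB 0 + 1) * (ε / (max CB 0 + 1) * M) := by gcongr
      _ = ε * M := by field_simp
  have h4 : ε / (max CB 0 + 1) * M ≤ ε * M := by gcongr
  have h5 : ℓ * T = lam * M := by rw [hℓdef, hM]; ring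
  refine arith_final (M := M) (Ni := ∑ z ∈ Zi, (nn χ z : ℝ)) (α := α) (η := η) (lam := lam)
    (Jl := K 0 / lam + lam * J) (ε := ε) hM0 hβ hc0 hε1 hε hη hl0 (by positivity) hsm
    (by linarith) (by linarith) ?_
  have h6 : β * (Zi.card : ℝ) ≤ β * Z.card := by gcongr
  rw [h5] at h2
  linarith

end Pool.Agent.MP_f259ea_nt
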