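import Pool.Agent.MP_f259ea_nt.Defs

/-!
Statements of the analytic lemmas used in part A.
-/

set_option autoImplicit false

open Complex MeasureTheory Set
open scoped Real ComplexConjugate

namespace Pool.Agent.MP_f259ea_nt

/-- Plancherel inequality for a bounded function on an interval. -/
def StmtPlanch : Prop :=
  ∀ (F : ℝ → ℂ) (a b M Y : ℝ), a ≤ b → 0 ≤ Y → ContinuousOn F (Icc a b) →
    (∀ t ∈ Icc a b, ‖F t‖ ≤ M) →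
    ∫ u in (-Y)..Y, ‖∫ t in a..b, F t * Complex.exp (2 * π * I * u * t)‖ ^ 2 ≤ M ^ 2 * (b - a)

/-- Band-limited smoothing `w` of the indicator of `[A, B]` at scale `H`, with its Fourier
transform `W` supported in `|u| < 1 / H`. -/
def StmtWeight : Prop :=
  ∀ k : ℕ, ∃ C : ℝ, 0 < C ∧ ∀ H A B : ℝ, 2 ≤ H → A ≤ B →
    ∃ (w : ℂ → ℂ) (W : ℝ → ℂ),
      Differentiable ℂ w ∧ (∀ z, w (conj z) = conj (w z)) ∧
      Continuous W ∧ (∀ u, W (-u) = conj (W u)) ∧ (∀ u, 1 / H ≤ |u| → W u = 0) ∧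
      W 0 = ((B - A : ℝ) : ℂ) ∧ (∫ u, ‖W u‖ ^ 2 ≤ B - A) ∧
      (∀ v : ℝ, |v| ≤ 2 → Integrable (fun t : ℝ => w (t + v * I)) ∧
        ∀ u : ℝ, ∫ t : ℝ, w (t + v * I) * Complex.exp (2 * π * I * u * (t + v * I)) = W u) ∧
      (∀ z : ℂ, |z.im| ≤ 2 → ‖w z‖ ≤ C) ∧
      (∀ (z : ℂ) (D : ℝ), |z.im| ≤ 2 → H ≤ D → A + D ≤ z.re → z.re ≤ B - D →
        ‖w z - 1‖ ≤ C * (H / D) ^ k) ∧
      (∀ (z : ℂ) (D : ℝ), |z.im| ≤ 2 → H ≤ D → (z.re ≤ A - D ∨ B + D ≤ z.re) →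
        ‖w z‖ ≤ C * (H / D) ^ k) ∧
      (∀ v D : ℝ, |v| ≤ 2 → H ≤ D →
        ∫ t in (Icc (A - D) (B + D))ᶜ, ‖w (t + v * I)‖ ≤ C * H * (H / D) ^ k)

/-- Weighted argument principle on a rectangle. -/
def StmtRect : Prop :=
  ∀ (F g : ℂ → ℂ) (a b c d : ℝ) (Z : Finset ℂ), a < b → c < d →
    AnalyticOnNhd ℂ F (Icc a b ×ℂ Icc c d) → Differentiable ℂ g →
    (∀ z, z ∈ Z ↔ z ∈ Icc a b ×ℂ Icc c d ∧ F z = 0) →
    (∀ z ∈ Z, z ∈ Ioo a b ×ℂ Ioo c d) →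
    (∫ x in a..b, logDeriv F (x + c * I) * g (x + c * I))
      - (∫ x in a..b, logDeriv F (x + d * I) * g (x + d * I))
      + I * (∫ y in c..d, logDeriv F (b + y * I) * g (b + y * I))
      - I * (∫ y in c..d, logDeriv F (a + y * I) * g (a + y * I))
      = 2 * π * I * ∑ ρ ∈ Z, ((analyticOrderAt F ρ).toNat : ℂ) * g ρ

/-- Good heights: a horizontal segment on which `L'/L` is at most `C (log t)^2`. -/
def StmtHeights : Prop :=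
  ∀ (N : ℕ) [NeZero N] (χ : DirichletCharacter ℂ N), ∃ C t₀ : ℝ, ∀ t : ℝ, t₀ ≤ t →
    ∃ t' ∈ Icc t (t + 1), ∀ σ ∈ Icc (1 / 2 : ℝ) 2,
      DirichletCharacter.LFunction χ (σ + t' * I) ≠ 0 ∧
      ‖logDeriv (DirichletCharacter.LFunction χ) (σ + t' * I)‖ ≤ C * Real.log t ^ 2

/-- Local zero count in the right half of the strip. -/
def StmtCount : Prop :=
  ∀ (N : ℕ) [NeZero N] (χ : DirichletCharacter ℂ N), ∃ C t₀ : ℝ, ∀ t : ℝ, t₀ ≤ t →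
    ∀ Z : Finset ℂ, (∀ ρ ∈ Z, 1 / 2 ≤ ρ.re ∧ ρ.re ≤ 2 ∧ t ≤ ρ.im ∧ ρ.im ≤ t + 1) →
      ∑ ρ ∈ Z, ((analyticOrderAt (DirichletCharacter.LFunction χ) ρ).toNat : ℝ) ≤ C * Real.log t

/-- The logarithmic derivative of the Gamma factor on the critical line. -/
def StmtDigamma : Prop :=
  ∀ (N : ℕ) (χ : DirichletCharacter ℂ N), ∃ C : ℝ, ∀ t : ℝ, 2 ≤ t →
    ‖logDeriv (DirichletCharacter.gammaFactor χ) (1 / 2 + t * I) - ((Real.log t / 2 : ℝ) : ℂ)‖ ≤ C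

/-- Mertens-type upper bound for the diagonal prime sum. -/
def StmtMertens : Prop :=
  ∀ f : ℝ → ℝ, Continuous f → (∀ a, 0 ≤ f a) → ∀ ε : ℝ, 0 < ε → ∃ Y₀ : ℝ, ∀ Y : ℝ, Y₀ ≤ Y →
    ∀ X : ℕ, (X : ℝ) ≤ 2 * Real.exp Y →
      ∑ n ∈ Finset.Icc 1 X, ArithmeticFunction.vonMangoldt n ^ 2 / n * f (Real.log n / Y)
        ≤ Y ^ 2 * ((∫ a in (0 : ℝ)..1, a * f a) + ε)

end Pool.Agent.MP_f259ea_nt
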