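import Pool.Agent.MP_f259ea_nt.A_Stmts

/-!
The completed `L`-function in the variable `z`, `s = 1/2 + i z`, and its symmetry.
-/

set_option autoImplicit false

open Complex MeasureTheory Set Filter Topology DirichletCharacter
open scoped Real ComplexConjugate

namespace Pool.Agent.MP_f259ea_nt

/-- `s = 1/2 + i z`. -/
noncomputable def sOf (z : ℂ) : ℂ := 1 / 2 + I * z

@[simp] lemma sOf_re (z : ℂ) : (sOf z).re = 1 / 2 - z.im := by
  simp [sOf]; ring

@[simp] lemma sOf_im (z : ℂ) : (sOf z).im = z.re := by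
  simp [sOf]

lemma sOf_conj (z : ℂ) : sOf (conj z) = 1 - conj (sOf z) := by
  apply Complex.ext <;> simp; ring

lemma hasDerivAt_sOf (z : ℂ) : HasDerivAt sOf I z := by
  unfold sOf
  simpa using ((hasDerivAt_id z).const_mul I).const_add (1 / 2 : ℂ)

lemma differentiable_sOf : Differentiable ℂ sOf := fun z => (hasDerivAt_sOf z).differentiableAt

variable {N : ℕ} [NeZero N] (χ : DirichletCharacter ℂ N)

/-- The completed function `N^{s/2} Λ(s, χ)` at `s = 1/2 + i z`. -/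
noncomputable def Xi (z : ℂ) : ℂ := (N : ℂ) ^ (sOf z / 2) * completedLFunction χ (sOf z)

/-- The Archimedean factor `N^{s/2} Γ_χ(s)` at `s = 1/2 + i z`. -/
noncomputable def Gz (z : ℂ) : ℂ := (N : ℂ) ^ (sOf z / 2) * gammaFactor χ (sOf z)

/-- `L(1/2 + i z, χ)`. -/
noncomputable def Lz (z : ℂ) : ℂ := LFunction χ (sOf z)

lemma sOf_ne_zero {z : ℂ} (hz : 0 < z.re) : sOf z ≠ 0 := by
  intro h
  have := congrArg Complex.im h
  simp at this
  linarith

lemma sOf_ne_one {z : ℂ} (hz : 0 < z.re) : sOf z ≠ 1 := by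
  intro h
  have := congrArg Complex.im h
  simp at this
  linarith

omit [NeZero N] in
lemma gammaFactor_ne_zero {s : ℂ} (hs : 0 < s.re) : gammaFactor χ s ≠ 0 := by
  unfold gammaFactor
  split_ifs
  · exact Gammaℝ_ne_zero_of_re_pos hs
  · exact Gammaℝ_ne_zero_of_re_pos (by simp; linarith)

lemma differentiableAt_Gammaℝ {s : ℂ} (hs : 0 < s.re) : DifferentiableAt ℂ Gammaℝ s := by
  have h1 : DifferentiableAt ℂ (fun s => ((Gammaℝ s)⁻¹)⁻¹) s :=
    (differentiable_Gammaℝ_inv s).inv (inv_ne_zero (Gammaℝ_ne_zero_of_re_pos hs))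
  simpa using h1

omit [NeZero N] in
lemma differentiableAt_gammaFactor {s : ℂ} (hs : 0 < s.re) :
    DifferentiableAt ℂ (gammaFactor χ) s := by
  unfold gammaFactor
  split_ifs
  · exact differentiableAt_Gammaℝ hs
  · have h1 : 0 < (s + 1).re := by simp; linarith
    exact DifferentiableAt.comp (g := Gammaℝ) (f := fun s : ℂ => s + 1) s
      (differentiableAt_Gammaℝ h1) (by fun_prop)

lemma differentiable_Npow : Differentiable ℂ (fun z : ℂ => (N : ℂ) ^ (sOf z / 2)) := by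
  intro z
  apply DifferentiableAt.const_cpow
  · exact (differentiable_sOf z).div_const 2
  · left; exact_mod_cast NeZero.ne N

lemma Npow_ne_zero (z : ℂ) : (N : ℂ) ^ (sOf z / 2) ≠ 0 := by
  rw [Ne, cpow_eq_zero_iff]
  rintro ⟨h, -⟩
  exact (NeZero.ne N) (by exact_mod_cast h)

lemma differentiableAt_Xi {z : ℂ} (hz : 0 < z.re) : DifferentiableAt ℂ (Xi χ) z := by
  unfold Xi
  refine (differentiable_Npow z).mul ?_
  exact (differentiableAt_completedLFunction χ _ (Or.inl (sOf_ne_zero hz))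
    (Or.inl (sOf_ne_one hz))).comp z (differentiable_sOf z)

lemma isOpen_rePos : IsOpen {z : ℂ | 0 < z.re} := isOpen_lt continuous_const continuous_re

lemma analyticOnNhd_Xi : AnalyticOnNhd ℂ (Xi χ) {z : ℂ | 0 < z.re} :=
  DifferentiableOn.analyticOnNhd
    (fun _ hz => (differentiableAt_Xi χ hz).differentiableWithinAt) isOpen_rePos

lemma differentiableAt_Lz {z : ℂ} (hz : 0 < z.re) : DifferentiableAt ℂ (Lz χ) z :=
  (differentiableAt_LFunction χ _ (Or.inl (sOf_ne_one hz))).comp z (differentiable_sOf z)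

lemma analyticOnNhd_Lz : AnalyticOnNhd ℂ (Lz χ) {z : ℂ | 0 < z.re} :=
  DifferentiableOn.analyticOnNhd
    (fun _ hz => (differentiableAt_Lz χ hz).differentiableWithinAt) isOpen_rePos

lemma differentiableAt_Gz {z : ℂ} (hz : z.im < 1 / 2) : DifferentiableAt ℂ (Gz χ) z := by
  unfold Gz
  refine (differentiable_Npow z).mul ?_
  exact (differentiableAt_gammaFactor χ (by simp; linarith)).comp z (differentiable_sOf z)

lemma isOpen_imLt : IsOpen {z : ℂ | z.im < 1 / 2} := isOpen_lt continuous_im continuous_const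

lemma analyticOnNhd_Gz : AnalyticOnNhd ℂ (Gz χ) {z : ℂ | z.im < 1 / 2} :=
  DifferentiableOn.analyticOnNhd
    (fun _ hz => (differentiableAt_Gz χ hz).differentiableWithinAt) isOpen_imLt

lemma Gz_ne_zero {z : ℂ} (hz : z.im < 1 / 2) : Gz χ z ≠ 0 :=
  mul_ne_zero (Npow_ne_zero z) (gammaFactor_ne_zero χ (by simp; linarith))

lemma Xi_eq_mul {z : ℂ} (hz : z.im < 1 / 2) : Xi χ z = Gz χ z * Lz χ z := by
  have hs : 0 < (sOf z).re := by simp; linarith
  have hs0 : sOf z ≠ 0 := by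
    intro h; rw [h] at hs; simp at hs
  unfold Xi Gz Lz
  rw [LFunction_eq_completed_div_gammaFactor χ _ (Or.inl hs0)]
  field_simp [gammaFactor_ne_zero χ hs]

lemma Xi_eventuallyEq {z : ℂ} (hz : z.im < 1 / 2) : Xi χ =ᶠ[𝓝 z] Gz χ * Lz χ := by
  filter_upwards [isOpen_imLt.mem_nhds hz] with w hw
  exact Xi_eq_mul χ hw

lemma Lz_ne_zero {z : ℂ} (hz : z.im ≤ -(1 / 2)) (hz' : 0 < z.re) : Lz χ z ≠ 0 :=
  LFunction_ne_zero_of_one_le_re χ (Or.inr (sOf_ne_one hz')) (by simp; linarith)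

lemma Gammaℝ_conj (s : ℂ) : Gammaℝ (conj s) = conj (Gammaℝ s) := by
  rw [Gammaℝ_def, Gammaℝ_def, map_mul, ← Gamma_conj]
  have h1 : conj (s / 2) = conj s / 2 := by simp [map_ofNat]
  have h2 : (π : ℂ) ^ (-conj s / 2) = conj ((π : ℂ) ^ (-s / 2)) := by
    have : -conj s / 2 = conj (-s / 2) := by simp [map_ofNat]
    rw [this, cpow_conj _ _ (by rw [arg_ofReal_of_nonneg Real.pi_pos.le]; exact Real.pi_ne_zero.symm)]
    simp
  rw [h1, h2]

omit [NeZero N] in
lemma even_inv_iff : χ⁻¹.Even ↔ χ.Even := by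
  unfold DirichletCharacter.Even
  rw [MulChar.inv_apply_eq_inv']
  exact inv_eq_one

omit [NeZero N] in
lemma gammaFactor_inv_conj (s : ℂ) : gammaFactor χ⁻¹ (conj s) = conj (gammaFactor χ s) := by
  unfold gammaFactor
  by_cases h : χ.Even
  · rw [if_pos h, if_pos ((even_inv_iff χ).2 h), Gammaℝ_conj]
  · rw [if_neg h, if_neg (fun h' => h ((even_inv_iff χ).1 h')), ← Gammaℝ_conj]
    simp

lemma LFunction_inv_conj {s : ℂ} (hs : 1 < s.re) :
    LFunction χ⁻¹ (conj s) = conj (LFunction χ s) := by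
  rw [LFunction_eq_LSeries _ hs, LFunction_eq_LSeries _ (by simpa using hs)]
  unfold LSeries
  rw [conj_tsum]
  congr 1
  funext n
  rcases eq_or_ne n 0 with rfl | hn
  · simp
  · rw [LSeries.term_of_ne_zero hn, LSeries.term_of_ne_zero hn, map_div₀]
    congr 1
    · exact (MulChar.star_apply' χ n).symm
    · rw [cpow_conj _ _ (by rw [natCast_arg]; exact Real.pi_ne_zero.symm)]
      simp

lemma completed_inv_conj {s : ℂ} (hs : 1 < s.re) :
    completedLFunction χ⁻¹ (conj s) = conj (completedLFunction χ s) := by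
  have hs0 : s ≠ 0 := by intro h; rw [h] at hs; simp at hs; linarith
  have hs0' : conj s ≠ 0 := by simpa using hs0
  have h1 := LFunction_eq_completed_div_gammaFactor χ s (Or.inl hs0)
  have h2 := LFunction_eq_completed_div_gammaFactor χ⁻¹ (conj s) (Or.inl hs0')
  have g1 := gammaFactor_ne_zero χ (s := s) (by linarith)
  have g2 := gammaFactor_ne_zero χ⁻¹ (s := conj s) (by simp; linarith)
  rw [eq_div_iff g1] at h1
  rw [eq_div_iff g2] at h2
  rw [← h1, ← h2, map_mul, LFunction_inv_conj χ hs, gammaFactor_inv_conj]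

lemma Xi_conj_aux (hχ : χ.IsPrimitive) {z : ℂ} (hz : z.im < -(1 / 2)) :
    Xi χ (conj z) = rootNumber χ * conj (Xi χ z) := by
  have hs : 1 < (sOf z).re := by simp; linarith
  have hN : (N : ℂ) ≠ 0 := by exact_mod_cast NeZero.ne N
  unfold Xi
  rw [sOf_conj, hχ.completedLFunction_one_sub, completed_inv_conj χ hs, map_mul]
  have h1 : conj ((N : ℂ) ^ (sOf z / 2)) = (N : ℂ) ^ (conj (sOf z) / 2) := by
    have : conj (sOf z) / 2 = conj (sOf z / 2) := by simp [map_ofNat]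
    rw [this, cpow_conj _ _ (by rw [natCast_arg]; exact Real.pi_ne_zero.symm)]
    simp
  have h2 : (N : ℂ) ^ ((1 - conj (sOf z)) / 2) * (N : ℂ) ^ (conj (sOf z) - 1 / 2)
      = (N : ℂ) ^ (conj (sOf z) / 2) := by
    rw [← cpow_add _ _ hN]; congr 1; ring
  rw [h1, ← h2]; ring

lemma convex_rePos : Convex ℝ {z : ℂ | 0 < z.re} := convex_halfSpace_re_gt 0

lemma Xi_conj (hχ : χ.IsPrimitive) {z : ℂ} (hz : 0 < z.re) :
    Xi χ (conj z) = rootNumber χ * conj (Xi χ z) := by
  have h1 : AnalyticOnNhd ℂ (conj ∘ Xi χ ∘ conj) {z : ℂ | 0 < z.re} := by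
    refine DifferentiableOn.analyticOnNhd (fun w hw => ?_) isOpen_rePos
    have := (differentiableAt_Xi χ (z := conj w) (by simpa using hw)).conj_conj
    simpa using this.differentiableWithinAt
  have h2 : AnalyticOnNhd ℂ (fun w => conj (rootNumber χ) * Xi χ w) {z : ℂ | 0 < z.re} :=
    analyticOnNhd_const.mul (analyticOnNhd_Xi χ)
  have h3 : (conj ∘ Xi χ ∘ conj) =ᶠ[𝓝 (1 - I)] fun w => conj (rootNumber χ) * Xi χ w := by
    have : IsOpen {z : ℂ | z.im < -(1 / 2)} := isOpen_lt continuous_im continuous_const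
    filter_upwards [this.mem_nhds (show (1 - I : ℂ) ∈ _ by simp; norm_num)] with w hw
    simp [Xi_conj_aux χ hχ hw]
  have h4 := h1.eqOn_of_preconnected_of_eventuallyEq h2 convex_rePos.isPreconnected
    (show (1 - I : ℂ) ∈ _ by simp) h3 hz
  have h5 := congrArg conj h4
  simpa using h5

lemma Xi_ne_zero_of_im_le {z : ℂ} (hz : z.im ≤ -(1 / 2)) (hz' : 0 < z.re) : Xi χ z ≠ 0 := by
  rw [Xi_eq_mul χ (by linarith)]
  exact mul_ne_zero (Gz_ne_zero χ (by linarith)) (Lz_ne_zero χ hz hz')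

lemma order_Xi_ne_top {z : ℂ} (hz : 0 < z.re) : analyticOrderAt (Xi χ) z ≠ ⊤ := by
  refine (analyticOnNhd_Xi χ).analyticOrderAt_ne_top_of_isPreconnected (x := 1 - I)
    convex_rePos.isPreconnected (by simp) hz ?_
  have h := Xi_ne_zero_of_im_le χ (z := 1 - I) (by simp; norm_num) (by simp)
  rw [(analyticOnNhd_Xi χ _ (by simp)).analyticOrderAt_eq_zero.2 h]
  simp

lemma rootNumber_ne_zero (hχ : χ.IsPrimitive) : rootNumber χ ≠ 0 := by
  intro h
  have h1 := Xi_conj χ hχ (z := 1 + I) (by simp)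
  rw [h, zero_mul] at h1
  exact Xi_ne_zero_of_im_le χ (z := conj (1 + I)) (by simp; norm_num) (by simp) h1

lemma Xi_conj_eq_zero_iff (hχ : χ.IsPrimitive) {z : ℂ} (hz : 0 < z.re) :
    Xi χ (conj z) = 0 ↔ Xi χ z = 0 := by
  rw [Xi_conj χ hχ hz]
  simp [rootNumber_ne_zero χ hχ]

lemma abs_im_lt_of_Xi_eq_zero (hχ : χ.IsPrimitive) {z : ℂ} (hz : 0 < z.re) (h : Xi χ z = 0) :
    |z.im| < 1 / 2 := by
  rw [abs_lt]
  constructor
  · by_contra h1
    exact Xi_ne_zero_of_im_le χ (not_lt.1 h1) hz h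
  · by_contra h1
    refine Xi_ne_zero_of_im_le χ (z := conj z) (by simp; linarith) (by simpa using hz) ?_
    exact (Xi_conj_eq_zero_iff χ hχ hz).2 h

lemma Xi_eq_zero_iff {z : ℂ} (hz : z.im < 1 / 2) : Xi χ z = 0 ↔ Lz χ z = 0 := by
  rw [Xi_eq_mul χ hz]
  simp [Gz_ne_zero χ hz]

lemma order_Xi_eq {z : ℂ} (hz : z.im < 1 / 2) (hz' : 0 < z.re) :
    analyticOrderAt (Xi χ) z = analyticOrderAt (LFunction χ) (sOf z) := by
  rw [analyticOrderAt_congr (Xi_eventuallyEq χ hz),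
    analyticOrderAt_mul (analyticOnNhd_Gz χ z hz) (analyticOnNhd_Lz χ z hz'),
    (analyticOnNhd_Gz χ z hz).analyticOrderAt_eq_zero.2 (Gz_ne_zero χ hz), zero_add]
  exact analyticOrderAt_comp_of_deriv_ne_zero (f := LFunction χ)
    (differentiable_sOf.analyticAt z) (by rw [(hasDerivAt_sOf z).deriv]; exact I_ne_zero)

lemma Xi_eventuallyEq_conj (hχ : χ.IsPrimitive) {z : ℂ} (hz : 0 < z.re) :
    Xi χ =ᶠ[𝓝 z] fun w => rootNumber χ * (conj ∘ Xi χ ∘ conj) w := by
  filter_upwards [isOpen_rePos.mem_nhds hz] with w hw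
  have := Xi_conj χ hχ (z := conj w) (by simpa using hw)
  simpa using this

lemma order_Xi_conj (hχ : χ.IsPrimitive) {z : ℂ} (hz : 0 < z.re) :
    analyticOrderAt (Xi χ) (conj z) = analyticOrderAt (Xi χ) z := by
  obtain ⟨n, hn⟩ := ENat.ne_top_iff_exists.1 (order_Xi_ne_top χ hz)
  have hz' : 0 < (conj z).re := by simpa using hz
  obtain ⟨g, hg, hg0, hgf⟩ := ((analyticOnNhd_Xi χ z hz).analyticOrderAt_eq_natCast).1 hn.symm
  rw [← hn, (analyticOnNhd_Xi χ _ hz').analyticOrderAt_eq_natCast]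
  refine ⟨fun w => rootNumber χ * (conj ∘ g ∘ conj) w, ?_, ?_, ?_⟩
  · refine analyticAt_const.mul ?_
    rw [analyticAt_iff_eventually_differentiableAt] at hg ⊢
    have hc : Tendsto conj (𝓝 (conj z)) (𝓝 z) := by
      have := continuous_conj.tendsto (conj z)
      simpa using this
    filter_upwards [hc.eventually hg] with w hw
    simpa using hw.conj_conj
  · simp [rootNumber_ne_zero χ hχ, hg0]
  · have hc : Tendsto conj (𝓝 (conj z)) (𝓝 z) := by
      have := continuous_conj.tendsto (conj z)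
      simpa using this
    filter_upwards [hc.eventually hgf, Xi_eventuallyEq_conj χ hχ hz'] with w hw hw'
    rw [hw']
    simp only [Function.comp, hw, smul_eq_mul, map_mul, map_pow, map_sub, conj_conj]
    ring

lemma logDeriv_Xi_conj (hχ : χ.IsPrimitive) {z : ℂ} (hz : 0 < z.re) :
    logDeriv (Xi χ) (conj z) = conj (logDeriv (Xi χ) z) := by
  have hz' : 0 < (conj z).re := by simpa using hz
  have h1 := Xi_eventuallyEq_conj χ hχ hz'
  rw [logDeriv_apply, logDeriv_apply, h1.deriv_eq, deriv_const_mul_field, deriv_conj_conj,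
    Xi_conj χ hχ hz, map_div₀]
  simp only [Function.comp, conj_conj]
  rw [mul_div_mul_left _ _ (rootNumber_ne_zero χ hχ)]

lemma finite_zeros_Xi {K : Set ℂ} (hK : IsCompact K) (hKU : K ⊆ {z : ℂ | 0 < z.re}) :
    {z ∈ K | Xi χ z = 0}.Finite := by
  have h1 : (Xi χ ⁻¹' {0}ᶜ) ∈ codiscreteWithin {z : ℂ | 0 < z.re} :=
    (analyticOnNhd_Xi χ).preimage_zero_mem_codiscreteWithin (x := 1 - I)
      (Xi_ne_zero_of_im_le χ (by simp; norm_num) (by simp)) (by simp)
      ⟨⟨1, by simp⟩, convex_rePos.isPreconnected⟩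
  have h2 : (Xi χ ⁻¹' {0}ᶜ) ∈ codiscreteWithin K := codiscreteWithin_mono hKU h1
  have h3 := hK.finite_sdiff_of_mem_codiscreteWithin h2
  refine h3.subset ?_
  intro z hz
  exact ⟨hz.1, by simpa using hz.2⟩

lemma logDeriv_Xi_eq {z : ℂ} (hz : z.im < 1 / 2) (hz' : 0 < z.re) (h : Lz χ z ≠ 0) :
    logDeriv (Xi χ) z = logDeriv (Gz χ) z + logDeriv (Lz χ) z := by
  have h1 := Xi_eventuallyEq χ hz
  have h2 : logDeriv (Xi χ) z = logDeriv (Gz χ * Lz χ) z := by
    rw [logDeriv_apply, logDeriv_apply, h1.deriv_eq, h1.eq_of_nhds]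
  rw [h2]
  exact logDeriv_mul z (Gz_ne_zero χ hz) h (differentiableAt_Gz χ hz) (differentiableAt_Lz χ hz')

lemma logDeriv_Lz {z : ℂ} (hz' : 0 < z.re) :
    logDeriv (Lz χ) z = I * logDeriv (LFunction χ) (sOf z) := by
  have := logDeriv_comp (f := LFunction χ) (g := sOf) (x := z)
    (differentiableAt_LFunction χ _ (Or.inl (sOf_ne_one hz'))) (differentiable_sOf z)
  rw [(hasDerivAt_sOf z).deriv] at this
  rw [mul_comm]
  exact this

lemma logDeriv_Gz {z : ℂ} (hz : z.im < 1 / 2) :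
    logDeriv (Gz χ) z = I * (((Real.log N / 2 : ℝ) : ℂ) + logDeriv (gammaFactor χ) (sOf z)) := by
  have hs : 0 < (sOf z).re := by simp; linarith
  have hN : (N : ℂ) ≠ 0 := by exact_mod_cast NeZero.ne N
  have h1 := logDeriv_comp (f := gammaFactor χ) (g := sOf) (x := z)
    (differentiableAt_gammaFactor χ hs) (differentiable_sOf z)
  rw [(hasDerivAt_sOf z).deriv] at h1
  have h2 : logDeriv (fun z : ℂ => (N : ℂ) ^ (sOf z / 2)) z = I * ((Real.log N / 2 : ℝ) : ℂ) := by
    have h3 := ((hasDerivAt_sOf z).div_const 2).const_cpow (c := (N : ℂ)) (Or.inl hN)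
    rw [logDeriv_apply, h3.deriv]
    have := Npow_ne_zero (N := N) z
    field_simp
    push_cast
    ring
  have h4 : logDeriv (Gz χ) z = logDeriv (fun z : ℂ => (N : ℂ) ^ (sOf z / 2)) z
      + logDeriv (gammaFactor χ ∘ sOf) z :=
    logDeriv_mul (f := fun z : ℂ => (N : ℂ) ^ (sOf z / 2)) (g := gammaFactor χ ∘ sOf) z
      (Npow_ne_zero z) (gammaFactor_ne_zero χ hs) (differentiable_Npow z)
      ((differentiableAt_gammaFactor χ hs).comp z (differentiable_sOf z))
  rw [h4, h1, h2]; ring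

end Pool.Agent.MP_f259ea_nt
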