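import Pool.Agent.MP_f259ea_nt.A_Stmts

set_option autoImplicit false

open Complex MeasureTheory Set Filter Topology
open scoped Real ComplexConjugate

namespace Pool.Agent.MP_f259ea_nt

theorem norm_exp_I (k u t : ℝ) : ‖Complex.exp (k * I * u * t)‖ = 1 := by
  rw [show (k * I * u * t : ℂ) = ((k * u * t : ℝ) : ℂ) * I by push_cast; ring]
  exact Complex.norm_exp_ofReal_mul_I _

theorem swap_exp {f g : ℝ → ℂ} (hf : Integrable f) (hg : Integrable g) (k : ℝ) :
    ∫ u : ℝ, (∫ t : ℝ, f t * Complex.exp (k * I * u * t)) * g u =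
      ∫ t : ℝ, f t * ∫ u : ℝ, g u * Complex.exp (k * I * u * t) := by
  simp_rw [← integral_mul_const, ← integral_const_mul]
  rw [integral_integral_swap]
  · congr 1; funext t; congr 1; funext u; ring
  · refine (hg.norm.mul_prod hf.norm).mono' ?_ (Eventually.of_forall fun z => ?_)
    · refine (hf.1.comp_snd.mul ?_).mul hg.1.comp_fst
      exact (by fun_prop : Continuous fun z : ℝ × ℝ =>
        Complex.exp (k * I * z.1 * z.2)).aestronglyMeasurable
    · simp only [Function.uncurry, norm_mul, norm_exp_I]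
      rw [mul_one, mul_comm]

theorem gauss_norm {r : ℝ} (hr : 0 < r) (x : ℝ) :
    ‖∫ u : ℝ, Complex.exp (-(π * r) * u ^ 2) * Complex.exp (2 * π * I * u * x)‖ =
      (√r)⁻¹ * Real.exp (-(π / r) * x ^ 2) := by
  have h := integral_cexp_quadratic (b := -(π * r)) (by
    have := Real.pi_pos
    simp only [neg_re, mul_re, ofReal_re, ofReal_im, mul_zero, sub_zero]
    nlinarith) (2 * π * I * x) 0
  have e : (fun u : ℝ => Complex.exp (-(π * r) * u ^ 2) * Complex.exp (2 * π * I * u * x)) =
      fun u : ℝ => Complex.exp (-(π * r) * u ^ 2 + 2 * π * I * x * u + 0) := by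
    funext u; rw [← Complex.exp_add]; congr 1; ring
  have hπ : (π : ℂ) ≠ 0 := ofReal_ne_zero.2 Real.pi_ne_zero
  have hr' : (r : ℂ) ≠ 0 := ofReal_ne_zero.2 hr.ne'
  rw [e, h, norm_mul]
  congr 1
  · rw [show (π / -(-(π * r)) : ℂ) = ((r⁻¹ : ℝ) : ℂ) by push_cast; field_simp,
      show (1 / 2 : ℂ) = ((1 / 2 : ℝ) : ℂ) by push_cast; rfl,
      ← ofReal_cpow (inv_nonneg.2 hr.le), norm_real, Real.norm_of_nonneg (by positivity),
      ← Real.sqrt_eq_rpow, Real.sqrt_inv]
  · rw [show (0 - (2 * π * I * x) ^ 2 / (4 * -(π * r)) : ℂ) = ((-(π / r) * x ^ 2 : ℝ) : ℂ) by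
      push_cast; field_simp; rw [I_sq]; ring, ← ofReal_exp, norm_real,
      Real.norm_of_nonneg (Real.exp_pos _).le]

theorem planch_gauss {f : ℝ → ℂ} (hf : Integrable f) {M : ℝ} (hM : ∀ t, ‖f t‖ ≤ M) {r : ℝ}
    (hr : 0 < r) : ∫ u : ℝ, ‖∫ t : ℝ, f t * Complex.exp (2 * π * I * u * t)‖ ^ 2 *
      Real.exp (-(π * r) * u ^ 2) ≤ M * ∫ t, ‖f t‖ := by
  have e2 : ∀ u t : ℝ, Complex.exp (2 * π * I * u * t) =
      Complex.exp ((2 * π : ℝ) * I * u * t) := fun u t => by push_cast; rfl
  set G : ℝ → ℂ := fun u => ∫ t : ℝ, f t * Complex.exp (2 * π * I * u * t) with hG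
  have hGc : Continuous G := by
    refine continuous_of_dominated (bound := fun t => ‖f t‖) (fun u => hf.1.mul
      (by fun_prop : Continuous fun t : ℝ =>
        Complex.exp (2 * π * I * u * t)).aestronglyMeasurable)
      (fun u => Eventually.of_forall fun t => ?_) hf.norm (Eventually.of_forall fun t => ?_)
    · rw [norm_mul, e2, norm_exp_I, mul_one]
    · fun_prop
  have hGb : ∀ u, ‖G u‖ ≤ ∫ t, ‖f t‖ := fun u => (norm_integral_le_integral_norm _).trans (by
    simp_rw [norm_mul, e2, norm_exp_I, mul_one]; rfl)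
  have hφ : Integrable fun u : ℝ => Complex.exp (-(π * r) * u ^ 2) :=
    integrable_cexp_neg_mul_sq (by
      have := Real.pi_pos
      simp only [mul_re, ofReal_re, ofReal_im, mul_zero, sub_zero]
      positivity)
  have hcG : ∀ u, conj (G u) = ∫ t : ℝ, conj (f t) * Complex.exp ((-(2 * π) : ℝ) * I * u * t) := by
    intro u
    rw [hG, ← integral_conj]
    congr 1; funext t
    rw [map_mul, ← Complex.exp_conj]
    congr 2
    simp [map_ofNat]
  have hcf : Integrable fun t => conj (f t) := by
    refine hf.norm.mono' ?_ (Eventually.of_forall fun t => by simp)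
    exact continuous_conj.comp_aestronglyMeasurable hf.1
  have h1 : Integrable fun u : ℝ => conj (G u) * Complex.exp (-(π * r) * u ^ 2) :=
    hφ.bdd_mul (c := ∫ t, ‖f t‖) (continuous_conj.comp hGc).aestronglyMeasurable
      (Eventually.of_forall fun u => by simpa using hGb u)
  have h2 : ∀ t : ℝ, ‖∫ u : ℝ, conj (G u) * Complex.exp (-(π * r) * u ^ 2) *
      Complex.exp ((2 * π : ℝ) * I * u * t)‖ ≤ M := by
    intro t
    have h3 : Integrable fun u : ℝ => Complex.exp (-(π * r) * u ^ 2) *
        Complex.exp ((2 * π : ℝ) * I * u * t) :=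
      hφ.mul_bdd (c := 1) (by fun_prop : Continuous fun u : ℝ =>
        Complex.exp ((2 * π : ℝ) * I * u * t)).aestronglyMeasurable
        (Eventually.of_forall fun u => (norm_exp_I _ _ _).le)
    simp_rw [mul_assoc (conj (G _)), hcG]
    rw [swap_exp hcf h3]
    have h4 : ∀ s : ℝ, ‖∫ u : ℝ, Complex.exp (-(π * r) * u ^ 2) *
        Complex.exp ((2 * π : ℝ) * I * u * t) * Complex.exp ((-(2 * π) : ℝ) * I * u * s)‖ =
        (√r)⁻¹ * Real.exp (-(π / r) * (s - t) ^ 2) := by
      intro s
      rw [show (s - t) ^ 2 = (t - s) ^ 2 by ring, ← gauss_norm hr]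
      congr 2; funext u
      rw [mul_assoc, ← Complex.exp_add]
      congr 2
      push_cast; ring
    have h5 : Integrable fun s : ℝ => Real.exp (-(π / r) * (s - t) ^ 2) :=
      (integrable_exp_neg_mul_sq (div_pos Real.pi_pos hr)).comp_sub_right t
    refine (norm_integral_le_of_norm_le (g := fun s => M * ((√r)⁻¹ *
      Real.exp (-(π / r) * (s - t) ^ 2))) ((h5.const_mul _).const_mul _)
      (Eventually.of_forall fun s => ?_)).trans (le_of_eq ?_)
    · rw [norm_mul, h4]
      exact mul_le_mul_of_nonneg_right (by simpa using hM s) (by positivity)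
    · rw [integral_const_mul, integral_const_mul,
        integral_sub_right_eq_self (fun s => Real.exp (-(π / r) * s ^ 2)) t, integral_gaussian,
        show π / (π / r) = r by field_simp, inv_mul_cancel₀ (Real.sqrt_pos.2 hr).ne', mul_one]
  have h6 : ((∫ u : ℝ, ‖G u‖ ^ 2 * Real.exp (-(π * r) * u ^ 2) : ℝ) : ℂ) =
      ∫ u : ℝ, G u * (conj (G u) * Complex.exp (-(π * r) * u ^ 2)) := by
    rw [← integral_complex_ofReal]
    congr 1; funext u
    rw [← mul_assoc, Complex.mul_conj, Complex.normSq_eq_norm_sq]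
    simp
  refine (Real.le_norm_self _).trans ?_
  rw [← Complex.norm_real, h6]
  simp_rw [hG, e2] at h1 h2 ⊢
  rw [swap_exp hf h1, ← integral_const_mul]
  refine norm_integral_le_of_norm_le (hf.norm.const_mul _) (Eventually.of_forall fun t => ?_)
  rw [norm_mul, mul_comm]
  exact mul_le_mul_of_nonneg_right (h2 t) (norm_nonneg _)

theorem stmtPlanch : StmtPlanch := by
  intro F a b M Y hab hY hF hM
  have hM0 : 0 ≤ M := (norm_nonneg _).trans (hM a ⟨le_rfl, hab⟩)
  let f : ℝ → ℂ := (Ioc a b).indicator F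
  have hf : Integrable f := (integrable_indicator_iff measurableSet_Ioc).2
    (hF.integrableOn_Icc.mono_set Ioc_subset_Icc_self)
  have hfM : ∀ t, ‖f t‖ ≤ (Ioc a b).indicator (fun _ => M) t := fun t => by
    by_cases h : t ∈ Ioc a b
    · simpa [f, h] using hM t (Ioc_subset_Icc_self h)
    · simp [f, h]
  have h1 : ∫ t, ‖f t‖ ≤ M * (b - a) := by
    refine (integral_mono hf.norm ((integrable_indicator_iff measurableSet_Ioc).2
      (by simp)) hfM).trans (le_of_eq ?_)
    rw [integral_indicator_const _ measurableSet_Ioc]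
    simp [hab, mul_comm]
  have e : ∀ u : ℝ, ∫ t in a..b, F t * Complex.exp (2 * π * I * u * t) =
      ∫ t : ℝ, f t * Complex.exp (2 * π * I * u * t) := fun u => by
    rw [intervalIntegral.integral_of_le hab, ← integral_indicator measurableSet_Ioc]
    congr 1; funext t
    by_cases h : t ∈ Ioc a b <;> simp [f, h]
  simp_rw [e]
  have e2 : ∀ u t : ℝ, Complex.exp (2 * π * I * u * t) =
      Complex.exp ((2 * π : ℝ) * I * u * t) := fun u t => by push_cast; rfl
  set G : ℝ → ℂ := fun u => ∫ t : ℝ, f t * Complex.exp (2 * π * I * u * t) with hG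
  have hGc : Continuous G := by
    refine continuous_of_dominated (bound := fun t => ‖f t‖) (fun u => hf.1.mul
      (by fun_prop : Continuous fun t : ℝ =>
        Complex.exp (2 * π * I * u * t)).aestronglyMeasurable)
      (fun u => Eventually.of_forall fun t => ?_) hf.norm (Eventually.of_forall fun t => ?_)
    · rw [norm_mul, e2, norm_exp_I, mul_one]
    · fun_prop
  have hGb : ∀ u, ‖G u‖ ≤ ∫ t, ‖f t‖ := fun u => (norm_integral_le_integral_norm _).trans (by
    simp_rw [norm_mul, e2, norm_exp_I, mul_one]; rfl)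
  have key : ∀ r : ℝ, 0 < r → ∫ u in (-Y)..Y, ‖G u‖ ^ 2 ≤
      Real.exp (π * r * Y ^ 2) * (M ^ 2 * (b - a)) := by
    intro r hr
    have hi : Integrable fun u : ℝ => ‖G u‖ ^ 2 * Real.exp (-(π * r) * u ^ 2) :=
      (integrable_exp_neg_mul_sq (mul_pos Real.pi_pos hr)).bdd_mul (c := (∫ t, ‖f t‖) ^ 2)
        (by fun_prop) (Eventually.of_forall fun u => by
          rw [norm_pow, norm_norm]
          exact pow_le_pow_left₀ (norm_nonneg _) (hGb u) 2)
    have h2 := planch_gauss hf (fun t => (hfM t).trans (indicator_le_self' (fun _ _ => hM0) t)) hr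
    calc ∫ u in (-Y)..Y, ‖G u‖ ^ 2
        ≤ ∫ u in (-Y)..Y, Real.exp (π * r * Y ^ 2) * (‖G u‖ ^ 2 * Real.exp (-(π * r) * u ^ 2)) := by
          refine intervalIntegral.integral_mono_on (by linarith)
            (Continuous.intervalIntegrable (by fun_prop) _ _)
            (Continuous.intervalIntegrable (by fun_prop) _ _) fun u hu => ?_
          rw [mul_left_comm, ← Real.exp_add]
          refine le_mul_of_one_le_right (by positivity) (Real.one_le_exp ?_)
          have : u ^ 2 ≤ Y ^ 2 := sq_le_sq' hu.1 hu.2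
          have := mul_pos Real.pi_pos hr
          nlinarith
      _ ≤ Real.exp (π * r * Y ^ 2) * ∫ u : ℝ, ‖G u‖ ^ 2 * Real.exp (-(π * r) * u ^ 2) := by
          rw [intervalIntegral.integral_const_mul, intervalIntegral.integral_of_le (by linarith)]
          exact mul_le_mul_of_nonneg_left (setIntegral_le_integral hi
            (Eventually.of_forall fun u => by positivity)) (Real.exp_pos _).le
      _ ≤ _ := by
          refine mul_le_mul_of_nonneg_left (h2.trans ?_) (Real.exp_pos _).le
          rw [sq, mul_assoc]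
          exact mul_le_mul_of_nonneg_left h1 hM0
  have ht : Tendsto (fun r : ℝ => Real.exp (π * r * Y ^ 2) * (M ^ 2 * (b - a))) (𝓝[>] 0)
      (𝓝 (M ^ 2 * (b - a))) := by
    have : Continuous fun r : ℝ => Real.exp (π * r * Y ^ 2) * (M ^ 2 * (b - a)) := by fun_prop
    simpa using (this.tendsto 0).mono_left nhdsWithin_le_nhds
  exact ge_of_tendsto ht (eventually_nhdsWithin_of_forall key)

end Pool.Agent.MP_f259ea_nt
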