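import Pool.Agent.MP_f259ea_nt.B_Mat

/-!
Part B, the abstract matrix inequality.
-/

set_option autoImplicit false

open Matrix Finset
open scoped ComplexOrder

namespace Pool.Agent.MP_f259ea_nt.B

variable {n : Type*} [Fintype n] [DecidableEq n] {κ : Type*} [Fintype κ]

/-- The completely positive map `Y ↦ ∑ C_j Y C_j`. -/
noncomputable def Nm (C : κ → Matrix n n ℂ) (Y : Matrix n n ℂ) : Matrix n n ℂ :=
  ∑ j, C j * Y * C j

/-- The modified trace pairing. -/
noncomputable def Bf (C : κ → Matrix n n ℂ) (X Y : Matrix n n ℂ) : ℝ := ip X Y - ip X (Nm C Y)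

omit [DecidableEq n] in
lemma Nm_add (C : κ → Matrix n n ℂ) (X Y : Matrix n n ℂ) : Nm C (X + Y) = Nm C X + Nm C Y := by
  unfold Nm; simp only [Matrix.mul_add, Matrix.add_mul, Finset.sum_add_distrib]

omit [DecidableEq n] in
lemma Nm_sub (C : κ → Matrix n n ℂ) (X Y : Matrix n n ℂ) : Nm C (X - Y) = Nm C X - Nm C Y := by
  unfold Nm; simp only [Matrix.mul_sub, Matrix.sub_mul, Finset.sum_sub_distrib]

omit [DecidableEq n] in
lemma Nm_psd {C : κ → Matrix n n ℂ} (hC : ∀ j, (C j).IsHermitian) {Y : Matrix n n ℂ}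
    (hY : Y.PosSemidef) : (Nm C Y).PosSemidef := by
  unfold Nm
  apply posSemidef_sum
  intro j _
  have := hY.mul_mul_conjTranspose_same (C j)
  rwa [(hC j).eq] at this

lemma Nm_le {C : κ → Matrix n n ℂ} (hC : ∀ j, (C j).IsHermitian) {ν : ℝ}
    (hν : ((ν : ℂ) • (1 : Matrix n n ℂ) - ∑ j, C j * C j).PosSemidef) {Y : Matrix n n ℂ} {c : ℝ}
    (hc : 0 ≤ c) (hY : ((c : ℂ) • (1 : Matrix n n ℂ) - Y).PosSemidef) :
    (((ν * c : ℝ) : ℂ) • (1 : Matrix n n ℂ) - Nm C Y).PosSemidef := by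
  have h1 := Nm_psd hC hY
  have h2 : ((c : ℂ) • ((ν : ℂ) • (1 : Matrix n n ℂ) - ∑ j, C j * C j)).PosSemidef :=
    hν.smul (Complex.zero_le_real.mpr hc)
  have h3 := h1.add h2
  convert h3 using 1
  rw [Nm_sub]
  have : Nm C ((c : ℂ) • (1 : Matrix n n ℂ)) = (c : ℂ) • ∑ j, C j * C j := by
    unfold Nm; rw [Finset.smul_sum]
    refine Finset.sum_congr rfl fun j _ => ?_
    rw [Matrix.mul_smul, Matrix.mul_one, Matrix.smul_mul]
  rw [this, smul_sub, smul_smul, Complex.ofReal_mul, mul_comm (c : ℂ)]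
  abel

omit [DecidableEq n] in
lemma ip_Nm_symm (C : κ → Matrix n n ℂ) (X Y : Matrix n n ℂ) :
    ip X (Nm C Y) = ip Y (Nm C X) := by
  unfold Nm
  rw [ip_sum_right, ip_sum_right]
  refine Finset.sum_congr rfl fun j _ => ?_
  unfold ip
  have e1 : X * (C j * Y * C j) = (X * C j) * (Y * C j) := by simp only [Matrix.mul_assoc]
  have e2 : Y * (C j * X * C j) = (Y * C j) * (X * C j) := by simp only [Matrix.mul_assoc]
  rw [e1, e2, trace_mul_comm]

lemma ip_Nm_self_le {C : κ → Matrix n n ℂ} (hC : ∀ j, (C j).IsHermitian) {ν : ℝ}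
    (hν : ((ν : ℂ) • (1 : Matrix n n ℂ) - ∑ j, C j * C j).PosSemidef) {X : Matrix n n ℂ}
    (hX : X.IsHermitian) : ip X (Nm C X) ≤ ν * ip X X := by
  have hXX : (X * X).PosSemidef := by
    have := posSemidef_conjTranspose_mul_self X
    rwa [hX.eq] at this
  have h1 := ip_le_of_le hXX hν
  have h2 : ip X (Nm C X) ≤ ip (X * X) (∑ j, C j * C j) := by
    unfold Nm
    rw [ip_sum_right, ip_sum_right]
    refine Finset.sum_le_sum fun j _ => ?_
    have h := tr_nonneg (posSemidef_conjTranspose_mul_self (X * C j - C j * X))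
    rw [conjTranspose_sub, conjTranspose_mul, conjTranspose_mul, hX.eq, (hC j).eq,
      Matrix.sub_mul, Matrix.mul_sub, Matrix.mul_sub, tr_sub, tr_sub, tr_sub] at h
    have e1 : tr (C j * X * (X * C j)) = ip (X * X) (C j * C j) := by
      unfold tr ip
      have : C j * X * (X * C j) = C j * (X * X * C j) := by simp only [Matrix.mul_assoc]
      rw [this, trace_mul_comm]; simp only [Matrix.mul_assoc]
    have e2 : tr (C j * X * (C j * X)) = ip X (C j * X * C j) := by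
      unfold tr ip
      have : C j * X * (C j * X) = (C j * X * C j) * X := by simp only [Matrix.mul_assoc]
      rw [this, trace_mul_comm]
    have e3 : tr (X * C j * (X * C j)) = ip X (C j * X * C j) := by
      unfold tr ip; simp only [Matrix.mul_assoc]
    have e4 : tr (X * C j * (C j * X)) = ip (X * X) (C j * C j) := by
      unfold tr ip
      have : X * C j * (C j * X) = (X * (C j * C j)) * X := by simp only [Matrix.mul_assoc]
      rw [this, trace_mul_comm]; simp only [Matrix.mul_assoc]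
    rw [e1, e2, e3, e4] at h
    linarith
  have : tr (X * X) = ip X X := rfl
  rw [this] at h1
  linarith

omit [DecidableEq n] in
lemma Bf_comm (C : κ → Matrix n n ℂ) (X Y : Matrix n n ℂ) : Bf C X Y = Bf C Y X := by
  unfold Bf; rw [ip_comm X Y, ip_Nm_symm]

omit [DecidableEq n] in
lemma Bf_add_left (C : κ → Matrix n n ℂ) (X X' Y : Matrix n n ℂ) :
    Bf C (X + X') Y = Bf C X Y + Bf C X' Y := by
  unfold Bf; rw [ip_add_left, ip_add_left]; ring

omit [DecidableEq n] in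
lemma Bf_sub_left (C : κ → Matrix n n ℂ) (X X' Y : Matrix n n ℂ) :
    Bf C (X - X') Y = Bf C X Y - Bf C X' Y := by
  unfold Bf; rw [ip_sub_left, ip_sub_left]; ring

omit [DecidableEq n] in
lemma Bf_add_add (C : κ → Matrix n n ℂ) (X Y : Matrix n n ℂ) :
    Bf C (X + Y) (X + Y) = Bf C X X + 2 * Bf C Y X + Bf C Y Y := by
  rw [Bf_add_left, Bf_comm C X (X + Y), Bf_comm C Y (X + Y), Bf_add_left, Bf_add_left,
    Bf_comm C X Y]
  ring

/-- The abstract inequality. -/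
theorem main_abs {C : κ → Matrix n n ℂ} (hC : ∀ j, (C j).IsHermitian) {ν σ τ : ℝ}
    (hν : ((ν : ℂ) • (1 : Matrix n n ℂ) - ∑ j, C j * C j).PosSemidef) (hν1 : ν ≤ 1)
    (hσ : 0 < σ) (hτ : 0 ≤ τ) (hcp : 2 * σ ≤ 2 * τ * (1 - ν) - 2 * ν * σ)
    {r : Type*} [Fintype r] [DecidableEq r] (V : Matrix n r ℂ)
    (E : Matrix r r ℂ) (hE : E.IsHermitian)
    (hV : ((σ : ℂ) • (1 : Matrix r r ℂ) + E - Vᴴ * V).PosSemidef)
    {P Q : Matrix n n ℂ} (hP : P.PosSemidef) (hQ : Q.IsHermitian)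
    {J : Type*} [Fintype J] (u : J → n → ℂ)
    (hu : (∑ j, vecMulVec (u j) (star (u j)) - Q).PosSemidef) :
    Bf C (V * Vᴴ) (V * Vᴴ) - ip E E - 2 * ν * σ * tr P
      + (2 * τ * (1 - ν) - 2 * ν * σ) * tr Q - (1 - ν) * τ ^ 2 * Fintype.card J
      ≤ Bf C (V * Vᴴ + P + Q) (V * Vᴴ + P + Q) := by
  obtain ⟨Y, X, hY, hX, hVV, hYσ, hloss⟩ := exists_trunc V E hE hσ hV
  obtain ⟨Qp, Qm, Pr, hQp, hQm, hPr, hQeq, hQPr, hPrPr⟩ := exists_pos_neg hQ u hu
  have hNY := Nm_psd hC hY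
  have hNYle := Nm_le hC hν hσ.le hYσ
  set R := X + P + Q with hR
  have hRh : R.IsHermitian := (hX.isHermitian.add hP.isHermitian).add hQ
  have e1 : V * Vᴴ + P + Q = Y + R := by rw [hVV, hR]; abel
  rw [e1, hVV, Bf_add_add, Bf_add_add, hR, Bf_add_left C (X + P) Q Y, Bf_add_left C X P Y, ← hR]
  -- `B(X,X) ≤ |X|²`
  have a1 : Bf C X X ≤ ip X X := by
    unfold Bf; have := ip_nonneg hX (Nm_psd hC hX); linarith
  -- `B(P,Y) ≥ -νσ tr P`
  have a2 : -(ν * σ * tr P) ≤ Bf C P Y := by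
    unfold Bf
    have := ip_nonneg hP hY
    have := ip_le_of_le hP hNYle
    linarith
  -- `B(Q,Y) ≥ -νσ q₊ - σ q₋`
  have a3 : -(ν * σ * tr Qp) - σ * tr Qm ≤ Bf C Q Y := by
    rw [hQeq, Bf_sub_left]
    unfold Bf
    have := ip_nonneg hQp hY
    have := ip_le_of_le hQp hNYle
    have := ip_le_of_le hQm hYσ
    have := ip_nonneg hQm hNY
    linarith
  -- `B(R,R) ≥ (1-ν)(2τ q₊ - τ² p)`
  have a4 : (1 - ν) * ip R R ≤ Bf C R R := by
    unfold Bf; have := ip_Nm_self_le hC hν hRh; linarith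
  have a5 : 2 * τ * tr Qp - τ ^ 2 * Fintype.card J ≤ ip R R := by
    have hs : ((τ : ℂ) • Pr).IsHermitian := (hPr.smul (Complex.zero_le_real.mpr hτ)).isHermitian
    have h1 := two_ip_le hRh hs
    rw [ip_smul_right, ip_smul_right, ip_smul_left] at h1
    have h2 : tr Qp ≤ ip R Pr := by
      rw [hR, ip_add_left, ip_add_left, hQPr]
      have := ip_nonneg hX hPr
      have := ip_nonneg hP hPr
      linarith
    have h3 : τ * tr Qp ≤ τ * ip R Pr := mul_le_mul_of_nonneg_left h2 hτ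
    have h4 : τ * (τ * ip Pr Pr) ≤ τ * (τ * Fintype.card J) :=
      mul_le_mul_of_nonneg_left (mul_le_mul_of_nonneg_left hPrPr hτ) hτ
    nlinarith
  have a6 : (1 - ν) * (2 * τ * tr Qp - τ ^ 2 * Fintype.card J) ≤ (1 - ν) * ip R R :=
    mul_le_mul_of_nonneg_left a5 (by linarith)
  have a7 : tr Q = tr Qp - tr Qm := by rw [hQeq, tr_sub]
  have a8 : 2 * σ * tr Qm ≤ (2 * τ * (1 - ν) - 2 * ν * σ) * tr Qm :=
    mul_le_mul_of_nonneg_right hcp (tr_nonneg hQm)
  rw [a7]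
  nlinarith

end Pool.Agent.MP_f259ea_nt.B
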