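import Pool.Agent.MP_f259ea_nt.B_Defs

/-!
Part B, cell integrals of exponentials and the tent identity.
-/

set_option autoImplicit false

open Finset Complex MeasureTheory
open scoped Real ComplexConjugate

namespace Pool.Agent.MP_f259ea_nt.B

/-- `exp (2 π i u z)`. -/
noncomputable def ee (u : ℝ) (z : ℂ) : ℂ := Complex.exp (2 * π * I * u * z)

/-- The cell integral. -/
noncomputable def gam (p D : ℝ) (z : ℂ) : ℂ := ∫ u in p..p + D, ee u z

lemma ee_continuous (z : ℂ) : Continuous (fun u : ℝ => ee u z) := by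
  unfold ee; fun_prop

lemma ee_add (u : ℝ) (z w : ℂ) : ee u (z + w) = ee u z * ee u w := by
  unfold ee; rw [← Complex.exp_add]; congr 1; ring

lemma ee_add' (u u' : ℝ) (z : ℂ) : ee (u + u') z = ee u z * ee u' z := by
  unfold ee; rw [← Complex.exp_add]; congr 1; push_cast; ring

lemma ee_neg (u : ℝ) (z : ℂ) : ee (-u) z = ee u (-z) := by
  unfold ee; congr 1; push_cast; ring

lemma conj_ee (u : ℝ) (z : ℂ) : conj (ee u z) = ee u (-conj z) := by
  unfold ee; rw [← Complex.exp_conj]; congr 1
  simp only [map_mul, Complex.conj_ofReal, Complex.conj_I, map_ofNat]; ring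

lemma gam_shift (p D : ℝ) (z : ℂ) : gam p D z = ee p z * gam 0 D z := by
  unfold gam
  rw [← intervalIntegral.integral_const_mul]
  have := intervalIntegral.integral_comp_add_left (a := 0) (b := 0 + D) (fun u => ee u z) p
  simp only [add_zero, zero_add] at this ⊢
  rw [← this]
  simp only [ee_add']

lemma conj_gam (p D : ℝ) (z : ℂ) : conj (gam p D z) = gam p D (-conj z) := by
  unfold gam
  simp only [← conj_ee]
  unfold intervalIntegral
  rw [map_sub, integral_conj, integral_conj]

lemma gam_zero (p D : ℝ) : gam p D 0 = D := by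
  unfold gam ee; simp

lemma tent_continuous : Continuous tent := by
  unfold tent; fun_prop

lemma tent_nonneg (x : ℝ) : 0 ≤ tent x := le_max_right _ _

lemma tent_eq_zero {x : ℝ} (hx : 1 ≤ |x|) : tent x = 0 := max_eq_right (by linarith)

lemma tent_neg (x : ℝ) : tent (-x) = tent x := by unfold tent; rw [abs_neg]

lemma tent_support {D : ℝ} (hD : 0 < D) (r a : ℝ) (h : tent (a / D - r) ≠ 0) :
    (r - 1) * D < a ∧ a < (r + 1) * D := by
  have h1 : |a / D - r| < 1 := by
    by_contra h'; exact h (tent_eq_zero (not_lt.mp h'))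
  rw [abs_lt] at h1
  constructor
  · have : r - 1 < a / D := by linarith [h1.1]
    rwa [lt_div_iff₀ hD] at this
  · have : a / D < r + 1 := by linarith [h1.2]
    rwa [div_lt_iff₀ hD] at this

lemma tent_integrable {E : Type*} [NormedAddCommGroup E] [NormedSpace ℝ E] {D : ℝ} (hD : 0 < D)
    (r : ℝ) {f : ℝ → E} (hf : Continuous f) :
    Integrable (fun a : ℝ => (D * tent (a / D - r)) • f a) := by
  apply Continuous.integrable_of_hasCompactSupport
  · have := tent_continuous
    fun_prop
  · apply HasCompactSupport.intro (isCompact_Icc (a := (r - 1) * D) (b := (r + 1) * D))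
    intro a ha
    have : tent (a / D - r) = 0 := by
      by_contra h
      obtain ⟨h1, h2⟩ := tent_support hD r a h
      exact ha ⟨h1.le, h2.le⟩
    simp [this]

lemma tent_ft_zero {D : ℝ} (hD : 0 < D) (z : ℂ) :
    ∫ a : ℝ, (D * tent (a / D - 0)) • ee a z = gam 0 D z * gam 0 D (-z) := by
  have hsupp : Function.support (fun a : ℝ => (D * tent (a / D - 0)) • ee a z)
      ⊆ Set.Ioc (-D) D := by
    intro a ha
    have : tent (a / D - 0) ≠ 0 := by
      intro h; apply ha; simp only [h, mul_zero, zero_smul]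
    obtain ⟨h1, h2⟩ := tent_support hD 0 a this
    constructor <;> linarith
  have hcont : Continuous (fun a : ℝ => (D * tent (a / D - 0)) • ee a z) := by
    have := tent_continuous
    have := ee_continuous z
    fun_prop
  rw [← intervalIntegral.integral_eq_integral_of_support_subset hsupp,
    ← intervalIntegral.integral_add_adjacent_intervals (b := 0) (hcont.intervalIntegrable _ _)
      (hcont.intervalIntegrable _ _)]
  set c : ℂ := 2 * π * I * z with hc
  have hee : ∀ a : ℝ, ee a z = Complex.exp (c * a) := by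
    intro a; unfold ee; congr 1; rw [hc]; ring
  have hee' : ∀ a : ℝ, ee a (-z) = Complex.exp (-c * a) := by
    intro a; unfold ee; congr 1; rw [hc]; ring
  have e1 : ∫ a in (-D)..0, (D * tent (a / D - 0)) • ee a z
      = ∫ a in (-D)..0, ((D : ℂ) + a) * Complex.exp (c * a) := by
    apply intervalIntegral.integral_congr
    intro a ha
    rw [Set.uIcc_of_le (by linarith)] at ha
    have h1 : a / D ≤ 0 := div_nonpos_of_nonpos_of_nonneg ha.2 hD.le
    have h2 : -1 ≤ a / D := by rw [le_div_iff₀ hD]; linarith [ha.1]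
    have : D * tent (a / D - 0) = D + a := by
      unfold tent
      rw [sub_zero, abs_of_nonpos h1, max_eq_left (by linarith)]; field_simp; ring
    simp only [this, hee, Complex.real_smul]; push_cast; ring
  have e2 : ∫ a in (0 : ℝ)..D, (D * tent (a / D - 0)) • ee a z
      = ∫ a in (0 : ℝ)..D, ((D : ℂ) - a) * Complex.exp (c * a) := by
    apply intervalIntegral.integral_congr
    intro a ha
    rw [Set.uIcc_of_le (by linarith)] at ha
    have h1 : 0 ≤ a / D := div_nonneg ha.1 hD.le
    have h2 : a / D ≤ 1 := by rw [div_le_iff₀ hD]; linarith [ha.2]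
    have : D * tent (a / D - 0) = D - a := by
      unfold tent
      rw [sub_zero, abs_of_nonneg h1, max_eq_left (by linarith)]; field_simp
    simp only [this, hee, Complex.real_smul]; push_cast; ring
  rw [e1, e2]
  unfold gam
  simp only [hee, hee', zero_add]
  by_cases h0 : c = 0
  · simp only [h0, zero_mul, neg_zero, Complex.exp_zero, mul_one]
    have f1 : ∫ a in (-D)..0, ((D : ℂ) + a) = ((∫ a in (-D)..0, (D + a) : ℝ) : ℂ) := by
      rw [← intervalIntegral.integral_ofReal]; push_cast; rfl
    have f2 : ∫ a in (0 : ℝ)..D, ((D : ℂ) - a) = ((∫ a in (0 : ℝ)..D, (D - a) : ℝ) : ℂ) := by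
      rw [← intervalIntegral.integral_ofReal]; push_cast; rfl
    rw [f1, f2, intervalIntegral.integral_add (by simp) (by simp),
      intervalIntegral.integral_sub (by simp) (by simp)]
    simp only [integral_id, intervalIntegral.integral_const, smul_eq_mul, Complex.real_smul]
    push_cast; ring
  · have hc' : -c ≠ 0 := neg_ne_zero.mpr h0
    rw [integral_exp_mul_complex h0, integral_exp_mul_complex hc']
    have hd : ∀ (s : ℂ) (a : ℝ), HasDerivAt
        (fun a : ℝ => (((D : ℂ) + s * a) / c - s / c ^ 2) * Complex.exp (c * a))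
        (((D : ℂ) + s * a) * Complex.exp (c * a)) a := by
      intro s a
      have h1 : HasDerivAt (fun y : ℂ => (((D : ℂ) + s * y) / c - s / c ^ 2) * Complex.exp (c * y))
          ((s / c) * Complex.exp (c * a)
            + (((D : ℂ) + s * a) / c - s / c ^ 2) * (Complex.exp (c * a) * c)) (a : ℂ) := by
        have a1 : HasDerivAt (fun y : ℂ => ((D : ℂ) + s * y) / c - s / c ^ 2) (s / c) (a : ℂ) := by
          have := ((((hasDerivAt_id (a : ℂ)).const_mul s).const_add (D : ℂ)).div_const c).sub_const
            (s / c ^ 2)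
          simpa using this
        have a2 : HasDerivAt (fun y : ℂ => Complex.exp (c * y)) (Complex.exp (c * a) * c)
            (a : ℂ) := by
          have := ((hasDerivAt_id (a : ℂ)).const_mul c).cexp
          simpa using this
        exact a1.mul a2
      have h2 := h1.comp_ofReal
      convert h2 using 1
      field_simp; ring
    have g1 : ∫ a in (-D)..0, ((D : ℂ) + a) * Complex.exp (c * a) = _ :=
      (intervalIntegral.integral_congr (g := fun a : ℝ => ((D : ℂ) + 1 * a) * Complex.exp (c * a))
        (fun a _ => by simp)).trans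
        (intervalIntegral.integral_eq_sub_of_hasDerivAt (fun a _ => hd 1 a)
          (Continuous.intervalIntegrable (by fun_prop) _ _))
    have g2 : ∫ a in (0 : ℝ)..D, ((D : ℂ) - a) * Complex.exp (c * a) = _ :=
      (intervalIntegral.integral_congr
        (g := fun a : ℝ => ((D : ℂ) + (-1) * a) * Complex.exp (c * a))
        (fun a _ => by simp [sub_eq_add_neg])).trans
        (intervalIntegral.integral_eq_sub_of_hasDerivAt (fun a _ => hd (-1) a)
          (Continuous.intervalIntegrable (by fun_prop) _ _))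
    rw [g1, g2]
    have hx : Complex.exp (c * ((-D : ℝ) : ℂ)) = (Complex.exp (c * D))⁻¹ := by
      rw [← Complex.exp_neg]; congr 1; push_cast; ring
    have hy : Complex.exp (-c * (D : ℂ)) = (Complex.exp (c * D))⁻¹ := by
      rw [← Complex.exp_neg]; congr 1; ring
    rw [hx, hy]
    have hne := Complex.exp_ne_zero (c * D)
    simp only [Complex.ofReal_zero, mul_zero, Complex.exp_zero, Complex.ofReal_neg]
    field_simp
    ring

lemma tent_ft {D : ℝ} (hD : 0 < D) (p p' : ℝ) (z : ℂ) :
    ∫ a : ℝ, (D * tent (a / D - (p - p') / D)) • ee a z = gam p D z * gam p' D (-z) := by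
  have h := integral_add_right_eq_self (μ := volume)
    (fun a : ℝ => (D * tent (a / D - (p - p') / D)) • ee a z) (p - p')
  rw [← h]
  have : ∀ a : ℝ, (D * tent ((a + (p - p')) / D - (p - p') / D)) • ee (a + (p - p')) z
      = ee (p - p') z * ((D * tent (a / D - 0)) • ee a z) := by
    intro a
    rw [ee_add', add_div, add_sub_cancel_right, sub_zero, mul_smul_comm, mul_comm (ee a z)]
  simp only [this]
  rw [integral_const_mul, tent_ft_zero hD, gam_shift p, gam_shift p', sub_eq_add_neg, ee_add',
    ee_neg]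
  ring

lemma mu_eq (A : Finset ℂ) (c : ℂ → ℂ) (a : ℝ) : mu A c a = ∑ z ∈ A, c z * ee a z := rfl

lemma mu_continuous (A : Finset ℂ) (c : ℂ → ℂ) : Continuous (mu A c) := by
  unfold mu; fun_prop

lemma conj_mu {A : Finset ℂ} {c : ℂ → ℂ} (hA : ∀ z ∈ A, conj z ∈ A ∧ c (conj z) = conj (c z))
    (a : ℝ) : conj (mu A c a) = ∑ z ∈ A, c z * ee a (-z) := by
  rw [mu_eq, map_sum]
  refine Finset.sum_bij' (fun z _ => conj z) (fun z _ => conj z) (fun z hz => (hA z hz).1)
    (fun z hz => (hA z hz).1) (fun z _ => by simp) (fun z _ => by simp) ?_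
  intro z hz
  rw [map_mul, conj_ee, (hA z hz).2]

/-- The tent-weighted mean square of `mu` as a double sum of products of cell integrals. -/
lemma tent_mu {D : ℝ} (hD : 0 < D) (p p' : ℝ) {A : Finset ℂ} {c : ℂ → ℂ}
    (hA : ∀ z ∈ A, conj z ∈ A ∧ c (conj z) = conj (c z)) :
    ((∫ a : ℝ, (D * tent (a / D - (p - p') / D)) * ‖mu A c a‖ ^ 2 : ℝ) : ℂ)
      = ∑ z ∈ A, ∑ w ∈ A, c z * c w * (gam p D (z - w) * gam p' D (w - z)) := by
  rw [← integral_complex_ofReal]
  have h1 : ∀ a : ℝ, (((D * tent (a / D - (p - p') / D)) * ‖mu A c a‖ ^ 2 : ℝ) : ℂ)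
      = ∑ z ∈ A, ∑ w ∈ A, c z * c w * ((D * tent (a / D - (p - p') / D)) • ee a (z - w)) := by
    intro a
    rw [Complex.ofReal_mul, Complex.ofReal_pow, ← Complex.mul_conj', conj_mu hA, mu_eq,
      Finset.sum_mul_sum, Finset.mul_sum]
    refine Finset.sum_congr rfl fun z _ => ?_
    rw [Finset.mul_sum]
    refine Finset.sum_congr rfl fun w _ => ?_
    rw [sub_eq_add_neg z w, ee_add, Complex.real_smul]; ring
  simp only [h1]
  have hint : ∀ z w : ℂ, Integrable (fun a : ℝ =>
      c z * c w * ((D * tent (a / D - (p - p') / D)) • ee a (z - w))) :=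
    fun z w => (tent_integrable hD _ (ee_continuous _)).const_mul _
  rw [integral_finsetSum _ (fun z _ => integrable_finsetSum _ fun w _ => hint z w)]
  refine Finset.sum_congr rfl fun z _ => ?_
  rw [integral_finsetSum _ (fun w _ => hint z w)]
  refine Finset.sum_congr rfl fun w _ => ?_
  rw [integral_const_mul, tent_ft hD, neg_sub]

/-- The cell Gram form is the cell mean square. -/
lemma gram_eq {ι : Type*} [Fintype ι] (p D : ℝ) (z : ι → ℂ) (ξ : ι → ℂ) :
    ∑ a, ∑ b, conj (ξ a) * ξ b * gam p D (z b - conj (z a))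
      = ((∫ u in p..p + D, ‖∑ b, ξ b * ee u (z b)‖ ^ 2 : ℝ) : ℂ) := by
  rw [← intervalIntegral.integral_ofReal]
  have h1 : ∀ u : ℝ, ((‖∑ b, ξ b * ee u (z b)‖ ^ 2 : ℝ) : ℂ)
      = ∑ a, ∑ b, conj (ξ a) * ξ b * ee u (z b - conj (z a)) := by
    intro u
    rw [Complex.ofReal_pow, ← Complex.conj_mul', map_sum, Finset.sum_mul_sum]
    refine Finset.sum_congr rfl fun a _ => Finset.sum_congr rfl fun b _ => ?_
    rw [map_mul, conj_ee, sub_eq_add_neg, ee_add]; ring
  simp only [h1]
  have hint : ∀ a b : ι, IntervalIntegrable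
      (fun u : ℝ => conj (ξ a) * ξ b * ee u (z b - conj (z a))) volume p (p + D) :=
    fun a b => ((ee_continuous _).const_mul _).intervalIntegrable _ _
  rw [intervalIntegral.integral_finsetSum
    (fun a _ => (continuous_finsetSum _ fun b _ =>
      (ee_continuous _).const_mul _).intervalIntegrable _ _)]
  refine Finset.sum_congr rfl fun a _ => ?_
  rw [intervalIntegral.integral_finsetSum (fun b _ => hint a b)]
  refine Finset.sum_congr rfl fun b _ => ?_
  rw [intervalIntegral.integral_const_mul]; rfl

end Pool.Agent.MP_f259ea_nt.B
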