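import Mathlib

/-!
Part B, matrix lemmas: trace pairing, diagonalisation, inertia bound, spectral loss.
-/

set_option autoImplicit false

open Matrix Finset
open scoped ComplexOrder

namespace Pool.Agent.MP_f259ea_nt.B

variable {n : Type*} [Fintype n] [DecidableEq n]

/-- Real trace pairing. -/
noncomputable def ip (X Y : Matrix n n ℂ) : ℝ := (X * Y).trace.re

/-- Real trace. -/
noncomputable def tr (X : Matrix n n ℂ) : ℝ := X.trace.re

omit [DecidableEq n] in
lemma ip_comm (X Y : Matrix n n ℂ) : ip X Y = ip Y X := by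
  unfold ip; rw [trace_mul_comm]

omit [DecidableEq n] in
lemma ip_add_left (X X' Y : Matrix n n ℂ) : ip (X + X') Y = ip X Y + ip X' Y := by
  unfold ip; rw [Matrix.add_mul, trace_add, Complex.add_re]

omit [DecidableEq n] in
lemma ip_add_right (X Y Y' : Matrix n n ℂ) : ip X (Y + Y') = ip X Y + ip X Y' := by
  unfold ip; rw [Matrix.mul_add, trace_add, Complex.add_re]

omit [DecidableEq n] in
lemma ip_sub_left (X X' Y : Matrix n n ℂ) : ip (X - X') Y = ip X Y - ip X' Y := by
  unfold ip; rw [Matrix.sub_mul, trace_sub, Complex.sub_re]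

omit [DecidableEq n] in
lemma ip_sub_right (X Y Y' : Matrix n n ℂ) : ip X (Y - Y') = ip X Y - ip X Y' := by
  unfold ip; rw [Matrix.mul_sub, trace_sub, Complex.sub_re]

omit [DecidableEq n] in
lemma ip_smul_right (c : ℝ) (X Y : Matrix n n ℂ) : ip X ((c : ℂ) • Y) = c * ip X Y := by
  unfold ip; rw [Matrix.mul_smul, trace_smul, smul_eq_mul, Complex.re_ofReal_mul]

omit [DecidableEq n] in
lemma ip_smul_left (c : ℝ) (X Y : Matrix n n ℂ) : ip ((c : ℂ) • X) Y = c * ip X Y := by
  rw [ip_comm, ip_smul_right, ip_comm]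

lemma ip_one_right (X : Matrix n n ℂ) : ip X 1 = tr X := by
  unfold ip tr; rw [Matrix.mul_one]

omit [DecidableEq n] in
lemma ip_sum_right {ι : Type*} (s : Finset ι) (X : Matrix n n ℂ) (Y : ι → Matrix n n ℂ) :
    ip X (∑ j ∈ s, Y j) = ∑ j ∈ s, ip X (Y j) := by
  unfold ip; rw [Matrix.mul_sum, trace_sum, Complex.re_sum]

omit [DecidableEq n] in
lemma tr_add (X Y : Matrix n n ℂ) : tr (X + Y) = tr X + tr Y := by
  unfold tr; rw [trace_add, Complex.add_re]

omit [DecidableEq n] in
lemma tr_sub (X Y : Matrix n n ℂ) : tr (X - Y) = tr X - tr Y := by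
  unfold tr; rw [trace_sub, Complex.sub_re]

omit [DecidableEq n] in
lemma tr_nonneg {X : Matrix n n ℂ} (hX : X.PosSemidef) : 0 ≤ tr X := by
  have := hX.trace_nonneg
  exact (Complex.nonneg_iff.mp this).1

/-- Conjugated real diagonal matrix. -/
noncomputable def dg (U : Matrix n n ℂ) (f : n → ℝ) : Matrix n n ℂ :=
  U * diagonal (fun i => (f i : ℂ)) * Uᴴ

lemma exists_dg {A : Matrix n n ℂ} (hA : A.IsHermitian) :
    ∃ (U : Matrix n n ℂ) (f : n → ℝ), Uᴴ * U = 1 ∧ U * Uᴴ = 1 ∧ A = dg U f := by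
  refine ⟨hA.eigenvectorUnitary, hA.eigenvalues, ?_, ?_, ?_⟩
  · exact Unitary.coe_star_mul_self hA.eigenvectorUnitary
  · exact Unitary.coe_mul_star_self hA.eigenvectorUnitary
  · have := hA.spectral_theorem
    rw [Unitary.conjStarAlgAut_apply] at this
    exact this

lemma dg_mul {U : Matrix n n ℂ} (hU : Uᴴ * U = 1) (f g : n → ℝ) :
    dg U f * dg U g = dg U (fun i => f i * g i) := by
  unfold dg
  have : U * diagonal (fun i => (f i : ℂ)) * Uᴴ * (U * diagonal (fun i => (g i : ℂ)) * Uᴴ)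
      = U * (diagonal (fun i => (f i : ℂ)) * (Uᴴ * U) * diagonal (fun i => (g i : ℂ))) * Uᴴ := by
    simp only [Matrix.mul_assoc]
  rw [this, hU, Matrix.mul_one, diagonal_mul_diagonal]
  simp

lemma dg_add (U : Matrix n n ℂ) (f g : n → ℝ) :
    dg U f + dg U g = dg U (fun i => f i + g i) := by
  unfold dg
  rw [← Matrix.add_mul, ← Matrix.mul_add, diagonal_add]
  simp

lemma dg_sub (U : Matrix n n ℂ) (f g : n → ℝ) :
    dg U f - dg U g = dg U (fun i => f i - g i) := by
  unfold dg
  rw [← Matrix.sub_mul, ← Matrix.mul_sub, diagonal_sub]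
  simp

lemma dg_const {U : Matrix n n ℂ} (hU : U * Uᴴ = 1) (c : ℝ) :
    dg U (fun _ => c) = (c : ℂ) • (1 : Matrix n n ℂ) := by
  unfold dg
  have : diagonal (fun _ : n => (c : ℂ)) = (c : ℂ) • (1 : Matrix n n ℂ) := by
    rw [← diagonal_one, ← diagonal_smul]; congr 1; ext i; simp
  rw [this, Matrix.mul_smul, Matrix.mul_one, Matrix.smul_mul, hU]

lemma dg_psd (U : Matrix n n ℂ) {f : n → ℝ} (hf : ∀ i, 0 ≤ f i) : (dg U f).PosSemidef := by
  unfold dg
  apply PosSemidef.mul_mul_conjTranspose_same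
  apply PosSemidef.diagonal
  intro i
  exact Complex.zero_le_real.mpr (hf i)

lemma dg_herm (U : Matrix n n ℂ) (f : n → ℝ) : (dg U f).IsHermitian := by
  have h1 := (dg_psd U (f := fun i => max (f i) 0) (fun i => le_max_right _ _)).isHermitian
  have h2 := (dg_psd U (f := fun i => max (-f i) 0) (fun i => le_max_right _ _)).isHermitian
  have := h1.sub h2
  rw [dg_sub] at this
  convert this using 2
  ext i
  rcases le_total (f i) 0 with h | h
  · rw [max_eq_right h, max_eq_left (by linarith)]; ring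
  · rw [max_eq_left h, max_eq_right (by linarith)]; ring

lemma tr_dg {U : Matrix n n ℂ} (hU : Uᴴ * U = 1) (f : n → ℝ) : tr (dg U f) = ∑ i, f i := by
  unfold tr dg
  rw [trace_mul_cycle, hU, Matrix.one_mul, trace_diagonal, Complex.re_sum]
  simp

lemma nonneg_of_dg_psd {U : Matrix n n ℂ} (hU : Uᴴ * U = 1) {f : n → ℝ}
    (h : (dg U f).PosSemidef) (i : n) : 0 ≤ f i := by
  have h1 := h.conjTranspose_mul_mul_same U
  have : Uᴴ * dg U f * U = diagonal (fun i => (f i : ℂ)) := by
    unfold dg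
    have : Uᴴ * (U * diagonal (fun i => (f i : ℂ)) * Uᴴ) * U
      = (Uᴴ * U) * diagonal (fun i => (f i : ℂ)) * (Uᴴ * U) := by simp only [Matrix.mul_assoc]
    rw [this, hU, Matrix.one_mul, Matrix.mul_one]
  rw [this, posSemidef_diagonal_iff] at h1
  exact Complex.zero_le_real.mp (h1 i)

lemma exists_sqrt {X : Matrix n n ℂ} (hX : X.PosSemidef) :
    ∃ R : Matrix n n ℂ, X = Rᴴ * R := by
  obtain ⟨U, f, hU, -, rfl⟩ := exists_dg hX.isHermitian
  have hf := nonneg_of_dg_psd hU hX
  refine ⟨dg U (fun i => Real.sqrt (f i)), ?_⟩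
  rw [(dg_herm U _).eq, dg_mul hU]
  congr 1
  ext i
  exact (Real.mul_self_sqrt (hf i)).symm

lemma ip_nonneg {X Y : Matrix n n ℂ} (hX : X.PosSemidef) (hY : Y.PosSemidef) : 0 ≤ ip X Y := by
  obtain ⟨R, rfl⟩ := exists_sqrt hX
  have h := tr_nonneg (hY.mul_mul_conjTranspose_same R)
  unfold ip; unfold tr at h
  rwa [Matrix.mul_assoc, trace_mul_comm]

lemma ip_le_of_le {X Y : Matrix n n ℂ} {c : ℝ} (hX : X.PosSemidef)
    (hY : ((c : ℂ) • (1 : Matrix n n ℂ) - Y).PosSemidef) : ip X Y ≤ c * tr X := by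
  have := ip_nonneg hX hY
  rw [ip_sub_right, ip_smul_right, ip_one_right] at this
  linarith

omit [DecidableEq n] in
lemma ip_self_nonneg {X : Matrix n n ℂ} (hX : X.IsHermitian) : 0 ≤ ip X X := by
  have h := tr_nonneg (posSemidef_conjTranspose_mul_self X)
  rw [hX.eq] at h
  exact h

omit [DecidableEq n] in
lemma two_ip_le {X Y : Matrix n n ℂ} (hX : X.IsHermitian) (hY : Y.IsHermitian) :
    2 * ip X Y ≤ ip X X + ip Y Y := by
  have := ip_self_nonneg (hX.sub hY)
  rw [ip_sub_left, ip_sub_right, ip_sub_right, ip_comm Y X] at this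
  linarith

/-- Inertia bound: if `dg U f ≤ ∑ u_j u_j^*` then at most `card J` of the `f i` are positive. -/
lemma card_pos_le {U : Matrix n n ℂ} (hU : Uᴴ * U = 1) {f : n → ℝ} {J : Type*} [Fintype J]
    (u : J → n → ℂ) (h : (∑ j, vecMulVec (u j) (star (u j)) - dg U f).PosSemidef) :
    (univ.filter (fun i => 0 < f i)).card ≤ Fintype.card J := by
  classical
  set S := {i // 0 < f i}
  let ext : (S → ℂ) →ₗ[ℂ] (n → ℂ) :=
    { toFun := fun α i => if hi : 0 < f i then α ⟨i, hi⟩ else 0
      map_add' := by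
        intro α β; ext i; by_cases hi : 0 < f i <;> simp [hi]
      map_smul' := by
        intro c α; ext i; by_cases hi : 0 < f i <;> simp [hi] }
  let W : Matrix J n ℂ := Matrix.of (fun j => star (u j))
  let L : (S → ℂ) →ₗ[ℂ] (J → ℂ) := (Matrix.mulVecLin (W * U)).comp ext
  have hinj : Function.Injective L := by
    rw [← LinearMap.ker_eq_bot, LinearMap.ker_eq_bot']
    intro α hα
    set β := ext α with hβ
    have hW : W *ᵥ (U *ᵥ β) = 0 := by
      rw [mulVec_mulVec]; exact hα
    have h1 := h.dotProduct_mulVec_nonneg (U *ᵥ β)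
    have h2 : (∑ j, vecMulVec (u j) (star (u j))) *ᵥ (U *ᵥ β) = 0 := by
      rw [Matrix.sum_mulVec]
      apply Finset.sum_eq_zero
      intro j _
      have : star (u j) ⬝ᵥ (U *ᵥ β) = 0 := congrFun hW j
      rw [vecMulVec_mulVec, this]; simp
    have h3 : star (U *ᵥ β) ⬝ᵥ (dg U f *ᵥ (U *ᵥ β)) = ((∑ i, f i * ‖β i‖ ^ 2 : ℝ) : ℂ) := by
      unfold dg
      rw [star_mulVec, mulVec_mulVec, dotProduct_mulVec, vecMul_vecMul, ← dotProduct_mulVec]
      have : Uᴴ * (U * diagonal (fun i => (f i : ℂ)) * Uᴴ * U)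
        = (Uᴴ * U) * diagonal (fun i => (f i : ℂ)) * (Uᴴ * U) := by simp only [Matrix.mul_assoc]
      rw [this, hU, Matrix.one_mul, Matrix.mul_one]
      simp only [dotProduct, mulVec_diagonal, Pi.star_apply, Complex.ofReal_sum]
      refine Finset.sum_congr rfl fun i _ => ?_
      rw [Complex.ofReal_mul, Complex.ofReal_pow, ← Complex.conj_mul']
      simp only [RCLike.star_def]; ring
    rw [sub_mulVec, h2, zero_sub, dotProduct_neg, h3, ← Complex.ofReal_neg,
      Complex.zero_le_real] at h1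
    have hterm : ∀ i ∈ (univ : Finset n), 0 ≤ f i * ‖β i‖ ^ 2 := by
      intro i _
      by_cases hi : 0 < f i
      · positivity
      · have : β i = 0 := by simp [hβ, ext, hi]
        simp [this]
    have h4 : ∑ i, f i * ‖β i‖ ^ 2 = 0 := le_antisymm (by linarith) (Finset.sum_nonneg hterm)
    rw [Finset.sum_eq_zero_iff_of_nonneg hterm] at h4
    ext ⟨i, hi⟩
    have h5 := h4 i (mem_univ i)
    have h6 : β i = α ⟨i, hi⟩ := by simp [hβ, ext, hi]
    rw [h6] at h5
    have : ‖α ⟨i, hi⟩‖ ^ 2 = 0 := by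
      rcases mul_eq_zero.mp h5 with h | h
      · exact absurd h hi.ne'
      · exact h
    simpa using this
  have := LinearMap.finrank_le_finrank_of_injective hinj
  simp only [Module.finrank_fintype_fun_eq_card] at this
  rwa [Fintype.card_subtype] at this

/-- Decomposition of a Hermitian matrix dominated by `card J` rank-one terms. -/
lemma exists_pos_neg {Q : Matrix n n ℂ} (hQ : Q.IsHermitian) {J : Type*} [Fintype J]
    (u : J → n → ℂ) (h : (∑ j, vecMulVec (u j) (star (u j)) - Q).PosSemidef) :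
    ∃ Qp Qm Pr : Matrix n n ℂ, Qp.PosSemidef ∧ Qm.PosSemidef ∧ Pr.PosSemidef ∧ Q = Qp - Qm ∧
      ip Q Pr = tr Qp ∧ ip Pr Pr ≤ Fintype.card J := by
  obtain ⟨U, f, hU, -, rfl⟩ := exists_dg hQ
  refine ⟨dg U (fun i => max (f i) 0), dg U (fun i => max (-f i) 0),
    dg U (fun i => if 0 < f i then 1 else 0), dg_psd U fun i => le_max_right _ _,
    dg_psd U fun i => le_max_right _ _, dg_psd U fun i => by split_ifs <;> norm_num, ?_, ?_, ?_⟩
  · rw [dg_sub]; congr 1; ext i
    rcases le_total (f i) 0 with h | h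
    · rw [max_eq_right h, max_eq_left (by linarith)]; ring
    · rw [max_eq_left h, max_eq_right (by linarith)]; ring
  · unfold ip; rw [dg_mul hU]
    change tr _ = _
    congr 2; ext i
    split_ifs with hi
    · rw [max_eq_left hi.le, mul_one]
    · rw [max_eq_right (not_lt.mp hi), mul_zero]
  · unfold ip; rw [dg_mul hU]
    change tr _ ≤ _
    rw [tr_dg hU]
    have := card_pos_le hU u h
    have h2 : ∑ i, (if 0 < f i then (1 : ℝ) else 0) * (if 0 < f i then 1 else 0)
        = ((univ.filter (fun i => 0 < f i)).card : ℝ) := by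
      rw [Finset.card_filter]; push_cast
      refine Finset.sum_congr rfl fun i _ => ?_
      split_ifs <;> simp
    rw [h2]; exact_mod_cast this

/-- Spectral truncation of `V Vᴴ` at level `σ` and the bound for the loss. -/
lemma exists_trunc {r : Type*} [Fintype r] [DecidableEq r] (V : Matrix n r ℂ)
    (E : Matrix r r ℂ) (hE : E.IsHermitian) {σ : ℝ} (hσ : 0 < σ)
    (h : ((σ : ℂ) • (1 : Matrix r r ℂ) + E - Vᴴ * V).PosSemidef) :
    ∃ Y X : Matrix n n ℂ, Y.PosSemidef ∧ X.PosSemidef ∧ V * Vᴴ = Y + X ∧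
      ((σ : ℂ) • (1 : Matrix n n ℂ) - Y).PosSemidef ∧ ip X X ≤ ip E E := by
  have hP := posSemidef_self_mul_conjTranspose V
  obtain ⟨U, f, hU, hU', hf⟩ := exists_dg hP.isHermitian
  have hf0 := nonneg_of_dg_psd hU (hf ▸ hP)
  set X := dg U (fun i => max (f i - σ) 0) with hX
  refine ⟨dg U (fun i => min (f i) σ), X, dg_psd U fun i => le_min (hf0 i) hσ.le,
    dg_psd U fun i => le_max_right _ _, ?_, ?_, ?_⟩
  · rw [hf, hX, dg_add]; congr 1; ext i
    rcases le_total (f i) σ with h | h
    · rw [min_eq_left h, max_eq_right (by linarith)]; ring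
    · rw [min_eq_right h, max_eq_left (by linarith)]; ring
  · rw [← dg_const hU', dg_sub]
    exact dg_psd U fun i => sub_nonneg.mpr (min_le_right _ _)
  · set g := dg U (fun i => max (f i - σ) 0 / f i) with hg
    have hgP : g * (V * Vᴴ) = X := by
      rw [hf, hg, dg_mul hU, hX]; congr 1; ext i
      rcases le_total (f i) σ with h | h
      · rw [max_eq_right (by linarith)]; simp
      · have : f i ≠ 0 := by linarith [hσ] |> fun h' : 0 < f i => h'.ne'
        field_simp
    have hgpsd : g.PosSemidef :=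
      dg_psd U fun i => div_nonneg (le_max_right _ _) (hf0 i)
    set Xt := Vᴴ * g * V with hXt
    have hXtpsd : Xt.PosSemidef := hgpsd.conjTranspose_mul_mul_same V
    have h1 : tr Xt = tr X := by
      unfold tr; rw [hXt, trace_mul_cycle, trace_mul_comm, hgP]
    have h2 : ip Xt Xt = ip X X := by
      unfold ip
      have : Xt * Xt = Vᴴ * (g * (V * Vᴴ) * g * V) := by rw [hXt]; simp only [Matrix.mul_assoc]
      rw [this, trace_mul_comm]
      have : g * (V * Vᴴ) * g * V * Vᴴ = (g * (V * Vᴴ)) * (g * (V * Vᴴ)) := by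
        simp only [Matrix.mul_assoc]
      rw [this, hgP]
    have h3 : ip Xt (Vᴴ * V) = ip X (V * Vᴴ) := by
      unfold ip
      have : Xt * (Vᴴ * V) = Vᴴ * (g * (V * Vᴴ) * V) := by rw [hXt]; simp only [Matrix.mul_assoc]
      rw [this, trace_mul_comm, hgP, Matrix.mul_assoc]
    have h4 : ip X (V * Vᴴ) = ip X X + σ * tr X := by
      have : X * (V * Vᴴ) = X * X + (σ : ℂ) • X := by
        have e1 : (σ : ℂ) • X = X * dg U (fun _ => σ) := by
          rw [dg_const hU', Matrix.mul_smul, Matrix.mul_one]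
        rw [e1, hf, hX, dg_mul hU, dg_mul hU, dg_mul hU, dg_add]; congr 1; ext i
        rcases le_total (f i) σ with h | h
        · rw [max_eq_right (by linarith)]; simp
        · rw [max_eq_left (by linarith)]; ring
      unfold ip tr
      rw [this, trace_add, trace_smul, Complex.add_re, smul_eq_mul, Complex.re_ofReal_mul]
    have h5 := ip_nonneg hXtpsd h
    rw [ip_sub_right, ip_add_right, ip_smul_right, ip_one_right, h1, h3, h4] at h5
    have h6 := two_ip_le hXtpsd.isHermitian hE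
    rw [h2] at h6
    linarith

end Pool.Agent.MP_f259ea_nt.B
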