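import Pool.Agent.MP_f259ea_nt.B_Cell
import Pool.Agent.MP_f259ea_nt.B_Mat

/-!
Part B, combinatorial lemmas: sparse configurations, lag sums, conjugation splitting,
rank-one extraction.
-/

set_option autoImplicit false

open Finset Complex Matrix
open scoped Real ComplexConjugate ComplexOrder

namespace Pool.Agent.MP_f259ea_nt.B

/-- No cluster pattern implies the row-sum bound. -/
lemma row_le_two (R : Finset ℂ) (hR : ∀ z ∈ R, z.im = 0) (m : ℂ → ℕ) (hm : ∀ z ∈ R, 1 ≤ m z)
    {l : ℝ} (hl : 0 < l) (h3 : ∀ z ∈ R, m z ≤ 2)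
    (h2 : ∀ z ∈ R, ∀ w ∈ R, z ≠ w → |z.re - w.re| ≤ l → m z ≠ 2)
    (h111 : ∀ z ∈ R, ∀ w ∈ R, ∀ y ∈ R, z ≠ w → z ≠ y → w ≠ y → |z.re - w.re| ≤ l →
      |z.re - y.re| ≤ l → |w.re - y.re| ≤ l → False)
    (z : ℂ) (hz : z ∈ R) : ∑ w ∈ R, (m w : ℝ) * tent ((z.re - w.re) / l) ≤ 2 := by
  classical
  set g : ℂ → ℝ := fun w => (m w : ℝ) * tent ((z.re - w.re) / l) with hg
  set L := R.filter (fun w => w.re < z.re ∧ z.re - w.re < l) with hL
  set U := R.filter (fun w => z.re < w.re ∧ w.re - z.re < l) with hU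
  have hinj : ∀ w ∈ R, ∀ y ∈ R, w.re = y.re → w = y := fun w hw y hy h =>
    Complex.ext h (by rw [hR w hw, hR y hy])
  have hsum : ∑ w ∈ R, g w = g z + (∑ w ∈ L, g w + ∑ w ∈ U, g w) := by
    have hdisj : Disjoint L U := by
      rw [Finset.disjoint_left]
      intro w h1 h2
      have := (mem_filter.mp h1).2.1
      have := (mem_filter.mp h2).2.1
      linarith
    have hzn : z ∉ L ∪ U := by
      rw [mem_union, hL, hU, mem_filter, mem_filter]
      rintro (h | h) <;> exact lt_irrefl _ h.2.1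
    rw [← Finset.sum_union hdisj, ← Finset.sum_insert hzn]
    symm
    apply Finset.sum_subset
    · intro w hw
      rcases mem_insert.mp hw with rfl | hw
      · exact hz
      · rcases mem_union.mp hw with h | h <;> exact (mem_filter.mp h).1
    · intro w hw hn
      rw [mem_insert, mem_union, hL, hU, mem_filter, mem_filter] at hn
      push Not at hn
      have hne : w.re ≠ z.re := fun h => hn.1 (hinj w hw z hz h)
      have : 1 ≤ |(z.re - w.re) / l| := by
        rw [abs_div, abs_of_pos hl, le_div_iff₀ hl, one_mul]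
        rcases lt_or_gt_of_ne hne with h | h
        · have := hn.2.1 hw h
          rw [abs_of_pos (by linarith)]; linarith
        · have := hn.2.2 hw h
          rw [abs_of_neg (by linarith)]; linarith
      simp only [hg, tent_eq_zero this, mul_zero]
  have hgz : g z = m z := by simp [hg, tent]
  have hLp : ∀ w ∈ L, w ∈ R ∧ z ≠ w ∧ |z.re - w.re| ≤ l ∧ w.re < z.re ∧ z.re - w.re < l := by
    intro w hw
    obtain ⟨h1, h2, h3⟩ := mem_filter.mp hw
    refine ⟨h1, fun h => by rw [h] at h2; exact lt_irrefl _ h2, ?_, h2, h3⟩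
    rw [abs_of_pos (by linarith)]; exact h3.le
  have hUp : ∀ w ∈ U, w ∈ R ∧ z ≠ w ∧ |z.re - w.re| ≤ l ∧ z.re < w.re ∧ w.re - z.re < l := by
    intro w hw
    obtain ⟨h1, h2, h3⟩ := mem_filter.mp hw
    refine ⟨h1, fun h => by rw [h] at h2; exact lt_irrefl _ h2, ?_, h2, h3⟩
    rw [abs_of_neg (by linarith)]; linarith
  have hone : ∀ w ∈ R, z ≠ w → |z.re - w.re| ≤ l → m w = 1 := by
    intro w hw hne hd
    have a1 := h2 w hw z hz hne.symm (by rwa [abs_sub_comm])
    have a2 := h3 w hw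
    have a3 := hm w hw
    omega
  have hgL : ∀ w ∈ L, g w = 1 - (z.re - w.re) / l := by
    intro w hw
    obtain ⟨h1, h2', h3', h4, h5⟩ := hLp w hw
    have a1 : 0 ≤ (z.re - w.re) / l := div_nonneg (by linarith) hl.le
    have a2 : (z.re - w.re) / l ≤ 1 := by rw [div_le_one hl]; exact h5.le
    simp only [hg, hone w h1 h2' h3', Nat.cast_one, one_mul, tent]
    rw [abs_of_nonneg a1, max_eq_left (by linarith)]
  have hgU : ∀ w ∈ U, g w = 1 - (w.re - z.re) / l := by
    intro w hw
    obtain ⟨h1, h2', h3', h4, h5⟩ := hUp w hw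
    have a1 : (z.re - w.re) / l ≤ 0 := div_nonpos_of_nonpos_of_nonneg (by linarith) hl.le
    have a2 : (w.re - z.re) / l ≤ 1 := by rw [div_le_one hl]; exact h5.le
    have a3 : -((z.re - w.re) / l) = (w.re - z.re) / l := by ring
    simp only [hg, hone w h1 h2' h3', Nat.cast_one, one_mul, tent]
    rw [abs_of_nonpos a1, a3, max_eq_left (by linarith)]
  rw [hsum, hgz]
  by_cases hz2 : m z = 2
  · have hLe : L = ∅ := by
      rw [Finset.eq_empty_iff_forall_notMem]
      intro w hw
      obtain ⟨h1, h2', h3', -⟩ := hLp w hw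
      exact h2 z hz w h1 h2' h3' hz2
    have hUe : U = ∅ := by
      rw [Finset.eq_empty_iff_forall_notMem]
      intro w hw
      obtain ⟨h1, h2', h3', -⟩ := hUp w hw
      exact h2 z hz w h1 h2' h3' hz2
    rw [hLe, hUe, hz2]; simp
  · have hz1 : m z = 1 := by
      have := h3 z hz
      have := hm z hz
      omega
    rw [hz1]
    have hLu : ∀ w ∈ L, ∀ y ∈ L, y = w := by
      intro w hw y hy
      by_contra hne
      obtain ⟨a1, a2, a3, a4, a5⟩ := hLp w hw
      obtain ⟨b1, b2, b3, b4, b5⟩ := hLp y hy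
      exact h111 z hz w a1 y b1 a2 b2 (Ne.symm hne) a3 b3 (abs_le.mpr ⟨by linarith, by linarith⟩)
    have hUu : ∀ w ∈ U, ∀ y ∈ U, y = w := by
      intro w hw y hy
      by_contra hne
      obtain ⟨a1, a2, a3, a4, a5⟩ := hUp w hw
      obtain ⟨b1, b2, b3, b4, b5⟩ := hUp y hy
      exact h111 z hz w a1 y b1 a2 b2 (Ne.symm hne) a3 b3 (abs_le.mpr ⟨by linarith, by linarith⟩)
    have : ∑ w ∈ L, g w + ∑ w ∈ U, g w ≤ 1 := by
      rcases L.eq_empty_or_nonempty with hLe | ⟨w, hw⟩
      · rcases U.eq_empty_or_nonempty with hUe | ⟨y, hy⟩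
        · rw [hLe, hUe]; simp
        · have hUs : U = {y} := Finset.eq_singleton_iff_unique_mem.mpr ⟨hy, hUu y hy⟩
          have := hgU y hy
          have a := (hUp y hy).2.2.2.1
          have : 0 ≤ (y.re - z.re) / l := div_nonneg (by linarith) hl.le
          rw [hLe, hUs, sum_empty, sum_singleton]; linarith
      · have hLs : L = {w} := Finset.eq_singleton_iff_unique_mem.mpr ⟨hw, hLu w hw⟩
        have e1 := hgL w hw
        obtain ⟨a1, a2, a3, a4, a5⟩ := hLp w hw
        rcases U.eq_empty_or_nonempty with hUe | ⟨y, hy⟩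
        · have : 0 ≤ (z.re - w.re) / l := div_nonneg (by linarith) hl.le
          rw [hLs, hUe, sum_empty, sum_singleton]; linarith
        · have hUs : U = {y} := Finset.eq_singleton_iff_unique_mem.mpr ⟨hy, hUu y hy⟩
          have e2 := hgU y hy
          obtain ⟨b1, b2, b3, b4, b5⟩ := hUp y hy
          have hwy : w ≠ y := fun h => by rw [h] at a4; linarith
          have hfar : l < y.re - w.re := by
            by_contra hc
            exact h111 z hz w a1 y b1 a2 b2 hwy a3 b3
              (abs_le.mpr ⟨by linarith, by linarith⟩)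
          have : 1 ≤ (z.re - w.re) / l + (y.re - z.re) / l := by
            rw [← add_div, le_div_iff₀ hl]; linarith
          rw [hLs, hUs, sum_singleton, sum_singleton]; linarith
    push_cast; linarith

lemma sum_tri (n : ℕ) (G : ℕ → ℕ → ℝ) :
    ∑ i ∈ range n, ∑ i' ∈ range n, (if i' ≤ i then G i i' else 0)
      = ∑ r ∈ range n, ∑ i ∈ range (n - r), G (i + r) i := by
  rw [← Finset.sum_product', ← Finset.sum_filter, Finset.sum_sigma']
  refine Finset.sum_bij' (fun p _ => ⟨p.1 - p.2, p.2⟩) (fun q _ => (q.2 + q.1, q.2)) ?_ ?_ ?_ ?_ ?_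
  · intro p hp
    simp only [mem_filter, mem_product, mem_range, mem_sigma] at hp ⊢
    omega
  · intro q hq
    simp only [mem_filter, mem_product, mem_range, mem_sigma] at hq ⊢
    omega
  · intro p hp
    simp only [mem_filter, mem_product, mem_range] at hp
    ext <;> simp only []
    omega
  · intro q _
    ext <;> simp
  · intro p hp
    simp only [mem_filter, mem_product, mem_range] at hp
    have : p.2 + (p.1 - p.2) = p.1 := by omega
    simp only [this]

lemma lag_nonneg (n : ℕ) (W : ℕ → ℕ → ℝ) (hW : ∀ i i', W i i' = W i' i)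
    (hlag : ∀ r < n, 0 ≤ ∑ i ∈ range (n - r), W (i + r) i) (A : ℝ → ℝ) (hA : ∀ x, 0 ≤ A x) :
    0 ≤ ∑ i ∈ range n, ∑ i' ∈ range n, W i i' * A ((i : ℝ) - i') := by
  have e : ∀ i i' : ℕ, W i i' * A ((i : ℝ) - i')
      = (if i' ≤ i then W i i' * A ((i : ℝ) - i') else 0)
        + (if i ≤ i' then (if i = i' then 0 else W i' i * A ((i : ℝ) - i')) else 0) := by
    intro i i'
    rcases lt_trichotomy i i' with h | h | h
    · rw [if_neg (by omega), if_pos h.le, if_neg h.ne, zero_add, hW]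
    · rw [if_pos h.ge, if_pos h.le, if_pos h, add_zero]
    · rw [if_pos h.le, if_neg (by omega), add_zero]
  rw [Finset.sum_congr rfl fun i _ => Finset.sum_congr rfl fun i' _ => e i i']
  simp only [Finset.sum_add_distrib]
  rw [sum_tri n (fun i i' => W i i' * A ((i : ℝ) - i')), Finset.sum_comm (s := range n) (t := range n)
    (f := fun i i' => if i ≤ i' then (if i = i' then 0 else W i' i * A ((i : ℝ) - i')) else 0),
    sum_tri n (fun i' i => if i = i' then 0 else W i' i * A ((i : ℝ) - i'))]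
  refine add_nonneg (Finset.sum_nonneg fun r hr => ?_) (Finset.sum_nonneg fun r hr => ?_)
  · have : ∀ i : ℕ, (((i + r : ℕ) : ℝ) - i) = r := fun i => by push_cast; ring
    simp only [this]
    rw [← Finset.sum_mul]
    exact mul_nonneg (hlag r (mem_range.mp hr)) (hA _)
  · have : ∀ i : ℕ, ((i : ℝ) - ((i + r : ℕ) : ℝ)) = -r := fun i => by push_cast; ring
    simp only [this]
    rcases Nat.eq_zero_or_pos r with rfl | h
    · simp
    · have : ∀ i : ℕ, i ≠ i + r := fun i => by omega
      simp only [this, if_false]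
      rw [← Finset.sum_mul]
      exact mul_nonneg (hlag r (mem_range.mp hr)) (hA _)

lemma sum_conj {M : Type*} [AddCommMonoid M] {A : Finset ℂ} (hA : ∀ z ∈ A, conj z ∈ A)
    (F : ℂ → M) : ∑ z ∈ A, F (conj z) = ∑ z ∈ A, F z :=
  Finset.sum_bij' (fun z _ => conj z) (fun z _ => conj z) (fun z hz => hA z hz)
    (fun z hz => hA z hz) (fun z _ => by simp) (fun z _ => by simp) (fun _ _ => rfl)

lemma sum_split {M : Type*} [AddCommMonoid M] {A : Finset ℂ} (hA : ∀ z ∈ A, conj z ∈ A)
    (F : ℂ → M) : ∑ z ∈ A, F z = ∑ z ∈ A.filter (fun z => z.im = 0), F z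
      + ∑ z ∈ A.filter (fun z => 0 < z.im), (F z + F (conj z)) := by
  classical
  rw [Finset.sum_add_distrib, ← Finset.sum_filter_add_sum_filter_not A (fun z => z.im = 0),
    ← Finset.sum_filter_add_sum_filter_not (A.filter fun z => ¬ z.im = 0) (fun z => 0 < z.im),
    Finset.filter_filter, Finset.filter_filter]
  congr 2
  · congr 1
    refine Finset.filter_congr fun z _ => ⟨fun h => h.2, fun h => ⟨h.ne', h⟩⟩
  · refine Finset.sum_bij' (fun z _ => conj z) (fun z _ => conj z) ?_ ?_ (fun z _ => by simp)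
      (fun z _ => by simp) (fun z _ => by simp)
    · intro z hz
      rw [mem_filter] at hz ⊢
      refine ⟨hA z hz.1, ?_⟩
      rw [Complex.conj_im]
      rcases lt_trichotomy z.im 0 with h | h | h
      · linarith
      · exact absurd h hz.2.1
      · exact absurd h hz.2.2
    · intro z hz
      rw [mem_filter] at hz ⊢
      refine ⟨hA z hz.1, ?_⟩
      rw [Complex.conj_im]
      constructor <;> intro h <;> linarith [hz.2]

variable {n : Type*} [Fintype n]

/-- The rank-one matrix `x yᴴ`. -/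
noncomputable def rk (x y : n → ℂ) : Matrix n n ℂ := vecMulVec x (star y)

lemma rk_psd (x : n → ℂ) : (rk x x).PosSemidef := posSemidef_vecMulVec_self_star x

omit [Fintype n] in
lemma rk_apply (x y : n → ℂ) (a b : n) : rk x y a b = x a * conj (y b) := rfl

lemma trace_rk (x y : n → ℂ) : (rk x y).trace = star y ⬝ᵥ x := by
  unfold rk; rw [trace_vecMulVec, dotProduct_comm]

omit [Fintype n] in
lemma rk_conjTranspose (x y : n → ℂ) : (rk x y)ᴴ = rk y x := by
  ext a b; simp [rk_apply, mul_comm]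

/-- Rank-one extraction (Cauchy–Schwarz). -/
lemma exists_rank_one (C : Finset ℂ) (v : ℂ → n → ℂ) (m ξ : ℂ → ℝ) (hm : ∀ z ∈ C, 0 ≤ m z)
    (hW : 0 < ∑ z ∈ C, m z * ξ z ^ 2) :
    ∃ u : n → ℂ, (∑ z ∈ C, (m z : ℂ) • rk (v z) (v z) - rk u u).PosSemidef ∧
      (∑ z ∈ C, m z * ξ z ^ 2) * tr (rk u u)
        = ∑ z ∈ C, ∑ w ∈ C, m z * ξ z * (m w * ξ w) * (star (v z) ⬝ᵥ v w).re := by
  set W := ∑ z ∈ C, m z * ξ z ^ 2 with hWdef
  set s : n → ℂ := ∑ z ∈ C, ((m z * ξ z : ℝ) : ℂ) • v z with hs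
  set y : n → ℂ := ((W⁻¹ : ℝ) : ℂ) • s with hy
  have hsq : ((Real.sqrt W : ℝ) : ℂ) * (Real.sqrt W : ℝ) = (W : ℝ) := by
    rw [← Complex.ofReal_mul, Real.mul_self_sqrt hW.le]
  have hW0 : (W : ℂ) ≠ 0 := by exact_mod_cast hW.ne'
  have huu : rk (((Real.sqrt W : ℝ) : ℂ) • y) (((Real.sqrt W : ℝ) : ℂ) • y)
      = ((W⁻¹ : ℝ) : ℂ) • rk s s := by
    ext a b
    simp only [rk_apply, hy, Pi.smul_apply, smul_eq_mul, map_mul, Complex.conj_ofReal,
      Matrix.smul_apply, Complex.ofReal_inv, map_inv₀]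
    have : (↑(Real.sqrt W) : ℂ) * ((W : ℂ)⁻¹ * s a) * (↑(Real.sqrt W) * ((W : ℂ)⁻¹ * conj (s b)))
      = ((↑(Real.sqrt W) : ℂ) * ↑(Real.sqrt W)) * (W : ℂ)⁻¹ * (W : ℂ)⁻¹ * (s a * conj (s b)) := by
      ring
    rw [this, hsq]; field_simp
  refine ⟨((Real.sqrt W : ℝ) : ℂ) • y, ?_, ?_⟩
  · have h1 : (∑ z ∈ C, (m z : ℂ) • rk (v z - (ξ z : ℂ) • y) (v z - (ξ z : ℂ) • y)).PosSemidef :=
      posSemidef_sum _ fun z hz => (rk_psd _).smul (Complex.zero_le_real.mpr (hm z hz))
    convert h1 using 1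
    rw [huu]
    ext a b
    have hsa : ∀ a, s a = ∑ z ∈ C, ((m z : ℂ) * ξ z) * v z a := by
      intro a; rw [hs, Finset.sum_apply]; simp
    have hWc : (W : ℂ) = ∑ z ∈ C, (m z : ℂ) * (ξ z : ℂ) ^ 2 := by
      rw [hWdef]; push_cast; rfl
    have hsb : conj (s b) = ∑ z ∈ C, ((m z : ℂ) * ξ z) * conj (v z b) := by
      rw [hsa, map_sum]; simp
    simp only [Matrix.sub_apply, Matrix.sum_apply, Matrix.smul_apply, rk_apply, smul_eq_mul,
      Pi.sub_apply, Pi.smul_apply, map_sub, map_mul, Complex.conj_ofReal]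
    have : ∀ z ∈ C, (m z : ℂ) * ((v z a - ξ z * y a) * (conj (v z b) - ξ z * conj (y b)))
        = (m z : ℂ) * (v z a * conj (v z b)) - conj (y b) * (((m z : ℂ) * ξ z) * v z a)
          - y a * (((m z : ℂ) * ξ z) * conj (v z b))
          + y a * conj (y b) * ((m z : ℂ) * (ξ z : ℂ) ^ 2) := fun z _ => by ring
    rw [Finset.sum_congr rfl this, Finset.sum_add_distrib, Finset.sum_sub_distrib,
      Finset.sum_sub_distrib, ← Finset.mul_sum, ← Finset.mul_sum, ← Finset.mul_sum, ← hsa, ← hsb,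
      ← hWc]
    simp only [hy, Pi.smul_apply, smul_eq_mul, map_mul, Complex.conj_ofReal, Complex.ofReal_inv,
      map_inv₀]
    field_simp
    ring
  · rw [huu]
    unfold tr
    rw [trace_smul, smul_eq_mul, Complex.re_ofReal_mul, ← mul_assoc, mul_inv_cancel₀ hW.ne',
      one_mul, trace_rk, hs, star_sum, sum_dotProduct, Complex.re_sum]
    refine Finset.sum_congr rfl fun z _ => ?_
    rw [dotProduct_sum, Complex.re_sum]
    refine Finset.sum_congr rfl fun w _ => ?_
    rw [star_smul, smul_dotProduct, dotProduct_smul, smul_eq_mul, smul_eq_mul, RCLike.star_def,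
      Complex.conj_ofReal, ← mul_assoc, ← Complex.ofReal_mul, Complex.re_ofReal_mul]

/-- A conjugate pair is dominated by one rank-one matrix. -/
lemma pair_le (c : ℂ) (x y : n → ℂ) :
    (rk (c • x + y) (c • x + y) - (c • rk x y + conj c • rk y x)).PosSemidef := by
  have h := (rk_psd (c • x)).add (rk_psd y)
  convert h using 1
  ext a b
  simp only [Matrix.sub_apply, Matrix.add_apply, Matrix.smul_apply, rk_apply, smul_eq_mul,
    Pi.add_apply, Pi.smul_apply, map_add, map_mul]
  ring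

omit [Fintype n] in
lemma pair_herm (c : ℂ) (x y : n → ℂ) : (c • rk x y + conj c • rk y x).IsHermitian := by
  unfold Matrix.IsHermitian
  rw [conjTranspose_add, conjTranspose_smul, conjTranspose_smul, rk_conjTranspose,
    rk_conjTranspose, add_comm]
  simp

end Pool.Agent.MP_f259ea_nt.B
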