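import Pool.Agent.MP_f259ea_nt.Defs

/-!
Data and side conditions for part B.  All side conditions are finite (rational) inequalities.

Cells: `n` cells of width `D = 1 / M`, cell `i` is `[node i, node (i+1)]`, centred at `0`.
-/

set_option autoImplicit false

open Finset

namespace Pool.Agent.MP_f259ea_nt

/-- The tent function `(1 - |x|)₊`. -/
noncomputable def tent (x : ℝ) : ℝ := max (1 - |x|) 0

/-- Step-function data for part B. -/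
structure BData where
  /-- number of cells -/
  n : ℕ
  /-- cells per unit length -/
  M : ℕ
  /-- number of multiplier vectors -/
  J : ℕ
  /-- number of extra minorant vectors -/
  T : ℕ
  /-- the window `ψ` (value on cell `i`) -/
  ψ : ℕ → ℝ
  /-- multiplier vectors `c j` (value on cell `i`) -/
  c : ℕ → ℕ → ℝ
  /-- main minorant vector -/
  h : ℕ → ℝ
  /-- extra minorant vectors -/
  g : ℕ → ℕ → ℝ
  ν : ℝ
  σ : ℝ
  τ : ℝ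
  b : ℝ
  l : ℝ
  kl : ℝ
  s : ℝ

namespace BData

variable (d : BData)

noncomputable def D : ℝ := 1 / (d.M : ℝ)

noncomputable def node (i : ℕ) : ℝ := ((i : ℝ) - (d.n : ℝ) / 2) * d.D

noncomputable def w (i i' : ℕ) : ℝ :=
  d.ψ i * d.ψ i' * (1 - ∑ j ∈ range d.J, d.c j i * d.c j i')

noncomputable def H (i i' : ℕ) : ℝ :=
  d.h i * d.h i' + ∑ t ∈ range d.T, d.g t i * d.g t i'

/-- The kernel: piecewise linear with nodes at multiples of `D`. -/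
noncomputable def K (a : ℝ) : ℝ :=
  ∑ i ∈ range d.n, ∑ i' ∈ range d.n, d.w i i' * (d.D * tent (a / d.D - ((i : ℝ) - (i' : ℝ))))

noncomputable def h0 : ℝ := d.D * ∑ i ∈ range d.n, d.h i

noncomputable def ρ : ℝ := d.h0 ^ 2 + ∑ t ∈ range d.T, (d.D * ∑ i ∈ range d.n, d.g t i) ^ 2

noncomputable def cp : ℝ := 2 * d.τ * (1 - d.ν) - 2 * d.ν * d.σ

noncomputable def t2 : ℝ := (1 - d.ν) * d.τ ^ 2

noncomputable def ε : ℝ := 2 * d.ν * d.σ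

/-- Primitive of the degree-6 Taylor minorant of `cos (2 π l u)` (with `π² ≤ 9.87`). -/
noncomputable def F (u : ℝ) : ℝ :=
  u - (4 * (987 / 100) * d.l ^ 2) * u ^ 3 / 6 + (4 * (987 / 100) * d.l ^ 2) ^ 2 * u ^ 5 / 120
    - (4 * (987 / 100) * d.l ^ 2) ^ 3 * u ^ 7 / 5040

/-- The side conditions. -/
structure Good : Prop where
  M_pos : 0 < d.M
  ψ_nonneg : ∀ i < d.n, 0 ≤ d.ψ i
  ψ_sum : d.D * ∑ i ∈ range d.n, d.ψ i = 1
  supp : ∀ i < d.n, ∀ i' < d.n, i' + d.M ≤ i → d.ψ i * d.ψ i' = 0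
  c_le : ∀ i < d.n, ∑ j ∈ range d.J, d.c j i ^ 2 ≤ d.ν
  lag : ∀ r < d.n, ∑ i ∈ range (d.n - r), d.H (i + r) i ≤ ∑ i ∈ range (d.n - r), d.w (i + r) i
  maj : ∀ i < d.n, d.ψ i - d.h i ≤
    d.b * (max (1 - 987 / 100 * d.l ^ 2 * max (d.node i ^ 2) (d.node (i + 1) ^ 2) / 6) 0) ^ 2
  kl_le : d.kl ≤ ∑ i ∈ range d.n, d.ψ i * (d.F (d.node (i + 1)) - d.F (d.node i))
  ν_nonneg : 0 ≤ d.ν
  ν_le : d.ν ≤ 1
  σ_pos : 0 < d.σ
  τ_nonneg : 0 ≤ d.τ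
  b_nonneg : 0 ≤ d.b
  l_pos : 0 < d.l
  s_nonneg : 0 ≤ d.s
  h0_nonneg : 0 ≤ d.h0
  σ_ge : 2 * d.h0 + 2 * d.b / d.l ≤ d.σ
  cp_σ : 2 * d.σ ≤ d.cp
  cp_ρ : 3 * d.ρ ≤ d.cp
  pair : 2 * d.ρ ≤ 2 * d.cp - d.t2
  triple : 7 * d.ρ ≤ 3 * d.cp - d.t2
  cl21 : (5 * d.ρ + d.t2 + 3 * d.ε) * (2 + d.s ^ 2)
    ≤ (d.cp + d.ε) * (4 + d.s ^ 2 + 4 * d.s * d.kl)
  cl22 : 8 * d.ρ + d.t2 + 4 * d.ε ≤ (d.cp + d.ε) * (2 + 2 * d.kl)
  cl111 : 3 * d.ρ + d.t2 + 3 * d.ε ≤ (d.cp + d.ε) * (1 + 2 * d.kl)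

end BData

/-- Part B (proved in `B_Main.lean`). -/
def StmtBMain : Prop := ∀ d : BData, d.Good → StmtB d.K (3 * d.ρ) (2 * d.ρ) 0

end Pool.Agent.MP_f259ea_nt
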