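import Pool.Agent.MP_f259ea_nt.C_Fejer

/-!
The analytic facts hold under the side conditions; regularity and the functional of the kernel.
-/

set_option autoImplicit false

open Complex MeasureTheory Set
open scoped Real ComplexConjugate

namespace Pool.Agent.MP_f259ea_nt

namespace BData

variable {d : BData}

theorem node_le (hd : d.Good) (i : ℕ) : d.node i ≤ d.node (i + 1) := by
  have := D_pos hd
  unfold BData.node; push_cast; nlinarith

theorem node_mono (hd : d.Good) : d.node 0 ≤ d.node d.n := by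
  have := D_pos hd
  have h : (0 : ℝ) ≤ d.n := Nat.cast_nonneg _
  unfold BData.node; push_cast; nlinarith

theorem sq_le_max {a b u : ℝ} (h : u ∈ Icc a b) : u ^ 2 ≤ max (a ^ 2) (b ^ 2) := by
  rcases le_total 0 u with h0 | h0
  · exact le_max_of_le_right (by nlinarith [h.2])
  · exact le_max_of_le_left (by nlinarith [h.1])

theorem maj_pt (hd : d.Good) {i : ℕ} (hi : i < d.n) {u : ℝ}
    (hu : u ∈ Icc (d.node i) (d.node (i + 1))) :
    d.ψ i - d.h i ≤ d.b / d.l ^ 2 * fej d.l u := by
  have hl := hd.l_pos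
  refine (hd.maj i hi).trans ?_
  have h1 := fej_ge hl u
  have h2 : max (1 - 987 / 100 * d.l ^ 2 * max (d.node i ^ 2) (d.node (i + 1) ^ 2) / 6) 0
      ≤ max (1 - π ^ 2 * d.l ^ 2 * u ^ 2 / 6) 0 := by
    refine max_le_max ?_ le_rfl
    have h3 := sq_le_max hu
    have h4 : π ^ 2 * d.l ^ 2 * u ^ 2
        ≤ 987 / 100 * d.l ^ 2 * max (d.node i ^ 2) (d.node (i + 1) ^ 2) := by
      have := pi_sq_le
      gcongr
    linarith
  have h5 := pow_le_pow_left₀ (le_max_right _ _) h2 2
  calc _ ≤ d.b * (max (1 - π ^ 2 * d.l ^ 2 * u ^ 2 / 6) 0) ^ 2 :=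
        mul_le_mul_of_nonneg_left h5 hd.b_nonneg
    _ = d.b / d.l ^ 2 * (d.l ^ 2 * (max (1 - π ^ 2 * d.l ^ 2 * u ^ 2 / 6) 0) ^ 2) := by
        field_simp
    _ ≤ _ := mul_le_mul_of_nonneg_left h1 (div_nonneg hd.b_nonneg (by positivity))

theorem h2 (hd : d.Good) :
    H2 (ft d.n d.D d.ψ) (fun x : ℝ => ft d.n d.D d.h x) d.l (d.b / d.l) := by
  intro X w ξ hX hw hwin
  have hl := hd.l_pos
  obtain ⟨hI, hle⟩ := fej_mu hl X w ξ hX hw hwin
  set c : ℂ → ℂ := fun x => ξ x * (√(w x) : ℝ) with hc
  have hcont : Continuous fun u => ‖mu X c u‖ ^ 2 := (continuous_mu X c).norm.pow 2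
  have e : ∑ x ∈ X, ∑ y ∈ X, ξ x * conj (ξ y) * ((√(w x) * √(w y) : ℝ) : ℂ)
        * (ft d.n d.D d.ψ (x - y) - ft d.n d.D d.h ((x.re - y.re : ℝ) : ℂ))
      = ((∑ i ∈ Finset.range d.n, (d.ψ i - d.h i) *
          ∫ u in d.node i..d.node (i + 1), ‖mu X c u‖ ^ 2 : ℝ) : ℂ) := by
    rw [ofReal_sum]
    simp only [ofReal_mul (d.ψ _ - d.h _), BData.node, ← cell_quad, Finset.mul_sum]
    conv_rhs => rw [Finset.sum_comm]
    refine Finset.sum_congr rfl fun x hx => ?_
    conv_rhs => rw [Finset.sum_comm]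
    refine Finset.sum_congr rfl fun y hy => ?_
    have e1 : x - conj y = ((x.re - y.re : ℝ) : ℂ) := by
      apply Complex.ext <;> simp [hX x hx, hX y hy]
    have e2 : x - y = ((x.re - y.re : ℝ) : ℂ) := by
      apply Complex.ext <;> simp [hX x hx, hX y hy]
    rw [e1, e2, ft, ft, ← Finset.sum_sub_distrib, Finset.mul_sum]
    refine Finset.sum_congr rfl fun i _ => ?_
    simp only [hc, map_mul, conj_ofReal]
    push_cast; ring
  rw [e, ofReal_re]
  have hb : 0 ≤ d.b / d.l ^ 2 := div_nonneg hd.b_nonneg (by positivity)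
  have hc2 : Continuous fun u => fej d.l u * ‖mu X c u‖ ^ 2 := (continuous_fej _).mul hcont
  calc ∑ i ∈ Finset.range d.n, (d.ψ i - d.h i) * ∫ u in d.node i..d.node (i + 1), ‖mu X c u‖ ^ 2
      ≤ ∑ i ∈ Finset.range d.n, d.b / d.l ^ 2 *
          ∫ u in d.node i..d.node (i + 1), fej d.l u * ‖mu X c u‖ ^ 2 := by
        refine Finset.sum_le_sum fun i hi => ?_
        rw [← intervalIntegral.integral_const_mul, ← intervalIntegral.integral_const_mul]
        refine intervalIntegral.integral_mono_on (node_le hd i)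
          ((continuous_const.mul hcont).intervalIntegrable _ _)
          ((continuous_const.mul hc2).intervalIntegrable _ _) fun u hu => ?_
        rw [← mul_assoc]
        exact mul_le_mul_of_nonneg_right (maj_pt hd (Finset.mem_range.1 hi) hu) (by positivity)
    _ = d.b / d.l ^ 2 * ∫ u in d.node 0..d.node d.n, fej d.l u * ‖mu X c u‖ ^ 2 := by
        rw [← Finset.mul_sum, intervalIntegral.sum_integral_adjacent_intervals
          fun k _ => hc2.intervalIntegrable _ _]
    _ ≤ d.b / d.l ^ 2 * ∫ u, fej d.l u * ‖mu X c u‖ ^ 2 := by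
        refine mul_le_mul_of_nonneg_left ?_ hb
        rw [intervalIntegral.integral_of_le (node_mono hd)]
        exact setIntegral_le_integral hI (Filter.Eventually.of_forall fun u =>
          mul_nonneg (fej_nonneg _ _) (by positivity))
    _ ≤ d.b / d.l ^ 2 * (2 * d.l * ∑ x ∈ X, ‖ξ x‖ ^ 2) := mul_le_mul_of_nonneg_left hle hb
    _ = _ := by field_simp

theorem k_ge (hd : d.Good) (x : ℝ) (hx : |x| ≤ d.l) : d.kl ≤ (ft d.n d.D d.ψ x).re := by
  refine hd.kl_le.trans ?_
  rw [ft, Complex.re_sum]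
  refine Finset.sum_le_sum fun i hi => ?_
  rw [Complex.re_ofReal_mul]
  refine mul_le_mul_of_nonneg_left ?_ (hd.ψ_nonneg i (Finset.mem_range.1 hi))
  rw [re_cell]
  change _ ≤ ∫ u in d.node i..d.node (i + 1), Real.cos (2 * π * u * x)
  set A : ℝ := 4 * (987 / 100) * d.l ^ 2 with hA
  have hF : ∀ u ∈ uIcc (d.node i) (d.node (i + 1)), HasDerivAt d.F
      (1 - (A * u ^ 2) / 2 + (A * u ^ 2) ^ 2 / 24 - (A * u ^ 2) ^ 3 / 720) u := by
    intro u _
    have := (((hasDerivAt_id u).sub (((hasDerivAt_pow 3 u).const_mul A).div_const 6)).add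
      (((hasDerivAt_pow 5 u).const_mul (A ^ 2)).div_const 120)).sub
      (((hasDerivAt_pow 7 u).const_mul (A ^ 3)).div_const 5040)
    refine this.congr_deriv ?_
    push_cast; ring
  rw [← intervalIntegral.integral_eq_sub_of_hasDerivAt hF
    (Continuous.intervalIntegrable (by fun_prop) _ _)]
  refine intervalIntegral.integral_mono_on (node_le hd i)
    (Continuous.intervalIntegrable (by fun_prop) _ _)
    (Continuous.intervalIntegrable (by fun_prop) _ _) fun u _ => cos_ge_of_sq_le ?_
  have h1 : x ^ 2 ≤ d.l ^ 2 := by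
    rw [← sq_abs x]; exact pow_le_pow_left₀ (abs_nonneg _) hx 2
  have h2 := pi_sq_le
  calc (2 * π * u * x) ^ 2 = 4 * π ^ 2 * x ^ 2 * u ^ 2 := by ring
    _ ≤ A * u ^ 2 := by rw [hA]; gcongr

theorem cert (hd : d.Good) : Cert d.K (ft d.n d.D d.ψ) d.fF (fun x : ℝ => ft d.n d.D d.h x)
    d.ν d.ρ d.h0 d.l (d.b / d.l) d.kl where
  model := model hd
  h1 := h1 hd
  h2 := h2 hd
  k_zero := by rw [ft_zero, hd.ψ_sum, ofReal_one]
  k_ge := k_ge hd
  h_conj := fun x => by rw [conj_ft, conj_ofReal, ofReal_neg]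
  h_zero := by rw [ofReal_zero, ft_zero]; rfl
  h_sq_le := fun x => le_add_of_nonneg_right (Finset.sum_nonneg fun _ _ => by positivity)
  f_zero := by
    simp only [fF, ofReal_zero, ft_zero, Complex.norm_real, Real.norm_eq_abs, sq_abs]; rfl

theorem K_continuous : Continuous d.K := by
  have := continuous_tent
  unfold BData.K
  fun_prop

theorem w_nonneg (hd : d.Good) {i i' : ℕ} (hi : i < d.n) (hi' : i' < d.n) : 0 ≤ d.w i i' := by
  refine mul_nonneg (mul_nonneg (hd.ψ_nonneg i hi) (hd.ψ_nonneg i' hi')) ?_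
  have h1 := hd.c_le i hi
  have h2 := hd.c_le i' hi'
  have h3 : ∑ j ∈ Finset.range d.J, d.c j i * d.c j i'
      ≤ ∑ j ∈ Finset.range d.J, (d.c j i ^ 2 + d.c j i' ^ 2) / 2 :=
    Finset.sum_le_sum fun j _ => by nlinarith [sq_nonneg (d.c j i - d.c j i')]
  rw [← Finset.sum_div, Finset.sum_add_distrib] at h3
  linarith [hd.ν_le]

theorem K_nonneg (hd : d.Good) (a : ℝ) : 0 ≤ d.K a :=
  Finset.sum_nonneg fun _ hi => Finset.sum_nonneg fun _ hi' =>
    mul_nonneg (w_nonneg hd (Finset.mem_range.1 hi) (Finset.mem_range.1 hi'))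
      (mul_nonneg (D_pos hd).le (tent_nonneg _))

end BData

theorem stmtCert : StmtCert := fun _ hd => ⟨_, _, _, BData.cert hd⟩

theorem int_tent_mul (g : ℝ → ℝ) (hg : Continuous g) :
    ∫ t, tent t * g t = ∫ t in (0 : ℝ)..1, (1 - t) * (g t + g (-t)) := by
  have hs : Function.support (fun t => tent t * g t) ⊆ Ioc (-1) 1 := by
    intro a ha
    by_contra hn
    apply ha
    have : 1 ≤ |a| := by
      simp only [mem_Ioc, not_and_or, not_lt, not_le] at hn
      rw [le_abs]
      rcases hn with h | h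
      · right; linarith
      · left; linarith
    simp [tent_eq_zero this]
  have hc : Continuous fun t => tent t * g t := continuous_tent.mul hg
  rw [← intervalIntegral.integral_eq_integral_of_support_subset hs,
    ← intervalIntegral.integral_add_adjacent_intervals (b := 0)
      (hc.intervalIntegrable _ _) (hc.intervalIntegrable _ _)]
  have := intervalIntegral.integral_comp_neg (a := 0) (b := 1) (fun t => tent t * g t)
  rw [neg_zero] at this
  rw [← this, ← intervalIntegral.integral_add (Continuous.intervalIntegrable (by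
    have := continuous_tent; fun_prop) _ _) (hc.intervalIntegrable _ _)]
  refine intervalIntegral.integral_congr fun t ht => ?_
  rw [uIcc_of_le zero_le_one] at ht
  have h1 : |t| = t := abs_of_nonneg ht.1
  rw [tent_neg, tent_of_le (by rw [h1]; exact ht.2), h1]; ring

theorem int_abs_tent {D : ℝ} (hD : 0 < D) (j : ℝ) :
    ∫ a, |a| * (D * tent (a / D - j))
      = D ^ 3 * ∫ t in (0 : ℝ)..1, (1 - t) * (|t + j| + |-t + j|) := by
  rw [← int_tent_mul (fun t => |t + j|) (by fun_prop),
    ← integral_add_right_eq_self _ (j * D)]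
  have h := Measure.integral_comp_div (fun t => tent t * |t + j|) D
  rw [abs_of_pos hD, smul_eq_mul] at h
  rw [show D ^ 3 * ∫ t, tent t * |t + j| = D ^ 2 * (D * ∫ t, tent t * |t + j|) by ring, ← h,
    ← integral_const_mul]
  congr 1; funext a
  have e1 : (a + j * D) / D - j = a / D := by field_simp; ring
  have e2 : |a + j * D| = D * |a / D + j| := by
    rw [← abs_of_pos hD, ← abs_mul, abs_of_pos hD]; congr 1; field_simp
  rw [e1, e2]; ring

theorem int_abs_tent_zero {D : ℝ} (hD : 0 < D) :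
    ∫ a, |a| * (D * tent (a / D - 0)) = D ^ 3 / 3 := by
  rw [int_abs_tent hD]
  have : ∫ t in (0 : ℝ)..1, (1 - t) * (|t + 0| + |-t + 0|) = ∫ t in (0 : ℝ)..1, (2 * t - 2 * t ^ 2) := by
    refine intervalIntegral.integral_congr fun t ht => ?_
    rw [uIcc_of_le zero_le_one] at ht
    simp only [add_zero, abs_neg, abs_of_nonneg ht.1]; ring
  rw [this, intervalIntegral.integral_sub (Continuous.intervalIntegrable (by fun_prop) _ _)
    (Continuous.intervalIntegrable (by fun_prop) _ _), intervalIntegral.integral_const_mul,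
    intervalIntegral.integral_const_mul, integral_id, integral_pow]
  ring

theorem int_abs_tent_of_one_le {D : ℝ} (hD : 0 < D) {j : ℝ} (hj : 1 ≤ |j|) :
    ∫ a, |a| * (D * tent (a / D - j)) = D ^ 3 * |j| := by
  rw [int_abs_tent hD]
  have : ∫ t in (0 : ℝ)..1, (1 - t) * (|t + j| + |-t + j|)
      = ∫ t in (0 : ℝ)..1, (2 * |j| - 2 * |j| * t) := by
    refine intervalIntegral.integral_congr fun t ht => ?_
    rw [uIcc_of_le zero_le_one] at ht
    rcases le_abs.1 hj with h | h
    · rw [abs_of_nonneg (by linarith [ht.1]), abs_of_nonneg (by linarith [ht.2]),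
        abs_of_nonneg (by linarith)]; ring
    · rw [abs_of_nonpos (by linarith [ht.2]), abs_of_nonpos (by linarith [ht.1]),
        abs_of_nonpos (by linarith)]; ring
  rw [this, intervalIntegral.integral_sub (Continuous.intervalIntegrable (by fun_prop) _ _)
    (Continuous.intervalIntegrable (by fun_prop) _ _), intervalIntegral.integral_const_mul,
    intervalIntegral.integral_const_mul, integral_id]
  simp only [intervalIntegral.integral_const, sub_zero, smul_eq_mul]
  ring

namespace BData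

variable {d : BData}

theorem Jval_eq (hd : d.Good) : Jval d.K = ∑ i ∈ Finset.range d.n, ∑ i' ∈ Finset.range d.n,
    d.w i i' * (if i = i' then d.D + d.D ^ 3 / 3 else d.D ^ 3 * |(i : ℝ) - i'|) := by
  have hD := D_pos hd
  have hint : ∀ j : ℝ, Integrable fun a : ℝ => |a| * (d.D * tent (a / d.D - j)) := fun j => by
    have := (tent_integrable hD j (g := fun a => ((|a| : ℝ) : ℂ)) (by fun_prop)).re
    simp only [RCLike.re_to_complex, ← ofReal_mul, ofReal_re] at this
    simpa only [mul_comm] using this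
  have e : ∫ a in (-1 : ℝ)..1, |a| * d.K a = ∑ i ∈ Finset.range d.n, ∑ i' ∈ Finset.range d.n,
      d.w i i' * ∫ a, |a| * (d.D * tent (a / d.D - ((i : ℝ) - i'))) := by
    simp only [mul_comm |_| (d.K _)]
    rw [int_K hd]
    simp only [← integral_const_mul]
    rw [Finset.sum_congr rfl fun (i : ℕ) _ => (integral_finsetSum _ fun (i' : ℕ) _ =>
      (hint ((i : ℝ) - i')).const_mul (d.w i i')).symm,
      ← integral_finsetSum _ fun (i : ℕ) _ => integrable_finsetSum _ fun (i' : ℕ) _ =>
      (hint ((i : ℝ) - i')).const_mul (d.w i i')]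
    congr 1; funext a
    unfold BData.K
    rw [Finset.sum_mul]
    refine Finset.sum_congr rfl fun i _ => ?_
    rw [Finset.sum_mul]
    refine Finset.sum_congr rfl fun i' _ => ?_
    ring
  rw [Jval, e, BData.K, ← Finset.sum_add_distrib]
  refine Finset.sum_congr rfl fun i _ => ?_
  rw [← Finset.sum_add_distrib]
  refine Finset.sum_congr rfl fun i' _ => ?_
  rw [← mul_add]
  congr 1
  split_ifs with h
  · subst h
    rw [sub_self, int_abs_tent_zero hD]
    simp [tent]
  · have h1 : 1 ≤ |(i : ℝ) - i'| := by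
      have : (1 : ℤ) ≤ |(i : ℤ) - i'| := Int.one_le_abs (sub_ne_zero.2 (by exact_mod_cast h))
      exact_mod_cast this
    rw [int_abs_tent_of_one_le hD h1, tent_eq_zero (by simpa [abs_sub_comm] using h1)]
    ring

end BData

end Pool.Agent.MP_f259ea_nt
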