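import Pool.Agent.MP_f259ea_nt.C_Model

/-!
Fejér majorant, window bound and cosine bounds.
-/

set_option autoImplicit false

open Complex MeasureTheory Set
open scoped Real ComplexConjugate FourierTransform

namespace Pool.Agent.MP_f259ea_nt

theorem re_cell (n : ℕ) (D : ℝ) (i : ℕ) (x : ℝ) :
    (cell n D i x).re
      = ∫ u in (((i : ℝ) - (n : ℝ) / 2) * D)..((((i + 1 : ℕ) : ℝ) - (n : ℝ) / 2) * D),
        Real.cos (2 * π * u * x) := by
  rw [cell_eq]
  have := intervalIntegral.intervalIntegral_re (𝕜 := ℂ) (μ := volume)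
    (f := fun u : ℝ => Complex.exp (2 * π * I * u * x))
    (a := ((i : ℝ) - (n : ℝ) / 2) * D) (b := (((i + 1 : ℕ) : ℝ) - (n : ℝ) / 2) * D)
    (Continuous.intervalIntegrable (by fun_prop) _ _)
  simp only [RCLike.re_to_complex] at this
  rw [← this]
  refine intervalIntegral.integral_congr fun u _ => ?_
  rw [show (2 * π * I * u * x : ℂ) = ((2 * π * u * x : ℝ) : ℂ) * I by push_cast; ring]
  exact Complex.exp_ofReal_mul_I_re _

/-- The Fejér kernel `(sin (π l u) / (π u))²`. -/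
noncomputable def fej (l u : ℝ) : ℝ := ‖cell 1 l 0 u‖ ^ 2

theorem fej_nonneg (l u : ℝ) : 0 ≤ fej l u := by unfold fej; positivity

theorem continuous_fej (l : ℝ) : Continuous (fej l) := by
  unfold fej
  refine Continuous.pow (Continuous.norm ?_) 2
  simp only [cell_eq]
  exact intervalIntegral.continuous_parametric_intervalIntegral_of_continuous' (by fun_prop) _ _

theorem norm_cell_eq (l u : ℝ) : ‖cell 1 l 0 u‖ = ‖cE l (2 * π * I * u)‖ := by
  unfold cell
  rw [norm_mul, show (2 * π * I * u * ((((0 : ℕ) : ℝ) - ((1 : ℕ) : ℝ) / 2) * l : ℝ) : ℂ)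
    = ((2 * π * u * ((((0 : ℕ) : ℝ) - ((1 : ℕ) : ℝ) / 2) * l) : ℝ) : ℂ) * I by push_cast; ring,
    Complex.norm_exp_ofReal_mul_I, one_mul]

theorem fej_le {l : ℝ} (hl : 0 < l) (u : ℝ) : fej l u ≤ (l ^ 2 + 1) * (1 + u ^ 2)⁻¹ := by
  have hexp : ∀ t : ℝ, ‖Complex.exp (2 * π * I * u * t)‖ = 1 := fun t => by
    rw [show (2 * π * I * u * t : ℂ) = ((2 * π * u * t : ℝ) : ℂ) * I by push_cast; ring]
    exact Complex.norm_exp_ofReal_mul_I _
  have h1 : ‖cell 1 l 0 u‖ ≤ l := by
    rw [norm_cell_eq, cE]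
    refine (intervalIntegral.norm_integral_le_of_norm_le_const (C := 1)
      fun t _ => (hexp t).le).trans ?_
    rw [sub_zero, abs_of_pos hl, one_mul]
  have h2 : ‖cell 1 l 0 u‖ * |u| ≤ 1 := by
    rcases eq_or_ne u 0 with rfl | hu
    · simp
    have hc : (2 * π * I * u : ℂ) ≠ 0 := by
      simp [Real.pi_ne_zero, hu]
    rw [norm_cell_eq, cE, integral_exp_mul_complex hc, norm_div]
    have hn : ‖(2 * π * I * u : ℂ)‖ = 2 * π * |u| := by
      simp [abs_of_pos Real.pi_pos]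
    have h3 := norm_sub_le (Complex.exp (2 * π * I * u * l))
      (Complex.exp (2 * π * I * u * (0 : ℝ)))
    rw [hexp, hexp] at h3
    have hu' : 0 < |u| := abs_pos.2 hu
    rw [hn, div_mul_eq_mul_div, div_le_one (by positivity)]
    nlinarith [Real.pi_gt_three]
  have h0 := norm_nonneg (cell 1 l 0 u)
  rw [fej, ← div_eq_mul_inv, le_div_iff₀ (by positivity)]
  have h4 : (‖cell 1 l 0 u‖ * |u|) ^ 2 ≤ 1 := by
    have : 0 ≤ ‖cell 1 l 0 u‖ * |u| := by positivity
    nlinarith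
  rw [mul_pow, sq_abs] at h4
  nlinarith

theorem fej_integrable {l : ℝ} (hl : 0 < l) : Integrable (fej l) := by
  refine (integrable_inv_one_add_sq.const_mul (l ^ 2 + 1)).mono'
    (continuous_fej l).aestronglyMeasurable (Filter.Eventually.of_forall fun u => ?_)
  rw [Real.norm_of_nonneg (fej_nonneg l u)]
  exact fej_le hl u

theorem fej_ft {l : ℝ} (hl : 0 < l) (x : ℝ) :
    ∫ u : ℝ, (fej l u : ℂ) * Complex.exp (2 * π * I * u * x) = ((l * tent (x / l) : ℝ) : ℂ) := by
  let T : ℝ → ℂ := fun a => ((l * tent (a / l) : ℝ) : ℂ)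
  have hT : ∀ a, T a = KW 1 l (fun _ _ => 1) a := fun a => by simp [T, KW]
  have hF : 𝓕 T = fun u => (fej l u : ℂ) := by
    funext u
    rw [Real.fourier_real_eq_integral_exp_smul]
    have := KW_ft 1 hl (fun _ _ => 1) (-(u : ℂ))
    simp only [Finset.range_one, Finset.sum_singleton, ofReal_one, one_mul, neg_neg] at this
    rw [fej, ofReal_pow, ← Complex.mul_conj', conj_cell, conj_ofReal, mul_comm (cell 1 l 0 u), ← this]
    congr 1; funext a
    rw [hT, smul_eq_mul, mul_comm]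
    congr 2; push_cast; ring
  have hc : Continuous T := by
    have := continuous_tent
    fun_prop
  have hi : Integrable T := by
    have := tent_integrable hl 0 (g := fun _ => 1) continuous_const
    simpa [T] using this
  have := congrFun (hc.fourierInv_fourier_eq hi
    (by rw [hF]; exact (fej_integrable hl).ofReal)) x
  rw [hF, Real.fourierInv_eq'] at this
  change _ = T x
  rw [← this]
  congr 1; funext u
  rw [smul_eq_mul, mul_comm]
  congr 2
  simp only [RCLike.inner_apply, conj_trivial]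
  push_cast; ring

theorem fej_ge {l : ℝ} (hl : 0 < l) (u : ℝ) :
    l ^ 2 * (max (1 - π ^ 2 * l ^ 2 * u ^ 2 / 6) 0) ^ 2 ≤ fej l u := by
  have h1 : l * (1 - π ^ 2 * l ^ 2 * u ^ 2 / 6) ≤ ‖cell 1 l 0 u‖ := by
    refine le_trans ?_ (Complex.re_le_norm _)
    rw [re_cell]
    have e1 : (((0 : ℕ) : ℝ) - ((1 : ℕ) : ℝ) / 2) * l = -(l / 2) := by push_cast; ring
    have e2 : (((0 + 1 : ℕ) : ℝ) - ((1 : ℕ) : ℝ) / 2) * l = l / 2 := by push_cast; ring
    rw [e1, e2]
    have : ∫ t in (-(l / 2))..(l / 2), (1 - 2 * π ^ 2 * u ^ 2 * t ^ 2)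
        = l * (1 - π ^ 2 * l ^ 2 * u ^ 2 / 6) := by
      rw [intervalIntegral.integral_sub (by simp) (Continuous.intervalIntegrable (by fun_prop) _ _),
        intervalIntegral.integral_const_mul, integral_pow]
      simp only [intervalIntegral.integral_const, smul_eq_mul]
      ring
    rw [← this]
    refine intervalIntegral.integral_mono_on (by linarith)
      (Continuous.intervalIntegrable (by fun_prop) _ _)
      (Continuous.intervalIntegrable (by fun_prop) _ _) fun t _ => ?_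
    have := Real.one_sub_sq_div_two_le_cos (x := 2 * π * t * u)
    nlinarith
  have h2 : l * max (1 - π ^ 2 * l ^ 2 * u ^ 2 / 6) 0 ≤ ‖cell 1 l 0 u‖ := by
    rcases le_total (1 - π ^ 2 * l ^ 2 * u ^ 2 / 6) 0 with h | h
    · rw [max_eq_right h, mul_zero]; exact norm_nonneg _
    · rw [max_eq_left h]; exact h1
  rw [fej, ← mul_pow]
  exact pow_le_pow_left₀ (mul_nonneg hl.le (le_max_right _ _)) h2 2

/-- Row sums of the tent matrix under the window condition. -/
theorem window_row {l : ℝ} (hl : 0 < l) (X : Finset ℂ) (w : ℂ → ℝ)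
    (hwin : ∀ t : ℝ, ∑ x ∈ X with t ≤ x.re ∧ x.re < t + l, w x ≤ 2) (s : ℝ) :
    ∑ y ∈ X, w y * (l * tent ((s - y.re) / l)) ≤ 2 * l := by
  have key : ∀ y : ℝ, l * tent ((s - y) / l)
      = ∫ t in Ioc (s - l) s, (Ioc (y - l) y).indicator (fun _ => (1 : ℝ)) t := by
    intro y
    rw [setIntegral_indicator measurableSet_Ioc, Set.Ioc_inter_Ioc]
    simp only [integral_const, MeasurableSet.univ, measureReal_restrict_apply, univ_inter,
      Real.volume_real_Ioc, smul_eq_mul, mul_one]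
    unfold tent
    rw [mul_max_of_nonneg _ _ hl.le, mul_zero, abs_div, abs_of_pos hl]
    congr 1
    rcases le_total s y with h | h
    · rw [min_eq_left h, max_eq_right (by linarith), abs_of_nonpos (by linarith)]
      field_simp; ring
    · rw [min_eq_right h, max_eq_left (by linarith), abs_of_nonneg (by linarith)]
      field_simp; ring
  have hint : ∀ y : ℝ, IntegrableOn ((Ioc (y - l) y).indicator (fun _ => (1 : ℝ)))
      (Ioc (s - l) s) := fun y =>
    (integrableOn_const (by simp)).indicator measurableSet_Ioc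
  simp only [key, ← integral_const_mul]
  rw [← integral_finsetSum _ fun y _ => (hint y.re).const_mul _]
  have : ∫ t in Ioc (s - l) s, (2 : ℝ) = 2 * l := by
    simp only [integral_const, MeasurableSet.univ, measureReal_restrict_apply, univ_inter,
      Real.volume_real_Ioc, smul_eq_mul]
    rw [max_eq_left (by linarith)]; ring
  rw [← this]
  refine integral_mono (integrable_finsetSum _ fun y _ => (hint y.re).const_mul _)
    (integrableOn_const (by simp)) fun t => ?_
  refine le_trans (le_of_eq ?_) (hwin t)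
  rw [Finset.sum_filter]
  refine Finset.sum_congr rfl fun y _ => ?_
  by_cases h : t ≤ y.re ∧ y.re < t + l
  · rw [if_pos h, indicator_of_mem (show t ∈ Ioc (y.re - l) y.re from ⟨by linarith [h.2], h.1⟩),
      mul_one]
  · rw [if_neg h, indicator_of_notMem, mul_zero]
    intro h'; exact h ⟨h'.2, by linarith [h'.1]⟩

theorem fej_mu {l : ℝ} (hl : 0 < l) (X : Finset ℂ) (w : ℂ → ℝ) (ξ : ℂ → ℂ)
    (hX : ∀ x ∈ X, x.im = 0) (hw : ∀ x ∈ X, 0 ≤ w x)
    (hwin : ∀ t : ℝ, ∑ x ∈ X with t ≤ x.re ∧ x.re < t + l, w x ≤ 2) :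
    Integrable (fun u => fej l u * ‖mu X (fun x => ξ x * (√(w x) : ℝ)) u‖ ^ 2) ∧
    ∫ u, fej l u * ‖mu X (fun x => ξ x * (√(w x) : ℝ)) u‖ ^ 2 ≤ 2 * l * ∑ x ∈ X, ‖ξ x‖ ^ 2 := by
  set c : ℂ → ℂ := fun x => ξ x * (√(w x) : ℝ) with hc
  have e : ∀ x ∈ X, ∀ y ∈ X, x - conj y = ((x.re - y.re : ℝ) : ℂ) := fun x hx y hy => by
    apply Complex.ext <;> simp [hX x hx, hX y hy]
  have hint : ∀ x y : ℂ, Integrable fun u : ℝ => c x * conj (c y) *
      ((fej l u : ℂ) * Complex.exp (2 * π * I * u * ((x.re - y.re : ℝ) : ℂ))) := by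
    intro x y
    refine Integrable.const_mul ?_ _
    refine (fej_integrable hl).ofReal.mul_bdd (c := 1)
      (Continuous.aestronglyMeasurable (by fun_prop)) (Filter.Eventually.of_forall fun u => ?_)
    rw [show (2 * π * I * u * ((x.re - y.re : ℝ) : ℂ) : ℂ)
      = ((2 * π * u * (x.re - y.re) : ℝ) : ℂ) * I by push_cast; ring,
      Complex.norm_exp_ofReal_mul_I]
  have e2 : (fun u => ((fej l u * ‖mu X c u‖ ^ 2 : ℝ) : ℂ)) = fun u => ∑ x ∈ X, ∑ y ∈ X,
      c x * conj (c y) *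
      ((fej l u : ℂ) * Complex.exp (2 * π * I * u * ((x.re - y.re : ℝ) : ℂ))) := by
    funext u
    rw [ofReal_mul, normSq_mu, Finset.mul_sum]
    refine Finset.sum_congr rfl fun x hx => ?_
    rw [Finset.mul_sum]
    refine Finset.sum_congr rfl fun y hy => ?_
    rw [e x hx y hy]; ring
  have hI : Integrable (fun u => ((fej l u * ‖mu X c u‖ ^ 2 : ℝ) : ℂ)) := by
    rw [e2]
    exact integrable_finsetSum _ fun x _ => integrable_finsetSum _ fun y _ => hint x y
  refine ⟨by simpa only [RCLike.re_to_complex, ofReal_re] using hI.re, ?_⟩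
  have e3 : ((∫ u, fej l u * ‖mu X c u‖ ^ 2 : ℝ) : ℂ) = ∑ x ∈ X, ∑ y ∈ X,
      c x * conj (c y) * ((l * tent ((x.re - y.re) / l) : ℝ) : ℂ) := by
    rw [← integral_complex_ofReal, e2,
      integral_finsetSum _ fun x _ => integrable_finsetSum _ fun y _ => hint x y]
    refine Finset.sum_congr rfl fun x _ => ?_
    rw [integral_finsetSum _ fun y _ => hint x y]
    refine Finset.sum_congr rfl fun y _ => ?_
    rw [integral_const_mul, fej_ft hl]
  have e4 := congrArg Complex.re e3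
  rw [ofReal_re] at e4
  rw [e4, Complex.re_sum]
  simp only [Complex.re_sum]
  have b : ∀ x ∈ X, ∀ y ∈ X, (c x * conj (c y) * ((l * tent ((x.re - y.re) / l) : ℝ) : ℂ)).re
      ≤ ‖ξ x‖ ^ 2 / 2 * (w y * (l * tent ((x.re - y.re) / l)))
        + ‖ξ y‖ ^ 2 / 2 * (w x * (l * tent ((y.re - x.re) / l))) := by
    intro x hx y hy
    have ht : 0 ≤ l * tent ((x.re - y.re) / l) := mul_nonneg hl.le (tent_nonneg _)
    have hs : tent ((y.re - x.re) / l) = tent ((x.re - y.re) / l) := by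
      rw [← tent_neg]; congr 1; ring
    rw [hs]
    refine (Complex.re_le_norm _).trans ?_
    rw [norm_mul, norm_mul, Complex.norm_conj, Complex.norm_real, Real.norm_of_nonneg ht]
    simp only [hc, norm_mul, Complex.norm_real, Real.norm_of_nonneg (Real.sqrt_nonneg _)]
    have h1 := Real.mul_self_sqrt (hw x hx)
    have h2 := Real.mul_self_sqrt (hw y hy)
    have h3 := sq_nonneg (‖ξ x‖ * √(w y) - ‖ξ y‖ * √(w x))
    have h4 : ‖ξ x‖ * √(w x) * (‖ξ y‖ * √(w y)) ≤ ‖ξ x‖ ^ 2 / 2 * w y + ‖ξ y‖ ^ 2 / 2 * w x := by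
      rw [← h1, ← h2, Real.sqrt_mul_self (Real.sqrt_nonneg _),
        Real.sqrt_mul_self (Real.sqrt_nonneg _)]
      nlinarith
    nlinarith
  refine (Finset.sum_le_sum fun x hx => Finset.sum_le_sum fun y hy => b x hx y hy).trans ?_
  simp only [Finset.sum_add_distrib]
  rw [Finset.sum_comm (f := fun x y =>
    ‖ξ y‖ ^ 2 / 2 * (w x * (l * tent ((y.re - x.re) / l))))]
  have b2 : ∑ x ∈ X, ∑ y ∈ X, ‖ξ x‖ ^ 2 / 2 * (w y * (l * tent ((x.re - y.re) / l)))
      ≤ l * ∑ x ∈ X, ‖ξ x‖ ^ 2 := by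
    rw [Finset.mul_sum]
    refine Finset.sum_le_sum fun x _ => ?_
    rw [← Finset.mul_sum]
    have := window_row hl X w hwin x.re
    have h0 : 0 ≤ ‖ξ x‖ ^ 2 := by positivity
    nlinarith
  linarith

theorem nonneg_of_deriv {g g' : ℝ → ℝ} (h : ∀ x, HasDerivAt g (g' x) x) (h0 : g 0 = 0)
    (h' : ∀ x, 0 ≤ x → 0 ≤ g' x) {x : ℝ} (hx : 0 ≤ x) : 0 ≤ g x := by
  have hm : MonotoneOn g (Ici 0) := by
    refine monotoneOn_of_deriv_nonneg (convex_Ici 0)
      (fun y _ => (h y).continuousAt.continuousWithinAt)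
      (fun y _ => (h y).differentiableAt.differentiableWithinAt) fun y hy => ?_
    rw [(h y).deriv]
    rw [interior_Ici] at hy
    exact h' y (le_of_lt hy)
  have := hm (mem_Ici.2 le_rfl) hx hx
  rwa [h0] at this

theorem cos_ge_six (y : ℝ) : 1 - y ^ 2 / 2 + y ^ 4 / 24 - y ^ 6 / 720 ≤ Real.cos y := by
  wlog hy : 0 ≤ y generalizing y
  · have := this (-y) (by linarith)
    rw [Real.cos_neg] at this
    nlinarith
  have h4 : ∀ x, 0 ≤ x → 0 ≤ 1 - x ^ 2 / 2 + x ^ 4 / 24 - Real.cos x := fun x hx => by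
    refine nonneg_of_deriv (g := fun x => 1 - x ^ 2 / 2 + x ^ 4 / 24 - Real.cos x)
      (g' := fun x => Real.sin x - (x - x ^ 3 / 6)) (fun x => ?_) (by simp)
      (fun x hx => sub_nonneg.2 (Real.sin_ge_sub_cube hx)) hx
    have := (((((hasDerivAt_pow 2 x).div_const 2).const_sub 1).add
      ((hasDerivAt_pow 4 x).div_const 24)).sub (Real.hasDerivAt_cos x))
    refine this.congr_deriv ?_
    push_cast; ring
  have h5 : ∀ x, 0 ≤ x → 0 ≤ x - x ^ 3 / 6 + x ^ 5 / 120 - Real.sin x := fun x hx => by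
    refine nonneg_of_deriv (g := fun x => x - x ^ 3 / 6 + x ^ 5 / 120 - Real.sin x)
      (g' := fun x => 1 - x ^ 2 / 2 + x ^ 4 / 24 - Real.cos x) (fun x => ?_) (by simp) h4 hx
    have := ((((hasDerivAt_id x).sub ((hasDerivAt_pow 3 x).div_const 6)).add
      ((hasDerivAt_pow 5 x).div_const 120)).sub (Real.hasDerivAt_sin x))
    refine this.congr_deriv ?_
    push_cast; ring
  have h6 : 0 ≤ Real.cos y - (1 - y ^ 2 / 2 + y ^ 4 / 24 - y ^ 6 / 720) := by
    refine nonneg_of_deriv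
      (g := fun x => Real.cos x - (1 - x ^ 2 / 2 + x ^ 4 / 24 - x ^ 6 / 720))
      (g' := fun x => x - x ^ 3 / 6 + x ^ 5 / 120 - Real.sin x) (fun x => ?_) (by simp) h5 hy
    have := (Real.hasDerivAt_cos x).sub ((((((hasDerivAt_pow 2 x).div_const 2).const_sub 1).add
      ((hasDerivAt_pow 4 x).div_const 24))).sub ((hasDerivAt_pow 6 x).div_const 720))
    refine this.congr_deriv ?_
    push_cast; ring
  linarith

theorem cos_ge_of_sq_le {y s : ℝ} (h : y ^ 2 ≤ s) :
    1 - s / 2 + s ^ 2 / 24 - s ^ 3 / 720 ≤ Real.cos y := by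
  refine le_trans ?_ (cos_ge_six y)
  have h0 : 0 ≤ y ^ 2 := sq_nonneg y
  rw [show y ^ 4 = (y ^ 2) ^ 2 by ring, show y ^ 6 = (y ^ 2) ^ 3 by ring]
  generalize y ^ 2 = t at h h0
  have : 0 ≤ (s - t) * (360 - 30 * (s + t) + (s ^ 2 + s * t + t ^ 2)) :=
    mul_nonneg (sub_nonneg.2 h) (by nlinarith [sq_nonneg (s + t - 20), sq_nonneg (s - t)])
  nlinarith

theorem pi_sq_le : π ^ 2 ≤ 987 / 100 := by
  have := Real.pi_lt_d4
  have := Real.pi_pos
  nlinarith

end Pool.Agent.MP_f259ea_nt
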