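import Pool.Agent.MP_f259ea_nt.B_Defs

/-!
Analytic facts about the kernel of part B, in the form used by the finite linear algebra.
-/

set_option autoImplicit false

open Complex
open scoped Real ComplexConjugate

namespace Pool.Agent.MP_f259ea_nt

/-- Finite-dimensional vector model of the quadratic form `∫ K |μ|²`. -/
def Model (K : ℝ → ℝ) (k : ℂ → ℂ) (ν : ℝ) : Prop :=
  ∀ Z : Finset ℂ, (∀ x ∈ Z, conj x ∈ Z) →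
    ∃ (n S : ℕ) (v : ℂ → Fin n → ℂ) (d : Fin S → Fin n → ℝ),
      (∀ α, ∑ s, d s α ^ 2 ≤ ν) ∧
      (∀ x ∈ Z, ∀ y ∈ Z, ∑ α, v x α * conj (v y α) = k (x - conj y)) ∧
      ∀ c : ℂ → ℂ, ∫ a in (-1 : ℝ)..1, K a * ‖mu Z c a‖ ^ 2
        = ∑ α, ∑ β, (1 - ∑ s, d s α * d s β) * ‖∑ x ∈ Z, c x * v x α * conj (v (conj x) β)‖ ^ 2

/-- Positivity input: on real points the form dominates the pair sum of `f`.
Real points are the `x : ℂ` with `x.im = 0`. -/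
def H1 (K f : ℝ → ℝ) : Prop :=
  ∀ (X : Finset ℂ) (w : ℂ → ℝ), (∀ x ∈ X, x.im = 0) →
    ∑ x ∈ X, ∑ y ∈ X, w x * w y * f (x.re - y.re)
      ≤ ∫ a in (-1 : ℝ)..1, K a * ‖mu X (fun x => (w x : ℂ)) a‖ ^ 2

/-- Majorant input: under the window condition the weighted Gram matrix of `k` is at most the one
of `h` plus `2 r`. -/
def H2 (k : ℂ → ℂ) (h : ℝ → ℂ) (l r : ℝ) : Prop :=
  ∀ (X : Finset ℂ) (w : ℂ → ℝ) (ξ : ℂ → ℂ), (∀ x ∈ X, x.im = 0) → (∀ x ∈ X, 0 ≤ w x) →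
    (∀ t : ℝ, ∑ x ∈ X with t ≤ x.re ∧ x.re < t + l, w x ≤ 2) →
    (∑ x ∈ X, ∑ y ∈ X, ξ x * conj (ξ y) * ((√(w x) * √(w y) : ℝ) : ℂ)
        * (k (x - y) - h (x.re - y.re))).re
      ≤ 2 * r * ∑ x ∈ X, ‖ξ x‖ ^ 2

/-- The analytic facts. -/
structure Cert (K : ℝ → ℝ) (k : ℂ → ℂ) (f : ℝ → ℝ) (h : ℝ → ℂ) (ν ρ h0 l r kl : ℝ) : Prop where
  model : Model K k ν
  h1 : H1 K f
  h2 : H2 k h l r
  k_zero : k 0 = 1
  k_ge : ∀ x : ℝ, |x| ≤ l → kl ≤ (k x).re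
  h_conj : ∀ x, h (-x) = conj (h x)
  h_zero : h 0 = h0
  h_sq_le : ∀ x, ‖h x‖ ^ 2 ≤ f x
  f_zero : f 0 = ρ

/-- Proved in `C_Cert.lean`. -/
def StmtCert : Prop :=
  ∀ d : BData, d.Good → ∃ (k : ℂ → ℂ) (f : ℝ → ℝ) (h : ℝ → ℂ),
    Cert d.K k f h d.ν d.ρ d.h0 d.l (d.b / d.l) d.kl

end Pool.Agent.MP_f259ea_nt
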