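import Pool.Agent.MP_f259ea_nt.C_Tent

/-!
The finite-dimensional vector model and the positivity input.
-/

set_option autoImplicit false

open Complex MeasureTheory Set
open scoped Real ComplexConjugate MatrixOrder ComplexOrder Matrix

namespace Pool.Agent.MP_f259ea_nt

theorem cell_quad (n : ℕ) (D : ℝ) (i : ℕ) (Z : Finset ℂ) (c : ℂ → ℂ) :
    ∑ x ∈ Z, ∑ y ∈ Z, c x * conj (c y) * cell n D i (x - conj y)
      = ((∫ u in (((i : ℝ) - (n : ℝ) / 2) * D)..((((i + 1 : ℕ) : ℝ) - (n : ℝ) / 2) * D),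
          ‖mu Z c u‖ ^ 2 : ℝ) : ℂ) := by
  rw [← intervalIntegral.integral_ofReal]
  simp only [normSq_mu]
  rw [intervalIntegral.integral_finsetSum fun x _ =>
    Continuous.intervalIntegrable (by fun_prop) _ _]
  refine Finset.sum_congr rfl fun x _ => ?_
  rw [intervalIntegral.integral_finsetSum fun x _ =>
    Continuous.intervalIntegrable (by fun_prop) _ _]
  refine Finset.sum_congr rfl fun y _ => ?_
  rw [intervalIntegral.integral_const_mul, cell_eq]

theorem cell_factor (n : ℕ) {D : ℝ} (hD : 0 < D) (i : ℕ) (Z : Finset ℂ) :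
    ∃ B : ℂ → Z → ℂ, ∀ x ∈ Z, ∀ y ∈ Z,
      ∑ p, B x p * conj (B y p) = cell n D i (x - conj y) := by
  classical
  let A : Matrix Z Z ℂ := fun x y => cell n D i (x - conj (y : ℂ))
  have hA : A.PosSemidef := by
    refine Matrix.PosSemidef.of_dotProduct_mulVec_nonneg ?_ fun ξ => ?_
    · ext x y
      simp only [A, Matrix.conjTranspose_apply, RCLike.star_def, conj_cell, map_sub, conj_conj]
      congr 1; ring
    · let c : ℂ → ℂ := fun x => if h : x ∈ Z then conj (ξ ⟨x, h⟩) else 0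
      have h := cell_quad n D i Z c
      have e : star ξ ⬝ᵥ (A *ᵥ ξ)
          = ∑ x ∈ Z, ∑ y ∈ Z, c x * conj (c y) * cell n D i (x - conj y) := by
        rw [← Finset.sum_coe_sort Z]
        simp only [dotProduct, Matrix.mulVec, Pi.star_apply, RCLike.star_def, Finset.mul_sum]
        refine Finset.sum_congr rfl fun x _ => ?_
        rw [← Finset.sum_coe_sort Z]
        refine Finset.sum_congr rfl fun y _ => ?_
        simp only [A, c, x.2, y.2, dif_pos, conj_conj]
        ring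
      rw [e, h]
      refine Complex.zero_le_real.2 (intervalIntegral.integral_nonneg ?_ fun u _ => by positivity)
      push_cast; nlinarith
  obtain ⟨B, hB⟩ := CStarAlgebra.nonneg_iff_eq_star_mul_self.mp hA.nonneg
  refine ⟨fun x p => if h : x ∈ Z then conj (B p ⟨x, h⟩) else 0, fun x hx y hy => ?_⟩
  have := congrFun (congrFun hB ⟨x, hx⟩) ⟨y, hy⟩
  simp only [A, Matrix.mul_apply, Matrix.star_apply, RCLike.star_def] at this
  simp only [hx, hy, dif_pos, conj_conj]
  exact this.symm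

/-- Fourier transform of a step function. -/
noncomputable def ft (n : ℕ) (D : ℝ) (α : ℕ → ℝ) (z : ℂ) : ℂ :=
  ∑ i ∈ Finset.range n, α i * cell n D i z

theorem conj_ft (n : ℕ) (D : ℝ) (α : ℕ → ℝ) (z : ℂ) :
    conj (ft n D α z) = ft n D α (-conj z) := by
  simp only [ft, map_sum, map_mul, conj_ofReal, conj_cell]

theorem ft_zero (n : ℕ) (D : ℝ) (α : ℕ → ℝ) :
    ft n D α 0 = ((D * ∑ i ∈ Finset.range n, α i : ℝ) : ℂ) := by
  simp only [ft, cell_zero]; push_cast; rw [Finset.mul_sum]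
  exact Finset.sum_congr rfl fun i _ => mul_comm _ _

namespace BData

variable {d : BData}

theorem D_pos (hd : d.Good) : 0 < d.D := by
  have := hd.M_pos
  unfold BData.D; positivity

theorem K_eq : d.K = KW d.n d.D d.w := rfl

theorem w_symm (i i' : ℕ) : d.w i i' = d.w i' i := by
  unfold BData.w
  simp only [mul_comm]

theorem H_symm (i i' : ℕ) : d.H i i' = d.H i' i := by
  unfold BData.H
  simp only [mul_comm]

theorem K_zero (hd : d.Good) {a : ℝ} (ha : 1 ≤ |a|) : d.K a = 0 := by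
  unfold BData.K
  refine Finset.sum_eq_zero fun i hi => Finset.sum_eq_zero fun i' hi' => ?_
  rw [Finset.mem_range] at hi hi'
  by_cases h1 : i' + d.M ≤ i
  · simp [BData.w, hd.supp i hi i' hi' h1]
  by_cases h2 : i + d.M ≤ i'
  · rw [w_symm]; simp [BData.w, hd.supp i' hi' i hi h2]
  have hM : (0 : ℝ) < d.M := by exact_mod_cast hd.M_pos
  have e : a / d.D = a * d.M := by unfold BData.D; field_simp
  have g1 : (i : ℝ) + 1 ≤ i' + d.M := by exact_mod_cast (not_le.1 h1)
  have g2 : (i' : ℝ) + 1 ≤ i + d.M := by exact_mod_cast (not_le.1 h2)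
  rw [tent_eq_zero, mul_zero, mul_zero]
  rw [e, le_abs]
  rcases le_abs.1 ha with h | h
  · left; nlinarith
  · right; nlinarith

theorem int_K (hd : d.Good) (g : ℝ → ℝ) :
    ∫ a in (-1 : ℝ)..1, d.K a * g a = ∫ a, d.K a * g a := by
  refine intervalIntegral.integral_eq_integral_of_support_subset fun a ha => ?_
  by_contra hn
  apply ha
  have : 1 ≤ |a| := by
    simp only [mem_Ioc, not_and_or, not_lt, not_le] at hn
    rw [le_abs]
    rcases hn with h | h
    · right; linarith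
    · left; linarith
  simp [K_zero hd this]

theorem model_gen (hd : d.Good) (Z : Finset ℂ) (hZ : ∀ x ∈ Z, conj x ∈ Z) :
    ∃ (v : ℂ → Fin d.n × Z → ℂ),
      (∀ x ∈ Z, ∀ y ∈ Z, ∑ α, v x α * conj (v y α) = ft d.n d.D d.ψ (x - conj y)) ∧
      ∀ c : ℂ → ℂ, ∫ a in (-1 : ℝ)..1, d.K a * ‖mu Z c a‖ ^ 2
        = ∑ α : Fin d.n × Z, ∑ β : Fin d.n × Z, (1 - ∑ s : Fin d.J, d.c s α.1 * d.c s β.1)
          * ‖∑ x ∈ Z, c x * v x α * conj (v (conj x) β)‖ ^ 2 := by
  have hD := D_pos hd
  choose B hB using fun i => cell_factor d.n hD i Z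
  let v : ℂ → Fin d.n × Z → ℂ := fun x α => (√(d.ψ α.1) : ℝ) * B α.1 x α.2
  have key : ∀ (i : Fin d.n), ∀ x ∈ Z, ∀ y ∈ Z,
      ∑ p : Z, v x (i, p) * conj (v y (i, p)) = d.ψ i * cell d.n d.D i (x - conj y) := by
    intro i x hx y hy
    rw [← hB i x hx y hy, Finset.mul_sum]
    refine Finset.sum_congr rfl fun p _ => ?_
    have h : ((√(d.ψ i) : ℝ) : ℂ) * (√(d.ψ i) : ℝ) = d.ψ i := by
      rw [← ofReal_mul, Real.mul_self_sqrt (hd.ψ_nonneg i i.2)]
    simp only [v, map_mul, conj_ofReal]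
    rw [← h]; ring
  refine ⟨v, fun x hx y hy => ?_, fun c => ?_⟩
  · rw [Fintype.sum_prod_type, ft, ← Fin.sum_univ_eq_sum_range
      (fun i => (d.ψ i : ℂ) * cell d.n d.D i (x - conj y))]
    exact Finset.sum_congr rfl fun i _ => key i x hx y hy
  · rw [int_K hd, K_eq]
    apply Complex.ofReal_injective
    rw [KW_mu d.n hD]
    have hn : ∀ α β : Fin d.n × Z,
        ((‖∑ x ∈ Z, c x * v x α * conj (v (conj x) β)‖ ^ 2 : ℝ) : ℂ) = ∑ x ∈ Z, ∑ y ∈ Z,
          c x * conj (c y) * ((v x α * conj (v y α)) * (v (conj y) β * conj (v (conj x) β))) := by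
      intro α β
      rw [ofReal_pow, ← Complex.mul_conj', map_sum, Finset.sum_mul_sum]
      refine Finset.sum_congr rfl fun x _ => Finset.sum_congr rfl fun y _ => ?_
      simp only [map_mul, conj_conj]; ring
    have step : ∀ i i' : Fin d.n, ∑ p : Z, ∑ q : Z,
        ((‖∑ x ∈ Z, c x * v x (i, p) * conj (v (conj x) (i', q))‖ ^ 2 : ℝ) : ℂ)
        = ∑ x ∈ Z, ∑ y ∈ Z, c x * conj (c y) * ((d.ψ i * cell d.n d.D i (x - conj y)) *
          (d.ψ i' * cell d.n d.D i' (-(x - conj y)))) := by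
      intro i i'
      simp only [hn]
      have : ∀ x ∈ Z, ∀ y ∈ Z, c x * conj (c y) * ((d.ψ i * cell d.n d.D i (x - conj y)) *
          (d.ψ i' * cell d.n d.D i' (-(x - conj y)))) = ∑ p : Z, ∑ q : Z,
          c x * conj (c y) * ((v x (i, p) * conj (v y (i, p))) *
            (v (conj y) (i', q) * conj (v (conj x) (i', q)))) := by
        intro x hx y hy
        have h2 := key i' (conj y) (hZ y hy) (conj x) (hZ x hx)
        rw [conj_conj, show conj y - x = -(x - conj y) by ring] at h2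
        rw [← key i x hx y hy, ← h2, Finset.sum_mul_sum, Finset.mul_sum]
        simp only [Finset.mul_sum]
      rw [Finset.sum_congr rfl fun x hx => Finset.sum_congr rfl fun y hy => this x hx y hy]
      symm
      rw [Finset.sum_congr rfl fun x _ => Finset.sum_comm, Finset.sum_comm]
      refine Finset.sum_congr rfl fun p _ => ?_
      rw [Finset.sum_congr rfl fun x _ => Finset.sum_comm, Finset.sum_comm]
    have lhs : ∀ x y : ℂ, c x * conj (c y) * ∑ i ∈ Finset.range d.n, ∑ i' ∈ Finset.range d.n,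
        (d.w i i' : ℂ) * (cell d.n d.D i (x - conj y) * cell d.n d.D i' (-(x - conj y)))
        = ∑ i : Fin d.n, ∑ i' : Fin d.n, ((1 - ∑ s : Fin d.J, d.c s i * d.c s i' : ℝ) : ℂ) *
          (c x * conj (c y) * ((d.ψ i * cell d.n d.D i (x - conj y)) *
          (d.ψ i' * cell d.n d.D i' (-(x - conj y))))) := by
      intro x y
      rw [← Fin.sum_univ_eq_sum_range (fun i => ∑ i' ∈ Finset.range d.n,
        (d.w i i' : ℂ) * (cell d.n d.D i (x - conj y) * cell d.n d.D i' (-(x - conj y)))),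
        Finset.mul_sum]
      refine Finset.sum_congr rfl fun i _ => ?_
      rw [← Fin.sum_univ_eq_sum_range (fun i' =>
        (d.w i i' : ℂ) * (cell d.n d.D i (x - conj y) * cell d.n d.D i' (-(x - conj y)))),
        Finset.mul_sum]
      refine Finset.sum_congr rfl fun i' _ => ?_
      rw [BData.w, ← Fin.sum_univ_eq_sum_range (fun s => d.c s i * d.c s i')]
      push_cast; ring
    simp only [lhs]
    rw [ofReal_sum, Fintype.sum_prod_type,
      Finset.sum_congr rfl fun x _ => Finset.sum_comm, Finset.sum_comm]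
    refine Finset.sum_congr rfl fun i _ => ?_
    simp only [Fintype.sum_prod_type]
    simp only [ofReal_sum (s := (Finset.univ : Finset (Fin d.n))),
      ofReal_sum (s := (Finset.univ : Finset Z))]
    rw [Finset.sum_congr rfl fun x _ => Finset.sum_comm, Finset.sum_comm]
    conv_rhs => rw [Finset.sum_comm]
    refine Finset.sum_congr rfl fun i' _ => ?_
    simp only [ofReal_mul, ← Finset.mul_sum]
    rw [step]

theorem model (hd : d.Good) : Model d.K (ft d.n d.D d.ψ) d.ν := by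
  intro Z hZ
  obtain ⟨v, h1, h2⟩ := model_gen hd Z hZ
  let e := Fintype.equivFin (Fin d.n × Z)
  refine ⟨Fintype.card (Fin d.n × Z), d.J, fun x α => v x (e.symm α),
    fun s α => d.c s (e.symm α).1, fun α => ?_, fun x hx y hy => ?_, fun c => ?_⟩
  · rw [Fin.sum_univ_eq_sum_range (fun s => d.c s (e.symm α).1 ^ 2)]
    exact hd.c_le _ (e.symm α).1.2
  · rw [← h1 x hx y hy]
    exact Equiv.sum_comp e.symm (fun α => v x α * conj (v y α))
  · rw [h2 c, ← Equiv.sum_comp e.symm]
    refine Finset.sum_congr rfl fun α _ => ?_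
    rw [← Equiv.sum_comp e.symm]

end BData

theorem sum_lower (n : ℕ) (G : ℕ → ℕ → ℝ) :
    ∑ m ∈ Finset.range n, ∑ j ∈ Finset.range (m + 1), G m j
      = ∑ r ∈ Finset.range n, ∑ j ∈ Finset.range (n - r), G (j + r) j := by
  rw [← Finset.sum_range_diag_flip n (fun r j => G (j + r) j)]
  refine Finset.sum_congr rfl fun m _ => ?_
  rw [← Finset.sum_flip (n := m) (fun j => G m j)]
  refine Finset.sum_congr rfl fun r hr => ?_
  rw [Nat.sub_add_cancel (Nat.lt_succ_iff.1 (Finset.mem_range.1 hr))]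

theorem sum_square (n : ℕ) (G : ℕ → ℕ → ℝ) :
    ∑ i ∈ Finset.range n, ∑ i' ∈ Finset.range n, G i i' + ∑ i ∈ Finset.range n, G i i
      = ∑ m ∈ Finset.range n, ∑ j ∈ Finset.range (m + 1), G m j
        + ∑ m ∈ Finset.range n, ∑ j ∈ Finset.range (m + 1), G j m := by
  induction n with
  | zero => simp
  | succ m ih =>
    rw [Finset.sum_range_succ (fun m => ∑ j ∈ Finset.range (m + 1), G m j),
      Finset.sum_range_succ (fun m => ∑ j ∈ Finset.range (m + 1), G j m),
      Finset.sum_range_succ (fun i => G i i),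
      Finset.sum_range_succ (fun i => ∑ i' ∈ Finset.range (m + 1), G i i'),
      Finset.sum_range_succ (fun j => G j m)]
    simp only [Finset.sum_range_succ (fun i' => G _ i') m, Finset.sum_add_distrib] at ih ⊢
    linarith

theorem sum_lag (n : ℕ) (W : ℕ → ℕ → ℝ) (hW : ∀ i i', W i i' = W i' i) (T : ℝ → ℝ) :
    ∑ i ∈ Finset.range n, ∑ i' ∈ Finset.range n, W i i' * T ((i : ℝ) - (i' : ℝ))
      = ∑ r ∈ Finset.range n, (∑ i ∈ Finset.range (n - r), W (i + r) i) * (T r + T (-r))
        - (∑ i ∈ Finset.range n, W i i) * T 0 := by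
  have h := sum_square n (fun i i' => W i i' * T ((i : ℝ) - (i' : ℝ)))
  rw [sum_lower n (fun i i' => W i i' * T ((i : ℝ) - (i' : ℝ))),
    sum_lower n (fun i i' => W i' i * T ((i' : ℝ) - (i : ℝ)))] at h
  rw [eq_sub_iff_add_eq, Finset.sum_mul]
  simp only [sub_self] at h
  rw [h, ← Finset.sum_add_distrib]
  refine Finset.sum_congr rfl fun r _ => ?_
  rw [Finset.sum_mul, ← Finset.sum_add_distrib]
  refine Finset.sum_congr rfl fun i _ => ?_
  rw [hW i (i + r)]
  push_cast
  ring_nf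

theorem lag_nonneg (n : ℕ) (W : ℕ → ℕ → ℝ) (hW : ∀ i i', W i i' = W i' i) (T : ℝ → ℝ)
    (hT : ∀ x, 0 ≤ T x) (h : ∀ r < n, 0 ≤ ∑ i ∈ Finset.range (n - r), W (i + r) i) :
    0 ≤ ∑ i ∈ Finset.range n, ∑ i' ∈ Finset.range n, W i i' * T ((i : ℝ) - (i' : ℝ)) := by
  rw [sum_lag n W hW]
  rcases n with _ | m
  · simp
  rw [Finset.sum_range_succ']
  have h0 := h 0 (Nat.succ_pos m)
  have h1 : 0 ≤ ∑ r ∈ Finset.range m, (∑ i ∈ Finset.range (m + 1 - (r + 1)), W (i + (r + 1)) i)
      * (T ((r + 1 : ℕ) : ℝ) + T (-((r + 1 : ℕ) : ℝ))) :=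
    Finset.sum_nonneg fun r hr => mul_nonneg
      (h (r + 1) (Nat.succ_lt_succ (Finset.mem_range.1 hr))) (add_nonneg (hT _) (hT _))
  simp only [Nat.sub_zero, add_zero, Nat.cast_zero, neg_zero] at h0 ⊢
  have := mul_nonneg h0 (hT 0)
  linarith

namespace BData

variable {d : BData}

/-- The minorant `f`. -/
noncomputable def fF (d : BData) (x : ℝ) : ℝ :=
  ‖ft d.n d.D d.h x‖ ^ 2 + ∑ t ∈ Finset.range d.T, ‖ft d.n d.D (d.g t) x‖ ^ 2

theorem KH_le (hd : d.Good) (a : ℝ) : KW d.n d.D d.H a ≤ KW d.n d.D d.w a := by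
  have hD := D_pos hd
  have := lag_nonneg d.n (fun i i' => d.w i i' - d.H i i')
    (fun i i' => by rw [w_symm, H_symm]) (fun j => d.D * tent (a / d.D - j))
    (fun j => mul_nonneg hD.le (tent_nonneg _))
    (fun r hr => by rw [Finset.sum_sub_distrib]; exact sub_nonneg.2 (hd.lag r hr))
  simp only [sub_mul, Finset.sum_sub_distrib] at this
  exact sub_nonneg.1 this

theorem normSq_ft (n : ℕ) (D : ℝ) (α : ℕ → ℝ) (x : ℝ) :
    ((‖ft n D α x‖ ^ 2 : ℝ) : ℂ) = ∑ i ∈ Finset.range n, ∑ i' ∈ Finset.range n,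
      ((α i * α i' : ℝ) : ℂ) * (cell n D i x * cell n D i' (-x)) := by
  rw [ofReal_pow, ← Complex.mul_conj', conj_ft, conj_ofReal, ft, ft, Finset.sum_mul_sum]
  refine Finset.sum_congr rfl fun i _ => Finset.sum_congr rfl fun i' _ => ?_
  push_cast; ring

theorem h1 (hd : d.Good) : H1 d.K d.fF := by
  intro X w hX
  have hD := D_pos hd
  have hc : Continuous fun a => ‖mu X (fun x => (w x : ℂ)) a‖ ^ 2 :=
    (continuous_mu X _).norm.pow 2
  rw [int_K hd, K_eq]
  refine le_trans (le_of_eq ?_) (integral_mono (KW_mu_integrable d.n hD d.H hc)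
    (KW_mu_integrable d.n hD d.w hc) fun a =>
      mul_le_mul_of_nonneg_right (KH_le hd a) (by positivity))
  apply Complex.ofReal_injective
  rw [KW_mu d.n hD, ofReal_sum]
  refine Finset.sum_congr rfl fun x hx => ?_
  rw [ofReal_sum]
  refine Finset.sum_congr rfl fun y hy => ?_
  have e : x - conj y = ((x.re - y.re : ℝ) : ℂ) := by
    apply Complex.ext <;> simp [hX x hx, hX y hy]
  rw [e, conj_ofReal, ofReal_mul, ofReal_mul]
  congr 1
  rw [fF, ofReal_add, ofReal_sum, normSq_ft]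
  simp only [normSq_ft, BData.H, ofReal_add, ofReal_sum, add_mul, Finset.sum_add_distrib,
    Finset.sum_mul]
  congr 1
  rw [Finset.sum_comm]
  refine Finset.sum_congr rfl fun i _ => ?_
  rw [Finset.sum_comm]

end BData

end Pool.Agent.MP_f259ea_nt
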