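import Pool.Agent.MP_f259ea_nt.C_Data

/-!
The numerical certificate.
-/

set_option autoImplicit false

open Finset

namespace Pool.Agent.MP_f259ea_nt

def dotL : List ℤ → List ℤ → ℤ
  | a :: as, b :: bs => a * b + dotL as bs
  | _, _ => 0

theorem dotL_eq : ∀ (A B : List ℤ) (n : ℕ), A.length ≤ n →
    dotL A B = ∑ i ∈ range n, A.getD i 0 * B.getD i 0
  | [], B, n, _ => by simp [dotL]
  | a :: as, [], n, _ => by simp [dotL]
  | a :: as, b :: bs, 0, h => by simp at h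
  | a :: as, b :: bs, n + 1, h => by
    rw [dotL, sum_range_succ', dotL_eq as bs n (by simpa using h)]
    simp [add_comm]

def acL (L : List ℤ) (r : ℕ) : ℤ := dotL (L.drop r) L

theorem acL_eq (L : List ℤ) (n r : ℕ) (h : L.length = n) :
    acL L r = ∑ i ∈ range (n - r), L.getD (i + r) 0 * L.getD i 0 := by
  rw [acL, dotL_eq _ _ (n - r) (by simp [h])]
  refine sum_congr rfl fun i _ => ?_
  simp [add_comm]

theorem sumL_eq (L : List ℤ) (n : ℕ) (h : L.length = n) :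
    L.sum = ∑ i ∈ range n, L.getD i 0 := by
  subst h
  induction L with
  | nil => simp
  | cons a as ih => rw [List.length_cons, sum_range_succ', List.sum_cons, ih]; simp [add_comm]

def Lξ : ℕ → List ℤ
  | 0 => Lξ0
  | 1 => Lξ1
  | 2 => Lξ2
  | _ => Lξ3

def Lg : ℕ → List ℤ
  | 0 => Lg0
  | _ => Lg1

noncomputable def dd : BData where
  n := 180
  M := 60
  J := 4
  T := 2
  ψ i := (Lψ.getD i 0 : ℝ) / 10000000
  c j i := ((Lξ j).getD i 0 : ℝ) / (Lψ.getD i 0 : ℝ)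
  h i := (Lh.getD i 0 : ℝ) / 10000000
  g t i := ((Lg t).getD i 0 : ℝ) / 10000000
  ν := 1 / 25
  σ := 59 / 20
  τ := 799 / 250
  b := 116789 / 500000
  l := 12 / 25
  kl := 7 / 10
  s := 7 / 10

def lagW (r : ℕ) : ℤ := acL Lψ r - (acL Lξ0 r + acL Lξ1 r + acL Lξ2 r + acL Lξ3 r)

theorem lagZ : ∀ r < 180, acL Lh r + (acL Lg0 r + acL Lg1 r) ≤ lagW r := by decide +kernel

theorem cZ : ∀ i < 180, 25 * (Lξ0.getD i 0 ^ 2 + Lξ1.getD i 0 ^ 2 + Lξ2.getD i 0 ^ 2
    + Lξ3.getD i 0 ^ 2) ≤ Lψ.getD i 0 ^ 2 := by decide +kernel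

theorem ψZ : ∀ i < 180, 0 ≤ Lψ.getD i 0 ∧ (i < 60 ∨ 120 ≤ i → Lψ.getD i 0 = 0) := by
  decide +kernel

theorem majQ : ∀ i < 180, (Lψ.getD i 0 : ℚ) / 10000000 - (Lh.getD i 0 : ℚ) / 10000000 ≤
    116789 / 500000 * (max (1 - 987 / 100 * (12 / 25) ^ 2 *
      max ((((i : ℚ) - 180 / 2) * (1 / 60)) ^ 2) (((((i + 1 : ℕ) : ℚ) - 180 / 2) * (1 / 60)) ^ 2)
        / 6) 0) ^ 2 := by decide +kernel

def FQ (u : ℚ) : ℚ :=
  u - (4 * (987 / 100) * (12 / 25) ^ 2) * u ^ 3 / 6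
    + (4 * (987 / 100) * (12 / 25) ^ 2) ^ 2 * u ^ 5 / 120
    - (4 * (987 / 100) * (12 / 25) ^ 2) ^ 3 * u ^ 7 / 5040

theorem klQ : (7 / 10 : ℚ) ≤ ∑ i ∈ range 180, (Lψ.getD i 0 : ℚ) / 10000000 *
    (FQ ((((i + 1 : ℕ) : ℚ) - 180 / 2) * (1 / 60)) - FQ (((i : ℚ) - 180 / 2) * (1 / 60))) := by
  decide +kernel

theorem lenψ : Lψ.length = 180 := by decide +kernel
theorem lenh : Lh.length = 180 := by decide +kernel
theorem lenξ0 : Lξ0.length = 180 := by decide +kernel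
theorem lenξ1 : Lξ1.length = 180 := by decide +kernel
theorem lenξ2 : Lξ2.length = 180 := by decide +kernel
theorem lenξ3 : Lξ3.length = 180 := by decide +kernel
theorem leng0 : Lg0.length = 180 := by decide +kernel
theorem leng1 : Lg1.length = 180 := by decide +kernel
theorem sumψ : Lψ.sum = 600000000 := by decide +kernel
theorem sumh : Lh.sum = 593026410 := by decide +kernel
theorem sumg0 : Lg0.sum = 0 := by decide +kernel
theorem sumg1 : Lg1.sum = -8559348 := by decide +kernel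
theorem lag0 : lagW 0 = 5885282431895898 := by decide +kernel
theorem lagr : ∑ r ∈ range 180, lagW r * r = 3343016313740136965 := by decide +kernel

theorem dd_w {i i' : ℕ} (hi : i < 180) (hi' : i' < 180) : dd.w i i' =
    ((Lψ.getD i 0 * Lψ.getD i' 0 - (Lξ0.getD i 0 * Lξ0.getD i' 0 + Lξ1.getD i 0 * Lξ1.getD i' 0
      + Lξ2.getD i 0 * Lξ2.getD i' 0 + Lξ3.getD i 0 * Lξ3.getD i' 0) : ℤ) : ℝ)
      / 100000000000000 := by
  have z : ∀ k < 180, Lψ.getD k 0 = 0 → Lξ0.getD k 0 = 0 ∧ Lξ1.getD k 0 = 0 ∧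
      Lξ2.getD k 0 = 0 ∧ Lξ3.getD k 0 = 0 := by
    intro k hk h0
    have := cZ k hk
    rw [h0] at this
    have a0 := sq_nonneg (Lξ0.getD k 0)
    have a1 := sq_nonneg (Lξ1.getD k 0)
    have a2 := sq_nonneg (Lξ2.getD k 0)
    have a3 := sq_nonneg (Lξ3.getD k 0)
    refine ⟨?_, ?_, ?_, ?_⟩ <;> apply pow_eq_zero_iff (two_ne_zero) |>.1 <;> nlinarith
  simp only [BData.w, dd, sum_range_succ, range_zero, sum_empty, Lξ, zero_add]
  by_cases h1 : Lψ.getD i 0 = 0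
  · obtain ⟨e0, e1, e2, e3⟩ := z i hi h1
    rw [h1, e0, e1, e2, e3]; simp
  by_cases h2 : Lψ.getD i' 0 = 0
  · obtain ⟨e0, e1, e2, e3⟩ := z i' hi' h2
    rw [h2, e0, e1, e2, e3]; simp
  have h1' : (Lψ.getD i 0 : ℝ) ≠ 0 := by exact_mod_cast h1
  have h2' : (Lψ.getD i' 0 : ℝ) ≠ 0 := by exact_mod_cast h2
  push_cast
  field_simp
  ring

theorem dd_lagw {r : ℕ} :
    ∑ i ∈ range (180 - r), dd.w (i + r) i = (lagW r : ℝ) / 100000000000000 := by
  rw [sum_congr rfl fun i hi => dd_w (i := i + r) (i' := i)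
    (by have := mem_range.1 hi; omega) (by have := mem_range.1 hi; omega), ← sum_div, lagW,
    acL_eq _ _ _ lenψ, acL_eq _ _ _ lenξ0, acL_eq _ _ _ lenξ1, acL_eq _ _ _ lenξ2,
    acL_eq _ _ _ lenξ3, ← Int.cast_sum]
  simp only [sum_sub_distrib, sum_add_distrib]

theorem dd_lagH {r : ℕ} : ∑ i ∈ range (180 - r), dd.H (i + r) i
    = ((acL Lh r + (acL Lg0 r + acL Lg1 r) : ℤ) : ℝ) / 100000000000000 := by
  rw [acL_eq _ _ _ lenh, acL_eq _ _ _ leng0, acL_eq _ _ _ leng1, ← sum_add_distrib,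
    ← sum_add_distrib, Int.cast_sum, sum_div]
  refine sum_congr rfl fun i _ => ?_
  simp only [BData.H, dd, sum_range_succ, range_zero, sum_empty, Lg, zero_add]
  push_cast; ring

theorem sum_cast (L : List ℤ) (h : L.length = 180) :
    ∑ i ∈ range 180, (L.getD i 0 : ℝ) / 10000000 = (L.sum : ℝ) / 10000000 := by
  rw [sumL_eq L 180 h, Int.cast_sum, sum_div]

theorem dd_D : dd.D = 1 / 60 := by simp [BData.D, dd]

theorem dd_h0 : dd.h0 = 593026410 / 600000000 := by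
  rw [BData.h0, dd_D]
  change 1 / 60 * ∑ i ∈ range 180, (Lh.getD i 0 : ℝ) / 10000000 = _
  rw [sum_cast _ lenh, sumh]; norm_num

theorem dd_ρ : dd.ρ = (593026410 / 600000000) ^ 2 + (8559348 / 600000000) ^ 2 := by
  rw [BData.ρ, dd_h0, dd_D]
  change _ + ∑ t ∈ range 2, (1 / 60 * ∑ i ∈ range 180, ((Lg t).getD i 0 : ℝ) / 10000000) ^ 2 = _
  simp only [sum_range_succ _ 1, sum_range_succ _ 0, range_zero, sum_empty, Lg]
  rw [sum_cast _ leng0, sum_cast _ leng1, sumg0, sumg1]; norm_num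

theorem dd_good : dd.Good where
  M_pos := by decide
  ψ_nonneg := fun i hi => div_nonneg (by exact_mod_cast (ψZ i hi).1) (by norm_num)
  ψ_sum := by
    rw [dd_D]
    change 1 / 60 * ∑ i ∈ range 180, (Lψ.getD i 0 : ℝ) / 10000000 = _
    rw [sum_cast _ lenψ, sumψ]; norm_num
  supp := fun i hi i' hi' h => by
    change i' + 60 ≤ i at h
    change (Lψ.getD i 0 : ℝ) / 10000000 * ((Lψ.getD i' 0 : ℝ) / 10000000) = 0
    by_cases h1 : i' < 60
    · rw [(ψZ i' hi').2 (Or.inl h1)]; simp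
    · rw [(ψZ i hi).2 (Or.inr (by omega))]; simp
  c_le := fun i hi => by
    have h : (25 : ℝ) * ((Lξ0.getD i 0 : ℝ) ^ 2 + (Lξ1.getD i 0 : ℝ) ^ 2 + (Lξ2.getD i 0 : ℝ) ^ 2
      + (Lξ3.getD i 0 : ℝ) ^ 2) ≤ (Lψ.getD i 0 : ℝ) ^ 2 := by exact_mod_cast cZ i hi
    simp only [dd, sum_range_succ, range_zero, sum_empty, Lξ, zero_add, div_pow, ← add_div]
    rcases eq_or_lt_of_le (sq_nonneg (Lψ.getD i 0 : ℝ)) with h0 | h0
    · rw [← h0]; norm_num
    · rw [div_le_iff₀ h0]; linarith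
  lag := fun r hr => by
    change ∑ i ∈ range (180 - r), dd.H (i + r) i ≤ ∑ i ∈ range (180 - r), dd.w (i + r) i
    rw [dd_lagw, dd_lagH]
    exact div_le_div_of_nonneg_right (by exact_mod_cast lagZ r hr) (by norm_num)
  maj := fun i hi => by
    have h := (Rat.cast_le (K := ℝ)).2 (majQ i hi)
    simp only [BData.node, dd_D]
    simp only [dd]
    push_cast at h ⊢
    exact h
  kl_le := by
    have h := (Rat.cast_le (K := ℝ)).2 klQ
    simp only [BData.node, dd_D, BData.F]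
    simp only [dd, FQ] at h ⊢
    push_cast at h ⊢
    exact h
  ν_nonneg := by simp only [dd]; norm_num
  ν_le := by simp only [dd]; norm_num
  σ_pos := by simp only [dd]; norm_num
  τ_nonneg := by simp only [dd]; norm_num
  b_nonneg := by simp only [dd]; norm_num
  l_pos := by simp only [dd]; norm_num
  s_nonneg := by simp only [dd]; norm_num
  h0_nonneg := by rw [dd_h0]; norm_num
  σ_ge := by rw [dd_h0]; simp only [dd]; norm_num
  cp_σ := by simp only [BData.cp, dd]; norm_num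
  cp_ρ := by rw [dd_ρ]; simp only [BData.cp, dd]; norm_num
  pair := by rw [dd_ρ]; simp only [BData.cp, BData.t2, dd]; norm_num
  triple := by rw [dd_ρ]; simp only [BData.cp, BData.t2, dd]; norm_num
  cl21 := by rw [dd_ρ]; simp only [BData.cp, BData.t2, BData.ε, dd]; norm_num
  cl22 := by rw [dd_ρ]; simp only [BData.cp, BData.t2, BData.ε, dd]; norm_num
  cl111 := by rw [dd_ρ]; simp only [BData.cp, BData.t2, BData.ε, dd]; norm_num

theorem dd_J : Jval dd.K = 5885282431895898 / 100000000000000 * (1 / 60 + (1 / 60) ^ 3 / 3)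
    + 2 * (1 / 60) ^ 3 * (3343016313740136965 / 100000000000000) := by
  rw [BData.Jval_eq dd_good, dd_D]
  change ∑ i ∈ range 180, ∑ i' ∈ range 180, _ = _
  let T : ℝ → ℝ := fun x => if x = 0 then 1 / 60 + (1 / 60) ^ 3 / 3 else (1 / 60) ^ 3 * |x|
  have e : ∀ i i' : ℕ, (if i = i' then (1 / 60 + (1 / 60) ^ 3 / 3 : ℝ)
      else (1 / 60) ^ 3 * |(i : ℝ) - i'|) = T ((i : ℝ) - i') := by
    intro i i'
    simp only [T, sub_eq_zero, Nat.cast_inj]
  simp only [e]
  rw [sum_lag 180 dd.w BData.w_symm T]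
  have h0 : ∑ i ∈ range 180, dd.w i i = (lagW 0 : ℝ) / 100000000000000 := dd_lagw (r := 0)
  simp only [dd_lagw, h0]
  have e2 : ∀ r ∈ range 180, (lagW r : ℝ) / 100000000000000 * (T r + T (-r))
      = 2 * (1 / 60) ^ 3 * (((lagW r * r : ℤ) : ℝ) / 100000000000000)
        + if r = 0 then (lagW 0 : ℝ) / 100000000000000 * (2 * T 0) else 0 := by
    intro r _
    split_ifs with h
    · subst h; simp only [Nat.cast_zero, neg_zero]; push_cast; ring
    · have : (r : ℝ) ≠ 0 := by exact_mod_cast h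
      simp only [T, this, neg_eq_zero, if_false, abs_neg, Nat.abs_cast]
      push_cast; ring
  rw [sum_congr rfl e2, sum_add_distrib, ← mul_sum, ← sum_div, ← Int.cast_sum, lagr,
    sum_ite_eq' (range 180) 0, if_pos (by simp), lag0]
  simp only [T, if_true]
  push_cast; ring

/-- The constant: `0.8396 * (2 ρ) < 3 ρ - J`. -/
theorem dd_const : (8396 / 10000 : ℝ) * (2 * dd.ρ) < 3 * dd.ρ - 0 - Jval dd.K := by
  rw [dd_J, dd_ρ]; norm_num

theorem dd_ρ_pos : 0 < dd.ρ := by rw [dd_ρ]; norm_num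

/-- Parts A and B give the bound `0.8396`. -/
theorem target_of (hA : StmtA) (hB : StmtBMain) : Target (8396 / 10000) :=
  hA dd.K (3 * dd.ρ) (2 * dd.ρ) 0 _ BData.K_continuous.continuousOn
    (fun a _ => BData.K_nonneg dd_good a) (by have := dd_ρ_pos; linarith) le_rfl
    (hB dd dd_good) dd_const

end Pool.Agent.MP_f259ea_nt
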