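import Pool.Agent.MP_f259ea_nt.C_Iface

/-!
Fourier transform of the tent function and of piecewise linear kernels.
-/

set_option autoImplicit false

open Complex MeasureTheory Set
open scoped Real ComplexConjugate

namespace Pool.Agent.MP_f259ea_nt

theorem tent_nonneg (x : ℝ) : 0 ≤ tent x := le_max_right _ _

theorem continuous_tent : Continuous tent := by
  unfold tent; fun_prop

theorem tent_eq_zero {x : ℝ} (hx : 1 ≤ |x|) : tent x = 0 := by
  unfold tent; exact max_eq_right (by linarith)

theorem tent_neg (x : ℝ) : tent (-x) = tent x := by simp [tent]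

theorem tent_of_le {x : ℝ} (hx : |x| ≤ 1) : tent x = 1 - |x| := by
  unfold tent; exact max_eq_left (by linarith)

/-- `∫_0^D exp (c u) du`. -/
noncomputable def cE (D : ℝ) (c : ℂ) : ℂ := ∫ u in (0 : ℝ)..D, Complex.exp (c * u)

theorem int_lin_exp (D : ℝ) {c : ℂ} (hc : c ≠ 0) :
    ∫ a in (0 : ℝ)..D, ((D - a : ℝ) : ℂ) * Complex.exp (c * a)
      = (Complex.exp (c * D) - 1) / c ^ 2 - D / c := by
  have h : ∀ a ∈ uIcc (0 : ℝ) D, HasDerivAt
      (fun a : ℝ => ((D - a : ℝ) : ℂ) * Complex.exp (c * a) / c + Complex.exp (c * a) / c ^ 2)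
      (((D - a : ℝ) : ℂ) * Complex.exp (c * a)) a := by
    intro a _
    have h1 : HasDerivAt (fun a : ℝ => Complex.exp (c * a)) (Complex.exp (c * a) * c) a := by
      have := ((hasDerivAt_id (a : ℂ)).const_mul c).cexp.comp_ofReal
      simpa using this
    have h2 : HasDerivAt (fun a : ℝ => ((D - a : ℝ) : ℂ)) (-1) a := by
      have := ((hasDerivAt_id a).const_sub D).ofReal_comp
      simpa using this
    have := ((h2.mul h1).div_const c).add (h1.div_const (c ^ 2))
    refine this.congr_deriv ?_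
    field_simp
    ring
  rw [intervalIntegral.integral_eq_sub_of_hasDerivAt h
    (Continuous.intervalIntegrable (by fun_prop) _ _)]
  simp only [sub_self, ofReal_zero, zero_mul, zero_div, zero_add, sub_zero, mul_zero,
    Complex.exp_zero, mul_one]
  ring

theorem tent_integral_base {D : ℝ} (hD : 0 < D) (c : ℂ) :
    ∫ a : ℝ, ((D * tent (a / D) : ℝ) : ℂ) * Complex.exp (c * a) = cE D c * cE D (-c) := by
  have hs : Function.support (fun a : ℝ => ((D * tent (a / D) : ℝ) : ℂ) * Complex.exp (c * a))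
      ⊆ Ioc (-D) D := by
    intro a ha
    by_contra hn
    apply ha
    have : 1 ≤ |a / D| := by
      rw [abs_div, abs_of_pos hD, le_div_iff₀ hD, one_mul, le_abs]
      simp only [mem_Ioc, not_and_or, not_lt, not_le] at hn
      rcases hn with h | h
      · right; linarith
      · left; linarith
    simp [tent_eq_zero this]
  have hc : Continuous (fun a : ℝ => ((D * tent (a / D) : ℝ) : ℂ) * Complex.exp (c * a)) := by
    have := continuous_tent
    fun_prop
  rw [← intervalIntegral.integral_eq_integral_of_support_subset hs,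
    ← intervalIntegral.integral_add_adjacent_intervals (b := 0)
      (hc.intervalIntegrable _ _) (hc.intervalIntegrable _ _)]
  have e1 : ∫ a in (0 : ℝ)..D, ((D * tent (a / D) : ℝ) : ℂ) * Complex.exp (c * a)
      = ∫ a in (0 : ℝ)..D, ((D - a : ℝ) : ℂ) * Complex.exp (c * a) := by
    refine intervalIntegral.integral_congr fun a ha => ?_
    rw [uIcc_of_le hD.le] at ha
    have : |a / D| = a / D := abs_of_nonneg (div_nonneg ha.1 hD.le)
    have h2 : D * tent (a / D) = D - a := by
      rw [tent_of_le (by rw [this, div_le_one hD]; exact ha.2), this]; field_simp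
    simp only [h2]
  have e2 : ∫ a in (-D)..(0 : ℝ), ((D * tent (a / D) : ℝ) : ℂ) * Complex.exp (c * a)
      = ∫ a in (0 : ℝ)..D, ((D - a : ℝ) : ℂ) * Complex.exp (-c * a) := by
    have := intervalIntegral.integral_comp_neg (a := 0) (b := D)
      (fun a : ℝ => ((D * tent (a / D) : ℝ) : ℂ) * Complex.exp (c * a))
    rw [neg_zero] at this
    rw [← this]
    refine intervalIntegral.integral_congr fun a ha => ?_
    rw [uIcc_of_le hD.le] at ha
    have : |a / D| = a / D := abs_of_nonneg (div_nonneg ha.1 hD.le)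
    have h2 : D * tent (-a / D) = D - a := by
      rw [neg_div, tent_neg, tent_of_le (by rw [this, div_le_one hD]; exact ha.2), this]
      field_simp
    simp only [h2]
    congr 2
    push_cast; ring
  rw [e1, e2]
  rcases eq_or_ne c 0 with rfl | hc0
  · simp only [cE, neg_zero, zero_mul, Complex.exp_zero, mul_one]
    rw [intervalIntegral.integral_ofReal, intervalIntegral.integral_sub
      (intervalIntegrable_const) (continuous_id'.intervalIntegrable _ _)]
    simp only [intervalIntegral.integral_const, integral_id, sub_zero, smul_eq_mul, real_smul,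
      mul_one]
    push_cast; ring
  · rw [int_lin_exp D hc0, int_lin_exp D (neg_ne_zero.2 hc0), cE, cE,
      integral_exp_mul_complex hc0, integral_exp_mul_complex (neg_ne_zero.2 hc0)]
    have : Complex.exp (c * D) * Complex.exp (-c * D) = 1 := by
      rw [← Complex.exp_add]; simp
    simp only [ofReal_zero, mul_zero, Complex.exp_zero]
    generalize Complex.exp (c * D) = A at this ⊢
    generalize Complex.exp (-c * D) = B at this ⊢
    field_simp
    linear_combination this

theorem tent_integral {D : ℝ} (hD : 0 < D) (j : ℝ) (c : ℂ) :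
    ∫ a : ℝ, ((D * tent (a / D - j) : ℝ) : ℂ) * Complex.exp (c * a)
      = Complex.exp (c * (j * D)) * (cE D c * cE D (-c)) := by
  rw [← tent_integral_base hD c, ← integral_const_mul,
    ← integral_add_right_eq_self _ (j * D)]
  congr 1; funext a
  have : (a + j * D) / D - j = a / D := by field_simp; ring
  rw [this]; push_cast
  rw [mul_add, Complex.exp_add]; ring

theorem tent_integrable {D : ℝ} (hD : 0 < D) (j : ℝ) {g : ℝ → ℂ} (hg : Continuous g) :
    Integrable (fun a : ℝ => ((D * tent (a / D - j) : ℝ) : ℂ) * g a) := by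
  have := continuous_tent
  refine Continuous.integrable_of_hasCompactSupport (by fun_prop) ?_
  refine HasCompactSupport.intro (K := Icc ((j - 1) * D) ((j + 1) * D)) isCompact_Icc ?_
  intro a ha
  have : 1 ≤ |a / D - j| := by
    simp only [mem_Icc, not_and_or, not_le] at ha
    rw [le_abs]
    rcases ha with h | h
    · right
      have : a / D < j - 1 := by rw [div_lt_iff₀ hD]; exact h
      linarith
    · left
      have : j + 1 < a / D := by rw [lt_div_iff₀ hD]; exact h
      linarith
  simp [tent_eq_zero this]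

/-- Piecewise linear kernel of a matrix `W`. -/
noncomputable def KW (n : ℕ) (D : ℝ) (W : ℕ → ℕ → ℝ) (a : ℝ) : ℝ :=
  ∑ i ∈ Finset.range n, ∑ i' ∈ Finset.range n, W i i' * (D * tent (a / D - ((i : ℝ) - (i' : ℝ))))

/-- Fourier transform of the cell `[(i - n/2) D, (i + 1 - n/2) D]`. -/
noncomputable def cell (n : ℕ) (D : ℝ) (i : ℕ) (z : ℂ) : ℂ :=
  Complex.exp (2 * π * I * z * ((((i : ℝ) - (n : ℝ) / 2) * D : ℝ) : ℂ)) * cE D (2 * π * I * z)

theorem KW_integrable (n : ℕ) {D : ℝ} (hD : 0 < D) (W : ℕ → ℕ → ℝ) {g : ℝ → ℂ}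
    (hg : Continuous g) : Integrable (fun a : ℝ => (KW n D W a : ℂ) * g a) := by
  unfold KW
  push_cast
  simp_rw [Finset.sum_mul]
  refine integrable_finsetSum _ fun i _ => integrable_finsetSum _ fun i' _ => ?_
  have := (tent_integrable hD ((i : ℝ) - i') hg).const_mul (W i i' : ℂ)
  refine this.congr (Filter.Eventually.of_forall fun a => ?_)
  push_cast; ring

theorem KW_ft (n : ℕ) {D : ℝ} (hD : 0 < D) (W : ℕ → ℕ → ℝ) (z : ℂ) :
    ∫ a : ℝ, (KW n D W a : ℂ) * Complex.exp (2 * π * I * a * z)
      = ∑ i ∈ Finset.range n, ∑ i' ∈ Finset.range n, W i i' * (cell n D i z * cell n D i' (-z)) := by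
  have hint : ∀ i i' : ℕ, Integrable (fun a : ℝ => (W i i' : ℂ) *
      (((D * tent (a / D - ((i : ℝ) - i')) : ℝ) : ℂ) * Complex.exp (2 * π * I * z * a))) :=
    fun i i' => (tent_integrable hD ((i : ℝ) - i') (by fun_prop)).const_mul _
  have e : (fun a : ℝ => (KW n D W a : ℂ) * Complex.exp (2 * π * I * a * z)) = fun a : ℝ =>
      ∑ i ∈ Finset.range n, ∑ i' ∈ Finset.range n, (W i i' : ℂ) *
      (((D * tent (a / D - ((i : ℝ) - i')) : ℝ) : ℂ) * Complex.exp (2 * π * I * z * a)) := by
    funext a
    unfold KW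
    rw [ofReal_sum, Finset.sum_mul]
    refine Finset.sum_congr rfl fun i _ => ?_
    rw [ofReal_sum, Finset.sum_mul]
    refine Finset.sum_congr rfl fun i' _ => ?_
    rw [ofReal_mul, show 2 * π * I * a * z = 2 * π * I * z * a by ring]; ring
  rw [e, integral_finsetSum _ fun i _ => integrable_finsetSum _ fun i' _ => hint i i']
  refine Finset.sum_congr rfl fun i _ => ?_
  rw [integral_finsetSum _ fun i' _ => hint i i']
  refine Finset.sum_congr rfl fun i' _ => ?_
  rw [integral_const_mul, tent_integral hD]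
  congr 1
  unfold cell
  rw [show 2 * π * I * -z = -(2 * π * I * z) by ring]
  have : Complex.exp (2 * π * I * z * (((i : ℝ) - (i' : ℝ) : ℝ) * D)) =
      Complex.exp (2 * π * I * z * ((((i : ℝ) - (n : ℝ) / 2) * D : ℝ) : ℂ)) *
      Complex.exp (-(2 * π * I * z) * ((((i' : ℝ) - (n : ℝ) / 2) * D : ℝ) : ℂ)) := by
    rw [← Complex.exp_add]; congr 1; push_cast; ring
  rw [this]; ring

theorem continuous_mu (Z : Finset ℂ) (c : ℂ → ℂ) : Continuous (mu Z c) := by
  unfold mu; fun_prop

theorem normSq_mu (Z : Finset ℂ) (c : ℂ → ℂ) (a : ℝ) :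
    ((‖mu Z c a‖ ^ 2 : ℝ) : ℂ) = ∑ x ∈ Z, ∑ y ∈ Z,
      c x * conj (c y) * Complex.exp (2 * π * I * a * (x - conj y)) := by
  rw [ofReal_pow, ← Complex.mul_conj', mu, map_sum, Finset.sum_mul_sum]
  refine Finset.sum_congr rfl fun x _ => Finset.sum_congr rfl fun y _ => ?_
  rw [map_mul, ← Complex.exp_conj]
  have : Complex.exp (2 * π * I * a * (x - conj y)) =
      Complex.exp (2 * π * I * a * x) * Complex.exp (conj (2 * π * I * a * y)) := by
    rw [← Complex.exp_add]; congr 1
    simp only [map_mul, conj_ofReal, conj_I, map_ofNat]; ring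
  rw [this]; ring

theorem KW_mu (n : ℕ) {D : ℝ} (hD : 0 < D) (W : ℕ → ℕ → ℝ) (Z : Finset ℂ) (c : ℂ → ℂ) :
    ((∫ a : ℝ, KW n D W a * ‖mu Z c a‖ ^ 2 : ℝ) : ℂ) = ∑ x ∈ Z, ∑ y ∈ Z, c x * conj (c y) *
      ∑ i ∈ Finset.range n, ∑ i' ∈ Finset.range n,
        W i i' * (cell n D i (x - conj y) * cell n D i' (-(x - conj y))) := by
  rw [← integral_complex_ofReal]
  have hint : ∀ x y : ℂ, Integrable (fun a : ℝ => c x * conj (c y) *
      ((KW n D W a : ℂ) * Complex.exp (2 * π * I * a * (x - conj y)))) :=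
    fun x y => (KW_integrable n hD W (by fun_prop)).const_mul _
  have e : (fun a : ℝ => (((KW n D W a * ‖mu Z c a‖ ^ 2 : ℝ) : ℂ))) = fun a : ℝ =>
      ∑ x ∈ Z, ∑ y ∈ Z, c x * conj (c y) *
      ((KW n D W a : ℂ) * Complex.exp (2 * π * I * a * (x - conj y))) := by
    funext a
    rw [ofReal_mul, normSq_mu, Finset.mul_sum]
    refine Finset.sum_congr rfl fun x _ => ?_
    rw [Finset.mul_sum]
    refine Finset.sum_congr rfl fun y _ => ?_
    ring
  erw [e]
  rw [integral_finsetSum _ fun x _ => integrable_finsetSum _ fun y _ => hint x y]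
  refine Finset.sum_congr rfl fun x _ => ?_
  rw [integral_finsetSum _ fun y _ => hint x y]
  refine Finset.sum_congr rfl fun y _ => ?_
  rw [integral_const_mul, KW_ft n hD]

theorem KW_mu_integrable (n : ℕ) {D : ℝ} (hD : 0 < D) (W : ℕ → ℕ → ℝ) {g : ℝ → ℝ}
    (hg : Continuous g) : Integrable (fun a : ℝ => KW n D W a * g a) := by
  have := (KW_integrable n hD W (g := fun a => (g a : ℂ)) (by fun_prop)).re
  simpa using this

/-- The cell transform as an integral over the cell. -/
theorem cell_eq (n : ℕ) (D : ℝ) (i : ℕ) (z : ℂ) :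
    cell n D i z = ∫ u in (((i : ℝ) - (n : ℝ) / 2) * D)..((((i + 1 : ℕ) : ℝ) - (n : ℝ) / 2) * D),
      Complex.exp (2 * π * I * u * z) := by
  set s : ℝ := ((i : ℝ) - (n : ℝ) / 2) * D with hs
  have : (((i + 1 : ℕ) : ℝ) - (n : ℝ) / 2) * D = D + s := by rw [hs]; push_cast; ring
  rw [this]
  have h := intervalIntegral.integral_comp_add_right (a := 0) (b := D)
    (fun u : ℝ => Complex.exp (2 * π * I * u * z)) s
  rw [zero_add] at h
  rw [← h, cell, cE, ← hs, ← intervalIntegral.integral_const_mul]
  refine intervalIntegral.integral_congr fun u _ => ?_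
  rw [← Complex.exp_add]; congr 1; push_cast; ring

theorem conj_cell (n : ℕ) (D : ℝ) (i : ℕ) (z : ℂ) :
    conj (cell n D i z) = cell n D i (-conj z) := by
  rw [cell_eq, cell_eq]
  unfold intervalIntegral
  rw [map_sub, ← integral_conj, ← integral_conj]
  suffices h : ∀ u : ℝ, conj (Complex.exp (2 * π * I * u * z))
      = Complex.exp (2 * π * I * u * -conj z) by simp only [h]
  intro u
  rw [← Complex.exp_conj]; congr 1
  simp only [map_mul, conj_ofReal, conj_I, map_ofNat]; ring

theorem cell_zero (n : ℕ) (D : ℝ) (i : ℕ) : cell n D i 0 = D := by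
  simp [cell, cE]

end Pool.Agent.MP_f259ea_nt
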