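import Mathlib

/-!
Interface between the analytic part (A) and the finite-dimensional part (B, C) of the
distinct-zeros bound.
-/

set_option autoImplicit false

open Complex
open scoped Real ComplexConjugate

namespace Pool.Agent.MP_f259ea_nt

/-- The exponential sum `a ↦ ∑ x ∈ Z, c x * exp (2 π i a x)` over complex frequencies. -/
noncomputable def mu (Z : Finset ℂ) (c : ℂ → ℂ) (a : ℝ) : ℂ :=
  ∑ x ∈ Z, c x * Complex.exp (2 * π * I * a * x)

/-- The finite inequality (parts B and C).  `Z₀` is a conjugation-symmetric multiset of main points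
with multiplicities `m`, real parts in `[x₀, x₀ + R]`; `Z₁` is a conjugation-symmetric set of
extra points with arbitrary symmetric complex weights `c`. -/
def StmtB (K : ℝ → ℝ) (α β η : ℝ) : Prop :=
  ∃ C : ℝ, ∀ (Z₀ Z₁ : Finset ℂ) (m : ℂ → ℕ) (c : ℂ → ℂ) (x₀ R : ℝ), 0 ≤ R →
    (∀ x ∈ Z₀, conj x ∈ Z₀ ∧ m (conj x) = m x ∧ 1 ≤ m x ∧ x₀ ≤ x.re ∧ x.re ≤ x₀ + R) →
    (∀ x ∈ Z₁, conj x ∈ Z₁ ∧ c (conj x) = conj (c x)) →
    α * (∑ x ∈ Z₀, (m x : ℝ)) - β * (Z₀.card : ℝ) - η * R - C * (1 + ∑ x ∈ Z₁, (1 + ‖c x‖))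
      ≤ ∫ a in (-1 : ℝ)..1, K a * ‖mu Z₀ (fun x => (m x : ℂ)) a + mu Z₁ c a‖ ^ 2

/-- The pair-correlation functional `K 0 + ∫_{-1}^{1} |a| K a da`. -/
noncomputable def Jval (K : ℝ → ℝ) : ℝ := K 0 + ∫ a in (-1 : ℝ)..1, |a| * K a

/-- The target: asymptotically at least a proportion `c` of the zeros are distinct. -/
def Target (c : ℝ) : Prop :=
  ∀ (N : ℕ) [NeZero N] (χ : DirichletCharacter ℂ N), χ.IsPrimitive →
    ∃ T₀ : ℝ, ∀ T : ℝ, T₀ ≤ T →
      c * (∑ᶠ ρ ∈ {s : ℂ | 0 < s.re ∧ s.re < 1 ∧ T < s.im ∧ s.im ≤ 2 * T ∧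
              DirichletCharacter.LFunction χ s = 0},
            ((analyticOrderAt (DirichletCharacter.LFunction χ) ρ).toNat : ℝ))
        ≤ ({s : ℂ | 0 < s.re ∧ s.re < 1 ∧ T < s.im ∧ s.im ≤ 2 * T ∧
              DirichletCharacter.LFunction χ s = 0}.ncard : ℝ)

/-- Part A: the finite inequality for a continuous kernel `K ≥ 0` on `[-1,1]` gives the target. -/
def StmtA : Prop :=
  ∀ (K : ℝ → ℝ) (α β η c : ℝ), ContinuousOn K (Set.Icc (-1) 1) →
    (∀ a ∈ Set.Icc (-1 : ℝ) 1, 0 ≤ K a) → 0 < β → 0 ≤ η → StmtB K α β η →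
    c * β < α - η - Jval K → Target c

end Pool.Agent.MP_f259ea_nt
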