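import Mathlib

/-! Distribution in residue classes of integers with base `q` digits `0` and `1`. -/

namespace Pool.Agent.MP_f259ea_nt.FF

open Finset

/-- The integer with digits `1` on `S`. -/
def yy (q : ℕ) (S : Finset ℕ) : ℕ := ∑ i ∈ S, q ^ i

/-- The number of digit patterns in a residue class. -/
def cnt (q N M a : ℕ) : ℕ := ((range N).powerset.filter fun S => M ∣ yy q S + a).card

theorem norm_one_sub_pow {z : ℂ} (hz : ‖z‖ = 1) (j : ℕ) : ‖1 - z ^ j‖ ≤ j * ‖1 - z‖ := by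
  induction j with
  | zero => simp
  | succ j ih =>
    rw [show 1 - z ^ (j + 1) = (1 - z ^ j) + z ^ j * (1 - z) by ring]
    refine (norm_add_le _ _).trans ?_
    rw [norm_mul, norm_pow, hz, one_pow]
    push_cast
    linarith

theorem norm_geom {z : ℂ} (hz : ‖z‖ = 1) (n : ℕ) :
    (n : ℝ) - n * (n * ‖1 - z‖) ≤ ‖∑ j ∈ range n, z ^ j‖ := by
  have h1 : ‖∑ j ∈ range n, (1 - z ^ j)‖ ≤ n * (n * ‖1 - z‖) := by
    refine (norm_sum_le _ _).trans ?_
    have := sum_le_card_nsmul (range n) (fun j => ‖1 - z ^ j‖) (n * ‖1 - z‖) fun j hj =>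
      (norm_one_sub_pow hz j).trans (by gcongr; exact (mem_range.1 hj).le)
    simpa using this
  have h2 := norm_add_le (∑ j ∈ range n, (1 - z ^ j)) (∑ j ∈ range n, z ^ j)
  rw [← sum_add_distrib] at h2
  simp only [sub_add_cancel, sum_const, card_range, nsmul_eq_mul, mul_one,
    Complex.norm_natCast] at h2
  linarith

theorem geom_zero {z : ℂ} {M : ℕ} (h : z ^ M = 1) (h1 : z ≠ 1) : ∑ j ∈ range M, z ^ j = 0 := by
  rw [geom_sum_eq h1, h, sub_self, zero_div]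

theorem window {q M w : ℕ} (hq : 2 ≤ q) (hM : M ≠ 0) (hw : (M : ℝ) ≤ (3 / 2) ^ w) {z : ℂ}
    (h : z ^ M = 1) (h1 : z ≠ 1) : ∃ i ≤ w, 1 / (2 * (q : ℝ) ^ 2) ≤ ‖1 - z ^ q ^ i‖ := by
  have hz : ‖z‖ = 1 := Complex.norm_eq_one_of_pow_eq_one h hM
  have hq' : (2 : ℝ) ≤ q := by exact_mod_cast hq
  have hM' : (0 : ℝ) < M := by positivity
  by_contra! hc
  have h2 : ∀ i ≤ w, (3 / 2 : ℝ) ^ i ≤ M * ‖1 - z ^ q ^ i‖ := by
    intro i hi
    induction i with
    | zero =>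
      have := norm_geom hz M
      rw [geom_zero h h1, norm_zero] at this
      rw [pow_zero, pow_zero, pow_one]
      nlinarith
    | succ i ih =>
      have h3 := norm_geom (z := z ^ q ^ i) (by rw [norm_pow, hz, one_pow]) q
      have h4 := hc i (by omega)
      have h5 := ih (by omega)
      rw [lt_div_iff₀ (by positivity)] at h4
      rw [pow_succ q, pow_mul, ← mul_neg_geom_sum, norm_mul, pow_succ, ← mul_assoc]
      gcongr
      nlinarith
  have h3 := h2 w le_rfl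
  have h4 := hc w le_rfl
  rw [lt_div_iff₀ (by positivity)] at h4
  have h5 : 1 ≤ ‖1 - z ^ q ^ w‖ := le_of_mul_le_mul_left (by linarith) hM'
  nlinarith

/-- The saving per window. -/
noncomputable def rho (q : ℕ) : ℝ := 1 - (1 / (2 * (q : ℝ) ^ 2)) ^ 2 / 8

theorem rho_pos {q : ℕ} (hq : 2 ≤ q) : 0 < rho q := by
  have hq' : (2 : ℝ) ≤ q := by exact_mod_cast hq
  have h1 : 1 / (2 * (q : ℝ) ^ 2) ≤ 1 := by
    rw [div_le_one (by positivity)]
    nlinarith
  have h2 : 0 ≤ 1 / (2 * (q : ℝ) ^ 2) := by positivity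
  unfold rho
  nlinarith

theorem rho_lt {q : ℕ} (hq : 2 ≤ q) : rho q < 1 := sub_lt_self _ (by positivity)

theorem norm_one_add_le {z : ℂ} (hz : ‖z‖ = 1) : ‖1 + z‖ ≤ 2 :=
  (norm_add_le _ _).trans (by rw [hz, norm_one]; norm_num)

theorem norm_one_add_rho {q : ℕ} (hq : 2 ≤ q) {z : ℂ} (hz : ‖z‖ = 1)
    (h : 1 / (2 * (q : ℝ) ^ 2) ≤ ‖1 - z‖) : ‖1 + z‖ ≤ 2 * rho q := by
  have h1 := parallelogram_law_with_norm ℝ (1 : ℂ) z
  rw [hz, norm_one] at h1
  refine (pow_le_pow_iff_left₀ (norm_nonneg _) (by linarith [rho_pos hq]) two_ne_zero).1 ?_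
  have h2 : 0 ≤ 1 / (2 * (q : ℝ) ^ 2) := by positivity
  unfold rho
  generalize 1 / (2 * (q : ℝ) ^ 2) = e at *
  nlinarith [sq_nonneg (e ^ 2)]

theorem prod_triv {q : ℕ} {z : ℂ} (hz : ‖z‖ = 1) (s : Finset ℕ) :
    ‖∏ i ∈ s, (1 + z ^ q ^ i)‖ ≤ 2 ^ s.card := by
  rw [norm_prod, ← prod_const]
  exact prod_le_prod (fun _ _ => norm_nonneg _) fun i _ =>
    norm_one_add_le (by rw [norm_pow, hz, one_pow])

theorem prod_bound {q M w : ℕ} (hq : 2 ≤ q) (hM : M ≠ 0) (hw : (M : ℝ) ≤ (3 / 2) ^ w) (r j : ℕ) :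
    ∀ z : ℂ, z ^ M = 1 → (∀ i, z ^ q ^ i ≠ 1) →
      ‖∏ i ∈ range ((w + 1) * j + r), (1 + z ^ q ^ i)‖ ≤ 2 ^ ((w + 1) * j + r) * rho q ^ j := by
  induction j with
  | zero =>
    intro z h _
    simpa using prod_triv (q := q) (Complex.norm_eq_one_of_pow_eq_one h hM) (range r)
  | succ j ih =>
    intro z h h1
    have hz : ‖z‖ = 1 := Complex.norm_eq_one_of_pow_eq_one h hM
    have h2 := ih (z ^ q ^ (w + 1)) (by rw [← pow_mul, mul_comm, pow_mul, h, one_pow]) fun i => by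
      rw [← pow_mul, ← pow_add]
      exact h1 _
    obtain ⟨i, hi, h3⟩ := window hq hM hw h (by simpa using h1 0)
    have hi' : i ∈ range (w + 1) := mem_range.2 (by omega)
    have h4 := prod_triv (q := q) hz ((range (w + 1)).erase i)
    rw [card_erase_of_mem hi', card_range, Nat.add_sub_cancel] at h4
    have h5 := norm_one_add_rho hq (by rw [norm_pow, hz, one_pow]) h3
    have h6 := (rho_pos hq).le
    rw [show (w + 1) * (j + 1) + r = (w + 1) + ((w + 1) * j + r) by ring, prod_range_add,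
      ← mul_prod_erase _ _ hi', norm_mul, norm_mul]
    simp only [← pow_mul, ← pow_add] at h2
    calc _ ≤ 2 * rho q * 2 ^ w * (2 ^ ((w + 1) * j + r) * rho q ^ j) := by gcongr
      _ = _ := by ring

theorem cnt_fourier {q M w : ℕ} (hq : 2 ≤ q) (hM : M ≠ 0) (hc : M.Coprime q)
    (hw : (M : ℝ) ≤ (3 / 2) ^ w) (N a : ℕ) :
    |(cnt q N M a : ℝ) - 2 ^ N / M| ≤ 2 ^ N * rho q ^ (N / (w + 1)) := by
  obtain ⟨ζ, hζ⟩ : ∃ ζ : ℂ, IsPrimitiveRoot ζ M := ⟨_, Complex.isPrimitiveRoot_exp M hM⟩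
  have hp : ∀ t, (ζ ^ t) ^ M = 1 := fun t => by
    rw [← pow_mul, mul_comm, pow_mul, hζ.pow_eq_one, one_pow]
  have h1 : ∀ t, ∑ h ∈ range M, (ζ ^ t) ^ h = if M ∣ t then (M : ℂ) else 0 := fun t => by
    split_ifs with h
    · simp [(hζ.pow_eq_one_iff_dvd t).2 h]
    · exact geom_zero (hp t) fun h2 => h ((hζ.pow_eq_one_iff_dvd t).1 h2)
  have h2 : (cnt q N M a : ℂ) * M =
      ∑ h ∈ range M, (ζ ^ h) ^ a * ∏ i ∈ range N, (1 + (ζ ^ h) ^ q ^ i) := by
    simp only [prod_one_add, mul_sum]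
    rw [sum_comm, cnt, ← nsmul_eq_mul, ← sum_const, sum_filter]
    refine sum_congr rfl fun S _ => ?_
    rw [← h1]
    refine sum_congr rfl fun h _ => ?_
    rw [prod_pow_eq_pow_sum, ← pow_add, ← pow_mul, ← pow_mul, mul_comm, add_comm, yy]
  obtain ⟨e, rfl⟩ : ∃ e, M = e + 1 := ⟨M - 1, by omega⟩
  rw [sum_range_succ'] at h2
  simp only [pow_zero, one_pow, one_add_one_eq_two, prod_const, card_range, one_mul] at h2
  have h3 : ‖(cnt q N (e + 1) a : ℂ) * (e + 1 : ℕ) - 2 ^ N‖ ≤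
      e * (2 ^ N * rho q ^ (N / (w + 1))) := by
    rw [h2, add_sub_cancel_right]
    refine (norm_sum_le _ _).trans ?_
    have := sum_le_card_nsmul (range e) (fun h => ‖(ζ ^ (h + 1)) ^ a *
        ∏ i ∈ range N, (1 + (ζ ^ (h + 1)) ^ q ^ i)‖) (2 ^ N * rho q ^ (N / (w + 1))) fun h hh => by
      have h4 := prod_bound hq hM hw (N % (w + 1)) (N / (w + 1)) _ (hp (h + 1)) fun i h5 => by
        rw [← pow_mul, hζ.pow_eq_one_iff_dvd] at h5
        have := Nat.le_of_dvd (by omega) ((hc.pow_right i).dvd_of_dvd_mul_right h5)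
        have := mem_range.1 hh
        omega
      rw [Nat.div_add_mod] at h4
      rwa [norm_mul, norm_pow, Complex.norm_eq_one_of_pow_eq_one (hp _) hM, one_pow, one_mul]
    simpa using this
  have h4 : (cnt q N (e + 1) a : ℂ) * (e + 1 : ℕ) - 2 ^ N =
      ((cnt q N (e + 1) a : ℝ) * (e + 1 : ℕ) - 2 ^ N : ℝ) := by push_cast; rfl
  rw [h4, Complex.norm_real, Real.norm_eq_abs] at h3
  have h5 : (0 : ℝ) < (e + 1 : ℕ) := by positivity
  have h6 := (rho_pos hq).le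
  rw [sub_div' h5.ne', abs_div, abs_of_pos h5, div_le_iff₀ h5]
  refine h3.trans ?_
  rw [mul_comm]
  gcongr
  exact_mod_cast e.le_succ

theorem cnt_anti {q M w N : ℕ} (hq : 2 ≤ q) (hw : q ^ w ≤ M) (hN : w ≤ N) (a : ℕ) :
    cnt q N M a ≤ 2 ^ (N - w) := by
  have h1 : (range N \ range w).card = N - w := by
    rw [card_sdiff_of_subset (range_subset_range.2 hN), card_range, card_range]
  rw [cnt, ← h1, ← card_powerset]
  refine card_le_card_of_injOn (· \ range w) (fun S hS => ?_) fun S hS S' hS' h => ?_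
  · exact mem_powerset.2 (sdiff_subset_sdiff_left _ (mem_powerset.1 (mem_filter.1 hS).1))
  · have h2 : ∀ S : Finset ℕ, yy q S = yy q (S ∩ range w) + yy q (S \ range w) := fun S =>
      (sum_inter_add_sum_sdiff _ _ _).symm
    have h3 : ∀ S : Finset ℕ, yy q (S ∩ range w) < M := fun S =>
      (Nat.geomSum_lt hq fun i hi => mem_range.1 (mem_inter.1 hi).2).trans_le hw
    have h4 := (Nat.modEq_zero_iff_dvd.2 (mem_filter.1 hS).2).trans
      (Nat.modEq_zero_iff_dvd.2 (mem_filter.1 hS').2).symm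
    rw [h2 S, h2 S', show S \ range w = S' \ range w from h] at h4
    have h5 := geomSum_injective hq ((Nat.ModEq.add_right_cancel' _
      (Nat.ModEq.add_right_cancel' _ h4)).eq_of_lt_of_lt (h3 S) (h3 S'))
    rw [← sdiff_union_inter S (range w), ← sdiff_union_inter S' (range w), h5,
      show S \ range w = S' \ range w from h]

theorem cnt_le {q M w w' N : ℕ} (hq : 2 ≤ q) (hM : M ≠ 0) (hc : M.Coprime q)
    (hw : (q : ℝ) ^ w' ≤ (3 / 2) ^ w) (hN : w' ≤ N) (hr : rho q ^ (N / (w + 1)) ≤ 1 / 2 ^ w')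
    (a : ℕ) : (cnt q N M a : ℝ) ≤ 2 ^ N * (1 / M + 1 / 2 ^ w') := by
  rcases le_total M (q ^ w') with h | h
  · have h1 := (abs_le.1 (cnt_fourier hq hM hc (le_trans (by exact_mod_cast h) hw) N a)).2
    have h2 : (2 : ℝ) ^ N * rho q ^ (N / (w + 1)) ≤ 2 ^ N * (1 / 2 ^ w') := by gcongr
    rw [mul_add, mul_one_div]
    linarith
  · have h1 : (cnt q N M a : ℝ) ≤ 2 ^ (N - w') := by exact_mod_cast cnt_anti hq h hN a
    rw [pow_sub₀ _ two_ne_zero hN, ← one_div] at h1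
    have h2 : (0 : ℝ) ≤ 2 ^ N * (1 / M) := by positivity
    rw [mul_add]
    linarith

end Pool.Agent.MP_f259ea_nt.FF
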