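import Pool.Agent.MP_f259ea_nt.FFBits

/-! Digit patterns and intervals contain integers with prescribed gcd with `q ^ d - 1`. -/

namespace Pool.Agent.MP_f259ea_nt.FF

open Finset

theorem two_pow_omega {m : ℕ} (hm : m ≠ 0) : 2 ^ m.primeFactors.card ≤ m := by
  refine le_trans ?_ (Nat.le_of_dvd (Nat.pos_of_ne_zero hm) (Nat.prod_primeFactors_dvd m))
  exact pow_card_le_prod _ _ _ fun l hl => (Nat.prime_of_mem_primeFactors hl).two_le

theorem omega_le {q d : ℕ} (hq : 2 ≤ q) (hd : d ≠ 0) : (q ^ d - 1).primeFactors.card ≤ q * d := by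
  have h1 := Nat.one_lt_pow hd hq
  have h2 := two_pow_omega (m := q ^ d - 1) (by omega)
  have h3 : q ^ d ≤ 2 ^ (q * d) := by
    rw [pow_mul]
    exact Nat.pow_le_pow_left Nat.lt_two_pow_self.le d
  exact (Nat.pow_le_pow_iff_right (by norm_num : 1 < 2)).1 (by omega)

/-- The product that collects the primes of small order. -/
def WW (q T : ℕ) : ℕ := ∏ t ∈ Icc 1 T, (q ^ t - 1)

theorem coprime_pow_sub {q t : ℕ} (hq : 2 ≤ q) (ht : t ≠ 0) : (q ^ t - 1).Coprime q := by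
  have h1 : (q ^ t - 1).Coprime (q ^ t) := by
    have := Nat.one_lt_pow ht hq
    exact (Nat.coprime_self_sub_left this.le).2 (by simp)
  exact h1.coprime_dvd_right (dvd_pow_self q ht)

theorem WW_coprime {q : ℕ} (hq : 2 ≤ q) (T : ℕ) : (WW q T).Coprime q :=
  Nat.Coprime.prod_left fun _ ht => coprime_pow_sub hq (Nat.one_le_iff_ne_zero.1 (mem_Icc.1 ht).1)

theorem WW_ne {q : ℕ} (hq : 2 ≤ q) (T : ℕ) : WW q T ≠ 0 := prod_ne_zero_iff.2 fun t ht => by
  have := Nat.one_lt_pow (Nat.one_le_iff_ne_zero.1 (mem_Icc.1 ht).1) hq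
  omega

theorem WW_le (q T : ℕ) (hq : 1 ≤ q) : WW q T ≤ q ^ (T * T) := by
  have := prod_le_pow_card (Icc 1 T) (fun t => q ^ t - 1) (q ^ T) fun t ht =>
    (Nat.sub_le _ _).trans (Nat.pow_le_pow_right hq (mem_Icc.1 ht).2)
  rwa [Nat.card_Icc, Nat.add_sub_cancel, ← pow_mul] at this

theorem ord_facts {q d l : ℕ} (hq : 2 ≤ q) (hd : d ≠ 0) (hl : l ∈ (q ^ d - 1).primeFactors) :
    orderOf (q : ZMod l) ∈ d.divisors ∧ orderOf (q : ZMod l) ∣ l - 1 ∧
      l ∣ q ^ orderOf (q : ZMod l) - 1 := by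
  have hp := Nat.prime_of_mem_primeFactors hl
  have := Fact.mk hp
  have key : ∀ t, l ∣ q ^ t - 1 ↔ (q : ZMod l) ^ t = 1 := fun t => by
    rw [← ZMod.natCast_eq_zero_iff, Nat.cast_sub (Nat.one_le_pow _ _ (by omega)), sub_eq_zero]
    simp
  have h1 := (key d).1 (Nat.dvd_of_mem_primeFactors hl)
  refine ⟨Nat.mem_divisors.2 ⟨orderOf_dvd_of_pow_eq_one h1, hd⟩,
    ZMod.orderOf_dvd_card_sub_one fun h => ?_, (key _).2 (pow_orderOf_eq_one _)⟩
  rw [h, zero_pow hd] at h1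
  exact zero_ne_one h1

theorem tail_sum {q d T Y : ℕ} (hq : 2 ≤ q) (hd : d ≠ 0) (hT : T ≠ 0) (hY : Y ≠ 0) :
    ∑ l ∈ (q ^ d - 1).primeFactors with ¬ l ∣ WW q T, (1 / l : ℝ) ≤
      d.divisors.card * (Y / T + q / Y) := by
  rw [← sum_fiberwise_of_maps_to (g := fun l => orderOf (q : ZMod l)) (t := d.divisors)
    fun l hl => (ord_facts hq hd (mem_filter.1 hl).1).1, ← nsmul_eq_mul]
  refine sum_le_card_nsmul _ _ _ fun t ht => ?_
  have ht0 : 0 < t := Nat.pos_of_mem_divisors ht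
  set L := ((q ^ d - 1).primeFactors.filter fun l => ¬ l ∣ WW q T).filter
    fun l => orderOf (q : ZMod l) = t
  have hL : ∀ l ∈ L, l.Prime ∧ t ∣ l - 1 ∧ l ∣ q ^ t - 1 ∧ T < t := fun l hl => by
    obtain ⟨h1, rfl⟩ := mem_filter.1 hl
    obtain ⟨h2, h3⟩ := mem_filter.1 h1
    obtain ⟨-, h4, h5⟩ := ord_facts hq hd h2
    exact ⟨Nat.prime_of_mem_primeFactors h2, h4, h5, lt_of_not_ge fun h =>
      h3 (h5.trans (dvd_prod_of_mem _ (mem_Icc.2 ⟨ht0, h⟩)))⟩
  rw [← sum_filter_add_sum_filter_not L fun l => l ≤ t * Y]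
  refine add_le_add ?_ ?_
  · have h1 : (L.filter fun l => l ≤ t * Y).card ≤ Y := by
      refine le_trans (card_le_card_of_injOn (fun l => (l - 1) / t) (fun l hl => ?_)
        fun l hl l' hl' h => ?_) (card_range Y).le
      · have := (mem_filter.1 hl).2
        have := (hL l (mem_filter.1 hl).1).1.pos
        exact mem_range.2 ((Nat.div_lt_iff_lt_mul ht0).2 (by rw [mul_comm]; omega))
      · obtain ⟨h2, h3, -⟩ := hL l (mem_filter.1 hl).1
        obtain ⟨h4, h5, -⟩ := hL l' (mem_filter.1 hl').1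
        have := (Nat.div_left_inj h3 h5).1 h
        have := h2.pos
        have := h4.pos
        omega
    refine (sum_le_card_nsmul _ _ (1 / T : ℝ) fun l hl => ?_).trans ?_
    · obtain ⟨h2, h3, -, h4⟩ := hL l (mem_filter.1 hl).1
      have h5 := Nat.le_of_dvd (Nat.sub_pos_of_lt h2.one_lt) h3
      gcongr
      omega
    · rw [nsmul_eq_mul, mul_one_div]
      gcongr
  · have h1 : (L.filter fun l => ¬ l ≤ t * Y).card ≤ q * t := by
      refine le_trans (card_le_card fun l hl => ?_) (omega_le hq ht0.ne')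
      obtain ⟨h2, -, h3, -⟩ := hL l (mem_filter.1 hl).1
      have := Nat.one_lt_pow ht0.ne' hq
      exact Nat.mem_primeFactors.2 ⟨h2, h3, by omega⟩
    refine (sum_le_card_nsmul _ _ (1 / (t * Y : ℕ) : ℝ) fun l hl => ?_).trans ?_
    · have h2 := (mem_filter.1 hl).2
      gcongr
      omega
    · rw [nsmul_eq_mul, mul_one_div, div_le_div_iff₀ (by positivity) (by positivity)]
      have h2 : ((L.filter fun l => ¬ l ≤ t * Y).card : ℝ) ≤ q * t := by exact_mod_cast h1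
      push_cast
      rw [← mul_assoc]
      gcongr

theorem gcd_eq_of {m g z : ℕ} (hg : g ∣ m) (h : ∀ l, l.Prime → l ∣ m → ¬ l ∣ z) :
    Nat.gcd m (g * z) = g := by
  obtain ⟨n, rfl⟩ := hg
  rw [Nat.gcd_mul_left, (Nat.coprime_of_dvd fun l hl h1 => h l hl (h1.mul_left g) :
    n.Coprime z), mul_one]

theorem exists_bits {q d T N w w' g A : ℕ} (hq : 2 ≤ q) (hd : d ≠ 0) (hT : T ≠ 0)
    (hg : g ∣ q ^ d - 1) (hA : A ≡ g [MOD (q - 1)])
    (htail : ∑ l ∈ (q ^ d - 1).primeFactors with ¬ l ∣ WW q T, (1 / l : ℝ) ≤ 1 / 2)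
    (hw : (q : ℝ) ^ w' ≤ (3 / 2) ^ w) (hN : w' ≤ N) (hr : rho q ^ (N / (w + 1)) ≤ 1 / 2 ^ w')
    (hM : 2 * (q * d + 1) * (g * WW q T) < 2 ^ w') :
    ∃ S ⊆ range N, Nat.gcd (q ^ d - 1) (A + q * ((q - 1) * yy q S)) = g := by
  have hm : q ^ d - 1 ≠ 0 := by have := Nat.one_lt_pow hd hq; omega
  have hg0 : g ≠ 0 := ne_zero_of_dvd_ne_zero hm hg
  have hW := WW_ne hq T
  have hqW : q - 1 ∣ WW q T := by
    have := dvd_prod_of_mem (fun t => q ^ t - 1)
      (mem_Icc.2 ⟨le_rfl, Nat.pos_of_ne_zero hT⟩ : 1 ∈ Icc 1 T)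
    rwa [pow_one] at this
  have hcm := coprime_pow_sub hq hd
  set W := WW q T
  set M := g * W with hMd
  have hM0 : M ≠ 0 := mul_ne_zero hg0 hW
  have hc : M.Coprime q := (hcm.coprime_dvd_left hg).mul_left (WW_coprime hq T)
  obtain ⟨B, hB⟩ := hA.symm.dvd
  obtain ⟨a, ha⟩ : ∃ a : ℕ, (M : ℤ) ∣ q * a - B := by
    have := NeZero.mk hM0
    refine ⟨((q : ZMod M)⁻¹ * B).val, (ZMod.intCast_zmod_eq_zero_iff_dvd _ _).1 ?_⟩
    push_cast
    rw [ZMod.natCast_zmod_val, ← mul_assoc, ZMod.coe_mul_inv_eq_one _ hc.symm, one_mul, sub_self]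
  set k : Finset ℕ → ℕ := fun S => A + q * ((q - 1) * yy q S)
  set L := (q ^ d - 1).primeFactors.filter fun l => ¬ l ∣ W
  set E := (range N).powerset.filter fun S => M ∣ yy q S + a
  have hbad : ∀ l ∈ L, ((E.filter fun S => g * l ∣ k S).card : ℝ) ≤
      2 ^ N * (1 / M * (1 / l) + 1 / 2 ^ w') := by
    intro l hl
    obtain ⟨h1, h2⟩ := mem_filter.1 hl
    have hp := Nat.prime_of_mem_primeFactors h1
    have hlq := hcm.coprime_dvd_left (Nat.dvd_of_mem_primeFactors h1)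
    rcases (E.filter fun S => g * l ∣ k S).eq_empty_or_nonempty with h | ⟨S0, h0⟩
    · rw [h, card_empty, Nat.cast_zero]
      positivity
    have h3 := cnt_le hq (mul_ne_zero hM0 hp.ne_zero) (hc.mul_left hlq) hw hN hr
      ((M * l - 1) * yy q S0)
    rw [Nat.cast_mul, ← one_div_mul_one_div] at h3
    refine le_trans (Nat.cast_le.2 (card_le_card fun S hS => ?_)) h3
    obtain ⟨h4, h5⟩ := mem_filter.1 hS
    obtain ⟨h6, h7⟩ := mem_filter.1 h0
    refine mem_filter.2 ⟨(mem_filter.1 h4).1, ?_⟩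
    obtain ⟨z, hz⟩ : (M : ℤ) ∣ (yy q S : ℤ) - yy q S0 := by
      simpa using dvd_sub (Int.natCast_dvd_natCast.2 (mem_filter.1 h4).2)
        (Int.natCast_dvd_natCast.2 (mem_filter.1 h6).2)
    have h8 : (g : ℤ) * l ∣ g * ((q * ((q - 1) * W) : ℕ) * z) := by
      have := dvd_sub (Int.natCast_dvd_natCast.2 h5) (Int.natCast_dvd_natCast.2 h7)
      rw [Nat.cast_mul g l] at this
      refine this.trans (dvd_of_eq ?_)
      simp only [k]
      push_cast [hMd] at hz ⊢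
      linear_combination (q * ((q - 1 : ℕ) : ℤ)) * hz
    have h9 : l.Coprime (q * ((q - 1) * W)) := hlq.mul_right
      (((hp.coprime_iff_not_dvd).2 fun h => h2 (h.trans hqW)).mul_right
        (hp.coprime_iff_not_dvd.2 h2))
    obtain ⟨z', rfl⟩ := (Nat.isCoprime_iff_coprime.2 h9).dvd_of_dvd_mul_left
      ((mul_dvd_mul_iff_left (Int.natCast_ne_zero.2 hg0)).1 h8)
    refine Int.natCast_dvd_natCast.1 ⟨z' + yy q S0, ?_⟩
    push_cast [Nat.cast_sub (Nat.pos_of_ne_zero (mul_ne_zero hM0 hp.ne_zero))]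
    linear_combination hz
  have hM' : (0 : ℝ) < M := by positivity
  have hE : (2 : ℝ) ^ N * (1 / M - 1 / 2 ^ w') ≤ E.card := by
    have h1 : (M : ℝ) ≤ q ^ w' := by
      have h2 : M ≤ q ^ w' := le_trans (le_trans (Nat.le_mul_of_pos_left _ (by positivity)) hM.le)
        (Nat.pow_le_pow_left hq w')
      exact_mod_cast h2
    have h2 := (abs_le.1 (cnt_fourier hq hM0 hc (h1.trans hw) N a)).1
    have h3 : (2 : ℝ) ^ N * rho q ^ (N / (w + 1)) ≤ 2 ^ N * (1 / 2 ^ w') := by gcongr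
    rw [mul_sub, mul_one_div]
    unfold cnt at h2
    linarith
  have hlt : ((L.biUnion fun l => E.filter fun S => g * l ∣ k S).card : ℝ) < E.card := by
    refine lt_of_le_of_lt (Nat.cast_le.2 card_biUnion_le) (lt_of_lt_of_le ?_ hE)
    rw [Nat.cast_sum]
    refine (sum_le_sum hbad).trans_lt ?_
    rw [← mul_sum, sum_add_distrib, ← mul_sum, sum_const, nsmul_eq_mul]
    have h1 : (L.card : ℝ) ≤ q * d := by
      exact_mod_cast (card_filter_le _ _).trans (omega_le hq hd)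
    have h2 : (q * d + 1 : ℝ) * (1 / 2 ^ w') < 1 / M * (1 / 2) := by
      rw [mul_one_div, one_div_mul_one_div, div_lt_div_iff₀ (by positivity) (by positivity)]
      have : (2 * (q * d + 1) * M : ℝ) < 2 ^ w' := by exact_mod_cast hM
      linarith
    have h3 : (1 / M : ℝ) * ∑ l ∈ L, (1 / l : ℝ) ≤ 1 / M * (1 / 2) := by gcongr
    have h4 : (L.card : ℝ) * (1 / 2 ^ w') ≤ q * d * (1 / 2 ^ w') := by gcongr
    gcongr
    linarith
  obtain ⟨S, h1, h2⟩ := exists_mem_notMem_of_card_lt_card (Nat.cast_lt.1 hlt)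
  refine ⟨S, mem_powerset.1 (mem_filter.1 h1).1, ?_⟩
  obtain ⟨z, hz⟩ : (M : ℤ) ∣ (k S : ℤ) - g := by
    have := (dvd_sub ((Int.natCast_dvd_natCast.2 (mem_filter.1 h1).2).mul_left q) ha).mul_left
      ((q - 1 : ℕ) : ℤ)
    refine this.trans (dvd_of_eq ?_)
    simp only [k]
    push_cast
    linear_combination -hB
  obtain ⟨y, hy⟩ : g ∣ k S := Int.natCast_dvd_natCast.1 ⟨1 + W * z, by
    push_cast [hMd] at hz
    linear_combination hz⟩
  have h3 : (y : ℤ) = 1 + W * z := mul_left_cancel₀ (Int.natCast_ne_zero.2 hg0) (by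
    rw [hy] at hz
    push_cast [hMd] at hz
    linear_combination hz)
  show Nat.gcd _ (k S) = g
  rw [hy]
  refine gcd_eq_of hg fun l hp h4 h5 => ?_
  by_cases h6 : l ∣ W
  · have h7 := Int.natCast_dvd_natCast.2 h5
    rw [h3, dvd_add_left ((Int.natCast_dvd_natCast.2 h6).mul_right z)] at h7
    exact hp.not_dvd_one (by exact_mod_cast h7)
  · exact h2 (mem_biUnion.2 ⟨l, mem_filter.2 ⟨Nat.mem_primeFactors.2 ⟨hp, h4, hm⟩, h6⟩,
      mem_filter.2 ⟨h1, hy ▸ mul_dvd_mul_left g h5⟩⟩)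

theorem legendre (P : Finset ℕ) : (∀ l ∈ P, l.Prime) → ∀ a b : ℕ, a ≤ b →
    |(((Ico a b).filter fun z => ∀ l ∈ P, ¬ l ∣ z).card : ℝ) -
      (b - a) * ∏ l ∈ P, (1 - 1 / l : ℝ)| ≤ 2 ^ P.card - 1 := by
  induction P using Finset.induction_on with
  | empty => intro _ a b h; simp [h]
  | insert p P hp ih =>
    intro hP a b h
    have h1 := hP p (mem_insert_self _ _)
    have h2 : ∀ l ∈ P, l.Prime := fun l hl => hP l (mem_insert_of_mem hl)
    have h0 := h1.pos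
    have e1 := ih h2 a b h
    have e2 := ih h2 ((a + p - 1) / p) ((b + p - 1) / p) (Nat.div_le_div_right (by omega))
    have hc : ∀ c z : ℕ, (c + p - 1) / p ≤ z ↔ c ≤ p * z := fun c z => by
      rw [Nat.div_le_iff_le_mul_add_pred h0]
      omega
    have e3 : ((Ico a b).filter fun z => ∀ l ∈ insert p P, ¬ l ∣ z).card +
        ((Ico ((a + p - 1) / p) ((b + p - 1) / p)).filter fun z => ∀ l ∈ P, ¬ l ∣ z).card =
        ((Ico a b).filter fun z => ∀ l ∈ P, ¬ l ∣ z).card := by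
      rw [← card_filter_add_card_filter_not (s := (Ico a b).filter fun z => ∀ l ∈ P, ¬ l ∣ z)
        (p ∣ ·), add_comm, filter_filter, filter_filter]
      congr 1
      · refine card_bij (fun z _ => p * z) (fun z hz => ?_) (fun _ _ _ _ h =>
          Nat.eq_of_mul_eq_mul_left h0 h) fun z hz => ?_
        · simp only [mem_filter, mem_Ico, hc, ← not_le] at hz ⊢
          refine ⟨hz.1, fun l hl h3 => ?_, dvd_mul_right _ _⟩
          rcases ((h2 l hl).dvd_mul).1 h3 with h4 | h4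
          · exact hp ((Nat.prime_dvd_prime_iff_eq (h2 l hl) h1).1 h4 ▸ hl)
          · exact hz.2 l hl h4
        · obtain ⟨h3, h4, y, rfl⟩ := mem_filter.1 hz
          refine ⟨y, ?_, rfl⟩
          simp only [mem_filter, mem_Ico, hc, ← not_le] at h3 ⊢
          exact ⟨h3, fun l hl h5 => h4 l hl (h5.mul_left p)⟩
      · simp only [forall_mem_insert, and_comm]
    have hp' : (0 : ℝ) < p := by exact_mod_cast h0
    have hce : ∀ c : ℕ, (c : ℝ) / p ≤ ((c + p - 1) / p : ℕ) ∧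
        (((c + p - 1) / p : ℕ) : ℝ) ≤ c / p + 1 := fun c => by
      have h3 := (hc c _).1 le_rfl
      have h4 := (Nat.mul_div_le (c + p - 1) p).trans (Nat.sub_le _ _)
      rw [div_le_iff₀' hp', div_add_one hp'.ne', le_div_iff₀' hp']
      exact ⟨by exact_mod_cast h3, by exact_mod_cast h4⟩
    have hr : ∀ l ∈ P, (0 : ℝ) ≤ 1 - 1 / l ∧ (1 - 1 / l : ℝ) ≤ 1 := fun l hl =>
      ⟨sub_nonneg.2 ((div_le_one (by exact_mod_cast (h2 l hl).pos)).2
        (by exact_mod_cast (h2 l hl).pos)), sub_le_self _ (by positivity)⟩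
    have r0 := prod_nonneg fun l hl => (hr l hl).1
    have r1 := prod_le_one (fun l hl => (hr l hl).1) fun l hl => (hr l hl).2
    have e4 := congrArg (Nat.cast (R := ℝ)) e3
    rw [Nat.cast_add] at e4
    rw [prod_insert hp, card_insert_of_notMem hp, pow_succ]
    obtain ⟨a1, a2⟩ := hce a
    obtain ⟨b1, b2⟩ := hce b
    rw [abs_le] at e1 e2 ⊢
    generalize ∏ l ∈ P, (1 - 1 / l : ℝ) = r at *
    have e5 : ((b : ℝ) - a) * ((1 - 1 / p) * r) = (b - a) * r - (b / p - a / p) * r := by ring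
    rw [e5]
    constructor <;> nlinarith

theorem exists_interval {m g H : ℕ} (A : ℕ) (hg : g ∣ m) (hm : m ≠ 0)
    (hH : g * (4 ^ m.primeFactors.card + 1) ≤ H) : ∃ r < H, Nat.gcd m (r + A) = g := by
  have hg0 : 0 < g := Nat.pos_of_dvd_of_pos hg (Nat.pos_of_ne_zero hm)
  have hP : ∀ l ∈ m.primeFactors, l.Prime := fun l => Nat.prime_of_mem_primeFactors
  have h1 := (abs_le.1 (legendre _ hP (A / g + 1) (A / g + 1 + 4 ^ m.primeFactors.card)
    (Nat.le_add_right _ _))).1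
  have h2 : (1 / 2 : ℝ) ^ m.primeFactors.card ≤ ∏ l ∈ m.primeFactors, (1 - 1 / l : ℝ) := by
    rw [← prod_const]
    refine prod_le_prod (fun _ _ => by norm_num) fun l hl => ?_
    have : (1 / l : ℝ) ≤ 1 / 2 := by gcongr; exact_mod_cast (hP l hl).two_le
    linarith
  have h3 : (4 : ℝ) ^ m.primeFactors.card * (1 / 2) ^ m.primeFactors.card =
      2 ^ m.primeFactors.card := by rw [← mul_pow]; norm_num
  have h4 := mul_le_mul_of_nonneg_left h2 (by positivity : (0 : ℝ) ≤ 4 ^ m.primeFactors.card)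
  push_cast at h1
  rw [add_sub_cancel_left] at h1
  obtain ⟨z, hz⟩ := card_pos.1 (Nat.cast_pos.1 (by linarith : (0 : ℝ) < (((Ico (A / g + 1)
    (A / g + 1 + 4 ^ m.primeFactors.card)).filter fun z => ∀ l ∈ m.primeFactors, ¬ l ∣ z).card)))
  obtain ⟨h5, h6⟩ := mem_filter.1 hz
  obtain ⟨h7, h8⟩ := mem_Ico.1 h5
  have h9 := Nat.div_add_mod A g
  have h10 := Nat.mod_lt A hg0
  have h11 := Nat.mul_le_mul_left g h7
  have h12 := (Nat.mul_lt_mul_left hg0).2 h8
  simp only [mul_add, mul_one] at h11 h12 hH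
  refine ⟨g * z - A, by omega, ?_⟩
  rw [Nat.sub_add_cancel (by omega)]
  exact gcd_eq_of hg fun l h hl => h6 l (Nat.mem_primeFactors.2 ⟨h, hl, hm⟩)

end Pool.Agent.MP_f259ea_nt.FF
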