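import Pool.Agent.MP_f259ea_nt.FFCore
import Pool.Agent.MP_f259ea_nt.FFSieve

/-! Exceptional sets of moduli for characters of a given index. -/

namespace Pool.Agent.MP_f259ea_nt.FF

open Finset Polynomial

variable {F : Type} [Field F] [Fintype F]

theorem free_top : Free F (Fintype.card F - 1) := by
  obtain ⟨p, hc⟩ := CharP.exists F
  obtain ⟨n, hp, hn⟩ := FiniteField.card F p
  have hq := two_le_card (F := F)
  intro y
  induction y with
  | zero => simp
  | succ y ih =>
    intro hy h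
    have h1 : (((Fintype.card F - 1 + 1).choose (y + 1) : ℕ) : F) = 0 := by
      rw [Nat.sub_add_cancel (by omega), CharP.cast_eq_zero_iff F p, hn]
      exact hp.dvd_choose_pow (by omega) (by omega)
    rw [Nat.choose_succ_succ', Nat.cast_add, h, add_zero] at h1
    exact ih (by omega) h1

theorem free_lt (hp : (Fintype.card F).Prime) {a : ℕ} (ha : a ≤ Fintype.card F - 1) :
    Free F a := fun y hy h => by
  have := Fact.mk hp
  have := charP_of_card_eq_prime (R := F) rfl
  have hq := hp.two_le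
  have h1 := ((CharP.cast_eq_zero_iff F (Fintype.card F) _).1 h).mul_right
    (y.factorial * (a - y).factorial)
  rw [← mul_assoc, Nat.choose_mul_factorial_mul_factorial hy, hp.dvd_factorial] at h1
  omega

/-- The digit list of a pattern. -/
def bl (q : ℕ) (S : Finset ℕ) (N : ℕ) : List ℕ :=
  (List.range N).map fun i => if i ∈ S then q - 1 else 0

theorem val_bl (q : ℕ) (S : Finset ℕ) (N : ℕ) :
    val q (bl q S N) = (q - 1) * yy q ((range N).filter (· ∈ S)) := by
  induction N with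
  | zero => simp [bl, val, yy]
  | succ N ih =>
    rw [bl, List.range_succ, List.map_append, val_append, ← bl, ih, yy, yy, sum_filter, sum_filter,
      sum_range_succ]
    by_cases h : N ∈ S
    · simp [bl, val, h]
      ring
    · simp [val, h]

/-- The lowest digits of a number. -/
def dig (q : ℕ) : ℕ → ℕ → List ℕ
  | 0, _ => []
  | n + 1, r => r % q :: dig q n (r / q)

theorem dig_facts {q : ℕ} (hq : 0 < q) : ∀ n r : ℕ, r < q ^ n →
    (dig q n r).length = n ∧ val q (dig q n r) = r ∧ ∀ x ∈ dig q n r, x ≤ q - 1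
  | 0, r, h => by simpa [dig, val, eq_comm] using h
  | n + 1, r, h => by
    obtain ⟨h1, h2, h3⟩ := dig_facts hq n (r / q) ((Nat.div_lt_iff_lt_mul hq).2 h)
    refine ⟨by simp [dig, h1], by rw [dig, val, h2, Nat.mod_add_div], fun x hx => ?_⟩
    rcases List.mem_cons.1 hx with rfl | hx
    · exact Nat.le_sub_one_of_lt (Nat.mod_lt _ hq)
    · exact h3 x hx

variable (F) in
/-- A polynomial of bounded degree detects the bad moduli for the index `g`. -/
def Det (d g D : ℕ) : Prop := ∃ Δ : F[X], Δ ≠ 0 ∧ Δ.natDegree ≤ D ∧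
  ∀ Q : F[X], Q.Monic → Irreducible Q → Q.natDegree = d → ¬ Q ∣ Δ →
    ∀ χ : MulChar (AdjoinRoot Q) ℂ, χ ≠ 1 → orderOf χ * g = Fintype.card F ^ d - 1 → SimpleP χ

theorem det_bits {d N a b g : ℕ} (ha : a ≠ 0) (hb : b ≠ 0) (hd : N + 1 + a + b = d)
    (h : ∀ A, A ≡ g [MOD (Fintype.card F - 1)] → ∃ S ⊆ range N, Nat.gcd (Fintype.card F ^ d - 1)
      (A + Fintype.card F * ((Fintype.card F - 1) * yy (Fintype.card F) S)) = g) :
    Det F d g ((2 * d + 1) *
      (d * (Fintype.card F ^ (N + 1 + a) + Fintype.card F ^ (N + 1 + b)))) := by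
  have hq := two_le_card (F := F)
  have ht := free_top (F := F)
  set q := Fintype.card F
  obtain ⟨S, h1, h2⟩ := h (g % (q - 1) + q ^ (N + 1) * (q ^ a - 1)) (by
    have := (Nat.modEq_zero_iff_dvd.2 ((Nat.sub_one_dvd_pow_sub_one q a).mul_left
      (q ^ (N + 1)))).add_left (g % (q - 1))
    exact this.trans (Nat.mod_modEq _ _))
  have hc : g % (q - 1) ≤ q - 1 := (Nat.mod_lt _ (by omega)).le
  have hb' : ∀ x ∈ bl q S N, x = q - 1 ∨ x = 0 := fun x hx => by
    obtain ⟨i, -, rfl⟩ := List.mem_map.1 hx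
    split_ifs <;> simp
  have hl : (g % (q - 1) :: bl q S N).length = N + 1 := by simp [bl]
  have := core_block (F := F) (g % (q - 1) :: bl q S N) (fun x hx => by
      rcases List.mem_cons.1 hx with rfl | hx
      · exact hc
      · rcases hb' x hx with rfl | rfl <;> omega) ha hb (hl ▸ hd)
    ⟨hc, Or.inr (dvd_zero _), good_of_free _ _ fun x hx => by
      rcases List.mem_append.1 hx with hx | hx
      · rcases hb' x hx with rfl | rfl
        · exact ⟨le_rfl, ht⟩
        · exact ⟨Nat.zero_le _, free_zero⟩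
      · rw [List.eq_of_mem_replicate hx]
        exact ⟨le_rfl, ht⟩⟩
    fun s hs => ⟨Nat.sub_le _ _, Or.inr hs, good_of_free _ _ fun x hx => by
      obtain ⟨y, hy, rfl⟩ := List.mem_map.1 hx
      rcases hb' y hy with rfl | rfl
      · rw [Nat.sub_self]
        exact ⟨Nat.zero_le _, free_zero⟩
      · exact ⟨le_rfl, ht⟩⟩
  rw [add_right_comm] at h2
  rw [hl, val, val_bl, filter_mem_eq_inter, inter_eq_right.2 h1, h2] at this
  exact this

theorem det_prime (hp : (Fintype.card F).Prime) {d n a g : ℕ} (ha : a ≠ 0) (hd : n + a + a = d)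
    (hg : g ∣ Fintype.card F ^ d - 1)
    (h : g * (4 ^ (Fintype.card F ^ d - 1).primeFactors.card + 1) ≤ Fintype.card F ^ n) :
    Det F d g ((2 * d + 1) * (d * (Fintype.card F ^ (n + a) + Fintype.card F ^ (n + a)))) := by
  have hq := two_le_card (F := F)
  have ht := fun a => free_lt (a := a) hp
  set q := Fintype.card F
  have h0 := Nat.one_lt_pow (show d ≠ 0 by omega) hq
  obtain ⟨r, h1, h2⟩ := exists_interval (q ^ n * (q ^ a - 1)) hg (by omega) h
  obtain ⟨h3, h4, h5⟩ := dig_facts (by omega) n r h1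
  have := core_block (F := F) (dig q n r) h5 ha ha (h3.symm ▸ hd)
    (good_of_free _ _ fun x hx => by
      rcases List.mem_append.1 hx with hx | hx
      · exact ⟨h5 x hx, ht _ (h5 x hx)⟩
      · rw [List.eq_of_mem_replicate hx]
        exact ⟨le_rfl, ht _ le_rfl⟩)
    fun s _ => good_of_free _ _ fun x hx => by
      obtain ⟨y, -, rfl⟩ := List.mem_map.1 hx
      exact ⟨Nat.sub_le _ _, ht _ (Nat.sub_le _ _)⟩
  rw [h3, h4, h2] at this
  exact this

theorem bad_set {d E : ℕ} (hd : d ≠ 0) (G : Finset ℕ)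
    (h : ∀ g ∈ G, Det F d g ((2 * d + 1) * (d * E))) :
    ∃ B : Finset F[X], B.card ≤ G.card * ((2 * d + 1) * E) ∧
      ∀ Q : F[X], Q.Monic → Irreducible Q → Q.natDegree = d → Q ∉ B →
        ∀ χ : MulChar (AdjoinRoot Q) ℂ, χ ≠ 1 → ∀ g ∈ G,
          orderOf χ * g = Fintype.card F ^ d - 1 → SimpleP χ := by
  classical
  choose! Δ h1 h2 h3 using h
  refine ⟨G.biUnion fun g => (mon F d).filter fun Q => Irreducible Q ∧ Q ∣ Δ g,
    card_biUnion_le_card_mul _ _ _ fun g hg => ?_, fun Q e1 e2 e3 e4 χ e5 g hg => h3 g hg Q e1 e2 e3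
      (fun e6 => e4 (mem_biUnion.2 ⟨g, hg, mem_filter.2 ⟨mem_mon.2 ⟨e1, e3⟩, e2, e6⟩⟩)) χ e5⟩
  set B := (mon F d).filter fun Q => Irreducible Q ∧ Q ∣ Δ g
  have hB : ∀ Q ∈ B, (Q.Monic ∧ Q.natDegree = d) ∧ Irreducible Q ∧ Q ∣ Δ g := fun Q hQ =>
    ⟨mem_mon.1 (mem_filter.1 hQ).1, (mem_filter.1 hQ).2⟩
  have h4 : ∏ Q ∈ B, Q ∣ Δ g := prod_dvd_of_coprime (fun Q hQ R hR hne =>
    (hB Q hQ).2.1.coprime_iff_not_dvd.2 fun h => hne (eq_of_monic_of_associated (hB Q hQ).1.1
      (hB R hR).1.1 ((hB Q hQ).2.1.associated_of_dvd (hB R hR).2.1 h))) fun Q hQ => (hB Q hQ).2.2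
  have h5 := (natDegree_le_of_dvd h4 (h1 g hg)).trans (h2 g hg)
  rw [natDegree_prod_of_monic _ _ fun Q hQ => (hB Q hQ).1.1,
    sum_congr rfl fun Q hQ => (hB Q hQ).1.2, sum_const, smul_eq_mul, mul_left_comm,
    mul_comm _ d] at h5
  exact Nat.le_of_mul_le_mul_left h5 (Nat.pos_of_ne_zero hd)

end Pool.Agent.MP_f259ea_nt.FF
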