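import Pool.Agent.MP_f259ea_nt.FFGoss

/-! The L-polynomial of a character to a prime modulus and its functional equation. -/

namespace Pool.Agent.MP_f259ea_nt.FF

open Finset Polynomial AdjoinRoot

variable {F : Type} [Field F] [Fintype F]

theorem low_add {n : ℕ} {a b : F[X]} (ha : a ∈ low F n) (hb : b ∈ low F n) : a + b ∈ low F n :=
  mem_low.2 ((degree_add_le _ _).trans_lt (max_lt (mem_low.1 ha) (mem_low.1 hb)))

theorem low_sub {n : ℕ} {a b : F[X]} (ha : a ∈ low F n) (hb : b ∈ low F n) : a - b ∈ low F n :=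
  mem_low.2 ((degree_sub_le _ _).trans_lt (max_lt (mem_low.1 ha) (mem_low.1 hb)))

theorem low_mono {m n : ℕ} (h : m ≤ n) {a : F[X]} (ha : a ∈ low F m) : a ∈ low F n :=
  mem_low.2 ((mem_low.1 ha).trans_le (by exact_mod_cast h))

theorem low_C_mul {n : ℕ} (c : F) {a : F[X]} (ha : a ∈ low F n) : C c * a ∈ low F n :=
  mem_low.2 (by rw [← smul_eq_C_mul]; exact (degree_smul_le _ _).trans_lt (mem_low.1 ha))

theorem mono_mem_low {m n : ℕ} (h : m < n) (c : F) : C c * X ^ m ∈ low F n :=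
  mem_low.2 ((degree_C_mul_X_pow_le _ _).trans_lt (by exact_mod_cast h))

theorem low_zero : low F 0 = {0} := by
  ext f
  simp [mem_low]

section Sums
variable {M : Type*} [AddCommMonoid M]

theorem sum_low_add {n : ℕ} {r : F[X]} (hr : r ∈ low F n) (g : F[X] → M) :
    ∑ y ∈ low F n, g (y + r) = ∑ y ∈ low F n, g y :=
  sum_nbij' (· + r) (· - r) (fun _ h => low_add h hr) (fun _ h => low_sub h hr)
    (fun _ _ => by simp) (fun _ _ => by simp) fun _ _ => rfl

theorem sum_low_mul (n : ℕ) {c : F} (hc : c ≠ 0) (g : F[X] → M) :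
    ∑ y ∈ low F n, g (C c * y) = ∑ y ∈ low F n, g y :=
  sum_nbij' (C c * ·) (C c⁻¹ * ·) (fun _ h => low_C_mul _ h) (fun _ h => low_C_mul _ h)
    (fun _ _ => by rw [← mul_assoc, ← C_mul, inv_mul_cancel₀ hc, C_1, one_mul])
    (fun _ _ => by rw [← mul_assoc, ← C_mul, mul_inv_cancel₀ hc, C_1, one_mul]) fun _ _ => rfl

theorem sub_top_mem {n : ℕ} {y : F[X]} (h : y ∈ low F (n + 1)) :
    y - C (y.coeff n) * X ^ n ∈ low F n := by
  rw [mem_low, degree_lt_iff_coeff_zero] at *
  intro m hm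
  rcases hm.eq_or_lt with rfl | hm
  · simp
  · simp [h m hm, coeff_X_pow, hm.ne']

theorem sum_low_succ (n : ℕ) (g : F[X] → M) :
    ∑ y ∈ low F (n + 1), g y = ∑ c : F, ∑ y ∈ low F n, g (C c * X ^ n + y) := by
  rw [← sum_product']
  symm
  refine sum_nbij' (fun x => C x.1 * X ^ n + x.2) (fun y => (y.coeff n, y - C (y.coeff n) * X ^ n))
    (fun x h => low_add (mono_mem_low n.lt_succ_self _) (low_mono n.le_succ (mem_product.1 h).2))
    (fun y h => mem_product.2 ⟨mem_univ _, sub_top_mem h⟩) (fun x h => ?_) (fun _ _ => by simp)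
    fun _ _ => rfl
  have h1 : (C x.1 * X ^ n + x.2).coeff n = x.1 := by
    simp [coeff_eq_zero_of_degree_lt (mem_low.1 (mem_product.1 h).2)]
  refine Prod.ext h1 ?_
  simp only [h1, add_sub_cancel_left]

theorem mem_mon_iff {n : ℕ} {f : F[X]} : f ∈ mon F n ↔ f - X ^ n ∈ low F n := by
  rw [mem_mon]
  constructor
  · rintro ⟨h1, rfl⟩
    have h2 : f ∈ low F (f.natDegree + 1) :=
      mem_low.2 (degree_le_natDegree.trans_lt (by exact_mod_cast Nat.lt_succ_self _))
    simpa [h1.coeff_natDegree] using sub_top_mem h2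
  · intro h
    have h1 : (f - X ^ n).degree < (X ^ n : F[X]).degree := by
      rw [degree_X_pow]
      exact mem_low.1 h
    rw [← add_sub_cancel (X ^ n) f]
    exact ⟨(monic_X_pow n).add_of_left h1, by
      rw [natDegree_add_eq_left_of_degree_lt h1, natDegree_X_pow]⟩

theorem sum_mon (n : ℕ) (g : F[X] → M) :
    ∑ f ∈ mon F n, g f = ∑ y ∈ low F n, g (X ^ n + y) :=
  sum_nbij' (· - X ^ n) (X ^ n + ·) (fun _ h => mem_mon_iff.1 h)
    (fun _ h => mem_mon_iff.2 (by simpa using h)) (fun _ _ => by simp) (fun _ _ => by simp)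
    fun _ _ => by simp

theorem card_low (n : ℕ) : (low F n).card = Fintype.card F ^ n := by
  induction n with
  | zero => simp [low_zero]
  | succ n ih =>
    rw [card_eq_sum_ones, sum_low_succ]
    simp [ih, pow_succ']

theorem sum_adj {Q : F[X]} (hQ : Q.Monic) [Fintype (AdjoinRoot Q)] (g : AdjoinRoot Q → M) :
    ∑ x, g x = ∑ f ∈ low F Q.natDegree, g (mk Q f) := by
  refine sum_nbij' (modByMonicHom hQ) (mk Q) (fun x _ => ?_) (fun _ _ => mem_univ _)
    (fun x _ => mk_leftInverse hQ x) (fun f h => ?_) fun x _ => by rw [mk_leftInverse hQ x]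
  · induction x using AdjoinRoot.induction_on with
    | ih f =>
      rw [modByMonicHom_mk, mem_low, ← degree_eq_natDegree hQ.ne_zero]
      exact degree_modByMonic_lt f hQ
  · rw [modByMonicHom_mk, modByMonic_eq_self_iff hQ, degree_eq_natDegree hQ.ne_zero]
    exact mem_low.1 h

end Sums

variable {Q : F[X]}

/-- The coefficients of the L-function. -/
noncomputable def cf (χ : MulChar (AdjoinRoot Q) ℂ) (j : ℕ) : ℂ := ∑ f ∈ mon F j, χ (mk Q f)

/-- Character sums over the polynomials of small degree. -/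
noncomputable def Al (χ : MulChar (AdjoinRoot Q) ℂ) (n : ℕ) : ℂ := ∑ y ∈ low F n, χ (mk Q y)

/-- The character sum over the constants. -/
noncomputable def ev (χ : MulChar (AdjoinRoot Q) ℂ) : ℂ := ∑ c : F, χ (mk Q (C c))

/-- The L-polynomial. -/
noncomputable def LP (χ : MulChar (AdjoinRoot Q) ℂ) : ℂ[X] :=
  ∑ j ∈ range Q.natDegree, monomial j (cf χ j)

theorem eval_LP (χ : MulChar (AdjoinRoot Q) ℂ) (z : ℂ) :
    (LP χ).eval z = ∑ j ∈ range Q.natDegree, cf χ j * z ^ j := by
  simp [LP, eval_finsetSum]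

theorem cf_zero (χ : MulChar (AdjoinRoot Q) ℂ) : cf χ 0 = 1 := by simp [cf, mon_zero]

/-- The additive character given by the top coefficient. -/
noncomputable def psi (hQ : Q.Monic) (ψ : AddChar F ℂ) : AddChar (AdjoinRoot Q) ℂ :=
  ψ.compAddMonoidHom ((lcoeff F (Q.natDegree - 1)).comp (modByMonicHom hQ)).toAddMonoidHom

theorem psi_mk (hQ : Q.Monic) (ψ : AddChar F ℂ) {f : F[X]} (hf : f ∈ low F Q.natDegree) :
    psi hQ ψ (mk Q f) = ψ (f.coeff (Q.natDegree - 1)) := by
  have : f %ₘ Q = f := by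
    rw [modByMonic_eq_self_iff hQ, degree_eq_natDegree hQ.ne_zero]
    exact mem_low.1 hf
  simp [psi, modByMonicHom_mk, this]

theorem mul_mem_low {m n : ℕ} {a b : F[X]} (ha : a ∈ low F m) (hb : b ∈ low F (n + 1)) :
    a * b ∈ low F (m + n) := by
  by_cases h0 : a * b = 0
  · rw [h0, mem_low]
    exact WithBot.bot_lt_coe _
  have h1 := (natDegree_lt_iff_degree_lt (left_ne_zero_of_mul h0)).2 (mem_low.1 ha)
  have h2 := (natDegree_lt_iff_degree_lt (right_ne_zero_of_mul h0)).2 (mem_low.1 hb)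
  have h3 := natDegree_mul_le (p := a) (q := b)
  exact mem_low.2 ((natDegree_lt_iff_degree_lt h0).1 (by omega))

open Classical in
theorem orth (hQ : Q.Monic) {ψ : AddChar F ℂ} (hψ : ψ ≠ 1) {j n : ℕ}
    (hd : Q.natDegree = j + n + 1) {z : F[X]} (hz : z ∈ low F Q.natDegree) :
    ∑ y ∈ low F (n + 1), psi hQ ψ (mk Q z * mk Q y) =
      if z ∈ low F j then (Fintype.card F : ℂ) ^ (n + 1) else 0 := by
  split_ifs with h
  · rw [sum_congr rfl (g := fun _ => 1), sum_const, card_low]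
    · simp
    · intro y hy
      have h1 := mul_mem_low h hy
      rw [← map_mul, psi_mk hQ ψ (low_mono (by omega) h1), hd, Nat.add_sub_cancel,
        coeff_eq_zero_of_degree_lt (mem_low.1 h1), AddChar.map_zero_eq_one]
  · obtain ⟨c, hc⟩ := AddChar.ne_one_iff.1 hψ
    have h0 : z ≠ 0 := fun h0 => h (by rw [h0, mem_low]; exact WithBot.bot_lt_coe _)
    have h1 := (natDegree_lt_iff_degree_lt h0).2 (mem_low.1 hz)
    have h2 : j ≤ z.natDegree := le_of_not_gt fun h2 =>
      h (mem_low.2 ((natDegree_lt_iff_degree_lt h0).1 h2))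
    obtain ⟨s, hs⟩ : ∃ s, z.natDegree + s = j + n := ⟨j + n - z.natDegree, by omega⟩
    have h3 : C (c / z.leadingCoeff) * X ^ s ∈ low F (n + 1) := mono_mem_low (by omega) _
    have h4 : psi hQ ψ (mk Q z * mk Q (C (c / z.leadingCoeff) * X ^ s)) = ψ c := by
      have h5 : z ∈ low F (z.natDegree + 1) :=
        mem_low.2 (degree_le_natDegree.trans_lt (by exact_mod_cast Nat.lt_succ_self _))
      rw [← map_mul, psi_mk hQ ψ (low_mono (by omega)
        (mul_mem_low h5 (mono_mem_low s.lt_succ_self _))), hd, Nat.add_sub_cancel, ← hs,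
        ← mul_assoc, coeff_mul_X_pow, coeff_mul_C, coeff_natDegree,
        mul_div_cancel₀ _ (leadingCoeff_ne_zero.2 h0)]
    have h5 := sum_low_add h3 fun y => psi hQ ψ (mk Q z * mk Q y)
    simp only [map_add, mul_add, AddChar.map_add_eq_mul, h4, ← sum_mul] at h5
    exact (mul_left_eq_self₀.1 (by rwa [mul_comm] at h5)).resolve_left hc

variable [Fact (Irreducible Q)]

omit [Fintype F] in
theorem chi_zero (χ : MulChar (AdjoinRoot Q) ℂ) : χ 0 = 0 := χ.map_nonunit not_isUnit_zero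

open Classical in
theorem sum_top (χ : MulChar (AdjoinRoot Q) ℂ) (n : ℕ) (c : F) :
    ∑ y ∈ low F n, χ (mk Q (C c * X ^ n + y)) =
      χ (mk Q (C c)) * cf χ n + if c = 0 then Al χ n else 0 := by
  split_ifs with h
  · simp [h, Al, chi_zero]
  · rw [← sum_low_mul n h, cf, sum_mon, mul_sum, add_zero]
    simp only [← mul_add, map_mul]

theorem Al_succ (χ : MulChar (AdjoinRoot Q) ℂ) (n : ℕ) :
    Al χ (n + 1) = Al χ n + ev χ * cf χ n := by
  rw [Al, sum_low_succ]
  simp only [sum_top, sum_add_distrib, ← sum_mul]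
  rw [add_comm, ev, sum_eq_single 0 (fun c _ h => if_neg h) (by simp), if_pos rfl]

theorem Al_zero (χ : MulChar (AdjoinRoot Q) ℂ) : Al χ 0 = 0 := by simp [Al, low_zero, chi_zero]

theorem Al_gen (χ : MulChar (AdjoinRoot Q) ℂ) (z : ℂ) (N : ℕ) :
    (1 - z) * ∑ n ∈ range N, Al χ n * z ^ n =
      ev χ * z * ∑ n ∈ range N, cf χ n * z ^ n - z ^ N * Al χ N := by
  induction N with
  | zero => simp [Al_zero]
  | succ N ih =>
    rw [sum_range_succ, sum_range_succ, mul_add, ih, Al_succ]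
    ring

variable [Fintype (AdjoinRoot Q)]

theorem cf_eq_zero (hQ : Q.Monic) {χ : MulChar (AdjoinRoot Q) ℂ} (hχ : χ ≠ 1) {j : ℕ}
    (hj : Q.natDegree ≤ j) : cf χ j = 0 := by
  have h1 : ∑ r ∈ low F Q.natDegree, cf χ j = 0 := by
    rw [sum_congr rfl (g := fun r => ∑ y ∈ low F j, χ (mk Q (X ^ j + y) + mk Q r)), sum_comm]
    · refine sum_eq_zero fun y _ => ?_
      rw [← sum_adj hQ fun x => χ (mk Q (X ^ j + y) + x), ← MulChar.sum_eq_zero_of_ne_one hχ]
      exact Fintype.sum_equiv (Equiv.addLeft (mk Q (X ^ j + y))) _ _ fun _ => rfl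
    · intro r hr
      rw [cf, sum_mon, ← sum_low_add (low_mono hj hr)]
      simp only [map_add, add_assoc]
  rw [sum_const, card_low] at h1
  simpa using h1

theorem poisson (hQ : Q.Monic) {χ : MulChar (AdjoinRoot Q) ℂ} (hχ : χ ≠ 1) :
    ∃ G τ : ℂ, ∀ j n, Q.natDegree = j + n + 1 →
      (Fintype.card F : ℂ) ^ (n + 1) * cf χ j = G * (τ * cf χ⁻¹ n + Al χ⁻¹ n) := by
  classical
  let ψ := AddChar.FiniteField.primitiveChar_to_Complex F
  have hψ : ψ ≠ 1 := by
    have := AddChar.FiniteField.primitiveChar_to_Complex_isPrimitive F (a := 1) one_ne_zero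
    rwa [AddChar.mulShift_one] at this
  refine ⟨gaussSum χ (psi hQ ψ), ∑ c : F, ψ (-c) * χ⁻¹ (mk Q (C c)), fun j n hd => ?_⟩
  have h1 : ∀ y, ∑ x, χ x * psi hQ ψ (x * y) = χ⁻¹ y * gaussSum χ (psi hQ ψ) := fun y => by
    by_cases hy : y = 0
    · simp [hy, MulChar.sum_eq_zero_of_ne_one hχ, chi_zero]
    · have := gaussSum_mulShift_eq χ (psi hQ ψ) (Units.mk0 y hy)
      simpa [gaussSum, mul_comm y] using this
  have hX : (X ^ j : F[X]) ∈ low F Q.natDegree := by
    simpa using mono_mem_low (show j < Q.natDegree by omega) (1 : F)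
  calc _ = ∑ z ∈ low F Q.natDegree, χ (mk Q z) *
        ∑ y ∈ low F (n + 1), psi hQ ψ (mk Q (z - X ^ j) * mk Q y) := by
        rw [sum_congr rfl fun z hz => by rw [orth hQ hψ hd (low_sub hz hX)], cf, mul_sum]
        simp only [mul_ite, mul_zero, ← mem_mon_iff]
        rw [← sum_filter]
        refine sum_congr ?_ fun _ _ => mul_comm _ _
        ext f
        rw [mem_filter, iff_and_self]
        intro h
        simpa using low_add (low_mono (show j ≤ Q.natDegree by omega) (mem_mon_iff.1 h)) hX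
    _ = ∑ y ∈ low F (n + 1), psi hQ ψ (mk Q (-(X ^ j * y))) *
        (χ⁻¹ (mk Q y) * gaussSum χ (psi hQ ψ)) := by
        simp only [mul_sum]
        rw [sum_comm]
        refine sum_congr rfl fun y _ => ?_
        rw [← h1, sum_adj hQ, mul_sum]
        refine sum_congr rfl fun z _ => ?_
        rw [mul_left_comm, ← AddChar.map_add_eq_mul]
        congr 2
        simp only [map_sub, map_neg, map_mul]
        ring
    _ = ∑ c : F, ψ (-c) * (∑ y ∈ low F n, χ⁻¹ (mk Q (C c * X ^ n + y))) *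
        gaussSum χ (psi hQ ψ) := by
        rw [sum_low_succ]
        refine sum_congr rfl fun c _ => ?_
        rw [mul_sum, sum_mul]
        refine sum_congr rfl fun y hy => ?_
        have h2 : (X ^ j : F[X]) ∈ low F (j + 1) := by
          simpa using mono_mem_low j.lt_succ_self (1 : F)
        have h3 := mul_mem_low h2 (low_add (mono_mem_low n.lt_succ_self c) (low_mono n.le_succ hy))
        rw [psi_mk hQ ψ (mem_low.2 (by rw [degree_neg, hd, add_right_comm]; exact mem_low.1 h3)),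
          hd, Nat.add_sub_cancel, coeff_neg, add_comm j n, coeff_X_pow_mul, mul_assoc]
        simp [coeff_eq_zero_of_degree_lt (mem_low.1 hy)]
    _ = _ := by
        simp only [sum_top, mul_add, add_mul, sum_add_distrib, mul_ite, ite_mul, mul_zero, zero_mul,
          sum_ite_eq', mem_univ, if_true, neg_zero, AddChar.map_zero_eq_one, one_mul, mul_sum,
          sum_mul]
        rw [mul_comm (Al χ⁻¹ n)]
        congr 1
        exact sum_congr rfl fun c _ => by ring

theorem fun_eq (hQ : Q.Monic) {χ : MulChar (AdjoinRoot Q) ℂ} (hχ : χ ≠ 1) {z : ℂ} (hz0 : z ≠ 0)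
    (hz : (LP χ⁻¹).eval z = 0) (h1 : z ≠ 1 ∨ ev χ⁻¹ = 0) :
    (LP χ).eval ((Fintype.card F : ℂ) * z)⁻¹ = 0 := by
  obtain ⟨G, τ, h⟩ := poisson hQ hχ
  have hq : (Fintype.card F : ℂ) ≠ 0 := by simp
  rw [eval_LP] at hz ⊢
  have h2 : ∑ n ∈ range Q.natDegree, Al χ⁻¹ n * z ^ n = 0 := by
    rcases h1 with h1 | h1
    · have h3 := Al_gen χ⁻¹ z Q.natDegree
      rw [hz, Al, ← sum_adj hQ fun x => χ⁻¹ x,
        MulChar.sum_eq_zero_of_ne_one (inv_ne_one.2 hχ)] at h3
      simpa [sub_ne_zero.2 h1.symm] using h3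
    · have h3 : ∀ n, Al χ⁻¹ n = 0 := fun n => by
        induction n with
        | zero => exact Al_zero _
        | succ n ih => rw [Al_succ, ih, h1, zero_mul, add_zero]
      simp [h3]
  have h3 : G * (τ * ∑ n ∈ range Q.natDegree, cf χ⁻¹ n * z ^ n +
      ∑ n ∈ range Q.natDegree, Al χ⁻¹ n * z ^ n) = 0 := by rw [hz, h2]; simp
  rw [mul_sum, ← sum_add_distrib, mul_sum, ← sum_range_reflect] at h3
  refine mul_left_cancel₀ (mul_ne_zero (pow_ne_zero Q.natDegree hq)
    (pow_ne_zero (Q.natDegree - 1) hz0)) ?_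
  rw [mul_zero, ← h3, mul_sum]
  refine sum_congr rfl fun j hj => ?_
  obtain ⟨n, hn⟩ : ∃ n, Q.natDegree = j + n + 1 := ⟨Q.natDegree - 1 - j, by
    have := mem_range.1 hj; omega⟩
  rw [show Q.natDegree - 1 - j = n by omega, ← mul_assoc τ, ← add_mul, ← mul_assoc G, ← h j n hn,
    hn, Nat.add_sub_cancel, inv_pow, mul_pow]
  field_simp
  ring

end Pool.Agent.MP_f259ea_nt.FF
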