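import Mathlib

/-! Reduction of character values and of inverse roots modulo a prime above `p`. -/

namespace Pool.Agent.MP_f259ea_nt.FF

open Finset Polynomial

theorem ext_hom {A B Ω : Type} [CommRing A] [CommRing B] [Field Ω] [IsAlgClosed Ω] (ι : A →+* B)
    (hι : ι.IsIntegral) (φ : A →+* Ω) (h : RingHom.ker ι ≤ RingHom.ker φ) :
    ∃ ρ : B →+* Ω, ∀ a, ρ (ι a) = φ a := by
  let := ι.toAlgebra
  have : Algebra.IsIntegral A B := ⟨hι⟩
  have := RingHom.ker_isPrime φ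
  obtain ⟨P, -, hP, hc⟩ := Ideal.exists_ideal_over_prime_of_isIntegral (RingHom.ker φ) (⊥ : Ideal B) h
  have : P.LiesOver (RingHom.ker φ) := ⟨hc.symm⟩
  let := (RingHom.kerLift φ).toAlgebra
  have : FaithfulSMul (A ⧸ RingHom.ker φ) Ω :=
    (faithfulSMul_iff_algebraMap_injective _ _).2 (RingHom.kerLift_injective φ)
  let l : B ⧸ P →ₐ[A ⧸ RingHom.ker φ] Ω := IsAlgClosed.lift
  exact ⟨l.toRingHom.comp (Ideal.Quotient.mk P), fun a => l.commutes (Ideal.Quotient.mk _ a)⟩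

/-- The ring of algebraic integers. -/
abbrev OO : Subalgebra ℤ ℂ := integralClosure ℤ ℂ

section Char
variable {K : Type} [Field K] [Fintype K]

theorem chi_mem (χ : MulChar K ℂ) (x : K) : χ x ∈ OO := by
  by_cases hx : x = 0
  · rw [hx, χ.map_nonunit not_isUnit_zero]
    exact zero_mem _
  · refine IsIntegral.of_pow (n := Fintype.card K - 1) (Nat.sub_pos_of_lt Fintype.one_lt_card) ?_
    rw [← map_pow, FiniteField.pow_card_sub_one_eq_one x hx, map_one]
    exact isIntegral_one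

omit [Fintype K] in
theorem pow_eq_one_iff_gen (χ : MulChar K ℂ) {γ : Kˣ} (hγ : ∀ x, x ∈ Submonoid.powers γ) (i : ℕ) :
    χ ^ i = 1 ↔ χ γ ^ i = 1 := by
  constructor
  · intro h
    rw [← MulChar.pow_apply_coe, h, MulChar.one_apply_coe]
  · intro h
    ext x
    obtain ⟨e, rfl⟩ := hγ x
    rw [MulChar.pow_apply_coe, MulChar.one_apply_coe, Units.val_pow_eq_pow_val, map_pow,
      ← pow_mul, mul_comm, pow_mul, h, one_pow]

theorem exists_red (χ : MulChar K ℂ) {k : ℕ} (hk : k ≠ 0)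
    (hg : orderOf χ * Nat.gcd (Fintype.card K - 1) k = Fintype.card K - 1) :
    ∃ ρ : OO →+* AlgebraicClosure K, ∀ x, ρ ⟨χ x, chi_mem χ x⟩ = algebraMap K _ (x ^ k) := by
  classical
  obtain ⟨γ, hγ⟩ := IsCyclic.exists_monoid_generator (α := Kˣ)
  have hm : orderOf γ = Fintype.card K - 1 := by
    rw [orderOf_eq_card_of_forall_mem_powers hγ, Nat.card_eq_fintype_card, Fintype.card_units]
  have h0 : 0 < Fintype.card K - 1 := Nat.sub_pos_of_lt Fintype.one_lt_card
  have hn : 0 < orderOf χ := Nat.pos_of_mul_pos_right (hg.symm ▸ h0)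
  have h1 : IsPrimitiveRoot (χ γ) (orderOf χ) := by
    rw [orderOf_eq_orderOf_iff.2 (pow_eq_one_iff_gen χ hγ)]
    exact IsPrimitiveRoot.orderOf _
  have h2 : IsPrimitiveRoot (algebraMap K (AlgebraicClosure K) ((γ : K) ^ k)) (orderOf χ) := by
    refine IsPrimitiveRoot.map_of_injective ?_ (algebraMap K (AlgebraicClosure K)).injective
    have h3 : orderOf (γ ^ k) = orderOf χ := by
      rw [orderOf_pow' _ hk, hm]
      exact Nat.div_eq_of_eq_mul_left (Nat.gcd_pos_of_pos_left _ h0) hg.symm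
    rw [← h3, ← Units.val_pow_eq_pow_val, IsPrimitiveRoot.coe_units_iff]
    exact IsPrimitiveRoot.orderOf _
  let η : OO := ⟨χ γ, chi_mem χ γ⟩
  obtain ⟨ρ, hρ⟩ := ext_hom (aeval η : ℤ[X] →ₐ[ℤ] OO).toRingHom (fun b => by
      obtain ⟨p, hp, h⟩ := integralClosure.isIntegral b
      refine ⟨p.map C, hp.map _, ?_⟩
      rw [eval₂_map, ← h]
      congr 1
      exact RingHom.ext_int _ _)
    (eval₂RingHom (Int.castRingHom _) (algebraMap K (AlgebraicClosure K) ((γ : K) ^ k)))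
    fun g hg => by
      have h3 : aeval (χ γ) g = 0 := by
        have h4 : aeval η g = 0 := hg
        have := aeval_algHom_apply OO.val η g
        rwa [h4, map_zero] at this
      obtain ⟨c, rfl⟩ := minpoly.isIntegrallyClosed_dvd (chi_mem χ γ) h3
      have h5 := h2.isRoot_cyclotomic hn
      rw [← map_cyclotomic_int, IsRoot, eval_map] at h5
      rw [RingHom.mem_ker, map_mul, ← cyclotomic_eq_minpoly h1 hn, coe_eval₂RingHom, h5, zero_mul]
  refine ⟨ρ, fun x => ?_⟩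
  by_cases hx : x = 0
  · have : (⟨χ x, chi_mem χ x⟩ : OO) = 0 :=
      Subtype.ext (by rw [hx]; exact χ.map_nonunit not_isUnit_zero)
    rw [this, hx, zero_pow hk, map_zero, map_zero]
  · obtain ⟨e, he⟩ := hγ (Units.mk0 x hx)
    have h3 : x = (γ : K) ^ e := (congrArg Units.val he).symm
    have h4 : (⟨χ x, chi_mem χ x⟩ : OO) = η ^ e := Subtype.ext (by
      show χ x = χ γ ^ e
      rw [h3, map_pow])
    have h5 := hρ X
    simp only [AlgHom.toRingHom_eq_coe, RingHom.coe_coe, aeval_X, coe_eval₂RingHom,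
      eval₂_X] at h5
    rw [h4, map_pow, h5, h3, ← map_pow, ← pow_mul, ← pow_mul, mul_comm]

end Char

theorem lift_root {Ω : Type} [Field Ω] (ρ : OO →+* Ω) (s : Ω) : ∀ (n : ℕ) (M : OO[X]), M.Monic →
    M.natDegree = n → (M.map ρ).eval s = 0 → ∃ β : OO, M.eval β = 0 ∧ ρ β = s
  | 0, M, hM, hn, h => by simp [hM.natDegree_eq_zero.1 hn] at h
  | n + 1, M, hM, hn, h => by
    obtain ⟨z, hz⟩ := IsAlgClosed.exists_aeval_eq_zero ℂ M (by
      rw [degree_eq_natDegree hM.ne_zero, hn]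
      exact_mod_cast n.succ_ne_zero)
    have h1 : IsIntegral ℤ z := isIntegral_trans (A := OO) z ⟨M, hM, hz⟩
    have h2 : M.IsRoot ⟨z, h1⟩ := by
      have := aeval_algebraMap_apply ℂ (⟨z, h1⟩ : OO) M
      rw [coe_aeval_eq_eval] at this
      exact Subtype.ext (this.symm.trans hz)
    obtain ⟨M', rfl⟩ := dvd_iff_isRoot.2 h2
    have h3 := (monic_X_sub_C _).of_mul_monic_left hM
    rw [Polynomial.map_mul, eval_mul, mul_eq_zero] at h
    rcases h with h | h
    · exact ⟨_, h2, (sub_eq_zero.1 (by simpa using h)).symm⟩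
    · rw [(monic_X_sub_C _).natDegree_mul h3, natDegree_X_sub_C] at hn
      obtain ⟨β, h4, h5⟩ := lift_root ρ s n M' h3 (by omega) h
      exact ⟨β, by rw [eval_mul, h4, mul_zero], h5⟩

theorem unit_roots {K Ω : Type} [Field K] [Field Ω] [IsAlgClosed Ω] [Algebra K Ω] (ρ : OO →+* Ω)
    (c : ℕ → OO) (h0 : c 0 = 1) (d : ℕ) (P : K[X]) (hP : P.Separable) (hd : P.natDegree < d)
    (hc : ∀ n < d, algebraMap K Ω (P.coeff n) = ρ (c n)) :
    ∃ A : Finset OO, A.card = P.natDegree ∧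
      ∀ β ∈ A, ρ β ≠ 0 ∧ ∑ j ∈ range d, (c j : ℂ) * (β : ℂ)⁻¹ ^ j = 0 := by
  classical
  let M : OO[X] := ∑ j ∈ range d, C (c j) * X ^ (d - j)
  have hM : M.Monic := by
    obtain ⟨e, rfl⟩ : ∃ e, d = e + 1 := ⟨d - 1, by omega⟩
    simp only [M]
    rw [sum_range_succ', h0, C_1, one_mul, add_comm]
    refine monic_X_pow_add ((degree_sum_le _ _).trans_lt ((Finset.sup_lt_iff
      (WithBot.bot_lt_coe _)).2 fun j hj => (degree_C_mul_X_pow_le _ _).trans_lt ?_))
    exact_mod_cast (by omega : e + 1 - (j + 1) < e + 1 - 0)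
  have key : ∀ {L : Type} [Field L] (σ : OO →+* L) (s : L), s ≠ 0 →
      (M.map σ).eval s = s ^ d * ∑ j ∈ range d, σ (c j) * s⁻¹ ^ j := by
    intro L _ σ s hs
    simp only [M, Polynomial.map_sum, Polynomial.map_mul, map_C, Polynomial.map_pow, map_X,
      eval_finsetSum, eval_mul, eval_C, eval_pow, eval_X, mul_sum]
    refine sum_congr rfl fun j hj => ?_
    rw [pow_sub₀ _ hs (mem_range.1 hj).le, inv_pow]
    ring
  have hr : ∀ r ∈ (P.map (algebraMap K Ω)).roots.toFinset, ∃ β : OO, ρ β = r⁻¹ ∧ r ≠ 0 ∧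
      ∑ j ∈ range d, (c j : ℂ) * (β : ℂ)⁻¹ ^ j = 0 := by
    intro r hr
    have h1 : ∑ j ∈ range d, ρ (c j) * r ^ j = 0 := by
      have := isRoot_of_mem_roots (Multiset.mem_toFinset.1 hr)
      rw [IsRoot, eval_eq_sum_range' (n := d) (natDegree_map_le.trans_lt hd)] at this
      rw [← this]
      exact sum_congr rfl fun j hj => by rw [coeff_map, hc j (mem_range.1 hj)]
    have h2 : r ≠ 0 := by
      rintro rfl
      obtain ⟨e, rfl⟩ : ∃ e, d = e + 1 := ⟨d - 1, by omega⟩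
      simp [sum_range_succ', h0] at h1
    obtain ⟨β, h3, h4⟩ := lift_root ρ r⁻¹ _ M hM rfl (by
      rw [key ρ _ (inv_ne_zero h2), inv_inv, h1, mul_zero])
    have h5 : (β : ℂ) ≠ 0 := fun h => by
      rw [show β = 0 from Subtype.ext h, map_zero] at h4
      exact inv_ne_zero h2 h4.symm
    have h6 := key (algebraMap OO ℂ) β h5
    rw [show (β : ℂ) = algebraMap OO ℂ β from rfl, eval_map_algebraMap, aeval_algebraMap_apply,
      coe_aeval_eq_eval, h3, map_zero] at h6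
    exact ⟨β, h4, h2, (mul_eq_zero.1 h6.symm).resolve_left (pow_ne_zero _ h5)⟩
  choose! b hb using hr
  refine ⟨(P.map (algebraMap K Ω)).roots.toFinset.image b, ?_, fun β hβ => ?_⟩
  · rw [card_image_of_injOn fun r h1 r' h2 h => inv_injective (by
      rw [← (hb r h1).1, ← (hb r' h2).1, h]),
      Multiset.toFinset_card_of_nodup (nodup_roots hP.map), IsAlgClosed.card_roots_eq_natDegree,
      natDegree_map]
  · obtain ⟨r, h1, rfl⟩ := mem_image.1 hβ
    obtain ⟨h2, h3, h4⟩ := hb r h1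
    exact ⟨h2 ▸ inv_ne_zero h3, h4⟩

end Pool.Agent.MP_f259ea_nt.FF
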