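import Pool.Agent.MP_f259ea_nt.FFSep
import Pool.Agent.MP_f259ea_nt.FFFun
import Pool.Agent.MP_f259ea_nt.FFRed

/-! Simple zeros from a pair of complementary admissible exponents. -/

namespace Pool.Agent.MP_f259ea_nt.FF

open Finset Polynomial AdjoinRoot

variable {F : Type} [Field F] [Fintype F] {Q : F[X]}

/-- All roots of the L-polynomial are simple. -/
def SimpleP (χ : MulChar (AdjoinRoot Q) ℂ) : Prop :=
  ∀ z, (LP χ).eval z = 0 → (derivative (LP χ)).eval z ≠ 0

theorem simple_of_card (χ : MulChar (AdjoinRoot Q) ℂ) (hd : 0 < Q.natDegree) (B : Finset ℂ)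
    (hB : ∀ z ∈ B, (LP χ).eval z = 0) (hc : Q.natDegree ≤ B.card + 1) : SimpleP χ := by
  classical
  have h0 : LP χ ≠ 0 := fun h => by
    have h1 := eval_LP χ 0
    obtain ⟨e, he⟩ : ∃ e, Q.natDegree = e + 1 := ⟨_, (Nat.succ_pred_eq_of_pos hd).symm⟩
    simp [h, he, sum_range_succ', cf_zero] at h1
  have h1 : (LP χ).natDegree ≤ Q.natDegree - 1 := natDegree_sum_le_of_forall_le _ _ fun n hn =>
    (natDegree_monomial_le _).trans (Nat.le_sub_one_of_lt (mem_range.1 hn))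
  have h2 : B.card ≤ (LP χ).roots.toFinset.card := card_le_card fun z hz =>
    Multiset.mem_toFinset.2 ((mem_roots h0).2 (hB z hz))
  have h3 := card_roots' (LP χ)
  have h4 := Multiset.toFinset_card_le (LP χ).roots
  have h5 : (LP χ).roots.Nodup := Multiset.toFinset_card_eq_card_iff_nodup.1 (by omega)
  intro z h6 h7
  have h8 := (one_lt_rootMultiplicity_iff_isRoot h0).2 ⟨h6, h7⟩
  have h9 := Multiset.nodup_iff_count_le_one.1 h5 z
  rw [count_roots] at h9
  omega

theorem card_adj (hQ : Q.Monic) [Fintype (AdjoinRoot Q)] :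
    Fintype.card (AdjoinRoot Q) = Fintype.card F ^ Q.natDegree := by
  rw [← card_low, card_eq_sum_ones, ← sum_adj hQ fun _ => 1]
  simp

theorem finite_adj (hQ : Q.Monic) : Finite (AdjoinRoot Q) :=
  have := (powerBasis' hQ).finite
  Module.finite_of_finite F

variable [Fact (Irreducible Q)] [Fintype (AdjoinRoot Q)]

theorem roots_of_red (χ : MulChar (AdjoinRoot Q) ℂ) {k : ℕ}
    (ρ : OO →+* AlgebraicClosure (AdjoinRoot Q))
    (hρ : ∀ x, ρ ⟨χ x, chi_mem χ x⟩ = algebraMap (AdjoinRoot Q) _ (x ^ k)) (P : (AdjoinRoot Q)[X])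
    (hP : P.Separable) (hd : P.natDegree < Q.natDegree) (hc : ∀ n, P.coeff n = mk Q (S F n k)) :
    ∃ A : Finset OO, A.card = P.natDegree ∧ ∀ β ∈ A, ρ β ≠ 0 ∧ (LP χ).eval (β : ℂ)⁻¹ = 0 := by
  obtain ⟨A, h1, h2⟩ := unit_roots ρ (fun j => ∑ f ∈ mon F j, ⟨χ (mk Q f), chi_mem χ _⟩)
    (by simp [mon_zero]) Q.natDegree P hP hd fun n _ => by
      simp only [hc, S, map_sum, hρ, map_pow]
  refine ⟨A, h1, fun β hβ => ⟨(h2 β hβ).1, ?_⟩⟩
  rw [eval_LP, ← (h2 β hβ).2]
  simp [cf]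

omit [Fintype (AdjoinRoot Q)] in
theorem even_of_ev {χ : MulChar (AdjoinRoot Q) ℂ} (h : ev χ ≠ 0) {c : F} (hc : c ≠ 0) :
    χ (mk Q (C c)) = 1 := by
  have h1 : ev χ = χ (mk Q (C c)) * ev χ := by
    rw [ev, mul_sum]
    refine (Fintype.sum_equiv (Equiv.mulLeft₀ c hc) _ _ fun x => ?_).symm
    simp [← map_mul]
  exact (mul_left_eq_self₀.1 h1.symm).resolve_right h

theorem simple_of_pair (hQ : Q.Monic) {χ : MulChar (AdjoinRoot Q) ℂ} (hχ : χ ≠ 1) {k k' s : ℕ}
    (hk : k ≠ 0) (hk' : k' ≠ 0)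
    (hs : k * Fintype.card F ^ s + k' = Fintype.card F ^ Q.natDegree - 1)
    (hg : orderOf χ * Nat.gcd (Fintype.card F ^ Q.natDegree - 1) k =
      Fintype.card F ^ Q.natDegree - 1)
    (P P' : (AdjoinRoot Q)[X]) (hP : P.Separable) (hP' : P'.Separable)
    (hd : P.natDegree < Q.natDegree) (hd' : P'.natDegree < Q.natDegree)
    (hc : ∀ n, P.coeff n = mk Q (S F n k)) (hc' : ∀ n, P'.coeff n = mk Q (S F n k'))
    (h1 : Q.natDegree ≤ P.natDegree + P'.natDegree + 1)
    (h2 : Fintype.card F - 1 ∣ k' → Q.natDegree ≤ P.natDegree + P'.natDegree) : SimpleP χ := by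
  classical
  rw [← card_adj hQ] at hs hg
  obtain ⟨ρ, hρ⟩ := exists_red χ hk hg
  let φ := FiniteField.frobeniusAlgHom F (AlgebraicClosure (AdjoinRoot Q)) ^ s
  have hφ : ∀ y, φ y = y ^ Fintype.card F ^ s := fun y => by
    simp only [φ, AlgHom.coe_pow, FiniteField.coe_frobeniusAlgHom, pow_iterate]
  have hρ' : ∀ x, (φ.toRingHom.comp ρ) ⟨χ⁻¹ x, chi_mem χ⁻¹ x⟩ =
      algebraMap (AdjoinRoot Q) _ (x ^ k') := fun x => by
    have h3 : (⟨χ⁻¹ x, chi_mem χ⁻¹ x⟩ : OO) = ⟨χ x⁻¹, chi_mem χ _⟩ :=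
      Subtype.ext (χ.inv_apply' x)
    rw [h3]
    show φ (ρ _) = _
    rw [hρ, hφ, ← map_pow, ← pow_mul]
    congr 1
    by_cases hx : x = 0
    · rw [hx, inv_zero, zero_pow hk', zero_pow (mul_ne_zero hk (by simp))]
    · rw [inv_pow]
      refine inv_eq_of_mul_eq_one_right ?_
      rw [← pow_add, hs, FiniteField.pow_card_sub_one_eq_one x hx]
  obtain ⟨A, hA, hA1⟩ := roots_of_red χ ρ hρ P hP hd hc
  obtain ⟨A', hA', hA2⟩ := roots_of_red χ⁻¹ _ hρ' P' hP' hd' hc'
  obtain ⟨A'', h3, h4, h5⟩ : ∃ A'' ⊆ A', (∀ β ∈ A'', (β : ℂ)⁻¹ ≠ 1 ∨ ev χ⁻¹ = 0) ∧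
      Q.natDegree ≤ A.card + A''.card + 1 := by
    by_cases he : ev χ⁻¹ = 0
    · exact ⟨A', Subset.rfl, fun _ _ => Or.inr he, by omega⟩
    · refine ⟨A'.erase 1, erase_subset _ _, fun β hβ => Or.inl fun h =>
        (mem_erase.1 hβ).1 (Subtype.ext (inv_eq_one.1 h)), ?_⟩
      have h3 := h2 ((FiniteField.forall_pow_eq_one_iff F k').1 fun c => by
        have h4 := hρ' (mk Q (C c))
        rw [show (⟨χ⁻¹ (mk Q (C c)), chi_mem χ⁻¹ _⟩ : OO) = 1 from
          Subtype.ext (even_of_ev he c.ne_zero), map_one, eq_comm,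
          ← map_one (algebraMap (AdjoinRoot Q) _), (algebraMap (AdjoinRoot Q) _).injective.eq_iff,
          mk_C, ← map_pow, ← map_one (of Q), (of Q).injective.eq_iff] at h4
        exact Units.ext (by simpa using h4))
      have h4 := pred_card_le_card_erase (s := A') (a := 1)
      omega
  have hq : (Fintype.card F : ℂ) ≠ 0 := by simp
  have hne : ∀ β ∈ A', ρ β ≠ 0 := fun β hβ h => (hA2 β hβ).1 (by simp [h])
  have hne' : ∀ β : OO, ρ β ≠ 0 → (β : ℂ) ≠ 0 := fun β h h0 =>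
    h (by rw [show β = 0 from Subtype.ext h0, map_zero])
  refine simple_of_card χ (by omega) (A.image (fun β : OO => (β : ℂ)⁻¹) ∪
    A''.image fun β : OO => ((Fintype.card F : ℂ) * (β : ℂ)⁻¹)⁻¹) (fun z hz => ?_) ?_
  · rcases mem_union.1 hz with h | h <;> obtain ⟨β, hβ, rfl⟩ := mem_image.1 h
    · exact (hA1 β hβ).2
    · exact fun_eq hQ hχ (inv_ne_zero (hne' β (hne β (h3 hβ)))) (hA2 β (h3 hβ)).2 (h4 β hβ)
  · rw [card_union_of_disjoint, card_image_of_injective, card_image_of_injective]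
    · exact h5
    · exact fun a b h => Subtype.ext (inv_injective (mul_left_cancel₀ hq (inv_injective h)))
    · exact fun a b h => Subtype.ext (inv_injective h)
    · rw [disjoint_left]
      intro z h6 h7
      obtain ⟨a, ha, rfl⟩ := mem_image.1 h6
      obtain ⟨b, hb, h8⟩ := mem_image.1 h7
      have h9 : a * b = (Fintype.card F : OO) := Subtype.ext (by
        have := hne' b (hne b (h3 hb))
        show (a : ℂ) * b = Fintype.card F
        rw [← inv_injective h8]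
        field_simp)
      have h10 := congrArg ρ h9
      rw [map_mul, map_natCast, ← map_natCast (algebraMap F _), FiniteField.cast_card_eq_zero,
        map_zero] at h10
      exact mul_ne_zero (hA1 a ha).1 (hne b (h3 hb)) h10

omit [Fact (Irreducible Q)] [Fintype (AdjoinRoot Q)] in
theorem core {κ κ' : List ℕ} (hκ : Good F (Fintype.card F) 0 κ) (hκ' : Good F (Fintype.card F) 0 κ')
    {d s : ℕ} (hsum : κ.sum + κ'.sum = d * (Fintype.card F - 1)) (h0 : val (Fintype.card F) κ ≠ 0)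
    (h0' : val (Fintype.card F) κ' ≠ 0) (hs : val (Fintype.card F) κ * Fintype.card F ^ s +
      val (Fintype.card F) κ' = Fintype.card F ^ d - 1) :
    ∃ Δ : F[X], Δ ≠ 0 ∧ Δ.natDegree ≤
      (2 * d + 1) * (d * (val (Fintype.card F) κ + val (Fintype.card F) κ')) ∧
      ∀ Q : F[X], Q.Monic → Irreducible Q → Q.natDegree = d → ¬ Q ∣ Δ →
        ∀ χ : MulChar (AdjoinRoot Q) ℂ, χ ≠ 1 →
          orderOf χ * Nat.gcd (Fintype.card F ^ d - 1) (val (Fintype.card F) κ) =
            Fintype.card F ^ d - 1 → SimpleP χ := by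
  have hq := two_le_card (F := F)
  have h1 : κ.sum ≠ 0 := fun h => h0 (val_eq_zero _ _ h)
  have h1' : κ'.sum ≠ 0 := fun h => h0' (val_eq_zero _ _ h)
  obtain ⟨Δ, h2, h3, h4⟩ := exists_disc_goss hκ (d := d) (by omega)
  obtain ⟨Δ', h2', h3', h4'⟩ := exists_disc_goss hκ' (d := d) (by omega)
  refine ⟨Δ * Δ', mul_ne_zero h2 h2', natDegree_mul_le.trans ?_, ?_⟩
  · rw [mul_add, mul_add]
    exact add_le_add h3 h3'
  rintro Q hQ hi rfl hn χ hχ hg
  have := Fact.mk hi
  have := finite_adj hQ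
  have := Fintype.ofFinite (AdjoinRoot Q)
  obtain ⟨P, h5, h6, h7⟩ := h4 (mk Q) fun h => hn ((mk_eq_zero.1 h).mul_right _)
  obtain ⟨P', h5', h6', h7'⟩ := h4' (mk Q) fun h => hn ((mk_eq_zero.1 h).mul_left _)
  have ht : 0 < Fintype.card F - 1 := by omega
  have e1 := Nat.div_add_mod κ.sum (Fintype.card F - 1)
  have e2 := Nat.div_add_mod κ'.sum (Fintype.card F - 1)
  have e3 := Nat.mod_lt κ.sum ht
  have e4 := Nat.mod_lt κ'.sum ht
  refine simple_of_pair hQ hχ h0 h0' hs hg P P' h5 h5' ?_ ?_ h7 h7' ?_ fun h => ?_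
  · rw [h6]
    exact (Nat.div_lt_iff_lt_mul ht).2 (by omega)
  · rw [h6']
    exact (Nat.div_lt_iff_lt_mul ht).2 (by omega)
  · rw [h6, h6']
    exact Nat.lt_succ_iff.1 (lt_of_mul_lt_mul_left (a := Fintype.card F - 1) (by
      simp only [Nat.succ_eq_add_one, mul_add, mul_comm _ Q.natDegree]; omega) ht.le)
  · have e5 := Nat.mod_eq_zero_of_dvd (((val_modEq (by omega) κ').dvd_iff dvd_rfl).1 h)
    rw [h6, h6']
    exact Nat.lt_succ_iff.1 (lt_of_mul_lt_mul_left (a := Fintype.card F - 1) (by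
      simp only [Nat.succ_eq_add_one, mul_add, mul_comm _ Q.natDegree]; omega) ht.le)

omit [Fact (Irreducible Q)] [Fintype (AdjoinRoot Q)] in
theorem core_block (u : List ℕ) (hu : ∀ x ∈ u, x ≤ Fintype.card F - 1) {a b d : ℕ} (ha : a ≠ 0)
    (hb : b ≠ 0) (hd : u.length + a + b = d)
    (h1 : Good F (Fintype.card F) 0 (u ++ List.replicate a (Fintype.card F - 1)))
    (h2 : ∀ s, Fintype.card F - 1 ∣ s →
      Good F (Fintype.card F) s (u.map fun x => Fintype.card F - 1 - x)) :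
    ∃ Δ : F[X], Δ ≠ 0 ∧ Δ.natDegree ≤ (2 * d + 1) *
      (d * (Fintype.card F ^ (u.length + a) + Fintype.card F ^ (u.length + b))) ∧
      ∀ Q : F[X], Q.Monic → Irreducible Q → Q.natDegree = d → ¬ Q ∣ Δ →
        ∀ χ : MulChar (AdjoinRoot Q) ℂ, χ ≠ 1 → orderOf χ * Nat.gcd (Fintype.card F ^ d - 1)
          (val (Fintype.card F) u + Fintype.card F ^ u.length * (Fintype.card F ^ a - 1)) =
            Fintype.card F ^ d - 1 → SimpleP χ := by
  have hq := two_le_card (F := F)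
  set q := Fintype.card F
  have e1 := val_compl (q := q) (by omega) u hu
  have e2 := sum_compl (q := q) u hu
  have e3 := val_replicate (q := q) (by omega) a
  have e4 := val_replicate (q := q) (by omega) b
  have e5 := Nat.one_lt_pow ha hq
  have e6 := Nat.one_lt_pow hb hq
  have e7 : 0 < q ^ u.length := by positivity
  have v1 := val_append q u (List.replicate a (q - 1))
  have v2 := val_append q (List.replicate b (q - 1)) (u.map fun x => q - 1 - x)
  rw [List.length_replicate] at v2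
  obtain ⟨Δ, h3, h4, h5⟩ := core (d := d) (s := b) h1 (good_replicate b h2 0 (dvd_zero _))
    (by
      rw [List.sum_append, List.sum_append, List.sum_replicate, List.sum_replicate, ← hd, add_mul,
        add_mul, ← e2, smul_eq_mul, smul_eq_mul]
      ring)
    (by rw [v1]; exact (Nat.add_pos_right _ (Nat.mul_pos e7 (by omega))).ne')
    (by rw [v2]; omega) (by
      refine Nat.eq_sub_of_add_eq ?_
      rw [v1, v2, ← hd, pow_add, pow_add, ← e3, ← e1, ← e4]
      ring)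
  refine ⟨Δ, h3, h4.trans (Nat.mul_le_mul_left _ (Nat.mul_le_mul_left _ (add_le_add ?_ ?_))), ?_⟩
  · rw [v1, pow_add, ← e3, mul_add]
    omega
  · rw [v2, pow_add, ← e1, ← e4]
    nlinarith
  · rwa [v1, Nat.eq_sub_of_add_eq e3] at h5

end Pool.Agent.MP_f259ea_nt.FF
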