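import Mathlib

/-! Few elements of a finite cyclic group have small order. -/

namespace Pool.Agent.MP_f259ea_nt.FF

open Finset ArithmeticFunction

theorem lambda_sum {m X : ℕ} (hX : X ≠ 0) : ∑ e ∈ m.divisors, vonMangoldt e / e ≤
    Real.log X * (1 + Real.log X) + Real.log m / X := by
  have hX' : (1 : ℝ) ≤ X := by exact_mod_cast Nat.pos_of_ne_zero hX
  have hl := Real.log_nonneg hX'
  rw [← sum_filter_add_sum_filter_not _ fun e => e ≤ X]
  refine add_le_add ?_ ?_
  · have h1 := harmonic_le_one_add_log X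
    rw [harmonic_eq_sum_Icc] at h1
    push_cast at h1
    refine le_trans ?_ (mul_le_mul_of_nonneg_left h1 hl)
    rw [mul_sum]
    refine le_trans (sum_le_sum fun e he => ?_) (sum_le_sum_of_subset_of_nonneg (fun e he =>
      mem_Icc.2 ⟨Nat.pos_of_mem_divisors (mem_filter.1 he).1, (mem_filter.1 he).2⟩)
      fun _ _ _ => by positivity)
    have h2 : (0 : ℝ) < e := by exact_mod_cast Nat.pos_of_mem_divisors (mem_filter.1 he).1
    rw [← div_eq_mul_inv]
    gcongr
    exact vonMangoldt_le_log.trans (Real.log_le_log h2 (by exact_mod_cast (mem_filter.1 he).2))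
  · rw [← vonMangoldt_sum (n := m), sum_div]
    refine le_trans (sum_le_sum fun e he => ?_) (sum_le_sum_of_subset_of_nonneg
      (filter_subset (fun e => ¬ e ≤ X) _) fun _ _ _ => div_nonneg vonMangoldt_nonneg (by positivity))
    exact div_le_div_of_nonneg_left vonMangoldt_nonneg (by positivity)
      (by exact_mod_cast (not_le.1 (mem_filter.1 he).2).le)

theorem low_order {Γ : Type} [Group Γ] [Finite Γ] [IsCyclic Γ] {X : ℕ} (hX : X ≠ 0) {L : ℝ}
    (P : Γ → Prop) (hP : ∀ x, P x → orderOf x * Real.exp L < Nat.card Γ) :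
    Nat.card {x // P x} * L ≤
      Nat.card Γ * (Real.log X * (1 + Real.log X) + Real.log (Nat.card Γ) / X) := by
  classical
  have := Fintype.ofFinite Γ
  have hm : 0 < Nat.card Γ := Nat.card_pos
  set m := Nat.card Γ
  have h1 : ∀ x : Γ, Real.log (m / orderOf x : ℕ) ≤
      ∑ e ∈ m.divisors, if x ^ (m / e) = 1 then vonMangoldt e else 0 := fun x => by
    rw [← vonMangoldt_sum, ← sum_filter]
    refine sum_le_sum_of_subset_of_nonneg (fun e he => ?_) fun _ _ _ => vonMangoldt_nonneg
    have h2 := (Nat.dvd_div_iff_mul_dvd (orderOf_dvd_natCard x)).1 (Nat.dvd_of_mem_divisors he)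
    have h3 := Dvd.dvd.trans (dvd_mul_left e _) h2
    refine mem_filter.2 ⟨Nat.mem_divisors.2 ⟨h3, hm.ne'⟩, orderOf_dvd_iff_pow_eq_one.1 ?_⟩
    rwa [Nat.dvd_div_iff_mul_dvd h3, mul_comm]
  have h2 : ∀ x ∈ univ.filter P, L ≤ Real.log (m / orderOf x : ℕ) := fun x hx => by
    have h3 := hP x (mem_filter.1 hx).2
    have h4 : (0 : ℝ) < orderOf x := by exact_mod_cast orderOf_pos x
    rw [Nat.cast_div (orderOf_dvd_natCard x) h4.ne', Real.le_log_iff_exp_le (by positivity),
      le_div_iff₀' h4]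
    exact h3.le
  have h3 := card_nsmul_le_sum _ _ _ h2
  rw [nsmul_eq_mul] at h3
  rw [Nat.card_eq_fintype_card, Fintype.card_subtype]
  refine h3.trans ((sum_le_sum_of_subset_of_nonneg (filter_subset _ _) fun _ _ _ =>
    Real.log_natCast_nonneg _).trans ((sum_le_sum fun x _ => h1 x).trans ?_))
  refine le_trans ?_ (mul_le_mul_of_nonneg_left (lambda_sum (m := m) hX) (by positivity))
  rw [sum_comm, mul_sum]
  refine sum_le_sum fun e he => ?_
  have h4 := Nat.dvd_of_mem_divisors he
  have h5 := Nat.pos_of_mem_divisors he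
  have h6 := IsCyclic.card_pow_eq_one_le (α := Γ) (Nat.div_pos (Nat.le_of_dvd hm h4) h5)
  rw [← sum_filter, sum_const, nsmul_eq_mul, mul_div_left_comm, mul_comm,
    ← Nat.cast_div h4 (by positivity)]
  exact mul_le_mul_of_nonneg_left (by exact_mod_cast h6) vonMangoldt_nonneg

theorem mulChar_facts (K : Type) [Field K] [Fintype K] :
    IsCyclic (MulChar K ℂ) ∧ Nat.card (MulChar K ℂ) = Fintype.card K - 1 := by
  classical
  have : NeZero ((Monoid.exponent Kˣ : ℕ) : ℂ) := ⟨by exact_mod_cast Monoid.exponent_ne_zero_of_finite⟩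
  obtain ⟨e⟩ := MulChar.mulEquiv_units K ℂ
  exact ⟨e.isCyclic.2 inferInstance, by
    rw [Nat.card_congr e.toEquiv, Nat.card_eq_fintype_card, Fintype.card_units]⟩

end Pool.Agent.MP_f259ea_nt.FF
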