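import Pool.Agent.MP_f259ea_nt.FFGreedy

/-! Power sums of monic polynomials: Carlitz recursion and the greedy degree formula. -/

namespace Pool.Agent.MP_f259ea_nt.FF

open Finset Polynomial

variable (F : Type) [Field F] [Fintype F]

theorem low_finite (n : ℕ) : {f : F[X] | f.degree < n}.Finite := by
  have : Finite (degreeLT F n) := Finite.of_equiv _ (degreeLTEquiv F n).symm.toEquiv
  exact (Set.toFinite (degreeLT F n : Set F[X])).subset fun f hf => mem_degreeLT.2 hf

/-- The polynomials of degree `< n`. -/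
noncomputable def low (n : ℕ) : Finset F[X] := (low_finite F n).toFinset

open Classical in
/-- The monic polynomials of degree `n`. -/
noncomputable def mon (n : ℕ) : Finset F[X] :=
  (low F (n + 1)).filter fun f => f.Monic ∧ f.natDegree = n

/-- The power sums. -/
noncomputable def S (n k : ℕ) : F[X] := ∑ a ∈ mon F n, a ^ k

variable {F}

theorem mem_low {n : ℕ} {f : F[X]} : f ∈ low F n ↔ f.degree < n := by simp [low]

theorem mem_mon {n : ℕ} {f : F[X]} : f ∈ mon F n ↔ f.Monic ∧ f.natDegree = n := by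
  simp only [mon, mem_filter, mem_low, and_iff_right_iff_imp]
  rintro ⟨h1, h2⟩
  rw [degree_eq_natDegree h1.ne_zero, h2]
  exact_mod_cast Nat.lt_succ_self n

theorem mon_zero : mon F 0 = {1} := by
  ext f
  rw [mem_mon, mem_singleton]
  exact ⟨fun h => h.1.natDegree_eq_zero.1 h.2, fun h => by simp [h]⟩

theorem sum_mon_succ {M : Type*} [AddCommMonoid M] (n : ℕ) (g : F[X] → M) :
    ∑ a ∈ mon F (n + 1), g a = ∑ b ∈ mon F n, ∑ c : F, g (X * b + C c) := by
  rw [← sum_product']
  symm
  refine sum_nbij' (fun x => X * x.1 + C x.2) (fun a => (a.divX, a.coeff 0)) ?_ ?_ ?_ ?_ ?_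
  · rintro ⟨b, c⟩ h
    obtain ⟨h1, h2⟩ := mem_mon.1 (mem_product.1 h).1
    have h3 : (X * b).natDegree = n + 1 := by rw [natDegree_X_mul h1.ne_zero, h2]
    refine mem_mon.2 ⟨(monic_X.mul h1).add_of_left ?_, by rw [natDegree_add_C, h3]⟩
    refine degree_C_le.trans_lt ?_
    rw [← natDegree_pos_iff_degree_pos, h3]
    omega
  · intro a h
    obtain ⟨h1, h2⟩ := mem_mon.1 h
    have h3 : a.divX.natDegree = n := by rw [natDegree_divX_eq_natDegree_tsub_one, h2]; rfl
    refine mem_product.2 ⟨mem_mon.2 ⟨?_, h3⟩, mem_univ _⟩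
    rw [Monic, leadingCoeff, h3, coeff_divX, ← h2]
    exact h1
  · rintro ⟨b, c⟩ _
    refine Prod.ext ?_ (by simp)
    ext i
    simp [coeff_divX]
  · intro a _
    exact X_mul_divX_add a
  · intro _ _
    rfl

theorem expand_val {R : Type} [CommRing R] [Algebra F R] (c : F) : ∀ (κ : List ℕ) (y : R),
    (y + algebraMap F R c) ^ val (Fintype.card F) κ = ∑ l ∈ subs κ,
      algebraMap F R ((bin κ l : F) * c ^ (κ.sum - l.sum)) * y ^ val (Fintype.card F) l
  | [], y => by simp [val, subs, bin]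
  | a :: κ, y => by
    have h1 : (y + algebraMap F R c) ^ Fintype.card F = y ^ Fintype.card F + algebraMap F R c := by
      have := map_add (FiniteField.frobeniusAlgHom F R) y (algebraMap F R c)
      rwa [AlgHom.commutes] at this
    rw [val, pow_add, pow_mul, h1, expand_val c κ, add_pow, sum_subs_cons, sum_mul_sum]
    refine sum_congr rfl fun b hb => sum_congr rfl fun l hl => ?_
    have h2 := sum_le_of_mem hl
    have h3 := mem_range.1 hb
    simp only [bin, val, List.sum_cons]
    rw [show a + κ.sum - (b + l.sum) = (a - b) + (κ.sum - l.sum) by omega]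
    simp only [Nat.cast_mul, map_mul, map_pow, map_natCast, pow_add, pow_mul]
    ring

theorem S_zero (k : ℕ) : S F 0 k = 1 := by simp [S, mon_zero]

theorem S_succ (n : ℕ) (κ : List ℕ) : S F (n + 1) (val (Fintype.card F) κ) = ∑ l ∈ subs κ,
    C ((bin κ l : F) * ∑ c : F, c ^ (κ.sum - l.sum)) *
      (X ^ val (Fintype.card F) l * S F n (val (Fintype.card F) l)) := by
  rw [S, sum_mon_succ]
  simp only [← algebraMap_eq, expand_val]
  rw [sum_congr rfl fun b _ => sum_comm, sum_comm]
  refine sum_congr rfl fun l _ => ?_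
  rw [sum_comm, S, mul_sum, map_sum, sum_mul]
  refine sum_congr rfl fun c _ => ?_
  rw [mul_sum, mul_sum]
  refine sum_congr rfl fun b _ => ?_
  rw [mul_pow]

theorem two_le_card : 2 ≤ Fintype.card F := Fintype.one_lt_card

theorem psum_ne {e : ℕ} (h : ∑ c : F, c ^ e ≠ 0) : Fintype.card F - 1 ≤ e :=
  le_of_not_gt fun h1 => h (FiniteField.sum_pow_lt_card_sub_one F e h1)

theorem psum_top : ∑ c : F, c ^ (Fintype.card F - 1) ≠ 0 := by
  classical
  have h0 : Fintype.card F - 1 ≠ 0 := by have := two_le_card (F := F); omega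
  have h1 : ∀ c : F, c ^ (Fintype.card F - 1) = 1 - if c = 0 then 1 else 0 := fun c => by
    split_ifs with h
    · simp [h, h0]
    · simp [FiniteField.pow_card_sub_one_eq_one c h]
  simp [h1]

theorem S_eq_zero : ∀ (n : ℕ) (κ : List ℕ), κ.sum < n * (Fintype.card F - 1) →
    S F n (val (Fintype.card F) κ) = 0
  | 0, _, h => by omega
  | n + 1, κ, h => by
    rw [S_succ]
    refine sum_eq_zero fun l hl => ?_
    by_cases h1 : ∑ c : F, c ^ (κ.sum - l.sum) = 0
    · simp [h1]
    · have h2 := psum_ne h1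
      have h3 := sum_le_of_mem hl
      rw [add_mul] at h
      rw [S_eq_zero n l (by omega)]
      simp

/-- The greedy degree. -/
def U (q n : ℕ) (κ : List ℕ) : ℕ := ∑ i ∈ range n, val q (rem ((i + 1) * (q - 1)) κ)

theorem U_succ (q n : ℕ) (κ : List ℕ) :
    U q (n + 1) κ = val q (rem (q - 1) κ) + U q n (rem (q - 1) κ) := by
  rw [U, sum_range_succ', add_comm, U]
  simp only [zero_add, one_mul, rem_rem]
  congr 1
  refine sum_congr rfl fun i _ => ?_
  congr 2
  ring

theorem U_mono {q : ℕ} (hq : 2 ≤ q) {n : ℕ} {κ l : List ℕ} (hl : l ∈ subs κ)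
    (h1 : l.sum + (q - 1) ≤ κ.sum) (h2 : n * (q - 1) ≤ l.sum) :
    U q n l ≤ U q n (rem (q - 1) κ) := by
  refine sum_le_sum fun i hi => ?_
  rw [rem_rem]
  have h3 := Nat.mul_le_mul_right (q - 1) (Nat.succ_le_of_lt (mem_range.1 hi))
  refine val_le_rem hq (subs_trans hl (rem_mem _ _)) ?_
  rw [rem_sum, Nat.succ_eq_add_one] at *
  omega

theorem S_natDegree_le : ∀ (n : ℕ) (κ : List ℕ),
    (S F n (val (Fintype.card F) κ)).natDegree ≤ U (Fintype.card F) n κ
  | 0, _ => by simp [S_zero]
  | n + 1, κ => by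
    rw [S_succ, U_succ]
    refine natDegree_sum_le_of_forall_le _ _ fun l hl => ?_
    by_cases h1 : ∑ c : F, c ^ (κ.sum - l.sum) = 0
    · simp [h1]
    have h2 := psum_ne h1
    have h3 := sum_le_of_mem hl
    rcases Nat.lt_or_ge l.sum (n * (Fintype.card F - 1)) with h4 | h4
    · simp [S_eq_zero n l h4]
    refine (natDegree_C_mul_le _ _).trans (natDegree_mul_le.trans (add_le_add ?_ ?_))
    · rw [natDegree_X_pow]
      exact val_le_rem two_le_card hl (by omega)
    · exact (S_natDegree_le n l).trans (U_mono two_le_card hl (by omega) h4)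

theorem S_coeff_ne : ∀ (n : ℕ) (κ : List ℕ), n * (Fintype.card F - 1) ≤ κ.sum →
    (∀ i, ((bin (rem (i * (Fintype.card F - 1)) κ)
      (rem ((i + 1) * (Fintype.card F - 1)) κ) : ℕ) : F) ≠ 0) →
    (S F n (val (Fintype.card F) κ)).coeff (U (Fintype.card F) n κ) ≠ 0
  | 0, _, _, _ => by simp [S_zero, U]
  | n + 1, κ, h, hb => by
    rw [add_mul, one_mul] at h
    rw [S_succ, U_succ, finsetSum_coeff, sum_eq_single_of_mem _ (rem_mem (Fintype.card F - 1) κ)]
    · rw [coeff_C_mul, add_comm, coeff_X_pow_mul, rem_sum,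
        show κ.sum - (κ.sum - (Fintype.card F - 1)) = Fintype.card F - 1 by omega]
      refine mul_ne_zero (mul_ne_zero ?_ psum_top) (S_coeff_ne n _ (by rw [rem_sum]; omega) ?_)
      · simpa [rem_zero] using hb 0
      · intro i
        have := hb (i + 1)
        rwa [rem_rem, rem_rem, add_comm _ (i * _), add_comm _ ((i + 1) * _), ← Nat.succ_mul,
          ← Nat.succ_mul]
    · intro l hl hne
      by_cases h1 : ∑ c : F, c ^ (κ.sum - l.sum) = 0
      · simp [h1]
      have h2 := psum_ne h1
      have h3 := sum_le_of_mem hl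
      rcases Nat.lt_or_ge l.sum (n * (Fintype.card F - 1)) with h4 | h4
      · simp [S_eq_zero n l h4]
      refine coeff_eq_zero_of_natDegree_lt ((natDegree_C_mul_le _ _).trans_lt
        (natDegree_mul_le.trans_lt (add_lt_add_of_lt_of_le ?_ ?_)))
      · rw [natDegree_X_pow]
        exact val_lt_rem two_le_card hl (by omega) hne
      · exact (S_natDegree_le n l).trans (U_mono two_le_card hl (by omega) h4)

theorem S_good {κ : List ℕ} (hκ : Good F (Fintype.card F) 0 κ) {n : ℕ}
    (hn : n * (Fintype.card F - 1) ≤ κ.sum) : S F n (val (Fintype.card F) κ) ≠ 0 ∧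
    (S F n (val (Fintype.card F) κ)).natDegree = U (Fintype.card F) n κ := by
  have h := S_coeff_ne n κ hn fun i => hκ.bin_ne i
  exact ⟨fun h0 => h (by rw [h0, coeff_zero]),
    le_antisymm (S_natDegree_le n κ) (le_natDegree_of_ne_zero h)⟩

theorem U_le {q : ℕ} (hq : 2 ≤ q) (n : ℕ) (κ : List ℕ) : U q n κ ≤ n * val q κ := by
  simpa [U] using sum_le_card_nsmul (range n) _ (val q κ) fun i _ => val_rem_le hq κ _

end Pool.Agent.MP_f259ea_nt.FF
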