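import Mathlib

/-! Digit lists, sub-lists of digits and the greedy removal of the lowest units. -/

namespace Pool.Agent.MP_f259ea_nt.FF

open Finset

/-- The value of a list of digits. -/
def val (q : ℕ) : List ℕ → ℕ
  | [] => 0
  | a :: κ => a + q * val q κ

/-- The digit lists below a given one. -/
def subs : List ℕ → Finset (List ℕ)
  | [] => {[]}
  | a :: κ => (range (a + 1) ×ˢ subs κ).image fun x => x.1 :: x.2

/-- The product of the binomial coefficients of the digits. -/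
def bin : List ℕ → List ℕ → ℕ
  | a :: κ, b :: l => a.choose b * bin κ l
  | _, _ => 1

/-- Remove the `r` lowest units. -/
def rem : ℕ → List ℕ → List ℕ
  | _, [] => []
  | r, a :: κ => (a - r) :: rem (r - a) κ

theorem mem_subs_cons {a : ℕ} {κ l : List ℕ} :
    l ∈ subs (a :: κ) ↔ ∃ b l', b ≤ a ∧ l' ∈ subs κ ∧ l = b :: l' := by
  simp only [subs, mem_image, mem_product, mem_range, Prod.exists]
  constructor
  · rintro ⟨b, l', ⟨h1, h2⟩, rfl⟩
    exact ⟨b, l', by omega, h2, rfl⟩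
  · rintro ⟨b, l', h1, h2, rfl⟩
    exact ⟨b, l', ⟨by omega, h2⟩, rfl⟩

theorem sum_subs_cons {M : Type*} [AddCommMonoid M] (a : ℕ) (κ : List ℕ) (g : List ℕ → M) :
    ∑ l ∈ subs (a :: κ), g l = ∑ b ∈ range (a + 1), ∑ l ∈ subs κ, g (b :: l) := by
  rw [subs, sum_image, sum_product]
  rintro ⟨b, l⟩ _ ⟨b', l'⟩ _ h
  simpa using h

theorem sum_le_of_mem : ∀ {κ l : List ℕ}, l ∈ subs κ → l.sum ≤ κ.sum
  | [], l, h => by
    rw [subs, mem_singleton] at h
    simp [h]
  | a :: κ, l, h => by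
    obtain ⟨b, l', h1, h2, rfl⟩ := mem_subs_cons.1 h
    have := sum_le_of_mem h2
    simp only [List.sum_cons]
    omega

theorem subs_trans : ∀ {κ l l' : List ℕ}, l ∈ subs κ → l' ∈ subs l → l' ∈ subs κ
  | [], l, l', h, h' => by
    rw [subs, mem_singleton] at h
    rwa [h] at h'
  | a :: κ, l, l', h, h' => by
    obtain ⟨b, l1, h1, h2, rfl⟩ := mem_subs_cons.1 h
    obtain ⟨c, l2, h3, h4, rfl⟩ := mem_subs_cons.1 h'
    exact mem_subs_cons.2 ⟨c, l2, h3.trans h1, subs_trans h2 h4, rfl⟩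

theorem rem_mem : ∀ (r : ℕ) (κ : List ℕ), rem r κ ∈ subs κ
  | _, [] => by simp [rem, subs]
  | r, a :: κ => mem_subs_cons.2 ⟨_, _, Nat.sub_le _ _, rem_mem _ κ, rfl⟩

theorem rem_sum : ∀ (r : ℕ) (κ : List ℕ), (rem r κ).sum = κ.sum - r
  | _, [] => by simp [rem]
  | r, a :: κ => by
    simp only [rem, List.sum_cons, rem_sum _ κ]
    omega

theorem rem_zero : ∀ κ : List ℕ, rem 0 κ = κ
  | [] => rfl
  | a :: κ => by simp [rem, rem_zero κ]

theorem rem_rem : ∀ (r s : ℕ) (κ : List ℕ), rem s (rem r κ) = rem (r + s) κ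
  | _, _, [] => rfl
  | r, s, a :: κ => by
    simp only [rem, rem_rem _ _ κ]
    rw [show a - r - s = a - (r + s) by omega, show r - a + (s - (a - r)) = r + s - a by omega]

theorem greedy {q : ℕ} (hq : 2 ≤ q) : ∀ {κ l : List ℕ} {r : ℕ}, l ∈ subs κ → l.sum + r ≤ κ.sum →
    val q l + κ.sum ≤ val q (rem r κ) + l.sum + r ∧ (val q (rem r κ) ≤ val q l → l = rem r κ)
  | [], l, r, h, _ => by
    rw [subs, mem_singleton] at h
    simp [h, rem, val]
  | a :: κ, l, r, h, hs => by
    obtain ⟨b, l', h1, h2, rfl⟩ := mem_subs_cons.1 h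
    have h3 := sum_le_of_mem h2
    simp only [List.sum_cons] at hs
    obtain ⟨h4, h5⟩ := greedy hq (r := r - a) h2 (by omega)
    obtain ⟨t, rfl⟩ : ∃ t, q = t + 2 := ⟨q - 2, by omega⟩
    have h6 : val (t + 2) l' ≤ val (t + 2) (rem (r - a) κ) := by omega
    have h7 := Nat.mul_le_mul_left t h6
    simp only [rem, val, List.sum_cons, add_mul]
    refine ⟨by omega, fun h8 => ?_⟩
    have h9 := h5 (by omega)
    have h10 := rem_sum (r - a) κ
    rw [← h9] at h10 h8 h4 ⊢
    congr 1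
    omega

theorem val_le_rem {q : ℕ} (hq : 2 ≤ q) {κ l : List ℕ} {r : ℕ} (h : l ∈ subs κ)
    (hs : l.sum + r ≤ κ.sum) : val q l ≤ val q (rem r κ) := by
  have := (greedy hq h hs).1
  omega

theorem val_lt_rem {q : ℕ} (hq : 2 ≤ q) {κ l : List ℕ} {r : ℕ} (h : l ∈ subs κ)
    (hs : l.sum + r ≤ κ.sum) (hne : l ≠ rem r κ) : val q l < val q (rem r κ) :=
  lt_of_not_ge fun h1 => hne ((greedy hq h hs).2 h1)

theorem val_rem_lt {q : ℕ} (hq : 2 ≤ q) (κ : List ℕ) {r s : ℕ} (h : r < s) (hs : s ≤ κ.sum) :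
    val q (rem s κ) < val q (rem r κ) := by
  have h1 := rem_sum s κ
  have := (greedy hq (r := r) (rem_mem s κ) (by omega)).1
  omega

theorem val_rem_le {q : ℕ} (hq : 2 ≤ q) (κ : List ℕ) (s : ℕ) : val q (rem s κ) ≤ val q κ := by
  have h1 := val_le_rem hq (r := 0) (rem_mem s κ) (by simpa using sum_le_of_mem (rem_mem s κ))
  rwa [rem_zero] at h1

theorem val_modEq {q : ℕ} (hq : 1 ≤ q) : ∀ κ : List ℕ, val q κ ≡ κ.sum [MOD (q - 1)]
  | [] => rfl
  | a :: κ => by
    have h1 : q ≡ 1 [MOD (q - 1)] := ((Nat.modEq_iff_dvd' hq).2 dvd_rfl).symm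
    have := (h1.mul (val_modEq hq κ)).add_left a
    simpa [val] using this

theorem val_eq_zero (q : ℕ) : ∀ κ : List ℕ, κ.sum = 0 → val q κ = 0
  | [], _ => rfl
  | a :: κ, h => by
    simp only [List.sum_cons] at h
    rw [val, val_eq_zero q κ (by omega)]
    omega

theorem val_append (q : ℕ) : ∀ u v : List ℕ, val q (u ++ v) = val q u + q ^ u.length * val q v
  | [], v => by simp [val]
  | a :: u, v => by
    simp only [List.cons_append, val, val_append q u v, List.length_cons]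
    ring

theorem val_compl {q : ℕ} (hq : 1 ≤ q) : ∀ u : List ℕ, (∀ a ∈ u, a ≤ q - 1) →
    val q u + val q (u.map fun a => q - 1 - a) + 1 = q ^ u.length
  | [], _ => by simp [val]
  | a :: u, h => by
    have h1 := val_compl hq u fun b hb => h b (List.mem_cons_of_mem _ hb)
    have h2 := h a List.mem_cons_self
    simp only [List.map_cons, val, List.length_cons, pow_succ', ← h1, mul_add]
    omega

theorem sum_compl {q : ℕ} : ∀ u : List ℕ, (∀ a ∈ u, a ≤ q - 1) →
    u.sum + (u.map fun a => q - 1 - a).sum = u.length * (q - 1)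
  | [], _ => by simp
  | a :: u, h => by
    have h1 := sum_compl u fun b hb => h b (List.mem_cons_of_mem _ hb)
    have h2 := h a List.mem_cons_self
    simp only [List.map_cons, List.sum_cons, List.length_cons, add_mul]
    omega

theorem val_replicate {q : ℕ} (hq : 1 ≤ q) (n : ℕ) :
    val q (List.replicate n (q - 1)) + 1 = q ^ n := by
  induction n with
  | zero => simp [val]
  | succ n ih =>
    rw [List.replicate_succ, val, pow_succ, ← ih, add_mul, mul_comm _ q]
    omega

section Good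
variable (F : Type) [Field F]

/-- All binomial coefficients with this top entry are non-zero in `F`. -/
def Free (a : ℕ) : Prop := ∀ y ≤ a, ((a.choose y : ℕ) : F) ≠ 0

/-- Digit lists for which the greedy terms survive. -/
def Good (q : ℕ) : ℕ → List ℕ → Prop
  | _, [] => True
  | s, a :: κ => a ≤ q - 1 ∧ (Free F a ∨ (q - 1) ∣ s) ∧ Good q (s + a) κ

variable {F}

theorem Good.bin_ne {q : ℕ} (l : ℕ) : ∀ {s : ℕ} {κ : List ℕ}, Good F q s κ →
    ((bin (rem (l * (q - 1) - s) κ) (rem ((l + 1) * (q - 1) - s) κ) : ℕ) : F) ≠ 0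
  | _, [], _ => by simp [rem, bin]
  | s, a :: κ, ⟨h1, h2, h3⟩ => by
    have ih := Good.bin_ne l h3
    simp only [rem, bin, Nat.cast_mul, Nat.sub_sub]
    refine mul_ne_zero ?_ ih
    rw [add_mul, one_mul]
    by_cases h4 : l * (q - 1) ≤ s
    · rw [Nat.sub_eq_zero_of_le h4, Nat.sub_zero]
      rcases h2 with h2 | ⟨t, rfl⟩
      · exact h2 _ (Nat.sub_le _ _)
      · rcases Nat.lt_or_ge l t with h5 | h5
        · have := Nat.mul_le_mul_left (q - 1) (Nat.succ_le_of_lt h5)
          rw [Nat.mul_succ, mul_comm _ l] at this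
          rw [Nat.sub_eq_zero_of_le this]
          simp
        · have := Nat.mul_le_mul_left (q - 1) h5
          rw [mul_comm _ l] at this
          rw [Nat.sub_eq_zero_of_le (n := a) (by omega)]
          simp
    · rw [Nat.sub_eq_zero_of_le (n := a) (m := l * (q - 1) + (q - 1) - s) (by omega)]
      simp

theorem good_of_free {q : ℕ} : ∀ (s : ℕ) (κ : List ℕ), (∀ a ∈ κ, a ≤ q - 1 ∧ Free F a) →
    Good F q s κ
  | _, [], _ => trivial
  | _, a :: κ, h => ⟨(h a List.mem_cons_self).1, Or.inl (h a List.mem_cons_self).2,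
      good_of_free _ κ fun b hb => h b (List.mem_cons_of_mem _ hb)⟩

theorem good_replicate {q : ℕ} (n : ℕ) {κ : List ℕ} (h : ∀ s, (q - 1) ∣ s → Good F q s κ) :
    ∀ s, (q - 1) ∣ s → Good F q s (List.replicate n (q - 1) ++ κ) := by
  induction n with
  | zero => simpa using h
  | succ n ih =>
    intro s hs
    exact ⟨le_rfl, Or.inr hs, ih _ (dvd_add hs dvd_rfl)⟩

theorem free_zero : Free F 0 := fun y hy => by
  rw [Nat.le_zero.1 hy]
  simp

end Good

end Pool.Agent.MP_f259ea_nt.FF
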