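import Pool.Agent.MP_f259ea_nt.FFBlock
import Pool.Agent.MP_f259ea_nt.FFCount
import Pool.Agent.MP_2a1f0e_nt.Div

/-! Choice of the parameters. -/

namespace Pool.Agent.MP_f259ea_nt.FF

open Finset Polynomial

theorem tau_pow {k : ℕ} (hk : k ≠ 0) : ∃ C : ℕ, ∀ n : ℕ, n.divisors.card ^ k ≤ C * n := by
  obtain ⟨C, h1, h2⟩ := Pool.Agent.MP_2a1f0e_nt.divisor_bound (ε := (k : ℝ)⁻¹) (by positivity)
  refine ⟨⌈C ^ k⌉₊, fun n => ?_⟩
  have h3 := pow_le_pow_left₀ (by positivity) (h2 n) k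
  rw [mul_pow, Real.rpow_inv_natCast_pow (by positivity) hk] at h3
  have h4 := mul_le_mul_of_nonneg_right (Nat.le_ceil (C ^ k)) (Nat.cast_nonneg (α := ℝ) n)
  exact_mod_cast h3.trans h4

theorem two_pow_le_tau {m : ℕ} (hm : m ≠ 0) : 2 ^ m.primeFactors.card ≤ m.divisors.card := by
  rw [Nat.card_divisors hm]
  exact pow_card_le_prod _ _ _ fun l hl => Nat.succ_le_succ
    ((Nat.prime_of_mem_primeFactors hl).factorization_pos_of_dvd hm
      (Nat.dvd_of_mem_primeFactors hl))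

theorem lt_pow_twelve {d Y : ℕ} (h : d < (Y + 1) ^ 12) : d < 2 ^ (12 * Y) := by
  rw [mul_comm, pow_mul]
  exact h.trans_le (Nat.pow_le_pow_left Nat.lt_two_pow_self 12)

theorem bits_main {q : ℕ} (hq : 2 ≤ q) : ∃ c Y0 : ℕ, ∀ Y, Y0 ≤ Y → ∀ d, Y ^ 12 ≤ d →
    d < (Y + 1) ^ 12 → ∃ N ≤ c * Y ^ 8, ∀ g, g ∣ q ^ d - 1 → g ≤ 2 ^ (32 * Y ^ 4) →
      ∀ A, A ≡ g [MOD (q - 1)] →
        ∃ S ⊆ range N, Nat.gcd (q ^ d - 1) (A + q * ((q - 1) * yy q S)) = g := by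
  obtain ⟨K, hK⟩ := exists_pow_lt_of_lt_one (by norm_num : (0 : ℝ) < 1 / 2) (rho_lt hq)
  obtain ⟨C, hC⟩ := tau_pow (k := 24) (by norm_num)
  have hK0 : K ≠ 0 := by rintro rfl; norm_num at hK
  set c := 46 + 2 * q
  refine ⟨K * c * (2 * q * c + 1), C * 2 ^ 12 * (2 * (1 + q)) ^ 24 + 1, fun Y hY d h1 h2 =>
    ⟨K * (c * Y ^ 4) * (2 * q * (c * Y ^ 4) + 1), ?_, fun g hg h3 A hA => ?_⟩⟩
  · have : 1 ≤ Y ^ 4 := Nat.one_le_pow _ _ (by omega)
    calc _ ≤ K * (c * Y ^ 4) * (2 * q * (c * Y ^ 4) + Y ^ 4) := by gcongr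
      _ = _ := by ring
  have hY0 : 0 < Y := by omega
  have hd : d ≠ 0 := by have := pow_pos hY0 12; omega
  refine exists_bits (T := Y ^ 2) (w := 2 * q * (c * Y ^ 4)) (w' := c * Y ^ 4) hq hd
    (by positivity) hg hA ((tail_sum hq hd (by positivity) hY0.ne').trans ?_) ?_ ?_ ?_ ?_
  · have h4 : d.divisors.card * (2 * (1 + q)) ≤ Y := by
      refine (Nat.pow_le_pow_iff_left (n := 24) (by norm_num)).1 ?_
      have h5 : d ≤ (2 * Y) ^ 12 := h2.le.trans (Nat.pow_le_pow_left (by omega) 12)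
      have h6 : Y ≤ Y ^ 12 := Nat.le_self_pow (by norm_num) Y
      calc _ = d.divisors.card ^ 24 * (2 * (1 + q)) ^ 24 := mul_pow _ _ _
        _ ≤ C * (2 * Y) ^ 12 * (2 * (1 + q)) ^ 24 := by
          gcongr
          exact (hC d).trans (by gcongr)
        _ = C * 2 ^ 12 * (2 * (1 + q)) ^ 24 * Y ^ 12 := by ring
        _ ≤ Y ^ 12 * Y ^ 12 := by gcongr; omega
        _ = _ := by ring
    have h5 : (d.divisors.card * (2 * (1 + q)) : ℝ) ≤ Y := by exact_mod_cast h4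
    have h6 : (Y : ℝ) / (Y ^ 2 : ℕ) + q / Y = (1 + q) / Y := by
      push_cast
      field_simp
    rw [h6, ← mul_div_assoc, div_le_div_iff₀ (by positivity) (by norm_num)]
    linarith
  · rw [pow_mul _ (2 * q), pow_mul _ 2 q]
    have : (q : ℝ) ≤ 2 ^ q := by exact_mod_cast Nat.lt_two_pow_self.le
    exact pow_le_pow_left₀ (by positivity) (this.trans (by gcongr; norm_num)) _
  · exact (Nat.le_mul_of_pos_left _ (Nat.pos_of_ne_zero hK0)).trans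
      (Nat.le_mul_of_pos_right _ (Nat.succ_pos _))
  · rw [Nat.mul_div_cancel _ (Nat.succ_pos _), pow_mul, ← one_div_pow]
    have := rho_pos hq
    gcongr
  · have h4 := lt_pow_twelve h2
    have h5 : q * d + 1 ≤ 2 ^ q * 2 ^ (12 * Y) :=
      Nat.mul_lt_mul'' Nat.lt_two_pow_self h4
    have h6 : WW q (Y ^ 2) ≤ (2 ^ q) ^ (Y ^ 2 * Y ^ 2) := (WW_le q _ (by omega)).trans
      (Nat.pow_le_pow_left Nat.lt_two_pow_self.le _)
    have h7 : Y ≤ Y ^ 4 := Nat.le_self_pow (by norm_num) Y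
    calc _ ≤ 2 * (2 ^ q * 2 ^ (12 * Y)) * (2 ^ (32 * Y ^ 4) * (2 ^ q) ^ (Y ^ 2 * Y ^ 2)) := by gcongr
      _ = 2 ^ (1 + q + 12 * Y + 32 * Y ^ 4 + q * Y ^ 4) := by ring
      _ < _ := Nat.pow_lt_pow_right (by norm_num) (by simp only [c]; nlinarith)

variable {F : Type} [Field F] [Fintype F]

theorem main_one : ∃ c Y0 : ℕ, ∀ Y, Y0 ≤ Y → ∀ d, Y ^ 12 ≤ d → d < (Y + 1) ^ 12 →
    ∃ (B : Finset F[X]) (e : ℕ), B.card ≤ Fintype.card F ^ e ∧ 2 * e ≤ d + c * Y ^ 8 ∧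
      ∀ Q : F[X], Q.Monic → Irreducible Q → Q.natDegree = d → Q ∉ B →
        ∀ (χ : MulChar (AdjoinRoot Q) ℂ) (g : ℕ), orderOf χ * g = Fintype.card F ^ d - 1 →
          g ≤ 2 ^ (32 * Y ^ 4) → χ ≠ 1 ∧ SimpleP χ := by
  have hq := two_le_card (F := F)
  obtain ⟨c, Y0, h⟩ := bits_main hq
  set q := Fintype.card F
  refine ⟨c + 100, Y0 + c + 40, fun Y hY d h1 h2 => ?_⟩
  obtain ⟨N, h3, h4⟩ := h Y (by omega) d h1 h2
  have e1 : Y ≤ Y ^ 4 := Nat.le_self_pow (by norm_num) Y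
  have e2 : Y ^ 4 ≤ Y ^ 8 := Nat.pow_le_pow_right (by omega) (by norm_num)
  have e3 : (c + 40) * Y ^ 8 ≤ d := le_trans (by
    calc _ ≤ Y ^ 4 * Y ^ 8 := by gcongr; omega
      _ = _ := by ring) h1
  rw [add_mul] at e3
  obtain ⟨a, b, ha, hab, hb, hd⟩ : ∃ a b, a ≠ 0 ∧ a ≤ b ∧ b ≤ a + 1 ∧ N + 1 + a + b = d :=
    ⟨(d - (N + 1)) / 2, d - (N + 1) - (d - (N + 1)) / 2, by omega, by omega, by omega, by omega⟩
  have h0 := Nat.one_lt_pow (show d ≠ 0 by omega) hq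
  obtain ⟨B, h5, h6⟩ := bad_set (F := F) (d := d) (E := q ^ (N + 1 + a) + q ^ (N + 1 + b))
    (by omega) ((Icc 1 (2 ^ (32 * Y ^ 4))).filter (· ∣ q ^ d - 1)) fun g hg =>
      det_bits ha (by omega) hd (h4 g (mem_filter.1 hg).2 (mem_Icc.1 (mem_filter.1 hg).1).2)
  refine ⟨B, 32 * Y ^ 4 + (1 + 12 * Y + (1 + (N + 1 + b))), h5.trans ?_, by rw [add_mul]; omega,
    fun Q a1 a2 a3 a4 χ g a5 a6 => ?_⟩
  · rw [pow_add _ (32 * Y ^ 4), pow_add _ (1 + 12 * Y), pow_add _ 1 (N + 1 + b)]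
    refine Nat.mul_le_mul ((card_filter_le _ _).trans ?_) (Nat.mul_le_mul ?_ ?_)
    · rw [Nat.card_Icc, Nat.add_sub_cancel]
      gcongr
    · have := lt_pow_twelve h2
      calc _ ≤ 2 ^ (1 + 12 * Y) := by rw [pow_add]; omega
        _ ≤ _ := by gcongr
    · have : q ^ (N + 1 + a) ≤ q ^ (N + 1 + b) := Nat.pow_le_pow_right (by omega) (by omega)
      have := Nat.mul_le_mul_right (q ^ (N + 1 + b)) hq
      rw [pow_one]
      omega
  · have a7 : χ ≠ 1 := by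
      rintro rfl
      have b1 : 2 ^ (32 * Y ^ 4 + 1) ≤ q ^ d :=
        (Nat.pow_le_pow_right (by norm_num) (by omega)).trans (Nat.pow_le_pow_left hq d)
      have b2 := Nat.one_lt_two_pow (show 32 * Y ^ 4 ≠ 0 by omega)
      rw [orderOf_one] at a5
      omega
    have a8 : g ≠ 0 := by rintro rfl; omega
    exact ⟨a7, h6 Q a1 a2 a3 a4 χ a7 g (mem_filter.2 ⟨mem_Icc.2 ⟨Nat.pos_of_ne_zero a8, a6⟩,
      Dvd.intro_left _ a5⟩) a5⟩

theorem main_two (hp : (Fintype.card F).Prime) {k : ℕ} (hk : k ≠ 0) : ∃ e0 : ℕ, ∀ e, e0 ≤ e →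
    ∀ d, k * e ≤ d → d < k * (e + 1) → ∀ n a, a ≠ 0 → n + a + a = d →
      ∃ B : Finset F[X], B.card ≤ Fintype.card F ^ (n + a + 2 * e) ∧
      ∀ Q : F[X], Q.Monic → Irreducible Q → Q.natDegree = d → Q ∉ B →
        ∀ (χ : MulChar (AdjoinRoot Q) ℂ) (g : ℕ), orderOf χ * g = Fintype.card F ^ d - 1 →
          Fintype.card F ^ (2 * a + 3 * e) ≤ orderOf χ → χ ≠ 1 ∧ SimpleP χ := by
  have hq := two_le_card (F := F)
  obtain ⟨C, hC⟩ := tau_pow (k := 2 * k) (by omega)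
  set q := Fintype.card F
  refine ⟨C + 8 * k + 8, fun e he d h1 h2 n a ha hn => ?_⟩
  have h0 := Nat.one_lt_pow (show d ≠ 0 by omega) hq
  have h4 : (q ^ d - 1).divisors.card ≤ q ^ e := by
    refine (Nat.pow_le_pow_iff_left (n := 2 * k) (by omega)).1 ((hC _).trans ?_)
    have h5 : C ≤ q ^ C := (Nat.lt_pow_self hq).le
    obtain ⟨t, rfl⟩ : ∃ t, k = t + 1 := ⟨k - 1, by omega⟩
    calc _ ≤ q ^ C * q ^ d := by gcongr; omega
      _ ≤ _ := by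
        rw [← pow_add, ← pow_mul]
        exact Nat.pow_le_pow_right (by omega) (by nlinarith)
  have h5 : (2 * d + 1) * 2 ≤ q ^ e := by
    obtain ⟨t, rfl⟩ : ∃ t, e = 4 * k + t := ⟨e - 4 * k, by omega⟩
    have b1 : 4 * k < 2 ^ (4 * k) := Nat.lt_two_pow_self
    have b2 : t - 2 < 2 ^ (t - 2) := Nat.lt_two_pow_self
    have b3 : 2 ^ t = 4 * 2 ^ (t - 2) := by
      rw [show t = 2 + (t - 2) by omega, pow_add]
      simp
    refine le_trans ?_ (Nat.pow_le_pow_left hq _)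
    calc _ ≤ 4 * k * (4 * k + t + 1) := by nlinarith
      _ ≤ 2 ^ (4 * k) * 2 ^ t := by gcongr; omega
      _ = _ := by ring
  obtain ⟨B, h6, h7⟩ := bad_set (F := F) (d := d) (E := q ^ (n + a) + q ^ (n + a))
    (by omega) ((q ^ d - 1).divisors.filter fun g => g * q ^ (2 * a + 3 * e) ≤ q ^ d) fun g hg =>
      det_prime hp ha hn (Nat.dvd_of_mem_divisors (mem_filter.1 hg).1) (by
        have b1 := (two_pow_le_tau (by omega)).trans h4
        have b2 : 4 ^ (q ^ d - 1).primeFactors.card ≤ q ^ e * q ^ e := by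
          rw [show 4 = 2 * 2 from rfl, mul_pow]
          gcongr
        have b3 : 2 ≤ q ^ e := Nat.one_lt_pow (by omega) hq
        refine Nat.le_of_mul_le_mul_right (c := q ^ (2 * a)) ?_ (by positivity)
        calc _ ≤ g * (q ^ e * q ^ e * q ^ e) * q ^ (2 * a) := by gcongr; nlinarith
          _ = g * q ^ (2 * a + 3 * e) := by ring
          _ ≤ q ^ d := (mem_filter.1 hg).2
          _ = _ := by rw [← hn]; ring)
  refine ⟨B, h6.trans ?_, fun Q a1 a2 a3 a4 χ g a5 a6 => ?_⟩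
  · calc _ ≤ q ^ e * ((2 * d + 1) * 2 * q ^ (n + a)) :=
          Nat.mul_le_mul ((card_filter_le _ _).trans h4) (le_of_eq (by ring))
      _ ≤ q ^ e * (q ^ e * q ^ (n + a)) := by gcongr
      _ = _ := by ring
  · have a7 : χ ≠ 1 := by
      rintro rfl
      have := Nat.one_lt_pow (show 2 * a + 3 * e ≠ 0 by omega) hq
      rw [orderOf_one] at a6
      omega
    refine ⟨a7, h7 Q a1 a2 a3 a4 χ a7 g (mem_filter.2 ⟨Nat.mem_divisors.2
      ⟨Dvd.intro_left _ a5, by omega⟩, ?_⟩) a5⟩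
    have := Nat.mul_le_mul_left g a6
    rw [mul_comm g (orderOf χ)] at this
    omega

end Pool.Agent.MP_f259ea_nt.FF
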