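import Pool.Agent.MP_f259ea_nt.FFMain

/-! The main estimate with real parameters. -/

namespace Pool.Agent.MP_f259ea_nt.FF

open Finset Polynomial

theorem exp_le_two_pow {t : ℝ} {n : ℕ} (h : 2 * t ≤ n) : Real.exp t ≤ 2 ^ n := by
  have h1 := Real.log_two_gt_d9
  have h2 : (0 : ℝ) ≤ n := Nat.cast_nonneg n
  rw [← Real.le_log_iff_exp_le (by positivity), Real.log_pow]
  nlinarith

theorem cbrt_le {d : ℕ} {t : ℝ} (ht : 0 ≤ t) : (d : ℝ) ^ (1 / 3 : ℝ) ≤ t ↔ d ≤ t ^ 3 := by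
  rw [one_div, Real.rpow_inv_le_iff_of_pos (by positivity) ht (by norm_num)]
  norm_cast

theorem le_cbrt {d : ℕ} {t : ℝ} (ht : 0 ≤ t) : t ≤ (d : ℝ) ^ (1 / 3 : ℝ) ↔ t ^ 3 ≤ d := by
  rw [one_div, Real.le_rpow_inv_iff_of_pos ht (by positivity) (by norm_num)]
  norm_cast

variable {F : Type} [Field F] [Fintype F]

theorem char_facts {Q : F[X]} (hQ : Q.Monic) (hi : Irreducible Q) :
    Finite (MulChar (AdjoinRoot Q) ℂ) ∧ IsCyclic (MulChar (AdjoinRoot Q) ℂ) ∧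
      Nat.card (MulChar (AdjoinRoot Q) ℂ) = Fintype.card F ^ Q.natDegree - 1 := by
  have := Fact.mk hi
  have := finite_adj hQ
  have := Fintype.ofFinite (AdjoinRoot Q)
  rw [← card_adj hQ]
  exact ⟨inferInstance, mulChar_facts (AdjoinRoot Q)⟩

theorem exists_index {Q : F[X]} (hQ : Q.Monic) (hi : Irreducible Q)
    (χ : MulChar (AdjoinRoot Q) ℂ) :
    0 < orderOf χ ∧ ∃ g, orderOf χ * g = Fintype.card F ^ Q.natDegree - 1 := by
  obtain ⟨h1, -, h2⟩ := char_facts hQ hi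
  obtain ⟨g, hg⟩ := orderOf_dvd_natCard χ
  exact ⟨orderOf_pos χ, g, hg.symm.trans h2⟩

theorem simple_main {θ ε : ℝ} (h0 : 0 < θ) (h1 : θ ≤ 1) (hp : θ = 1 ∨ (Fintype.card F).Prime)
    (hε : 0 < ε) : ∃ d0 : ℕ, ∀ d, d0 ≤ d → ∃ B : Finset F[X],
      (B.card : ℝ) ≤ (Fintype.card F : ℝ) ^ ((1 - θ / 2 + ε) * d) ∧
      ∀ Q : F[X], Q.Monic → Irreducible Q → Q.natDegree = d → Q ∉ B →
        ∀ χ : MulChar (AdjoinRoot Q) ℂ, ((Fintype.card F : ℝ) ^ d - 1) ^ θ ≤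
          orderOf χ * Real.exp ((d : ℝ) ^ (1 / 3 : ℝ)) → χ ≠ 1 ∧ SimpleP χ := by
  have hq := two_le_card (F := F)
  have hq' : (2 : ℝ) ≤ Fintype.card F := by exact_mod_cast hq
  have hB : ∀ (B : Finset F[X]) (e : ℕ) (x : ℝ), B.card ≤ Fintype.card F ^ e → e ≤ x →
      (B.card : ℝ) ≤ (Fintype.card F : ℝ) ^ x := fun B e x h2 h3 => by
    refine le_trans ?_ (Real.rpow_le_rpow_of_exponent_le (by linarith) h3)
    exact_mod_cast h2
  rcases hp with rfl | hp
  · obtain ⟨c, Y0, h⟩ := main_one (F := F)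
    refine ⟨(Y0 + ⌈c / ε⌉₊ + 1) ^ 12, fun d hd => ?_⟩
    have e1 := (Nat.le_nthRoot_iff (by norm_num)).2 hd
    have e2 := Nat.pow_nthRoot_le (n := 12) (a := d) (Or.inl (by norm_num))
    have e3 := Nat.lt_pow_nthRoot_add_one (n := 12) (by norm_num) d
    generalize Nat.nthRoot 12 d = Y at *
    obtain ⟨B, e, h2, h3, h4⟩ := h Y (by omega) d e2 e3
    refine ⟨B, hB B e _ h2 ?_, fun Q a1 a2 a3 a4 χ a5 => ?_⟩
    · have b1 : (c : ℝ) ≤ ε * (Y ^ 4 : ℕ) := by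
        rw [← div_le_iff₀' hε]
        refine (Nat.le_ceil _).trans ?_
        exact_mod_cast le_trans (by omega) (Nat.le_self_pow (by norm_num) Y)
      have b2 : (2 * e : ℝ) ≤ d + c * Y ^ 8 := by exact_mod_cast h3
      have b3 : (Y : ℝ) ^ 12 ≤ d := by exact_mod_cast e2
      have b4 : (c : ℝ) * Y ^ 8 ≤ ε * d := by
        push_cast at b1
        calc _ ≤ ε * Y ^ 4 * Y ^ 8 := by gcongr
          _ = ε * Y ^ 12 := by ring
          _ ≤ _ := by gcongr
      have b5 : 0 ≤ ε * d := by positivity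
      linarith
    · obtain ⟨b1, g, b2⟩ := exists_index a1 a2 χ
      rw [a3] at b2
      refine h4 Q a1 a2 a3 a4 χ g b2 ?_
      have b3 : (orderOf χ * g : ℝ) = (Fintype.card F : ℝ) ^ d - 1 := by
        have := Nat.one_le_pow d _ (show 0 < Fintype.card F by omega)
        exact_mod_cast b2
      rw [Real.rpow_one, ← b3] at a5
      have b4 : (d : ℝ) ^ (1 / 3 : ℝ) ≤ (16 * Y ^ 4 : ℕ) := (cbrt_le (by positivity)).2 (by
        have := e3.le.trans (Nat.pow_le_pow_left (show Y + 1 ≤ 2 * Y by omega) 12)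
        exact_mod_cast this.trans (le_of_eq (by ring)))
      have b5 := (le_of_mul_le_mul_left a5 (by exact_mod_cast b1)).trans
        (exp_le_two_pow (n := 32 * Y ^ 4) (by push_cast at b4 ⊢; linarith))
      exact_mod_cast b5
  · obtain ⟨k, hk⟩ : ∃ k : ℕ, 5 / ε + 5 / θ ≤ k := exists_nat_ge _
    have k1 : 0 < 5 / ε := by positivity
    have k2 : 0 < 5 / θ := by positivity
    have k3 : 0 < k := by exact_mod_cast (show (0 : ℝ) < k by linarith)
    obtain ⟨e0, h⟩ := main_two hp k3.ne'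
    refine ⟨(e0 + 16 * k + 3) * k, fun d hd => ?_⟩
    have e1 := (Nat.le_div_iff_mul_le k3).2 hd
    have e2 := Nat.mul_div_le d k
    have e3 := Nat.lt_mul_div_succ d k3
    generalize d / k = e at *
    have e4 : (k * e : ℝ) ≤ d := by exact_mod_cast e2
    have e5 : (3 : ℝ) ≤ e := by exact_mod_cast (show 3 ≤ e by omega)
    have e6 : ∀ x : ℝ, 0 < x → 5 / x ≤ k → 5 * e ≤ x * d := fun x hx h5 => by
      rw [div_le_iff₀' hx] at h5
      calc _ ≤ x * k * e := by gcongr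
        _ ≤ _ := by rw [mul_assoc]; gcongr
    have e7 := e6 ε hε (by linarith)
    have e8 := e6 θ h0 (by linarith)
    have e9 := Nat.floor_le (a := (θ * d - 1 - 4 * e) / 2) (by linarith)
    have e10 := Nat.lt_floor_add_one ((θ * d - 1 - 4 * e) / 2)
    have e11 := Nat.floor_pos.2 (show 1 ≤ (θ * d - 1 - 4 * e) / 2 by linarith)
    generalize ⌊(θ * d - 1 - 4 * e) / 2⌋₊ = a at *
    have e12 : θ * d ≤ d := mul_le_of_le_one_left (Nat.cast_nonneg d) h1
    obtain ⟨n, hn⟩ : ∃ n, n + a + a = d := ⟨d - 2 * a, by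
      have : 2 * a ≤ d := by exact_mod_cast (show (2 * a : ℝ) ≤ d by linarith)
      omega⟩
    have e13 : (n + a + a : ℝ) = d := by exact_mod_cast hn
    obtain ⟨B, h2, h4⟩ := h e (by omega) d e2 e3 n a e11.ne' hn
    refine ⟨B, hB B _ _ h2 (by push_cast; linarith), fun Q a1 a2 a3 a4 χ a5 => ?_⟩
    obtain ⟨b1, g, b2⟩ := exists_index a1 a2 χ
    rw [a3] at b2
    refine h4 Q a1 a2 a3 a4 χ g b2 ?_
    set q := Fintype.card F
    have b3 : Real.exp ((d : ℝ) ^ (1 / 3 : ℝ)) ≤ q ^ e := by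
      refine (exp_le_two_pow (n := e) ?_).trans (by gcongr)
      rw [← le_div_iff₀' two_pos, cbrt_le (by positivity)]
      have c1 : 8 * d ≤ e ^ 3 := by
        calc _ ≤ 16 * k * e := by nlinarith
          _ ≤ e ^ 2 * e := by gcongr; exact le_trans (by omega) (Nat.le_self_pow two_ne_zero e)
          _ = _ := by ring
      have c2 : (8 * d : ℝ) ≤ e ^ 3 := by exact_mod_cast c1
      linarith
    have b4 : (q : ℝ) ^ ((d : ℝ) - 1) ≤ q ^ d - 1 := by
      have c1 : (1 : ℝ) ≤ q ^ ((d : ℝ) - 1) := Real.one_le_rpow (by linarith) (by linarith)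
      have c2 : (q : ℝ) ^ d = q ^ ((d : ℝ) - 1) * q := by
        rw [← Real.rpow_add_one (by positivity), sub_add_cancel, Real.rpow_natCast]
      nlinarith
    have b5 : (q : ℝ) ^ (2 * a + 3 * e) * q ^ e ≤ orderOf χ * q ^ e :=
      calc _ = (q : ℝ) ^ ((2 * a + 4 * e : ℕ) : ℝ) := by rw [Real.rpow_natCast]; ring
        _ ≤ (q : ℝ) ^ (((d : ℝ) - 1) * θ) :=
          Real.rpow_le_rpow_of_exponent_le (by linarith) (by push_cast; linarith)
        _ ≤ (q ^ d - 1) ^ θ := by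
          rw [Real.rpow_mul (by positivity)]
          gcongr
        _ ≤ _ := a5.trans (by gcongr)
    exact_mod_cast le_of_mul_le_mul_right b5 (by positivity)

theorem few_low {θ ε : ℝ} (h1 : θ ≤ 1) (hε : 0 < ε) : ∃ d0 : ℕ, ∀ Q : F[X], Q.Monic →
    Irreducible Q → d0 ≤ Q.natDegree → ∀ P : MulChar (AdjoinRoot Q) ℂ → Prop,
      (∀ χ, ((Fintype.card F : ℝ) ^ Q.natDegree - 1) ^ θ ≤
        orderOf χ * Real.exp ((Q.natDegree : ℝ) ^ (1 / 3 : ℝ)) → P χ) →
      (Nat.card {χ // ¬ P χ} : ℝ) ≤ ε * Nat.card (MulChar (AdjoinRoot Q) ℂ) := by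
  have hq := two_le_card (F := F)
  refine ⟨(⌈(156 + Fintype.card F) / ε⌉₊ + 1) ^ 12, fun Q a1 a2 hd P hP => ?_⟩
  obtain ⟨b1, b2, b3⟩ := char_facts a1 a2
  set q := Fintype.card F
  set d := Q.natDegree
  have e1 := (Nat.le_nthRoot_iff (by norm_num)).2 hd
  have e2 := Nat.pow_nthRoot_le (n := 12) (a := d) (Or.inl (by norm_num))
  have e3 := lt_pow_twelve (Nat.lt_pow_nthRoot_add_one (n := 12) (by norm_num) d)
  generalize Nat.nthRoot 12 d = Y at *
  have hY : (1 : ℝ) ≤ Y := by exact_mod_cast (show 1 ≤ Y by omega)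
  have hd0 : d ≠ 0 := by have := pow_pos (show 0 < Y by omega) 12; omega
  have hd1 : (1 : ℝ) ≤ d := by exact_mod_cast Nat.pos_of_ne_zero hd0
  have h0 := Nat.one_lt_pow hd0 hq
  have b4 : (Nat.card (MulChar (AdjoinRoot Q) ℂ) : ℝ) = q ^ d - 1 := by
    rw [b3, Nat.cast_sub h0.le, Nat.cast_pow, Nat.cast_one]
  have b5 : (1 : ℝ) ≤ q ^ d - 1 := by
    rw [← b4, b3]
    exact_mod_cast (show 1 ≤ q ^ d - 1 by omega)
  have h2 := low_order hd0 (L := (d : ℝ) ^ (1 / 3 : ℝ)) (fun χ => ¬ P χ) fun χ h =>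
    (lt_of_not_ge fun h3 => h (hP χ h3)).trans_le (by
      rw [b4]
      exact Real.rpow_le_self_of_one_le b5 h1)
  have c1 : (Y : ℝ) ^ 4 ≤ (d : ℝ) ^ (1 / 3 : ℝ) := (le_cbrt (by positivity)).2 (by
    rw [← pow_mul]
    exact_mod_cast e2)
  have c2 : Real.log d ≤ 12 * Y := by
    have h3 : (d : ℝ) ≤ 2 ^ (12 * Y) := by exact_mod_cast e3.le
    have h4 := Real.log_le_log (by linarith) h3
    have h5 := Real.log_two_lt_d9
    rw [Real.log_pow] at h4
    push_cast at h4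
    nlinarith
  have c3 : Real.log (q ^ d - 1) / d ≤ q := by
    have h3 := Real.log_le_log (by linarith) (sub_le_self ((q : ℝ) ^ d) zero_le_one)
    have h4 := Real.log_le_self (Nat.cast_nonneg q)
    rw [Real.log_pow] at h3
    rw [div_le_iff₀' (by linarith)]
    exact h3.trans (by gcongr)
  have c4 : 156 + q ≤ ε * Y := by
    rw [← div_le_iff₀' hε]
    exact (Nat.le_ceil _).trans (Nat.cast_le.2 (by omega))
  have c5 := Real.log_nonneg hd1
  have c6 : Real.log d * (1 + Real.log d) + Real.log (q ^ d - 1) / d ≤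
      ε * (d : ℝ) ^ (1 / 3 : ℝ) :=
    calc _ ≤ 12 * Y * (Y + 12 * Y) + q * (Y : ℝ) ^ 2 := by
          gcongr
          exact c3.trans (le_mul_of_one_le_right (by positivity) (one_le_pow₀ hY))
      _ = (156 + q) * (Y : ℝ) ^ 2 * 1 := by ring
      _ ≤ ε * Y * Y ^ 2 * Y := by gcongr
      _ = ε * Y ^ 4 := by ring
      _ ≤ _ := by gcongr
  rw [b4] at h2 ⊢
  refine le_of_mul_le_mul_right (a := (d : ℝ) ^ (1 / 3 : ℝ)) (h2.trans ?_) (by positivity)
  rw [mul_comm ε, mul_assoc]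
  gcongr

end Pool.Agent.MP_f259ea_nt.FF
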