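import Pool.Agent.MP_f259ea_nt.FFGoss

/-! Newton polygons with segments of length one; the discriminant of the special polynomial. -/

namespace Pool.Agent.MP_f259ea_nt.FF

open Finset Polynomial

variable {F : Type} [Field F]

theorem exists_val {E : Type} [Field E] [Algebra F E] {t : E} (ht : Transcendental F t) :
    ∃ V : ValuationSubring E, 1 < V.valuation t ∧
      ∀ a : F[X], a ≠ 0 → V.valuation (aeval t a) = V.valuation t ^ a.natDegree := by
  have h0 : t ≠ 0 := fun h => ht (h ▸ isAlgebraic_zero)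
  have h1 : Transcendental F t⁻¹ := fun h => ht (by simpa using h.inv)
  let A : Subring E := (aeval t⁻¹ : F[X] →ₐ[F] E).range.toSubring
  let x : A := ⟨t⁻¹, X, aeval_X _⟩
  have h2 : Ideal.span {x} ≠ ⊤ := by
    rw [Ne, Ideal.eq_top_iff_one, Ideal.mem_span_singleton']
    rintro ⟨⟨_, g, rfl⟩, hg⟩
    have h3 : aeval t⁻¹ (g * X) = aeval t⁻¹ (1 : F[X]) := by
      rw [map_mul, aeval_X, map_one]
      exact congrArg Subtype.val hg
    have h4 := congrArg (coeff · 0) ((transcendental_iff_injective.1 h1) h3)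
    simp at h4
  obtain ⟨V, hV, hI⟩ := Ideal.image_subset_nonunits_valuationSubring _ h2
  have h3 : V.valuation t⁻¹ < 1 := V.mem_nonunits_iff.1 (hI ⟨x, Ideal.subset_span rfl, rfl⟩)
  have h4 : 1 < V.valuation t := by
    rw [map_inv₀] at h3
    exact (inv_lt_one₀ (zero_lt_iff.2 ((_root_.map_ne_zero _).2 h0))).1 h3
  have h5 : ∀ c : F, V.valuation (algebraMap F E c) ≤ 1 := fun c =>
    (V.valuation_le_one_iff _).2 (hV ⟨C c, aeval_C _ _⟩)
  have : V.valuation.IsTrivialOn F := ⟨fun c hc => by
    refine le_antisymm (h5 c) ?_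
    have h6 := h5 c⁻¹
    rw [map_inv₀, map_inv₀] at h6
    exact (inv_le_one₀ (zero_lt_iff.2 ((_root_.map_ne_zero _).2 ((_root_.map_ne_zero _).2 hc)))).1 h6⟩
  exact ⟨V, h4, fun a ha =>
    valuation_aeval_eq_valuation_X_pow_natDegree_of_one_lt_valuation_X t h4 ha⟩

theorem newton {E Γ : Type} [Field E] [LinearOrderedCommGroupWithZero Γ] (v : Valuation E Γ)
    {γ : Γ} (hγ : 1 < γ) (f : ℕ) (a : ℕ → E) (D r : ℕ → ℕ) (ha : ∀ n ≤ f, v (a n) = γ ^ D n)
    (hD : ∀ n < f, D (n + 1) = D n + r n) (hr : ∀ n, n + 1 < f → r (n + 1) < r n) {z : E}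
    (h1 : ∑ n ∈ range (f + 1), a n * z ^ n = 0)
    (h2 : ∑ n ∈ range (f + 1), n * (a n * z ^ n) = 0) : False := by
  have hγ0 : 0 < γ := zero_lt_one.trans hγ
  by_cases hz : z = 0
  · rw [hz, sum_range_succ'] at h1
    have h3 := ha 0 f.zero_le
    have h4 : a 0 = 0 := by simpa using h1
    rw [h4, map_zero] at h3
    exact (pow_pos hγ0 _).ne h3
  have hx : 0 < v z := zero_lt_iff.2 ((_root_.map_ne_zero _).2 hz)
  set w : ℕ → Γ := fun n => v (a n * z ^ n) with hw
  have hw1 : ∀ n ≤ f, w n = γ ^ D n * v z ^ n := fun n hn => by simp [hw, ha n hn]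
  have hw0 : ∀ n ≤ f, 0 < w n := fun n hn => by
    rw [hw1 n hn]
    exact mul_pos (pow_pos hγ0 _) (pow_pos hx _)
  have hw2 : ∀ n < f, w (n + 1) = w n * (γ ^ r n * v z) := fun n hn => by
    rw [hw1 _ hn, hw1 _ hn.le, hD n hn, pow_add, pow_succ]
    ac_rfl
  have hanti : ∀ m n, n < m → m < f → r m < r n := by
    intro m n h
    induction h with
    | refl => exact hr n
    | step h ih => exact fun h3 => (hr _ h3).trans (ih (by omega))
  obtain ⟨j0, hj0, hmax⟩ := exists_max_image (range (f + 1)) w nonempty_range_add_one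
  classical
  let T := (range (f + 1)).filter fun n => w n = w j0
  have hT : T.Nonempty := ⟨j0, mem_filter.2 ⟨hj0, rfl⟩⟩
  obtain ⟨hj, hj1⟩ := mem_filter.1 (T.max'_mem hT)
  have hup : ∀ n ∈ range (f + 1), T.max' hT < n → w n < w j0 := fun n hn h =>
    lt_of_le_of_ne (hmax n hn) fun h3 => (T.le_max' n (mem_filter.2 ⟨hn, h3⟩)).not_gt h
  generalize T.max' hT = j at hj hj1 hup
  have hjf : j ≤ f := Nat.lt_succ_iff.1 (mem_range.1 hj)
  have hlow : ∀ n, n + 1 < j → w n < w j0 := by
    intro n hn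
    obtain ⟨i, rfl⟩ : ∃ i, j = i + 1 := ⟨j - 1, by omega⟩
    have h3 : 1 ≤ γ ^ r i * v z := by
      have h4 := hmax i (mem_range.2 (by omega))
      rw [← hj1, hw2 i (by omega)] at h4
      exact (le_mul_iff_one_le_right (hw0 i (by omega))).1 h4
    have h4 : 1 < γ ^ r n * v z := h3.trans_lt
      (mul_lt_mul_of_pos_right (pow_lt_pow_right₀ hγ (hanti i n (by omega) (by omega))) hx)
    refine lt_of_lt_of_le ?_ (hmax (n + 1) (mem_range.2 (by omega)))
    rw [hw2 n (by omega)]
    exact lt_mul_of_one_lt_right (hw0 n (by omega)) h4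
  have h3 : ∑ n ∈ range (f + 1), (((n : ℤ) - j + 1 : ℤ) : E) * (a n * z ^ n) = 0 := by
    have : ∀ n : ℕ, (((n : ℤ) - j + 1 : ℤ) : E) * (a n * z ^ n) =
        n * (a n * z ^ n) + (1 - j) * (a n * z ^ n) := fun n => by push_cast; ring
    simp only [this, sum_add_distrib, ← mul_sum, h1, h2, mul_zero, add_zero]
  have h4 : v ((((j : ℤ) - j + 1 : ℤ) : E) * (a j * z ^ j)) = w j0 := by
    rw [sub_self, zero_add, Int.cast_one, one_mul]
    exact hj1
  have h5 := v.map_sum_eq_of_lt (f := fun n : ℕ => (((n : ℤ) - j + 1 : ℤ) : E) * (a n * z ^ n))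
    hj fun n hn => by
      obtain ⟨h6, h7⟩ := mem_sdiff.1 hn
      rw [mem_singleton] at h7
      rw [h4]
      by_cases h8 : n + 1 = j
      · rw [show (n : ℤ) - j + 1 = 0 by omega]
        simpa using hw0 j0 (Nat.lt_succ_iff.1 (mem_range.1 hj0))
      have h9 : w n < w j0 := by
        rcases Nat.lt_or_ge j n with h | h
        · exact hup n h6 h
        · exact hlow n (by omega)
      refine lt_of_le_of_lt ?_ h9
      rw [map_mul]
      exact mul_le_of_le_one_left' (intCast_mem v.integer _)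
  rw [h3, map_zero, h4] at h5
  exact (hw0 j0 (Nat.lt_succ_iff.1 (mem_range.1 hj0))).ne h5

theorem natDegree_det_le {ι : Type} [Fintype ι] [DecidableEq ι] (M : Matrix ι ι F[X]) (B : ℕ)
    (h : ∀ i j, (M i j).natDegree ≤ B) : M.det.natDegree ≤ Fintype.card ι * B := by
  rw [Matrix.det_apply]
  refine natDegree_sum_le_of_forall_le _ _ fun σ _ => ?_
  refine (natDegree_smul_le _ _).trans ((natDegree_prod_le _ _).trans ?_)
  simpa using sum_le_card_nsmul univ _ B fun i _ => h (σ i) i

theorem exists_disc (P : F[X][X]) (B : ℕ) (hB : ∀ n, (P.coeff n).natDegree ≤ B) (hP : P ≠ 0)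
    {E : Type} [Field E] (φ : F[X] →+* E) (hφ : Function.Injective φ)
    (hs : (P.map φ).Separable) : ∃ Δ : F[X], Δ ≠ 0 ∧ Δ.natDegree ≤ (2 * P.natDegree + 1) * B ∧
      ∀ {K : Type} [Field K] (ρ : F[X] →+* K), ρ Δ ≠ 0 →
        (P.map ρ).Separable ∧ (P.map ρ).natDegree = P.natDegree := by
  have h1 : resultant P (derivative P) ≠ 0 := by
    intro h
    have h2 : resultant (P.map φ) ((derivative P).map φ) = 0 := by
      rw [natDegree_map_eq_of_injective hφ, natDegree_map_eq_of_injective hφ, resultant_map_map, h,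
        map_zero]
    rw [← derivative_map] at h2
    exact (resultant_eq_zero_iff.1 h2).2 hs
  refine ⟨resultant P (derivative P) * P.leadingCoeff, mul_ne_zero h1 (leadingCoeff_ne_zero.2 hP),
    ?_, fun ρ hρ => ?_⟩
  · refine natDegree_mul_le.trans ?_
    rw [add_mul, one_mul]
    refine add_le_add ((natDegree_det_le _ B fun i j => ?_).trans ?_) (hB _)
    · unfold sylvester
      rw [Matrix.of_apply]
      refine Fin.addCases (fun j => ?_) (fun j => ?_) j
      · rw [Fin.addCases_left]
        split_ifs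
        · rw [coeff_derivative]
          refine natDegree_mul_le.trans ?_
          rw [← Nat.cast_succ, natDegree_natCast]
          exact hB _
        · simp
      · rw [Fin.addCases_right]
        split_ifs
        · exact hB _
        · simp
    · have := natDegree_derivative_le P
      rw [Fintype.card_fin]
      exact Nat.mul_le_mul_right _ (by omega)
  · rw [map_mul] at hρ
    have h2 := natDegree_map_of_leadingCoeff_ne_zero ρ (right_ne_zero_of_mul hρ)
    refine ⟨?_, h2⟩
    by_cases h0 : P.natDegree = 0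
    · rw [eq_C_of_natDegree_eq_zero h0, map_C, separable_C, isUnit_iff_ne_zero, ← h0]
      exact right_ne_zero_of_mul hρ
    obtain ⟨p, q, -, -, h3⟩ := exists_mul_add_mul_eq_C_resultant P (derivative P) le_rfl le_rfl
      (Or.inl h0)
    have h4 := congrArg (Polynomial.map ρ) h3
    rw [Polynomial.map_add, Polynomial.map_mul, Polynomial.map_mul, map_C, ← derivative_map] at h4
    refine ⟨C (ρ (resultant P (derivative P)))⁻¹ * p.map ρ,
      C (ρ (resultant P (derivative P)))⁻¹ * q.map ρ, ?_⟩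
    rw [mul_assoc, mul_assoc, ← mul_add, mul_comm (p.map ρ), mul_comm (q.map ρ), h4, ← C_mul,
      inv_mul_cancel₀ (left_ne_zero_of_mul hρ), C_1]

variable [Fintype F]

theorem exists_disc_goss {κ : List ℕ} (hκ : Good F (Fintype.card F) 0 κ) {d : ℕ}
    (hd : κ.sum < d * (Fintype.card F - 1)) :
    ∃ Δ : F[X], Δ ≠ 0 ∧ Δ.natDegree ≤ (2 * d + 1) * (d * val (Fintype.card F) κ) ∧
      ∀ {K : Type} [Field K] (ρ : F[X] →+* K), ρ Δ ≠ 0 → ∃ P : K[X], P.Separable ∧
        P.natDegree = κ.sum / (Fintype.card F - 1) ∧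
        ∀ n, P.coeff n = ρ (S F n (val (Fintype.card F) κ)) := by
  have hq := two_le_card (F := F)
  set q := Fintype.card F
  set f := κ.sum / (q - 1) with hf
  have hfd : f < d := (Nat.div_lt_iff_lt_mul (by omega)).2 hd
  have hle : ∀ n, n ≤ f ↔ n * (q - 1) ≤ κ.sum := fun n => Nat.le_div_iff_mul_le (by omega)
  let P : F[X][X] := ∑ n ∈ range (f + 1), monomial n (S F n (val q κ))
  have hc : ∀ n, P.coeff n = S F n (val q κ) := fun n => by
    simp only [P, finsetSum_coeff, coeff_monomial, sum_ite_eq', mem_range]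
    split_ifs with h
    · rfl
    · exact (S_eq_zero n κ (lt_of_not_ge fun h1 => h (Nat.lt_succ_iff.2 ((hle n).2 h1)))).symm
  have hn : P.natDegree = f := by
    refine le_antisymm (natDegree_sum_le_of_forall_le _ _ fun n hn =>
      (natDegree_monomial_le _).trans (Nat.lt_succ_iff.1 (mem_range.1 hn)))
      (le_natDegree_of_ne_zero ?_)
    rw [hc]
    exact (S_good hκ ((hle f).1 le_rfl)).1
  have h0 : P ≠ 0 := fun h => by simpa [h, S_zero] using hc 0
  let E := AlgebraicClosure (FractionRing F[X])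
  have hinj : Function.Injective (algebraMap F[X] E) := by
    rw [IsScalarTower.algebraMap_eq F[X] (FractionRing F[X]) E]
    exact (algebraMap (FractionRing F[X]) E).injective.comp (IsFractionRing.injective _ _)
  have he : ∀ a : F[X], aeval (algebraMap F[X] E X) a = algebraMap F[X] E a := fun a => by
    rw [aeval_algebraMap_apply, aeval_X_left_apply]
  obtain ⟨V, hV, hV1⟩ := exists_val (F := F) (t := algebraMap F[X] E X)
    (transcendental_iff_injective.2 fun a b h => hinj (by rw [← he a, ← he b, h]))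
  have hs : (P.map (algebraMap F[X] E)).Separable := by
    refine (isCoprime_iff_aeval_ne_zero_of_isAlgClosed E E _ _).2 fun z => ?_
    by_contra! h
    refine newton V.valuation hV f (fun n => algebraMap F[X] E (S F n (val q κ)))
      (fun n => U q n κ) (fun n => val q (rem ((n + 1) * (q - 1)) κ)) (fun n hn => ?_)
      (fun n _ => sum_range_succ _ _) (fun n hn => ?_) (z := z) ?_ ?_
    · obtain ⟨h1, h2⟩ := S_good hκ ((hle n).1 hn)
      rw [← he, hV1 _ h1, h2]
    · exact val_rem_lt hq κ ((Nat.mul_lt_mul_right (by omega)).2 (by omega)) ((hle _).1 hn)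
    · simpa [P, Polynomial.map_sum, eval_finsetSum] using h.1
    · have h1 := congrArg (z * ·) h.2
      simp only [P, Polynomial.map_sum, map_monomial, derivative_monomial, map_sum,
        aeval_monomial, mul_zero] at h1
      rw [← h1, mul_sum]
      refine sum_congr rfl fun n _ => ?_
      rcases n with _ | n
      · simp
      · simp only [Algebra.algebraMap_self, RingHom.id_apply, Nat.add_sub_cancel, pow_succ]
        ring
  obtain ⟨Δ, h1, h2, h3⟩ := exists_disc P (d * val q κ) (fun n => by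
    rw [hc]
    by_cases h : n ≤ f
    · exact (S_natDegree_le n κ).trans ((U_le hq n κ).trans (Nat.mul_le_mul_right _ (by omega)))
    · rw [S_eq_zero n κ (lt_of_not_ge fun h1 => h ((hle n).2 h1))]
      simp) h0 _ hinj hs
  refine ⟨Δ, h1, h2.trans (Nat.mul_le_mul_right _ (by omega)), fun ρ hρ => ?_⟩
  obtain ⟨h4, h5⟩ := h3 ρ hρ
  exact ⟨P.map ρ, h4, h5.trans hn, fun n => by rw [coeff_map, hc]⟩

end Pool.Agent.MP_f259ea_nt.FF
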