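import Pool.Agent.MP_f259ea_nt.Q_Defs

set_option autoImplicit false

open Complex MeasureTheory Finset
open scoped Real ComplexConjugate Classical

namespace Pool.Agent.MP_f259ea_nt.Q

namespace Arcs

/-- The representative of `b / q` modulo one that is nearest to `θ`. -/
noncomputable def pt (θ : ℝ) (p : (_ : ℕ) × ℕ) : ℝ :=
  (p.2 : ℝ) / p.1 + round (θ - (p.2 : ℝ) / p.1)

theorem abs_pt (θ : ℝ) (p : (_ : ℕ) × ℕ) : |θ - pt θ p| = dZ (θ - (p.2 : ℝ) / p.1) := by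
  rw [pt, dZ, sub_add_eq_sub_sub]

theorem pt_eq (θ : ℝ) (p : (_ : ℕ) × ℕ) (h : 1 ≤ p.1) :
    pt θ p = ((p.2 + round (θ - (p.2 : ℝ) / p.1) * p.1 : ℤ) : ℝ) / p.1 := by
  have : (p.1 : ℝ) ≠ 0 := by positivity
  rw [pt]; push_cast; field_simp

theorem sep {a a' : ℤ} {k k' : ℕ} (hk : 1 ≤ k) (hk' : 1 ≤ k') (h : (a : ℝ) / k ≠ a' / k') :
    1 ≤ (k : ℝ) * k' * |(a : ℝ) / k - a' / k'| := by
  have h1 : (0 : ℝ) < k := by positivity
  have h2 : (0 : ℝ) < k' := by positivity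
  have e : (k : ℝ) * k' * ((a : ℝ) / k - a' / k') = ((a * k' - a' * k : ℤ) : ℝ) := by
    push_cast; field_simp
  rw [← abs_of_pos (mul_pos h1 h2), ← abs_mul, e, ← Int.cast_abs]
  have : a * k' - a' * k ≠ 0 := fun h0 => by
    rw [h0, Int.cast_zero] at e
    exact h (sub_eq_zero.1 ((mul_eq_zero.1 e).resolve_left (mul_pos h1 h2).ne'))
  exact_mod_cast Int.one_le_abs this

theorem inj {θ : ℝ} {p p' : (_ : ℕ) × ℕ} (h : p.2 ∈ red p.1) (h' : p'.2 ∈ red p'.1)
    (e : pt θ p = pt θ p') : p = p' := by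
  obtain ⟨q, b⟩ := p
  obtain ⟨q', b'⟩ := p'
  simp only [red, mem_filter, mem_range] at h h'
  have h1 : (0 : ℝ) < q := by exact_mod_cast Nat.zero_lt_of_lt h.1
  have h2 : (0 : ℝ) < q' := by exact_mod_cast Nat.zero_lt_of_lt h'.1
  have e1 := congrArg Int.fract e
  simp only [pt, Int.fract_add_intCast] at e1
  rw [Int.fract_eq_self.2 ⟨by positivity, (div_lt_one h1).2 (by exact_mod_cast h.1)⟩,
    Int.fract_eq_self.2 ⟨by positivity, (div_lt_one h2).2 (by exact_mod_cast h'.1)⟩,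
    div_eq_div_iff h1.ne' h2.ne'] at e1
  have e2 : b * q' = b' * q := by exact_mod_cast e1
  obtain rfl : q = q' := Nat.dvd_antisymm
    (h.2.symm.dvd_of_dvd_mul_left (e2 ▸ dvd_mul_left _ _))
    (h'.2.symm.dvd_of_dvd_mul_left (e2 ▸ dvd_mul_left _ _))
  rw [Nat.eq_of_mul_eq_mul_right (Nat.zero_lt_of_lt h.1) e2]

theorem one_le {q b : ℕ} (h : b ∈ red q) : 1 ≤ q :=
  Nat.zero_lt_of_lt (mem_range.1 (mem_filter.1 h).1)

theorem sep2 (θ : ℝ) {p p' : (_ : ℕ) × ℕ} (h : p.2 ∈ red p.1) (h' : p'.2 ∈ red p'.1)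
    (hne : p ≠ p') : 1 ≤ (p.1 : ℝ) * p'.1 * |pt θ p - pt θ p'| := by
  have := fun e => hne (inj (θ := θ) h h' e)
  rw [pt_eq θ p (one_le h), pt_eq θ p' (one_le h')] at this ⊢
  exact sep (one_le h) (one_le h') this

theorem sum_nS (M : ℕ) (s : ℕ → Set ℝ) (θ : ℝ) : ∑ q ∈ Icc 1 M, nS q (s q) θ =
    ((Icc 1 M).sigma fun q => (red q).filter fun b : ℕ => dZ (θ - (b : ℝ) / q) ∈ s q).card :=
  (card_sigma _ _).symm

theorem arcs1 (Q : ℕ) (η θ : ℝ) (h0 : 0 ≤ η) :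
    ∑ q ∈ Icc 1 Q, (nB q η θ : ℝ) ≤ 2 * η * (Q : ℝ) ^ 2 + 1 := by
  have hf : 0 ≤ ⌊2 * η * (Q : ℝ) ^ 2⌋ := Int.floor_nonneg.2 (by positivity)
  have key : ∑ q ∈ Icc 1 Q, nB q η θ ≤ (Icc 0 ⌊2 * η * (Q : ℝ) ^ 2⌋).card := by
    refine (sum_nS Q (fun _ => Set.Iic η) θ).trans_le (card_le_card_of_injOn
      (fun p => ⌊(pt θ p - θ + η) * (Q : ℝ) ^ 2⌋) (fun p hp => ?_) fun p hp p' hp' e => ?_)
    · simp only [coe_sigma, Set.mem_sigma_iff, mem_coe, mem_filter, Set.mem_Iic,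
        ← abs_pt] at hp
      have := abs_le.1 hp.2.2
      refine mem_coe.2 (mem_Icc.2 ⟨Int.floor_nonneg.2 (mul_nonneg (by linarith) (by positivity)),
        Int.floor_le_floor ?_⟩)
      gcongr; linarith
    · simp only [coe_sigma, Set.mem_sigma_iff, mem_coe, mem_filter, mem_Icc] at hp hp'
      by_contra hne
      have h1 := sep2 θ hp.2.1 hp'.2.1 hne
      have h2 := Int.abs_sub_lt_one_of_floor_eq_floor e
      rw [← sub_mul, abs_mul, abs_of_nonneg (sq_nonneg (Q : ℝ)),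
        show pt θ p - θ + η - (pt θ p' - θ + η) = pt θ p - pt θ p' by ring] at h2
      have h3 : (p.1 : ℝ) * p'.1 ≤ (Q : ℝ) ^ 2 := by
        rw [sq]; exact_mod_cast Nat.mul_le_mul hp.1.2 hp'.1.2
      nlinarith [abs_nonneg (pt θ p - pt θ p')]
  rw [Int.card_Icc] at key
  have k2 : ((∑ q ∈ Icc 1 Q, nB q η θ : ℕ) : ℤ) ≤ ⌊2 * η * (Q : ℝ) ^ 2⌋ + 1 := by omega
  have k3 : ((∑ q ∈ Icc 1 Q, nB q η θ : ℕ) : ℝ) ≤ (⌊2 * η * (Q : ℝ) ^ 2⌋ : ℝ) + 1 := by
    exact_mod_cast k2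
  push_cast at k3
  linarith [Int.floor_le (2 * η * (Q : ℝ) ^ 2)]

theorem arcs2 (Q : ℕ) (η θ : ℝ) (a : ℤ) (k : ℕ) (_ : 0 ≤ η) (hk : 1 ≤ k)
    (h : Q * (|k * θ - a| + k * η) < 1) : ∑ q ∈ Icc 1 Q, nB q η θ ≤ 1 := by
  refine (sum_nS Q (fun _ => Set.Iic η) θ).trans_le (card_le_one.2 ?_)
  have hk0 : (0 : ℝ) < k := by positivity
  have key : ∀ p ∈ (Icc 1 Q).sigma fun q => (red q).filter fun b : ℕ =>
      dZ (θ - (b : ℝ) / q) ∈ Set.Iic η, pt θ p = a / k := fun p hp => by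
    simp only [mem_sigma, mem_filter, Set.mem_Iic, ← abs_pt, mem_Icc] at hp
    by_contra hne
    have h1 : 1 ≤ (p.1 : ℝ) * k * |pt θ p - a / k| := by
      rw [pt_eq θ p hp.1.1] at hne ⊢
      exact sep hp.1.1 hk hne
    have h2 : k * |pt θ p - a / k| ≤ |k * θ - a| + k * η := by
      have e : |k * θ - a| = k * |θ - a / k| := by
        rw [← abs_of_pos hk0, ← abs_mul, abs_of_pos hk0]; congr 1; field_simp
      rw [e, ← mul_add]
      gcongr
      have := abs_sub_le (pt θ p) θ (a / k)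
      rw [abs_sub_comm (pt θ p) θ] at this
      linarith [hp.2.2]
    have h3 : (p.1 : ℝ) ≤ Q := by exact_mod_cast hp.1.2
    have := mul_le_mul h3 h2 (by positivity) (by positivity)
    rw [← mul_assoc] at this
    linarith
  intro p hp p' hp'
  exact inj (mem_filter.1 (mem_sigma.1 hp).2).1 (mem_filter.1 (mem_sigma.1 hp').2).1
    ((key p hp).trans (key p' hp').symm)

theorem arcs3 (Q M : ℕ) (η V θ : ℝ) (hQ : 1 ≤ Q) (h0 : 0 < η)
    (h : 2 * V ^ 2 ≤ (Q : ℝ) ^ 2 * η) :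
    ∑ k ∈ Icc 1 M, nS k {x | Q * k * (x + η) < V} θ ≤ 1 := by
  refine (sum_nS M (fun k => {x | Q * k * (x + η) < V}) θ).trans_le (card_le_one.2 ?_)
  intro p hp p' hp'
  simp only [mem_sigma, mem_filter, Set.mem_ofPred_eq, ← abs_pt, mem_Icc] at hp hp'
  by_contra hne
  have h1 := sep2 θ hp.2.1 hp'.2.1 hne
  have h2 := abs_sub_le (pt θ p) θ (pt θ p')
  rw [abs_sub_comm (pt θ p) θ] at h2
  have a1 : 0 ≤ (Q : ℝ) * p.1 * |θ - pt θ p| := by positivity
  have a2 : 0 ≤ (Q : ℝ) * p'.1 * |θ - pt θ p'| := by positivity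
  have a3 : 0 ≤ (Q : ℝ) * p.1 * η := by positivity
  have a4 : 0 ≤ (Q : ℝ) * p'.1 * η := by positivity
  have b1 := hp.2.2
  have b2 := hp'.2.2
  rw [mul_add] at b1 b2
  have c1 := mul_lt_mul'' (show (Q : ℝ) * p.1 * |θ - pt θ p| < V by linarith)
    (show (Q : ℝ) * p'.1 * η < V by linarith) a1 a4
  have c2 := mul_lt_mul'' (show (Q : ℝ) * p'.1 * |θ - pt θ p'| < V by linarith)
    (show (Q : ℝ) * p.1 * η < V by linarith) a2 a3
  have c3 := mul_le_mul_of_nonneg_left (h1.trans (mul_le_mul_of_nonneg_left h2 (by positivity)))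
    (show 0 ≤ (Q : ℝ) ^ 2 * η by positivity)
  nlinarith

theorem arcs4 (θ : ℝ) (a : ℤ) (k : ℕ) (hk : 1 ≤ k) : ∃ k' : ℕ, 1 ≤ k' ∧ k' ≤ k ∧ ∃ b ∈ red k',
    k' * dZ (θ - (b : ℝ) / k') ≤ |k * θ - a| := by
  set r : ℚ := Rat.divInt a k with hr
  have hk0 : (0 : ℝ) < k := by positivity
  have hd : r.den ≤ k := Nat.le_of_dvd hk (by exact_mod_cast Rat.den_dvd a k)
  have hd0 : (0 : ℤ) < r.den := by exact_mod_cast r.pos
  have hb : (((r.num % r.den).toNat : ℕ) : ℤ) = r.num % r.den :=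
    Int.toNat_of_nonneg (Int.emod_nonneg _ hd0.ne')
  refine ⟨r.den, r.pos, hd, (r.num % r.den).toNat, mem_filter.2 ⟨mem_range.2 ?_, ?_⟩, ?_⟩
  · have := Int.emod_lt_of_pos r.num hd0
    omega
  · rw [Nat.Coprime, ← Int.gcd_natCast_natCast, hb, Int.gcd_emod]
    exact r.reduced
  · have e1 : (r.num : ℝ) / r.den = a / k := by
      rw [← Rat.cast_def, hr, Rat.divInt_eq_div]; push_cast; rfl
    have e2 : (((r.num % r.den).toNat : ℕ) : ℝ) = r.num - r.den * (r.num / r.den : ℤ) := by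
      rw [Int.emod_def] at hb
      rw [Int.emod_def]
      exact_mod_cast hb
    have hd1 : (r.den : ℝ) ≠ 0 := by exact_mod_cast r.pos.ne'
    have e3 : |k * θ - a| = k * |θ - (((r.num % r.den).toNat : ℕ) : ℝ) / r.den -
        (r.num / r.den : ℤ)| := by
      rw [← abs_of_pos hk0, ← abs_mul, abs_of_pos hk0, e2, sub_div, e1]; congr 1; field_simp; ring
    rw [e3]
    exact mul_le_mul (by exact_mod_cast hd) (round_le _ _) (abs_nonneg _) hk0.le

theorem arcs5 (θ : ℝ) (b k : ℕ) (hk : 1 ≤ k) :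
    ∃ a : ℤ, |k * θ - a| = k * dZ (θ - (b : ℝ) / k) := by
  have hk0 : (0 : ℝ) < k := by positivity
  refine ⟨b + k * round (θ - (b : ℝ) / k), ?_⟩
  rw [dZ, ← abs_of_pos hk0, ← abs_mul, abs_of_pos hk0]
  congr 1; push_cast; field_simp; ring

theorem sob {F F' H : ℝ → ℝ} (hF : ∀ x, HasDerivAt F (F' x) x) (hF' : Continuous F')
    (hH : Continuous H) (hb : ∀ x, |F' x| ≤ H x) {η : ℝ} (hη : 0 < η) :
    |F 0 - 1 / (2 * η) * ∫ x in (-η)..η, F x| ≤ ∫ x in (-η)..η, H x := by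
  have h1 : ∀ x y, -η ≤ x → x ≤ y → y ≤ η → |F y - F x| ≤ ∫ x in (-η)..η, H x := by
    intro x y hx hxy hy
    rw [← intervalIntegral.integral_eq_sub_of_hasDerivAt (fun z _ => hF z)
      (hF'.intervalIntegrable _ _)]
    refine (intervalIntegral.abs_integral_le_integral_abs hxy).trans
      ((intervalIntegral.integral_mono_on hxy (hF'.abs.intervalIntegrable _ _)
        (hH.intervalIntegrable _ _) fun z _ => hb z).trans ?_)
    exact intervalIntegral.integral_mono_interval hx hxy hy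
      (Filter.Eventually.of_forall fun z => (abs_nonneg _).trans (hb z))
      (hH.intervalIntegrable _ _)
  have hc : Continuous F := continuous_iff_continuousAt.2 fun x => (hF x).continuousAt
  have h2 := intervalIntegral.norm_integral_le_of_norm_le_const (a := -η) (b := η)
    (f := fun x => F 0 - F x) (C := ∫ x in (-η)..η, H x) fun x hx => by
      rw [Set.uIoc_of_le (by linarith)] at hx
      rcases le_total x 0 with h | h
      · exact h1 x 0 hx.1.le h hη.le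
      · rw [Real.norm_eq_abs, abs_sub_comm]; exact h1 0 x (by linarith) h hx.2
  rw [intervalIntegral.integral_sub (by simp) (hc.intervalIntegrable _ _),
    intervalIntegral.integral_const, sub_neg_eq_add, abs_of_pos (by linarith), Real.norm_eq_abs,
    smul_eq_mul] at h2
  have e : F 0 - 1 / (2 * η) * ∫ x in (-η)..η, F x =
      ((η + η) * F 0 - ∫ x in (-η)..η, F x) / (η + η) := by field_simp; ring
  rw [e, abs_div, abs_of_pos (show 0 < η + η by linarith), div_le_iff₀ (by linarith)]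
  exact h2

theorem unfold (hU : StmtUnfold) (q : ℕ) {η : ℝ} (h0 : 0 < η) (h1 : η < 1 / 2) {G : ℝ → ℝ}
    (hG : Continuous G) (hp : Function.Periodic G 1) :
    ∫ θ in (0 : ℝ)..1, (nB q η θ : ℝ) * G θ =
      ∫ β in (-η)..η, ∑ b ∈ red q, G ((b : ℝ) / q + β) := by
  unfold nB
  rw [(hU.2 q _ G measurableSet_Iic hG hp).2.2, intervalIntegral.integral_of_le (by norm_num),
    intervalIntegral.integral_of_le (by linarith), ← integral_Icc_eq_integral_Ioc (x := -η)]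
  have e : Set.Icc (-η) η = Set.Ioc (-(1 / 2) : ℝ) (1 / 2) ∩ Set.Icc (-η) η :=
    (Set.inter_eq_right.2 (Set.Icc_subset_Ioc_iff (by linarith) |>.2
      ⟨by linarith, by linarith⟩)).symm
  rw [e, ← setIntegral_indicator measurableSet_Icc]
  congr 1
  funext β
  simp only [Set.indicator, Set.mem_Iic, Set.mem_Icc, abs_le]
  split_ifs <;> simp

theorem der (N : ℕ) (a : ℕ → ℂ) (θ : ℝ) :
    HasDerivAt (Sx N a) (Sx N (fun n => 2 * π * I * n * a n) θ) θ := by
  unfold Sx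
  refine HasDerivAt.fun_sum fun n _ => ?_
  have h1 : HasDerivAt (fun x : ℝ => 2 * π * I * (((n : ℝ) * x : ℝ) : ℂ)) (2 * π * I * n) θ := by
    simpa using (((hasDerivAt_id θ).const_mul (n : ℝ)).ofReal_comp).const_mul (2 * π * I)
  refine (h1.cexp.const_mul (a n)).congr_deriv ?_
  rw [ee]; ring

end Arcs

open Arcs

theorem stmtArcs : StmtArcs :=
  ⟨fun Q η θ h _ => arcs1 Q η θ h, arcs2, fun Q M η V θ hQ h0 _ h => arcs3 Q M η V θ hQ h0 h,
    arcs4, arcs5⟩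

theorem stmtGall (hU : StmtUnfold) : StmtGall := by
  intro Q N a η Cc c h0 h1 hC hc
  rcases Nat.eq_zero_or_pos N with rfl | hN
  · simp [Bq, Sx, nrm]
  set t : ℝ := 2 * π * N with ht
  have ht0 : 0 < t := by positivity
  set a' : ℕ → ℂ := fun n => 2 * π * I * n * a n with ha'
  obtain ⟨c1, p1, i1⟩ := hU.1 N a
  obtain ⟨c2, p2, i2⟩ := hU.1 N a'
  set H : ℝ → ℝ := fun θ => t * ‖Sx N a θ‖ ^ 2 + ‖Sx N a' θ‖ ^ 2 / t with hH
  have cG : Continuous fun θ => ‖Sx N a θ‖ ^ 2 := by fun_prop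
  have pG : Function.Periodic (fun θ => ‖Sx N a θ‖ ^ 2) 1 := fun x => by simp only [p1 x]
  have cH : Continuous H := by fun_prop
  have pH : Function.Periodic H 1 := fun x => by simp only [hH, p1 x, p2 x]
  have H0 : ∀ x, 0 ≤ H x := fun x => by positivity
  have key : ∀ q, |Bq q N a 0 - 1 / (2 * η) *
      ∫ θ in (0 : ℝ)..1, (nB q η θ : ℝ) * ‖Sx N a θ‖ ^ 2| ≤
        ∫ θ in (0 : ℝ)..1, (nB q η θ : ℝ) * H θ := fun q => by
    rw [unfold hU q h0 h1 cG pG, unfold hU q h0 h1 cH pH]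
    refine sob (F := Bq q N a) (F' := fun x => ∑ b ∈ red q,
      2 * inner ℝ (Sx N a ((b : ℝ) / q + x)) (Sx N a' ((b : ℝ) / q + x)))
      (fun x => HasDerivAt.fun_sum fun b _ => ((der N a _).comp_const_add _ x).norm_sq)
      (by fun_prop) (by fun_prop) (fun x => (abs_sum_le_sum_abs _ _).trans
        (sum_le_sum fun b _ => ?_)) h0
    rw [abs_mul, abs_two]
    refine (mul_le_mul_of_nonneg_left (abs_real_inner_le_norm _ _) zero_le_two).trans ?_
    simp only [hH]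
    rw [← sub_nonneg]
    have : ∀ x y : ℝ, t * x ^ 2 + y ^ 2 / t - 2 * (x * y) = (t * x - y) ^ 2 / t := fun x y => by
      field_simp; ring
    rw [this]; positivity
  have iG : ∀ q, IntervalIntegrable (fun θ => (nB q η θ : ℝ) * ‖Sx N a θ‖ ^ 2) volume 0 1 :=
    fun q => (hU.2 q (Set.Iic η) _ measurableSet_Iic cG pG).1
  have iH : ∀ q, IntervalIntegrable (fun θ => (nB q η θ : ℝ) * H θ) volume 0 1 :=
    fun q => (hU.2 q (Set.Iic η) _ measurableSet_Iic cH pH).1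
  have e1 : ∫ θ in (0 : ℝ)..1, (∑ q ∈ Icc 1 Q, c q * nB q η θ) * ‖Sx N a θ‖ ^ 2 =
      ∑ q ∈ Icc 1 Q, c q * ∫ θ in (0 : ℝ)..1, (nB q η θ : ℝ) * ‖Sx N a θ‖ ^ 2 := by
    simp only [sum_mul, mul_assoc]
    rw [intervalIntegral.integral_finsetSum fun q _ => (iG q).const_mul _]
    simp only [intervalIntegral.integral_const_mul]
  have n2 : nrm N a' ≤ t ^ 2 * nrm N a := by
    rw [nrm, nrm, mul_sum]
    refine sum_le_sum fun n hn => ?_
    have : (n : ℝ) ≤ N := by exact_mod_cast (mem_Icc.1 hn).2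
    simp only [ha', norm_mul, norm_I, Complex.norm_natCast, Complex.norm_real, Complex.norm_ofNat,
      Real.norm_of_nonneg Real.pi_pos.le, mul_one, ht]
    rw [mul_pow]; gcongr
  have iHle : ∫ θ in (0 : ℝ)..1, H θ ≤ 4 * π * N * nrm N a := by
    rw [intervalIntegral.integral_add ((cG.const_mul t).intervalIntegrable _ _)
      (Continuous.intervalIntegrable (by fun_prop) _ _), intervalIntegral.integral_const_mul,
      intervalIntegral.integral_div, i1, i2]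
    have : nrm N a' / t ≤ t * nrm N a := by rw [div_le_iff₀ ht0]; linarith
    calc _ ≤ t * nrm N a + t * nrm N a := by linarith
      _ = _ := by rw [ht]; ring
  rw [e1, mul_sum, ← sum_sub_distrib]
  calc _ ≤ ∑ q ∈ Icc 1 Q, Cc * ∫ θ in (0 : ℝ)..1, (nB q η θ : ℝ) * H θ := by
        refine (abs_sum_le_sum_abs _ _).trans (sum_le_sum fun q hq => ?_)
        rw [mul_left_comm, ← mul_sub, abs_mul]
        exact mul_le_mul (hc q hq) (key q) (abs_nonneg _) hC
    _ = Cc * ∫ θ in (0 : ℝ)..1, ∑ q ∈ Icc 1 Q, (nB q η θ : ℝ) * H θ := by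
        rw [← mul_sum, intervalIntegral.integral_finsetSum fun q _ => iH q]
    _ ≤ Cc * ∫ θ in (0 : ℝ)..1, (2 * η * (Q : ℝ) ^ 2 + 1) * H θ := by
        refine mul_le_mul_of_nonneg_left (intervalIntegral.integral_mono_on zero_le_one ?_
          ((cH.const_mul _).intervalIntegrable _ _) fun θ _ => ?_) hC
        · simpa only [Finset.sum_fn] using IntervalIntegrable.sum (Icc 1 Q) fun q _ => iH q
        · rw [← sum_mul]
          exact mul_le_mul_of_nonneg_right (arcs1 Q η θ h0.le) (H0 θ)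
    _ ≤ _ := by
        rw [intervalIntegral.integral_const_mul, mul_assoc (Cc * _), mul_assoc Cc]
        gcongr

end Pool.Agent.MP_f259ea_nt.Q
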