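import Pool.Agent.MP_f259ea_nt.Q_Defs

/-! Bounds for the arithmetic coefficients. -/

set_option autoImplicit false

open Finset
open scoped Classical ArithmeticFunction.Moebius ArithmeticFunction.zeta Nat

namespace Pool.Agent.MP_f259ea_nt.Q

namespace QArith

lemma mu_sum {m k : ℕ} (hk : k ≠ 0) (h : m ∣ k) :
    ∑ e ∈ k.divisors with m ∣ e, (μ (k / e) : ℝ) = if m = k then 1 else 0 := by
  obtain ⟨r, rfl⟩ := h
  have hm : m ≠ 0 := left_ne_zero_of_mul hk
  have hr : r ≠ 0 := right_ne_zero_of_mul hk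
  have h1 : ∑ e ∈ (m * r).divisors with m ∣ e, (μ (m * r / e) : ℝ) =
      ∑ e ∈ r.divisors, (μ (r / e) : ℝ) := by
    symm
    refine sum_nbij' (fun e => m * e) (fun e => e / m) ?_ ?_ ?_ ?_ ?_
    · intro e he
      exact mem_filter.2 ⟨Nat.mem_divisors.2
        ⟨Nat.mul_dvd_mul_left _ (Nat.dvd_of_mem_divisors he), hk⟩, dvd_mul_right _ _⟩
    · intro e he
      obtain ⟨h2, c, rfl⟩ := mem_filter.1 he
      rw [Nat.mul_div_cancel_left _ (Nat.pos_of_ne_zero hm)]
      exact Nat.mem_divisors.2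
        ⟨Nat.dvd_of_mul_dvd_mul_left (Nat.pos_of_ne_zero hm) (Nat.dvd_of_mem_divisors h2), hr⟩
    · intro e _
      exact Nat.mul_div_cancel_left _ (Nat.pos_of_ne_zero hm)
    · intro e he
      exact Nat.mul_div_cancel' (mem_filter.1 he).2
    · intro e _
      rw [Nat.mul_div_mul_left _ _ (Nat.pos_of_ne_zero hm)]
  rw [h1, Nat.sum_div_divisors r fun e => (μ e : ℝ)]
  have h2 := congrArg (fun f : ArithmeticFunction ℝ => f r)
    (ArithmeticFunction.coe_moebius_mul_coe_zeta (R := ℝ))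
  simp only [ArithmeticFunction.coe_mul_zeta_apply, ArithmeticFunction.intCoe_apply,
    ArithmeticFunction.one_apply] at h2
  rw [h2]
  refine if_congr ⟨fun h => by rw [h, mul_one], fun h => ?_⟩ rfl rfl
  exact mul_left_cancel₀ hm (h.symm.trans (mul_one m).symm)

lemma key (w : ℕ → ℝ) {d k : ℕ} (hk : k ≠ 0) (h : d ∣ k) :
    ∑ e ∈ k.divisors with d ∣ e, (μ (k / e) : ℝ) * ∑ g ∈ e.divisors, w g =
      ∑ g ∈ k.divisors with Nat.lcm d g = k, w g := by
  have h1 : ∀ e ∈ k.divisors.filter (fun e => d ∣ e), (μ (k / e) : ℝ) * ∑ g ∈ e.divisors, w g =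
      ∑ g ∈ k.divisors, if g ∣ e then (μ (k / e) : ℝ) * w g else 0 := by
    intro e he
    have he' := Nat.dvd_of_mem_divisors (mem_filter.1 he).1
    rw [← sum_filter, mul_sum]
    refine sum_congr ?_ fun _ _ => rfl
    ext g
    simp only [Nat.mem_divisors, mem_filter]
    exact ⟨fun a => ⟨⟨a.1.trans he', hk⟩, a.1⟩, fun a => ⟨a.2, ne_zero_of_dvd_ne_zero hk he'⟩⟩
  rw [sum_congr rfl h1, sum_comm, sum_filter]
  refine sum_congr rfl fun g hg => ?_
  rw [← sum_filter, filter_filter, ← sum_mul]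
  simp only [← Nat.lcm_dvd_iff]
  rw [mu_sum hk (Nat.lcm_dvd h (Nat.dvd_of_mem_divisors hg))]
  split_ifs <;> simp

lemma split (w : ℕ → ℝ) (h0 : ∀ g, ¬ Squarefree g → w g = 0)
    (hm : ∀ a b, Nat.Coprime a b → w (a * b) = w a * w b) {d r : ℕ} (hk : d * r ≠ 0) :
    ∑ g ∈ (d * r).divisors with Nat.lcm d g = d * r, w g =
      if Nat.Coprime d r then w r * ∑ g ∈ d.divisors, w g else 0 := by
  have hd : d ≠ 0 := left_ne_zero_of_mul hk
  have hr : r ≠ 0 := right_ne_zero_of_mul hk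
  have hg : ∀ g, Nat.lcm d g = d * r → g = Nat.gcd d g * r := fun g h => by
    have h1 := Nat.gcd_mul_lcm d g
    rw [h] at h1
    exact mul_left_cancel₀ hd (by rw [← h1]; ring)
  split_ifs with hc
  · rw [mul_sum]
    symm
    refine sum_nbij' (fun e => e * r) (fun e => e / r) ?_ ?_ ?_ ?_ ?_
    · intro e he
      have h1 : e * r ∣ d * r := Nat.mul_dvd_mul_right (Nat.dvd_of_mem_divisors he) _
      exact mem_filter.2 ⟨Nat.mem_divisors.2 ⟨h1, hk⟩,
        Nat.dvd_antisymm (Nat.lcm_dvd (dvd_mul_right _ _) h1) (hc.mul_dvd_of_dvd_of_dvd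
          (Nat.dvd_lcm_left _ _) ((dvd_mul_left _ _).trans (Nat.dvd_lcm_right _ _)))⟩
    · intro e he
      rw [hg e (mem_filter.1 he).2, Nat.mul_div_cancel _ (Nat.pos_of_ne_zero hr)]
      exact Nat.mem_divisors.2 ⟨Nat.gcd_dvd_left _ _, hd⟩
    · intro e _
      exact Nat.mul_div_cancel _ (Nat.pos_of_ne_zero hr)
    · intro e he
      exact Nat.div_mul_cancel ⟨Nat.gcd d e, (hg e (mem_filter.1 he).2).trans (mul_comm _ _)⟩
    · intro e he
      rw [hm e r (hc.coprime_dvd_left (Nat.dvd_of_mem_divisors he)), mul_comm]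
  · refine sum_eq_zero fun g hg' => h0 g fun hs => ?_
    obtain ⟨p, hp, h1, h2⟩ := Nat.Prime.not_coprime_iff_dvd.1 hc
    have h3 := hg g (mem_filter.1 hg').2
    have h4 : p ∣ g := h3 ▸ h2.mul_left _
    exact hp.not_isUnit (hs p (h3 ▸ Nat.mul_dvd_mul (Nat.dvd_gcd h1 h4) h2))

lemma sum_eq_prod (w : ℕ → ℝ) (h0 : ∀ g, ¬ Squarefree g → w g = 0) (h1 : w 1 = 1)
    (hm : ∀ a b, Nat.Coprime a b → w (a * b) = w a * w b) {e : ℕ} (he : e ≠ 0) :
    ∑ g ∈ e.divisors, w g = ∏ p ∈ e.primeFactors, (1 + w p) := by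
  let W : ArithmeticFunction ℝ := ⟨w, h0 0 not_squarefree_zero⟩
  have hW : W.IsMultiplicative := ⟨h1, fun h => hm _ _ h⟩
  have h2 := (ArithmeticFunction.isMultiplicative_zeta.natCast.mul hW).multiplicative_factorization
    _ he
  rw [ArithmeticFunction.coe_zeta_mul_apply, Finsupp.prod, Nat.support_factorization] at h2
  refine h2.trans (prod_congr rfl fun p hp => ?_)
  have hp' := Nat.prime_of_mem_primeFactors hp
  obtain ⟨j, hj⟩ : ∃ j, e.factorization p = j + 1 :=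
    ⟨_, (Nat.succ_pred_eq_of_pos (hp'.factorization_pos_of_dvd he
      (Nat.dvd_of_mem_primeFactors hp))).symm⟩
  rw [ArithmeticFunction.coe_zeta_mul_apply, hj, Nat.sum_divisors_prime_pow hp', sum_range_succ',
    sum_range_succ', sum_eq_zero, zero_add, zero_add, pow_one, pow_zero, add_comm]
  · exact congrArg (· + w p) h1
  · intro i _
    exact h0 _ fun hs => hp'.not_isUnit (hs p ⟨p ^ i, by ring⟩)

lemma tot {e : ℕ} : (φ e : ℝ) = e * ∏ p ∈ e.primeFactors, (1 - (p : ℝ)⁻¹) := by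
  have h := congrArg (fun x : ℚ => (x : ℝ)) (Nat.totient_eq_mul_prod_factors e)
  push_cast at h
  exact h

/-- The first weight. -/
noncomputable def w1 (g : ℕ) : ℝ := (μ g : ℝ) / g

/-- The second weight. -/
noncomputable def w2 (g : ℕ) : ℝ := (μ g : ℝ) ^ 2 / φ g

lemma w1_zero (g : ℕ) (h : ¬ Squarefree g) : w1 g = 0 := by
  rw [w1, ArithmeticFunction.moebius_eq_zero_of_not_squarefree h]; simp

lemma w2_zero (g : ℕ) (h : ¬ Squarefree g) : w2 g = 0 := by
  rw [w2, ArithmeticFunction.moebius_eq_zero_of_not_squarefree h]; simp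

lemma w1_mul (a b : ℕ) (h : Nat.Coprime a b) : w1 (a * b) = w1 a * w1 b := by
  rw [w1, w1, w1, ArithmeticFunction.isMultiplicative_moebius.map_mul_of_coprime h,
    div_mul_div_comm]
  push_cast; rfl

lemma w2_mul (a b : ℕ) (h : Nat.Coprime a b) : w2 (a * b) = w2 a * w2 b := by
  rw [w2, w2, w2, ArithmeticFunction.isMultiplicative_moebius.map_mul_of_coprime h,
    Nat.totient_mul h, div_mul_div_comm]
  push_cast; rw [mul_pow]

lemma w2_nonneg (g : ℕ) : 0 ≤ w2 g := by unfold w2; positivity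

lemma w2_le (g : ℕ) : w2 g ≤ 1 / φ g := by
  refine div_le_div_of_nonneg_right ?_ (Nat.cast_nonneg _)
  rw [← Int.cast_pow, ArithmeticFunction.moebius_sq]
  split_ifs <;> simp

lemma sum_w1 {e : ℕ} (he : e ≠ 0) : (φ e : ℝ) / e = ∑ g ∈ e.divisors, w1 g := by
  rw [sum_eq_prod w1 w1_zero (by simp [w1]) w1_mul he, tot,
    mul_div_cancel_left₀ _ (Nat.cast_ne_zero.2 he)]
  refine prod_congr rfl fun p hp => ?_
  rw [w1, ArithmeticFunction.moebius_apply_prime (Nat.prime_of_mem_primeFactors hp)]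
  push_cast; ring

lemma ratio {e : ℕ} (he : e ≠ 0) : (e : ℝ) / φ e = ∏ p ∈ e.primeFactors, (1 - (p : ℝ)⁻¹)⁻¹ := by
  rw [tot, div_mul_eq_div_div, div_self (Nat.cast_ne_zero.2 he), one_div, prod_inv_distrib]

lemma sum_w2 {e : ℕ} (he : e ≠ 0) : (e : ℝ) / φ e = ∑ g ∈ e.divisors, w2 g := by
  rw [sum_eq_prod w2 w2_zero (by simp [w2]) w2_mul he, ratio he]
  refine prod_congr rfl fun p hp => ?_
  have hp' := Nat.prime_of_mem_primeFactors hp
  have h1 : (1 : ℝ) < p := by exact_mod_cast hp'.one_lt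
  have h2 : (p : ℝ) - 1 ≠ 0 := by linarith
  rw [w2, ArithmeticFunction.moebius_apply_prime hp', Nat.totient_prime hp',
    Nat.cast_pred hp'.pos]
  push_cast; field_simp; ring

lemma cc_eq {q d : ℕ} (hd : d ≠ 0) (h : q ∣ d) :
    cc q d = ∑ g ∈ d.divisors with Nat.lcm q g = d, w1 g := by
  rw [← key w1 hd h]
  exact sum_congr rfl fun e he => by
    rw [sum_w1 (Nat.pos_of_mem_divisors (mem_filter.1 he).1).ne']

lemma uu_eq {d k : ℕ} (hk : k ≠ 0) (h : d ∣ k) :
    uu d k = ∑ g ∈ k.divisors with Nat.lcm d g = k, w2 g := by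
  rw [← key w2 hk h]
  exact sum_congr rfl fun e he => by
    rw [sum_w2 (Nat.pos_of_mem_divisors (mem_filter.1 he).1).ne']

/-- The reciprocal as a monoid homomorphism. -/
noncomputable def recip : ℕ →* ℝ where
  toFun n := (n : ℝ)⁻¹
  map_one' := by simp
  map_mul' m n := by simp [mul_comm]

lemma sum_le (s : Finset ℕ) (hs : ∀ p ∈ s, p.Prime) (T : Finset ℕ)
    (hT : ∀ m ∈ T, m ∈ Nat.factoredNumbers s) :
    ∑ m ∈ T, (m : ℝ)⁻¹ ≤ ∏ p ∈ s, (1 - (p : ℝ)⁻¹)⁻¹ := by
  have h := (EulerProduct.summable_and_hasSum_factoredNumbers_prod_filter_prime_geometric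
    (f := recip) (fun {p} hp => by
      change ‖(p : ℝ)⁻¹‖ < 1
      rw [Real.norm_of_nonneg (by positivity)]
      exact inv_lt_one_of_one_lt₀ (by exact_mod_cast hp.one_lt)) s).2
  rw [filter_true_of_mem hs] at h
  have h2 := sum_le_hasSum (T.subtype (· ∈ Nat.factoredNumbers s))
    (fun m _ => (by positivity : (0 : ℝ) ≤ ((m : ℕ) : ℝ)⁻¹)) h
  change ∑ m ∈ T.subtype (· ∈ Nat.factoredNumbers s), ((m : ℕ) : ℝ)⁻¹ ≤ _ at h2
  rw [sum_subtype_eq_sum_filter (f := fun m : ℕ => (m : ℝ)⁻¹), filter_true_of_mem hT] at h2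
  exact h2

open UniqueFactorizationMonoid in
lemma fibre (G g : ℕ) : ∑ n ∈ Icc 1 G with radical n = g, (n : ℝ)⁻¹ ≤ w2 g := by
  rcases ((Icc 1 G).filter fun n => radical n = g).eq_empty_or_nonempty with h | ⟨n0, h⟩
  · rw [h, sum_empty]; exact w2_nonneg g
  have hs : Squarefree g := (mem_filter.1 h).2 ▸ squarefree_radical
  have hg : g ≠ 0 := hs.ne_zero
  have hdvd : ∀ n ∈ (Icc 1 G).filter fun n => radical n = g, g ∣ n := fun n hn =>
    (mem_filter.1 hn).2 ▸ radical_dvd_self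
  have h1 := sum_le g.primeFactors (fun p hp => Nat.prime_of_mem_primeFactors hp)
    (((Icc 1 G).filter fun n => radical n = g).image (· / g)) fun m hm => by
      obtain ⟨n, hn, rfl⟩ := mem_image.1 hm
      have h5 : n / g ∣ n := Nat.div_dvd_of_dvd (hdvd n hn)
      have h6 : n ≠ 0 := by have := (mem_Icc.1 (mem_filter.1 hn).1).1; omega
      rw [Nat.mem_factoredNumbers_iff_primeFactors_subset]
      refine ⟨ne_zero_of_dvd_ne_zero h6 h5, (Nat.primeFactors_mono h5 h6).trans ?_⟩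
      rw [← (mem_filter.1 hn).2, Nat.radical_eq_prod_primeFactors,
        Nat.primeFactors_prod fun p hp => Nat.prime_of_mem_primeFactors hp]
  rw [sum_image (fun a ha b hb h => by
    rw [← Nat.div_mul_cancel (hdvd a ha), ← Nat.div_mul_cancel (hdvd b hb)]
    exact congrArg (· * g) h), ← ratio hg] at h1
  have hgr : (0 : ℝ) < g := Nat.cast_pos.2 (Nat.pos_of_ne_zero hg)
  have e1 : ∑ n ∈ Icc 1 G with radical n = g, (n : ℝ)⁻¹ =
      (∑ n ∈ Icc 1 G with radical n = g, ((n / g : ℕ) : ℝ)⁻¹) * (g : ℝ)⁻¹ := by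
    rw [sum_mul]
    refine sum_congr rfl fun n hn => ?_
    rw [← mul_inv, ← Nat.cast_mul, Nat.div_mul_cancel (hdvd n hn)]
  have e2 : w2 g = (g : ℝ) / φ g * (g : ℝ)⁻¹ := by
    rw [w2, ← Int.cast_pow, ArithmeticFunction.moebius_sq_eq_one_of_squarefree hs]
    push_cast; field_simp
  rw [e1, e2]
  exact mul_le_mul_of_nonneg_right h1 (by positivity)

open UniqueFactorizationMonoid in
lemma log_le (G : ℕ) : Real.log ((G : ℝ) + 1) ≤ ∑ g ∈ Icc 1 G, w2 g := by
  have h := log_add_one_le_harmonic G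
  rw [harmonic_eq_sum_Icc] at h
  push_cast at h
  refine h.trans ?_
  rw [← sum_fiberwise_of_maps_to (t := Icc 1 G) (g := fun n : ℕ => radical n)]
  · exact sum_le_sum fun g _ => fibre G g
  · intro n hn
    obtain ⟨h1, h2⟩ := mem_Icc.1 hn
    exact mem_Icc.2 ⟨Nat.radical_pos n, (Nat.radical_le_self_iff.2 (by omega)).trans h2⟩

lemma odd_prod (S : Finset ℕ) : (∀ p ∈ S, p % 2 = 1 ∧ 3 ≤ p) →
    ∏ p ∈ S, ((1 - (p : ℝ)⁻¹)⁻¹) ^ 2 ≤ 2 * S.card + 1 ∧
      ∀ b, (∀ p ∈ S, p < b) → b % 2 = 1 → 3 ≤ b → 2 * S.card + 3 ≤ b := by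
  induction S using Finset.induction_on_max with
  | empty => intro _; exact ⟨by simp, fun b _ _ h => by simpa using h⟩
  | insert a S ha ih =>
    intro h
    obtain ⟨h1, h2⟩ := ih fun p hp => h p (mem_insert_of_mem hp)
    have h3 := h a (mem_insert_self _ _)
    have h4 := h2 a ha h3.1 h3.2
    have h5 : a ∉ S := fun h => lt_irrefl _ (ha a h)
    rw [prod_insert h5, card_insert_of_notMem h5]
    refine ⟨?_, fun b hb h6 h7 => by have := hb a (mem_insert_self _ _); omega⟩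
    have h8 : (2 * S.card + 3 : ℝ) ≤ a := by exact_mod_cast h4
    have h9 : (0 : ℝ) ≤ S.card := Nat.cast_nonneg _
    have h10 : ((1 - (a : ℝ)⁻¹)⁻¹) ^ 2 * (2 * S.card + 1) ≤ 2 * S.card + 3 := by
      have e : (1 - (a : ℝ)⁻¹)⁻¹ = a / (a - 1) := by
        have : (a : ℝ) ≠ 0 := by linarith
        have : (a : ℝ) - 1 ≠ 0 := by linarith
        field_simp
      rw [e, div_pow, div_mul_eq_mul_div, div_le_iff₀ (by nlinarith)]
      nlinarith [mul_nonneg (sub_nonneg.2 h8) (show (0 : ℝ) ≤ a by linarith)]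
    push_cast
    nlinarith [mul_le_mul_of_nonneg_left h1 (sq_nonneg ((1 - (a : ℝ)⁻¹)⁻¹))]

lemma ratio_sq {k : ℕ} (hk : 1 ≤ k) : ((k : ℝ) / φ k) ^ 2 ≤ 16 * (1 + Real.log k) := by
  have hk0 : k ≠ 0 := by omega
  have h1 := (odd_prod (k.primeFactors.erase 2) fun p hp => by
    have h2 := Nat.prime_of_mem_primeFactors (mem_of_mem_erase hp)
    have h3 := ne_of_mem_erase hp
    have h4 := h2.two_le
    exact ⟨h2.eq_two_or_odd.resolve_left h3, by omega⟩).1
  have h2 : ((k.primeFactors.erase 2).card : ℝ) ≤ k.primeFactors.card := by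
    exact_mod_cast card_erase_le
  have h3 : 2 ^ k.primeFactors.card ≤ k :=
    (pow_card_le_prod _ _ _ fun p hp => (Nat.prime_of_mem_primeFactors hp).two_le).trans
      (Nat.le_of_dvd hk (Nat.prod_primeFactors_dvd k))
  have h4 : (k.primeFactors.card : ℝ) * Real.log 2 ≤ Real.log k := by
    rw [← Real.log_pow]
    exact Real.log_le_log (by positivity) (by exact_mod_cast h3)
  have h5 : (k.primeFactors.card : ℝ) ≤ 2 * Real.log k := by
    nlinarith [Real.log_two_gt_d9, (Nat.cast_nonneg k.primeFactors.card : (0 : ℝ) ≤ _)]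
  have h6 : 0 ≤ Real.log k := Real.log_natCast_nonneg k
  rw [ratio hk0, ← prod_pow]
  by_cases h7 : 2 ∈ k.primeFactors
  · rw [← mul_prod_erase _ _ h7]
    have e : ((1 - ((2 : ℕ) : ℝ)⁻¹)⁻¹) ^ 2 = 4 := by norm_num
    rw [e]
    linarith
  · rw [erase_eq_of_notMem h7] at h1
    linarith

end QArith

open QArith in
theorem stmtArith : StmtArith := by
  refine ⟨fun q d hd h => ?_, fun d k hk h => ?_, fun d R X hd hR hX => ?_, fun k hk => ratio_sq hk⟩
  · have hd0 : d ≠ 0 := by omega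
    rw [cc_eq hd0 h]
    obtain ⟨r, rfl⟩ := h
    have hq : q ≠ 0 := left_ne_zero_of_mul hd0
    have hq' : (0 : ℝ) < q := Nat.cast_pos.2 (Nat.pos_of_ne_zero hq)
    have hr' : (0 : ℝ) < r := Nat.cast_pos.2 (Nat.pos_of_ne_zero (right_ne_zero_of_mul hd0))
    rw [split w1 w1_zero w1_mul hd0]
    split_ifs
    · rw [← sum_w1 hq, abs_mul, w1, abs_div, Nat.abs_cast,
        abs_of_nonneg (show (0 : ℝ) ≤ (φ q : ℝ) / q by positivity),
        Nat.cast_mul, div_mul_cancel_left₀ hq'.ne', ← mul_one (r : ℝ)⁻¹]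
      refine mul_le_mul ?_ ((div_le_one hq').2 (by exact_mod_cast Nat.totient_le q))
        (by positivity) (by positivity)
      rw [← one_div]
      exact div_le_div_of_nonneg_right (by exact_mod_cast ArithmeticFunction.abs_moebius_le_one)
        hr'.le
    · rw [abs_zero]; positivity
  · have hk0 : k ≠ 0 := by omega
    rw [uu_eq hk0 h]
    refine ⟨sum_nonneg fun g _ => w2_nonneg g, ?_⟩
    obtain ⟨r, rfl⟩ := h
    rw [split w2 w2_zero w2_mul hk0]
    split_ifs with hc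
    · rw [← sum_w2 (left_ne_zero_of_mul hk0), Nat.totient_mul hc]
      refine (mul_le_mul_of_nonneg_right (w2_le r) (by positivity)).trans_eq ?_
      push_cast
      rw [div_mul_div_comm, one_mul, mul_comm]
    · positivity
  · have h1 : Real.log R ≤ Real.log ((⌊R⌋₊ : ℝ) + 1) :=
      Real.log_le_log (by linarith) (Nat.lt_floor_add_one R).le
    refine h1.trans ((log_le _).trans ?_)
    rw [← sum_fiberwise_of_maps_to (t := (Icc 1 ⌊X⌋₊).filter fun k => d ∣ k)
      (g := fun g : ℕ => Nat.lcm d g)]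
    · refine sum_le_sum fun k hk => ?_
      obtain ⟨h2, h3⟩ := mem_filter.1 hk
      have hk0 : k ≠ 0 := by have := (mem_Icc.1 h2).1; omega
      rw [uu_eq hk0 h3]
      refine sum_le_sum_of_subset_of_nonneg (fun g hg => ?_) fun g _ _ => w2_nonneg g
      have h4 := (mem_filter.1 hg).2
      exact mem_filter.2 ⟨Nat.mem_divisors.2 ⟨h4 ▸ Nat.dvd_lcm_right _ _, hk0⟩, h4⟩
    · intro g hg
      obtain ⟨h2, h3⟩ := mem_Icc.1 hg
      refine mem_filter.2 ⟨mem_Icc.2 ⟨Nat.lcm_pos hd h2, ?_⟩, Nat.dvd_lcm_left _ _⟩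
      refine (Nat.le_of_dvd (Nat.mul_pos hd h2) (Nat.lcm_dvd_mul _ _)).trans (Nat.le_floor ?_)
      have h4 : (g : ℝ) ≤ R := (Nat.cast_le.2 h3).trans (Nat.floor_le (by linarith))
      push_cast
      exact (mul_le_mul_of_nonneg_left h4 (Nat.cast_nonneg _)).trans hX

end Pool.Agent.MP_f259ea_nt.Q
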