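import Pool.Agent.MP_f259ea_nt.Q_Defs

/-!
Conductor aspect: the terms away from their main ranges are small.
-/

set_option autoImplicit false

open Complex MeasureTheory Finset
open scoped Real ComplexConjugate Classical ArithmeticFunction.Moebius
  ArithmeticFunction.vonMangoldt Nat

namespace Pool.Agent.MP_f259ea_nt.Q

namespace QBad

lemma int_fwd {f : ℝ → ℝ} (hf : Continuous f) {x y s : ℝ} (hxy : x ≤ y) (hs : 0 < s)
    (h : ∀ u ∈ Set.Icc x y, f u ≤ 1 / (u - x + s) ^ 2) : ∫ u in x..y, f u ≤ 1 / s := by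
  have hpos : ∀ u ∈ Set.uIcc x y, u - x + s ≠ 0 := fun u hu => by
    rw [Set.uIcc_of_le hxy] at hu
    have := hu.1
    exact ne_of_gt (by linarith)
  have hc : ContinuousOn (fun u : ℝ => 1 / (u - x + s) ^ 2) (Set.uIcc x y) :=
    continuousOn_const.div (by fun_prop) fun u hu => pow_ne_zero 2 (hpos u hu)
  have hd : ∀ u ∈ Set.uIcc x y, HasDerivAt (fun u : ℝ => -(u - x + s)⁻¹) (1 / (u - x + s) ^ 2) u :=
    fun u hu => by
      have h1 : HasDerivAt (fun u : ℝ => u - x + s) 1 u :=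
        ((hasDerivAt_id u).sub_const x).add_const s
      exact (h1.inv (hpos u hu)).neg.congr_deriv (by ring)
  have h1 := intervalIntegral.integral_eq_sub_of_hasDerivAt hd hc.intervalIntegrable
  have h2 : ∫ u in x..y, f u ≤ ∫ u in x..y, 1 / (u - x + s) ^ 2 :=
    intervalIntegral.integral_mono_on hxy (hf.intervalIntegrable x y) hc.intervalIntegrable h
  have h3 : 0 ≤ (y - x + s)⁻¹ := inv_nonneg.2 (by linarith)
  rw [h1, sub_self, zero_add] at h2
  rw [one_div]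
  linarith

lemma int_bwd {f : ℝ → ℝ} (hf : Continuous f) {x y s : ℝ} (hxy : x ≤ y) (hs : 0 < s)
    (h : ∀ u ∈ Set.Icc x y, f u ≤ 1 / (y - u + s) ^ 2) : ∫ u in x..y, f u ≤ 1 / s := by
  have h1 := int_fwd (f := fun u => f (x + y - u)) (by fun_prop) hxy hs fun u hu => by
    have := h (x + y - u) ⟨by linarith [hu.2], by linarith [hu.1]⟩
    rwa [show y - (x + y - u) + s = u - x + s by ring] at this
  rwa [intervalIntegral.integral_comp_sub_left, add_sub_cancel_right, add_sub_cancel_left] at h1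

variable {T : ℝ} {W : ℝ → ℂ}

lemma sq_le_of_gap (hW : GW T W) {v r : ℝ} (hr : 0 < r) (h : r ≤ |v|) : ‖W v‖ ^ 2 ≤ 1 / r ^ 2 := by
  have h1 := hW.decay v
  have h2 : ‖W v‖ ≤ 1 / r := by
    rw [le_div_iff₀ hr]
    nlinarith [norm_nonneg (W v)]
  calc ‖W v‖ ^ 2 ≤ (1 / r) ^ 2 := by gcongr
    _ = _ := by rw [div_pow, one_pow]

lemma int_le_T (hW : GW T W) {x y : ℝ} (hxy : x ≤ y) (c : ℝ) :
    ∫ u in x..y, ‖W (u - c)‖ ^ 2 ≤ T := by
  rw [intervalIntegral.integral_comp_sub_right (fun u => ‖W u‖ ^ 2),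
    intervalIntegral.integral_of_le (by linarith)]
  exact (setIntegral_le_integral hW.sq_int
    (Filter.Eventually.of_forall fun u => by positivity)).trans hW.sq_le

lemma norm_av (W : ℝ → ℂ) (u : ℝ) (n : ℕ) :
    ‖av W u n‖ ^ 2 = Λ n ^ 2 / n * ‖W (u - un n)‖ ^ 2 := by
  rw [av, norm_mul, mul_pow, Complex.norm_real, Real.norm_eq_abs, sq_abs, div_pow,
    Real.sq_sqrt n.cast_nonneg]

lemma master (hW : Continuous W) (N : ℕ) (P : ℕ → Prop) [DecidablePred P] {v : ℝ → ℝ}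
    (hv : Continuous v) {a : ℝ → ℕ → ℂ} (ha : ∀ u n, a u n = if P n then av W (v u) n else 0)
    {x y B : ℝ} (hB : ∀ n, 2 ≤ n → P n → ∫ u in x..y, ‖W (v u - un n)‖ ^ 2 ≤ B) :
    ∫ u in x..y, nrm N (a u) ≤ B * ∑ n ∈ Icc 1 N, if P n then Λ n ^ 2 / n else 0 := by
  have h1 : ∀ u, nrm N (a u)
      = ∑ n ∈ Icc 1 N, (if P n then Λ n ^ 2 / n else 0) * ‖W (v u - un n)‖ ^ 2 := fun u => by
    refine Finset.sum_congr rfl fun n _ => ?_
    rw [ha]
    split_ifs
    · exact norm_av _ _ _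
    · simp
  simp only [h1]
  rw [intervalIntegral.integral_finsetSum fun n _ => Continuous.intervalIntegrable (by fun_prop) _ _,
    Finset.mul_sum]
  refine Finset.sum_le_sum fun n hn => ?_
  rw [intervalIntegral.integral_const_mul, mul_comm B]
  split_ifs with hP
  · rcases (Finset.mem_Icc.1 hn).1.eq_or_lt with h | h
    · subst h; simp
    · exact mul_le_mul_of_nonneg_left (hB n h hP) (by positivity)
  · simp

lemma master' (hW : Continuous W) (N : ℕ) (P : ℕ → Prop) [DecidablePred P] {v : ℝ → ℝ}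
    (hv : Continuous v) {a : ℝ → ℕ → ℂ} (ha : ∀ u n, a u n = if P n then av W (v u) n else 0)
    {x y B S : ℝ} (hB0 : 0 ≤ B) (hB : ∀ n, 2 ≤ n → P n → ∫ u in x..y, ‖W (v u - un n)‖ ^ 2 ≤ B)
    (hS : ∑ n ∈ Icc 1 N, Λ n ^ 2 / n ≤ S) : ∫ u in x..y, nrm N (a u) ≤ B * S := by
  refine (master hW N P hv ha hB).trans (mul_le_mul_of_nonneg_left (le_trans ?_ hS) hB0)
  refine Finset.sum_le_sum fun n _ => ?_
  split_ifs
  · exact le_rfl
  · positivity

lemma un_two {n : ℕ} (hn : 2 ≤ n) : 11 / 100 ≤ un n := by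
  refine le_trans ?_ (un_mono (m := 2) (by norm_num) hn)
  have h1 := Real.log_two_gt_d9
  have h2 := Real.pi_lt_d2
  rw [un, le_div_iff₀ (by positivity)]
  push_cast
  linarith

lemma log_le_of_le_floor {Q n : ℕ} (hQ : 1 ≤ Q) (hn : 1 ≤ n) {e : ℝ}
    (h : n ≤ ⌊(Q : ℝ) ^ e⌋₊) : Real.log n ≤ e * Real.log Q := by
  have hQ0 : (0 : ℝ) < Q := by exact_mod_cast hQ
  rw [← Real.log_rpow hQ0]
  exact Real.log_le_log (by exact_mod_cast hn)
    ((Nat.le_floor_iff (by positivity)).1 h)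

lemma sq_div_le {n : ℕ} {M : ℝ} (h : Real.log n ≤ M) : Λ n ^ 2 / (n : ℝ) ≤ M * (Λ n / n) := by
  have h1 : Λ n ≤ M := ArithmeticFunction.vonMangoldt_le_log.trans h
  have h2 : 0 ≤ Λ n / (n : ℝ) := div_nonneg ArithmeticFunction.vonMangoldt_nonneg n.cast_nonneg
  calc Λ n ^ 2 / (n : ℝ) = Λ n * (Λ n / n) := by ring
    _ ≤ _ := mul_le_mul_of_nonneg_right h1 h2

lemma S_le {Q : ℕ} {δ : ℝ} (hδ : 0 < δ) (hδ' : δ ≤ 1 / 2) (hQ : 1 ≤ Q) (hL : 1 ≤ Real.log Q) :
    ∑ n ∈ Icc 1 (NN δ Q), Λ n ^ 2 / (n : ℝ) ≤ 16 * Real.log Q ^ 2 := by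
  have hQ1 : (1 : ℝ) ≤ Q := by exact_mod_cast hQ
  have hN : 1 ≤ NN δ Q := Nat.le_floor (by
    rw [Nat.cast_one]; exact Real.one_le_rpow hQ1 (by linarith))
  have h1 : ∀ n, 1 ≤ n → n ≤ NN δ Q → Real.log n ≤ 2 * Real.log Q := fun n hn h =>
    (log_le_of_le_floor hQ hn h).trans (by nlinarith)
  have h2 := (mertSum_bounds hN).2
  have h3 := h1 _ hN le_rfl
  have h4 : Real.log 4 ≤ 2 := by
    rw [show (4 : ℝ) = 2 ^ 2 by norm_num, Real.log_pow]
    have := Real.log_two_lt_d9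
    push_cast; linarith
  calc _ ≤ ∑ n ∈ Icc 1 (NN δ Q), 2 * Real.log Q * (Λ n / n) :=
        Finset.sum_le_sum fun n hn =>
          sq_div_le (h1 n (Finset.mem_Icc.1 hn).1 (Finset.mem_Icc.1 hn).2)
    _ = 2 * Real.log Q * mertSum (NN δ Q) := by rw [mertSum, Finset.mul_sum]
    _ ≤ 2 * Real.log Q * (8 * Real.log Q) :=
        mul_le_mul_of_nonneg_left (by linarith) (by linarith)
    _ = _ := by ring

lemma S3_le {Q : ℕ} {δ C : ℝ} (hδ : 0 < δ) (hδ' : δ ≤ 1 / 2) (hQ : 1 ≤ Q)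
    (hC : ∀ X : ℕ, ∑ n ∈ Icc 1 X with ¬ n.Prime, Λ n / (n : ℝ) ≤ C) :
    (∑ n ∈ Icc 1 (NN δ Q), if ¬ (n ≤ N1 δ Q ∨ (n.Prime ∧ Q < n)) then Λ n ^ 2 / (n : ℝ) else 0)
      ≤ Real.log Q * (δ * Real.log Q + 10) + 2 * Real.log Q * C := by
  have hQ1 : (1 : ℝ) ≤ Q := by exact_mod_cast hQ
  have hL : 0 ≤ Real.log Q := Real.log_nonneg hQ1
  have h0 : ∀ n : ℕ, 0 ≤ Λ n / (n : ℝ) := fun n =>
    div_nonneg ArithmeticFunction.vonMangoldt_nonneg n.cast_nonneg
  have h1 := mertSum_diff (x := (Q : ℝ) ^ (1 - δ)) (y := Q) (Real.one_le_rpow hQ1 (by linarith))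
    (by simpa using Real.rpow_le_rpow_of_exponent_le hQ1 (show 1 - δ ≤ 1 by linarith))
  rw [Nat.floor_natCast, Real.log_rpow (by linarith)] at h1
  have h2 : ∑ n ∈ Icc 1 (NN δ Q) with n ∈ Ioc (N1 δ Q) Q, Λ n / (n : ℝ)
      ≤ δ * Real.log Q + 10 := by
    refine le_trans (Finset.sum_le_sum_of_subset_of_nonneg
      (fun n hn => (Finset.mem_filter.1 hn).2) fun n _ _ => h0 n) (h1.trans (le_of_eq ?_))
    ring
  refine le_trans ?_ (add_le_add (mul_le_mul_of_nonneg_left h2 hL)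
    (mul_le_mul_of_nonneg_left (hC (NN δ Q)) (by linarith)))
  rw [Finset.sum_filter, Finset.sum_filter, Finset.mul_sum, Finset.mul_sum,
    ← Finset.sum_add_distrib]
  refine Finset.sum_le_sum fun n hn => ?_
  rw [Finset.mem_Icc] at hn
  have h3 : 0 ≤ Real.log Q * if n ∈ Ioc (N1 δ Q) Q then Λ n / (n : ℝ) else 0 :=
    mul_nonneg hL (by split_ifs; exacts [h0 n, le_rfl])
  have h4 : 0 ≤ 2 * Real.log Q * if ¬ n.Prime then Λ n / (n : ℝ) else 0 :=
    mul_nonneg (by linarith) (by split_ifs; exacts [le_rfl, h0 n])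
  by_cases hc : n ≤ N1 δ Q ∨ (n.Prime ∧ Q < n)
  · rw [if_neg (not_not.2 hc)]; linarith
  rw [if_pos hc]
  by_cases hp : n.Prime
  · have h5 : n ∈ Ioc (N1 δ Q) Q := by
      rw [Finset.mem_Ioc]
      constructor
      · by_contra h; exact hc (Or.inl (by omega))
      · by_contra h; exact hc (Or.inr ⟨hp, by omega⟩)
    rw [if_pos h5]
    have h6 : Real.log n ≤ Real.log Q :=
      Real.log_le_log (by exact_mod_cast hn.1) (by exact_mod_cast (Finset.mem_Ioc.1 h5).2)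
    linarith [sq_div_le h6]
  · rw [if_pos hp]
    have h6 : Real.log n ≤ 2 * Real.log Q :=
      (log_le_of_le_floor hQ hn.1 hn.2).trans (by nlinarith)
    linarith [sq_div_le h6]

end QBad

open QBad in
theorem stmtBad (hM : StmtMert2) : StmtBad := by
  obtain ⟨C, hC0, hC⟩ := hM.2
  refine ⟨16, by norm_num, fun δ hδ hδ' => ⟨⌈Real.exp ((500 + 2 * C) / δ)⌉₊, ?_⟩⟩
  intro Q hQ T W hT hW
  have hQe : Real.exp ((500 + 2 * C) / δ) ≤ Q := Nat.ceil_le.1 hQ
  have hQ0 : (0 : ℝ) < Q := (Real.exp_pos _).trans_le hQe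
  have hQ1 : 1 ≤ Q := by exact_mod_cast hQ0
  have hL : 500 + 2 * C ≤ δ * Real.log Q := by
    have := (Real.le_log_iff_exp_le hQ0).2 hQe
    rw [div_le_iff₀ hδ] at this
    linarith
  have hS := S3_le hδ hδ' hQ1 hC
  have hlog := fun (n : ℕ) (hn : 1 ≤ n) (h : n ≤ N1 δ Q) => log_le_of_le_floor hQ1 hn h
  have hlog' : ∀ n : ℕ, Q < n → Real.log Q ≤ Real.log n := fun n h =>
    Real.log_le_log hQ0 (by exact_mod_cast h.le)
  have hL0 : 0 ≤ Real.log Q := Real.log_natCast_nonneg Q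
  have hL1 : 1000 ≤ Real.log Q := by nlinarith
  have hS0 := S_le hδ hδ' hQ1 (by linarith)
  have hpi := Real.pi_pos
  have hpi4 := Real.pi_le_four
  have hust : 0 ≤ ust δ Q := div_nonneg (mul_nonneg (by linarith) hL0) (by positivity)
  have hue : ust δ Q ≤ ell δ Q := by
    exact div_le_div_of_nonneg_right (mul_le_mul_of_nonneg_right (by linarith) hL0)
      (by positivity)
  have he : 1 / 20 ≤ ell δ Q := by
    rw [ell, le_div_iff₀ (by positivity)]
    nlinarith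
  have he0 : 0 ≤ ell δ Q := by linarith
  have hT0 : 0 ≤ T := by linarith
  have hc := hW.cont
  have t1 : ∫ u in (1 / 20 : ℝ)..(ell δ Q), Real.log Q ^ 2 * ‖W u‖ ^ 2
      ≤ Real.log Q ^ 2 * (1 / (1 / 20)) := by
    rw [intervalIntegral.integral_const_mul]
    refine mul_le_mul_of_nonneg_left (int_fwd (by fun_prop) he (by norm_num) fun u hu => ?_)
      (by positivity)
    exact sq_le_of_gap hW (by linarith [hu.1]) (le_abs.2 (Or.inl (by linarith)))
  have t2 : ∫ u in (0 : ℝ)..(1 / 20), nrm (NN δ Q) (a1 δ Q W u)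
      ≤ 1 / (6 / 100) * (16 * Real.log Q ^ 2) := by
    refine master' hc _ (fun n => n ≤ N1 δ Q) continuous_id (fun _ _ => rfl) (by norm_num)
      (fun n hn _ => int_bwd (by fun_prop) (by norm_num) (by norm_num) fun u hu => ?_) hS0
    have := un_two hn
    exact sq_le_of_gap hW (by linarith [hu.2]) (le_abs.2 (Or.inr (by simp only [id]; linarith)))
  have t3 : ∫ u in (ust δ Q)..(ell δ Q), nrm (NN δ Q) (a1 δ Q W u)
      ≤ 1 / 1 * (16 * Real.log Q ^ 2) := by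
    refine master' hc _ (fun n => n ≤ N1 δ Q) continuous_id (fun _ _ => rfl) (by norm_num)
      (fun n hn hP => int_fwd (by fun_prop) hue (by norm_num) fun u hu => ?_) hS0
    have h1 : un n + 1 ≤ ust δ Q := by
      have := hlog n (by omega) hP
      rw [un, ust, div_add_one (by positivity)]
      gcongr
      nlinarith
    exact sq_le_of_gap hW (by linarith [hu.1]) (le_abs.2 (Or.inl (by simp only [id]; linarith)))
  have t4 : ∫ u in (0 : ℝ)..(ust δ Q), nrm (NN δ Q) (a2 Q W u)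
      ≤ 1 / 1 * (16 * Real.log Q ^ 2) := by
    refine master' hc _ (fun n => n.Prime ∧ Q < n) continuous_id (fun _ _ => rfl) (by norm_num)
      (fun n hn hP => int_bwd (by fun_prop) hust (by norm_num) fun u hu => ?_) hS0
    have h1 : ust δ Q + 1 ≤ un n := by
      have := hlog' n hP.2
      rw [un, ust, div_add_one (by positivity)]
      gcongr
      nlinarith
    exact sq_le_of_gap hW (by linarith [hu.2]) (le_abs.2 (Or.inr (by simp only [id]; linarith)))
  have t5 : ∫ u in (0 : ℝ)..(ell δ Q), nrm (NN δ Q) (a3 δ Q W u)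
      ≤ T * (Real.log Q * (δ * Real.log Q + 10) + 2 * Real.log Q * C) := by
    refine (master hc _ (fun n => ¬ (n ≤ N1 δ Q ∨ (n.Prime ∧ Q < n))) continuous_id
      (fun u n => ?_) (fun n _ _ => int_le_T hW he0 _)).trans (mul_le_mul_of_nonneg_left hS hT0)
    rw [a3, ite_not, id]
  have t6 : ∫ u in (0 : ℝ)..(ell δ Q), nrm (NN δ Q) (av W (-u))
      ≤ 1 / (1 / 10) * (16 * Real.log Q ^ 2) := by
    refine master' hc _ (fun _ => True) continuous_neg (fun _ _ => (if_pos trivial).symm)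
      (by norm_num) (fun n hn _ => int_fwd (by fun_prop) he0 (by norm_num) fun u hu => ?_) hS0
    have := un_two hn
    exact sq_le_of_gap hW (by linarith [hu.1]) (le_abs.2 (Or.inr (by linarith)))
  have t7 : ∫ u in (0 : ℝ)..(ell δ Q), nrm (NN δ Q) (av W u) ≤ T * (16 * Real.log Q ^ 2) :=
    master' hc _ (fun _ => True) continuous_id (fun _ _ => (if_pos trivial).symm) hT0
      (fun n _ _ => int_le_T hW he0 _) hS0
  refine ⟨?_, t7.trans (le_of_eq (by ring))⟩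
  have h1 : 500 * Real.log Q ^ 2 ≤ δ * T * Real.log Q ^ 2 :=
    mul_le_mul_of_nonneg_right (by nlinarith) (by positivity)
  have h2 : T * (Real.log Q * (10 + 2 * C)) ≤ T * (Real.log Q * (δ * Real.log Q)) :=
    mul_le_mul_of_nonneg_left (mul_le_mul_of_nonneg_left (by linarith) hL0) hT0
  have h3 : 0 ≤ Real.log Q ^ 2 := by positivity
  nlinarith

end Pool.Agent.MP_f259ea_nt.Q
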