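import Pool.Agent.MP_f259ea_nt.Q_Defs

set_option autoImplicit false

open Complex MeasureTheory Finset
open scoped Real ComplexConjugate Classical Nat

namespace Pool.Agent.MP_f259ea_nt.Q

namespace Card

lemma sum_div (f : ℕ → ℝ) (Q : ℕ) :
    ∑ n ∈ Ioc 0 Q, ∑ d ∈ n.divisors, f d = ∑ d ∈ Ioc 0 Q, f d * ((Q / d : ℕ) : ℝ) := by
  rw [Finset.sum_comm' (t' := Ioc 0 Q) (s' := fun d => (Ioc 0 Q).filter fun n => d ∣ n)]
  · refine Finset.sum_congr rfl fun d _ => ?_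
    rw [Finset.sum_const, Nat.Ioc_filter_dvd_card_eq_div, nsmul_eq_mul, mul_comm]
  · intro n d
    simp only [Finset.mem_Ioc, Nat.mem_divisors, Finset.mem_filter]
    constructor
    · rintro ⟨⟨h1, h2⟩, h3, h4⟩
      exact ⟨⟨⟨h1, h2⟩, h3⟩, Nat.pos_of_dvd_of_pos h3 h1, (Nat.le_of_dvd h1 h3).trans h2⟩
    · rintro ⟨⟨⟨h1, h2⟩, h3⟩, -⟩
      exact ⟨⟨h1, h2⟩, h3, h1.ne'⟩

lemma key (f : ℕ → ℝ) (h0 : ∀ n, 0 ≤ f n) (h1 : ∀ n, 1 ≤ n → f n ≤ n) (Q K : ℕ) (hK : 0 < K) :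
    ∑ n ∈ Ioc 0 Q, ∑ d ∈ n.divisors, f d ≤ K * ∑ d ∈ Ioc 0 Q, f d + (Q : ℝ) ^ 2 / K := by
  have hK' : (0 : ℝ) < K := by exact_mod_cast hK
  have hb : ∀ d ∈ Ioc 0 Q, f d * ((Q / d : ℕ) : ℝ) ≤
      K * f d + if d ∈ Ioc 0 (Q / K) then (Q : ℝ) else 0 := by
    intro d hd
    have hd0 : 0 < d := (Finset.mem_Ioc.1 hd).1
    split_ifs with h
    · have e1 : f d * ((Q / d : ℕ) : ℝ) ≤ d * ((Q / d : ℕ) : ℝ) :=
        mul_le_mul_of_nonneg_right (h1 d hd0) (Nat.cast_nonneg _)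
      have e2 : (d : ℝ) * ((Q / d : ℕ) : ℝ) ≤ Q := by exact_mod_cast Nat.mul_div_le Q d
      have := mul_nonneg hK'.le (h0 d)
      linarith
    · have e1 : Q / K < d := by
        by_contra hc
        exact h (Finset.mem_Ioc.2 ⟨hd0, not_lt.1 hc⟩)
      have e2 : Q / d ≤ K := by
        rw [Nat.div_lt_iff_lt_mul hK] at e1
        exact ((Nat.div_lt_iff_lt_mul hd0).2 (by rwa [mul_comm])).le
      have e3 : ((Q / d : ℕ) : ℝ) ≤ K := by exact_mod_cast e2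
      rw [add_zero, mul_comm]
      exact mul_le_mul_of_nonneg_right e3 (h0 d)
  rw [sum_div]
  refine (Finset.sum_le_sum hb).trans ?_
  rw [Finset.sum_add_distrib, ← Finset.mul_sum, Finset.sum_ite_mem, Finset.sum_const, nsmul_eq_mul]
  have e4 : ((Ioc 0 Q ∩ Ioc 0 (Q / K)).card : ℝ) ≤ (Q : ℝ) / K := by
    have : (Ioc 0 Q ∩ Ioc 0 (Q / K)).card ≤ Q / K := by
      simpa using Finset.card_le_card (Finset.inter_subset_right (s₁ := Ioc 0 Q)
        (s₂ := Ioc 0 (Q / K)))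
    exact (Nat.cast_le.2 this).trans Nat.cast_div_le
  have e5 := mul_le_mul_of_nonneg_right e4 (Nat.cast_nonneg (α := ℝ) Q)
  have e6 : (Q : ℝ) / K * Q = (Q : ℝ) ^ 2 / K := by ring
  linarith

lemma sum_id (Q : ℕ) : (Q : ℝ) ^ 2 / 2 ≤ ∑ n ∈ Ioc 0 Q, (n : ℝ) := by
  induction Q with
  | zero => simp
  | succ n ih =>
    rw [Finset.sum_Ioc_succ_top (Nat.zero_le n)]
    push_cast
    nlinarith

end Card

theorem stmtCard (hO : StmtOrth) : StmtCard := by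
  refine ⟨1 / 1024, by norm_num, 0, fun Q _ => ?_⟩
  have h1 := Card.key (fun n => (φ n : ℝ)) (fun n => Nat.cast_nonneg _)
    (fun n _ => by exact_mod_cast Nat.totient_le n) Q 4 (by norm_num)
  have h2 := Card.key (fun n => ((prim n).card : ℝ)) (fun n => Nat.cast_nonneg _)
    (fun n hn => by exact_mod_cast (hO.2.1 n hn).2) Q 32 (by norm_num)
  have h3 : ∑ n ∈ Ioc 0 Q, ∑ d ∈ n.divisors, (φ d : ℝ) = ∑ n ∈ Ioc 0 Q, (n : ℝ) :=
    Finset.sum_congr rfl fun n _ => by exact_mod_cast Nat.sum_totient n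
  have h4 : ∑ n ∈ Ioc 0 Q, ∑ d ∈ n.divisors, ((prim d).card : ℝ) = ∑ n ∈ Ioc 0 Q, (φ n : ℝ) := by
    refine Finset.sum_congr rfl fun n hn => ?_
    have := hO.1 n 1 1 (Finset.mem_Ioc.1 hn).1 (Nat.coprime_one_left n) (Nat.coprime_one_left n)
    simp only [Nat.cast_one, map_one, mul_one, Finset.sum_const, nsmul_eq_mul, Nat.ModEq.refl,
      if_true] at this
    exact_mod_cast this
  have h5 := Card.sum_id Q
  rw [h3] at h1
  rw [h4] at h2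
  unfold famCard
  push_cast at h1 h2
  linarith

end Pool.Agent.MP_f259ea_nt.Q
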