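import Pool.Agent.MP_f259ea_nt.Q_Defs

/-! Passing between multiplicative and additive characters. -/

set_option autoImplicit false

open Complex MeasureTheory Finset
open scoped Real ComplexConjugate Classical ArithmeticFunction.Moebius
  ArithmeticFunction.vonMangoldt Nat

namespace Pool.Agent.MP_f259ea_nt.Q

theorem stmtRed : StmtRed := by
  intro G e he
  rw [sum_sigma']
  symm
  refine sum_nbij' (fun x => x.2 * (e / x.1))
    (fun b => ⟨e / Nat.gcd b e, b / Nat.gcd b e⟩) ?_ ?_ ?_ ?_ ?_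
  · rintro ⟨q, b⟩ hx
    simp only [mem_sigma, Nat.mem_divisors, red, mem_filter, mem_range] at hx ⊢
    obtain ⟨⟨⟨k, rfl⟩, h0⟩, hb, -⟩ := hx
    have hq : 0 < q := by omega
    have hk : 0 < k := Nat.pos_of_ne_zero fun h => h0 (by simp [h])
    rw [Nat.mul_div_cancel_left _ hq]
    exact Nat.mul_lt_mul_of_pos_right hb hk
  · intro b hb
    simp only [mem_sigma, Nat.mem_divisors, red, mem_filter, mem_range] at hb ⊢
    have hg : 0 < Nat.gcd b e := Nat.gcd_pos_of_pos_right _ he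
    refine ⟨⟨Nat.div_dvd_of_dvd (Nat.gcd_dvd_right b e), by omega⟩, ?_,
      Nat.coprime_div_gcd_div_gcd hg⟩
    exact Nat.div_lt_div_of_lt_of_dvd (Nat.gcd_dvd_right b e) hb
  · rintro ⟨q, b⟩ hx
    simp only [mem_sigma, Nat.mem_divisors, red, mem_filter, mem_range] at hx
    obtain ⟨⟨⟨k, rfl⟩, h0⟩, hb, hc⟩ := hx
    have hq : 0 < q := by omega
    have hk : 0 < k := Nat.pos_of_ne_zero fun h => h0 (by simp [h])
    have hg : Nat.gcd (b * k) (q * k) = k := by rw [Nat.gcd_mul_right, hc, one_mul]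
    simp only [Nat.mul_div_cancel_left _ hq, hg, Nat.mul_div_cancel _ hk]
  · intro b hb
    simp only
    rw [Nat.div_div_self (Nat.gcd_dvd_right b e) (by omega),
      Nat.div_mul_cancel (Nat.gcd_dvd_left b e)]
  · rintro ⟨q, b⟩ hx
    simp only [mem_sigma, Nat.mem_divisors, red, mem_filter, mem_range] at hx
    obtain ⟨⟨⟨k, rfl⟩, h0⟩, hb, hc⟩ := hx
    have hq : 0 < q := by omega
    have hk : 0 < k := Nat.pos_of_ne_zero fun h => h0 (by simp [h])
    have hk' : (k : ℝ) ≠ 0 := by exact_mod_cast hk.ne'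
    simp only [Nat.mul_div_cancel_left _ hq]
    congr 1
    push_cast
    rw [mul_div_mul_right _ _ hk']

namespace Q_Char

lemma inv (f g : ℕ → ℝ) (d : ℕ) (hd : 1 ≤ d)
    (h : ∀ e, 1 ≤ e → e ∣ d → ∑ i ∈ e.divisors, f i = g e) :
    f d = ∑ e ∈ d.divisors, (μ (d / e) : ℝ) * g e := by
  have := (ArithmeticFunction.sum_eq_iff_sum_mul_moebius_eq_on (f := f) (g := g) {n | n ∣ d}
    (fun m n hmn hn => hmn.trans hn)).1 (fun n hn hs => h n hn hs) d hd (dvd_refl d)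
  rw [← this]
  exact Nat.sum_divisorsAntidiagonal' fun x y => (μ x : ℝ) * g y

lemma swap (d : ℕ) (c B : ℕ → ℝ) :
    ∑ e ∈ d.divisors, c e * ∑ q ∈ e.divisors, B q
      = ∑ q ∈ d.divisors, (∑ e ∈ d.divisors with q ∣ e, c e) * B q := by
  simp only [mul_sum, sum_mul]
  refine sum_comm' fun e q => ?_
  simp only [Nat.mem_divisors, mem_filter]
  constructor
  · rintro ⟨⟨h1, h2⟩, h3, -⟩
    exact ⟨⟨⟨h1, h2⟩, h3⟩, h3.trans h1, h2⟩
  · rintro ⟨⟨⟨h1, h2⟩, h3⟩, -⟩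
    exact ⟨⟨h1, h2⟩, h3, ne_zero_of_dvd_ne_zero h2 h1⟩

lemma sq_sum (s : Finset ℕ) (a u : ℕ → ℂ) :
    ((‖∑ n ∈ s, a n * u n‖ ^ 2 : ℝ) : ℂ)
      = ∑ m ∈ s, ∑ n ∈ s, a m * conj (a n) * (u m * conj (u n)) := by
  rw [Complex.ofReal_pow, ← Complex.mul_conj', map_sum, sum_mul_sum]
  refine sum_congr rfl fun m _ => sum_congr rfl fun n _ => ?_
  rw [map_mul]
  ring

lemma geom (e m n : ℕ) (he : 1 ≤ e) :
    ∑ b ∈ range e, ee (m * ((b : ℝ) / e)) * conj (ee (n * ((b : ℝ) / e)))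
      = if m ≡ n [MOD e] then (e : ℂ) else 0 := by
  have hω := Complex.isPrimitiveRoot_exp e (by omega)
  set ω := Complex.exp (2 * π * I / e) with hωd
  set z := ω ^ ((n : ℤ) - m) with hz
  have hterm : ∀ b : ℕ, ee (m * ((b : ℝ) / e)) * conj (ee (n * ((b : ℝ) / e))) = z⁻¹ ^ b := by
    intro b
    rw [hz, hωd, ← Complex.exp_int_mul, ← Complex.exp_neg, ← Complex.exp_nat_mul, ee, ee,
      ← Complex.exp_conj, ← Complex.exp_add]
    congr 1
    simp only [map_mul, Complex.conj_ofReal, Complex.conj_I, map_ofNat]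
    push_cast
    ring
  simp only [hterm]
  have hiff : z = 1 ↔ m ≡ n [MOD e] := by
    rw [hz, hω.zpow_eq_one_iff_dvd, Nat.modEq_iff_dvd]
  split_ifs with h
  · simp [hiff.2 h]
  · have h1 : z⁻¹ ≠ 1 := fun h' => h (hiff.1 (inv_eq_one.1 h'))
    have h2 : z⁻¹ ^ e = 1 := by
      rw [inv_pow, inv_eq_one, hz, ← zpow_natCast, ← zpow_mul, hω.zpow_eq_one_iff_dvd]
      exact Dvd.intro_left _ rfl
    rw [geom_sum_eq h1, h2, sub_self, zero_div]

/-- The diagonal sum over congruent pairs. -/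
noncomputable def DD (e N : ℕ) (a : ℕ → ℂ) : ℂ :=
  ∑ m ∈ Icc 1 N, ∑ n ∈ Icc 1 N, if m ≡ n [MOD e] then a m * conj (a n) else 0

lemma sumB (e N : ℕ) (a : ℕ → ℂ) (he : 1 ≤ e) :
    ((∑ q ∈ e.divisors, Bq q N a 0 : ℝ) : ℂ) = e * DD e N a := by
  have h := stmtRed (fun x => ‖Sx N a x‖ ^ 2) e he
  simp only [Bq, add_zero]
  rw [← h, Complex.ofReal_sum]
  simp only [Sx, sq_sum]
  rw [sum_comm, DD, mul_sum]
  refine sum_congr rfl fun m _ => ?_
  rw [sum_comm, mul_sum]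
  refine sum_congr rfl fun n _ => ?_
  rw [← mul_sum, geom e m n he]
  split_ifs
  · ring
  · simp

lemma sumA (hO : StmtOrth) (e N : ℕ) (a : ℕ → ℂ) (he : 1 ≤ e) (hc : CopTo N a e) :
    ((∑ d ∈ e.divisors, Ad d N a : ℝ) : ℂ) = φ e * DD e N a := by
  simp only [Ad, Complex.ofReal_sum, sq_sum]
  rw [DD, mul_sum, sum_congr rfl fun d _ => sum_comm, sum_comm]
  refine sum_congr rfl fun m hm => ?_
  rw [mul_sum, sum_congr rfl fun d _ => sum_comm, sum_comm]
  refine sum_congr rfl fun n hn => ?_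
  simp only [← mul_sum]
  by_cases h1 : a m = 0
  · simp [h1]
  by_cases h2 : a n = 0
  · simp [h2]
  rw [hO.1 e m n he (hc m hm h1) (hc n hn h2)]
  split_ifs
  · ring
  · simp

lemma rel (hO : StmtOrth) (e N : ℕ) (a : ℕ → ℂ) (he : 1 ≤ e) (hc : CopTo N a e) :
    (φ e : ℝ) * ∑ q ∈ e.divisors, Bq q N a 0 = e * ∑ d ∈ e.divisors, Ad d N a := by
  apply Complex.ofReal_injective
  rw [Complex.ofReal_mul, Complex.ofReal_mul, sumA hO e N a he hc, sumB e N a he]
  push_cast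
  ring

lemma cop_dvd {N : ℕ} {a : ℕ → ℂ} {e d : ℕ} (h : CopTo N a d) (hed : e ∣ d) : CopTo N a e :=
  fun n hn h0 => (h n hn h0).coprime_dvd_right hed

lemma shift (q N : ℕ) (a : ℕ → ℂ) (β : ℝ) :
    Bq q N a β = Bq q N (fun n => a n * ee (n * β)) 0 := by
  simp only [Bq, Sx, add_zero]
  refine sum_congr rfl fun b _ => ?_
  congr 2
  refine sum_congr rfl fun n _ => ?_
  rw [mul_assoc, ee, ee, ee, ← Complex.exp_add]
  congr 2
  push_cast
  ring

end Q_Char

open Q_Char in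
theorem stmtChar (hO : StmtOrth) : StmtChar := by
  refine ⟨fun d N a hd hc => ?_, fun k N a β hk hc => ?_⟩
  · rw [inv (fun i => Ad i N a) (fun e => (φ e : ℝ) / e * ∑ q ∈ e.divisors, Bq q N a 0) d hd
      fun e he hed => ?_]
    · simp only [← mul_assoc]
      exact swap d (fun e => (μ (d / e) : ℝ) * ((φ e : ℝ) / e)) _
    · have h0 : (e : ℝ) ≠ 0 := by exact_mod_cast (by omega : e ≠ 0)
      have := rel hO e N a he (cop_dvd hc hed)
      rw [div_mul_eq_mul_div, this, mul_div_cancel_left₀ _ h0]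
  · rw [shift]
    set a' : ℕ → ℂ := fun n => a n * ee (n * β) with ha'
    have hc' : CopTo N a' k := fun n hn h0 => hc n hn (left_ne_zero_of_mul h0)
    rw [inv (fun i => Bq i N a' 0) (fun e => (e : ℝ) / φ e * ∑ q ∈ e.divisors, Ad q N a') k hk
      fun e he hed => ?_]
    · simp only [← mul_assoc]
      exact swap k (fun e => (μ (k / e) : ℝ) * ((e : ℝ) / φ e)) _
    · have h0 : (φ e : ℝ) ≠ 0 := by exact_mod_cast (Nat.totient_pos.2 he).ne'
      have := rel hO e N a' he (cop_dvd hc' hed)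
      rw [div_mul_eq_mul_div, ← this, mul_div_cancel_left₀ _ h0]

end Pool.Agent.MP_f259ea_nt.Q
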