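import Pool.Agent.MP_f259ea_nt.Q_Final

/-!
Conductor aspect: translation of the counts into statements about `L(s, χ)`.
-/

set_option autoImplicit false

open Complex MeasureTheory Finset Filter Topology DirichletCharacter
open scoped Real ComplexConjugate Classical

namespace Pool.Agent.MP_f259ea_nt.Q

lemma finsum_prim (d : ℕ) (f : DirichletCharacter ℂ d → ℝ) :
    ∑ᶠ χ ∈ {χ : DirichletCharacter ℂ d | χ.IsPrimitive}, f χ = ∑ χ ∈ prim d, f χ := by
  rw [← finsum_mem_coe_finset]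
  congr 1
  ext χ
  simp [mem_prim]

lemma count_all {d : ℕ} [NeZero d] {χ : DirichletCharacter ℂ d} (hχ : χ.IsPrimitive) {T : ℝ}
    (hT : 0 < T) :
    (∑ᶠ ρ ∈ {s : ℂ | 0 < s.re ∧ s.re < 1 ∧ T < s.im ∧ s.im ≤ 2 * T ∧ LFunction χ s = 0},
      ((analyticOrderAt (LFunction χ) ρ).toNat : ℝ)) = ∑ z ∈ ZF χ T, (nn χ z : ℝ) := by
  obtain ⟨Z, hZ, e1, -⟩ := target_sets χ hχ hT
  rw [ZF_eq hZ, e1]

lemma count_distinct {d : ℕ} [NeZero d] {χ : DirichletCharacter ℂ d} (hχ : χ.IsPrimitive)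
    {T : ℝ} (hT : 0 < T) :
    {s : ℂ | 0 < s.re ∧ s.re < 1 ∧ T < s.im ∧ s.im ≤ 2 * T ∧ LFunction χ s = 0}.ncard
      = (ZF χ T).card := by
  obtain ⟨Z, hZ, -, e2⟩ := target_sets χ hχ hT
  rw [ZF_eq hZ, e2]

lemma count_simple {d : ℕ} [NeZero d] {χ : DirichletCharacter ℂ d} (hχ : χ.IsPrimitive)
    {T : ℝ} (hT : 0 < T) :
    {s : ℂ | s.re = 1 / 2 ∧ T < s.im ∧ s.im ≤ 2 * T ∧ analyticOrderAt (LFunction χ) s = 1}.ncard
      = ((ZF χ T).filter fun z => z.im = 0 ∧ nn χ z = 1).card := by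
  have hZ := mem_ZF hχ hT
  have hS : {s : ℂ | s.re = 1 / 2 ∧ T < s.im ∧ s.im ≤ 2 * T ∧ analyticOrderAt (LFunction χ) s = 1}
      = ((((ZF χ T).filter fun z => z.im = 0 ∧ nn χ z = 1).image sOf : Finset ℂ) : Set ℂ) := by
    ext s
    simp only [Set.mem_ofPred_eq, Finset.coe_image, Set.mem_image, Finset.mem_coe,
      Finset.mem_filter, hZ]
    constructor
    · rintro ⟨h1, h3, h4, h5⟩
      have hs : sOf ((s - 1 / 2) / I) = s := by unfold sOf; field_simp; ring
      have hre := sOf_re ((s - 1 / 2) / I)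
      have him := sOf_im ((s - 1 / 2) / I)
      rw [hs] at hre him
      have ho := order_Xi_eq χ (z := (s - 1 / 2) / I) (by linarith) (by linarith)
      rw [hs, h5] at ho
      refine ⟨(s - 1 / 2) / I, ⟨⟨by linarith, by linarith, ?_⟩, by linarith, ?_⟩, hs⟩
      · by_contra h
        rw [(analyticOnNhd_Xi χ _ (show 0 < ((s - 1 / 2) / I).re by
          linarith)).analyticOrderAt_eq_zero.2 h] at ho
        exact zero_ne_one ho
      · unfold nn
        rw [ho]; rfl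
    · rintro ⟨z, ⟨⟨h1, h2, -⟩, h4, h5⟩, rfl⟩
      simp only [sOf_re, sOf_im]
      refine ⟨by linarith, h1, h2, ?_⟩
      rw [← order_Xi_eq χ (by linarith) (hT.trans h1)]
      unfold nn at h5
      have := ENat.natCast_toNat (order_Xi_ne_top χ (hT.trans h1))
      rw [← this, h5]; rfl
  rw [hS, Set.ncard_coe_finset, Finset.card_image_of_injective _ sOf_injective]

end Pool.Agent.MP_f259ea_nt.Q
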