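import Pool.Agent.MP_f259ea_nt.A_Main
import Pool.Agent.MP_f259ea_nt.B_Defs

/-!
Conductor aspect: definitions and statements of the lemmas.

Family: all primitive characters of modulus `Q₁ < d ≤ Q`.  The sieve part bounds the mean square
of `∑ a n χ n` over the family with the sharp constant, for length `N ≤ Q ^ (2 - δ)`.
-/

set_option autoImplicit false

open Complex MeasureTheory Finset
open scoped Real ComplexConjugate Classical ArithmeticFunction.Moebius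
  ArithmeticFunction.vonMangoldt Nat

namespace Pool.Agent.MP_f259ea_nt.Q

/-! ### Sieve part: definitions -/

/-- `e(x) = exp (2 π i x)`. -/
noncomputable def ee (x : ℝ) : ℂ := Complex.exp (2 * π * I * x)

/-- Distance to the nearest integer. -/
noncomputable def dZ (x : ℝ) : ℝ := |x - round x|

/-- The exponential sum `∑_{1 ≤ n ≤ N} a n e(n θ)`. -/
noncomputable def Sx (N : ℕ) (a : ℕ → ℂ) (θ : ℝ) : ℂ := ∑ n ∈ Icc 1 N, a n * ee (n * θ)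

/-- The squared norm `∑_{1 ≤ n ≤ N} |a n|²`. -/
noncomputable def nrm (N : ℕ) (a : ℕ → ℂ) : ℝ := ∑ n ∈ Icc 1 N, ‖a n‖ ^ 2

/-- Reduced residues modulo `q`. -/
def red (q : ℕ) : Finset ℕ := (range q).filter fun b => Nat.Coprime b q

/-- Primitive characters modulo `d`. -/
noncomputable def prim (d : ℕ) : Finset (DirichletCharacter ℂ d) :=
  Finset.univ.filter fun χ => χ.IsPrimitive

/-- Sum over primitive characters modulo `d`. -/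
noncomputable def Ad (d N : ℕ) (a : ℕ → ℂ) : ℝ :=
  ∑ χ ∈ prim d, ‖∑ n ∈ Icc 1 N, a n * χ (n : ZMod d)‖ ^ 2

/-- Sum over reduced fractions with denominator `q`, shifted by `β`. -/
noncomputable def Bq (q N : ℕ) (a : ℕ → ℂ) (β : ℝ) : ℝ :=
  ∑ b ∈ red q, ‖Sx N a ((b : ℝ) / q + β)‖ ^ 2

/-- The mean square over the family. -/
noncomputable def famSum (Q₁ Q N : ℕ) (a : ℕ → ℂ) : ℝ := ∑ d ∈ Ioc Q₁ Q, Ad d N a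

/-- The size of the family. -/
noncomputable def famCard (Q₁ Q : ℕ) : ℝ := ∑ d ∈ Ioc Q₁ Q, ((prim d).card : ℝ)

/-- Number of primitive characters modulo `d`, as an arithmetic sum. -/
noncomputable def phiS (d : ℕ) : ℝ := ∑ e ∈ d.divisors, (μ (d / e) : ℝ) * (φ e : ℝ)

/-- Coefficient of `Bq q` in `Ad d`. -/
noncomputable def cc (q d : ℕ) : ℝ :=
  ∑ e ∈ d.divisors with q ∣ e, (μ (d / e) : ℝ) * ((φ e : ℝ) / e)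

/-- Coefficient of `Ad d` in `Bq k`. -/
noncomputable def uu (d k : ℕ) : ℝ :=
  ∑ e ∈ k.divisors with d ∣ e, (μ (k / e) : ℝ) * ((e : ℝ) / φ e)

/-- Coefficient of `Bq q` in `famSum`. -/
noncomputable def cq (Q₁ Q q : ℕ) : ℝ := ∑ d ∈ Ioc Q₁ Q with q ∣ d, cc q d

/-- Number of reduced fractions `b / q` whose distance to `θ` modulo one lies in `s`. -/
noncomputable def nS (q : ℕ) (s : Set ℝ) (θ : ℝ) : ℕ :=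
  ((red q).filter fun b : ℕ => dZ (θ - (b : ℝ) / q) ∈ s).card

/-- Number of reduced fractions `b / q` within `η` of `θ` modulo one. -/
noncomputable def nB (q : ℕ) (η θ : ℝ) : ℕ := nS q (Set.Iic η) θ

/-- Number of integers `b` with `|b - θ e| ≤ η e`. -/
noncomputable def cnt (θ η : ℝ) (e : ℕ) : ℕ := (Icc ⌈(θ - η) * e⌉ ⌊(θ + η) * e⌋).card

/-- The support of `a` is coprime to `k`. -/
def CopTo (N : ℕ) (a : ℕ → ℂ) (k : ℕ) : Prop := ∀ n ∈ Icc 1 N, a n ≠ 0 → Nat.Coprime n k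

/-- The support of `a` is coprime to all `k ≤ Q`. -/
def Cop (N Q : ℕ) (a : ℕ → ℂ) : Prop := ∀ k ∈ Icc 1 Q, CopTo N a k

/-! ### Sieve part: statements -/

/-- Bounds for the arithmetic coefficients. -/
def StmtArith : Prop :=
  (∀ q d : ℕ, 1 ≤ d → q ∣ d → |cc q d| ≤ (q : ℝ) / d) ∧
  (∀ d k : ℕ, 1 ≤ k → d ∣ k → 0 ≤ uu d k ∧ uu d k ≤ (d : ℝ) / φ k) ∧
  (∀ (d : ℕ) (R X : ℝ), 1 ≤ d → 1 ≤ R → d * R ≤ X →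
    Real.log R ≤ ∑ k ∈ Icc 1 ⌊X⌋₊ with d ∣ k, uu d k) ∧
  (∀ k : ℕ, 1 ≤ k → ((k : ℝ) / φ k) ^ 2 ≤ 16 * (1 + Real.log k))

/-- Orthogonality over primitive characters of moduli dividing `e`, and consequences. -/
def StmtOrth : Prop :=
  (∀ e m n : ℕ, 1 ≤ e → Nat.Coprime m e → Nat.Coprime n e →
    ∑ d ∈ e.divisors, ∑ χ ∈ prim d, χ (m : ZMod d) * conj (χ (n : ZMod d))
      = if m ≡ n [MOD e] then (φ e : ℂ) else 0) ∧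
  (∀ d : ℕ, 1 ≤ d → ((prim d).card : ℝ) = phiS d ∧ (prim d).card ≤ d) ∧
  (∀ (N : ℕ) (a : ℕ → ℂ), Ad 1 N a = ‖∑ n ∈ Icc 1 N, a n‖ ^ 2)

/-- Short sums: the diagonal dominates. -/
def StmtLS1 : Prop :=
  ∀ (Q₁ Q N : ℕ) (a : ℕ → ℂ),
    famSum Q₁ Q N a ≤ (famCard Q₁ Q + Q * N * (1 + Real.log N)) * nrm N a

/-- Grouping fractions `b / e` by their reduced form. -/
def StmtRed : Prop :=
  ∀ (G : ℝ → ℝ) (e : ℕ), 1 ≤ e →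
    ∑ b ∈ range e, G ((b : ℝ) / e) = ∑ q ∈ e.divisors, ∑ b ∈ red q, G ((b : ℝ) / q)

/-- Passing between multiplicative and additive characters. -/
def StmtChar : Prop :=
  (∀ (d N : ℕ) (a : ℕ → ℂ), 1 ≤ d → CopTo N a d →
    Ad d N a = ∑ q ∈ d.divisors, cc q d * Bq q N a 0) ∧
  (∀ (k N : ℕ) (a : ℕ → ℂ) (β : ℝ), 1 ≤ k → CopTo N a k →
    Bq k N a β = ∑ d ∈ k.divisors, uu d k * Ad d N fun n => a n * ee (n * β))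

/-- Gauss sums: primitive characters against reduced fractions, for arbitrary `a`. -/
def StmtGauss : Prop := ∀ (d N : ℕ) (a : ℕ → ℂ), 1 ≤ d → Ad d N a ≤ Bq d N a 0

/-- Parseval and unfolding. -/
def StmtUnfold : Prop :=
  (∀ (N : ℕ) (a : ℕ → ℂ), Continuous (Sx N a) ∧ Function.Periodic (Sx N a) 1 ∧
    ∫ θ in (0 : ℝ)..1, ‖Sx N a θ‖ ^ 2 = nrm N a) ∧
  (∀ (k : ℕ) (s : Set ℝ) (G : ℝ → ℝ), MeasurableSet s → Continuous G → Function.Periodic G 1 →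
    IntervalIntegrable (fun θ => (nS k s θ : ℝ) * G θ) volume 0 1 ∧
    IntervalIntegrable (fun β => s.indicator (fun _ => (1 : ℝ)) |β|
      * ∑ b ∈ red k, G ((b : ℝ) / k + β)) volume (-(1 / 2)) (1 / 2) ∧
    ∫ θ in (0 : ℝ)..1, (nS k s θ : ℝ) * G θ
      = ∫ β in (-(1 / 2) : ℝ)..(1 / 2), s.indicator (fun _ => (1 : ℝ)) |β|
        * ∑ b ∈ red k, G ((b : ℝ) / k + β))

/-- Spacing of Farey fractions. -/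
def StmtArcs : Prop :=
  (∀ (Q : ℕ) (η θ : ℝ), 0 ≤ η → η < 1 / 2 →
    ∑ q ∈ Icc 1 Q, (nB q η θ : ℝ) ≤ 2 * η * (Q : ℝ) ^ 2 + 1) ∧
  (∀ (Q : ℕ) (η θ : ℝ) (a : ℤ) (k : ℕ), 0 ≤ η → 1 ≤ k → Q * (|k * θ - a| + k * η) < 1 →
    ∑ q ∈ Icc 1 Q, nB q η θ ≤ 1) ∧
  (∀ (Q M : ℕ) (η V θ : ℝ), 1 ≤ Q → 0 < η → 0 < V → 2 * V ^ 2 ≤ (Q : ℝ) ^ 2 * η →
    ∑ k ∈ Icc 1 M, nS k {x | Q * k * (x + η) < V} θ ≤ 1) ∧
  (∀ (θ : ℝ) (a : ℤ) (k : ℕ), 1 ≤ k → ∃ k' : ℕ, 1 ≤ k' ∧ k' ≤ k ∧ ∃ b ∈ red k',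
    k' * dZ (θ - (b : ℝ) / k') ≤ |k * θ - a|) ∧
  (∀ (θ : ℝ) (b k : ℕ), 1 ≤ k → ∃ a : ℤ, |k * θ - a| = k * dZ (θ - (b : ℝ) / k))

/-- Gallagher's inequality with signed weights. -/
def StmtGall : Prop :=
  ∀ (Q N : ℕ) (a : ℕ → ℂ) (η Cc : ℝ) (c : ℕ → ℝ), 0 < η → η < 1 / 2 → 0 ≤ Cc →
    (∀ q ∈ Icc 1 Q, |c q| ≤ Cc) →
    |∑ q ∈ Icc 1 Q, c q * Bq q N a 0
        - 1 / (2 * η) * ∫ θ in (0 : ℝ)..1, (∑ q ∈ Icc 1 Q, c q * nB q η θ) * ‖Sx N a θ‖ ^ 2|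
      ≤ Cc * (2 * η * (Q : ℝ) ^ 2 + 1) * (4 * π * N) * nrm N a

/-- The classical large sieve for primitive characters. -/
def StmtLS0 : Prop :=
  ∀ (Q₁ Q N : ℕ) (a : ℕ → ℂ), famSum Q₁ Q N a ≤ 15 * ((Q : ℝ) ^ 2 + N) * nrm N a

/-- Lattice points in a thin triangle. -/
def StmtTri : Prop :=
  ∀ (θ η X : ℝ) (a : ℤ) (k : ℕ), 0 < η → 0 < X → 1 ≤ k → IsCoprime a (k : ℤ) →
    |∑ e ∈ Icc 1 ⌊X⌋₊, (cnt θ η e : ℝ) - η * X ^ 2|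
      ≤ 10 * (X * (|k * θ - a| + k * η) + η * X ^ 2 / (X * (|k * θ - a| + k * η)))

/-- The signed density of fractions on the minor arcs. -/
def StmtMinor : Prop :=
  ∃ C : ℝ, 0 < C ∧ ∀ (Q₁ Q : ℕ) (η W θ : ℝ), 1 ≤ Q → Q₁ ≤ Q → 0 < η → η < 1 / 2 → 0 < W →
    (∀ (a : ℤ) (k : ℕ), 1 ≤ k → W ≤ Q * (|k * θ - a| + k * η)) →
    |∑ q ∈ Icc 1 Q, cq Q₁ Q q * nB q η θ - 2 * η * ∑ d ∈ Ioc Q₁ Q, phiS d|
      ≤ C * (1 + Real.log Q) ^ 2 * (Q * √η + η * Q + η * (Q : ℝ) ^ 2 / W)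

/-- Mass on the major arcs. -/
def StmtMajor : Prop :=
  ∀ (N Q : ℕ) (a : ℕ → ℂ) (h β₀ : ℝ), Cop N Q a → 0 ≤ h → 0 ≤ β₀ → β₀ ≤ 1 / 2 →
    Real.exp h ≤ Q →
    h * ∫ β in (-β₀)..β₀, ‖Sx N a β‖ ^ 2
      ≤ ∫ θ in (0 : ℝ)..1, (∑ k ∈ Icc 1 ⌊Real.exp h⌋₊, (nB k β₀ θ : ℝ)) * ‖Sx N a θ‖ ^ 2

/-- Mass on the intermediate arcs. -/
def StmtInter : Prop :=
  ∀ (N Q : ℕ) (a : ℕ → ℂ) (η W R : ℝ), Cop N Q a → 1 ≤ Q → 0 < η → 1 ≤ W → 1 < R →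
    8 * (W * R) ^ 2 ≤ (Q : ℝ) ^ 2 * η →
    ∫ θ in (0 : ℝ)..1, (∑ k ∈ Icc 1 Q,
        (nS k {x | 1 ≤ Q * k * (x + η) ∧ Q * k * (x + η) < W} θ : ℝ)) * ‖Sx N a θ‖ ^ 2
      ≤ 4 * √(1 + Real.log Q) * (1 + Real.log W) / Real.log R * nrm N a

/-- The asymptotic large sieve for rough support. -/
def StmtLS2 : Prop :=
  ∀ δ ε : ℝ, 0 < δ → 0 < ε → ∃ Q₀ : ℕ, ∀ Q ≥ Q₀, ∀ (Q₁ N : ℕ) (a : ℕ → ℂ) (h β₀ : ℝ),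
    Q₁ ≤ Q → (Q : ℝ) ≤ Q₁ * Real.log Q → (N : ℝ) ≤ (Q : ℝ) ^ (2 - δ) → Cop N Q a →
    0 ≤ h → 0 ≤ β₀ → (h = 0 ∨ 2 * Q * Real.exp h * (β₀ + 1 / N) ≤ 1) →
    famSum Q₁ Q N a ≤ famCard Q₁ Q * (nrm N a - h * ∫ β in (-β₀)..β₀, ‖Sx N a β‖ ^ 2)
      + ε * (Q : ℝ) ^ 2 * nrm N a

/-- Lower bound for the mass near `0` by comparison with a slowly varying sequence. -/
def StmtModel : Prop :=
  ∀ (N : ℕ) (a g : ℕ → ℂ) (β₀ : ℝ), 0 < β₀ → β₀ ≤ 1 / 2 → g 0 = 0 → g (N + 1) = 0 →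
    2 * (∑ n ∈ Icc 1 N, a n * conj (g n)).re - nrm N g
        - √(nrm N a) * √(∑ n ∈ range (N + 1), ‖g (n + 1) - g n‖ ^ 2) / (2 * β₀)
      ≤ ∫ β in (-β₀)..β₀, ‖Sx N a β‖ ^ 2

/-- There are many primitive characters. -/
def StmtCard : Prop := ∃ c : ℝ, 0 < c ∧ ∃ Q₀ : ℕ, ∀ Q ≥ Q₀, c * (Q : ℝ) ^ 2 ≤ famCard 0 Q

/-! ### Analytic part -/

/-- Estimates for `L(s, χ)` that are uniform in the modulus. -/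
def StmtUnif : Prop :=
  ∃ C : ℝ, 0 < C ∧ ∀ (N : ℕ) [NeZero N] (χ : DirichletCharacter ℂ N),
    (∀ t : ℝ, 3 ≤ t → ∃ t' ∈ Set.Icc t (t + 1), ∀ σ ∈ Set.Icc (1 / 2 : ℝ) 2,
      DirichletCharacter.LFunction χ (σ + t' * I) ≠ 0 ∧
      ‖logDeriv (DirichletCharacter.LFunction χ) (σ + t' * I)‖ ≤ C * Real.log (N * t) ^ 2) ∧
    (χ.IsPrimitive → ∀ t R : ℝ, 3 ≤ t → 0 ≤ R → ∀ Z : Finset ℂ,
      (∀ z ∈ Z, t ≤ z.re ∧ z.re ≤ t + R ∧ |z.im| < 1 / 2) →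
        ∑ z ∈ Z, (nn χ z : ℝ) ≤ C * (R + 1) * Real.log (N * (t + R + 1))) ∧
    (∀ t : ℝ, 2 ≤ t → ‖logDeriv (DirichletCharacter.gammaFactor χ) (1 / 2 + t * I)
      - ((Real.log t / 2 : ℝ) : ℂ)‖ ≤ C) ∧
    Btwo χ ≤ C

/-- Hypotheses on the Fourier transform of the weight. -/
structure GW (T : ℝ) (W : ℝ → ℂ) : Prop where
  cont : Continuous W
  symm : ∀ u, W (-u) = conj (W u)
  sq_int : Integrable fun u => ‖W u‖ ^ 2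
  sq_le : ∫ u, ‖W u‖ ^ 2 ≤ T
  gauss : ∀ u, ‖W u‖ ≤ T * Real.exp (-(π * u ^ 2))
  decay : ∀ u, |u| * ‖W u‖ ≤ 1
  lip : ∀ u v, ‖W u - W v‖ ≤ 20 * T ^ 2 * |u - v|

/-- Gaussian smoothing `w` of the indicator of `[A, B]`, with Fourier transform `W`. -/
def StmtWeightG : Prop :=
  ∃ C : ℝ, 0 < C ∧ ∀ T A B : ℝ, 1 ≤ T → T ≤ A → A ≤ B → B ≤ 2 * T →
    ∃ (w : ℂ → ℂ) (W : ℝ → ℂ),
      Differentiable ℂ w ∧ (∀ z, w (conj z) = conj (w z)) ∧ GW T W ∧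
      W 0 = ((B - A : ℝ) : ℂ) ∧
      (∀ v : ℝ, |v| ≤ 2 → Integrable (fun t : ℝ => w (t + v * I)) ∧
        ∀ u : ℝ, ∫ t : ℝ, w (t + v * I) * Complex.exp (2 * π * I * u * (t + v * I)) = W u) ∧
      (∀ z : ℂ, |z.im| ≤ 2 → ‖w z‖ ≤ C) ∧
      (∀ (z : ℂ) (D : ℝ), |z.im| ≤ 2 → 1 ≤ D → A + D ≤ z.re → z.re ≤ B - D →
        ‖w z - 1‖ ≤ C * Real.exp (-D ^ 2)) ∧
      (∀ (z : ℂ) (D : ℝ), |z.im| ≤ 2 → 1 ≤ D → (z.re ≤ A - D ∨ B + D ≤ z.re) →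
        ‖w z‖ ≤ C * Real.exp (-D ^ 2)) ∧
      (∀ v D : ℝ, |v| ≤ 2 → 1 ≤ D →
        ∫ t in (Set.Icc (A - D) (B + D))ᶜ, ‖w (t + v * I)‖ ≤ C * Real.exp (-D ^ 2))

/-- Length of the prime sums. -/
noncomputable def NN (δ : ℝ) (Q : ℕ) : ℕ := ⌊(Q : ℝ) ^ (2 - δ)⌋₊

/-- Length of the short part. -/
noncomputable def N1 (δ : ℝ) (Q : ℕ) : ℕ := ⌊(Q : ℝ) ^ (1 - δ)⌋₊

/-- The band width. -/
noncomputable def ell (δ : ℝ) (Q : ℕ) : ℝ := (2 - 2 * δ) * Real.log Q / (2 * π)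

/-- The splitting point between the short and the long range. -/
noncomputable def ust (δ : ℝ) (Q : ℕ) : ℝ := (1 - δ / 2) * Real.log Q / (2 * π)

/-- The gain from the major arcs. -/
noncomputable def hh (δ : ℝ) (Q : ℕ) (u : ℝ) : ℝ := max (2 * π * u - (1 + 3 * δ) * Real.log Q) 0

/-- The coefficient vector `Λ(n) n^{-1/2} W(u - log n / 2π)`. -/
noncomputable def av (W : ℝ → ℂ) (u : ℝ) (n : ℕ) : ℂ := ((Λ n / √n : ℝ) : ℂ) * W (u - un n)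

/-- Short part. -/
noncomputable def a1 (δ : ℝ) (Q : ℕ) (W : ℝ → ℂ) (u : ℝ) (n : ℕ) : ℂ :=
  if n ≤ N1 δ Q then av W u n else 0

/-- Large primes. -/
noncomputable def a2 (Q : ℕ) (W : ℝ → ℂ) (u : ℝ) (n : ℕ) : ℂ :=
  if n.Prime ∧ Q < n then av W u n else 0

/-- The rest. -/
noncomputable def a3 (δ : ℝ) (Q : ℕ) (W : ℝ → ℂ) (u : ℝ) (n : ℕ) : ℂ :=
  if n ≤ N1 δ Q ∨ (n.Prime ∧ Q < n) then 0 else av W u n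

/-- The slowly varying model sequence. -/
noncomputable def gv (δ : ℝ) (Q : ℕ) (W : ℝ → ℂ) (u : ℝ) (n : ℕ) : ℂ :=
  if Q < n ∧ n ≤ NN δ Q then ((1 / √n : ℝ) : ℂ) * W (u - un n) else 0

/-- The main term of the major arc mass. -/
noncomputable def gain (δ : ℝ) (Q : ℕ) (W : ℝ → ℂ) (u : ℝ) : ℝ :=
  2 * (∑ n ∈ Icc 1 (NN δ Q), a2 Q W u n * conj (gv δ Q W u n)).re - nrm (NN δ Q) (gv δ Q W u)

/-- The arithmetic side of the explicit formula. -/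
noncomputable def Sch {d : ℕ} (χ : DirichletCharacter ℂ d) (W : ℝ → ℂ) (L u : ℝ) : ℂ :=
  L * W u - Psum χ W u - conj (Psum χ W (-u))

/-- The pair-correlation functional for band width two. -/
noncomputable def J2 (K : ℝ → ℝ) : ℝ := K 0 / 2 + ∫ a in (-1 : ℝ)..1, K a * min (2 * |a|) 1

/-- Continuity, value at zero and truncation of the prime sum. -/
def StmtTail : Prop :=
  (∀ (T : ℝ) (W : ℝ → ℂ), GW T W → ∀ (d : ℕ) (χ : DirichletCharacter ℂ d),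
    Continuous (Psum χ W)) ∧
  (∃ C : ℝ, 0 < C ∧ ∀ (T : ℝ) (W : ℝ → ℂ), GW T W → ∀ (d : ℕ) (χ : DirichletCharacter ℂ d),
    ‖Psum χ W 0‖ ≤ C * T) ∧
  (∀ δ : ℝ, 0 < δ → δ ≤ 1 / 2 → ∃ Q₀ : ℕ, ∀ Q ≥ Q₀, ∀ (T : ℝ) (W : ℝ → ℂ), T ≤ Q → GW T W →
    ∀ (d : ℕ) (χ : DirichletCharacter ℂ d) (u : ℝ), u ≤ ell δ Q →
      ‖Psum χ W u - ∑ n ∈ Icc 1 (NN δ Q), av W u n * χ (n : ZMod d)‖ ≤ 1)

/-- Mertens-type estimates. -/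
def StmtMert2 : Prop :=
  (∀ f : ℝ → ℝ, Continuous f → (∀ a, 0 ≤ f a) → ∀ ε : ℝ, 0 < ε → ∃ Y₀ : ℝ, ∀ Y : ℝ, Y₀ ≤ Y →
    Y * ((∫ a in (0 : ℝ)..1, f a) - ε)
      ≤ ∑ p ∈ Icc 1 ⌊Real.exp Y⌋₊ with p.Prime, Real.log p / p * f (Real.log p / Y) ∧
    ∑ n ∈ Icc 1 ⌊Real.exp Y⌋₊, 1 / (n : ℝ) * f (Real.log n / Y)
      ≤ Y * ((∫ a in (0 : ℝ)..1, f a) + ε)) ∧
  (∃ C : ℝ, 0 < C ∧ ∀ X : ℕ, ∑ n ∈ Icc 1 X with ¬ n.Prime, Λ n / (n : ℝ) ≤ C)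

/-- Localisation of the weight. -/
def StmtShift : Prop :=
  ∀ f : ℝ → ℝ, Continuous f → HasCompactSupport f → ∀ ε : ℝ, 0 < ε → ∃ T₀ : ℝ,
    ∀ (T ℓ c : ℝ) (W : ℝ → ℂ), T₀ ≤ T → T₀ ≤ ℓ → GW T W →
      Integrable (fun u => f (u / ℓ) * ‖W (u - c)‖ ^ 2) ∧
      |(∫ u, f (u / ℓ) * ‖W (u - c)‖ ^ 2) - f (c / ℓ) * ∫ u, ‖W u‖ ^ 2| ≤ ε * T

/-- The diagonal main term. -/
def StmtDiag : Prop :=
  ∀ K : ℝ → ℝ, Continuous K → (∀ a, 0 ≤ K a) → (∀ a, 1 ≤ |a| → K a = 0) → ∀ ε : ℝ, 0 < ε →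
    ∃ δ₀ : ℝ, 0 < δ₀ ∧ ∀ δ : ℝ, 0 < δ → δ ≤ δ₀ → ∃ Q₀ : ℕ, ∀ Q ≥ Q₀, ∀ (T : ℝ) (W : ℝ → ℂ),
      Real.log Q ≤ T → GW T W →
      ∫ u in (0 : ℝ)..(ell δ Q), (K (u / ell δ Q) + K (-(u / ell δ Q))) *
          (Real.log Q ^ 2 * ‖W u‖ ^ 2 + nrm (NN δ Q) (a1 δ Q W u) + nrm (NN δ Q) (a2 Q W u)
            - hh δ Q u * gain δ Q W u)
        ≤ ell δ Q * (2 * π * T * Real.log Q * (J2 K + ε))

/-- The terms away from their main ranges are small. -/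
def StmtBad : Prop :=
  ∃ C : ℝ, 0 < C ∧ ∀ δ : ℝ, 0 < δ → δ ≤ 1 / 2 → ∃ Q₀ : ℕ, ∀ Q ≥ Q₀, ∀ (T : ℝ) (W : ℝ → ℂ),
    Real.log Q ≤ T → GW T W →
    (∫ u in (1 / 20 : ℝ)..(ell δ Q), Real.log Q ^ 2 * ‖W u‖ ^ 2)
      + (∫ u in (0 : ℝ)..(1 / 20), nrm (NN δ Q) (a1 δ Q W u))
      + (∫ u in (ust δ Q)..(ell δ Q), nrm (NN δ Q) (a1 δ Q W u))
      + (∫ u in (0 : ℝ)..(ust δ Q), nrm (NN δ Q) (a2 Q W u))
      + (∫ u in (0 : ℝ)..(ell δ Q), nrm (NN δ Q) (a3 δ Q W u))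
      + (∫ u in (0 : ℝ)..(ell δ Q), nrm (NN δ Q) (av W (-u)))
      ≤ C * δ * T * Real.log Q ^ 2 ∧
    ∫ u in (0 : ℝ)..(ell δ Q), nrm (NN δ Q) (av W u) ≤ C * T * Real.log Q ^ 2

/-- The family bound for the large primes. -/
def StmtGain : Prop :=
  ∀ δ ε : ℝ, 0 < δ → δ ≤ 1 / 4 → 0 < ε → ∃ Q₀ : ℕ, ∀ Q ≥ Q₀, ∀ (T : ℝ) (W : ℝ → ℂ) (Q₁ : ℕ),
    T ≤ (Q : ℝ) ^ (δ / 4) → GW T W → Q₁ ≤ Q → (Q : ℝ) ≤ Q₁ * Real.log Q →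
    ∀ u : ℝ, u ≤ ell δ Q →
      famSum Q₁ Q (NN δ Q) (a2 Q W u)
        ≤ famCard Q₁ Q * (nrm (NN δ Q) (a2 Q W u) - hh δ Q u * gain δ Q W u + 1)
          + ε * (Q : ℝ) ^ 2 * nrm (NN δ Q) (a2 Q W u)

/-- The mean square of the arithmetic side over the family. -/
def StmtPrime : Prop :=
  ∀ K : ℝ → ℝ, Continuous K → (∀ a, 0 ≤ K a) → (∀ a, 1 ≤ |a| → K a = 0) → ∀ ε : ℝ, 0 < ε →
    ∃ δ : ℝ, 0 < δ ∧ δ ≤ 1 / 4 ∧ ∃ Q₀ : ℕ, ∀ Q ≥ Q₀, ∀ (T : ℝ) (W : ℝ → ℂ) (Q₁ : ℕ),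
      Real.log Q ≤ T → T ≤ (Q : ℝ) ^ (δ / 4) → GW T W → Q₁ ≤ Q → (Q : ℝ) ≤ Q₁ * Real.log Q →
      ∑ d ∈ Ioc Q₁ Q, ∑ χ ∈ prim d,
          ∫ s in (-1 : ℝ)..1, K s * ‖Sch χ W (Real.log Q) (s * ell δ Q)‖ ^ 2
        ≤ 2 * π * T * Real.log Q * (J2 K + ε) * famCard Q₁ Q
          + ε * (Q : ℝ) ^ 2 * T * Real.log Q

/-- The analysis for one character of the family. -/
def StmtPerChi : Prop :=
  ∀ K : ℝ → ℝ, Continuous K → (∀ a, 0 ≤ K a) → ∀ ε : ℝ, 0 < ε →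
    ∃ θ : ℝ, 0 < θ ∧ ∃ Q₀ : ℕ, ∀ Q ≥ Q₀, ∀ T : ℝ, Real.log Q ≤ T → T ≤ (Q : ℝ) ^ θ →
      ∃ (w : ℂ → ℂ) (W : ℝ → ℂ), GW T W ∧ (∀ z, w (conj z) = conj (w z)) ∧
        ∀ ℓ : ℝ, Real.log Q / (2 * π) ≤ ℓ → ℓ ≤ Real.log Q / π →
        ∀ (d : ℕ) [NeZero d] (χ : DirichletCharacter ℂ d), χ.IsPrimitive →
          (Q : ℝ) ≤ d * Real.log Q → d ≤ Q →
          ∀ Z : Finset ℂ, (∀ z, z ∈ Z ↔ T < z.re ∧ z.re ≤ 2 * T ∧ Xi χ z = 0) →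
            ∃ Zi Zt : Finset ℂ, Zi ⊆ Z ∧ Zt ⊆ Z ∧ (∀ z ∈ Zi, conj z ∈ Zi) ∧
              (∀ z ∈ Zt, conj z ∈ Zt) ∧
              (4 * π ^ 2 * ∫ s in (-1 : ℝ)..1, K s * ‖nu χ w Zi Zt (s * ℓ)‖ ^ 2
                ≤ (1 + ε) * (∫ s in (-1 : ℝ)..1, K s * ‖Sch χ W (Real.log Q) (s * ℓ)‖ ^ 2)
                  + ε * T * Real.log Q) ∧
              (1 - ε) * (T * Real.log Q / (2 * π)) ≤ ∑ z ∈ Zi, (nn χ z : ℝ) ∧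
              ∑ z ∈ Z, (nn χ z : ℝ)
                ≤ ∑ z ∈ Zi, (nn χ z : ℝ) + ε * (T * Real.log Q / (2 * π)) ∧
              1 + ∑ z ∈ Zt, (1 + ‖(nn χ z : ℂ) * w z‖) ≤ ε * (T * Real.log Q / (2 * π))

/-- The finite inequality for simple real points. -/
def StmtS (K : ℝ → ℝ) : Prop :=
  ∃ C : ℝ, ∀ (Z₀ Z₁ : Finset ℂ) (m : ℂ → ℕ) (c : ℂ → ℂ),
    (∀ x ∈ Z₀, conj x ∈ Z₀ ∧ m (conj x) = m x ∧ 1 ≤ m x) →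
    (∀ x ∈ Z₁, conj x ∈ Z₁ ∧ c (conj x) = conj (c x)) →
    2 * (∑ x ∈ Z₀, (m x : ℝ)) - ((Z₀.filter fun x => x.im = 0 ∧ m x = 1).card : ℝ)
        - C * (1 + ∑ x ∈ Z₁, (1 + ‖c x‖))
      ≤ ∫ a in (-1 : ℝ)..1, K a * ‖mu Z₀ (fun x => (m x : ℂ)) a + mu Z₁ c a‖ ^ 2

/-- The finite inequality holds for data without multipliers. -/
def StmtSMain : Prop := ∀ d : BData, d.Good → d.J = 0 → StmtS d.K

end Pool.Agent.MP_f259ea_nt.Q
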