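import Pool.Agent.MP_f259ea_nt.Q_Defs

/-!
Conductor aspect: the diagonal main term.
-/

set_option autoImplicit false

open Complex MeasureTheory Finset
open scoped Real ComplexConjugate Classical ArithmeticFunction.Moebius
  ArithmeticFunction.vonMangoldt Nat

namespace Pool.Agent.MP_f259ea_nt.Q

namespace QDiag

lemma int_le_full {g : ℝ → ℝ} (hg : Integrable g) (h0 : ∀ u, 0 ≤ g u) {x y : ℝ} (hxy : x ≤ y) :
    ∫ u in x..y, g u ≤ ∫ u, g u := by
  rw [intervalIntegral.integral_of_le hxy]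
  exact setIntegral_le_integral hg (Filter.Eventually.of_forall h0)

lemma int_half {g : ℝ → ℝ} (hg : Integrable g) (h0 : ∀ u, 0 ≤ g u) (he : ∀ u, g (-u) = g u)
    {y : ℝ} (hy : 0 ≤ y) : 2 * ∫ u in (0 : ℝ)..y, g u ≤ ∫ u, g u := by
  have h1 := int_le_full hg h0 (show -y ≤ y by linarith)
  have h2 := intervalIntegral.integral_add_adjacent_intervals
    (hg.intervalIntegrable (a := -y) (b := 0)) (hg.intervalIntegrable (a := 0) (b := y))
  have h3 : ∫ u in (-y)..0, g u = ∫ u in (0 : ℝ)..y, g u := by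
    have := intervalIntegral.integral_comp_neg (a := 0) (b := y) g
    simp only [he, neg_zero] at this
    exact this.symm
  linarith

/-- The even kernel. -/
noncomputable def Kt (K : ℝ → ℝ) (a : ℝ) : ℝ := K a + K (-a)

/-- The kernel of the gain. -/
noncomputable def Hf (K : ℝ → ℝ) (b a : ℝ) : ℝ := Kt K a * max (a - b) 0

noncomputable def cA (δ : ℝ) (Q n : ℕ) : ℝ :=
  (if n ≤ N1 δ Q then Λ n ^ 2 / n else 0) + (if n.Prime ∧ Q < n then Λ n ^ 2 / n else 0)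

noncomputable def cB (Q n : ℕ) : ℝ := if n.Prime ∧ Q < n then Real.log n / n else 0

noncomputable def cC (Q n : ℕ) : ℝ := if Q < n then 1 / n else 0

variable {K : ℝ → ℝ}

lemma Kt_cont (hK : Continuous K) : Continuous (Kt K) := by unfold Kt; fun_prop

lemma Hf_cont (hK : Continuous K) (b : ℝ) : Continuous (Hf K b) := by
  have := Kt_cont hK
  unfold Hf; fun_prop

lemma Kt_nonneg (h0 : ∀ a, 0 ≤ K a) (a : ℝ) : 0 ≤ Kt K a := add_nonneg (h0 _) (h0 _)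

lemma Hf_nonneg (h0 : ∀ a, 0 ≤ K a) (b a : ℝ) : 0 ≤ Hf K b a :=
  mul_nonneg (Kt_nonneg h0 a) (le_max_right _ _)

lemma Kt_zero (h1 : ∀ a, 1 ≤ |a| → K a = 0) {a : ℝ} (ha : 1 ≤ |a|) : Kt K a = 0 := by
  rw [Kt, h1 a ha, h1 (-a) (by rwa [abs_neg]), add_zero]

lemma Hf_zero (h1 : ∀ a, 1 ≤ |a| → K a = 0) (b : ℝ) {a : ℝ} (ha : 1 ≤ |a|) : Hf K b a = 0 := by
  rw [Hf, Kt_zero h1 ha, zero_mul]

lemma Hf_zero' {b a : ℝ} (ha : a ≤ b) : Hf K b a = 0 := by
  rw [Hf, max_eq_right (by linarith), mul_zero]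

lemma supp {f : ℝ → ℝ} (h : ∀ a, 1 ≤ |a| → f a = 0) : HasCompactSupport f := by
  refine HasCompactSupport.intro (isCompact_Icc (a := -1) (b := 1)) fun x hx => h x ?_
  by_contra h2
  have h3 := abs_lt.1 (not_le.1 h2)
  exact hx ⟨h3.1.le, h3.2.le⟩

lemma norm_av (W : ℝ → ℂ) (u : ℝ) (n : ℕ) :
    ‖av W u n‖ ^ 2 = Λ n ^ 2 / n * ‖W (u - un n)‖ ^ 2 := by
  rw [av, norm_mul, mul_pow, Complex.norm_real, Real.norm_eq_abs, sq_abs, div_pow,
    Real.sq_sqrt n.cast_nonneg]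

lemma nrm12 (δ : ℝ) (Q N : ℕ) (W : ℝ → ℂ) (u : ℝ) :
    nrm N (a1 δ Q W u) + nrm N (a2 Q W u)
      = ∑ n ∈ Icc 1 N, cA δ Q n * ‖W (u - un n)‖ ^ 2 := by
  rw [nrm, nrm, ← Finset.sum_add_distrib]
  refine Finset.sum_congr rfl fun n _ => ?_
  rw [cA, add_mul, a1, a2]
  congr 1
  · split_ifs
    · exact norm_av _ _ _
    · simp
  · split_ifs
    · exact norm_av _ _ _
    · simp

lemma gain_eq (δ : ℝ) (Q : ℕ) (W : ℝ → ℂ) (u : ℝ) :
    gain δ Q W u = ∑ n ∈ Icc 1 (NN δ Q), (2 * cB Q n - cC Q n) * ‖W (u - un n)‖ ^ 2 := by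
  rw [gain, nrm, Complex.re_sum, Finset.mul_sum, ← Finset.sum_sub_distrib]
  refine Finset.sum_congr rfl fun n hn => ?_
  rw [Finset.mem_Icc] at hn
  have hn0 : (0 : ℝ) < n := by exact_mod_cast hn.1
  have hs : √(n : ℝ) * √(n : ℝ) = n := Real.mul_self_sqrt hn0.le
  have hs0 : √(n : ℝ) ≠ 0 := (Real.sqrt_pos.2 hn0).ne'
  rw [sub_mul, mul_assoc]
  congr 1
  · congr 1
    rw [a2, cB]
    split_ifs with h
    · rw [gv, if_pos ⟨h.2, hn.2⟩, av, map_mul, Complex.conj_ofReal, mul_mul_mul_comm,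
        Complex.mul_conj, ← Complex.ofReal_mul, ← Complex.ofReal_mul, Complex.ofReal_re,
        Complex.normSq_eq_norm_sq, ArithmeticFunction.vonMangoldt_apply_prime h.1,
        div_mul_div_comm, hs, mul_one]
    · simp
  · rw [gv, cC]
    by_cases h : Q < n
    · rw [if_pos ⟨h, hn.2⟩, if_pos h, norm_mul, mul_pow, Complex.norm_real, Real.norm_eq_abs,
        sq_abs, div_pow, Real.sq_sqrt hn0.le, one_pow]
    · rw [if_neg (fun h' => h h'.1), if_neg h]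
      simp

lemma bound_int (h0 : ∀ a, 0 ≤ K a) (h1 : ∀ a, 1 ≤ |a| → K a = 0) {b ℓ m E L2 Y : ℝ}
    (hb : 0 ≤ b) (hℓ : 0 < ℓ) (hE : 0 ≤ E) (hL : 0 ≤ L2) (hY : 0 ≤ Y) {W : ℝ → ℂ}
    (hW : ∀ u, W (-u) = conj (W u))
    (k1 : ∀ c, Integrable (fun u => Kt K (u / ℓ) * ‖W (u - c)‖ ^ 2) ∧
      |(∫ u, Kt K (u / ℓ) * ‖W (u - c)‖ ^ 2) - Kt K (c / ℓ) * m| ≤ E)
    (k2 : ∀ c, Integrable (fun u => Hf K b (u / ℓ) * ‖W (u - c)‖ ^ 2) ∧
      |(∫ u, Hf K b (u / ℓ) * ‖W (u - c)‖ ^ 2) - Hf K b (c / ℓ) * m| ≤ E)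
    (s : Finset ℕ) (A B C c : ℕ → ℝ) (hA : ∀ n, 0 ≤ A n) (hB : ∀ n, 0 ≤ B n) (hC : ∀ n, 0 ≤ C n) :
    ∫ u in (0 : ℝ)..ℓ, (L2 * (Kt K (u / ℓ) * ‖W (u - 0)‖ ^ 2)
        + ∑ n ∈ s, (A n * (Kt K (u / ℓ) * ‖W (u - c n)‖ ^ 2)
          + Y * (C n - 2 * B n) * (Hf K b (u / ℓ) * ‖W (u - c n)‖ ^ 2)))
      ≤ m * (L2 * K 0 + ∑ n ∈ s, (A n * Kt K (c n / ℓ) + Y * (C n - 2 * B n) * Hf K b (c n / ℓ)))
        + E * (L2 + ∑ n ∈ s, (A n + Y * (C n + 2 * B n))) := by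
  have i1 : ∀ c, IntervalIntegrable (fun u => Kt K (u / ℓ) * ‖W (u - c)‖ ^ 2) volume 0 ℓ :=
    fun c => (k1 c).1.intervalIntegrable
  have i2 : ∀ c, IntervalIntegrable (fun u => Hf K b (u / ℓ) * ‖W (u - c)‖ ^ 2) volume 0 ℓ :=
    fun c => (k2 c).1.intervalIntegrable
  have i3 : ∀ n ∈ s, IntervalIntegrable (fun u => A n * (Kt K (u / ℓ) * ‖W (u - c n)‖ ^ 2)
      + Y * (C n - 2 * B n) * (Hf K b (u / ℓ) * ‖W (u - c n)‖ ^ 2)) volume 0 ℓ :=
    fun n _ => ((i1 _).const_mul _).add ((i2 _).const_mul _)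
  have i4 : IntervalIntegrable (fun u => ∑ n ∈ s, (A n * (Kt K (u / ℓ) * ‖W (u - c n)‖ ^ 2)
      + Y * (C n - 2 * B n) * (Hf K b (u / ℓ) * ‖W (u - c n)‖ ^ 2))) volume 0 ℓ := by
    have := IntervalIntegrable.sum s i3
    refine this.congr fun u _ => ?_
    simp only [Finset.sum_apply]
  rw [intervalIntegral.integral_add ((i1 0).const_mul _) i4,
    intervalIntegral.integral_finsetSum i3, intervalIntegral.integral_const_mul]
  have p1 : ∀ c u, 0 ≤ Kt K (u / ℓ) * ‖W (u - c)‖ ^ 2 := fun c u =>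
    mul_nonneg (Kt_nonneg h0 _) (sq_nonneg _)
  have b0 : ∫ u in (0 : ℝ)..ℓ, Kt K (u / ℓ) * ‖W (u - 0)‖ ^ 2 ≤ m * K 0 + E := by
    have e1 := int_half (k1 0).1 (p1 0) (fun u => by
      rw [sub_zero, sub_zero, hW, Complex.norm_conj, neg_div, Kt, Kt, neg_neg, add_comm]) hℓ.le
    have e2 := (abs_le.1 (k1 0).2).2
    rw [zero_div, Kt, neg_zero] at e2
    linarith
  have b1 : ∀ c, ∫ u in (0 : ℝ)..ℓ, Kt K (u / ℓ) * ‖W (u - c)‖ ^ 2 ≤ Kt K (c / ℓ) * m + E :=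
    fun c => by
      have e1 := int_le_full (k1 c).1 (p1 c) hℓ.le
      have e2 := (abs_le.1 (k1 c).2).2
      linarith
  have b2 : ∀ c, |(∫ u in (0 : ℝ)..ℓ, Hf K b (u / ℓ) * ‖W (u - c)‖ ^ 2) - Hf K b (c / ℓ) * m|
      ≤ E := fun c => by
    rw [intervalIntegral.integral_eq_integral_of_support_subset]
    · exact (k2 c).2
    · intro u hu
      by_contra hc
      apply hu
      rw [Set.mem_Ioc, not_and_or, not_lt, not_le] at hc
      rcases hc with hc | hc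
      · simp only []
        rw [Hf_zero' ((div_nonpos_of_nonpos_of_nonneg hc hℓ.le).trans hb), zero_mul]
      · simp only []
        rw [Hf_zero h1 b (le_trans ((one_le_div hℓ).2 hc.le) (le_abs_self _)), zero_mul]
  have b3 : ∑ n ∈ s, ∫ u in (0 : ℝ)..ℓ, (A n * (Kt K (u / ℓ) * ‖W (u - c n)‖ ^ 2)
      + Y * (C n - 2 * B n) * (Hf K b (u / ℓ) * ‖W (u - c n)‖ ^ 2))
      ≤ ∑ n ∈ s, (m * (A n * Kt K (c n / ℓ) + Y * (C n - 2 * B n) * Hf K b (c n / ℓ))
        + E * (A n + Y * (C n + 2 * B n))) := by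
    refine Finset.sum_le_sum fun n _ => ?_
    rw [intervalIntegral.integral_add ((i1 _).const_mul _) ((i2 _).const_mul _),
      intervalIntegral.integral_const_mul, intervalIntegral.integral_const_mul]
    have e1 := mul_le_mul_of_nonneg_left (b1 (c n)) (hA n)
    have e2 := abs_le.1 (b2 (c n))
    have e3 := mul_le_mul_of_nonneg_left e2.1 (mul_nonneg hY (hB n))
    have e4 := mul_le_mul_of_nonneg_left e2.2 (mul_nonneg hY (hC n))
    linarith
  rw [Finset.sum_add_distrib, ← Finset.mul_sum, ← Finset.mul_sum] at b3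
  have e1 := mul_le_mul_of_nonneg_left b0 hL
  linarith

lemma trunc_sum {f : ℝ → ℝ} (hf : ∀ a, 1 ≤ |a| → f a = 0) {Y : ℝ} (hY : 0 < Y) {N : ℕ}
    (hN : ⌊Real.exp Y⌋₊ ≤ N) (w : ℕ → ℝ) :
    ∑ n ∈ Icc 1 N, w n * f (Real.log n / Y)
      = ∑ n ∈ Icc 1 ⌊Real.exp Y⌋₊, w n * f (Real.log n / Y) := by
  refine (Finset.sum_subset (Finset.Icc_subset_Icc_right hN) fun n h1 h2 => ?_).symm
  rw [Finset.mem_Icc] at h1 h2
  have h3 : Real.exp Y < n := Nat.lt_of_floor_lt (by omega)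
  have h4 : Y < Real.log n := (Real.lt_log_iff_exp_lt ((Real.exp_pos _).trans h3)).2 h3
  rw [hf _ (le_trans ((one_le_div hY).2 h4.le) (le_abs_self _)), mul_zero]

lemma cA_nonneg (δ : ℝ) (Q n : ℕ) : 0 ≤ cA δ Q n := by
  unfold cA; split_ifs <;> positivity

lemma cB_nonneg (Q n : ℕ) : 0 ≤ cB Q n := by
  unfold cB; split_ifs <;> positivity

lemma cC_nonneg (Q n : ℕ) : 0 ≤ cC Q n := by
  unfold cC; split_ifs <;> positivity

lemma cA_le {δ : ℝ} {Q : ℕ} (h : N1 δ Q ≤ Q) (n : ℕ) : cA δ Q n ≤ Λ n ^ 2 / n := by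
  have h0 : 0 ≤ Λ n ^ 2 / (n : ℝ) := by positivity
  unfold cA
  split_ifs with h1 h2
  · omega
  all_goals linarith

lemma cB_le (Q n : ℕ) : cB Q n ≤ Λ n / n := by
  unfold cB
  split_ifs with h
  · rw [ArithmeticFunction.vonMangoldt_apply_prime h.1]
  · exact div_nonneg ArithmeticFunction.vonMangoldt_nonneg n.cast_nonneg

lemma cC_le (Q n : ℕ) : cC Q n ≤ 1 / n := by
  unfold cC
  split_ifs
  · exact le_rfl
  · positivity

lemma sums_le {δ Y : ℝ} {Q : ℕ} (hδ : 0 < δ) (hδ' : δ ≤ 1 / 2) (hQ : 1 ≤ Q)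
    (hL : 1 ≤ Real.log Q) (h : N1 δ Q ≤ Q) (hY : Y ≤ 2 * Real.log Q) :
    ∑ n ∈ Icc 1 (NN δ Q), (cA δ Q n + Y * (cC Q n + 2 * cB Q n)) ≤ 54 * Real.log Q ^ 2 := by
  have hQ1 : (1 : ℝ) ≤ Q := by exact_mod_cast hQ
  have hN : 1 ≤ NN δ Q := Nat.le_floor (by
    rw [Nat.cast_one]; exact Real.one_le_rpow hQ1 (by linarith))
  have h1 : ∀ n, 1 ≤ n → n ≤ NN δ Q → Real.log n ≤ 2 * Real.log Q := fun n hn h => by
    have h2 : Real.log n ≤ (2 - δ) * Real.log Q := by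
      rw [← Real.log_rpow (by linarith)]
      exact Real.log_le_log (by exact_mod_cast hn) ((Nat.le_floor_iff (by positivity)).1 h)
    nlinarith
  have h2 := (mertSum_bounds hN).2
  have h3 := h1 _ hN le_rfl
  have h4 : Real.log 4 ≤ 2 := by
    rw [show (4 : ℝ) = 2 ^ 2 by norm_num, Real.log_pow]
    have := Real.log_two_lt_d9
    push_cast; linarith
  have h5 := harmonic_le_one_add_log (NN δ Q)
  simp only [harmonic_eq_sum_Icc, Rat.cast_sum, Rat.cast_inv, Rat.cast_natCast] at h5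
  calc _ ≤ ∑ n ∈ Icc 1 (NN δ Q), (6 * Real.log Q * (Λ n / n) + 2 * Real.log Q * (n : ℝ)⁻¹) := by
        refine Finset.sum_le_sum fun n hn => ?_
        rw [Finset.mem_Icc] at hn
        have e1 : Λ n ≤ 2 * Real.log Q :=
          ArithmeticFunction.vonMangoldt_le_log.trans (h1 n hn.1 hn.2)
        have e2 : 0 ≤ Λ n / (n : ℝ) :=
          div_nonneg ArithmeticFunction.vonMangoldt_nonneg n.cast_nonneg
        have e3 : Λ n ^ 2 / (n : ℝ) ≤ 2 * Real.log Q * (Λ n / n) := by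
          calc Λ n ^ 2 / (n : ℝ) = Λ n * (Λ n / n) := by ring
            _ ≤ _ := mul_le_mul_of_nonneg_right e1 e2
        have e4 : Y * (cC Q n + 2 * cB Q n) ≤ 2 * Real.log Q * (1 / n + 2 * (Λ n / n)) :=
          mul_le_mul hY (by linarith [cC_le Q n, cB_le Q n])
            (by linarith [cC_nonneg Q n, cB_nonneg Q n]) (by linarith)
        rw [one_div] at e4
        linarith [cA_le h n]
    _ = 6 * Real.log Q * mertSum (NN δ Q)
        + 2 * Real.log Q * ∑ n ∈ Icc 1 (NN δ Q), (n : ℝ)⁻¹ := by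
        rw [mertSum, Finset.sum_add_distrib, Finset.mul_sum, Finset.mul_sum]
    _ ≤ 6 * Real.log Q * (8 * Real.log Q) + 2 * Real.log Q * (3 * Real.log Q) :=
        add_le_add (mul_le_mul_of_nonneg_left (by linarith) (by linarith))
          (mul_le_mul_of_nonneg_left (by linarith) (by linarith))
    _ = _ := by ring

lemma fold (hK : Continuous K) :
    ∫ a in (-1 : ℝ)..1, K a * min (2 * |a|) 1 = ∫ a in (0 : ℝ)..1, Kt K a * min (2 * |a|) 1 := by
  have c1 : Continuous fun a : ℝ => K a * min (2 * |a|) 1 := by fun_prop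
  have c2 : Continuous fun a : ℝ => K (-a) * min (2 * |a|) 1 := by fun_prop
  have h1 := intervalIntegral.integral_comp_neg (a := 0) (b := 1)
    (fun a : ℝ => K a * min (2 * |a|) 1)
  simp only [abs_neg, neg_zero] at h1
  rw [← intervalIntegral.integral_add_adjacent_intervals (c1.intervalIntegrable (-1) 0)
    (c1.intervalIntegrable 0 1), ← h1, add_comm,
    ← intervalIntegral.integral_add (c1.intervalIntegrable 0 1) (c2.intervalIntegrable 0 1)]
  refine intervalIntegral.integral_congr fun a _ => ?_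
  simp only [Kt]
  ring

lemma main_int (hK : Continuous K) (h0 : ∀ a, 0 ≤ K a) {lam b t : ℝ} (hl : 0 ≤ lam)
    (hl2 : lam ≤ 2) (hb : 0 ≤ b) (ht : 0 ≤ t) (hlb : lam * b = 1 + t) :
    0 ≤ (∫ a in (0 : ℝ)..1, a * Kt K a) - ∫ a in (0 : ℝ)..1, Hf K b a ∧
    lam * ((∫ a in (0 : ℝ)..1, a * Kt K a) - ∫ a in (0 : ℝ)..1, Hf K b a)
      ≤ (∫ a in (-1 : ℝ)..1, K a * min (2 * |a|) 1) + t * ∫ a in (0 : ℝ)..1, Kt K a := by
  have c0 := Kt_cont hK
  have c1 : Continuous fun a : ℝ => a * Kt K a := by fun_prop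
  have c2 := Hf_cont hK b
  have c3 : Continuous fun a : ℝ => Kt K a * min (2 * |a|) 1 := by fun_prop
  have c4 : Continuous fun a : ℝ => t * Kt K a := by fun_prop
  have e : ∀ a, a * Kt K a - Hf K b a = Kt K a * min a b := fun a => by
    rw [Hf]
    rcases le_total a b with h | h
    · rw [max_eq_right (by linarith), min_eq_left h]; ring
    · rw [max_eq_left (by linarith), min_eq_right h]; ring
  rw [← intervalIntegral.integral_sub (c1.intervalIntegrable 0 1) (c2.intervalIntegrable 0 1)]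
  simp only [e]
  constructor
  · exact intervalIntegral.integral_nonneg zero_le_one fun a ha =>
      mul_nonneg (Kt_nonneg h0 a) (le_min ha.1 hb)
  · rw [fold hK, ← intervalIntegral.integral_const_mul, ← intervalIntegral.integral_const_mul,
      ← intervalIntegral.integral_add (c3.intervalIntegrable 0 1) (c4.intervalIntegrable 0 1)]
    refine intervalIntegral.integral_mono_on zero_le_one
      (Continuous.intervalIntegrable (by fun_prop) _ _)
      (Continuous.intervalIntegrable (by fun_prop) _ _) fun a ha => ?_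
    have h1 : lam * min a b ≤ min (2 * |a|) 1 + t := by
      rw [abs_of_nonneg ha.1]
      have h2 := mul_le_mul_of_nonneg_left (min_le_left a b) hl
      have h3 := mul_le_mul_of_nonneg_left (min_le_right a b) hl
      have h4 := mul_le_mul_of_nonneg_right hl2 ha.1
      rcases le_total (2 * a) 1 with h | h
      · rw [min_eq_left h]; linarith
      · rw [min_eq_right h]; linarith
    have h5 := mul_le_mul_of_nonneg_left h1 (Kt_nonneg h0 a)
    linarith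

lemma final {K0 M J A ε δ L T m S R : ℝ} (hK0 : 0 ≤ K0) (hA : 0 ≤ A) (hε : 0 < ε)
    (hδ : 0 < δ) (hδ' : δ ≤ 1 / 4) (hs : δ * (K0 + 3 * M) ≤ ε / 2) (hm : 0 ≤ m) (hmT : m ≤ T)
    (hJ : (2 - 2 * δ) * A ≤ J + 3 * δ * M)
    (hS : S ≤ ((2 - 2 * δ) * L) ^ 2 * (A + 4 * (ε / 126))) (hR : R ≤ 54 * L ^ 2) :
    m * (L ^ 2 * K0 + S) + ε / 126 * T * (L ^ 2 + R)
      ≤ (2 - 2 * δ) * L * (T * L * (K0 / 2 + J + ε)) := by
  have hT : 0 ≤ T := hm.trans hmT
  have h1 : m * (L ^ 2 * K0 + S)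
      ≤ T * (L ^ 2 * K0 + ((2 - 2 * δ) * L) ^ 2 * (A + 4 * (ε / 126))) :=
    (mul_le_mul_of_nonneg_left (by linarith) hm).trans
      (mul_le_mul_of_nonneg_right hmT (by positivity))
  have h2 : ε / 126 * T * (L ^ 2 + R) ≤ ε / 126 * T * (55 * L ^ 2) :=
    mul_le_mul_of_nonneg_left (by linarith) (by positivity)
  have h3 : K0 + (2 - 2 * δ) ^ 2 * (A + 4 * (ε / 126)) + 55 * (ε / 126)
      ≤ (2 - 2 * δ) * (K0 / 2 + J + ε) := by
    have e1 : K0 ≤ (2 - 2 * δ) * ((1 / 2 + δ) * K0) := by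
      have : 0 ≤ δ * (1 - 2 * δ) * K0 := mul_nonneg (mul_nonneg hδ.le (by linarith)) hK0
      linarith
    have e2 : (2 - 2 * δ) * ((2 - 2 * δ) * A) ≤ (2 - 2 * δ) * (J + 3 * δ * M) :=
      mul_le_mul_of_nonneg_left hJ (by linarith)
    have e3 : (2 - 2 * δ) * (δ * (K0 + 3 * M)) ≤ (2 - 2 * δ) * (ε / 2) :=
      mul_le_mul_of_nonneg_left hs (by linarith)
    have e4 : (2 - 2 * δ) * ((2 - 2 * δ) * (4 * (ε / 126))) ≤ (2 - 2 * δ) * (8 * (ε / 126)) :=
      mul_le_mul_of_nonneg_left (by nlinarith) (by linarith)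
    have e5 : 55 * (ε / 126) ≤ (2 - 2 * δ) * (55 * (ε / 126)) := by nlinarith
    linarith
  have h4 := mul_le_mul_of_nonneg_left h3 (show 0 ≤ T * L ^ 2 by positivity)
  linarith

end QDiag

open QDiag in
theorem stmtDiag (hM : StmtMert2) (hS : StmtShift) : StmtDiag := by
  intro K hK h0 h1 ε hε
  have hM0 : 0 ≤ ∫ a in (0 : ℝ)..1, Kt K a :=
    intervalIntegral.integral_nonneg zero_le_one fun a _ => Kt_nonneg h0 a
  obtain ⟨M, hMe⟩ : ∃ M, M = ∫ a in (0 : ℝ)..1, Kt K a := ⟨_, rfl⟩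
  rw [← hMe] at hM0
  have hK0 := h0 0
  refine ⟨min (1 / 4) (ε / 2 / (K 0 + 3 * M + 1)), lt_min (by norm_num) (by positivity),
    fun δ hδ hδ0 => ?_⟩
  have hδ' : δ ≤ 1 / 4 := hδ0.trans (min_le_left _ _)
  have hs : δ * (K 0 + 3 * M) ≤ ε / 2 := by
    have := (le_div_iff₀ (by positivity)).1 (hδ0.trans (min_le_right _ _))
    linarith
  have hl : 0 < 2 - 2 * δ := by linarith
  obtain ⟨b, hbe⟩ : ∃ b, b = (1 + 3 * δ) / (2 - 2 * δ) := ⟨_, rfl⟩
  have hb : 0 ≤ b := by rw [hbe]; positivity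
  have hlb : (2 - 2 * δ) * b = 1 + 3 * δ := by rw [hbe, mul_div_cancel₀ _ hl.ne']
  have he : 0 < ε / 126 := by positivity
  obtain ⟨T₁, hT₁⟩ := hS (Kt K) (Kt_cont hK) (supp fun a => Kt_zero h1) _ he
  obtain ⟨T₂, hT₂⟩ := hS (Hf K b) (Hf_cont hK b) (supp fun a => Hf_zero h1 b) _ he
  obtain ⟨Y₁, hY₁⟩ := stmtMertens (Kt K) (Kt_cont hK) (Kt_nonneg h0) _ he
  obtain ⟨Y₂, hY₂⟩ := hM.1 (Hf K b) (Hf_cont hK b) (Hf_nonneg h0 b) _ he
  obtain ⟨Q₀, hQ₀⟩ := Filter.eventually_atTop.1 ((tendsto_natCast_atTop_atTop (R := ℝ)).eventually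
    (Real.tendsto_log_atTop.eventually_ge_atTop (1 + 8 * |T₁| + 8 * |T₂| + |Y₁| + |Y₂|)))
  refine ⟨max Q₀ 1, fun Q hQ T W hLT hW => ?_⟩
  have hQ1 : 1 ≤ Q := le_of_max_le_right hQ
  have hQr : (1 : ℝ) ≤ Q := by exact_mod_cast hQ1
  have hbig := hQ₀ Q (le_of_max_le_left hQ)
  have a1' := le_abs_self T₁
  have a2' := le_abs_self T₂
  have a3' := le_abs_self Y₁
  have a4' := le_abs_self Y₂
  have a5' := abs_nonneg T₁
  have a6' := abs_nonneg T₂
  have a7' := abs_nonneg Y₁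
  have a8' := abs_nonneg Y₂
  have hL : 1 ≤ Real.log Q := by linarith
  obtain ⟨Y, hYe⟩ : ∃ Y, Y = (2 - 2 * δ) * Real.log Q := ⟨_, rfl⟩
  have hLY : Real.log Q ≤ Y := by rw [hYe]; nlinarith
  have hY2 : Y ≤ 2 * Real.log Q := by rw [hYe]; nlinarith
  have hY : 0 < Y := by linarith
  have hπ := Real.pi_pos
  have hℓe : ell δ Q = Y / (2 * π) := by rw [ell, hYe]
  have hℓ8 : Real.log Q ≤ 8 * ell δ Q := by
    rw [hℓe, ← mul_div_assoc, le_div_iff₀ (by positivity)]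
    nlinarith [Real.pi_le_four]
  have hℓ : 0 < ell δ Q := by linarith
  have hun : ∀ n : ℕ, un n / ell δ Q = Real.log n / Y := fun n => by
    rw [un, hℓe]; field_simp
  have hhh : ∀ u, hh δ Q u = Y * max (u / ell δ Q - b) 0 := fun u => by
    rw [hh, mul_max_of_nonneg _ _ hY.le, mul_zero, mul_sub]
    congr 2
    · rw [hℓe]; field_simp
    · rw [hYe, ← hlb]; ring
  have hN1 : N1 δ Q ≤ Q := by
    have : (Q : ℝ) ^ (1 - δ) ≤ Q := by
      simpa using Real.rpow_le_rpow_of_exponent_le hQr (show 1 - δ ≤ 1 by linarith)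
    simpa [N1] using Nat.floor_le_floor this
  have hX : ⌊Real.exp Y⌋₊ ≤ NN δ Q := by
    refine Nat.floor_le_floor ?_
    rw [Real.rpow_def_of_pos (by linarith), hYe]
    exact Real.exp_le_exp.2 (by nlinarith)
  have hT0 : 0 ≤ T := by linarith
  have key := bound_int h0 h1 hb hℓ (mul_nonneg he.le hT0) (sq_nonneg (Real.log Q)) hY.le hW.symm
    (fun c => hT₁ T (ell δ Q) c W (by linarith) (by linarith) hW)
    (fun c => hT₂ T (ell δ Q) c W (by linarith) (by linarith) hW)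
    (Icc 1 (NN δ Q)) (cA δ Q) (cB Q) (cC Q) un (cA_nonneg δ Q) (cB_nonneg Q) (cC_nonneg Q)
  have hI := main_int hK h0 hl.le (by linarith) hb (show 0 ≤ 3 * δ by linarith) hlb
  rw [← hMe] at hI
  have s1 : ∑ n ∈ Icc 1 (NN δ Q), cA δ Q n * Kt K (Real.log n / Y)
      ≤ Y ^ 2 * ((∫ a in (0 : ℝ)..1, a * Kt K a) + ε / 126) := by
    rw [trunc_sum (fun a => Kt_zero h1) hY hX]
    refine le_trans (Finset.sum_le_sum fun n _ =>
      mul_le_mul_of_nonneg_right (cA_le hN1 n) (Kt_nonneg h0 _)) (hY₁ Y (by linarith) _ ?_)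
    have := Nat.floor_le (Real.exp_pos Y).le
    linarith [Real.exp_pos Y]
  have s2 : ∑ n ∈ Icc 1 (NN δ Q), cC Q n * Hf K b (Real.log n / Y)
      ≤ Y * ((∫ a in (0 : ℝ)..1, Hf K b a) + ε / 126) := by
    rw [trunc_sum (fun a => Hf_zero h1 b) hY hX]
    exact le_trans (Finset.sum_le_sum fun n _ =>
      mul_le_mul_of_nonneg_right (cC_le Q n) (Hf_nonneg h0 _ _)) (hY₂ Y (by linarith)).2
  have s3 : Y * ((∫ a in (0 : ℝ)..1, Hf K b a) - ε / 126)
      ≤ ∑ n ∈ Icc 1 (NN δ Q), cB Q n * Hf K b (Real.log n / Y) := by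
    rw [trunc_sum (fun a => Hf_zero h1 b) hY hX]
    refine (hY₂ Y (by linarith)).1.trans (le_of_eq ?_)
    rw [Finset.sum_filter]
    refine Finset.sum_congr rfl fun n hn => ?_
    rw [cB]
    by_cases hp : n.Prime
    · rw [if_pos hp]
      by_cases hn' : Q < n
      · rw [if_pos ⟨hp, hn'⟩]
      · have e1 : Real.log n ≤ Real.log Q :=
          Real.log_le_log (by exact_mod_cast hp.pos) (by exact_mod_cast not_lt.1 hn')
        have e2 : Real.log n / Y ≤ b := by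
          rw [div_le_iff₀ hY, hYe, ← mul_assoc, mul_comm b, hlb]
          nlinarith
        rw [Hf_zero' e2, mul_zero, mul_zero]
    · rw [if_neg hp, if_neg (fun h => hp h.1), zero_mul]
  have s4 : ∑ n ∈ Icc 1 (NN δ Q), (cA δ Q n * Kt K (un n / ell δ Q)
        + Y * (cC Q n - 2 * cB Q n) * Hf K b (un n / ell δ Q))
      ≤ ((2 - 2 * δ) * Real.log Q) ^ 2 * (((∫ a in (0 : ℝ)..1, a * Kt K a)
        - ∫ a in (0 : ℝ)..1, Hf K b a) + 4 * (ε / 126)) := by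
    have e1 : ∑ n ∈ Icc 1 (NN δ Q), (cA δ Q n * Kt K (un n / ell δ Q)
        + Y * (cC Q n - 2 * cB Q n) * Hf K b (un n / ell δ Q))
        = ∑ n ∈ Icc 1 (NN δ Q), cA δ Q n * Kt K (Real.log n / Y)
          + Y * ∑ n ∈ Icc 1 (NN δ Q), cC Q n * Hf K b (Real.log n / Y)
          - 2 * Y * ∑ n ∈ Icc 1 (NN δ Q), cB Q n * Hf K b (Real.log n / Y) := by
      rw [Finset.mul_sum, Finset.mul_sum, ← Finset.sum_add_distrib, ← Finset.sum_sub_distrib]
      refine Finset.sum_congr rfl fun n _ => ?_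
      rw [hun]; ring
    have e2 := mul_le_mul_of_nonneg_left s2 hY.le
    have e3 := mul_le_mul_of_nonneg_left s3 hY.le
    rw [e1, ← hYe]
    linarith
  have fin := final (L := Real.log Q) hK0 hI.1 hε hδ hδ' hs
    (integral_nonneg fun u => sq_nonneg ‖W u‖) hW.sq_le hI.2 s4
    (sums_le hδ (by linarith) hQ1 hL hN1 hY2)
  refine le_trans (le_of_eq ?_) (key.trans (fin.trans (le_of_eq ?_)))
  · refine intervalIntegral.integral_congr fun u _ => ?_
    rw [add_assoc (Real.log Q ^ 2 * ‖W u‖ ^ 2), nrm12, gain_eq, hhh, sub_zero, mul_sub, mul_add,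
      Finset.mul_sum, Finset.mul_sum, Finset.mul_sum, add_sub_assoc, ← Finset.sum_sub_distrib]
    congr 1
    · rw [Kt]; ring
    · refine Finset.sum_congr rfl fun n _ => ?_
      rw [Hf, Kt]; ring
  · rw [J2, ell]; field_simp

end Pool.Agent.MP_f259ea_nt.Q
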