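import Pool.Agent.MP_f259ea_nt.Q_Defs

/-!
Conductor aspect: from the mean value theorem and the finite inequality to the zero counts.
-/

set_option autoImplicit false

open Complex MeasureTheory Finset Filter Topology DirichletCharacter
open scoped Real ComplexConjugate Classical

namespace Pool.Agent.MP_f259ea_nt.Q

/-- The finite inequality for the points selected by `P`. -/
def StmtG (K : ℝ → ℝ) (α β : ℝ) (P : ℂ → ℕ → Prop) : Prop :=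
  ∃ C : ℝ, ∀ (Z₀ Z₁ : Finset ℂ) (m : ℂ → ℕ) (c : ℂ → ℂ),
    (∀ x ∈ Z₀, conj x ∈ Z₀ ∧ m (conj x) = m x ∧ 1 ≤ m x) →
    (∀ x ∈ Z₁, conj x ∈ Z₁ ∧ c (conj x) = conj (c x)) →
    α * (∑ x ∈ Z₀, (m x : ℝ)) - β * ((Z₀.filter fun x => P x (m x)).card : ℝ)
        - C * (1 + ∑ x ∈ Z₁, (1 + ‖c x‖))
      ≤ ∫ a in (-1 : ℝ)..1, K a * ‖mu Z₀ (fun x => (m x : ℂ)) a + mu Z₁ c a‖ ^ 2

lemma stmtG_of_B {K : ℝ → ℝ} {α β : ℝ} (h : StmtB K α β 0) : StmtG K α β fun _ _ => True := by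
  obtain ⟨C, h⟩ := h
  refine ⟨C, fun Z₀ Z₁ m c h0 h1 => ?_⟩
  set M := ∑ x ∈ Z₀, |x.re| with hM
  have hM0 : 0 ≤ M := Finset.sum_nonneg fun _ _ => abs_nonneg _
  have hb : ∀ x ∈ Z₀, |x.re| ≤ M := fun x hx =>
    Finset.single_le_sum (f := fun x : ℂ => |x.re|) (fun _ _ => abs_nonneg _) hx
  have := h Z₀ Z₁ m c (-M) (2 * M) (by linarith) (fun x hx => by
    obtain ⟨a, b, c⟩ := h0 x hx
    have := abs_le.1 (hb x hx)
    exact ⟨a, b, c, this.1, by linarith [this.2]⟩) h1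
  simpa using this

lemma stmtG_of_S {K : ℝ → ℝ} (h : StmtS K) : StmtG K 2 1 fun x m => x.im = 0 ∧ m = 1 := by
  obtain ⟨C, h⟩ := h
  refine ⟨C, fun Z₀ Z₁ m c h0 h1 => ?_⟩
  have := h Z₀ Z₁ m c h0 h1
  rw [one_mul]
  convert this

/-- The zeros with `T < re z ≤ 2T` in the variable `z`. -/
noncomputable def ZF {d : ℕ} [NeZero d] (χ : DirichletCharacter ℂ d) (T : ℝ) : Finset ℂ :=
  if h : {z : ℂ | T < z.re ∧ z.re ≤ 2 * T ∧ Xi χ z = 0}.Finite then h.toFinset else ∅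

lemma ZF_eq {d : ℕ} [NeZero d] {χ : DirichletCharacter ℂ d} {T : ℝ} {Z : Finset ℂ}
    (hZ : ∀ z, z ∈ Z ↔ T < z.re ∧ z.re ≤ 2 * T ∧ Xi χ z = 0) : ZF χ T = Z := by
  have e : {z : ℂ | T < z.re ∧ z.re ≤ 2 * T ∧ Xi χ z = 0} = (Z : Set ℂ) := by
    ext z; simp [hZ]
  have hf : {z : ℂ | T < z.re ∧ z.re ≤ 2 * T ∧ Xi χ z = 0}.Finite := by
    rw [e]; exact Z.finite_toSet
  unfold ZF
  rw [dif_pos hf]
  ext z
  rw [Set.Finite.mem_toFinset, hZ]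
  rfl

lemma mem_ZF {d : ℕ} [NeZero d] {χ : DirichletCharacter ℂ d} (hχ : χ.IsPrimitive) {T : ℝ}
    (hT : 0 < T) (z : ℂ) : z ∈ ZF χ T ↔ T < z.re ∧ z.re ≤ 2 * T ∧ Xi χ z = 0 := by
  obtain ⟨Z, hZ, -, -⟩ := target_sets χ hχ hT
  rw [ZF_eq hZ, hZ]

lemma mem_prim {d : ℕ} {χ : DirichletCharacter ℂ d} : χ ∈ prim d ↔ χ.IsPrimitive := by
  simp [prim]

/-- The finite inequality applied to the zeros of one character. -/
lemma per_char {K : ℝ → ℝ} {α β C : ℝ} {P : ℂ → ℕ → Prop} (hβ : 0 ≤ β)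
    (hP : ∀ (ℓ : ℝ) (z : ℂ) (m : ℕ), 0 < ℓ → (P (ℓ * z) m ↔ P z m))
    (hB : ∀ (Z₀ Z₁ : Finset ℂ) (m : ℂ → ℕ) (c : ℂ → ℂ),
      (∀ x ∈ Z₀, conj x ∈ Z₀ ∧ m (conj x) = m x ∧ 1 ≤ m x) →
      (∀ x ∈ Z₁, conj x ∈ Z₁ ∧ c (conj x) = conj (c x)) →
      α * (∑ x ∈ Z₀, (m x : ℝ)) - β * ((Z₀.filter fun x => P x (m x)).card : ℝ)
          - C * (1 + ∑ x ∈ Z₁, (1 + ‖c x‖))
        ≤ ∫ a in (-1 : ℝ)..1, K a * ‖mu Z₀ (fun x => (m x : ℂ)) a + mu Z₁ c a‖ ^ 2)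
    {d : ℕ} [NeZero d] {χ : DirichletCharacter ℂ d} (hχ : χ.IsPrimitive) {T ℓ : ℝ} (hT0 : 0 < T)
    (hℓ : 0 < ℓ) {w : ℂ → ℂ} (hwc : ∀ z, w (conj z) = conj (w z)) {Zi Zt : Finset ℂ}
    (hZi : Zi ⊆ ZF χ T) (hZt : Zt ⊆ ZF χ T) (hZic : ∀ z ∈ Zi, conj z ∈ Zi)
    (hZtc : ∀ z ∈ Zt, conj z ∈ Zt) :
    α * (∑ z ∈ Zi, (nn χ z : ℝ)) - β * (((ZF χ T).filter fun z => P z (nn χ z)).card : ℝ)
        - C * (1 + ∑ z ∈ Zt, (1 + ‖(nn χ z : ℂ) * w z‖))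
      ≤ ∫ s in (-1 : ℝ)..1, K s * ‖nu χ w Zi Zt (s * ℓ)‖ ^ 2 := by
  have hZ := mem_ZF hχ hT0
  have hℓ' : (ℓ : ℂ) ≠ 0 := by exact_mod_cast hℓ.ne'
  have hinj : Function.Injective fun z : ℂ => (ℓ : ℂ) * z := fun _ _ h => mul_left_cancel₀ hℓ' h
  have h2 := hB (Zi.image fun z => (ℓ : ℂ) * z) (Zt.image fun z => (ℓ : ℂ) * z)
    (fun x => nn χ (x / ℓ)) (fun x => (nn χ (x / ℓ) : ℂ) * w (x / ℓ)) (by
      intro x hx
      obtain ⟨z, hz, rfl⟩ := Finset.mem_image.1 hx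
      obtain ⟨h1, h2, h3⟩ := (hZ z).1 (hZi hz)
      have e : conj ((ℓ : ℂ) * z) = ℓ * conj z := by simp
      refine ⟨Finset.mem_image.2 ⟨conj z, hZic z hz, e.symm⟩, ?_, ?_⟩
      · simp only [e, mul_div_cancel_left₀ _ hℓ']
        exact nn_conj χ hχ (hT0.trans h1)
      · simp only [mul_div_cancel_left₀ _ hℓ']
        exact one_le_nn χ (hT0.trans h1) h3) (by
      intro x hx
      obtain ⟨z, hz, rfl⟩ := Finset.mem_image.1 hx
      obtain ⟨h1, -, -⟩ := (hZ z).1 (hZt hz)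
      have e : conj ((ℓ : ℂ) * z) = ℓ * conj z := by simp
      refine ⟨Finset.mem_image.2 ⟨conj z, hZtc z hz, e.symm⟩, ?_⟩
      simp only [e, mul_div_cancel_left₀ _ hℓ']
      rw [nn_conj χ hχ (hT0.trans h1), hwc]
      simp)
  have e3 : ∀ s : ℝ, mu (Zi.image fun z => (ℓ : ℂ) * z) (fun x => (nn χ (x / ℓ) : ℂ)) s
      + mu (Zt.image fun z => (ℓ : ℂ) * z) (fun x => (nn χ (x / ℓ) : ℂ) * w (x / ℓ)) s
      = nu χ w Zi Zt (s * ℓ) := by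
    intro s
    rw [mu_image Zi (fun z => (nn χ z : ℂ)) hℓ, mu_image Zt (fun z => (nn χ z : ℂ) * w z) hℓ]
    rfl
  simp only [e3] at h2
  rw [Finset.sum_image (fun _ _ _ _ h => hinj h), Finset.sum_image (fun _ _ _ _ h => hinj h),
    Finset.filter_image, Finset.card_image_of_injective _ hinj] at h2
  simp only [mul_div_cancel_left₀ _ hℓ', hP ℓ _ _ hℓ] at h2
  have hcard : (((Zi.filter fun z => P z (nn χ z)).card : ℕ) : ℝ)
      ≤ ((ZF χ T).filter fun z => P z (nn χ z)).card := by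
    exact_mod_cast Finset.card_le_card (Finset.filter_subset_filter _ hZi)
  have h6 := mul_le_mul_of_nonneg_left hcard hβ
  linarith

lemma sum_shift (Q₁ Q : ℕ) (f : ℕ → ℝ) : ∑ d ∈ Ioc Q₁ Q, f d = ∑ q ∈ Ico Q₁ Q, f (q + 1) := by
  rw [Finset.sum_Ico_add' f Q₁ Q 1, Finset.Ico_add_one_add_one_eq_Ioc]

lemma exists_eps {J α β c : ℝ} (h : c * β < α - J) :
    ∃ ε : ℝ, 0 < ε ∧ ε < 1 ∧ c * β < α * (1 - ε) - 0 * 1 - (J + ε) - ε := by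
  have hc : ContinuousAt (fun e : ℝ => α * (1 - e) - 0 * 1 - (J + e) - e) 0 := by fun_prop
  have h1 : ∀ᶠ e in 𝓝 (0 : ℝ), c * β < α * (1 - e) - 0 * 1 - (J + e) - e :=
    continuousAt_const.eventually_lt hc (by simpa using h)
  have h2 : ∀ᶠ e in 𝓝 (0 : ℝ), e < 1 := eventually_lt_nhds one_pos
  obtain ⟨e, ⟨he1, he3⟩, he2⟩ := (((h1.and h2).filter_mono nhdsWithin_le_nhds).and
    (self_mem_nhdsWithin (a := (0 : ℝ)) (s := Set.Ioi 0))).exists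
  exact ⟨e, he2, he3, he1⟩

lemma famCard_le (hO : StmtOrth) (Q : ℕ) : famCard 0 Q ≤ (Q : ℝ) ^ 2 := by
  unfold famCard
  calc _ ≤ ∑ _d ∈ Ioc 0 Q, (Q : ℝ) := by
        refine Finset.sum_le_sum fun d hd => ?_
        rw [Finset.mem_Ioc] at hd
        exact_mod_cast ((hO.2.1 d hd.1).2).trans hd.2
    _ = _ := by simp [sq]

lemma arith_S {S I F Q2 T L J e c₀ ε : ℝ} (hT : 0 ≤ T) (hL : 0 ≤ L) (hF : 0 ≤ F) (hJ : 0 ≤ J)
    (he : 0 < e) (he1 : e ≤ 1) (hc₀ : 0 < c₀) (hQ : c₀ / 2 * Q2 ≤ F)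
    (hε : e * (J + 3 + 2 / c₀) ≤ ε)
    (h1 : 4 * π ^ 2 * S ≤ (1 + e) * I + e * T * L * F)
    (h2 : I ≤ 2 * π * T * L * (J + e) * F + e * Q2 * T * L) :
    S ≤ (J + ε) * (F * (T * L / (2 * π))) := by
  have hpi := Real.pi_gt_three
  set M := F * (T * L / (2 * π)) with hM
  have hM0 : 0 ≤ M := by positivity
  have e1 : T * L * F = 2 * π * M := by rw [hM]; field_simp
  have hQ2 : Q2 ≤ 2 / c₀ * F := by
    rw [div_mul_eq_mul_div, le_div_iff₀ hc₀]; linarith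
  have h3 : Q2 * T * L ≤ 2 / c₀ * (2 * π * M) := by
    rw [← e1]
    have : Q2 * (T * L) ≤ 2 / c₀ * F * (T * L) := by gcongr
    linarith
  have h4 : I ≤ 4 * π ^ 2 * ((J + e) * M) + e * (2 / c₀ * (2 * π * M)) := by
    have a1 : 2 * π * T * L * (J + e) * F = 4 * π ^ 2 * ((J + e) * M) := by
      have : 2 * π * T * L * (J + e) * F = 2 * π * (J + e) * (T * L * F) := by ring
      rw [this, e1]; ring
    have a2 : e * Q2 * T * L ≤ e * (2 / c₀ * (2 * π * M)) := by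
      have := mul_le_mul_of_nonneg_left h3 he.le
      linarith
    linarith
  have h5 : 2 * π * M ≤ π ^ 2 * M := by
    have : 2 * π ≤ π ^ 2 := by nlinarith
    gcongr
  have hc : 0 ≤ 2 / c₀ := by positivity
  have h6 : (1 + e) * I ≤ 4 * π ^ 2 * ((J + e * (J + 2) + e * (2 / c₀)) * M) := by
    have a1 : (1 + e) * I ≤ (1 + e) * (4 * π ^ 2 * ((J + e) * M) + e * (2 / c₀ * (π ^ 2 * M))) := by
      gcongr
      refine h4.trans ?_
      gcongr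
    have a2 : (1 + e) * (J + e) ≤ J + e * (J + 2) := by nlinarith
    have a3 : (1 + e) * (4 * π ^ 2 * ((J + e) * M)) ≤ 4 * π ^ 2 * ((J + e * (J + 2)) * M) := by
      have : (1 + e) * (4 * π ^ 2 * ((J + e) * M)) = 4 * π ^ 2 * (((1 + e) * (J + e)) * M) := by ring
      rw [this]; gcongr
    have a4 : (1 + e) * (e * (2 / c₀ * (π ^ 2 * M))) ≤ 4 * (e * (2 / c₀ * (π ^ 2 * M))) := by
      gcongr; linarith
    nlinarith
  have h7 : e * T * L * F ≤ 4 * π ^ 2 * (e * M) := by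
    have : e * T * L * F = e * (T * L * F) := by ring
    rw [this, e1]
    have : 0 ≤ e * (π ^ 2 * M) := by positivity
    nlinarith
  have h8 : 4 * π ^ 2 * S ≤ 4 * π ^ 2 * ((J + ε) * M) := by
    have : (J + e * (J + 2) + e * (2 / c₀)) * M + e * M ≤ (J + ε) * M := by
      rw [← add_mul]
      exact mul_le_mul_of_nonneg_right (by linarith) hM0
    have := mul_le_mul_of_nonneg_left this (show 0 ≤ 4 * π ^ 2 by positivity)
    linarith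
  exact le_of_mul_le_mul_left h8 (by positivity)

lemma ev_log (A : ℝ) : ∀ᶠ Q : ℕ in atTop, A ≤ Real.log Q :=
  (Real.tendsto_log_atTop.comp tendsto_natCast_atTop_atTop).eventually_ge_atTop A

theorem fam (hU : StmtUnif) (hO : StmtOrth) (hCa : StmtCard) (hPr : StmtPrime)
    (hX : StmtPerChi) {K : ℝ → ℝ} (hK : Continuous K) (hK0 : ∀ a, 0 ≤ K a)
    (hK1 : ∀ a, 1 ≤ |a| → K a = 0) {α β c : ℝ} {P : ℂ → ℕ → Prop} (hβ : 0 < β) (hc0 : 0 ≤ c)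
    (hP : ∀ (ℓ : ℝ) (z : ℂ) (m : ℕ), 0 < ℓ → (P (ℓ * z) m ↔ P z m))
    (hG : StmtG K α β P) (hc : c * β < α - J2 K) :
    ∃ θ : ℝ, 0 < θ ∧ ∃ Q₀ : ℕ, ∀ Q ≥ Q₀, ∀ T : ℝ, Real.log Q ≤ T → T ≤ (Q : ℝ) ^ θ → 0 < T ∧
      c * ∑ q ∈ range Q, ∑ χ ∈ prim (q + 1), ∑ z ∈ ZF χ T, (nn χ z : ℝ)
        ≤ ∑ q ∈ range Q, ∑ χ ∈ prim (q + 1),
          (((ZF χ T).filter fun z => P z (nn χ z)).card : ℝ) := by
  obtain ⟨CB, hB⟩ := hG
  obtain ⟨CU, hCU, hU⟩ := hU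
  obtain ⟨c₀, hc₀, Qc, hCa⟩ := hCa
  set J := J2 K with hJ
  have hJ0 : 0 ≤ J := by
    rw [hJ]; unfold J2
    have := hK0 0
    have : 0 ≤ ∫ a in (-1 : ℝ)..1, K a * min (2 * |a|) 1 :=
      intervalIntegral.integral_nonneg (by norm_num) fun a _ =>
        mul_nonneg (hK0 a) (le_min (by positivity) zero_le_one)
    positivity
  obtain ⟨ε, hε, hε1, hsm⟩ := exists_eps hc
  set A := J + 3 + 2 / c₀ + max CB 0 with hA
  have hA3 : 3 ≤ A := by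
    have : 0 ≤ 2 / c₀ := by positivity
    linarith [le_max_right CB 0]
  set e := ε / A with he
  have he0 : 0 < e := by positivity
  have heA : e * A = ε := by rw [he]; field_simp
  have he2 : 2 * e ≤ ε := by nlinarith
  obtain ⟨δ, hδ, hδ4, Q1, hPr⟩ := hPr K hK hK0 hK1 e he0
  obtain ⟨θ, hθ, Q2, hX⟩ := hX K hK hK0 e he0
  refine ⟨min θ (δ / 4), lt_min hθ (by positivity), ?_⟩
  rw [← Filter.eventually_atTop]
  filter_upwards [eventually_ge_atTop Qc, eventually_ge_atTop Q1, eventually_ge_atTop Q2,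
    eventually_ge_atTop 1, ev_log 3, ev_log (8 / c₀), ev_log (1000 * CU / (c₀ * e))]
    with Q hQc hQ1 hQ2 hQ hL3 hLc hLe T hT hTθ
  set L := Real.log Q with hL
  have hQ' : (1 : ℝ) ≤ Q := by exact_mod_cast hQ
  have hT3 : 3 ≤ T := hL3.trans hT
  have hT0 : 0 < T := by linarith
  refine ⟨hT0, ?_⟩
  have hL0 : 0 < L := by linarith
  have hpi := Real.pi_pos
  have hTθ1 : T ≤ (Q : ℝ) ^ θ :=
    hTθ.trans (Real.rpow_le_rpow_of_exponent_le hQ' (min_le_left _ _))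
  have hTθ2 : T ≤ (Q : ℝ) ^ (δ / 4) :=
    hTθ.trans (Real.rpow_le_rpow_of_exponent_le hQ' (min_le_right _ _))
  have hTQ : T ≤ Q := by
    refine hTθ2.trans ?_
    calc (Q : ℝ) ^ (δ / 4) ≤ (Q : ℝ) ^ (1 : ℝ) :=
          Real.rpow_le_rpow_of_exponent_le hQ' (by linarith)
      _ = Q := Real.rpow_one _
  have hLQ : L ≤ Q := hT.trans hTQ
  set Q₁ := ⌈(Q : ℝ) / L⌉₊ with hQ₁
  have hQ₁a : (Q : ℝ) / L ≤ Q₁ := Nat.le_ceil _
  have hQ₁b : (Q₁ : ℝ) ≤ 2 * (Q / L) := by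
    have h1 : (Q₁ : ℝ) < Q / L + 1 := Nat.ceil_lt_add_one (by positivity)
    have h2 : 1 ≤ (Q : ℝ) / L := by rw [le_div_iff₀ hL0]; linarith
    linarith
  have hQ₁Q : Q₁ ≤ Q := by
    rw [hQ₁, Nat.ceil_le]
    exact div_le_self (by positivity) (by linarith)
  have hQ₁c : (Q : ℝ) ≤ Q₁ * L := by rwa [div_le_iff₀ hL0] at hQ₁a
  have hQ₁sq : (Q₁ : ℝ) ^ 2 * L ≤ 4 * (Q : ℝ) ^ 2 / L := by
    have h1 : (Q₁ : ℝ) ^ 2 ≤ (2 * (Q / L)) ^ 2 := by gcongr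
    calc (Q₁ : ℝ) ^ 2 * L ≤ (2 * (Q / L)) ^ 2 * L := by gcongr
      _ = _ := by field_simp; ring
  set F := famCard Q₁ Q with hF
  have hF0 : 0 ≤ F := Finset.sum_nonneg fun _ _ => Nat.cast_nonneg _
  have hFsplit : famCard 0 Q₁ + F = famCard 0 Q :=
    Finset.sum_Ioc_consecutive _ (Nat.zero_le _) hQ₁Q
  have hFlow : c₀ / 2 * (Q : ℝ) ^ 2 ≤ F := by
    have h1 := hCa Q hQc
    have h2 := famCard_le hO Q₁
    have h3 : (Q₁ : ℝ) ^ 2 ≤ c₀ / 2 * (Q : ℝ) ^ 2 := by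
      have h4 : 4 * (Q : ℝ) ^ 2 / L ≤ c₀ / 2 * (Q : ℝ) ^ 2 := by
        rw [div_le_iff₀ hL0]
        rw [div_le_iff₀ hc₀] at hLc
        nlinarith [sq_nonneg (Q : ℝ)]
      nlinarith [sq_nonneg (Q₁ : ℝ)]
    linarith
  obtain ⟨w, W, hW, hwc, hX⟩ := hX Q hQ2 T hT hTθ1
  have hI := hPr Q hQ1 T W Q₁ hT hTθ2 hW hQ₁Q hQ₁c
  set ℓ := ell δ Q with hℓ
  have hℓ1 : L / (2 * π) ≤ ℓ := by
    rw [hℓ]; unfold ell
    gcongr; nlinarith
  have hℓ2 : ℓ ≤ L / π := by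
    rw [hℓ]; unfold ell
    rw [div_le_div_iff₀ (by positivity) hpi]
    have : 0 ≤ δ * L * π := by positivity
    nlinarith
  have hℓ0 : 0 < ℓ := lt_of_lt_of_le (by positivity) hℓ1
  set m := T * L / (2 * π) with hm
  have hm0 : 0 ≤ m := by positivity
  -- the analysis for each character
  have key : ∀ q : ℕ, ∀ χ : DirichletCharacter ℂ (q + 1), ∃ S Ni : ℝ,
      q ∈ Ico Q₁ Q → χ ∈ prim (q + 1) →
        (4 * π ^ 2 * S ≤ (1 + e) * (∫ s in (-1 : ℝ)..1, K s * ‖Sch χ W L (s * ℓ)‖ ^ 2)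
          + e * T * L) ∧ (1 - e) * m ≤ Ni ∧ ∑ z ∈ ZF χ T, (nn χ z : ℝ) ≤ Ni + e * m ∧
        α * Ni - β * (((ZF χ T).filter fun z => P z (nn χ z)).card : ℝ) - ε * m ≤ S := by
    intro q χ
    by_cases h : q ∈ Ico Q₁ Q ∧ χ ∈ prim (q + 1)
    swap
    · exact ⟨0, 0, fun h1 h2 => absurd ⟨h1, h2⟩ h⟩
    obtain ⟨hq, hχ⟩ := h
    rw [Finset.mem_Ico] at hq
    have hχ' := mem_prim.1 hχ
    obtain ⟨Zi, Zt, hZi, hZt, hZic, hZtc, h1, h2, h3, h4⟩ := hX ℓ hℓ1 hℓ2 (q + 1) χ hχ' (by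
      refine hQ₁c.trans ?_
      have : (Q₁ : ℝ) ≤ ((q + 1 : ℕ) : ℝ) := by exact_mod_cast hq.1.trans (Nat.le_succ q)
      gcongr) hq.2 (ZF χ T) (mem_ZF hχ' hT0)
    refine ⟨_, _, fun _ _ => ⟨h1, h2, h3, ?_⟩⟩
    have h5 := per_char hβ.le hP hB hχ' hT0 hℓ0 hwc hZi hZt hZic hZtc
    have hS0 : 0 ≤ 1 + ∑ z ∈ Zt, (1 + ‖(nn χ z : ℂ) * w z‖) := by positivity
    have h6 : CB * (1 + ∑ z ∈ Zt, (1 + ‖(nn χ z : ℂ) * w z‖)) ≤ ε * m := by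
      have hc : 0 ≤ 2 / c₀ := by positivity
      calc _ ≤ A * (1 + ∑ z ∈ Zt, (1 + ‖(nn χ z : ℂ) * w z‖)) := by
            gcongr
            linarith [le_max_left CB 0]
        _ ≤ A * (e * m) := by gcongr
        _ = ε * m := by rw [← heA]; ring
    linarith
  choose S Ni hkey using key
  have hFs : F = ∑ q ∈ Ico Q₁ Q, ∑ _χ ∈ prim (q + 1), (1 : ℝ) := by
    rw [hF]; unfold famCard
    rw [sum_shift]
    simp
  have hconst : ∀ x : ℝ, ∑ q ∈ Ico Q₁ Q, ∑ _χ ∈ prim (q + 1), x = x * F := by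
    intro x
    rw [hFs, Finset.mul_sum]
    refine Finset.sum_congr rfl fun q _ => ?_
    rw [Finset.mul_sum]
    simp
  rw [sum_shift] at hI
  set St := ∑ q ∈ Ico Q₁ Q, ∑ χ ∈ prim (q + 1), S q χ with hSt
  set Nt := ∑ q ∈ Ico Q₁ Q, ∑ χ ∈ prim (q + 1), Ni q χ with hNt
  set D₁ := ∑ q ∈ Ico Q₁ Q, ∑ χ ∈ prim (q + 1),
    (((ZF χ T).filter fun z => P z (nn χ z)).card : ℝ) with hD₁
  set N₁ := ∑ q ∈ Ico Q₁ Q, ∑ χ ∈ prim (q + 1), ∑ z ∈ ZF χ T, (nn χ z : ℝ) with hN₁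
  have s1 : 4 * π ^ 2 * St ≤ (1 + e) * (∑ q ∈ Ico Q₁ Q, ∑ χ ∈ prim (q + 1),
      ∫ s in (-1 : ℝ)..1, K s * ‖Sch χ W L (s * ℓ)‖ ^ 2) + e * T * L * F := by
    rw [← hconst, hSt, Finset.mul_sum, Finset.mul_sum, ← Finset.sum_add_distrib]
    refine Finset.sum_le_sum fun q hq => ?_
    rw [Finset.mul_sum, Finset.mul_sum, ← Finset.sum_add_distrib]
    exact Finset.sum_le_sum fun χ hχ => (hkey q χ hq hχ).1
  have s2 : (1 - e) * m * F ≤ Nt := by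
    rw [← hconst]
    exact Finset.sum_le_sum fun q hq => Finset.sum_le_sum fun χ hχ => (hkey q χ hq hχ).2.1
  have s3 : N₁ ≤ Nt + e * m * F := by
    rw [← hconst, hNt, ← Finset.sum_add_distrib]
    refine Finset.sum_le_sum fun q hq => ?_
    rw [← Finset.sum_add_distrib]
    exact Finset.sum_le_sum fun χ hχ => (hkey q χ hq hχ).2.2.1
  have s4 : α * Nt - β * D₁ - ε * m * F ≤ St := by
    rw [← hconst, hNt, hD₁, Finset.mul_sum, Finset.mul_sum, ← Finset.sum_sub_distrib,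
      ← Finset.sum_sub_distrib]
    refine Finset.sum_le_sum fun q hq => ?_
    rw [Finset.mul_sum, Finset.mul_sum, ← Finset.sum_sub_distrib, ← Finset.sum_sub_distrib]
    exact Finset.sum_le_sum fun χ hχ => (hkey q χ hq hχ).2.2.2
  have s5 : St ≤ (J + ε) * (F * m) := by
    refine arith_S hT0.le hL0.le hF0 hJ0 he0 (by linarith) hc₀ hFlow ?_ s1 hI
    rw [← heA]
    gcongr
    linarith [le_max_right CB 0]
  -- small moduli
  set N₀ := ∑ q ∈ range Q₁, ∑ χ ∈ prim (q + 1), ∑ z ∈ ZF χ T, (nn χ z : ℝ) with hN₀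
  have s6 : N₀ ≤ e * (F * m) := by
    have h1 : N₀ ≤ ∑ q ∈ range Q₁, ∑ _χ ∈ prim (q + 1), CU * (2 * T) * (3 * L) := by
      refine Finset.sum_le_sum fun q hq => Finset.sum_le_sum fun χ hχ => ?_
      have hχ' := mem_prim.1 hχ
      have h2 := (hU (q + 1) χ).2.1 hχ' T T hT3 hT0.le (ZF χ T) (fun z hz => by
        obtain ⟨a, b, c⟩ := (mem_ZF hχ' hT0 z).1 hz
        exact ⟨a.le, by linarith, abs_im_lt_of_Xi_eq_zero χ hχ' (hT0.trans a) c⟩)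
      refine h2.trans ?_
      have hq' : ((q + 1 : ℕ) : ℝ) ≤ Q := by
        exact_mod_cast (Nat.succ_le_of_lt (Finset.mem_range.1 hq)).trans hQ₁Q
      have hq0 : (1 : ℝ) ≤ ((q + 1 : ℕ) : ℝ) := by exact_mod_cast Nat.succ_pos q
      have h3 : Real.log (((q + 1 : ℕ) : ℝ) * (T + T + 1)) ≤ 3 * L := by
        have h4 : ((q + 1 : ℕ) : ℝ) * (T + T + 1) ≤ (Q : ℝ) ^ 3 := by
          have : T + T + 1 ≤ (Q : ℝ) * Q := by nlinarith
          calc _ ≤ (Q : ℝ) * (Q * Q) := by gcongr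
            _ = _ := by ring
        calc _ ≤ Real.log ((Q : ℝ) ^ 3) := Real.log_le_log (by positivity) h4
          _ = 3 * L := by rw [Real.log_pow, Nat.cast_ofNat]
      have h5 : 0 ≤ Real.log (((q + 1 : ℕ) : ℝ) * (T + T + 1)) :=
        Real.log_nonneg (by nlinarith)
      gcongr
      linarith
    have h2 : ∑ q ∈ range Q₁, ∑ _χ ∈ prim (q + 1), CU * (2 * T) * (3 * L)
        = famCard 0 Q₁ * (CU * (2 * T) * (3 * L)) := by
      unfold famCard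
      rw [sum_shift, Finset.range_eq_Ico, Finset.sum_mul]
      simp
    rw [h2] at h1
    have h3 := famCard_le hO Q₁
    have h4 : N₀ ≤ (Q₁ : ℝ) ^ 2 * L * (6 * CU * T) := by
      refine h1.trans ?_
      calc _ ≤ (Q₁ : ℝ) ^ 2 * (CU * (2 * T) * (3 * L)) := by gcongr
        _ = _ := by ring
    have h5 : N₀ ≤ 4 * (Q : ℝ) ^ 2 / L * (6 * CU * T) := h4.trans (by gcongr)
    have h6 : c₀ / 2 * (Q : ℝ) ^ 2 * (T * L / 8) ≤ F * m := by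
      have : T * L / 8 ≤ m := by
        rw [hm]
        gcongr
        linarith [Real.pi_lt_d2]
      gcongr
    have h7 : 4 * (Q : ℝ) ^ 2 / L * (6 * CU * T) ≤ e * (c₀ / 2 * (Q : ℝ) ^ 2 * (T * L / 8)) := by
      rw [div_le_iff₀ (by positivity)] at hLe
      rw [div_mul_eq_mul_div, div_le_iff₀ hL0]
      have a1 : 384 * CU ≤ L * (c₀ * e) * L := by nlinarith
      have a2 : 0 ≤ (Q : ℝ) ^ 2 * T := by positivity
      have := mul_le_mul_of_nonneg_left a1 a2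
      linarith
    exact h5.trans (h7.trans (by gcongr))
  have hsplit : ∀ f : ℕ → ℝ, ∑ q ∈ range Q, f q = ∑ q ∈ range Q₁, f q + ∑ q ∈ Ico Q₁ Q, f q :=
    fun f => (Finset.sum_range_add_sum_Ico f hQ₁Q).symm
  rw [hsplit, hsplit fun q => ∑ χ ∈ prim (q + 1),
    (((ZF χ T).filter fun z => P z (nn χ z)).card : ℝ)]
  have hD0 : 0 ≤ ∑ q ∈ range Q₁, ∑ χ ∈ prim (q + 1),
      (((ZF χ T).filter fun z => P z (nn χ z)).card : ℝ) :=
    Finset.sum_nonneg fun _ _ => Finset.sum_nonneg fun _ _ => Nat.cast_nonneg _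
  have hM0 : 0 ≤ F * m := by positivity
  have hfin : c * (N₀ + N₁) ≤ D₁ := by
    refine arith_final (M := F * m) (Ni := Nt) (α := α) (β := β) (η := 0) (lam := 1) (Jl := J)
      (ε := ε) hM0 hβ hc0 hε1 hε le_rfl one_pos hJ0 hsm ?_ ?_ ?_
    · have : (1 - ε) * (F * m) ≤ (1 - e) * (F * m) := by gcongr; linarith
      linarith
    · have : 2 * e * (F * m) ≤ ε * (F * m) := by gcongr
      linarith
    · linarith
  linarith

end Pool.Agent.MP_f259ea_nt.Q
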