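import Pool.Agent.MP_f259ea_nt.Q_Defs
import Pool.Agent.MP_f259ea_nt.A_Mertens

/-!
The family bound for the large primes.
-/

set_option autoImplicit false

open Complex MeasureTheory Finset
open scoped Real ComplexConjugate Classical ArithmeticFunction.Moebius
  ArithmeticFunction.vonMangoldt Nat

namespace Pool.Agent.MP_f259ea_nt.Q

namespace Q_Gain

variable {T τ : ℝ} {W : ℝ → ℂ}

lemma T_nonneg (hW : GW T W) : 0 ≤ T :=
  nonneg_of_mul_nonneg_left ((norm_nonneg _).trans (hW.gauss 0)) (Real.exp_pos _)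

lemma W_le (hW : GW T W) (hT : T ≤ τ) (u : ℝ) : ‖W u‖ ≤ τ :=
  (hW.gauss u).trans ((mul_le_of_le_one_right (T_nonneg hW)
    (Real.exp_le_one_iff.2 (neg_nonpos.2 (by positivity)))).trans hT)

lemma step (hW : GW T W) (hT : T ≤ τ) (hτ : 1 ≤ τ) {n : ℕ} (hn : 1 ≤ n) (u : ℝ) :
    ‖((1 / √((n + 1 : ℕ) : ℝ) : ℝ) : ℂ) * W (u - un (n + 1)) -
      ((1 / √(n : ℝ) : ℝ) : ℂ) * W (u - un n)‖ ^ 2 ≤ 25 * τ ^ 4 / (n : ℝ) ^ 3 := by
  have hn1 : (1 : ℝ) ≤ n := by exact_mod_cast hn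
  have hn0 : (0 : ℝ) < n := by linarith
  have ha : 0 < √(n : ℝ) := Real.sqrt_pos.2 hn0
  have ha2 : √(n : ℝ) ^ 2 = n := Real.sq_sqrt hn0.le
  have hb2 : √((n + 1 : ℕ) : ℝ) ^ 2 = n + 1 := by
    rw [Real.sq_sqrt (Nat.cast_nonneg _)]
    push_cast
    ring
  have hab : √(n : ℝ) ≤ √((n + 1 : ℕ) : ℝ) := Real.sqrt_le_sqrt (by push_cast; linarith)
  set a := √(n : ℝ)
  set b := √((n + 1 : ℕ) : ℝ)
  have hb : 0 < b := ha.trans_le hab
  have h1 : |u - un (n + 1) - (u - un n)| ≤ 1 / (6 * n) := by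
    have e : u - un (n + 1) - (u - un n) = -(Real.log ((n + 1) / n) / (2 * π)) := by
      rw [un, un, Real.log_div (by linarith) hn0.ne']
      push_cast
      ring
    have h2 : 0 ≤ Real.log ((n + 1) / n) := Real.log_nonneg ((one_le_div hn0).2 (by linarith))
    have h3 : Real.log ((n + 1) / n) ≤ 1 / n :=
      (Real.log_le_sub_one_of_pos (by positivity)).trans_eq (by field_simp; ring)
    rw [e, abs_neg, abs_of_nonneg (by positivity)]
    calc Real.log ((n + 1) / n) / (2 * π) ≤ 1 / n / 6 :=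
          div_le_div₀ (by positivity) h3 (by norm_num) (by linarith [Real.pi_gt_three])
      _ = 1 / (6 * n) := by field_simp
  have h2 : ‖W (u - un (n + 1)) - W (u - un n)‖ ≤ 4 * τ ^ 2 / n := by
    refine (hW.lip _ _).trans ?_
    have h3 : T ^ 2 ≤ τ ^ 2 := pow_le_pow_left₀ (T_nonneg hW) hT 2
    refine (mul_le_mul (mul_le_mul_of_nonneg_left h3 (by norm_num)) h1 (abs_nonneg _)
      (by positivity)).trans ?_
    rw [mul_one_div, div_le_div_iff₀ (by positivity) hn0]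
    nlinarith [mul_nonneg (sq_nonneg τ) hn0.le]
  have h3 : |1 / b - 1 / a| ≤ 1 / a ^ 3 := by
    have e : 1 / b - 1 / a = -(1 / (a * b * (a + b))) := by
      field_simp
      nlinarith
    rw [e, abs_neg, abs_of_nonneg (by positivity)]
    refine one_div_le_one_div_of_le (by positivity) ?_
    rw [pow_succ, sq]
    exact mul_le_mul (mul_le_mul_of_nonneg_left hab ha.le) (by linarith) ha.le (by positivity)
  have e : ((1 / b : ℝ) : ℂ) * W (u - un (n + 1)) - ((1 / a : ℝ) : ℂ) * W (u - un n) =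
      ((1 / b : ℝ) : ℂ) * (W (u - un (n + 1)) - W (u - un n)) +
        ((1 / b - 1 / a : ℝ) : ℂ) * W (u - un n) := by
    push_cast
    ring
  have h4 : ‖((1 / b : ℝ) : ℂ) * W (u - un (n + 1)) - ((1 / a : ℝ) : ℂ) * W (u - un n)‖ ≤
      5 * τ ^ 2 / a ^ 3 := by
    rw [e]
    refine (norm_add_le _ _).trans ?_
    rw [norm_mul, norm_mul, Complex.norm_real, Complex.norm_real, Real.norm_eq_abs,
      Real.norm_eq_abs, abs_of_pos (by positivity : 0 < 1 / b)]
    have h5 := mul_le_mul (one_div_le_one_div_of_le ha hab) h2 (norm_nonneg _) (by positivity)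
    have h6 := mul_le_mul h3 ((W_le hW hT (u - un n)).trans (show τ ≤ τ ^ 2 by nlinarith))
      (norm_nonneg _) (by positivity)
    refine (add_le_add h5 h6).trans_eq ?_
    rw [← ha2]
    field_simp
    ring
  refine (pow_le_pow_left₀ (norm_nonneg _) h4 2).trans_eq ?_
  rw [← ha2]
  field_simp
  ring

lemma far (hW : GW T W) (hT : T ≤ τ) {m : ℕ} (hm : 1 ≤ m) {u s : ℝ} (hs : 0 ≤ s)
    (h : s ≤ |2 * π * u - Real.log m|) :
    ‖((1 / √(m : ℝ) : ℝ) : ℂ) * W (u - un m)‖ ≤ τ * Real.exp (-(s ^ 2 / 16)) := by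
  have hm1 : (1 : ℝ) ≤ √(m : ℝ) := Real.one_le_sqrt.2 (by exact_mod_cast hm)
  rw [norm_mul, Complex.norm_real, Real.norm_of_nonneg (by positivity)]
  refine (mul_le_of_le_one_left (norm_nonneg _) ((div_le_one (by linarith)).2 hm1)).trans
    ((hW.gauss _).trans (mul_le_mul hT (Real.exp_le_exp.2 (neg_le_neg ?_)) (Real.exp_pos _).le
      ((T_nonneg hW).trans hT)))
  have e : π * (u - un m) ^ 2 = (2 * π * u - Real.log m) ^ 2 / (4 * π) := by
    rw [un]
    field_simp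
    ring
  rw [e]
  refine div_le_div₀ (sq_nonneg _) ?_ (by positivity) (by linarith [Real.pi_le_four])
  rw [← sq_abs (2 * π * u - Real.log m)]
  exact pow_le_pow_left₀ hs h 2

lemma cube_sum (N : ℕ) {x : ℝ} (hx : 1 ≤ x) :
    ∑ n ∈ range (N + 1), (if x ≤ (n : ℝ) then 1 / (n : ℝ) ^ 3 else 0) ≤ 2 / x ^ 2 := by
  have hx0 : 0 < x := by linarith
  obtain ⟨k, hk⟩ : ∃ k : ℕ, ⌈x⌉₊ = k + 1 := Nat.exists_eq_succ_of_ne_zero (Nat.ceil_pos.2 hx0).ne'
  have hk' : x ≤ (k : ℝ) + 1 := by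
    have := Nat.le_ceil x
    rwa [hk, Nat.cast_succ] at this
  rw [← Finset.sum_filter]
  calc ∑ n ∈ (range (N + 1)).filter fun n : ℕ => x ≤ (n : ℝ), 1 / (n : ℝ) ^ 3
      ≤ ∑ n ∈ (range (N + 1)).filter fun n : ℕ => x ≤ (n : ℝ), 1 / x * ((n : ℝ) ^ 2)⁻¹ := by
        refine Finset.sum_le_sum fun n hn => ?_
        have h := (Finset.mem_filter.1 hn).2
        have h0 : (0 : ℝ) < n := hx0.trans_le h
        rw [pow_succ', ← one_div, one_div_mul_one_div]
        exact one_div_le_one_div_of_le (by positivity)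
          (mul_le_mul_of_nonneg_right h (by positivity))
    _ ≤ ∑ n ∈ Ioo k (N + 1), 1 / x * ((n : ℝ) ^ 2)⁻¹ := by
        refine Finset.sum_le_sum_of_subset_of_nonneg (fun n hn => ?_) fun n _ _ => by positivity
        obtain ⟨h1, h2⟩ := Finset.mem_filter.1 hn
        have h3 : ⌈x⌉₊ ≤ n := Nat.ceil_le.2 h2
        exact Finset.mem_Ioo.2 ⟨by omega, Finset.mem_range.1 h1⟩
    _ ≤ 1 / x * (2 / x) := by
        rw [← Finset.mul_sum]
        exact mul_le_mul_of_nonneg_left ((sum_Ioo_inv_sq_le k (N + 1)).trans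
          (div_le_div_of_nonneg_left (by norm_num) hx0 hk')) (by positivity)
    _ = 2 / x ^ 2 := by field_simp

lemma nrm_le (hW : GW T W) (hT : T ≤ τ) (Q : ℕ) {N : ℕ} (hN : 1 ≤ N) {L : ℝ} (hL : 1 ≤ L)
    (hNL : Real.log N ≤ 2 * L) (u : ℝ) : nrm N (a2 Q W u) ≤ (4 * τ * L) ^ 2 := by
  have h1 : ∀ n ∈ Icc 1 N, ‖a2 Q W u n‖ ^ 2 ≤ 2 * L * τ ^ 2 * (Λ n / n) := fun n hn => by
    obtain ⟨h1, h2⟩ := Finset.mem_Icc.1 hn
    have hn0 : (0 : ℝ) < n := by exact_mod_cast h1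
    have hΛ : 0 ≤ Λ n := ArithmeticFunction.vonMangoldt_nonneg
    have hΛ' : Λ n ≤ 2 * L := ArithmeticFunction.vonMangoldt_le_log.trans
      ((Real.log_le_log hn0 (by exact_mod_cast h2)).trans hNL)
    unfold a2
    split_ifs
    · rw [av, norm_mul, Complex.norm_real, mul_pow, Real.norm_eq_abs, sq_abs, div_pow,
        Real.sq_sqrt hn0.le]
      calc Λ n ^ 2 / n * ‖W (u - un n)‖ ^ 2 = Λ n * ‖W (u - un n)‖ ^ 2 * (Λ n / n) := by ring
        _ ≤ 2 * L * τ ^ 2 * (Λ n / n) := mul_le_mul_of_nonneg_right (mul_le_mul hΛ'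
            (pow_le_pow_left₀ (norm_nonneg _) (W_le hW hT _) 2) (sq_nonneg _) (by linarith))
            (by positivity)
    · rw [norm_zero, zero_pow two_ne_zero]
      positivity
  refine (Finset.sum_le_sum h1).trans ?_
  rw [← Finset.mul_sum]
  have h2 : mertSum N ≤ 8 * L := by
    have h3 := (mertSum_bounds hN).2
    have h4 : Real.log 4 ≤ 2 := by
      rw [show (4 : ℝ) = 2 ^ 2 by norm_num, Real.log_pow]
      have := Real.log_two_lt_d9
      push_cast
      linarith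
    linarith
  exact (mul_le_mul_of_nonneg_left h2 (by positivity)).trans_eq (by ring)

lemma var_le (hW : GW T W) (hT : T ≤ τ) (hτ : 1 ≤ τ) {δ L u : ℝ} {Q : ℕ} (hδ : 0 < δ)
    (hQ : (Q : ℝ) = Real.exp L) (hL : 1 ≤ L) (hδL : 2 ≤ δ * L) (hδ2 : 288 ≤ δ ^ 2 * L)
    (h1 : (1 + 3 * δ) * L ≤ 2 * π * u) (h2 : 2 * π * u ≤ (2 - 2 * δ) * L)
    (hN : Real.exp ((2 - δ) * L) ≤ 2 * NN δ Q) (hN' : (NN δ Q : ℝ) ≤ Real.exp (2 * L)) :
    ∑ n ∈ range (NN δ Q + 1), ‖gv δ Q W u (n + 1) - gv δ Q W u n‖ ^ 2 ≤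
      (8 * τ ^ 2 * Real.exp (δ * L - 2 * π * u)) ^ 2 := by
  set y := 2 * π * u with hy
  set N := NN δ Q with hNdef
  set x := Real.exp (y - δ * L) with hx
  set E := τ * Real.exp (-((δ * L - 1) ^ 2 / 16)) with hE
  have hE0 : 0 ≤ E := by positivity
  have hQx : (Q : ℝ) < x := by
    rw [hQ, hx]
    exact Real.exp_lt_exp.2 (by nlinarith)
  have hx1 : 1 ≤ x := Real.one_le_exp (by nlinarith)
  have hl2 : Real.log 2 ≤ 1 := by linarith [Real.log_two_lt_d9]
  have hfar : ∀ m : ℕ, ((m : ℝ) ≤ x + 1 ∨ N ≤ m) → ‖gv δ Q W u m‖ ≤ E := fun m hm => by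
    unfold gv
    split_ifs with h
    · have hm1 : 1 ≤ m := by omega
      have hm0 : (0 : ℝ) < m := by exact_mod_cast hm1
      refine far hW hT hm1 (by linarith) ?_
      rcases hm with hm | hm
      · have : Real.log m ≤ Real.log 2 + (y - δ * L) := by
          rw [← Real.log_exp (y - δ * L), ← Real.log_mul two_ne_zero (Real.exp_pos _).ne']
          exact Real.log_le_log hm0 (by linarith)
        exact le_abs.2 (Or.inl (by linarith))
      · have : (2 - δ) * L ≤ Real.log 2 + Real.log m := by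
          rw [← Real.log_mul two_ne_zero hm0.ne', Real.le_log_iff_exp_le (by positivity)]
          exact hN.trans (mul_le_mul_of_nonneg_left (by exact_mod_cast hm) zero_le_two)
        exact le_abs.2 (Or.inr (by linarith))
    · rwa [norm_zero]
  have hpt : ∀ n ∈ range (N + 1), ‖gv δ Q W u (n + 1) - gv δ Q W u n‖ ^ 2 ≤
      25 * τ ^ 4 * (if x ≤ (n : ℝ) then 1 / (n : ℝ) ^ 3 else 0) + (2 * E) ^ 2 := fun n hn => by
    by_cases h : x ≤ (n : ℝ) ∧ n + 1 ≤ N
    · have hQn : Q < n := by exact_mod_cast hQx.trans_le h.1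
      rw [if_pos h.1, gv, gv, if_pos ⟨by omega, h.2⟩, if_pos ⟨hQn, by omega⟩, mul_one_div]
      exact (step hW hT hτ (by omega) u).trans (le_add_of_nonneg_right (sq_nonneg _))
    · have h3 : ‖gv δ Q W u (n + 1) - gv δ Q W u n‖ ≤ 2 * E := by
        rw [two_mul]
        rcases not_and_or.1 h with h | h
        · have := not_le.1 h
          exact (norm_sub_le _ _).trans (add_le_add (hfar _ (Or.inl (by push_cast; linarith)))
            (hfar _ (Or.inl (by linarith))))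
        · exact (norm_sub_le _ _).trans (add_le_add (hfar _ (Or.inr (by omega)))
            (hfar _ (Or.inr (by omega))))
      refine (pow_le_pow_left₀ (norm_nonneg _) h3 2).trans (le_add_of_nonneg_left ?_)
      split_ifs <;> positivity
  refine (Finset.sum_le_sum hpt).trans ?_
  rw [Finset.sum_add_distrib, ← Finset.mul_sum, Finset.sum_const, Finset.card_range, nsmul_eq_mul]
  have e1 : Real.exp (δ * L - y) ^ 2 = 1 / x ^ 2 := by
    rw [hx, ← neg_sub y, Real.exp_neg, inv_pow, one_div]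
  have h3 := mul_le_mul_of_nonneg_left (cube_sum N hx1) (show 0 ≤ 25 * τ ^ 4 by positivity)
  have h4 : ((N + 1 : ℕ) : ℝ) * (2 * E) ^ 2 ≤ 8 * τ ^ 4 * (1 / x ^ 2) := by
    have h5 : ((N + 1 : ℕ) : ℝ) ≤ 2 * Real.exp (2 * L) := by
      have := Real.one_le_exp (show 0 ≤ 2 * L by linarith)
      push_cast
      linarith
    have h6 : Real.exp (2 * L) * Real.exp (-((δ * L - 1) ^ 2 / 16)) ^ 2 ≤ 1 / x ^ 2 := by
      rw [← e1, ← Real.exp_nat_mul, ← Real.exp_nat_mul, ← Real.exp_add]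
      refine Real.exp_le_exp.2 ?_
      have h7 : (δ * L / 2) ^ 2 ≤ (δ * L - 1) ^ 2 :=
        pow_le_pow_left₀ (by linarith) (by linarith) 2
      have h8 : 288 * L ≤ δ ^ 2 * L * L := mul_le_mul_of_nonneg_right hδ2 (by linarith)
      push_cast
      nlinarith
    have h7 : τ ^ 2 ≤ τ ^ 4 := pow_le_pow_right₀ hτ (by norm_num)
    calc ((N + 1 : ℕ) : ℝ) * (2 * E) ^ 2 ≤ 2 * Real.exp (2 * L) * (2 * E) ^ 2 :=
          mul_le_mul_of_nonneg_right h5 (sq_nonneg _)
      _ = 8 * τ ^ 2 * (Real.exp (2 * L) * Real.exp (-((δ * L - 1) ^ 2 / 16)) ^ 2) := by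
          rw [hE]
          ring
      _ ≤ 8 * τ ^ 4 * (1 / x ^ 2) :=
          mul_le_mul (by linarith) h6 (by positivity) (by positivity)
  have h5 : 0 ≤ τ ^ 4 * (1 / x ^ 2) := by positivity
  rw [mul_pow (8 * τ ^ 2), e1]
  calc _ ≤ 25 * τ ^ 4 * (2 / x ^ 2) + 8 * τ ^ 4 * (1 / x ^ 2) := add_le_add h3 h4
    _ = 58 * (τ ^ 4 * (1 / x ^ 2)) := by ring
    _ ≤ 64 * (τ ^ 4 * (1 / x ^ 2)) := by linarith
    _ = (8 * τ ^ 2) ^ 2 * (1 / x ^ 2) := by ring

end Q_Gain

open Q_Gain in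
theorem stmtGain (hL : StmtLS2) (hMo : StmtModel) : StmtGain := by
  intro δ ε hδ hδ4 hε
  obtain ⟨Q₀, hQ₀⟩ := hL δ ε hδ hε
  refine ⟨max Q₀ ⌈Real.exp (12288 / δ ^ 3)⌉₊, fun Q hQ T W Q₁ hT hW hQ₁ hQ₂ u hu => ?_⟩
  have hQe : Real.exp (12288 / δ ^ 3) ≤ Q := Nat.ceil_le.1 ((le_max_right _ _).trans hQ)
  have hQ0 : (0 : ℝ) < Q := (Real.exp_pos _).trans_le hQe
  have hL3 : 12288 ≤ δ ^ 3 * Real.log Q := by
    have := (Real.le_log_iff_exp_le hQ0).2 hQe
    rwa [div_le_iff₀' (by positivity)] at this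
  have hNle : (NN δ Q : ℝ) ≤ (Q : ℝ) ^ (2 - δ) := Nat.floor_le (by positivity)
  have hcop : Cop (NN δ Q) Q (a2 Q W u) := fun k hk n _ hn => by
    unfold a2 at hn
    split_ifs at hn with h
    · obtain ⟨h1, h2⟩ := Finset.mem_Icc.1 hk
      exact Nat.coprime_of_lt_prime (by omega) (by omega) h.1
    · exact absurd rfl hn
  have hfam : 0 ≤ famCard Q₁ Q := Finset.sum_nonneg fun _ _ => Nat.cast_nonneg _
  have main := fun h β₀ => hQ₀ Q ((le_max_left _ _).trans hQ) Q₁ (NN δ Q) (a2 Q W u) h β₀ hQ₁ hQ₂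
    hNle hcop
  rcases le_or_gt (2 * π * u - (1 + 3 * δ) * Real.log Q) 0 with h0 | h0
  · refine (main 0 0 le_rfl le_rfl (Or.inl rfl)).trans (add_le_add
      (mul_le_mul_of_nonneg_left ?_ hfam) le_rfl)
    rw [hh, max_eq_right h0]
    linarith
  have hpow : ∀ s : ℝ, (Q : ℝ) ^ s = Real.exp (s * Real.log Q) := fun s => by
    rw [Real.rpow_def_of_pos hQ0, mul_comm]
  have hu' : 2 * π * u ≤ (2 - 2 * δ) * Real.log Q := by
    rwa [ell, le_div_iff₀' (by positivity)] at hu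
  have hNge : (Q : ℝ) ^ (2 - δ) < NN δ Q + 1 := Nat.lt_floor_add_one _
  have hQL : (Q : ℝ) = Real.exp (Real.log Q) := (Real.exp_log hQ0).symm
  rw [hh, max_eq_left h0.le]
  rw [hpow] at hT hNle hNge
  generalize Real.log Q = L at hL3 h0 hu' hT hNle hNge hQL ⊢
  have hL0 : 0 < L := (mul_pos_iff_of_pos_left (pow_pos hδ 3)).1 (by linarith)
  have hδ2 : 288 ≤ δ ^ 2 * L := by nlinarith [mul_pos (pow_pos hδ 2) hL0]
  have hδ1 : 2 ≤ δ * L := by nlinarith [mul_pos hδ hL0]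
  have hL1 : 1 ≤ L := by nlinarith
  have he2 : 2 ≤ Real.exp ((2 - δ) * L) := by
    have := Real.add_one_le_exp ((2 - δ) * L)
    nlinarith
  have hN : Real.exp ((2 - δ) * L) ≤ 2 * NN δ Q := by linarith
  have hN1 : (1 : ℝ) ≤ NN δ Q := by linarith
  have hN' : (NN δ Q : ℝ) ≤ Real.exp (2 * L) := hNle.trans (Real.exp_le_exp.2 (by linarith))
  set y := 2 * π * u with hy
  set τ := Real.exp (δ / 4 * L) with hτdef
  have hτ : 1 ≤ τ := Real.one_le_exp (by positivity)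
  have hβ : Real.exp (2 * δ * L - y) ≤ 1 / 2 := by
    refine (Real.exp_le_exp.2 (show 2 * δ * L - y ≤ -1 by linarith)).trans ?_
    rw [Real.exp_neg, one_div]
    exact inv_anti₀ two_pos (by linarith [Real.add_one_le_exp (1 : ℝ)])
  have hcond : 2 * Q * Real.exp (y - (1 + 3 * δ) * L) *
      (Real.exp (2 * δ * L - y) + 1 / NN δ Q) ≤ 1 := by
    have h1 : 1 / (NN δ Q : ℝ) ≤ 2 * Real.exp (2 * δ * L - y) := by
      rw [div_le_iff₀ (by linarith)]
      have h2 : 1 ≤ Real.exp (2 * δ * L - y) * Real.exp ((2 - δ) * L) := by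
        rw [← Real.exp_add]
        exact Real.one_le_exp (by linarith)
      nlinarith [mul_le_mul_of_nonneg_left hN (Real.exp_pos (2 * δ * L - y)).le]
    have h2 : Real.exp L * Real.exp (y - (1 + 3 * δ) * L) * Real.exp (2 * δ * L - y) ≤ 1 / 6 := by
      rw [← Real.exp_add, ← Real.exp_add]
      refine (Real.exp_le_exp.2 (show _ ≤ -2 by linarith)).trans ?_
      rw [Real.exp_neg, one_div]
      refine inv_anti₀ (by norm_num) ?_
      have h3 : Real.exp 2 = Real.exp 1 * Real.exp 1 := by rw [← Real.exp_add]; norm_num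
      nlinarith [Real.exp_one_gt_d9]
    calc 2 * Q * Real.exp (y - (1 + 3 * δ) * L) * (Real.exp (2 * δ * L - y) + 1 / NN δ Q)
        ≤ 2 * Q * Real.exp (y - (1 + 3 * δ) * L) * (3 * Real.exp (2 * δ * L - y)) :=
          mul_le_mul_of_nonneg_left (by linarith) (by positivity)
      _ = 6 * (Real.exp L * Real.exp (y - (1 + 3 * δ) * L) * Real.exp (2 * δ * L - y)) := by
          rw [← hQL]
          ring
      _ ≤ 1 := by linarith
  refine (main _ _ h0.le (Real.exp_pos _).le (Or.inr hcond)).trans (add_le_add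
    (mul_le_mul_of_nonneg_left ?_ hfam) le_rfl)
  have hmo := hMo (NN δ Q) (a2 Q W u) (gv δ Q W u) _ (Real.exp_pos _) hβ (by simp [gv])
    (by simp [gv])
  have s1 : √(nrm (NN δ Q) (a2 Q W u)) ≤ 4 * τ * L :=
    Real.sqrt_le_iff.2 ⟨by positivity, nrm_le hW hT Q (by exact_mod_cast hN1) hL1
      ((Real.log_le_iff_le_exp (by linarith)).2 hN') u⟩
  have s2 : √(∑ n ∈ range (NN δ Q + 1), ‖gv δ Q W u (n + 1) - gv δ Q W u n‖ ^ 2) ≤
      8 * τ ^ 2 * Real.exp (δ * L - y) :=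
    Real.sqrt_le_iff.2 ⟨by positivity, var_le hW hT hτ hδ hQL hL1 hδ1 hδ2 (by linarith) hu' hN hN'⟩
  have s3 := div_le_div_of_nonneg_right (mul_le_mul s1 s2 (Real.sqrt_nonneg _) (by positivity))
    (show 0 ≤ 2 * Real.exp (2 * δ * L - y) by positivity)
  have s4 : 2 * L * (4 * τ * L * (8 * τ ^ 2 * Real.exp (δ * L - y)) /
      (2 * Real.exp (2 * δ * L - y))) ≤ 1 := by
    have e1 : Real.exp (2 * δ * L - y) = τ ^ 4 * Real.exp (δ * L - y) := by
      rw [hτdef, ← Real.exp_nat_mul, ← Real.exp_add]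
      congr 1
      push_cast
      ring
    have e2 : 32 * L ^ 2 ≤ τ := by
      refine le_trans ?_ (Real.pow_div_factorial_le_exp (δ / 4 * L) (by positivity) 3)
      have := mul_le_mul_of_nonneg_right hL3 (sq_nonneg L)
      norm_num [Nat.factorial]
      nlinarith
    have e3 : 2 * L * (4 * τ * L * (8 * τ ^ 2 * Real.exp (δ * L - y)) /
        (2 * (τ ^ 4 * Real.exp (δ * L - y)))) = 32 * L ^ 2 / τ := by
      field_simp
      ring
    rw [e1, e3]
    exact (div_le_one (by linarith)).2 e2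
  have s5 := mul_le_mul (show y - (1 + 3 * δ) * L ≤ 2 * L by linarith) s3 (by positivity)
    (by linarith)
  have s6 := mul_le_mul_of_nonneg_left hmo h0.le
  rw [gain]
  linarith

end Pool.Agent.MP_f259ea_nt.Q
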