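import Pool.Agent.MP_f259ea_nt.Q_Defs

set_option autoImplicit false

open Complex MeasureTheory Finset
open scoped Real ComplexConjugate Classical Nat

namespace Pool.Agent.MP_f259ea_nt.Q

namespace Q_Gauss

theorem parseval {κ ι : Type*} [Fintype κ] [Fintype ι] [DecidableEq ι] (g : κ → ι → ℂ)
    (w : ι → ℝ)
    (h : ∀ b b', ∑ k, g k b * conj (g k b') = if b = b' then (w b : ℂ) else 0) (x : ι → ℂ) :
    ∑ k, ‖∑ b, g k b * x b‖ ^ 2 = ∑ b, w b * ‖x b‖ ^ 2 := by
  apply Complex.ofReal_injective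
  push_cast
  simp only [← Complex.mul_conj', map_sum, map_mul, Finset.sum_mul_sum]
  rw [Finset.sum_comm]
  refine Finset.sum_congr rfl fun b _ => ?_
  rw [Finset.sum_comm]
  have : ∀ b', ∑ k, g k b * x b * (conj (g k b') * conj (x b')) =
      (∑ k, g k b * conj (g k b')) * (x b * conj (x b')) := fun b' => by
    rw [Finset.sum_mul]; exact Finset.sum_congr rfl fun k _ => by ring
  simp [this, h]

variable {d : ℕ} [NeZero d]

theorem norm_chi (χ : DirichletCharacter ℂ d) (b : ZMod d) :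
    ‖χ b‖ ^ 2 = if IsUnit b then 1 else 0 := by
  split_ifs with h
  · obtain ⟨u, rfl⟩ := h
    rw [χ.unit_norm_eq_one, one_pow]
  · simp [χ.map_nonunit h]

theorem norm_gauss {χ : DirichletCharacter ℂ d} (hχ : χ.IsPrimitive) :
    ‖gaussSum χ ZMod.stdAddChar‖ ^ 2 = d := by
  have h := parseval (fun n b : ZMod d => ZMod.stdAddChar (n * b)) (fun _ => (d : ℝ))
    (fun b b' => by
      have := AddChar.sum_mulShift (b - b') (ZMod.isPrimitive_stdAddChar d)
      simp only [← AddChar.map_neg_eq_conj, ← AddChar.map_add_eq_mul, ← sub_eq_add_neg, ← mul_sub]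
      rw [this]
      simp [sub_eq_zero]) χ
  have e : ∀ n : ZMod d, ∑ b, ZMod.stdAddChar (n * b) * χ b =
      χ⁻¹ n * gaussSum χ ZMod.stdAddChar := fun n => by
    rw [← gaussSum_mulShift_of_isPrimitive _ hχ, gaussSum]
    exact Finset.sum_congr rfl fun b _ => by rw [AddChar.mulShift_apply, mul_comm]
  simp only [e, norm_mul, mul_pow, norm_chi, ← Finset.sum_mul, ← Finset.mul_sum] at h
  have hp : (0 : ℝ) < ∑ b : ZMod d, if IsUnit b then 1 else 0 :=
    Finset.sum_pos' (fun b _ => by positivity) ⟨1, mem_univ _, by simp⟩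
  rw [mul_comm] at h
  exact mul_right_cancel₀ hp.ne' h

theorem orth (b b' : ZMod d) : ∑ χ : DirichletCharacter ℂ d, χ⁻¹ b * conj (χ⁻¹ b') =
    if b = b' then (((if IsUnit b then φ d else 0 : ℝ)) : ℂ) else 0 := by
  by_cases hb : IsUnit b
  · obtain ⟨u, rfl⟩ := hb
    have : ∀ χ : DirichletCharacter ℂ d, χ⁻¹ u * conj (χ⁻¹ b') = χ (↑u⁻¹ * b') := fun χ => by
      rw [map_mul, map_units_inv, MulChar.inv_apply_eq_inv', ← Complex.star_def,
        MulChar.star_apply', inv_inv]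
    simp only [this, DirichletCharacter.sum_characters_eq, Units.inv_mul_eq_one]
    simp
  · simp [MulChar.map_nonunit _ hb, hb]

theorem sum_red (f : ZMod d → ℝ) :
    ∑ b : ZMod d, (if IsUnit b then f b else 0) = ∑ b ∈ red d, f b := by
  rw [red, Finset.sum_filter]
  refine Finset.sum_nbij' (fun b => b.val) (fun n => (n : ZMod d)) (fun b _ => ?_)
    (fun _ _ => mem_univ _) (fun b _ => by simp) (fun n hn => ?_) (fun b _ => ?_)
  · simpa using b.val_lt
  · exact ZMod.val_cast_of_lt (by simpa using hn)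
  · simp [← ZMod.isUnit_iff_coprime]

theorem Sx_eq (N : ℕ) (a : ℕ → ℂ) (b : ℕ) : Sx N a ((b : ℝ) / d + 0) =
    ∑ n ∈ Icc 1 N, a n * ZMod.stdAddChar ((n : ZMod d) * (b : ZMod d)) := by
  refine Finset.sum_congr rfl fun n _ => ?_
  have := ZMod.stdAddChar_coe (N := d) ((n * b : ℕ) : ℤ)
  push_cast at this
  rw [this, ee]
  congr 2
  push_cast
  ring

end Q_Gauss

open Q_Gauss

theorem stmtGauss : StmtGauss := fun d N a hd => by
  have : NeZero d := ⟨by omega⟩
  have hd' : (0 : ℝ) < d := by exact_mod_cast hd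
  have h := parseval _ _ (orth (d := d))
    fun b => ∑ n ∈ Icc 1 N, a n * ZMod.stdAddChar ((n : ZMod d) * b)
  simp only [ite_mul, zero_mul, sum_red, ← Sx_eq, ← Finset.mul_sum] at h
  have h1 : d * Ad d N a ≤ φ d * Bq d N a 0 := by
    rw [Bq, ← h, Ad, Finset.mul_sum]
    refine le_trans (le_of_eq (Finset.sum_congr rfl fun χ hχ => ?_))
      (Finset.sum_le_sum_of_subset_of_nonneg (subset_univ (prim d)) fun _ _ _ => by positivity)
    have hp : χ⁻¹.IsPrimitive := by
      have := (mem_filter.1 hχ).2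
      rwa [DirichletCharacter.isPrimitive_def, DirichletCharacter.conductor_inv] at *
    rw [← norm_gauss hp, ← mul_pow, ← norm_mul]
    congr 2
    simp only [Finset.mul_sum]
    rw [Finset.sum_comm]
    refine Finset.sum_congr rfl fun n _ => ?_
    have := gaussSum_mulShift_of_isPrimitive ZMod.stdAddChar hp (n : ZMod d)
    rw [inv_inv] at this
    rw [mul_comm, mul_assoc, ← this, gaussSum, Finset.mul_sum]
    exact Finset.sum_congr rfl fun b _ => by rw [AddChar.mulShift_apply]; ring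
  have h2 : (φ d : ℝ) ≤ d := by exact_mod_cast Nat.totient_le d
  have h3 : 0 ≤ Bq d N a 0 := Finset.sum_nonneg fun _ _ => by positivity
  exact le_of_mul_le_mul_left (h1.trans (mul_le_mul_of_nonneg_right h2 h3)) hd'

theorem stmtLS0 (hU : StmtUnfold) (hA : StmtArcs) (hG : StmtGall) : StmtLS0 :=
    fun Q₁ Q N a => by
  have hn : 0 ≤ nrm N a := Finset.sum_nonneg fun _ _ => by positivity
  rcases Nat.eq_zero_or_pos N with rfl | hN
  · simp [famSum, Ad, nrm]
  have hN' : (1 : ℝ) ≤ N := by exact_mod_cast hN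
  have h1 : famSum Q₁ Q N a ≤ ∑ q ∈ Icc 1 Q, Bq q N a 0 := by
    refine (Finset.sum_le_sum fun d hd => stmtGauss d N a ?_).trans
      (Finset.sum_le_sum_of_subset_of_nonneg (fun d hd => ?_)
        fun _ _ _ => Finset.sum_nonneg fun _ _ => by positivity)
    · have := (mem_Ioc.1 hd).1; omega
    · have := mem_Ioc.1 hd; exact mem_Icc.2 ⟨by omega, this.2⟩
  have hη : (0 : ℝ) < 1 / (4 * N) := by positivity
  have hη' : (1 : ℝ) / (4 * N) < 1 / 2 := one_div_lt_one_div_of_lt (by norm_num) (by linarith)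
  have h2 := (abs_le.1 (hG Q N a _ 1 (fun _ => 1) hη hη' zero_le_one fun _ _ => by simp)).2
  obtain ⟨hc, hp, hi⟩ := hU.1 N a
  have hc2 : Continuous fun θ => ‖Sx N a θ‖ ^ 2 := by fun_prop
  have h3 : ∫ θ in (0 : ℝ)..1, (∑ q ∈ Icc 1 Q, (1 : ℝ) * nB q (1 / (4 * N)) θ) * ‖Sx N a θ‖ ^ 2
      ≤ (2 * (1 / (4 * N)) * (Q : ℝ) ^ 2 + 1) * nrm N a := by
    rw [← hi, ← intervalIntegral.integral_const_mul]
    refine intervalIntegral.integral_mono_on zero_le_one ?_
      ((continuous_const.mul hc2).intervalIntegrable _ _) fun θ _ => ?_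
    · simp only [one_mul, Finset.sum_mul]
      have := IntervalIntegrable.sum (Icc 1 Q) fun q _ =>
        (hU.2 q (Set.Iic (1 / (4 * N))) _ measurableSet_Iic hc2 fun x => by rw [hp x]).1
      rw [Finset.sum_fn] at this
      exact this
    · simp only [one_mul]
      exact mul_le_mul_of_nonneg_right (hA.1 Q _ θ hη.le hη') (by positivity)
  have e1 : (1 : ℝ) / (2 * (1 / (4 * N))) = 2 * N := by field_simp; norm_num
  have e2 : 2 * (1 / (4 * N)) * (Q : ℝ) ^ 2 + 1 = ((Q : ℝ) ^ 2 + 2 * N) / (2 * N) := by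
    field_simp; ring
  rw [e2] at h2 h3
  rw [e1] at h2
  simp only [one_mul] at h2 h3
  have h4 := mul_le_mul_of_nonneg_left h3 (by positivity : (0 : ℝ) ≤ 2 * N)
  have e3 : 2 * N * (((Q : ℝ) ^ 2 + 2 * N) / (2 * N) * nrm N a) =
      ((Q : ℝ) ^ 2 + 2 * N) * nrm N a := by field_simp
  have e4 : ((Q : ℝ) ^ 2 + 2 * N) / (2 * N) * (4 * π * N) * nrm N a =
      2 * π * (((Q : ℝ) ^ 2 + 2 * N) * nrm N a) := by field_simp; ring
  rw [e3] at h4
  rw [e4] at h2
  have h5 : 0 ≤ (Q : ℝ) ^ 2 * nrm N a := by positivity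
  have h6 : 0 ≤ (N : ℝ) * nrm N a := by positivity
  nlinarith [mul_le_mul_of_nonneg_right Real.pi_lt_d2.le h5,
    mul_le_mul_of_nonneg_right Real.pi_lt_d2.le h6]

end Pool.Agent.MP_f259ea_nt.Q
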