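import Pool.Agent.MP_f259ea_nt.Q_Defs
import Pool.Agent.MP_f259ea_nt.C_Cert

/-!
The functional `J2` of a piecewise linear kernel.
-/

set_option autoImplicit false

open MeasureTheory Finset

namespace Pool.Agent.MP_f259ea_nt.Q

/-- `∫ |a| D tent (a / D - j) da` for an integer `j`. -/
noncomputable def tau (D : ℝ) (j : ℤ) : ℝ := if j = 0 then D ^ 3 / 3 else D ^ 3 * |(j : ℝ)|

lemma int_tau {D : ℝ} (hD : 0 < D) (j : ℤ) :
    ∫ a, |a| * (D * tent (a / D - j)) = tau D j := by
  unfold tau
  split_ifs with h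
  · subst h
    simpa using int_abs_tent_zero hD
  · exact int_abs_tent_of_one_le hD (by exact_mod_cast Int.one_le_abs h)

lemma int_tau_shift {D : ℝ} (hD : 0 < D) (j k : ℤ) :
    ∫ a, |a - k * D| * (D * tent (a / D - j)) = tau D (j - k) := by
  rw [← int_tau hD, ← integral_add_right_eq_self _ (k * D)]
  congr 1; funext a
  have : (a + k * D) / D - j = a / D - ((j - k : ℤ) : ℝ) := by push_cast; field_simp; ring
  rw [this, add_sub_cancel_right]

lemma tent_int {D : ℝ} (hD : 0 < D) (j : ℝ) {g : ℝ → ℝ} (hg : Continuous g) :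
    Integrable fun a : ℝ => g a * (D * tent (a / D - j)) := by
  have := (tent_integrable hD j (g := fun a => ((g a : ℝ) : ℂ)) (by fun_prop)).re
  simp only [RCLike.re_to_complex, ← Complex.ofReal_mul, Complex.ofReal_re] at this
  simpa only [mul_comm] using this

lemma int_tent_one {D : ℝ} (hD : 0 < D) (j : ℝ) : ∫ a, D * tent (a / D - j) = D ^ 2 := by
  have h0 : ∫ t, tent t = 1 := by
    have := int_tent_mul (fun _ => 1) continuous_const
    simp only [mul_one] at this
    rw [this, intervalIntegral.integral_mul_const, intervalIntegral.integral_sub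
      intervalIntegrable_const (Continuous.intervalIntegrable (by fun_prop) _ _), integral_id]
    simp; norm_num
  rw [← integral_add_right_eq_self _ (j * D)]
  have e : ∀ a : ℝ, (a + j * D) / D - j = a / D := fun a => by field_simp; ring
  simp only [e]
  rw [integral_const_mul, Measure.integral_comp_div tent D, h0, abs_of_pos hD, smul_eq_mul]
  ring

lemma min_eq (a : ℝ) : min (2 * |a|) 1 = 2 * |a| + 1 - |a - 1 / 2| - |a + 1 / 2| := by
  rcases le_total a (-(1 / 2)) with h | h
  · rw [abs_of_nonpos (by linarith), abs_of_nonpos (by linarith), abs_of_nonpos (by linarith),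
      min_eq_right (by linarith)]; ring
  rcases le_total a 0 with h1 | h1
  · rw [abs_of_nonpos h1, abs_of_nonpos (by linarith), abs_of_nonneg (by linarith),
      min_eq_left (by linarith)]; ring
  rcases le_total a (1 / 2) with h2 | h2
  · rw [abs_of_nonneg h1, abs_of_nonpos (by linarith), abs_of_nonneg (by linarith),
      min_eq_left (by linarith)]; ring
  · rw [abs_of_nonneg h1, abs_of_nonneg (by linarith), abs_of_nonneg (by linarith),
      min_eq_right (by linarith)]; ring

/-- The weight of lag `j`. -/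
noncomputable def lagT (D : ℝ) (k : ℤ) (j : ℤ) : ℝ :=
  (if j = 0 then D / 2 else 0) + (2 * tau D j + D ^ 2 - tau D (j - k) - tau D (j + k))

lemma int_min {D : ℝ} (hD : 0 < D) {k : ℤ} (hk : k * D = 1 / 2) (j : ℤ) :
    ∫ a, min (2 * |a|) 1 * (D * tent (a / D - j))
      = 2 * tau D j + D ^ 2 - tau D (j - k) - tau D (j + k) := by
  have h1 := int_tau_shift hD j k
  have h2 := int_tau_shift hD j (-k)
  rw [hk] at h1
  have e : ((-k : ℤ) : ℝ) * D = -(1 / 2) := by push_cast; linarith
  rw [e, sub_neg_eq_add] at h2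
  simp only [sub_neg_eq_add] at h2
  rw [← h1, ← h2, ← int_tau hD, ← int_tent_one hD j, ← integral_const_mul, ← integral_add,
    ← integral_sub, ← integral_sub]
  · congr 1; funext a; rw [min_eq]; ring
  · exact (((tent_int hD j (g := fun a => |a|) (by fun_prop)).const_mul 2).add
      (by simpa using tent_int hD j (g := fun _ => 1) continuous_const)).sub
      (tent_int hD j (g := fun a => |a - 1 / 2|) (by fun_prop))
  · exact tent_int hD j (g := fun a => |a + 1 / 2|) (by fun_prop)
  · exact ((tent_int hD j (g := fun a => |a|) (by fun_prop)).const_mul 2).add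
      (by simpa using tent_int hD j (g := fun _ => 1) continuous_const)
  · exact tent_int hD j (g := fun a => |a - 1 / 2|) (by fun_prop)
  · exact (tent_int hD j (g := fun a => |a|) (by fun_prop)).const_mul 2
  · simpa using tent_int hD j (g := fun _ => 1) continuous_const

theorem J2_eq {d : BData} (hd : d.Good) {k : ℤ} (hk : k * d.D = 1 / 2) :
    J2 d.K = ∑ i ∈ range d.n, ∑ i' ∈ range d.n, d.w i i' * lagT d.D k ((i : ℤ) - i') := by
  have hD := BData.D_pos hd
  have hint : ∀ j : ℝ, Integrable fun a : ℝ => min (2 * |a|) 1 * (d.D * tent (a / d.D - j)) :=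
    fun j => tent_int hD j (by fun_prop)
  have e : ∫ a in (-1 : ℝ)..1, d.K a * min (2 * |a|) 1 = ∑ i ∈ range d.n, ∑ i' ∈ range d.n,
      d.w i i' * ∫ a, min (2 * |a|) 1 * (d.D * tent (a / d.D - ((i : ℝ) - i'))) := by
    rw [BData.int_K hd]
    simp only [← integral_const_mul]
    rw [Finset.sum_congr rfl fun (i : ℕ) _ => (integral_finsetSum _ fun (i' : ℕ) _ =>
      (hint ((i : ℝ) - i')).const_mul (d.w i i')).symm,
      ← integral_finsetSum _ fun (i : ℕ) _ => integrable_finsetSum _ fun (i' : ℕ) _ =>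
      (hint ((i : ℝ) - i')).const_mul (d.w i i')]
    congr 1; funext a
    unfold BData.K
    rw [Finset.sum_mul]
    refine Finset.sum_congr rfl fun i _ => ?_
    rw [Finset.sum_mul]
    refine Finset.sum_congr rfl fun i' _ => ?_
    ring
  rw [J2, e, BData.K, Finset.sum_div, ← Finset.sum_add_distrib]
  refine Finset.sum_congr rfl fun i _ => ?_
  rw [Finset.sum_div, ← Finset.sum_add_distrib]
  refine Finset.sum_congr rfl fun i' _ => ?_
  have h1 := int_min hD hk ((i : ℤ) - i')
  push_cast at h1
  rw [h1, lagT, mul_div_assoc, ← mul_add]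
  congr 2
  split_ifs with h
  · have : i = i' := by omega
    subst this
    simp [tent]
  · have h1 : 1 ≤ |(i : ℝ) - i'| := by exact_mod_cast Int.one_le_abs h
    rw [tent_eq_zero (by simpa [abs_sub_comm] using h1)]
    simp

/-- The same sum, grouped by lags. -/
theorem J2_lag {d : BData} (hd : d.Good) {k : ℤ} (hk : k * d.D = 1 / 2) :
    J2 d.K = ∑ r ∈ range d.n, (∑ i ∈ range (d.n - r), d.w (i + r) i)
        * (lagT d.D k r + lagT d.D k (-r)) - (∑ i ∈ range d.n, d.w i i) * lagT d.D k 0 := by
  rw [J2_eq hd hk]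
  have h := sum_lag d.n d.w BData.w_symm (fun x => lagT d.D k ⌊x⌋)
  have e1 : ∀ i i' : ℕ, ⌊(i : ℝ) - i'⌋ = (i : ℤ) - i' := fun i i' => by
    rw [show (i : ℝ) - i' = (((i : ℤ) - i' : ℤ) : ℝ) by push_cast; ring, Int.floor_intCast]
  have e2 : ∀ r : ℕ, ⌊-(r : ℝ)⌋ = -(r : ℤ) := fun r => by
    rw [show -(r : ℝ) = ((-(r : ℤ) : ℤ) : ℝ) by push_cast; ring, Int.floor_intCast]
  simpa only [e1, e2, Int.floor_natCast, Int.floor_zero] using h

end Pool.Agent.MP_f259ea_nt.Q
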