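import Pool.Agent.MP_f259ea_nt.Q_Main0
import Pool.Agent.MP_f259ea_nt.Q_Diag
import Pool.Agent.MP_f259ea_nt.Q_Num2

/-!
Conductor aspect: the diagonal term.
-/

set_option autoImplicit false

namespace Pool.Agent.MP_f259ea_nt.Q

theorem diag : StmtDiag := stmtDiag stmtMert2 stmtShift

end Pool.Agent.MP_f259ea_nt.Q
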