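import Pool.Agent.MP_f259ea_nt.Q_Defs

set_option autoImplicit false

open Complex MeasureTheory Finset
open scoped Real ComplexConjugate Classical Nat

namespace Pool.Agent.MP_f259ea_nt.Q

namespace MajInt

/-- The unfolded integrand. -/
noncomputable def F (K : Finset ℕ) (s : ℕ → Set ℝ) (N : ℕ) (a : ℕ → ℂ) (β : ℝ) : ℝ :=
  ∑ k ∈ K, (s k).indicator (fun _ => (1 : ℝ)) |β| * Bq k N a β

theorem Bq_nonneg (k N : ℕ) (a : ℕ → ℂ) (β : ℝ) : 0 ≤ Bq k N a β :=
  Finset.sum_nonneg fun _ _ => by positivity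

theorem Ad_nonneg (d N : ℕ) (a : ℕ → ℂ) : 0 ≤ Ad d N a :=
  Finset.sum_nonneg fun _ _ => by positivity

theorem F_eq (K : Finset ℕ) (s : ℕ → Set ℝ) (N : ℕ) (a : ℕ → ℂ) (β : ℝ)
    [DecidablePred fun k => |β| ∈ s k] : F K s N a β = ∑ k ∈ K with |β| ∈ s k, Bq k N a β := by
  unfold F
  rw [Finset.sum_filter]
  refine Finset.sum_congr rfl fun k _ => ?_
  by_cases h : |β| ∈ s k
  · simp [h]
  · simp [h]

theorem F_nonneg (K : Finset ℕ) (s : ℕ → Set ℝ) (N : ℕ) (a : ℕ → ℂ) (β : ℝ) :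
    0 ≤ F K s N a β := by
  rw [F_eq]
  exact Finset.sum_nonneg fun k _ => Bq_nonneg k N a β

theorem unfoldF (hU : StmtUnfold) (K : Finset ℕ) (s : ℕ → Set ℝ) (hs : ∀ k, MeasurableSet (s k))
    (N : ℕ) (a : ℕ → ℂ) :
    IntervalIntegrable (fun θ => (∑ k ∈ K, (nS k (s k) θ : ℝ)) * ‖Sx N a θ‖ ^ 2) volume 0 1 ∧
    IntervalIntegrable (F K s N a) volume (-(1 / 2)) (1 / 2) ∧
    ∫ θ in (0 : ℝ)..1, (∑ k ∈ K, (nS k (s k) θ : ℝ)) * ‖Sx N a θ‖ ^ 2
      = ∫ β in (-(1 / 2) : ℝ)..(1 / 2), F K s N a β := by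
  have hc : Continuous fun θ => ‖Sx N a θ‖ ^ 2 := (hU.1 N a).1.norm.pow 2
  have hp : Function.Periodic (fun θ => ‖Sx N a θ‖ ^ 2) 1 := fun x => by
    simp only [(hU.1 N a).2.1 x]
  have h := fun k => hU.2 k (s k) _ (hs k) hc hp
  have e1 : (fun θ => (∑ k ∈ K, (nS k (s k) θ : ℝ)) * ‖Sx N a θ‖ ^ 2)
      = fun θ => ∑ k ∈ K, (nS k (s k) θ : ℝ) * ‖Sx N a θ‖ ^ 2 := by
    funext θ
    rw [Finset.sum_mul]
  have e2 : F K s N a = fun β => ∑ k ∈ K, (s k).indicator (fun _ => (1 : ℝ)) |β|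
      * ∑ b ∈ red k, ‖Sx N a ((b : ℝ) / k + β)‖ ^ 2 := rfl
  rw [e1, e2]
  refine ⟨?_, ?_, ?_⟩
  · have := IntervalIntegrable.sum K fun k _ => (h k).1
    rwa [Finset.sum_fn] at this
  · have := IntervalIntegrable.sum K fun k _ => (h k).2.1
    rwa [Finset.sum_fn] at this
  · rw [intervalIntegral.integral_finset_sum fun k _ => (h k).1,
      intervalIntegral.integral_finset_sum fun k _ => (h k).2.1]
    exact Finset.sum_congr rfl fun k _ => (h k).2.2

theorem swap (K D : Finset ℕ) (f : ℕ → ℕ → ℝ) :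
    ∑ d ∈ D, ∑ k ∈ K with d ∣ k, f d k = ∑ k ∈ K, ∑ d ∈ D with d ∣ k, f d k := by
  simp only [Finset.sum_filter]
  exact Finset.sum_comm

theorem harm_Icc (m : ℕ) (hm : 1 ≤ m) (j : ℕ) :
    ∑ r ∈ Icc m (m + j), (1 : ℝ) / r ≤ 1 + Real.log (((m + j : ℕ) : ℝ) / m) := by
  have hm' : (1 : ℝ) ≤ m := by exact_mod_cast hm
  induction j with
  | zero =>
    simp only [add_zero, Finset.Icc_self, Finset.sum_singleton]
    rw [div_self (by positivity), Real.log_one, add_zero]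
    exact (div_le_one (by positivity)).2 hm'
  | succ j ih =>
    rw [← add_assoc, Finset.sum_Icc_succ_top (by omega)]
    have hj : (0 : ℝ) ≤ j := Nat.cast_nonneg j
    push_cast at ih ⊢
    have h1 : Real.log (((m : ℝ) + j) / (m + j + 1)) ≤ ((m : ℝ) + j) / (m + j + 1) - 1 :=
      Real.log_le_sub_one_of_pos (by positivity)
    have h2 : ((m : ℝ) + j) / (m + j + 1) - 1 = -(1 / (m + j + 1)) := by
      field_simp
      ring
    rw [Real.log_div (by positivity) (by positivity)] at h1 ih ⊢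
    linarith

theorem harm (S : Finset ℕ) (W x : ℝ) (hW : 1 ≤ W)
    (h : ∀ r ∈ S, 1 ≤ r ∧ x ≤ r ∧ (r : ℝ) < W * x) : ∑ r ∈ S, (1 : ℝ) / r ≤ 1 + Real.log W := by
  rcases S.eq_empty_or_nonempty with rfl | hS
  · have := Real.log_nonneg hW
    simp only [Finset.sum_empty]
    linarith
  obtain ⟨j, hj⟩ : ∃ j, S.max' hS = S.min' hS + j :=
    Nat.exists_eq_add_of_le (S.min'_le _ (S.max'_mem hS))
  have h0 := h _ (S.min'_mem hS)
  have h1 := h _ (S.max'_mem hS)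
  have hm' : (1 : ℝ) ≤ (S.min' hS : ℕ) := by exact_mod_cast h0.1
  have hM' : (1 : ℝ) ≤ (S.max' hS : ℕ) := by exact_mod_cast h1.1
  calc ∑ r ∈ S, (1 : ℝ) / r ≤ ∑ r ∈ Icc (S.min' hS) (S.min' hS + j), (1 : ℝ) / r :=
        Finset.sum_le_sum_of_subset_of_nonneg
          (fun r hr => Finset.mem_Icc.2 ⟨S.min'_le r hr, hj ▸ S.le_max' r hr⟩)
          fun _ _ _ => by positivity
    _ ≤ 1 + Real.log (((S.min' hS + j : ℕ) : ℝ) / (S.min' hS : ℕ)) := harm_Icc _ h0.1 j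
    _ ≤ 1 + Real.log W := by
        rw [← hj]
        gcongr
        rw [div_le_iff₀ (by positivity)]
        have := mul_le_mul_of_nonneg_left h0.2.1 (by linarith : (0 : ℝ) ≤ W)
        linarith [h1.2.2]

theorem harm_dvd (S : Finset ℕ) (d : ℕ) (W t : ℝ) (hW : 1 ≤ W) (ht : 0 < t)
    (h : ∀ k ∈ S, 1 ≤ k ∧ d ∣ k ∧ 1 ≤ k * t ∧ k * t < W) :
    ∑ k ∈ S, (d : ℝ) / k ≤ 1 + Real.log W := by
  have hinj : Set.InjOn (fun k => k / d) (S : Set ℕ) := fun k hk k' hk' e => by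
    have e' : k / d = k' / d := e
    rw [← Nat.mul_div_cancel' (h k hk).2.1, ← Nat.mul_div_cancel' (h k' hk').2.1, e']
  refine le_trans (le_of_eq ?_) (harm (S.image fun k => k / d) W (1 / (d * t)) hW ?_)
  · rw [Finset.sum_image hinj]
    refine Finset.sum_congr rfl fun k hk => ?_
    obtain ⟨h1, ⟨r, rfl⟩, -, -⟩ := h k hk
    have hd : 0 < d := Nat.pos_of_mul_pos_right h1
    have hr : 0 < r := Nat.pos_of_mul_pos_left h1
    rw [Nat.mul_div_cancel_left _ hd]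
    push_cast
    field_simp
  · intro r hr
    obtain ⟨k, hk, rfl⟩ := Finset.mem_image.1 hr
    obtain ⟨h1, ⟨r, rfl⟩, h2, h3⟩ := h k hk
    have hd : 0 < d := Nat.pos_of_mul_pos_right h1
    have hr : 0 < r := Nat.pos_of_mul_pos_left h1
    have hd' : (0 : ℝ) < d := by exact_mod_cast hd
    rw [Nat.mul_div_cancel_left _ hd]
    push_cast at h2 h3
    refine ⟨hr, ?_, ?_⟩
    · rw [div_le_iff₀ (by positivity)]
      linarith
    · rw [mul_one_div, lt_div_iff₀ (by positivity)]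
      linarith

theorem uu_le (hAr : StmtArith) {d k Q : ℕ} (hk : 1 ≤ k) (hkQ : k ≤ Q) (hd : d ∣ k) :
    uu d k ≤ 4 * √(1 + Real.log Q) * ((d : ℝ) / k) := by
  have hk' : (1 : ℝ) ≤ k := by exact_mod_cast hk
  have h1 := (hAr.2.1 d k hk hd).2
  have h2 := hAr.2.2.2 k hk
  have h3 : Real.log k ≤ Real.log Q := Real.log_le_log (by positivity) (by exact_mod_cast hkQ)
  have h4 : 0 ≤ Real.log k := Real.log_nonneg hk'
  have h5 : (k : ℝ) / φ k ≤ 4 * √(1 + Real.log Q) := by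
    refine (abs_le_of_sq_le_sq' ?_ (by positivity)).2
    rw [mul_pow, Real.sq_sqrt (by linarith)]
    linarith
  calc uu d k ≤ (d : ℝ) / φ k := h1
    _ = (k : ℝ) / φ k * ((d : ℝ) / k) := by
        rw [mul_comm, div_mul_div_comm, mul_comm (d : ℝ) k, mul_div_mul_left _ _ (by positivity)]
    _ ≤ _ := by gcongr

theorem lower (hAr : StmtArith) (hC : StmtChar) {N Q : ℕ} {a : ℕ → ℂ} (hcop : Cop N Q a) (β : ℝ)
    (D : Finset ℕ) {R X : ℝ} (hR : 1 ≤ R) (hX : X ≤ Q) (hD : ∀ d ∈ D, 1 ≤ d ∧ d * R ≤ X) :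
    Real.log R * ∑ d ∈ D, (Ad d N fun n => a n * ee (n * β))
      ≤ ∑ k ∈ Icc 1 ⌊X⌋₊, Bq k N a β := by
  have hfl : ⌊X⌋₊ ≤ Q := Nat.floor_le_of_le hX
  calc Real.log R * ∑ d ∈ D, (Ad d N fun n => a n * ee (n * β))
      ≤ ∑ d ∈ D, ∑ k ∈ Icc 1 ⌊X⌋₊ with d ∣ k, uu d k * Ad d N fun n => a n * ee (n * β) := by
        rw [Finset.mul_sum]
        refine Finset.sum_le_sum fun d hd => ?_
        rw [← Finset.sum_mul]
        exact mul_le_mul_of_nonneg_right (hAr.2.2.1 d R X (hD d hd).1 hR (hD d hd).2)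
          (Ad_nonneg _ _ _)
    _ = ∑ k ∈ Icc 1 ⌊X⌋₊, ∑ d ∈ D with d ∣ k, uu d k * Ad d N fun n => a n * ee (n * β) :=
        swap _ _ fun d k => uu d k * Ad d N fun n => a n * ee (n * β)
    _ ≤ _ := by
        refine Finset.sum_le_sum fun k hk => ?_
        have hk' := Finset.mem_Icc.1 hk
        rw [hC.2 k N a β hk'.1 (hcop k (Finset.mem_Icc.2 ⟨hk'.1, hk'.2.trans hfl⟩))]
        refine Finset.sum_le_sum_of_subset_of_nonneg (fun d hd => ?_) fun d hd _ => ?_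
        · exact Nat.mem_divisors.2 ⟨(Finset.mem_filter.1 hd).2, by omega⟩
        · exact mul_nonneg (hAr.2.1 d k hk'.1 (Nat.dvd_of_mem_divisors hd)).1 (Ad_nonneg _ _ _)

theorem upper (hAr : StmtArith) (hC : StmtChar) {N Q : ℕ} {a : ℕ → ℂ} (hcop : Cop N Q a) (β : ℝ)
    (K : Finset ℕ) {W t : ℝ} (hW : 1 ≤ W) (ht : 0 < t)
    (hK : ∀ k ∈ K, k ∈ Icc 1 Q ∧ 1 ≤ k * t ∧ k * t < W) :
    ∑ k ∈ K, Bq k N a β ≤ 4 * √(1 + Real.log Q) * (1 + Real.log W) *
      ∑ d ∈ (Icc 1 Q).filter (fun d : ℕ => d * t < W), (Ad d N fun n => a n * ee (n * β)) := by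
  calc ∑ k ∈ K, Bq k N a β
      = ∑ k ∈ K, ∑ d ∈ (Icc 1 Q).filter (fun d : ℕ => d * t < W) with d ∣ k,
          uu d k * Ad d N fun n => a n * ee (n * β) := by
        refine Finset.sum_congr rfl fun k hk => ?_
        obtain ⟨h1, -, h3⟩ := hK k hk
        have h1' := Finset.mem_Icc.1 h1
        rw [hC.2 k N a β h1'.1 (hcop k h1)]
        refine Finset.sum_congr ?_ fun _ _ => rfl
        ext d
        simp only [Nat.mem_divisors, Finset.mem_filter, Finset.mem_Icc]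
        refine ⟨fun h => ?_, fun h => ⟨h.2, by omega⟩⟩
        have h4 : d ≤ k := Nat.le_of_dvd (by omega) h.1
        have h5 : (d : ℝ) ≤ k := by exact_mod_cast h4
        exact ⟨⟨⟨Nat.pos_of_dvd_of_pos h.1 (by omega), by omega⟩, by nlinarith⟩, h.1⟩
    _ = ∑ d ∈ (Icc 1 Q).filter (fun d : ℕ => d * t < W), ∑ k ∈ K with d ∣ k,
          uu d k * Ad d N fun n => a n * ee (n * β) :=
        (swap _ _ fun d k => uu d k * Ad d N fun n => a n * ee (n * β)).symm
    _ ≤ _ := by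
        rw [Finset.mul_sum]
        refine Finset.sum_le_sum fun d _ => ?_
        rw [← Finset.sum_mul]
        refine mul_le_mul_of_nonneg_right ?_ (Ad_nonneg _ _ _)
        calc ∑ k ∈ K with d ∣ k, uu d k
            ≤ ∑ k ∈ K with d ∣ k, 4 * √(1 + Real.log Q) * ((d : ℝ) / k) :=
              Finset.sum_le_sum fun k hk => by
                have hk' := Finset.mem_filter.1 hk
                have h1 := Finset.mem_Icc.1 (hK k hk'.1).1
                exact uu_le hAr h1.1 h1.2 hk'.2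
          _ ≤ _ := by
              rw [← Finset.mul_sum]
              refine mul_le_mul_of_nonneg_left (harm_dvd _ d W t hW ht fun k hk => ?_)
                (by positivity)
              have hk' := Finset.mem_filter.1 hk
              have h1 := hK k hk'.1
              exact ⟨(Finset.mem_Icc.1 h1.1).1, hk'.2, h1.2⟩

end MajInt

open MajInt

theorem stmtMajor (hAr : StmtArith) (hO : StmtOrth) (hC : StmtChar) (hU : StmtUnfold) :
    StmtMajor := by
  intro N Q a h β₀ hcop hh h0 h1 hQ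
  obtain ⟨-, i2, i3⟩ := unfoldF hU (Icc 1 ⌊Real.exp h⌋₊) (fun _ => Set.Iic β₀)
    (fun _ => measurableSet_Iic) N a
  have hc : Continuous fun θ => h * ‖Sx N a θ‖ ^ 2 :=
    continuous_const.mul ((hU.1 N a).1.norm.pow 2)
  unfold nB
  rw [i3, ← intervalIntegral.integral_const_mul]
  refine le_trans ?_ (intervalIntegral.integral_mono_interval (a := -β₀) (b := β₀) (by linarith)
    (by linarith) h1 (Filter.Eventually.of_forall fun β => F_nonneg _ _ _ _ β) i2)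
  refine intervalIntegral.integral_mono_on (by linarith) (hc.intervalIntegrable _ _)
    (i2.mono_set ?_) fun β hβ => ?_
  · rw [Set.uIcc_of_le (by linarith), Set.uIcc_of_le (by norm_num)]
    exact Set.Icc_subset_Icc (by linarith) h1
  · have h2 := lower hAr hC hcop β {1} (Real.one_le_exp hh) hQ (fun d hd => by
      rw [Finset.mem_singleton.1 hd]
      simp)
    rw [Real.log_exp, Finset.sum_singleton, hO.2.2] at h2
    rw [F_eq]
    refine h2.trans (Finset.sum_le_sum_of_subset_of_nonneg (fun k hk => ?_)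
      fun k _ _ => Bq_nonneg _ _ _ _)
    exact Finset.mem_filter.2 ⟨hk, Set.mem_Iic.2 (abs_le.2 hβ)⟩

theorem stmtInter (hAr : StmtArith) (hC : StmtChar) (hU : StmtUnfold) (hA : StmtArcs) :
    StmtInter := by
  intro N Q a η W R hcop hQ hη hW hR h8
  have hQ' : (1 : ℝ) ≤ Q := by exact_mod_cast hQ
  have hL : 0 < Real.log R := Real.log_pos hR
  have hWR : 1 ≤ W * R := by nlinarith
  have hlW : 0 ≤ Real.log W := Real.log_nonneg hW
  obtain ⟨-, i2, i3⟩ := unfoldF hU (Icc 1 Q)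
    (fun k => {x | 1 ≤ (Q : ℝ) * k * (x + η) ∧ (Q : ℝ) * k * (x + η) < W})
    (fun k => (measurableSet_le (f := fun _ => (1 : ℝ)) (g := fun x => (Q : ℝ) * k * (x + η))
      measurable_const (by fun_prop)).inter
      (measurableSet_lt (f := fun x => (Q : ℝ) * k * (x + η)) (g := fun _ => W) (by fun_prop)
        measurable_const)) N a
  obtain ⟨j1, j2, j3⟩ := unfoldF hU (Icc 1 Q)
    (fun k => {x | (Q : ℝ) * k * (x + η) < 2 * (W * R)})
    (fun k => measurableSet_lt (by fun_prop) measurable_const) N a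
  have hc : Continuous fun θ => ‖Sx N a θ‖ ^ 2 := (hU.1 N a).1.norm.pow 2
  have hc0 : 0 ≤ 4 * √(1 + Real.log Q) * (1 + Real.log W) / Real.log R := by positivity
  have k1 : ∫ β in (-(1 / 2) : ℝ)..(1 / 2),
      F (Icc 1 Q) (fun k => {x | (Q : ℝ) * k * (x + η) < 2 * (W * R)}) N a β ≤ nrm N a := by
    rw [← j3, ← (hU.1 N a).2.2]
    refine intervalIntegral.integral_mono_on zero_le_one j1 (hc.intervalIntegrable _ _)
      fun θ _ => ?_
    have h1 := hA.2.2.1 Q Q η (2 * (W * R)) θ hQ hη (by linarith) (by linarith)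
    have h2 : ∑ k ∈ Icc 1 Q, (nS k {x | (Q : ℝ) * k * (x + η) < 2 * (W * R)} θ : ℝ) ≤ 1 := by
      exact_mod_cast h1
    exact mul_le_of_le_one_left (by positivity) h2
  rw [i3]
  refine le_trans ?_ (mul_le_mul_of_nonneg_left k1 hc0)
  rw [← intervalIntegral.integral_const_mul]
  refine intervalIntegral.integral_mono_on (by norm_num) i2 (j2.const_mul _) fun β _ => ?_
  have hβ := abs_nonneg β
  have ht : 0 < (Q : ℝ) * (|β| + η) := by positivity
  have hX : W * R / (Q * (|β| + η)) ≤ Q := by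
    rw [div_le_iff₀ ht]
    nlinarith [mul_nonneg (sq_nonneg (Q : ℝ)) hβ]
  have u2 := lower hAr hC hcop β ((Icc 1 Q).filter fun d : ℕ => d * (Q * (|β| + η)) < W) hR.le hX
    fun d hd => by
      obtain ⟨h1, h2⟩ := Finset.mem_filter.1 hd
      refine ⟨(Finset.mem_Icc.1 h1).1, ?_⟩
      rw [le_div_iff₀ ht]
      nlinarith
  have u3 : ∑ k ∈ Icc 1 ⌊W * R / (Q * (|β| + η))⌋₊, Bq k N a β
      ≤ F (Icc 1 Q) (fun k => {x | (Q : ℝ) * k * (x + η) < 2 * (W * R)}) N a β := by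
    rw [F_eq]
    refine Finset.sum_le_sum_of_subset_of_nonneg (fun k hk => ?_) fun k _ _ => Bq_nonneg _ _ _ _
    obtain ⟨h1, h2⟩ := Finset.mem_Icc.1 hk
    have h3 : (k : ℝ) ≤ W * R / (Q * (|β| + η)) := (Nat.le_floor_iff (by positivity)).1 h2
    rw [le_div_iff₀ ht] at h3
    refine Finset.mem_filter.2 ⟨Finset.mem_Icc.2 ⟨h1, h2.trans (Nat.floor_le_of_le hX)⟩, ?_⟩
    show (Q : ℝ) * k * (|β| + η) < 2 * (W * R)
    linarith
  rw [F_eq]
  refine (upper hAr hC hcop β _ hW ht fun k hk => ?_).trans ?_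
  · obtain ⟨h1, h2, h3⟩ := Finset.mem_filter.1 hk
    exact ⟨h1, by linarith, by linarith⟩
  rw [div_mul_eq_mul_div, mul_div_assoc]
  refine mul_le_mul_of_nonneg_left ?_ (by positivity)
  rw [le_div_iff₀ hL, mul_comm]
  exact u2.trans u3

end Pool.Agent.MP_f259ea_nt.Q
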