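import Pool.Agent.MP_f259ea_nt.Q_Defs

/-!
Mertens-type estimates for the conductor aspect.
-/

set_option autoImplicit false

open MeasureTheory Finset
open scoped Real Classical ArithmeticFunction.vonMangoldt

namespace Pool.Agent.MP_f259ea_nt.Q

namespace Mert

lemma diff_le {c : ℕ → ℝ} {C : ℝ} (hc : ∀ N : ℕ, 1 ≤ N → |∑ n ∈ Icc 1 N, c n - Real.log N| ≤ C)
    {x y : ℝ} (hx : 1 ≤ x) (hxy : x ≤ y) :
    |∑ n ∈ Ioc ⌊x⌋₊ ⌊y⌋₊, c n - (Real.log y - Real.log x)| ≤ 2 * C + 2 := by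
  have key : ∀ z : ℝ, 1 ≤ z → |∑ n ∈ Ioc 0 ⌊z⌋₊, c n - Real.log z| ≤ C + 1 := by
    intro z hz
    have h1 : 1 ≤ ⌊z⌋₊ := Nat.le_floor (by exact_mod_cast hz)
    have h1' : (1 : ℝ) ≤ ⌊z⌋₊ := by exact_mod_cast h1
    have h2 := abs_le.1 (hc _ h1)
    have h3 : Real.log ⌊z⌋₊ ≤ Real.log z :=
      Real.log_le_log (by linarith) (Nat.floor_le (by linarith))
    have h4 : Real.log z ≤ Real.log 2 + Real.log ⌊z⌋₊ := by
      rw [← Real.log_mul (by norm_num) (by linarith)]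
      exact Real.log_le_log (by linarith) (by linarith [Nat.lt_floor_add_one z])
    have h5 : Real.log 2 ≤ 1 := by
      linarith [Real.log_le_sub_one_of_pos (show (0 : ℝ) < 2 by norm_num)]
    rw [← Finset.Icc_add_one_left_eq_Ioc, zero_add, abs_le]
    constructor <;> linarith [h2.1, h2.2]
  have e := Finset.sum_Ioc_consecutive c (Nat.zero_le ⌊x⌋₊) (Nat.floor_mono hxy)
  have h1 := abs_le.1 (key x hx)
  have h2 := abs_le.1 (key y (hx.trans hxy))
  rw [abs_le]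
  constructor <;> linarith [h1.1, h1.2, h2.1, h2.2]

lemma piece {c : ℕ → ℝ} {C : ℝ} (h0 : ∀ n, 0 ≤ c n)
    (hc : ∀ N : ℕ, 1 ≤ N → |∑ n ∈ Icc 1 N, c n - Real.log N| ≤ C) {f : ℝ → ℝ} (hf : Continuous f)
    {Y a b η B : ℝ} (hY : 0 < Y) (ha : 0 ≤ a) (hab : a ≤ b) (hB : |f a| ≤ B)
    (hη : ∀ t ∈ Set.Icc a b, |f t - f a| ≤ η) :
    |∑ n ∈ Ioc ⌊Real.exp (a * Y)⌋₊ ⌊Real.exp (b * Y)⌋₊, c n * f (Real.log n / Y)
      - Y * ∫ t in a..b, f t| ≤ 2 * η * ((b - a) * Y) + (B + η) * (2 * C + 2) := by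
  have hη0 : 0 ≤ η := (abs_nonneg _).trans (hη a ⟨le_rfl, hab⟩)
  have h1 := diff_le hc (x := Real.exp (a * Y)) (y := Real.exp (b * Y))
    (Real.one_le_exp (by positivity)) (Real.exp_le_exp.2 (by gcongr))
  rw [Real.log_exp, Real.log_exp, ← sub_mul] at h1
  obtain ⟨D, hD⟩ : ∃ D, D = ∑ n ∈ Ioc ⌊Real.exp (a * Y)⌋₊ ⌊Real.exp (b * Y)⌋₊, c n := ⟨_, rfl⟩
  have h2 : |∑ n ∈ Ioc ⌊Real.exp (a * Y)⌋₊ ⌊Real.exp (b * Y)⌋₊, c n * f (Real.log n / Y)
      - D * f a| ≤ D * η := by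
    rw [hD, Finset.sum_mul, Finset.sum_mul, ← Finset.sum_sub_distrib]
    refine (Finset.abs_sum_le_sum_abs _ _).trans (Finset.sum_le_sum fun n hn => ?_)
    rw [Finset.mem_Ioc] at hn
    have h2 : Real.exp (a * Y) < n := Nat.lt_of_floor_lt hn.1
    have h3 : (n : ℝ) ≤ Real.exp (b * Y) := (Nat.le_floor_iff (Real.exp_pos _).le).1 hn.2
    have hn0 : (0 : ℝ) < n := (Real.exp_pos _).trans h2
    rw [← mul_sub, abs_mul, abs_of_nonneg (h0 n)]
    refine mul_le_mul_of_nonneg_left (hη _ ⟨?_, ?_⟩) (h0 n)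
    · rw [le_div_iff₀ hY]; exact ((Real.lt_log_iff_exp_lt hn0).2 h2).le
    · rw [div_le_iff₀ hY]; exact (Real.log_le_iff_le_exp hn0).2 h3
  rw [← hD] at h1
  have h3 : |(∫ t in a..b, f t) - (b - a) * f a| ≤ η * (b - a) := by
    have := intervalIntegral.norm_integral_le_of_norm_le_const (a := a) (b := b) (C := η)
      (f := fun t => f t - f a) fun t ht => by
        rw [Set.uIoc_of_le hab] at ht
        exact hη t ⟨ht.1.le, ht.2⟩
    rwa [intervalIntegral.integral_sub (hf.intervalIntegrable _ _) intervalIntegrable_const,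
      intervalIntegral.integral_const, smul_eq_mul, Real.norm_eq_abs,
      abs_of_nonneg (sub_nonneg.2 hab)] at this
  have h4 : |(D - (b - a) * Y) * f a| ≤ (2 * C + 2) * B := by
    rw [abs_mul]; exact mul_le_mul h1 hB (abs_nonneg _) ((abs_nonneg _).trans h1)
  have h5 : |Y * ((∫ t in a..b, f t) - (b - a) * f a)| ≤ Y * (η * (b - a)) := by
    rw [abs_mul, abs_of_pos hY]; exact mul_le_mul_of_nonneg_left h3 hY.le
  have h6 : D * η ≤ ((b - a) * Y + (2 * C + 2)) * η :=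
    mul_le_mul_of_nonneg_right (by linarith [(abs_le.1 h1).2]) hη0
  have a2 := abs_le.1 h2
  have a4 := abs_le.1 h4
  have a5 := abs_le.1 h5
  rw [abs_le]
  constructor <;> nlinarith [a2.1, a2.2, a4.1, a4.2, a5.1, a5.2]

lemma general {c : ℕ → ℝ} {C : ℝ} (h0 : ∀ n, 0 ≤ c n)
    (hc : ∀ N : ℕ, 1 ≤ N → |∑ n ∈ Icc 1 N, c n - Real.log N| ≤ C) {f : ℝ → ℝ} (hf : Continuous f)
    {ε : ℝ} (hε : 0 < ε) : ∃ Y₀ : ℝ, ∀ Y : ℝ, Y₀ ≤ Y →
      |∑ n ∈ Icc 1 ⌊Real.exp Y⌋₊, c n * f (Real.log n / Y) - Y * ∫ t in (0 : ℝ)..1, f t|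
        ≤ Y * ε := by
  obtain ⟨B, hB⟩ := (isCompact_Icc (a := (0 : ℝ)) (b := 1)).exists_bound_of_continuousOn
    hf.continuousOn
  simp only [Real.norm_eq_abs] at hB
  obtain ⟨δ, hδ, hU⟩ := Metric.uniformContinuousOn_iff.1
    ((isCompact_Icc (a := (0 : ℝ)) (b := 1)).uniformContinuousOn_of_continuous hf.continuousOn)
    (ε / 4) (by linarith)
  obtain ⟨K, hK⟩ := exists_nat_one_div_lt hδ
  obtain ⟨k, hk⟩ : ∃ k : ℝ, k = K + 1 := ⟨_, rfl⟩
  rw [← hk] at hK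
  have hk0 : 0 < k := by rw [hk]; positivity
  obtain ⟨R, hR⟩ : ∃ R : ℝ, R = (B + ε / 4) * (2 * C + 2) := ⟨_, rfl⟩
  refine ⟨max 1 ((k * R + C * B) / (ε / 2)), fun Y hY => ?_⟩
  have hY0 : 0 < Y := by linarith [le_trans (le_max_left _ _) hY]
  have hY2 : k * R + C * B ≤ Y * (ε / 2) :=
    (div_le_iff₀ (by linarith)).1 (le_trans (le_max_right _ _) hY)
  have step : ∀ j : ℕ, j ≤ K + 1 →
      |∑ n ∈ Ioc 0 ⌊Real.exp (j / k * Y)⌋₊, c n * f (Real.log n / Y)
        - Y * ∫ t in (0 : ℝ)..(j / k), f t| ≤ C * B + j * (ε / 2 * Y / k + R) := by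
    intro j
    induction j with
    | zero =>
      intro _
      have h1 := hc 1 le_rfl
      have h2 := hB 0 (by simp)
      simp only [Finset.Icc_self, Finset.sum_singleton, Nat.cast_one, Real.log_one, sub_zero] at h1
      have h3 : |c 1 * f 0| ≤ C * B := by
        rw [abs_mul]; exact mul_le_mul h1 h2 (abs_nonneg _) ((abs_nonneg _).trans h1)
      simpa using h3
    | succ j ih =>
      intro hj
      have hj' : (j : ℝ) + 1 ≤ k := by rw [hk]; exact_mod_cast hj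
      have e0 : (0 : ℝ) ≤ j / k := by positivity
      have h1 : (j : ℝ) / k ≤ (j + 1 : ℕ) / k := by push_cast; gcongr; linarith
      have h2 : ((j + 1 : ℕ) : ℝ) / k ≤ 1 := by push_cast; rwa [div_le_one hk0]
      have h3 : ((j + 1 : ℕ) : ℝ) / k - j / k = 1 / k := by push_cast; ring
      have hp := piece h0 hc hf hY0 e0 h1 (η := ε / 4) (hB _ ⟨e0, by linarith⟩) fun t ht =>
        (hU t ⟨by linarith [ht.1], by linarith [ht.2]⟩ _ ⟨e0, by linarith⟩ (by
          rw [Real.dist_eq, abs_of_nonneg (by linarith [ht.1])]; linarith [ht.2])).le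
      rw [← Finset.sum_Ioc_consecutive (fun n : ℕ => c n * f (Real.log n / Y))
        (Nat.zero_le ⌊Real.exp (j / k * Y)⌋₊)
        (Nat.floor_mono (Real.exp_le_exp.2 (by gcongr))),
        ← intervalIntegral.integral_add_adjacent_intervals (hf.intervalIntegrable 0 (j / k))
          (hf.intervalIntegrable _ _)]
      have ih' := abs_le.1 (ih (by omega))
      rw [h3, ← hR] at hp
      have hp' := abs_le.1 hp
      have e1 : 2 * (ε / 4) * (1 / k * Y) = ε / 2 * Y / k := by ring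
      have e2 : ((j + 1 : ℕ) : ℝ) * (ε / 2 * Y / k + R) =
          j * (ε / 2 * Y / k + R) + (ε / 2 * Y / k + R) := by
        push_cast; ring
      rw [e2, mul_add, abs_le]
      constructor <;> linarith [ih'.1, ih'.2, hp'.1, hp'.2]
  have h1 := step (K + 1) le_rfl
  have ek : ((K + 1 : ℕ) : ℝ) = k := by rw [hk]; push_cast; ring
  have e4 : k * (ε / 2 * Y / k + R) = ε / 2 * Y + k * R := by field_simp
  rw [ek, div_self hk0.ne', one_mul, ← Finset.Icc_add_one_left_eq_Ioc, zero_add, e4] at h1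
  linarith

lemma nonprime : ∃ C : ℝ, 0 < C ∧ ∀ X : ℕ, ∑ n ∈ Icc 1 X with ¬ n.Prime, Λ n / (n : ℝ) ≤ C := by
  have h := ArithmeticFunction.vonMangoldt.summable_residueClass_non_primes_div (q := 1) 0
  have e : ∀ n : ℕ, ArithmeticFunction.vonMangoldt.residueClass (q := 1) 0 n = Λ n := fun n =>
    Set.indicator_of_mem (s := {n : ℕ | (n : ZMod 1) = 0}) (Subsingleton.elim (n : ZMod 1) 0) _
  simp only [e] at h
  have h0 : ∀ n : ℕ, 0 ≤ (if n.Prime then 0 else Λ n) / (n : ℝ) := fun n => by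
    have := ArithmeticFunction.vonMangoldt_nonneg (n := n)
    positivity
  refine ⟨∑' n : ℕ, (if n.Prime then 0 else Λ n) / (n : ℝ) + 1,
    add_pos_of_nonneg_of_pos (tsum_nonneg h0) one_pos, fun X => ?_⟩
  have h1 := h.sum_le_tsum (Icc 1 X) fun n _ => h0 n
  have h2 : ∑ n ∈ Icc 1 X with ¬ n.Prime, Λ n / (n : ℝ)
      = ∑ n ∈ Icc 1 X, (if n.Prime then 0 else Λ n) / (n : ℝ) := by
    rw [Finset.sum_filter]
    refine Finset.sum_congr rfl fun n _ => ?_
    by_cases hn : n.Prime <;> simp [hn]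
  linarith

lemma primes : ∃ C : ℝ, ∀ N : ℕ, 1 ≤ N →
    |∑ n ∈ Icc 1 N, (if n.Prime then Real.log n / n else 0) - Real.log N| ≤ C := by
  obtain ⟨C, hC, h⟩ := nonprime
  refine ⟨C + 8, fun N hN => ?_⟩
  have h1 := mertSum_bounds hN
  have h2 := h N
  have h3 : 0 ≤ ∑ n ∈ Icc 1 N with ¬ n.Prime, Λ n / (n : ℝ) := Finset.sum_nonneg fun n _ =>
    div_nonneg ArithmeticFunction.vonMangoldt_nonneg n.cast_nonneg
  have h4 : mertSum N = ∑ n ∈ Icc 1 N, (if n.Prime then Real.log n / n else 0)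
      + ∑ n ∈ Icc 1 N with ¬ n.Prime, Λ n / (n : ℝ) := by
    rw [mertSum, Finset.sum_filter, ← Finset.sum_add_distrib]
    refine Finset.sum_congr rfl fun n _ => ?_
    by_cases hn : n.Prime
    · simp [hn, ArithmeticFunction.vonMangoldt_apply_prime hn]
    · simp [hn]
  have h6 : Real.log 4 ≤ 3 := by
    linarith [Real.log_le_sub_one_of_pos (show (0 : ℝ) < 4 by norm_num)]
  rw [abs_le]
  constructor <;> linarith [h1.1, h1.2]

lemma harm (N : ℕ) (hN : 1 ≤ N) : |∑ n ∈ Icc 1 N, 1 / (n : ℝ) - Real.log N| ≤ 1 := by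
  have h1 := log_add_one_le_harmonic N
  have h2 := harmonic_le_one_add_log N
  simp only [harmonic_eq_sum_Icc, Rat.cast_sum, Rat.cast_inv, Rat.cast_natCast] at h1 h2
  have h3 : Real.log N ≤ Real.log (N + 1 : ℕ) :=
    Real.log_le_log (by exact_mod_cast hN) (by push_cast; linarith)
  simp only [one_div]
  rw [abs_le]
  constructor <;> linarith

end Mert

theorem stmtMert2 : StmtMert2 := by
  refine ⟨fun f hf _ ε hε => ?_, Mert.nonprime⟩
  obtain ⟨C, hC⟩ := Mert.primes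
  obtain ⟨Y1, h1⟩ := Mert.general (c := fun n => if n.Prime then Real.log n / n else 0)
    (fun n => by
      have := Real.log_natCast_nonneg n
      positivity) hC hf hε
  obtain ⟨Y2, h2⟩ := Mert.general (c := fun n => 1 / (n : ℝ)) (fun n => by positivity)
    Mert.harm hf hε
  refine ⟨max Y1 Y2, fun Y hY => ⟨?_, ?_⟩⟩
  · have h3 := (abs_le.1 (h1 Y ((le_max_left _ _).trans hY))).1
    simp only [ite_mul, zero_mul] at h3
    rw [Finset.sum_filter]
    linarith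
  · have h3 := (abs_le.1 (h2 Y ((le_max_right _ _).trans hY))).2
    linarith

end Pool.Agent.MP_f259ea_nt.Q
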