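import Pool.Agent.MP_f259ea_nt.Q_Defs

set_option autoImplicit false

open Complex MeasureTheory Finset
open scoped Real ComplexConjugate Classical ArithmeticFunction.Moebius
  ArithmeticFunction.vonMangoldt Nat

namespace Pool.Agent.MP_f259ea_nt.Q

namespace Q_Orth

open DirichletCharacter

lemma fiber {e d : ℕ} [NeZero e] (hd : d ∣ e) (F : DirichletCharacter ℂ e → ℂ) :
    ∑ ψ ∈ prim d, F (changeLevel hd ψ)
      = ∑ χ ∈ (univ : Finset (DirichletCharacter ℂ e)) with χ.conductor = d, F χ := by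
  refine Finset.sum_bij (fun ψ _ => changeLevel hd ψ) (fun ψ hψ => ?_)
    (fun ψ _ ψ' _ h => changeLevel_injective hd h) (fun χ hχ => ?_) (fun _ _ => rfl)
  · simp only [prim, mem_filter, mem_univ, true_and] at hψ ⊢
    rw [conductor_changeLevel]; exact hψ
  · simp only [mem_filter, mem_univ, true_and] at hχ
    subst hχ
    exact ⟨χ.primitiveCharacter, by
      simpa [prim] using primitiveCharacter_isPrimitive χ, changeLevel_primitiveCharacter χ⟩

/-- The kernel of the primitive characters modulo `d`. -/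
noncomputable def kap (d m n : ℕ) : ℂ := ∑ χ ∈ prim d, χ (m : ZMod d) * conj (χ (n : ZMod d))

lemma orth (e m n : ℕ) (he : 1 ≤ e) (hm : Nat.Coprime m e) (hn : Nat.Coprime n e) :
    ∑ d ∈ e.divisors, kap d m n = if m ≡ n [MOD e] then (φ e : ℂ) else 0 := by
  have : NeZero e := ⟨by omega⟩
  have hu : IsUnit (n : ZMod e) := (ZMod.isUnit_iff_coprime n e).2 hn
  have h1 := sum_char_inv_mul_char_eq ℂ hu (m : ZMod e)
  have h2 : ∀ χ : DirichletCharacter ℂ e,
      χ (n : ZMod e)⁻¹ * χ (m : ZMod e) = χ (m : ZMod e) * conj (χ (n : ZMod e)) := fun χ => by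
    have h3 := MulChar.star_apply' χ (n : ZMod e)
    rw [RCLike.star_def, MulChar.inv_apply_eq_inv'] at h3
    have h4 : χ (n : ZMod e)⁻¹ * χ (n : ZMod e) = 1 := by
      rw [← map_mul, ZMod.inv_mul_of_unit _ hu, map_one]
    rw [h3, mul_comm, eq_inv_of_mul_eq_one_left h4]
  simp only [h2, ZMod.natCast_eq_natCast_iff] at h1
  have h5 : (if m ≡ n [MOD e] then (φ e : ℂ) else 0) = if n ≡ m [MOD e] then (φ e : ℂ) else 0 :=
    if_congr Nat.ModEq.comm rfl rfl
  rw [h5, ← h1, ← Finset.sum_fiberwise_of_maps_to (s := univ) (t := e.divisors)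
    (g := fun χ : DirichletCharacter ℂ e => χ.conductor)
    (fun χ _ => Nat.mem_divisors.2 ⟨χ.conductor_dvd_level, NeZero.ne e⟩)]
  refine sum_congr rfl fun d hd => ?_
  have hde := Nat.dvd_of_mem_divisors hd
  rw [← fiber hde, kap]
  refine sum_congr rfl fun ψ _ => ?_
  have h6 := changeLevel_eq_cast_of_dvd' ψ hde (Nat.isCoprime_iff_coprime.2 hm)
  have h7 := changeLevel_eq_cast_of_dvd' ψ hde (Nat.isCoprime_iff_coprime.2 hn)
  simp only [Int.cast_natCast] at h6 h7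
  rw [h6, h7]

lemma kap_eq {d m n : ℕ} (hd : 1 ≤ d) (hm : Nat.Coprime m d) (hn : Nat.Coprime n d) :
    kap d m n = ∑ e ∈ d.divisors,
      (μ (d / e) : ℂ) * if m ≡ n [MOD e] then (φ e : ℂ) else 0 := by
  have h := (ArithmeticFunction.sum_eq_iff_sum_mul_moebius_eq_on (R := ℂ)
    (f := fun d => kap d m n) (g := fun e => if m ≡ n [MOD e] then (φ e : ℂ) else 0)
    {e | Nat.Coprime m e ∧ Nat.Coprime n e}
    (fun a b hab hb => ⟨hb.1.coprime_dvd_right hab, hb.2.coprime_dvd_right hab⟩)).1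
    (fun e he h => orth e m n he h.1 h.2) d hd ⟨hm, hn⟩
  rw [← h]
  exact Nat.sum_divisorsAntidiagonal'
    (fun a e => (μ a : ℂ) * if m ≡ n [MOD e] then (φ e : ℂ) else 0)

lemma card_eq {d : ℕ} (hd : 1 ≤ d) : ((prim d).card : ℝ) = phiS d := by
  have h := kap_eq hd (Nat.coprime_one_left d) (Nat.coprime_one_left d)
  simp only [kap, Nat.cast_one, map_one, mul_one, sum_const, nsmul_eq_mul, Nat.ModEq.refl,
    if_true] at h
  rw [phiS]
  exact_mod_cast h

lemma card_le {d : ℕ} (hd : 1 ≤ d) : (prim d).card ≤ d := by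
  have : NeZero d := ⟨by omega⟩
  refine (card_le_univ _).trans ?_
  rw [← Nat.card_eq_fintype_card, card_eq_totient_of_hasEnoughRootsOfUnity]
  exact Nat.totient_le d

lemma kap_diag (d m n : ℕ) : ‖kap d m n‖ ≤ (prim d).card := by
  refine (norm_sum_le_of_le _ (n := fun _ => (1 : ℝ)) fun χ _ => ?_).trans (by simp)
  rw [norm_mul, Complex.norm_conj]
  exact mul_le_one₀ (norm_le_one _ _) (norm_nonneg _) (norm_le_one _ _)

lemma kap_off {d : ℕ} (hd : 1 ≤ d) (m n : ℕ) :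
    ‖kap d m n‖ ≤ ∑ e ∈ d.divisors, if m ≡ n [MOD e] then (e : ℝ) else 0 := by
  by_cases h : Nat.Coprime m d ∧ Nat.Coprime n d
  · rw [kap_eq hd h.1 h.2]
    refine norm_sum_le_of_le _ fun e _ => ?_
    split_ifs
    · rw [norm_mul, Complex.norm_intCast, Complex.norm_natCast]
      have h1 : |((μ (d / e) : ℤ) : ℝ)| ≤ 1 := by
        exact_mod_cast ArithmeticFunction.abs_moebius_le_one
      have h2 : (φ e : ℝ) ≤ e := by exact_mod_cast Nat.totient_le e
      nlinarith [Nat.cast_nonneg (α := ℝ) (φ e)]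
    · simp
  · have h0 : kap d m n = 0 := by
      refine sum_eq_zero fun χ _ => ?_
      rcases not_and_or.1 h with h | h
      · rw [χ.map_nonunit (mt (ZMod.isUnit_iff_coprime m d).1 h), zero_mul]
      · rw [χ.map_nonunit (mt (ZMod.isUnit_iff_coprime n d).1 h), map_zero, mul_zero]
    rw [h0, norm_zero]
    exact sum_nonneg fun e _ => by positivity

lemma Ad_le (d N : ℕ) (a : ℕ → ℂ) :
    Ad d N a ≤ ∑ m ∈ Icc 1 N, ∑ n ∈ Icc 1 N, ‖a m‖ * ‖a n‖ * ‖kap d m n‖ := by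
  have h : (Ad d N a : ℂ) = ∑ m ∈ Icc 1 N, ∑ n ∈ Icc 1 N, a m * conj (a n) * kap d m n := by
    simp only [Ad, kap, ofReal_sum, ofReal_pow, ← Complex.mul_conj', map_sum, map_mul,
      sum_mul_sum]
    simp only [mul_sum]
    rw [sum_comm]
    refine sum_congr rfl fun m _ => ?_
    rw [sum_comm]
    exact sum_congr rfl fun n _ => sum_congr rfl fun χ _ => by ring
  refine (Real.le_norm_self _).trans ?_
  rw [← Complex.norm_real, h]
  refine norm_sum_le_of_le _ fun m _ => norm_sum_le_of_le _ fun n _ => ?_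
  rw [norm_mul, norm_mul, Complex.norm_conj]

/-- The number of moduli for which `m` and `n` are congruent. -/
noncomputable def tt (N m n : ℕ) : ℝ := ∑ e ∈ Icc 1 N, if m ≡ n [MOD e] then 1 else 0

lemma off_sum (Q₁ Q : ℕ) {N m n : ℕ} (hm : m ∈ Icc 1 N) (hn : n ∈ Icc 1 N) (hmn : m ≠ n) :
    ∑ d ∈ Ioc Q₁ Q, ‖kap d m n‖ ≤ Q * tt N m n := by
  rw [mem_Icc] at hm hn
  have h1 : ∀ d ∈ Ioc Q₁ Q, ‖kap d m n‖ ≤
      ∑ e ∈ Icc 1 N, if e ∣ d then (if m ≡ n [MOD e] then (e : ℝ) else 0) else 0 := by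
    intro d hd
    have hd1 : 1 ≤ d := by have := (mem_Ioc.1 hd).1; omega
    refine (kap_off hd1 m n).trans ?_
    rw [← sum_filter, ← sum_filter, ← sum_filter, filter_filter]
    refine sum_le_sum_of_subset_of_nonneg (fun e he => ?_) fun _ _ _ => Nat.cast_nonneg _
    simp only [mem_filter, Nat.mem_divisors, mem_Icc] at he ⊢
    refine ⟨⟨Nat.pos_of_dvd_of_pos he.1.1 hd1, ?_⟩, he.1.1, he.2⟩
    rcases lt_or_gt_of_ne hmn with h | h
    · have := Nat.le_of_dvd (by omega) ((Nat.modEq_iff_dvd' h.le).1 he.2)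
      omega
    · have := Nat.le_of_dvd (by omega) ((Nat.modEq_iff_dvd' h.le).1 he.2.symm)
      omega
  refine (sum_le_sum h1).trans ?_
  rw [sum_comm, tt, mul_sum]
  refine sum_le_sum fun e he => ?_
  rw [← sum_filter, sum_const, nsmul_eq_mul]
  split_ifs
  · have h2 : #{d ∈ Ioc Q₁ Q | e ∣ d} ≤ Q / e := by
      rw [← Nat.Ioc_filter_dvd_card_eq_div]
      exact card_le_card (filter_subset_filter _ (Ioc_subset_Ioc_left (Nat.zero_le _)))
    have h3 : #{d ∈ Ioc Q₁ Q | e ∣ d} * e ≤ Q :=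
      (Nat.mul_le_mul_right e h2).trans (Nat.div_mul_le_self Q e)
    rw [mul_one]
    exact_mod_cast h3
  · simp

lemma row_sum {N m : ℕ} (hm : m ∈ Icc 1 N) :
    ∑ n ∈ (Icc 1 N).erase m, tt N m n ≤ N * (1 + Real.log N) := by
  simp only [tt]
  rw [sum_comm]
  have h1 : ∀ e ∈ Icc 1 N, ∑ n ∈ (Icc 1 N).erase m, (if m ≡ n [MOD e] then (1 : ℝ) else 0)
      ≤ N * (e : ℝ)⁻¹ := by
    intro e _
    rw [sum_boole, filter_erase, card_erase_of_mem (mem_filter.2 ⟨hm, Nat.ModEq.refl m⟩)]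
    have h2 : #{n ∈ Icc 1 N | m ≡ n [MOD e]} ≤ (range (N / e + 1)).card := by
      refine card_le_card_of_injOn (fun n => n / e) (fun n hn => ?_) (fun n hn n' hn' h => ?_)
      · simp only [coe_filter, mem_Icc, Set.mem_ofPred_eq] at hn
        simp only [coe_range, Set.mem_Iio]
        exact Nat.lt_succ_of_le (Nat.div_le_div_right hn.1.2)
      · simp only [coe_filter, mem_Icc, Set.mem_ofPred_eq] at hn hn'
        have h3 : n % e = n' % e := hn.2.symm.trans hn'.2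
        have h4 : n / e = n' / e := h
        rw [← Nat.div_add_mod n e, ← Nat.div_add_mod n' e, h3, h4]
    rw [card_range] at h2
    have h3 : #{n ∈ Icc 1 N | m ≡ n [MOD e]} - 1 ≤ N / e := Nat.sub_le_of_le_add h2
    exact (Nat.cast_le.2 h3).trans Nat.cast_div_le
  refine (sum_le_sum h1).trans ?_
  rw [← mul_sum]
  refine mul_le_mul_of_nonneg_left ?_ (Nat.cast_nonneg _)
  have h := harmonic_le_one_add_log N
  rw [harmonic_eq_sum_Icc] at h
  simpa using h

end Q_Orth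

open Q_Orth

theorem stmtOrth : StmtOrth := by
  refine ⟨orth, fun d hd => ⟨card_eq hd, card_le hd⟩, fun N a => ?_⟩
  have h : prim 1 = {1} := by
    ext χ
    rw [DirichletCharacter.level_one χ]
    exact iff_of_true (mem_filter.2 ⟨mem_univ _, DirichletCharacter.isPrimitive_one_level_one⟩)
      (mem_singleton_self _)
  have h1 : ∀ n : ℕ, (1 : DirichletCharacter ℂ 1) (n : ZMod 1) = 1 := fun n =>
    MulChar.one_apply (isUnit_of_subsingleton _)
  simp only [Ad, h, sum_singleton, h1, mul_one]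

theorem stmtLS1 : StmtLS1 := by
  intro Q₁ Q N a
  set B : ℕ → ℕ → ℝ := fun m n => if m = n then famCard Q₁ Q else Q * tt N m n with hB
  have hsym : ∀ m n, B m n = B n m := fun m n => by
    simp only [hB, tt, eq_comm (a := m), Nat.ModEq.comm (a := m)]
  have hK : ∀ m ∈ Icc 1 N, ∀ n ∈ Icc 1 N, ∑ d ∈ Ioc Q₁ Q, ‖kap d m n‖ ≤ B m n := by
    intro m hm n hn
    simp only [hB]
    split_ifs with h
    · exact sum_le_sum fun d _ => kap_diag d m n
    · exact off_sum Q₁ Q hm hn h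
  have hrow : ∀ m ∈ Icc 1 N, ∑ n ∈ Icc 1 N, B m n
      ≤ famCard Q₁ Q + Q * N * (1 + Real.log N) := by
    intro m hm
    rw [← add_sum_erase _ _ hm, sum_congr rfl (g := fun n => Q * tt N m n)
      fun n hn => if_neg (ne_of_mem_erase hn).symm, ← mul_sum, mul_assoc]
    simp only [hB, if_true]
    gcongr
    exact row_sum hm
  calc famSum Q₁ Q N a
      ≤ ∑ d ∈ Ioc Q₁ Q, ∑ m ∈ Icc 1 N, ∑ n ∈ Icc 1 N, ‖a m‖ * ‖a n‖ * ‖kap d m n‖ :=
        sum_le_sum fun d _ => Ad_le d N a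
    _ = ∑ m ∈ Icc 1 N, ∑ n ∈ Icc 1 N, ‖a m‖ * ‖a n‖ * ∑ d ∈ Ioc Q₁ Q, ‖kap d m n‖ := by
        rw [sum_comm]
        refine sum_congr rfl fun m _ => ?_
        rw [sum_comm]
        simp only [mul_sum]
    _ ≤ ∑ m ∈ Icc 1 N, ∑ n ∈ Icc 1 N, (‖a m‖ ^ 2 * B m n / 2 + ‖a n‖ ^ 2 * B n m / 2) := by
        refine sum_le_sum fun m hm => sum_le_sum fun n hn => ?_
        have h1 := hK m hm n hn
        have h2 : 0 ≤ ∑ d ∈ Ioc Q₁ Q, ‖kap d m n‖ := sum_nonneg fun _ _ => norm_nonneg _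
        rw [← hsym m n]
        have h3 : ‖a m‖ * ‖a n‖ ≤ (‖a m‖ ^ 2 + ‖a n‖ ^ 2) / 2 := by
          nlinarith [sq_nonneg (‖a m‖ - ‖a n‖)]
        calc _ ≤ (‖a m‖ ^ 2 + ‖a n‖ ^ 2) / 2 * B m n := mul_le_mul h3 h1 h2 (by positivity)
          _ = _ := by ring
    _ = ∑ m ∈ Icc 1 N, ‖a m‖ ^ 2 * ∑ n ∈ Icc 1 N, B m n := by
        simp only [sum_add_distrib]
        rw [sum_comm (f := fun m n => ‖a n‖ ^ 2 * B n m / 2), ← sum_add_distrib]
        refine sum_congr rfl fun m _ => ?_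
        rw [← sum_add_distrib, mul_sum]
        exact sum_congr rfl fun n _ => by ring
    _ ≤ ∑ m ∈ Icc 1 N, ‖a m‖ ^ 2 * (famCard Q₁ Q + Q * N * (1 + Real.log N)) :=
        sum_le_sum fun m hm => mul_le_mul_of_nonneg_left (hrow m hm) (sq_nonneg _)
    _ = _ := by rw [← sum_mul, mul_comm, nrm]

end Pool.Agent.MP_f259ea_nt.Q
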