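import Pool.Agent.MP_f259ea_nt.Q_Defs

/-!
The analysis for one character of the family.
-/

set_option autoImplicit false

open Complex MeasureTheory Set Filter Topology DirichletCharacter
open scoped Real ComplexConjugate

namespace Pool.Agent.MP_f259ea_nt.Q

namespace PerChi

variable {N : ℕ} [NeZero N] (χ : DirichletCharacter ℂ N)

/-- The analysis with fixed parameters. -/
lemma core (hχ : χ.IsPrimitive) {K : ℝ → ℝ} {Km ε : ℝ} (hK : ContinuousOn K (Icc (-1) 1))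
    (hK0 : ∀ a ∈ Icc (-1 : ℝ) 1, 0 ≤ K a) (hKm : ∀ a ∈ Icc (-1 : ℝ) 1, K a ≤ Km) (hε : 0 < ε)
    {T U H L E ℓ Cw Cp r Bh Nall θ : ℝ} (hT : 2 ≤ T) (hU0 : 0 < U) (hU : 2 * U + 2 ≤ T)
    (hH : 0 < H) (hL0 : 0 ≤ L) (hℓ : 0 < ℓ) (hCw : 0 < Cw) (hr : 0 ≤ r)
    {w : ℂ → ℂ} {W : ℝ → ℂ} (hw : Differentiable ℂ w) (hwc : ∀ z, w (conj z) = conj (w z))
    (hW : Continuous W) (hWc : ∀ u, W (-u) = conj (W u)) (hPc : Continuous (Psum χ W))
    (hP0 : ‖Psum χ W 0‖ ≤ Cp * T)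
    (hW0 : W 0 = (((2 * T - 1 - U) - (T + 1 + U) : ℝ) : ℂ))
    (hFT : ∀ v : ℝ, |v| ≤ 2 → Integrable (fun t : ℝ => w (t + v * I)) ∧
        ∀ u : ℝ, ∫ t : ℝ, w (t + v * I) * Complex.exp (2 * π * I * u * (t + v * I)) = W u)
    (hwb : ∀ z : ℂ, |z.im| ≤ 2 → ‖w z‖ ≤ Cw)
    (hin : ∀ z : ℂ, |z.im| ≤ 2 → T + 1 + U + U ≤ z.re → z.re ≤ 2 * T - 1 - U - U →
        ‖w z - 1‖ ≤ Cw * r)
    (hout : ∀ z : ℂ, |z.im| ≤ 2 → (z.re ≤ T + 1 + U - U ∨ 2 * T - 1 - U + U ≤ z.re) →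
        ‖w z‖ ≤ Cw * r)
    (htail : ∀ v : ℝ, |v| ≤ 2 →
        ∫ t in (Icc (T + 1 + U - U) (2 * T - 1 - U + U))ᶜ, ‖w (t + v * I)‖ ≤ Cw * H * r)
    {a b : ℝ} (ha : a ∈ Icc T (T + 1)) (hb : b ∈ Icc (2 * T - 1) (2 * T))
    (hL : ∀ t : ℝ, t = a ∨ t = b → ∀ σ ∈ Icc (1 / 2 : ℝ) 2, LFunction χ (σ + t * I) ≠ 0 ∧
      ‖logDeriv (LFunction χ) (σ + t * I)‖ ≤ Bh)
    (hE : ∀ t ∈ Icc T (2 * T), ‖Efun χ L t‖ ≤ E)
    (Z : Finset ℂ) (hZ : ∀ z, z ∈ Z ↔ T < z.re ∧ z.re ≤ 2 * T ∧ Xi χ z = 0)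
    (hNall : ∑ z ∈ Z, (nn χ z : ℝ) ≤ Nall)
    (hθ : 2 * (3 * Bh * (Cw * r) + Btwo χ * (Cw * H * r)) * Real.exp (3 * π * ℓ)
      + L * (Cw * H * r) + 2 * π * (Nall * (Cw * r) * Real.exp (π * ℓ)) ≤ θ) :
    ∃ Zt : Finset ℂ, Zt ⊆ Z.filter (fun z => ¬ (T + 1 + U + U ≤ z.re ∧ z.re ≤ 2 * T - 1 - U - U)) ∧
      (∀ z ∈ Zt, conj z ∈ Zt) ∧
      (4 * π ^ 2 * ∫ s in (-1 : ℝ)..1, K s * ‖nu χ w
          (Z.filter (fun z => T + 1 + U + U ≤ z.re ∧ z.re ≤ 2 * T - 1 - U - U)) Zt (s * ℓ)‖ ^ 2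
        ≤ (1 + ε) * (∫ s in (-1 : ℝ)..1, K s * ‖Sch χ W L (s * ℓ)‖ ^ 2)
          + (1 + 1 / ε) * Km * (6 * ((E * Cw) ^ 2 * T / ℓ) + 6 * θ ^ 2)) ∧
      L * (T - 2 - 2 * U) ≤ 2 * π * ‖nu χ w
          (Z.filter (fun z => T + 1 + U + U ≤ z.re ∧ z.re ≤ 2 * T - 1 - U - U)) Zt 0‖
        + 2 * ((E * Cw + Cp) * T) + θ := by
  classical
  have ha0 : 0 < a := by linarith [ha.1]
  have hab : a < b := by linarith [ha.2, hb.1]
  set P : ℂ → Prop := fun z => T + 1 + U + U ≤ z.re ∧ z.re ≤ 2 * T - 1 - U - U with hPdef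
  set Zr := Z.filter (fun z => a ≤ z.re ∧ z.re ≤ b) with hZr
  have him : ∀ z ∈ Z, |z.im| < 1 / 2 := fun z hz => by
    obtain ⟨h1, -, h3⟩ := (hZ z).1 hz
    exact abs_im_lt_of_Xi_eq_zero χ hχ (by linarith) h3
  have hXa := Xi_vert_ne_zero χ hχ ha0 (hL a (Or.inl rfl))
  have hZr' : ∀ z, z ∈ Zr ↔ z ∈ Icc a b ×ℂ Icc (-(3 / 2) : ℝ) (3 / 2) ∧ Xi χ z = 0 := by
    intro z
    rw [hZr, Finset.mem_filter]
    constructor
    · rintro ⟨h1, h2⟩
      have h3 := abs_lt.1 (him z h1)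
      exact ⟨⟨h2, ⟨by linarith, by linarith⟩⟩, ((hZ z).1 h1).2.2⟩
    · rintro ⟨⟨h1, -⟩, h3⟩
      refine ⟨(hZ z).2 ⟨?_, h1.2.trans hb.2, h3⟩, h1⟩
      refine ha.1.trans_lt (lt_of_le_of_ne h1.1 ?_)
      intro h
      apply hXa z.im
      rw [h, re_add_im]; exact h3
  have hZi : Zr.filter P = Z.filter P := by
    ext z
    simp only [hZr, Finset.mem_filter, hPdef]
    constructor
    · rintro ⟨⟨h1, -⟩, h3⟩; exact ⟨h1, h3⟩
    · rintro ⟨h1, h3⟩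
      exact ⟨⟨h1, by linarith [ha.2, h3.1], by linarith [hb.1, h3.2]⟩, h3⟩
  have htail' : ∀ v : ℝ, |v| ≤ 2 → ∫ t in (Icc a b)ᶜ, ‖w (t + v * I)‖ ≤ Cw * H * r := by
    intro v hv
    refine le_trans ?_ (htail v hv)
    refine setIntegral_mono_set (hFT v hv).1.norm.integrableOn
      (Eventually.of_forall fun _ => norm_nonneg _) (LE.le.eventuallyLE ?_)
    exact compl_subset_compl.2 (Icc_subset_Icc (by linarith [ha.2]) (by linarith [hb.1]))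
  have hv1 : |(-(3 / 2) : ℝ)| ≤ 2 := by norm_num [abs_le]
  have hv0 : |(0 : ℝ)| ≤ 2 := by norm_num
  have hEF := explicit_formula' χ stmtRect hχ hw hwc hWc (hFT _ hv1).1 (hFT _ hv1).2
    (by simpa using (hFT _ hv0).1) (by simpa [gu] using (hFT _ hv0).2) ha0 hab hL0 (htail' _ hv1)
    (by simpa using htail' _ hv0) hL (ω := Cw * r) (by
      intro t ht y hy
      apply hout
      · simp; rw [abs_le]; constructor <;> linarith [hy.1, hy.2]
      · rcases ht with rfl | rfl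
        · left; simp; linarith [ha.2]
        · right; simp; linarith [hb.1]) Zr hZr'
  have hNr : ∑ z ∈ Zr, (nn χ z : ℝ) ≤ Nall :=
    (Finset.sum_le_sum_of_subset_of_nonneg (Finset.filter_subset _ _)
      (fun _ _ _ => by positivity)).trans hNall
  have hBh : 0 ≤ Bh := (norm_nonneg _).trans (hL a (Or.inl rfl) 1 (by norm_num)).2
  have hB2 := Btwo_nonneg χ
  have key : ∀ u : ℝ, |u| ≤ ℓ →
      ‖2 * π * nu χ w (Z.filter P) (Zr.filter fun z => ¬ P z) u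
        - (L * W u - Psum χ W u - conj (Psum χ W (-u)))
        - Err χ w a b L u - conj (Err χ w a b L (-u))‖ ≤ θ := by
    intro u hu
    have h3 := hEF u
    have h4 := nu_sub χ (w := w) Zr P (ω := Cw * r) (by positivity)
      (fun z hz => (him z (Finset.mem_of_mem_filter z hz)).le) (fun z hz hP =>
        hin z (by linarith [him z (Finset.mem_of_mem_filter z hz)]) hP.1 hP.2) u
    rw [hZi] at h4
    set ν := nu χ w (Z.filter P) (Zr.filter fun z => ¬ P z) u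
    change ‖2 * π * (∑ ρ ∈ Zr, (nn χ ρ : ℂ) * gu w u ρ) - _ - _ - _‖ ≤ _ at h3
    set μ := ∑ ρ ∈ Zr, (nn χ ρ : ℂ) * gu w u ρ
    have h5 : 2 * π * ν - (L * W u - Psum χ W u - conj (Psum χ W (-u)))
        - Err χ w a b L u - conj (Err χ w a b L (-u))
        = (2 * π * μ - (L * W u - Psum χ W u - conj (Psum χ W (-u)))
        - Err χ w a b L u - conj (Err χ w a b L (-u)))
          + 2 * π * (ν - μ) := by ring
    rw [h5]
    refine (norm_add_le _ _).trans (le_trans ?_ hθ)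
    have h6 : ‖2 * π * (ν - μ)‖ = 2 * π * ‖ν - μ‖ := by
      rw [norm_mul, norm_mul, norm_real, Real.norm_eq_abs, abs_of_pos Real.pi_pos]
      simp
    have h7 : Real.exp (3 * π * |u|) ≤ Real.exp (3 * π * ℓ) := by
      have := Real.pi_pos
      gcongr
    have h8 : ‖ν - μ‖ ≤ Nall * (Cw * r) * Real.exp (π * ℓ) := by
      refine h4.trans ?_
      have := Real.pi_pos
      have : 0 ≤ Nall := le_trans (by positivity) hNr
      gcongr
    rw [h6]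
    have := Real.pi_pos
    have h9 : 2 * (3 * Bh * (Cw * r) + Btwo χ * (Cw * H * r)) * Real.exp (3 * π * |u|)
        ≤ 2 * (3 * Bh * (Cw * r) + Btwo χ * (Cw * H * r)) * Real.exp (3 * π * ℓ) := by gcongr
    have h10 : 2 * π * ‖ν - μ‖ ≤ 2 * π * (Nall * (Cw * r) * Real.exp (π * ℓ)) := by gcongr
    linarith
  have hME : ∀ t ∈ Icc a b, ‖Efun χ L t * w t‖ ≤ E * Cw := by
    intro t ht
    have h3 := hE t ⟨ha.1.trans ht.1, ht.2.trans hb.2⟩
    have h4 := hwb t (by simp)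
    rw [norm_mul]
    have := (norm_nonneg _).trans h3
    gcongr
  have hME0 : 0 ≤ E * Cw := (norm_nonneg _).trans (hME a ⟨le_rfl, hab.le⟩)
  have hba : b - a ≤ T := by linarith [ha.1, hb.2]
  refine ⟨Zr.filter fun z => ¬ P z, ?_, ?_, ?_, ?_⟩
  · exact Finset.filter_subset_filter _ (Finset.filter_subset _ _)
  · intro z hz
    simp only [hZr, Finset.mem_filter, hZ, hPdef, conj_re] at hz ⊢
    refine ⟨⟨⟨hz.1.1.1, hz.1.1.2.1, ?_⟩, hz.1.2⟩, hz.2⟩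
    exact (Xi_conj_eq_zero_iff χ hχ (by linarith [hz.1.1.1])).2 hz.1.1.2.2
  · obtain ⟨e1, e2⟩ := integral_Err_sq_le χ stmtPlanch hw (L := L) hab.le hℓ hME
    have hQ : (E * Cw) ^ 2 * (b - a) / ℓ
        ≤ (E * Cw) ^ 2 * T / ℓ := by gcongr
    have hcE := continuous_Err χ hw a b L
    have hcν := continuous_nu χ w (Z.filter P) (Zr.filter fun z => ¬ P z)
    have hSc : ContinuousOn (fun s : ℝ => L * W (s * ℓ) - Psum χ W (s * ℓ)
        - conj (Psum χ W (-(s * ℓ)))) (Icc (-1) 1) := Continuous.continuousOn (by fun_prop)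
    have h3 := perturb (K := K)
      (μ := fun s => 2 * π * nu χ w (Z.filter P) (Zr.filter fun z => ¬ P z) (s * ℓ))
      (S := fun s => L * W (s * ℓ) - Psum χ W (s * ℓ) - conj (Psum χ W (-(s * ℓ))))
      (E₁ := fun s => Err χ w a b L (s * ℓ))
      (E₂ := fun s => conj (Err χ w a b L (-(s * ℓ)))) (θ := θ) hK hK0 hKm
      (by fun_prop) hSc (by fun_prop) (by fun_prop) hε (fun s hs => key _ (by
        rw [abs_mul, abs_of_pos hℓ]
        have : |s| ≤ 1 := abs_le.2 hs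
        nlinarith)) (e1.trans hQ) (e2.trans hQ)
    have h5 : 4 * π ^ 2 * ∫ s in (-1 : ℝ)..1,
          K s * ‖nu χ w (Z.filter P) (Zr.filter fun z => ¬ P z) (s * ℓ)‖ ^ 2
        = ∫ s in (-1 : ℝ)..1,
          K s * ‖2 * π * nu χ w (Z.filter P) (Zr.filter fun z => ¬ P z) (s * ℓ)‖ ^ 2 := by
      rw [← intervalIntegral.integral_const_mul]
      congr 1
      funext s
      rw [norm_mul, norm_mul, norm_real, Real.norm_eq_abs, abs_of_pos Real.pi_pos]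
      simp only [norm_ofNat]
      ring
    rw [h5]
    exact h3
  · have h3 := key 0 (by simpa using hℓ.le)
    rw [neg_zero, hW0] at h3
    have h4 := norm_Err_le χ (L := L) hab.le hME 0
    have h5 : E * Cw * (b - a) ≤ E * Cw * T := by gcongr
    set ν := nu χ w (Z.filter P) (Zr.filter fun z => ¬ P z) 0
    set F := Err χ w a b L 0
    set p := Psum χ W 0
    have h6 : ((L * (T - 2 - 2 * U) : ℝ) : ℂ) = 2 * π * ν - F - conj F + p + conj p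
        - (2 * π * ν - (L * (((2 * T - 1 - U) - (T + 1 + U) : ℝ) : ℂ) - p - conj p)
          - F - conj F) := by
      push_cast; ring
    have h7 := congrArg norm h6
    rw [norm_real, Real.norm_eq_abs, abs_of_nonneg (mul_nonneg hL0 (by linarith))] at h7
    rw [h7]
    refine (norm_sub_le _ _).trans ?_
    have h8 : ‖2 * π * ν - F - conj F‖ ≤ 2 * π * ‖ν‖ + ‖F‖ + ‖F‖ := by
      refine (norm_sub_le _ _).trans ?_
      rw [RCLike.norm_conj]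
      gcongr
      refine (norm_sub_le _ _).trans ?_
      rw [norm_mul, norm_mul, norm_real, Real.norm_eq_abs, abs_of_pos Real.pi_pos]
      simp
    have h9 : ‖2 * π * ν - F - conj F + p + conj p‖ ≤ ‖2 * π * ν - F - conj F‖ + ‖p‖ + ‖conj p‖ :=
      norm_add₃_le
    rw [RCLike.norm_conj] at h9
    linarith

lemma out (hχ : χ.IsPrimitive) {C T U L : ℝ} (hC : 0 ≤ C)
    (hcount : ∀ t R : ℝ, 3 ≤ t → 0 ≤ R → ∀ Z : Finset ℂ,
      (∀ z ∈ Z, t ≤ z.re ∧ z.re ≤ t + R ∧ |z.im| < 1 / 2) →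
        ∑ z ∈ Z, (nn χ z : ℝ) ≤ C * (R + 1) * Real.log (N * (t + R + 1)))
    (hT : 3 ≤ T) (hU1 : 1 ≤ U) (hU2 : 2 * U + 2 ≤ T)
    (hlog : ∀ t : ℝ, 1 ≤ t → t ≤ 2 * T + 1 → 0 ≤ Real.log (N * t) ∧ Real.log (N * t) ≤ 3 * L)
    (Z : Finset ℂ) (hZ : ∀ z, z ∈ Z ↔ T < z.re ∧ z.re ≤ 2 * T ∧ Xi χ z = 0) :
    ∑ z ∈ Z.filter (fun z => ¬ (T + 1 + U + U ≤ z.re ∧ z.re ≤ 2 * T - 1 - U - U)), (nn χ z : ℝ)
      ≤ 16 * (3 / 2 * C) * U * L := by
  classical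
  have him : ∀ z ∈ Z, |z.im| < 1 / 2 := fun z hz => by
    obtain ⟨h1, -, h3⟩ := (hZ z).1 hz
    exact abs_im_lt_of_Xi_eq_zero χ hχ (by linarith) h3
  set P : ℂ → Prop := fun z => T + 1 + U + U ≤ z.re ∧ z.re ≤ 2 * T - 1 - U - U with hP
  rw [← Finset.sum_filter_add_sum_filter_not (Z.filter (fun z => ¬ P z))
    (fun z => z.re ≤ T + (1 + 2 * U))]
  have h1 := hcount T (1 + 2 * U) hT (by linarith)
    ((Z.filter (fun z => ¬ P z)).filter (fun z => z.re ≤ T + (1 + 2 * U))) (fun z hz => by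
      simp only [Finset.mem_filter] at hz
      exact ⟨((hZ z).1 hz.1.1).1.le, hz.2, him z hz.1.1⟩)
  have h2 := hcount (2 * T - 1 - 2 * U) (1 + 2 * U) (by linarith) (by linarith)
    ((Z.filter (fun z => ¬ P z)).filter (fun z => ¬ z.re ≤ T + (1 + 2 * U))) (fun z hz => by
      simp only [Finset.mem_filter, hP, not_and, not_le] at hz
      refine ⟨?_, by linarith [((hZ z).1 hz.1.1).2.1], him z hz.1.1⟩
      linarith [hz.1.2 (by linarith [hz.2])])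
  obtain ⟨h3, h3'⟩ := hlog (T + (1 + 2 * U) + 1) (by linarith) (by linarith)
  obtain ⟨h4, h4'⟩ := hlog (2 * T - 1 - 2 * U + (1 + 2 * U) + 1) (by linarith) (by linarith)
  have h5 : C * (1 + 2 * U + 1) * Real.log (N * (T + (1 + 2 * U) + 1)) ≤ C * (4 * U) * (3 * L) := by
    gcongr
    linarith
  have h6 : C * (1 + 2 * U + 1) * Real.log (N * (2 * T - 1 - 2 * U + (1 + 2 * U) + 1))
      ≤ C * (4 * U) * (3 * L) := by
    gcongr
    linarith
  linarith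

omit [NeZero N] in
lemma efun {C T L θ t : ℝ} (hT : 2 ≤ T) (ht : t ∈ Icc T (2 * T)) (h1 : Real.log N ≤ L)
    (h2 : L ≤ Real.log N + Real.log L) (h3 : Real.log T ≤ θ * L)
    (h4 : Real.log L + 2 * C + 1 ≤ θ * L)
    (hg : ∀ t : ℝ, 2 ≤ t →
      ‖logDeriv (gammaFactor χ) (1 / 2 + t * I) - ((Real.log t / 2 : ℝ) : ℂ)‖ ≤ C) :
    ‖Efun χ L t‖ ≤ θ * L := by
  have h5 := hg t (hT.trans ht.1)
  have h6 : Efun χ L t = -(((L - Real.log N) / 2 : ℝ) : ℂ)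
      + (logDeriv (gammaFactor χ) (1 / 2 + t * I) - ((Real.log t / 2 : ℝ) : ℂ))
      + ((Real.log t / 2 : ℝ) : ℂ) := by
    unfold Efun; push_cast; ring
  rw [h6]
  refine norm_add₃_le.trans ?_
  have h7 : 0 ≤ Real.log t := Real.log_nonneg (by linarith [ht.1])
  rw [norm_neg, norm_real, norm_real, Real.norm_of_nonneg (by linarith),
    Real.norm_of_nonneg (by linarith)]
  have h8 : Real.log t ≤ Real.log (2 * T) := Real.log_le_log (by linarith [ht.1]) ht.2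
  rw [Real.log_mul (by norm_num) (by linarith)] at h8
  have h9 := Real.log_two_lt_d9
  linarith

lemma sqrt_le {c L : ℝ} (hL : 0 ≤ L) (h : 15 * c ^ 2 ≤ L) : c * √(15 * L) ≤ L := by
  refine abs_le_of_sq_le_sq' ?_ hL |>.2
  rw [mul_pow, Real.sq_sqrt (by positivity)]
  nlinarith

lemma err_le {G θ Cw L T ℓ ε : ℝ} (hG : 0 ≤ G) (hθ : 0 < θ) (hθ1 : θ ≤ 1) (hL : 1 ≤ L) (hT : 1 ≤ T)
    (hℓ : L / (2 * π) ≤ ℓ) (hε : 0 < ε) (h1 : θ * (42 * G * Cw ^ 2) ≤ ε / 2) (h2 : 12 * G ≤ ε * L) :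
    G * (6 * ((θ * L * Cw) ^ 2 * T / ℓ) + 6 * 1 ^ 2) ≤ ε * T * L := by
  have hpi := Real.pi_lt_d2
  have hpi0 := Real.pi_pos
  have h3 : L / 7 ≤ ℓ := le_trans (by gcongr; linarith) hℓ
  have h4 : (θ * L * Cw) ^ 2 * T / ℓ ≤ (θ * L * Cw) ^ 2 * T / (L / 7) := by gcongr
  have h5 : (θ * L * Cw) ^ 2 * T / (L / 7) = 7 * θ * θ * Cw ^ 2 * (T * L) := by
    field_simp
  have h6 : 7 * θ * θ * Cw ^ 2 * (T * L) ≤ 7 * θ * 1 * Cw ^ 2 * (T * L) := by gcongr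
  have h7 : θ * (42 * G * Cw ^ 2) * (T * L) ≤ ε / 2 * (T * L) := by gcongr
  have h8 : ε * L * 1 ≤ ε * L * T := by gcongr
  calc _ ≤ G * (6 * (7 * θ * 1 * Cw ^ 2 * (T * L)) + 6 * 1 ^ 2) := by gcongr; linarith
    _ ≤ _ := by nlinarith

end PerChi

open PerChi in
theorem stmtPerChi (hU : StmtUnif) (hW : StmtWeightG) (hT : StmtTail) : StmtPerChi := by
  classical
  intro K hK hK0 ε hε
  obtain ⟨C, hC, hU⟩ := hU
  obtain ⟨Cw, hCw, hW⟩ := hW
  obtain ⟨hPc, ⟨Cp, hCp, hP0⟩, -⟩ := hT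
  obtain ⟨Km, hKm⟩ : ∃ Km, ∀ a ∈ Icc (-1 : ℝ) 1, K a ≤ Km := by
    obtain ⟨Km, h⟩ := isCompact_Icc.bddAbove_image (hK.continuousOn (s := Icc (-1) 1))
    exact ⟨Km, fun a ha => h (mem_image_of_mem _ ha)⟩
  have hKm0 : 0 ≤ Km := (hK0 0).trans (hKm 0 (by simp))
  set G := (1 + 1 / ε) * Km with hG
  have hG0 : 0 ≤ G := by positivity
  obtain ⟨θ, hθ, hθ1, hθ2, hθ3⟩ : ∃ θ : ℝ, 0 < θ ∧ θ ≤ 1 ∧ θ * (6 * Cw) ≤ ε / 2 ∧
      θ * (42 * G * Cw ^ 2) ≤ ε / 2 := by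
    have h1 : min 1 (ε / 2 / (6 * Cw + 42 * G * Cw ^ 2)) * (6 * Cw + 42 * G * Cw ^ 2) ≤ ε / 2 :=
      (le_div_iff₀ (by positivity)).1 (min_le_right _ _)
    have h2 : 0 < min 1 (ε / 2 / (6 * Cw + 42 * G * Cw ^ 2)) := by positivity
    refine ⟨_, h2, min_le_left _ _, le_trans ?_ h1, le_trans ?_ h1⟩ <;> gcongr
    · exact le_add_of_nonneg_right (by positivity)
    · exact le_add_of_nonneg_left (by positivity)
  set c := (12 + 400 * (3 / 2 * C) * (Cw + 1)) / ε with hc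
  have hLt : Tendsto (fun Q : ℕ => Real.log Q) atTop atTop :=
    Real.tendsto_log_atTop.comp tendsto_natCast_atTop_atTop
  have hev : ∀ᶠ L : ℝ in atTop, 240 ≤ L ∧ 15 * c ^ 2 ≤ L ∧ 9 * C ≤ L ∧ Cw * (14 + 2 * C) ≤ L ∧
      12 * G / ε ≤ L ∧ (12 * Cp + 28) / ε ≤ L ∧ (4 * C + 2) / θ ≤ L ∧
      ‖Real.log L‖ ≤ θ / 2 * ‖L‖ := by
    refine (eventually_ge_atTop _).and ((eventually_ge_atTop _).and ((eventually_ge_atTop _).and
      ((eventually_ge_atTop _).and ((eventually_ge_atTop _).and ((eventually_ge_atTop _).and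
      ((eventually_ge_atTop _).and ?_))))))
    exact Real.isLittleO_log_id_atTop.bound (half_pos hθ)
  obtain ⟨Q₀, hQ₀⟩ := eventually_atTop.1 ((hLt.eventually hev).and (eventually_ge_atTop 1))
  refine ⟨θ, hθ, Q₀, fun Q hQ T hLT hTQ => ?_⟩
  obtain ⟨⟨l1, l2, l3, l4, l5, l6, l7, l8⟩, hQ1⟩ := hQ₀ Q hQ
  have hQ1' : (1 : ℝ) ≤ Q := by exact_mod_cast hQ1
  have hQ0 : (0 : ℝ) < Q := by linarith only [hQ1']
  have hlogT : Real.log T ≤ θ * Real.log Q := by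
    rw [← Real.log_rpow hQ0]
    exact Real.log_le_log (by linarith only [l1, hLT]) hTQ
  have hTQ' : T ≤ Q := hTQ.trans (Real.rpow_le_self_of_one_le hQ1' hθ1)
  have hexp : Real.exp (Real.log Q) = Q := Real.exp_log hQ0
  set L := Real.log Q with hL
  have hL0 : 0 ≤ L := by linarith only [l1]
  have hL1 : 1 ≤ L := by linarith only [l1]
  have hT1 : 1 ≤ T := by linarith only [l1, hLT]
  have hT0 : 0 < T := by linarith only [hT1]
  have hLQ : L ≤ Q := hLT.trans hTQ'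
  set U := √(15 * L) with hUdef
  have hU1 : 1 ≤ U := Real.one_le_sqrt.2 (by linarith only [l1])
  have hU4 : 4 * U ≤ L := sqrt_le hL0 (by linarith only [l1])
  have hU2 : 2 * U + 2 ≤ T := by linarith only [hU1, hU4, hLT]
  have hUc : c * U ≤ L := sqrt_le hL0 l2
  have hUL : (12 + 400 * (3 / 2 * C) * (Cw + 1)) * U * L ≤ ε * T * L := by
    refine mul_le_mul_of_nonneg_right ?_ hL0
    rw [hc, div_mul_eq_mul_div, div_le_iff₀ hε] at hUc
    exact hUc.trans (by rw [mul_comm]; gcongr)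
  have hr : Real.exp (-U ^ 2) = ((Q : ℝ) ^ 15)⁻¹ := by
    rw [hUdef, Real.sq_sqrt (by positivity), Real.exp_neg, ← hexp, ← Real.exp_nat_mul]
    norm_num
  obtain ⟨w, W, hw, hwc, hGW, hW0, hFT, hwb, hin, hout, htail⟩ :=
    hW T (T + 1 + U) (2 * T - 1 - U) hT1 (by linarith only [hU1]) (by linarith only [hU2])
      (by linarith only [hU1])
  refine ⟨w, W, hGW, hwc, fun ℓ hℓ1 hℓ2 d _ χ hχ hd1 hd2 Z hZ => ?_⟩
  obtain ⟨hHe, hcount, hg, hB⟩ := hU d χ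
  have hcount := hcount hχ
  have hd0 : (1 : ℝ) ≤ d := by exact_mod_cast Nat.pos_of_ne_zero (NeZero.ne d)
  have hd3 : Real.log d ≤ L := Real.log_le_log (by linarith only [hd0]) (by exact_mod_cast hd2)
  have hd4 : L ≤ Real.log d + Real.log L := by
    rw [← Real.log_mul (by linarith only [hd0]) (by linarith only [hL1])]
    exact Real.log_le_log hQ0 hd1
  have hlog : ∀ t : ℝ, 1 ≤ t → t ≤ 2 * T + 1 →
      0 ≤ Real.log (d * t) ∧ Real.log (d * t) ≤ 3 * L := fun t h1 h2 => by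
    refine ⟨Real.log_nonneg (one_le_mul_of_one_le_of_one_le hd0 h1), ?_⟩
    have h3 : Real.log t ≤ Real.log (Q * Q) :=
      Real.log_le_log (by linarith only [h1]) (by nlinarith only [h2, hTQ', hLQ, l1])
    rw [Real.log_mul hQ0.ne' hQ0.ne'] at h3
    rw [Real.log_mul (by linarith only [hd0]) (by linarith only [h1])]
    linarith only [h3, hd3, hL]
  have hpi0 := Real.pi_pos
  have hℓ0 : 0 < ℓ := lt_of_lt_of_le (by positivity) hℓ1
  have hπℓ : π * ℓ ≤ L := by rw [le_div_iff₀ hpi0] at hℓ2; linarith only [hℓ2]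
  have hQ3 : (Q : ℝ) ≤ (Q : ℝ) ^ 3 := le_self_pow₀ hQ1' (by norm_num)
  have hX1 : (1 : ℝ) ≤ (Q : ℝ) ^ 3 := hQ1'.trans hQ3
  have hX2 : (Q : ℝ) ^ 3 ≤ ((Q : ℝ) ^ 3) ^ 2 := le_self_pow₀ hX1 (by norm_num)
  obtain ⟨a, ha, hLa⟩ := hHe T (by linarith only [l1, hLT])
  obtain ⟨b, hb, hLb⟩ := hHe (2 * T - 1) (by linarith only [l1, hLT])
  have hBh : ∀ t : ℝ, 1 ≤ t → t ≤ 2 * T + 1 → C * Real.log (d * t) ^ 2 ≤ (Q : ℝ) ^ 3 :=
    fun t h1 h2 => by
    obtain ⟨h3, h4⟩ := hlog t h1 h2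
    calc _ ≤ C * (3 * L) ^ 2 := by gcongr
      _ = 9 * C * L ^ 2 := by ring
      _ ≤ Q * Q ^ 2 := by gcongr; exact l3.trans hLQ
      _ = _ := by ring
  have hNall : ∑ z ∈ Z, (nn χ z : ℝ) ≤ (Q : ℝ) ^ 3 := by
    have h1 := hcount T T (by linarith only [l1, hLT]) hT0.le Z (fun z hz => by
      obtain ⟨h1, h2, h3⟩ := (hZ z).1 hz
      exact ⟨h1.le, by linarith only [h2], abs_im_lt_of_Xi_eq_zero χ hχ (hT0.trans h1) h3⟩)
    obtain ⟨h3, h4⟩ := hlog (T + T + 1) (by linarith only [hT0]) (by linarith only [])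
    calc _ ≤ C * (3 * T) * (3 * L) := h1.trans (by gcongr; linarith only [hT1])
      _ = 9 * C * T * L := by ring
      _ ≤ Q * Q * Q := by gcongr; exact l3.trans hLQ
      _ = _ := by ring
  have hNout := out χ hχ hC.le hcount (by linarith only [l1, hLT]) hU1 hU2 hlog Z hZ
  have hθb := theta_le_one (T := (Q : ℝ) ^ 3) (H := 1) (r := Real.exp (-U ^ 2)) (Cw := Cw)
    (B2 := Btwo χ) (Bh := (Q : ℝ) ^ 3) (Nall := (Q : ℝ) ^ 3) (L := L) (E3 := Real.exp (3 * π * ℓ))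
    (E1 := Real.exp (π * ℓ)) hX1 zero_le_one hX1 (Real.exp_pos _).le
    (by rw [hr, ← pow_mul, mul_inv_cancel₀ (by positivity)]) hCw (Btwo_nonneg χ) le_rfl
    (by positivity) hX2 (hLQ.trans hQ3) (le_trans (by
      rw [← hexp, ← Real.exp_nat_mul]
      exact Real.exp_le_exp.2 (by push_cast; linarith only [hπℓ])) hX2) (Real.exp_pos _).le
    (le_trans (by rw [← hexp]; exact Real.exp_le_exp.2 hπℓ) hQ3) (Real.exp_pos _).le
    (le_trans (by gcongr) (l4.trans (hLQ.trans hQ3)))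
  have hll : Real.log L + 2 * C + 1 ≤ θ * L := by
    rw [Real.norm_of_nonneg hL0] at l8
    rw [div_le_iff₀ hθ] at l7
    linarith only [l7, l8, le_abs_self (Real.log L), Real.norm_eq_abs (Real.log L)]
  obtain ⟨Zt, hZt, hZtc, hI, hII⟩ := core χ hχ hK.continuousOn (fun a _ => hK0 a) hKm hε
    (T := T) (U := U) (H := 1) (L := L) (E := θ * L) (ℓ := ℓ) (Cw := Cw) (Cp := Cp)
    (r := Real.exp (-U ^ 2)) (Bh := (Q : ℝ) ^ 3) (by linarith only [l1, hLT])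
    (by linarith only [hU1]) hU2 one_pos hL0 hℓ0 hCw (Real.exp_pos _).le hw hwc hGW.cont hGW.symm
    (hPc T W hGW d χ) (hP0 T W hGW d χ) hW0 hFT hwb (fun z hz h1 h2 => hin z U hz hU1 h1 h2)
    (fun z hz h => hout z U hz hU1 h) (fun v hv => by rw [mul_one]; exact htail v U hv hU1) ha
    ⟨hb.1, by linarith only [hb.2]⟩ (by
      rintro t (rfl | rfl) σ hσ
      · exact ⟨(hLa σ hσ).1, (hLa σ hσ).2.trans (hBh T hT1 (by linarith only [hT1]))⟩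
      · exact ⟨(hLb σ hσ).1, (hLb σ hσ).2.trans
          (hBh _ (by linarith only [hT1]) (by linarith only [hT1]))⟩)
    (fun t ht => efun χ (by linarith only [l1, hLT]) ht hd3 hd4 hlogT hll hg) Z hZ hNall hθb
  set P : ℂ → Prop := fun z => T + 1 + U + U ≤ z.re ∧ z.re ≤ 2 * T - 1 - U - U with hP
  have hZtZ : Zt ⊆ Z := hZt.trans (Finset.filter_subset _ _)
  have hNt : ∑ z ∈ Zt, (nn χ z : ℝ) ≤ 16 * (3 / 2 * C) * U * L :=
    (Finset.sum_le_sum_of_subset_of_nonneg hZt (fun _ _ _ => by positivity)).trans hNout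
  have hC' : 0 ≤ 3 / 2 * C := by positivity
  have hME0 : 0 ≤ θ * L * Cw + Cp := by positivity
  have hTM : (6 * (θ * L * Cw + Cp) + 14) * T ≤ ε * L * T := by
    refine mul_le_mul_of_nonneg_right ?_ hT0.le
    rw [div_le_iff₀ hε] at l6
    linarith only [l6, mul_le_mul_of_nonneg_right hθ2 hL0]
  have hwZt : ∀ z ∈ Zt, ‖w z‖ ≤ Cw := fun z hz => by
    obtain ⟨h1, -, h3⟩ := (hZ z).1 (hZtZ hz)
    have := abs_im_lt_of_Xi_eq_zero χ hχ (hT0.trans h1) h3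
    exact hwb z (by linarith only [this])
  refine ⟨Z.filter P, Zt, Finset.filter_subset _ _, hZtZ, ?_, hZtc, ?_, ?_, ?_, ?_⟩
  · intro z hz
    simp only [Finset.mem_filter, hZ, hP, conj_re] at hz ⊢
    exact ⟨⟨hz.1.1, hz.1.2.1, (Xi_conj_eq_zero_iff χ hχ (hT0.trans hz.1.1)).2 hz.1.2.2⟩, hz.2⟩
  · refine hI.trans (add_le_add le_rfl (err_le hG0 hθ hθ1 hL1 hT1 hℓ1 hε hθ3 ?_))
    rw [div_le_iff₀ hε] at l5
    linarith only [l5]
  · exact arith_c hU1 hL0 hC' hCw hT1 hME0 hNt (norm_nu_zero_le χ (Z.filter P) Zt hwZt) hUL hTM hII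
  · rw [← Finset.sum_filter_add_sum_filter_not Z P]
    exact add_le_add le_rfl (hNout.trans (arith_d hU1 hL0 hC' hCw hUL))
  · refine arith_e hU1 hL0 hC' hCw hT1 hME0 hNt ?_ hUL hTM
    rw [Finset.sum_mul]
    refine Finset.sum_le_sum fun z hz => ?_
    obtain ⟨h1, -, h3⟩ := (hZ z).1 (hZtZ hz)
    have h4 : (1 : ℝ) ≤ nn χ z := by exact_mod_cast one_le_nn χ (hT0.trans h1) h3
    have h5 := hwZt z hz
    rw [norm_mul, Complex.norm_natCast]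
    have : (nn χ z : ℝ) * ‖w z‖ ≤ nn χ z * Cw := mul_le_mul_of_nonneg_left h5 (by positivity)
    linarith only [this, h4]

end Pool.Agent.MP_f259ea_nt.Q
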