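import Pool.Agent.MP_f259ea_nt.Q_Defs
import Pool.Agent.MP_f259ea_nt.B_Main
import Pool.Agent.MP_f259ea_nt.C_Model

/-!
The finite inequality for simple real points.
-/

set_option autoImplicit false

open Finset Complex Matrix
open scoped Real ComplexConjugate ComplexOrder

namespace Pool.Agent.MP_f259ea_nt.Q

namespace Simple

open B

variable {n : Type*} [Fintype n] [DecidableEq n]

lemma abs0 {r : Type*} [Fintype r] [DecidableEq r] (V : Matrix n r ℂ) {Q : Matrix n n ℂ}
    (hQ : Q.IsHermitian) {J : Type*} [Fintype J] (u : J → n → ℂ)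
    (hu : (∑ j, vecMulVec (u j) (star (u j)) - Q).PosSemidef) :
    2 * tr (V * Vᴴ) - Fintype.card r + 4 * tr Q - 4 * Fintype.card J
      ≤ ip (V * Vᴴ + Q) (V * Vᴴ + Q) := by
  have h := main_abs (C := dm fun (_ : Fin 0) (_ : n) => (0 : ℝ)) (ν := 0) (σ := 2) (τ := 2)
    (dm_herm _) (dm_le _ fun _ => by simp) (by norm_num) (by norm_num) (by norm_num)
    (by norm_num) V (Vᴴ * V - 1) ((isHermitian_conjTranspose_mul_self V).sub isHermitian_one)
    (by
      convert (PosSemidef.one : (1 : Matrix r r ℂ).PosSemidef) using 1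
      rw [Complex.ofReal_ofNat, two_smul]
      abel) PosSemidef.zero hQ u hu
  have e0 : ∀ X : Matrix n n ℂ, Bf (dm fun (_ : Fin 0) (_ : n) => (0 : ℝ)) X X = ip X X :=
    fun X => by simp [Bf, Nm, ip]
  have e1 : ip (V * Vᴴ) (V * Vᴴ) = ip (Vᴴ * V) (Vᴴ * V) := by
    unfold ip
    rw [Matrix.mul_assoc, trace_mul_comm]
    simp only [Matrix.mul_assoc]
  have e2 : tr (Vᴴ * V) = tr (V * Vᴴ) := by
    unfold tr
    rw [trace_mul_comm]
  have e3 : tr (1 : Matrix r r ℂ) = Fintype.card r := by simp [tr]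
  rw [e0, e0, add_zero, ip_sub_left, ip_sub_right, ip_sub_right, ip_comm 1 (Vᴴ * V), ip_one_right,
    ip_one_right, e1, e2, e3] at h
  linarith

omit [DecidableEq n] in
lemma tr_sum {ι : Type*} (s : Finset ι) (F : ι → Matrix n n ℂ) :
    tr (∑ j ∈ s, F j) = ∑ j ∈ s, tr (F j) := by
  unfold tr
  rw [trace_sum, Complex.re_sum]

end Simple

open B Simple in
theorem stmtSMain : StmtSMain := by
  classical
  intro d hd hJ
  refine ⟨4, fun Z₀ Z₁ m c hZ₀ hZ₁ => ?_⟩
  set Z := Z₀ ∪ Z₁ with hZ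
  have hZc : ∀ x ∈ Z, conj x ∈ Z := by
    intro x hx
    rcases mem_union.mp hx with h' | h'
    · exact mem_union_left _ (hZ₀ x h').1
    · exact mem_union_right _ (hZ₁ x h').1
  obtain ⟨v, hgram, hint⟩ := BData.model_gen hd Z hZc
  have hone : ∀ x ∈ Z, star (v (conj x)) ⬝ᵥ v x = 1 := by
    intro x hx
    have h := hgram x hx _ (hZc x hx)
    rw [Complex.conj_conj, sub_self, ft_zero, hd.ψ_sum, Complex.ofReal_one] at h
    rw [← h, dotProduct]
    exact Finset.sum_congr rfl fun α _ => by simp [mul_comm]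
  have hip : ∀ c' : ℂ → ℂ, (op v Z c').IsHermitian → ip (op v Z c') (op v Z c')
      = ∫ a in (-1 : ℝ)..1, d.K a * ‖mu Z c' a‖ ^ 2 := by
    intro c' hh
    rw [ip_herm hh, hint c']
    refine Finset.sum_congr rfl fun α _ => Finset.sum_congr rfl fun β _ => ?_
    rw [Finset.sum_eq_zero fun (s : Fin d.J) _ => absurd s.2 (by omega), op_apply, sub_zero,
      one_mul]
  have hZ0 : Z₀ ⊆ Z := subset_union_left
  have hZ1 : Z₁ ⊆ Z := subset_union_right
  have htrp : ∀ z ∈ Z, ∀ c' : ℂ,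
      tr (c' • rk (v z) (v (conj z)) + conj c' • rk (v (conj z)) (v z)) = 2 * c'.re := by
    intro z hz c'
    have h2 := hone _ (hZc z hz)
    rw [Complex.conj_conj] at h2
    unfold tr
    rw [trace_add, trace_smul, trace_smul, trace_rk, trace_rk, hone z hz, h2]
    simp; ring
  set R := Z₀.filter (fun z => z.im = 0) with hRdef
  set Zp := Z₀.filter (fun z => 0 < z.im) with hZp
  set R1 := Z₀.filter (fun z => z.im = 0 ∧ m z = 1) with hR1
  set R2 := R.filter (fun z => ¬ m z = 1) with hR2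
  have hR1' : R1 = R.filter fun z => m z = 1 := by rw [hR1, hRdef, filter_filter]
  have hv1 : ∀ z ∈ R, star (v z) ⬝ᵥ v z = 1 := by
    intro z hz
    have h := hone z (hZ0 (mem_filter.mp hz).1)
    rwa [Complex.conj_eq_iff_im.mpr (mem_filter.mp hz).2] at h
  have hs1 : R1 ⊆ R := hR1' ▸ filter_subset _ _
  have hm1 : ∀ z ∈ R1, m z = 1 := fun z hz => (mem_filter.mp hz).2.2
  set V : Matrix (Fin d.n × Z) R1 ℂ := Matrix.of fun α z => v z α with hV
  have hVV : V * Vᴴ = opR v R1 m := by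
    ext α β
    rw [mul_apply, opR, Matrix.sum_apply, ← Finset.sum_coe_sort R1]
    refine Finset.sum_congr rfl fun z _ => ?_
    simp [hV, rk_apply, hm1 z z.2]
  set T : ℂ → ℂ → Matrix (Fin d.n × Z) (Fin d.n × Z) ℂ :=
    fun c' z => c' • rk (v z) (v (conj z)) + conj c' • rk (v (conj z)) (v z) with hT
  set y : ℂ → ℂ → Fin d.n × Z → ℂ := fun c' z => c' • v z + v (conj z) with hy
  set w : ℂ → Fin d.n × Z → ℂ := fun z => ((√(m z) : ℝ) : ℂ) • v z with hw
  have hww : ∑ z ∈ R2, rk (w z) (w z) = opR v R2 m := by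
    refine Finset.sum_congr rfl fun z _ => ?_
    ext α β
    conv_rhs => rw [← Real.mul_self_sqrt (Nat.cast_nonneg (m z))]
    simp only [hw, rk_apply, Pi.smul_apply, Matrix.smul_apply, smul_eq_mul, map_mul,
      Complex.conj_ofReal, Complex.ofReal_mul]
    ring
  set Q := opR v R2 m + (∑ z ∈ Zp, T (m z) z + ∑ z ∈ Z₁, T (c z / 2) z) with hQ
  have hQh : Q.IsHermitian := by
    refine (hww ▸ posSemidef_sum _ fun j _ => rk_psd (w j)).isHermitian.add
      (IsHermitian.add ?_ ?_)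
    · unfold Matrix.IsHermitian
      rw [conjTranspose_sum]
      exact Finset.sum_congr rfl fun z _ => pair_herm _ _ _
    · unfold Matrix.IsHermitian
      rw [conjTranspose_sum]
      exact Finset.sum_congr rfl fun z _ => pair_herm _ _ _
  let uu : R2 ⊕ (Zp ⊕ Z₁) → Fin d.n × Z → ℂ :=
    Sum.elim (fun z => w z) (Sum.elim (fun z => y (m z) z) (fun z => y (c z / 2) z))
  have hu : (∑ j, vecMulVec (uu j) (star (uu j)) - Q).PosSemidef := by
    have h1 : (∑ z ∈ Zp, (rk (y (m z) z) (y (m z) z) - T (m z) z)).PosSemidef :=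
      posSemidef_sum _ fun z _ => pair_le _ _ _
    have h2 : (∑ z ∈ Z₁, (rk (y (c z / 2) z) (y (c z / 2) z) - T (c z / 2) z)).PosSemidef :=
      posSemidef_sum _ fun z _ => pair_le _ _ _
    convert h1.add h2 using 1
    rw [Fintype.sum_sum_type, Fintype.sum_sum_type, Finset.sum_sub_distrib,
      Finset.sum_sub_distrib, hQ, ← hww]
    simp only [uu, Sum.elim_inl, Sum.elim_inr]
    rw [Finset.sum_coe_sort Zp (fun z => vecMulVec (y (m z) z) (star (y (m z) z))),
      Finset.sum_coe_sort Z₁ (fun z => vecMulVec (y (c z / 2) z) (star (y (c z / 2) z))),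
      Finset.sum_coe_sort R2 (fun z => vecMulVec (w z) (star (w z)))]
    unfold rk
    abel
  have hmain := abs0 V hQh uu hu
  have hop0 : op v Z₀ (fun z => (m z : ℂ))
      = opR v R1 m + opR v R2 m + ∑ z ∈ Zp, T (m z) z := by
    have e : opR v R1 m + opR v R2 m = opR v R m := by
      unfold opR
      rw [hR1', hR2, Finset.sum_filter_add_sum_filter_not]
    rw [e, ← op_real v (fun z hz => (mem_filter.mp hz).2) m]
    unfold op
    rw [sum_split (fun z hz => (hZ₀ z hz).1)]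
    congr 1
    refine Finset.sum_congr rfl fun z hz => ?_
    simp only [hT]
    rw [(hZ₀ z (mem_filter.mp hz).1).2.1, map_natCast, Complex.conj_conj]
  have hop1 : op v Z₁ c = ∑ z ∈ Z₁, T (c z / 2) z := by
    have e := sum_conj (fun z hz => (hZ₁ z hz).1) (fun z => (c z / 2) • rk (v z) (v (conj z)))
    simp only [hT]
    rw [Finset.sum_add_distrib]
    have e2 : ∑ z ∈ Z₁, conj (c z / 2) • rk (v (conj z)) (v z)
        = ∑ z ∈ Z₁, (c z / 2) • rk (v z) (v (conj z)) := by
      rw [← e]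
      refine Finset.sum_congr rfl fun z hz => ?_
      rw [(hZ₁ z hz).2, Complex.conj_conj, map_div₀, map_ofNat]
    rw [e2, ← Finset.sum_add_distrib]
    refine Finset.sum_congr rfl fun z _ => ?_
    rw [← add_smul, add_halves]
  set ct : ℂ → ℂ := fun z => (if z ∈ Z₀ then (m z : ℂ) else 0) + (if z ∈ Z₁ then c z else 0)
    with hct
  have hG : V * Vᴴ + Q = op v Z ct := by
    have : op v Z ct = op v Z₀ (fun z => (m z : ℂ)) + op v Z₁ c := by
      rw [← op_indicator v hZ0, ← op_indicator v hZ1]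
      unfold op
      simp only [hct, add_smul, Finset.sum_add_distrib]
    rw [this, hop0, hop1, hVV, hQ]; abel
  have hGh : (op v Z ct).IsHermitian := by
    rw [← hG]
    exact (posSemidef_self_mul_conjTranspose V).isHermitian.add hQh
  have hmu : ∀ a, mu Z ct a = mu Z₀ (fun x => (m x : ℂ)) a + mu Z₁ c a := by
    intro a
    rw [← mu_indicator hZ0, ← mu_indicator hZ1]
    unfold mu
    simp only [hct, add_mul, Finset.sum_add_distrib]
  rw [hG, hip ct hGh] at hmain
  simp only [hmu] at hmain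
  refine le_trans ?_ hmain
  have htrQ : tr Q
      = ∑ z ∈ R2, (m z : ℝ) + (∑ z ∈ Zp, 2 * (m z : ℝ) + ∑ z ∈ Z₁, (c z).re) := by
    rw [hQ, tr_add, tr_add, tr_sum, tr_sum, tr_opR v fun z hz => hv1 z (mem_filter.mp hz).1]
    congr 2
    · refine Finset.sum_congr rfl fun z hz => ?_
      rw [hT]; simp only []
      rw [htrp z (hZ0 (mem_filter.mp hz).1), Complex.natCast_re]
    · refine Finset.sum_congr rfl fun z hz => ?_
      rw [hT]; simp only []
      rw [htrp z (hZ1 hz)]; simp; ring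
  have hcard : (Fintype.card (R2 ⊕ (Zp ⊕ Z₁)) : ℝ) = R2.card + (Zp.card + Z₁.card) := by
    simp only [Fintype.card_sum, Fintype.card_coe, Nat.cast_add]
  have s0 : ∑ z ∈ R1, (m z : ℝ) = R1.card := by
    rw [Finset.sum_congr rfl fun x hx => by rw [hm1 x hx]]; simp
  have s1 : ∑ x ∈ Z₀, (m x : ℝ)
      = R1.card + ∑ z ∈ R2, (m z : ℝ) + 2 * ∑ z ∈ Zp, (m z : ℝ) := by
    rw [sum_split (fun z hz => (hZ₀ z hz).1), Finset.mul_sum, ← s0, hR1', hR2,
      Finset.sum_filter_add_sum_filter_not]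
    congr 1
    refine Finset.sum_congr rfl fun z hz => ?_
    rw [(hZ₀ z (mem_filter.mp hz).1).2.1]; ring
  have s2 : (R2.card : ℝ) * 2 ≤ ∑ z ∈ R2, (m z : ℝ) := by
    rw [← nsmul_eq_mul]
    refine Finset.card_nsmul_le_sum _ _ _ fun z hz => ?_
    have a1 := (hZ₀ z (mem_filter.mp (mem_filter.mp hz).1).1).2.2
    have a2 := (mem_filter.mp hz).2
    exact_mod_cast (by omega : 2 ≤ m z)
  have s4 : (Zp.card : ℝ) ≤ ∑ z ∈ Zp, (m z : ℝ) := by
    rw [Finset.card_eq_sum_ones]; push_cast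
    exact Finset.sum_le_sum fun z hz => by
      exact_mod_cast (hZ₀ z (mem_filter.mp hz).1).2.2
  have s5 : -∑ x ∈ Z₁, ‖c x‖ ≤ ∑ z ∈ Z₁, (c z).re := by
    rw [← Finset.sum_neg_distrib]
    exact Finset.sum_le_sum fun z _ => (abs_le.mp (Complex.abs_re_le_norm _)).1
  have s6 : ∑ x ∈ Z₁, (1 + ‖c x‖) = Z₁.card + ∑ x ∈ Z₁, ‖c x‖ := by
    rw [Finset.sum_add_distrib]; simp
  rw [htrQ, hcard, hVV, tr_opR v fun z hz => hv1 z (hs1 hz), s0, Fintype.card_coe,
    ← Finset.mul_sum, s1, s6]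
  linarith

end Pool.Agent.MP_f259ea_nt.Q
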