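import Pool.Agent.MP_f259ea_nt.Q_Defs

set_option autoImplicit false

open Complex MeasureTheory Finset
open scoped Real ArithmeticFunction.vonMangoldt

namespace Pool.Agent.MP_f259ea_nt.Q

namespace Tail

lemma T_nonneg {T : ℝ} {W : ℝ → ℂ} (h : GW T W) : 0 ≤ T :=
  (integral_nonneg fun _ => sq_nonneg _).trans h.sq_le

lemma coef_le {d : ℕ} (χ : DirichletCharacter ℂ d) (n : ℕ) : ‖coef χ n‖ ≤ 2 := by
  rcases Nat.eq_zero_or_pos n with rfl | hn
  · simp [coef_zero]
  have h0 : 0 < √(n : ℝ) := Real.sqrt_pos.2 (by exact_mod_cast hn)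
  have h1 : Λ n ≤ 2 * √(n : ℝ) := by
    have h2 := Real.log_le_sub_one_of_pos h0
    rw [Real.log_sqrt (by positivity)] at h2
    linarith [ArithmeticFunction.vonMangoldt_le_log (n := n)]
  rw [coef, norm_div, norm_mul, Complex.norm_real, Complex.norm_real, Real.norm_of_nonneg h0.le,
    Real.norm_of_nonneg ArithmeticFunction.vonMangoldt_nonneg, div_le_iff₀ h0]
  exact (mul_le_of_le_one_left ArithmeticFunction.vonMangoldt_nonneg (χ.norm_le_one _)).trans h1

lemma term_le {T : ℝ} {W : ℝ → ℂ} (h : GW T W) {d : ℕ} (χ : DirichletCharacter ℂ d) (n : ℕ)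
    (u A : ℝ) (hA : 0 < n → 2 * Real.log n - A ≤ (Real.log n - 2 * π * u) ^ 2 / (4 * π)) :
    ‖coef χ n * W (u - un n)‖ ≤ 2 * T * Real.exp A * (1 / (n : ℝ) ^ 2) := by
  rcases Nat.eq_zero_or_pos n with rfl | hn
  · simp [coef_zero]
  have hT := T_nonneg h
  have hn' : (0 : ℝ) < n := by exact_mod_cast hn
  have e : π * (u - un n) ^ 2 = (Real.log n - 2 * π * u) ^ 2 / (4 * π) := by
    unfold un; field_simp; ring
  have h1 : Real.exp (-(π * (u - un n) ^ 2)) ≤ Real.exp A * (1 / (n : ℝ) ^ 2) := by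
    have : (1 / (n : ℝ) ^ 2) = Real.exp (-(2 * Real.log n)) := by
      rw [Real.exp_neg, show 2 * Real.log n = Real.log ((n : ℝ) ^ 2) by simp,
        Real.exp_log (by positivity), one_div]
    rw [this, ← Real.exp_add, e]
    exact Real.exp_le_exp.2 (by linarith [hA hn])
  rw [norm_mul]
  calc _ ≤ 2 * (T * (Real.exp A * (1 / (n : ℝ) ^ 2))) :=
        mul_le_mul (coef_le χ n) ((h.gauss _).trans (by gcongr)) (norm_nonneg _) (by norm_num)
    _ = _ := by ring

lemma term_le' {T : ℝ} {W : ℝ → ℂ} (h : GW T W) {d : ℕ} (χ : DirichletCharacter ℂ d) (n : ℕ)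
    {u R : ℝ} (hu : u ≤ R) :
    ‖coef χ n * W (u - un n)‖ ≤ 2 * T * Real.exp (4 * π + 4 * π * R) * (1 / (n : ℝ) ^ 2) := by
  refine term_le h χ n u _ fun _ => ?_
  have hpi := Real.pi_pos
  rw [le_div_iff₀ (by positivity)]
  nlinarith [sq_nonneg (Real.log n - 2 * π * u - 4 * π), mul_le_mul_of_nonneg_left hu
    (show 0 ≤ 16 * π ^ 2 by positivity)]

lemma zeta_le : π ^ 2 / 6 ≤ 2 := by nlinarith [Real.pi_lt_d2, Real.pi_pos]

end Tail

open Tail

theorem stmtTail : StmtTail := by
  have hpi := Real.pi_pos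
  refine ⟨fun T W h d χ => ?_, ⟨4 * Real.exp (4 * π + 4 * π * 0), by positivity,
    fun T W h d χ => ?_⟩, fun δ hδ hδ2 => ?_⟩
  · refine continuous_iff_continuousAt.2 fun u => ?_
    have : ContinuousOn (Psum χ W) (Set.Iic (u + 1)) :=
      continuousOn_tsum (fun n => (continuous_const.mul
        (h.cont.comp (continuous_id.sub continuous_const))).continuousOn)
        (hasSum_zeta_two.summable.mul_left (2 * T * Real.exp (4 * π + 4 * π * (u + 1))))
        fun n x hx => term_le' h χ n hx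
    exact this.continuousAt (Iic_mem_nhds (by linarith))
  · have hT := T_nonneg h
    refine (tsum_of_norm_bounded (hasSum_zeta_two.mul_left (2 * T * Real.exp (4 * π + 4 * π * 0)))
      fun n => term_le' h χ n le_rfl).trans ?_
    calc _ ≤ 2 * T * Real.exp (4 * π + 4 * π * 0) * 2 := by gcongr; exact zeta_le
      _ = _ := by ring
  · have hev : ∀ᶠ Q : ℕ in Filter.atTop, 4 * π * (2 + 6 / δ) / δ ≤ Real.log Q ∧ 4 ≤ Q :=
      ((Real.tendsto_log_atTop.comp tendsto_natCast_atTop_atTop).eventually_ge_atTop _).and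
        (Filter.eventually_ge_atTop 4)
    obtain ⟨Q₀, hQ₀⟩ := Filter.eventually_atTop.1 hev
    refine ⟨Q₀, fun Q hQ T W hTQ h d χ u hu => ?_⟩
    obtain ⟨hL, hQ4⟩ := hQ₀ Q hQ
    have hQ4' : (4 : ℝ) ≤ Q := by exact_mod_cast hQ4
    have hT := T_nonneg h
    have hL0 : 0 ≤ Real.log Q := Real.log_nonneg (by linarith)
    have hsum : Summable fun n : ℕ => coef χ n * W (u - un n) :=
      Summable.of_norm_bounded (hasSum_zeta_two.summable.mul_left _) fun n => term_le' h χ n le_rfl
    have e : ∀ n : ℕ, av W u n * χ (n : ZMod d) = coef χ n * W (u - un n) := fun n => by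
      simp only [av, coef]; push_cast; ring
    simp only [e]
    rw [Psum, ← hsum.sum_add_tsum_compl (s := Icc 1 (NN δ Q)), add_sub_cancel_left,
      _root_.tsum_subtype _ fun n : ℕ => coef χ n * W (u - un n)]
    refine (tsum_of_norm_bounded
      (hasSum_zeta_two.mul_left (2 * T * Real.exp (-(2 * Real.log Q)))) fun n => ?_).trans ?_
    · by_cases hn : n ∈ ((Icc 1 (NN δ Q) : Finset ℕ) : Set ℕ)ᶜ
      · rw [Set.indicator_of_mem hn]
        refine term_le h χ n u _ fun hn0 => ?_
        have h1 : NN δ Q < n := by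
          simp only [Set.mem_compl_iff, Finset.mem_coe, Finset.mem_Icc, not_and, not_le] at hn
          exact hn hn0
        have h2 : (Q : ℝ) ^ (2 - δ) < n := (Nat.floor_lt (by positivity)).1 h1
        have h3 : (2 - δ) * Real.log Q ≤ Real.log n := by
          rw [← Real.log_rpow (by linarith)]
          exact Real.log_le_log (by positivity) h2.le
        have h4 : 2 * π * u ≤ (2 - 2 * δ) * Real.log Q := by
          rw [ell, le_div_iff₀ (by positivity)] at hu; linarith
        obtain ⟨x, hx⟩ : ∃ x, x = Real.log n - 2 * π * u := ⟨_, rfl⟩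
        have h5 : δ * Real.log Q ≤ x := by linarith
        have h6 : 4 * π * (2 + 6 / δ) ≤ x := by
          rw [div_le_iff₀ hδ] at hL; linarith
        have hx0 : 0 ≤ x := le_trans (by positivity) h5
        have h7 : 6 * Real.log Q ≤ 6 / δ * x := by
          rw [div_mul_eq_mul_div, le_div_iff₀ hδ]; linarith
        have h8 : (2 + 6 / δ) * x ≤ x ^ 2 / (4 * π) := by
          rw [le_div_iff₀ (by positivity)]; nlinarith
        rw [← hx]
        nlinarith [mul_nonneg hδ.le hL0]
      · rw [Set.indicator_of_notMem hn, norm_zero]; positivity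
    · have : Real.exp (-(2 * Real.log Q)) = 1 / (Q : ℝ) ^ 2 := by
        rw [Real.exp_neg, show 2 * Real.log Q = Real.log ((Q : ℝ) ^ 2) by simp,
          Real.exp_log (by positivity), one_div]
      rw [this]
      calc _ ≤ 2 * Q * (1 / (Q : ℝ) ^ 2) * 2 := by gcongr; exact zeta_le
        _ = 4 / Q := by field_simp; ring
        _ ≤ 1 := by rw [div_le_one (by linarith)]; exact hQ4'

theorem stmtShift : StmtShift := by
  intro f hf hc ε hε
  have hpi := Real.pi_pos
  obtain ⟨M, hM⟩ := hf.bounded_above_of_compact_support hc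
  have hM0 : 0 ≤ M := (norm_nonneg _).trans (hM 0)
  obtain ⟨η, hη, hu⟩ := Metric.uniformContinuous_iff.1
    (hc.uniformContinuous_of_continuous hf) (ε / 2) (by positivity)
  refine ⟨max (2 / η) (8 * π * M / ε), fun T ℓ c W hT hℓ h => ?_⟩
  have hℓ1 : 2 / η ≤ ℓ := (le_max_left _ _).trans hℓ
  have hℓ0 : 0 < ℓ := lt_of_lt_of_le (by positivity) hℓ1
  have hT1 : 8 * π * M ≤ T * ε := (div_le_iff₀ hε).1 ((le_max_right _ _).trans hT)
  have hi : ∀ b : ℝ, Integrable fun v => f ((v + b) / ℓ) * ‖W v‖ ^ 2 := fun b =>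
    h.sq_int.bdd_mul (hf.comp (by fun_prop)).aestronglyMeasurable
      (Filter.Eventually.of_forall fun v => hM _)
  constructor
  · simpa using (hi c).comp_sub_right c
  · have e1 : ∫ u, f (u / ℓ) * ‖W (u - c)‖ ^ 2 = ∫ v, f ((v + c) / ℓ) * ‖W v‖ ^ 2 := by
      rw [← integral_add_right_eq_self _ c]; simp
    rw [e1, ← integral_const_mul, ← integral_sub (hi c) (h.sq_int.const_mul _), ← Real.norm_eq_abs]
    have hg : Integrable fun v : ℝ => ε / 2 * ‖W v‖ ^ 2 + 4 * M * (1 + v ^ 2)⁻¹ :=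
      (h.sq_int.const_mul _).add (integrable_inv_one_add_sq.const_mul _)
    refine (norm_integral_le_of_norm_le hg (Filter.Eventually.of_forall fun v => ?_)).trans ?_
    · rw [← sub_mul, norm_mul, Real.norm_of_nonneg (sq_nonneg ‖W v‖)]
      by_cases hv : |v| ≤ 1
      · have h1 : dist ((v + c) / ℓ) (c / ℓ) < η := by
          rw [Real.dist_eq, ← sub_div, add_sub_cancel_right, abs_div, abs_of_pos hℓ0,
            div_lt_iff₀ hℓ0]
          rw [div_le_iff₀ hη] at hℓ1; linarith
        have h2 := hu h1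
        rw [dist_eq_norm] at h2
        have : 0 ≤ 4 * M * (1 + v ^ 2)⁻¹ := by positivity
        nlinarith [sq_nonneg ‖W v‖]
      · have h1 : ‖f ((v + c) / ℓ) - f (c / ℓ)‖ ≤ 2 * M :=
          (norm_sub_le _ _).trans (by linarith [hM ((v + c) / ℓ), hM (c / ℓ)])
        have h2 : ‖W v‖ ^ 2 ≤ 2 * (1 + v ^ 2)⁻¹ := by
          have h3 := h.decay v
          have h4 : v ^ 2 * ‖W v‖ ^ 2 ≤ 1 := by
            rw [← sq_abs v, ← mul_pow]; exact pow_le_one₀ (by positivity) h3
          have h5 : 1 ≤ v ^ 2 := by rw [← sq_abs v]; exact one_le_pow₀ (not_le.1 hv).le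
          rw [← div_eq_mul_inv, le_div_iff₀ (by positivity)]
          nlinarith [sq_nonneg ‖W v‖]
        have h6 := mul_le_mul h1 h2 (sq_nonneg _) (by positivity)
        have : 0 ≤ ε / 2 * ‖W v‖ ^ 2 := by positivity
        linarith
    · rw [integral_add (h.sq_int.const_mul _) (integrable_inv_one_add_sq.const_mul _),
        integral_const_mul, integral_const_mul, integral_univ_inv_one_add_sq]
      nlinarith [h.sq_le]

end Pool.Agent.MP_f259ea_nt.Q
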