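import Pool.Agent.MP_f259ea_nt.Q_Defs

set_option autoImplicit false

open Finset

namespace Pool.Agent.MP_f259ea_nt.Q

namespace Tri

lemma cntdiv {k : ℕ} (hk : 1 ≤ k) {u v : ℤ} (r : ℤ) (h : u ≤ v) :
    (((Ioc u v).filter fun x => (k : ℤ) ∣ x + r).card : ℤ) = (v + r) / k - (u + r) / k := by
  have hk' : (0 : ℤ) < k := by exact_mod_cast hk
  have h1 := Int.Ioc_filter_modEq_card u v hk' (-r)
  have h2 : ((Ioc u v).filter fun x => (k : ℤ) ∣ x + r) =
      (Ioc u v).filter fun x => x ≡ -r [ZMOD k] := by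
    refine filter_congr fun x _ => ?_
    rw [Int.modEq_comm, Int.modEq_iff_dvd, sub_neg_eq_add]
  have e : ∀ x : ℤ, ⌊((x : ℚ) - ((-r : ℤ) : ℚ)) / ((k : ℤ) : ℚ)⌋ = (x + r) / k := by
    intro x
    rw [← Rat.floor_intCast_div_natCast]
    congr 1
    push_cast
    ring
  rw [h2, h1, e, e, max_eq_left]
  exact sub_nonneg.2 (Int.ediv_le_ediv hk' (by omega))

lemma neg_div {k : ℕ} (hk : 1 ≤ k) (y : ℤ) : -y / k + 1 = -((y - 1) / k) := by
  have hk' : (0 : ℤ) < k := by exact_mod_cast hk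
  have h1 := Int.mul_ediv_add_emod (y - 1) k
  have h2 := Int.emod_nonneg (y - 1) hk'.ne'
  have h3 := Int.emod_lt_of_pos (y - 1) hk'
  have := ((Int.ediv_emod_unique (a := -y) (r := k - 1 - (y - 1) % k) (q := -((y - 1) / k) - 1)
    hk').2 ⟨by linarith, by omega, by omega⟩).1
  omega

lemma div_bounds {k : ℕ} (hk : 1 ≤ k) (x : ℤ) :
    (x : ℝ) / k - 1 ≤ (x / k : ℤ) ∧ ((x / k : ℤ) : ℝ) ≤ x / k := by
  have : (x / k : ℤ) = ⌊(x : ℝ) / k⌋ := by rw [Int.floor_div_natCast, Int.floor_intCast]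
  rw [this]
  exact ⟨(Int.sub_one_lt_floor _).le, Int.floor_le _⟩

lemma sum_id {M : ℤ} (hM : 0 ≤ M) : ∑ i ∈ Icc 1 M, (i : ℝ) = M * (M + 1) / 2 := by
  induction M, hM using Int.leInduction with
  | base => simp
  | succ M hM ih =>
    rw [← insert_Icc_right_eq_Icc_add_one (by omega), sum_insert (by simp), ih]
    push_cast
    ring

/-- The correction term. -/
noncomputable def g (y : ℝ) : ℝ := Int.fract y * (1 - Int.fract y)

lemma g_nonneg (y : ℝ) : 0 ≤ g y :=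
  mul_nonneg (Int.fract_nonneg y) (by linarith [Int.fract_lt_one y])

lemma g_le {y : ℝ} (hy : 0 ≤ y) : g y ≤ y := by
  have h1 := Int.fract_nonneg y
  have h2 : Int.fract y ≤ y := by
    have : (0 : ℝ) ≤ ⌊y⌋ := by exact_mod_cast Int.floor_nonneg.2 hy
    linarith [Int.floor_add_fract y]
  unfold g
  nlinarith

lemma g_lip {x y : ℝ} (h : x ≤ y) : |g y - g x| ≤ y - x := by
  have a1 := Int.fract_nonneg x
  have a2 := Int.fract_nonneg y
  have a3 := Int.fract_lt_one x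
  have a4 := Int.fract_lt_one y
  have a5 := Int.floor_add_fract x
  have a6 := Int.floor_add_fract y
  unfold g
  rcases (Int.floor_mono h).eq_or_lt with h1 | h1
  · have : (⌊x⌋ : ℝ) = ⌊y⌋ := by exact_mod_cast h1
    rw [abs_le]
    constructor <;> nlinarith
  · have : (⌊x⌋ : ℝ) + 1 ≤ ⌊y⌋ := by exact_mod_cast h1
    rw [abs_le]
    constructor <;> nlinarith

lemma wedge {k : ℕ} (hk : 1 ≤ k) {a : ℤ} (ha : IsCoprime a (k : ℤ)) {c X : ℝ} (hc : 0 < c)
    (hX : 0 < X) (H lo : ℤ → ℤ) (hH : ∀ e, 1 ≤ e → 0 ≤ H e) (h1 : ∀ i e, i ≤ H e ↔ lo i ≤ e)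
    (h2 : ∀ i, i / c ≤ lo i ∧ lo i ≤ i / c + 1) :
    |∑ e ∈ Icc 1 ⌊X⌋, (((a * e + H e) / k - a * e / k : ℤ) : ℝ) -
      (c * X ^ 2 / 2 - X / 2 + g (c * X) / (2 * c)) / k| ≤ 2 * (c * X) := by
  classical
  have hkR : (1 : ℝ) ≤ k := by exact_mod_cast hk
  set n := ⌊X⌋ with hn
  set M := ⌊c * X⌋ with hM
  have hM0 : 0 ≤ M := Int.floor_nonneg.2 (by positivity)
  have hn1 : (n : ℝ) ≤ X := Int.floor_le X
  have hn2 : X < n + 1 := Int.lt_floor_add_one X
  obtain ⟨u, v, huv⟩ := ha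
  have hdv : ∀ i e : ℤ, (k : ℤ) ∣ i + a * e ↔ (k : ℤ) ∣ e + u * i := by
    intro i e
    constructor
    · intro h
      have : e + u * i = u * (i + a * e) + k * (v * e) := by linear_combination (-e) * huv
      rw [this]
      exact (h.mul_left u).add (dvd_mul_right _ _)
    · intro h
      have : i + a * e = a * (e + u * i) + k * (v * i) := by linear_combination (-i) * huv
      rw [this]
      exact (h.mul_left a).add (dvd_mul_right _ _)
  have e1 : ∀ e ∈ Icc 1 n, (((a * e + H e) / k - a * e / k : ℤ) : ℝ) =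
      ∑ i ∈ Icc 1 M, if lo i ≤ e ∧ (k : ℤ) ∣ e + u * i then (1 : ℝ) else 0 := by
    intro e he
    obtain ⟨he1, he2⟩ := mem_Icc.1 he
    have := cntdiv hk (a * e) (hH e he1)
    rw [zero_add, add_comm] at this
    rw [← this, sum_boole, Int.cast_natCast]
    congr 2
    ext i
    simp only [mem_filter, mem_Ioc, mem_Icc, h1, hdv]
    refine ⟨fun h => ⟨⟨h.1.1, ?_⟩, h.1.2, h.2⟩, fun h => ⟨⟨h.1.1, h.2.1⟩, h.2.2⟩⟩
    rw [hM, Int.le_floor, mul_comm, ← div_le_iff₀ hc]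
    have : (lo i : ℝ) ≤ n := by exact_mod_cast h.1.2.trans he2
    linarith [(h2 i).1]
  have e2 : ∀ i ∈ Icc 1 M, |(∑ e ∈ Icc 1 n,
      if lo i ≤ e ∧ (k : ℤ) ∣ e + u * i then (1 : ℝ) else 0) - (X - i / c) / k| ≤ 2 := by
    intro i hi
    obtain ⟨hi1, hi2⟩ := mem_Icc.1 hi
    obtain ⟨b1, b2⟩ := h2 i
    have hiR : (1 : ℝ) ≤ i := by exact_mod_cast hi1
    have b3 : 0 < lo i := by
      have : (0 : ℝ) < lo i := lt_of_lt_of_le (by positivity) b1
      exact_mod_cast this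
    have b4 : (i : ℝ) / c ≤ X := by
      rw [div_le_iff₀ hc, mul_comm]
      exact Int.le_floor.1 hi2
    have b5 : lo i - 1 ≤ n := Int.le_floor.2 (by push_cast; linarith)
    have b6 := cntdiv hk (u * i) b5
    have b7 : ((Icc 1 n).filter fun e => lo i ≤ e ∧ (k : ℤ) ∣ e + u * i) =
        (Ioc (lo i - 1) n).filter fun e => (k : ℤ) ∣ e + u * i := by
      ext e
      simp only [mem_filter, mem_Ioc, mem_Icc]
      exact ⟨fun h => ⟨⟨by omega, h.1.2⟩, h.2.2⟩, fun h => ⟨⟨by omega, h.1.2⟩, by omega, h.2⟩⟩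
    rw [sum_boole, b7, ← Int.cast_natCast, b6]
    obtain ⟨c1, c2⟩ := div_bounds hk (n + u * i)
    obtain ⟨c3, c4⟩ := div_bounds hk (lo i - 1 + u * i)
    push_cast at c1 c2 c3 c4 ⊢
    have d1 : ((n : ℝ) + u * i) / k - (lo i - 1 + u * i) / k - (X - i / c) / k =
        (n - lo i + 1 - X + i / c) / k := by ring
    have d2 : |((n : ℝ) - lo i + 1 - X + i / c) / k| ≤ 1 := by
      rw [abs_div, abs_of_pos (show (0 : ℝ) < k by linarith), div_le_one (by linarith), abs_le]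
      constructor <;> linarith
    rw [← d1, abs_le] at d2
    rw [abs_le]
    constructor <;> linarith [d2.1, d2.2]
  have e3 : c * X ^ 2 / 2 - X / 2 + g (c * X) / (2 * c) = ∑ i ∈ Icc 1 M, (X - i / c) := by
    rw [sum_sub_distrib, ← sum_div, sum_id hM0, sum_const, Int.card_Icc, nsmul_eq_mul,
      ← Int.cast_natCast, Int.toNat_of_nonneg (by omega), g, Int.fract, ← hM]
    push_cast
    field_simp
    ring
  rw [sum_congr rfl e1, sum_comm, e3, sum_div, ← sum_sub_distrib]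
  refine (abs_sum_le_sum_abs _ _).trans ((sum_le_card_nsmul _ _ _ e2).trans ?_)
  rw [Int.card_Icc, nsmul_eq_mul, ← Int.cast_natCast, Int.toNat_of_nonneg (by omega)]
  have := Int.floor_le (c * X)
  push_cast
  linarith

lemma wedge_closed {k : ℕ} (hk : 1 ≤ k) {a : ℤ} (ha : IsCoprime a (k : ℤ)) {c X : ℝ} (hc : 0 < c)
    (hX : 0 < X) : |∑ e ∈ Icc 1 ⌊X⌋, (((a * e + ⌊c * e⌋) / k - a * e / k : ℤ) : ℝ) -
      (c * X ^ 2 / 2 - X / 2 + g (c * X) / (2 * c)) / k| ≤ 2 * (c * X) := by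
  refine wedge hk ha hc hX (fun e => ⌊c * e⌋) (fun i => ⌈i / c⌉) (fun e he => ?_)
    (fun i e => ?_) fun i => ⟨Int.le_ceil _, (Int.ceil_lt_add_one _).le⟩
  · have : (1 : ℝ) ≤ e := by exact_mod_cast he
    exact Int.floor_nonneg.2 (by positivity)
  · rw [Int.le_floor, Int.ceil_le, div_le_iff₀ hc, mul_comm]

lemma wedge_open {k : ℕ} (hk : 1 ≤ k) {a : ℤ} (ha : IsCoprime a (k : ℤ)) {c X : ℝ} (hc : 0 < c)
    (hX : 0 < X) : |∑ e ∈ Icc 1 ⌊X⌋, (((a * e + (⌈c * e⌉ - 1)) / k - a * e / k : ℤ) : ℝ) -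
      (c * X ^ 2 / 2 - X / 2 + g (c * X) / (2 * c)) / k| ≤ 2 * (c * X) := by
  refine wedge hk ha hc hX (fun e => ⌈c * e⌉ - 1) (fun i => ⌊i / c⌋ + 1) (fun e he => ?_)
    (fun i e => ?_) fun i => ⟨?_, ?_⟩
  · have : (1 : ℝ) ≤ e := by exact_mod_cast he
    have := Int.ceil_pos.2 (show 0 < c * e by positivity)
    omega
  · rw [Int.le_sub_one_iff, Int.add_one_le_iff, Int.lt_ceil, Int.floor_lt, div_lt_iff₀ hc,
      mul_comm]
  · push_cast; exact (Int.lt_floor_add_one _).le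
  · push_cast; linarith [Int.floor_le ((i : ℝ) / c)]

lemma wedge_weak {k : ℕ} (hk : 1 ≤ k) {a : ℤ} (ha : IsCoprime a (k : ℤ)) {c X : ℝ} (hc : 0 ≤ c)
    (hX : 0 < X) : |∑ e ∈ Icc 1 ⌊X⌋, (((a * e + ⌊c * e⌋) / k - a * e / k : ℤ) : ℝ) -
      c * X ^ 2 / 2 / k| ≤ 2 * (c * X) + X / k / 2 := by
  have hkR : (0 : ℝ) < k := by exact_mod_cast hk
  rcases hc.eq_or_lt with rfl | hc
  · simp
    positivity
  have h := abs_le.1 (wedge_closed hk ha hc hX)
  have h1 : 0 ≤ g (c * X) / (2 * c) / k := by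
    have := g_nonneg (c * X)
    positivity
  have h2 : g (c * X) / (2 * c) / k ≤ X / k / 2 := by
    rw [div_right_comm X]
    refine div_le_div_of_nonneg_right ?_ hkR.le
    rw [div_le_iff₀ (by positivity)]
    linarith [g_le (y := c * X) (by positivity)]
  have e : (c * X ^ 2 / 2 - X / 2 + g (c * X) / (2 * c)) / k =
      c * X ^ 2 / 2 / k - X / k / 2 + g (c * X) / (2 * c) / k := by ring
  have h3 : 0 ≤ X / k := by positivity
  rw [e] at h
  rw [abs_le]
  constructor <;> linarith [h.1, h.2]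

lemma core {k : ℕ} (hk : 1 ≤ k) {a : ℤ} (ha : IsCoprime a (k : ℤ)) {s t X : ℝ} (hs : 0 ≤ s)
    (ht : 0 < t) (hX : 0 < X) :
    |∑ e ∈ Icc 1 ⌊X⌋, (((a * e + ⌊(t + s) * e⌋) / k + (-a * e + ⌊(t - s) * e⌋) / k + 1 : ℤ) : ℝ) -
      t * X ^ 2 / k| ≤ 10 * (X * (s + t) + t * X / (s + t) / k) := by
  classical
  have hkR : (0 : ℝ) < k := by exact_mod_cast hk
  have p1 : 0 ≤ X * s := by positivity
  have p2 : 0 ≤ X * t := by positivity
  have p3 : 0 ≤ t * X / (s + t) / k := by positivity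
  rcases le_or_gt s t with h | h
  · have w1 := abs_le.1 (wedge_weak hk ha (c := t + s) (by positivity) hX)
    have w2 := abs_le.1 (wedge_weak hk ha.neg_left (c := t - s) (by linarith) hX)
    have w3 : ∀ e : ℤ, ((a * e / k + -a * e / k + 1 : ℤ) : ℝ) =
        if (k : ℤ) ∣ e + 0 then 1 else 0 := by
      intro e
      have h1 := cntdiv hk (u := -1) (v := 0) (a * e) (by norm_num)
      have h2 := neg_div hk (a * e)
      have h3 : Ioc (-1 : ℤ) 0 = {0} := by decide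
      rw [h3, filter_singleton, zero_add, neg_add_eq_sub] at h1
      rw [neg_mul, add_assoc, h2, ← sub_eq_add_neg, ← h1, add_zero]
      by_cases h4 : (k : ℤ) ∣ e
      · simp [h4, h4.mul_left a]
      · have : ¬ (k : ℤ) ∣ a * e := fun h5 => h4 (ha.symm.dvd_of_dvd_mul_left h5)
        simp [h4, this]
    have w4 : ∑ e ∈ Icc 1 ⌊X⌋, ((a * e / k + -a * e / k + 1 : ℤ) : ℝ) = (⌊X⌋ / k : ℤ) := by
      have h1 := cntdiv hk (u := 0) (v := ⌊X⌋) 0 (Int.floor_nonneg.2 hX.le)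
      simp only [w3]
      rw [sum_boole, ← Int.cast_natCast, show Icc 1 ⌊X⌋ = Ioc 0 ⌊X⌋ from by
        ext x; simp only [mem_Icc, mem_Ioc]; omega, h1]
      simp
    have w5 : ((⌊X⌋ / k : ℤ) : ℝ) ≤ X / k :=
      (div_bounds hk _).2.trans (div_le_div_of_nonneg_right (Int.floor_le X) hkR.le)
    have w6 : (0 : ℝ) ≤ (⌊X⌋ / k : ℤ) := by
      exact_mod_cast Int.ediv_nonneg (Int.floor_nonneg.2 hX.le) (by positivity)
    have w7 : X / k ≤ 2 * (t * X / (s + t) / k) := by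
      rw [← mul_div_assoc]
      refine div_le_div_of_nonneg_right ?_ hkR.le
      rw [← mul_div_assoc, le_div_iff₀ (by positivity)]
      nlinarith
    have e : ∑ e ∈ Icc 1 ⌊X⌋,
        (((a * e + ⌊(t + s) * e⌋) / k + (-a * e + ⌊(t - s) * e⌋) / k + 1 : ℤ) : ℝ) =
        ∑ e ∈ Icc 1 ⌊X⌋, (((a * e + ⌊(t + s) * e⌋) / k - a * e / k : ℤ) : ℝ) +
        ∑ e ∈ Icc 1 ⌊X⌋, (((-a * e + ⌊(t - s) * e⌋) / k - -a * e / k : ℤ) : ℝ) +
        ∑ e ∈ Icc 1 ⌊X⌋, ((a * e / k + -a * e / k + 1 : ℤ) : ℝ) := by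
      rw [← sum_add_distrib, ← sum_add_distrib]
      refine sum_congr rfl fun e _ => ?_
      rw [← Int.cast_add, ← Int.cast_add]
      congr 1
      ring
    have e2 : t * X ^ 2 / k = (t + s) * X ^ 2 / 2 / k + (t - s) * X ^ 2 / 2 / k := by ring
    rw [e, w4, e2, abs_le]
    constructor <;> nlinarith [w1.1, w1.2, w2.1, w2.2]
  · have w1 := abs_le.1 (wedge_closed hk ha (c := t + s) (by positivity) hX)
    have w2 := abs_le.1 (wedge_open hk ha (c := s - t) (by linarith) hX)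
    have e : ∑ e ∈ Icc 1 ⌊X⌋,
        (((a * e + ⌊(t + s) * e⌋) / k + (-a * e + ⌊(t - s) * e⌋) / k + 1 : ℤ) : ℝ) =
        ∑ e ∈ Icc 1 ⌊X⌋, (((a * e + ⌊(t + s) * e⌋) / k - a * e / k : ℤ) : ℝ) -
        ∑ e ∈ Icc 1 ⌊X⌋, (((a * e + (⌈(s - t) * e⌉ - 1)) / k - a * e / k : ℤ) : ℝ) := by
      rw [← sum_sub_distrib]
      refine sum_congr rfl fun e _ => ?_
      rw [← Int.cast_sub]
      congr 1
      have h1 := neg_div hk (a * e + ⌈(s - t) * e⌉)
      have h2 : -a * e + ⌊(t - s) * e⌋ = -(a * e + ⌈(s - t) * e⌉) := by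
        rw [show (t - s) * (e : ℝ) = -((s - t) * e) by ring, Int.floor_neg]
        ring
      rw [h2, add_assoc, h1, add_sub_assoc]
      ring
    have hc : 0 < s - t := by linarith
    have w3 : |g ((t + s) * X) / (2 * (t + s)) - g ((s - t) * X) / (2 * (s - t))| ≤
        2 * (t * X / (s + t)) := by
      have l1 := g_lip (x := (s - t) * X) (y := (t + s) * X) (by nlinarith)
      have l2 := g_le (y := (s - t) * X) (by positivity)
      have l3 := g_nonneg ((s - t) * X)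
      have e1 : g ((t + s) * X) / (2 * (t + s)) - g ((s - t) * X) / (2 * (s - t)) =
          ((g ((t + s) * X) - g ((s - t) * X)) / 2 - t * (g ((s - t) * X) / (s - t))) / (s + t) := by
        field_simp
        ring
      have l4 : g ((s - t) * X) / (s - t) ≤ X := by
        rw [div_le_iff₀ hc]; linarith
      have l5 : 0 ≤ g ((s - t) * X) / (s - t) := by positivity
      have hst : (0 : ℝ) < s + t := by linarith
      rw [e1, abs_div, abs_of_pos hst, ← mul_div_assoc (2 : ℝ) (t * X)]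
      refine div_le_div_of_nonneg_right ?_ hst.le
      rw [abs_le] at l1 ⊢
      have l6 : t * (g ((s - t) * X) / (s - t)) ≤ t * X := mul_le_mul_of_nonneg_left l4 (by linarith)
      have l7 : 0 ≤ t * (g ((s - t) * X) / (s - t)) := mul_nonneg (by linarith) l5
      constructor <;> nlinarith [l1.1, l1.2]
    have w4 : |(g ((t + s) * X) / (2 * (t + s)) - g ((s - t) * X) / (2 * (s - t))) / k| ≤
        2 * (t * X / (s + t) / k) := by
      rw [abs_div, abs_of_pos hkR, ← mul_div_assoc]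
      exact div_le_div_of_nonneg_right w3 hkR.le
    have e2 : t * X ^ 2 / k =
        ((t + s) * X ^ 2 / 2 - X / 2 + g ((t + s) * X) / (2 * (t + s))) / k -
        ((s - t) * X ^ 2 / 2 - X / 2 + g ((s - t) * X) / (2 * (s - t))) / k -
        (g ((t + s) * X) / (2 * (t + s)) - g ((s - t) * X) / (2 * (s - t))) / k := by ring
    rw [abs_le] at w4
    rw [e, e2, abs_le]
    constructor <;> nlinarith [w1.1, w1.2, w2.1, w2.2, w4.1, w4.2]

end Tri

theorem stmtTri : StmtTri := by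
  intro θ η X a k hη hX hk ha
  have hkR : (0 : ℝ) < k := by exact_mod_cast hk
  set s := k * θ - a with hs
  set t := k * η with ht
  have ht0 : 0 < t := by positivity
  have e1 : ∑ e ∈ Icc 1 ⌊X⌋₊, (cnt θ η e : ℝ) = ∑ e ∈ Icc 1 ⌊X⌋,
      (((a * e + ⌊(t + s) * e⌋) / k + (-a * e + ⌊(t - s) * e⌋) / k + 1 : ℤ) : ℝ) := by
    have hI : (Icc (1 : ℤ) ⌊X⌋) = (Icc 1 ⌊X⌋₊).image (fun e : ℕ => (e : ℤ)) := by
      ext x
      rw [← Int.natCast_floor_eq_floor hX.le]
      simp only [mem_Icc, mem_image]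
      constructor
      · intro h
        exact ⟨x.toNat, by omega, by omega⟩
      · rintro ⟨y, hy, rfl⟩
        omega
    rw [hI, sum_image fun _ _ _ _ h => Nat.cast_injective h]
    refine sum_congr rfl fun e _ => ?_
    have h1 : ⌊(θ + η) * e⌋ = (a * e + ⌊(t + s) * (e : ℤ)⌋) / k := by
      rw [← Int.floor_intCast_add, ← Int.floor_div_natCast]
      congr 1
      rw [hs, ht]
      push_cast
      field_simp
      ring
    have h2 : ⌈(θ - η) * e⌉ = -((-a * e + ⌊(t - s) * (e : ℤ)⌋) / k) := by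
      rw [← Int.floor_intCast_add, ← Int.floor_div_natCast, ← Int.ceil_neg]
      congr 1
      rw [hs, ht]
      push_cast
      field_simp
      ring
    have h3 : ⌈(θ - η) * e⌉ ≤ ⌊(θ + η) * e⌋ + 1 := by
      refine Int.ceil_le.2 ?_
      have := Int.lt_floor_add_one ((θ + η) * e)
      have : 0 ≤ η * e := by positivity
      push_cast
      linarith
    rw [cnt, Int.card_Icc, ← Int.cast_natCast, Int.toNat_of_nonneg (by omega), h1, h2]
    congr 1
    push_cast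
    ring
  have e2 : η * X ^ 2 = t * X ^ 2 / k := by rw [ht]; field_simp
  have e3 : t * X ^ 2 / k / (X * (|s| + t)) = t * X / (|s| + t) / k := by
    have : 0 < |s| + t := by positivity
    field_simp
  rw [e1, e2, e3]
  rcases le_total 0 s with h | h
  · rw [abs_of_nonneg h]
    exact Tri.core hk ha h ht0 hX
  · have := Tri.core hk ha.neg_left (neg_nonneg.2 h) ht0 hX
    rw [abs_of_nonpos h]
    refine le_trans (le_of_eq ?_) this
    congr 2
    refine sum_congr rfl fun e _ => ?_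
    rw [neg_neg, sub_neg_eq_add, ← sub_eq_add_neg t s]
    congr 1
    ring

end Pool.Agent.MP_f259ea_nt.Q
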