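import Pool.Agent.MP_f259ea_nt.Q_Defs

set_option autoImplicit false

open Complex MeasureTheory Finset
open scoped Real ComplexConjugate Classical

namespace Pool.Agent.MP_f259ea_nt.Q

namespace Unfold

lemma ee_add (x y : ℝ) : ee (x + y) = ee x * ee y := by
  unfold ee; rw [← Complex.exp_add]; congr 1; push_cast; ring

lemma conj_ee (x : ℝ) : conj (ee x) = ee (-x) := by
  unfold ee
  rw [← Complex.exp_conj]; congr 1
  simp only [map_mul, Complex.conj_ofReal, Complex.conj_I, map_ofNat]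
  push_cast; ring

lemma ee_int (n : ℤ) : ee n = 1 := by
  unfold ee
  rw [← Complex.exp_int_mul_two_pi_mul_I n]; congr 1; push_cast; ring

lemma continuous_ee : Continuous ee := by unfold ee; fun_prop

lemma int_ee (h : ℤ) : ∫ θ in (0 : ℝ)..1, ee (h * θ) = if h = 0 then 1 else 0 := by
  split_ifs with h0
  · simp [h0, ee]
  · have hc : (2 * π * I * h : ℂ) ≠ 0 := by
      simp [Real.pi_ne_zero, h0]
    have e : ∀ θ : ℝ, ee (h * θ) = Complex.exp (2 * π * I * h * θ) := fun θ => by
      unfold ee; congr 1; push_cast; ring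
    simp only [e]
    rw [integral_exp_mul_complex hc, ← e, ← e, mul_one, mul_zero, ee_int]
    simp [ee]

lemma continuous_Sx (N : ℕ) (a : ℕ → ℂ) : Continuous (Sx N a) := by
  unfold Sx
  exact continuous_finsetSum _ fun n _ => continuous_const.mul
    (continuous_ee.comp (continuous_const.mul continuous_id))

lemma periodic_Sx (N : ℕ) (a : ℕ → ℂ) : Function.Periodic (Sx N a) 1 := fun θ => by
  unfold Sx
  refine sum_congr rfl fun n _ => ?_
  have := ee_int n
  rw [Int.cast_natCast] at this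
  rw [mul_add, mul_one, ee_add, this, mul_one]

lemma inner (N : ℕ) (a g : ℕ → ℂ) :
    ∫ θ in (0 : ℝ)..1, Sx N a θ * conj (Sx N g θ) = ∑ n ∈ Icc 1 N, a n * conj (g n) := by
  have e : ∀ θ : ℝ, Sx N a θ * conj (Sx N g θ) = ∑ n ∈ Icc 1 N, ∑ m ∈ Icc 1 N,
      a n * conj (g m) * ee ((((n : ℤ) - m : ℤ) : ℝ) * θ) := fun θ => by
    unfold Sx
    rw [map_sum, sum_mul_sum]
    refine sum_congr rfl fun n _ => sum_congr rfl fun m _ => ?_
    have : (((n : ℤ) - m : ℤ) : ℝ) * θ = n * θ + -(m * θ) := by push_cast; ring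
    rw [map_mul, conj_ee, this, ee_add]; ring
  have c : ∀ n m : ℕ, Continuous fun θ : ℝ =>
      a n * conj (g m) * ee ((((n : ℤ) - m : ℤ) : ℝ) * θ) := fun n m =>
    continuous_const.mul (continuous_ee.comp (continuous_const.mul continuous_id))
  simp only [e]
  rw [intervalIntegral.integral_finsetSum fun n _ =>
    (continuous_finsetSum _ fun m _ => c n m).intervalIntegrable _ _]
  refine sum_congr rfl fun n hn => ?_
  rw [intervalIntegral.integral_finsetSum fun m _ => (c n m).intervalIntegrable _ _]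
  simp only [intervalIntegral.integral_const_mul, int_ee, sub_eq_zero, Nat.cast_inj, mul_ite,
    mul_one, mul_zero, sum_ite_eq, hn, if_true]

lemma parseval (N : ℕ) (a : ℕ → ℂ) : ∫ θ in (0 : ℝ)..1, ‖Sx N a θ‖ ^ 2 = nrm N a := by
  have h := inner N a a
  simp only [Complex.mul_conj, Complex.normSq_eq_norm_sq] at h
  rw [intervalIntegral.integral_ofReal] at h
  unfold nrm
  exact_mod_cast h

lemma shift {E : Type*} [NormedAddCommGroup E] [NormedSpace ℝ E] {f : ℝ → E}
    (hf : Function.Periodic f 1) (t : ℝ) :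
    ∫ x in t..t + 1, f x = ∫ x in (-(1 / 2) : ℝ)..(1 / 2), f x := by
  rw [hf.intervalIntegral_add_eq t (-(1 / 2))]; norm_num

lemma shift0 {E : Type*} [NormedAddCommGroup E] [NormedSpace ℝ E] {f : ℝ → E}
    (hf : Function.Periodic f 1) :
    ∫ x in (-(1 / 2) : ℝ)..(1 / 2), f x = ∫ x in (0 : ℝ)..1, f x := by
  rw [← shift hf 0, zero_add]

lemma measurable_dZ : Measurable dZ := by
  unfold dZ
  simp only [round_eq]
  have h : Measurable fun x : ℝ => ((⌊x + 1 / 2⌋ : ℤ) : ℝ) :=
    (measurable_from_top (f := fun n : ℤ => (n : ℝ))).comp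
      (Int.measurable_floor.comp (measurable_id.add_const _))
  exact (measurable_id.sub h).abs

lemma dZ_add_one (x : ℝ) : dZ (x + 1) = dZ x := by
  unfold dZ; rw [round_add_one]; push_cast; congr 1; ring

lemma dZ_eq {x : ℝ} (h1 : -(1 / 2) ≤ x) (h2 : x ≤ 1 / 2) : dZ x = |x| := by
  unfold dZ
  rcases h2.lt_or_eq with h | rfl
  · rw [round_eq_zero_iff.2 ⟨h1, h⟩]; simp
  · rw [round_eq]; norm_num

lemma ind_int {s : Set ℝ} (hs : MeasurableSet s) {f : ℝ → ℝ} (hf : Measurable f) (a b : ℝ) :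
    IntervalIntegrable (fun x => s.indicator (fun _ => (1 : ℝ)) (f x)) volume a b := by
  refine (intervalIntegrable_const (c := (1 : ℝ))).mono_fun'
    ((measurable_const.indicator hs).comp hf).aestronglyMeasurable
    (Filter.Eventually.of_forall fun x => ?_)
  by_cases h : f x ∈ s <;> simp [h]

lemma nS_mul (k : ℕ) (s : Set ℝ) (G : ℝ → ℝ) (θ : ℝ) : (nS k s θ : ℝ) * G θ =
    ∑ b ∈ red k, s.indicator (fun _ => (1 : ℝ)) (dZ (θ - (b : ℝ) / k)) * G θ := by
  unfold nS
  rw [card_filter, Nat.cast_sum, sum_mul]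
  refine sum_congr rfl fun b _ => ?_
  by_cases h : dZ (θ - (b : ℝ) / k) ∈ s <;> simp [h]

lemma cs {f g : ℝ → ℝ} (hf : Continuous f) (hg : Continuous g) {a b : ℝ} (hab : a ≤ b) :
    ∫ x in a..b, f x * g x ≤ √(∫ x in a..b, f x ^ 2) * √(∫ x in a..b, g x ^ 2) := by
  have i1 : IntervalIntegrable (fun x => f x ^ 2) volume a b := (hf.pow 2).intervalIntegrable a b
  have i2 : IntervalIntegrable (fun x => g x ^ 2) volume a b := (hg.pow 2).intervalIntegrable a b
  have i3 : IntervalIntegrable (fun x => f x * g x) volume a b := (hf.mul hg).intervalIntegrable a b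
  have h := discrim_le_zero (a := ∫ x in a..b, f x ^ 2) (b := 2 * ∫ x in a..b, f x * g x)
    (c := ∫ x in a..b, g x ^ 2) fun t => by
      have h0 : 0 ≤ ∫ x in a..b, (t * t * f x ^ 2 + 2 * t * (f x * g x) + g x ^ 2) :=
        intervalIntegral.integral_nonneg hab fun x _ => by nlinarith [sq_nonneg (t * f x + g x)]
      rw [intervalIntegral.integral_add ((i1.const_mul _).add (i3.const_mul _)) i2,
        intervalIntegral.integral_add (i1.const_mul _) (i3.const_mul _),
        intervalIntegral.integral_const_mul, intervalIntegral.integral_const_mul] at h0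
      linarith
  rw [← Real.sqrt_mul (intervalIntegral.integral_nonneg hab fun x _ => sq_nonneg _)]
  refine (le_abs_self _).trans (Real.abs_le_sqrt ?_)
  rw [discrim] at h
  nlinarith

lemma sumIcc {M : Type*} [AddCommMonoid M] (f : ℕ → M) (N : ℕ) :
    ∑ n ∈ Icc 1 N, f n = ∑ m ∈ range N, f (m + 1) := by
  induction N with
  | zero => simp
  | succ N ih => rw [sum_Icc_succ_top (by omega), ih, sum_range_succ]

lemma Sx_diff (N : ℕ) (g : ℕ → ℂ) (h0 : g 0 = 0) (h1 : g (N + 1) = 0) (β : ℝ) :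
    Sx (N + 1) (fun n => g n - g (n - 1)) β = (1 - ee β) * Sx N g β := by
  unfold Sx
  rw [sumIcc, sumIcc]
  simp only [Nat.add_sub_cancel, sub_mul, sum_sub_distrib, one_mul]
  rw [sum_range_succ, h1, zero_mul, add_zero, sum_range_succ' (fun m => g m * _), h0, zero_mul,
    add_zero, mul_sum]
  congr 1
  refine sum_congr rfl fun m _ => ?_
  have : ((m + 1 + 1 : ℕ) : ℝ) * β = β + ((m + 1 : ℕ) : ℝ) * β := by push_cast; ring
  rw [this, ee_add]; ring

lemma norm_one_sub_ee {β : ℝ} (h : |β| ≤ 1 / 2) : 4 * |β| ≤ ‖1 - ee β‖ := by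
  have e : ee β = Complex.exp (I * ((2 * π * β : ℝ) : ℂ)) := by
    unfold ee; congr 1; push_cast; ring
  have hp := Real.pi_pos
  have h1 : |π * β| ≤ π / 2 := by
    rw [abs_mul, abs_of_pos hp]; nlinarith
  have h2 := Real.mul_abs_le_abs_sin h1
  rw [abs_mul, abs_of_pos hp, ← mul_assoc, div_mul_cancel₀ _ hp.ne'] at h2
  rw [norm_sub_rev, e, Complex.norm_exp_I_mul_ofReal_sub_one,
    show 2 * π * β / 2 = π * β by ring, Real.norm_eq_abs, abs_mul, abs_two]
  linarith

end Unfold

open Unfold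

theorem stmtUnfold : StmtUnfold := by
  refine ⟨fun N a => ⟨continuous_Sx N a, periodic_Sx N a, parseval N a⟩, ?_⟩
  intro k s G hs hG hp
  have i1 : ∀ b : ℕ, IntervalIntegrable (fun θ =>
      s.indicator (fun _ => (1 : ℝ)) (dZ (θ - (b : ℝ) / k)) * G θ) volume 0 1 := fun b =>
    (ind_int hs (measurable_dZ.comp (measurable_id.sub_const _)) 0 1).mul_continuousOn
      hG.continuousOn
  have c2 : ∀ b : ℕ, Continuous fun β : ℝ => G ((b : ℝ) / k + β) := fun b =>
    hG.comp (continuous_const.add continuous_id)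
  have i2 := ind_int hs continuous_abs.measurable (-(1 / 2)) (1 / 2)
  refine ⟨?_, i2.mul_continuousOn (continuous_finsetSum _ fun b _ => c2 b).continuousOn, ?_⟩
  · simp only [nS_mul]
    have := IntervalIntegrable.sum (red k) fun b _ => i1 b
    rw [Finset.sum_fn] at this
    exact this
  · simp only [nS_mul, mul_sum]
    rw [intervalIntegral.integral_finsetSum fun b _ => i1 b,
      intervalIntegral.integral_finsetSum fun b _ => i2.mul_continuousOn (c2 b).continuousOn]
    refine sum_congr rfl fun b _ => ?_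
    have hper : Function.Periodic (fun β => s.indicator (fun _ => (1 : ℝ)) (dZ β) *
        G ((b : ℝ) / k + β)) 1 := fun β => by
      simp only [dZ_add_one, ← add_assoc, hp _]
    have h1 := intervalIntegral.integral_comp_sub_right (a := 0) (b := 1)
      (fun β => s.indicator (fun _ => (1 : ℝ)) (dZ β) * G ((b : ℝ) / k + β)) ((b : ℝ) / k)
    simp only [add_sub_cancel] at h1
    rw [h1, show 1 - (b : ℝ) / k = 0 - (b : ℝ) / k + 1 by ring, shift hper]
    refine intervalIntegral.integral_congr fun β hβ => ?_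
    rw [Set.uIcc_of_le (by norm_num)] at hβ
    simp only [dZ_eq hβ.1 hβ.2]

theorem stmtModel : StmtModel := by
  intro N a g b hb hb2 h0 h1
  have cS := continuous_Sx N a
  have cG := continuous_Sx N g
  have cD := continuous_Sx (N + 1) fun n => g n - g (n - 1)
  obtain ⟨R, hR⟩ : ∃ R : ℝ → ℝ, ∀ β, R β = (Sx N a β * conj (Sx N g β)).re := ⟨_, fun _ => rfl⟩
  obtain ⟨P, hP⟩ : ∃ P : ℝ → ℝ, ∀ β, P β =
    ‖Sx N a β‖ * ‖Sx (N + 1) (fun n => g n - g (n - 1)) β‖ := ⟨_, fun _ => rfl⟩
  have cI : Continuous fun β => Sx N a β * conj (Sx N g β) :=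
    cS.mul (Complex.continuous_conj.comp cG)
  have cR : Continuous R := by rw [funext hR]; exact Complex.continuous_re.comp cI
  have cP : Continuous P := by rw [funext hP]; exact cS.norm.mul cD.norm
  have iR := fun x y => cR.intervalIntegrable (μ := volume) x y
  have iP := fun x y => cP.intervalIntegrable (μ := volume) x y
  have iG : ∀ x y, IntervalIntegrable (fun β => ‖Sx N g β‖ ^ 2) volume x y := fun x y =>
    (cG.norm.pow 2).intervalIntegrable x y
  have pars : ∀ (M : ℕ) (c : ℕ → ℂ),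
      ∫ β in (-(1 / 2) : ℝ)..(1 / 2), ‖Sx M c β‖ ^ 2 = nrm M c := fun M c => by
    rw [shift0 (f := fun β => ‖Sx M c β‖ ^ 2) fun β => by simp only [periodic_Sx M c β], parseval]
  have e1 : ∫ β in (-(1 / 2) : ℝ)..(1 / 2), R β = (∑ n ∈ Icc 1 N, a n * conj (g n)).re := by
    rw [shift0 fun β => by rw [hR, hR, periodic_Sx N a β, periodic_Sx N g β], ← Unfold.inner,
      funext hR]
    exact Complex.reCLM.intervalIntegral_comp_comm (cI.intervalIntegrable _ _)
  have e2 : ∫ β in (-(1 / 2) : ℝ)..(1 / 2), P β ≤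
      √(nrm N a) * √(∑ n ∈ range (N + 1), ‖g (n + 1) - g n‖ ^ 2) := by
    have := cs cS.norm cD.norm (a := -(1 / 2)) (b := 1 / 2) (by norm_num)
    rw [pars, pars] at this
    rw [funext hP]
    refine this.trans (le_of_eq ?_)
    rw [nrm, nrm, sumIcc _ (N + 1)]
    simp only [Nat.add_sub_cancel]
  have pw : ∀ β : ℝ, b ≤ |β| → |β| ≤ 1 / 2 → 4 * b * R β ≤ P β := fun β h2 h3 => by
    have h4 := norm_one_sub_ee h3
    have h5 : R β ≤ ‖Sx N a β‖ * ‖Sx N g β‖ := by
      rw [hR]
      refine (Complex.re_le_norm _).trans (le_of_eq ?_)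
      rw [norm_mul, Complex.norm_conj]
    rw [hP, Sx_diff N g h0 h1, norm_mul]
    have h6 : 0 ≤ ‖Sx N a β‖ * ‖Sx N g β‖ := by positivity
    nlinarith
  have o1 : ∫ β in (-(1 / 2) : ℝ)..(-b), 4 * b * R β ≤ ∫ β in (-(1 / 2) : ℝ)..(-b), P β :=
    intervalIntegral.integral_mono_on (by linarith) ((iR _ _).const_mul _) (iP _ _) fun β hβ => by
      have : |β| = -β := abs_of_nonpos (by linarith [hβ.2])
      exact pw β (by linarith [hβ.2]) (by linarith [hβ.1])
  have o2 : ∫ β in b..(1 / 2), 4 * b * R β ≤ ∫ β in b..(1 / 2), P β :=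
    intervalIntegral.integral_mono_on hb2 ((iR _ _).const_mul _) (iP _ _) fun β hβ => by
      have : |β| = β := abs_of_nonneg (by linarith [hβ.1])
      exact pw β (by linarith [hβ.1]) (by linarith [hβ.2])
  rw [intervalIntegral.integral_const_mul] at o1 o2
  have o3 : 0 ≤ ∫ β in (-b)..b, P β :=
    intervalIntegral.integral_nonneg (by linarith) fun β _ => by rw [hP]; positivity
  have split : ∀ f : ℝ → ℝ, (∀ x y, IntervalIntegrable f volume x y) →
      ∫ β in (-(1 / 2) : ℝ)..(1 / 2), f β = (∫ β in (-(1 / 2) : ℝ)..(-b), f β) +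
        (∫ β in (-b)..b, f β) + ∫ β in b..(1 / 2), f β := fun f hf => by
    rw [intervalIntegral.integral_add_adjacent_intervals (hf _ _) (hf _ _),
      intervalIntegral.integral_add_adjacent_intervals (hf _ _) (hf _ _)]
  have s1 := split R iR
  have s2 := split P iP
  have s3 := split (fun β => ‖Sx N g β‖ ^ 2) iG
  rw [pars] at s3
  have g1 : 0 ≤ ∫ β in (-(1 / 2) : ℝ)..(-b), ‖Sx N g β‖ ^ 2 :=
    intervalIntegral.integral_nonneg (by linarith) fun β _ => sq_nonneg _
  have g2 : 0 ≤ ∫ β in b..(1 / 2), ‖Sx N g β‖ ^ 2 :=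
    intervalIntegral.integral_nonneg hb2 fun β _ => sq_nonneg _
  have m : ∫ β in (-b)..b, (2 * R β - ‖Sx N g β‖ ^ 2) ≤ ∫ β in (-b)..b, ‖Sx N a β‖ ^ 2 :=
    intervalIntegral.integral_mono_on (by linarith) (((iR _ _).const_mul _).sub (iG _ _))
      ((cS.norm.pow 2).intervalIntegrable _ _) fun β _ => by
      have := Complex.normSq_nonneg (Sx N a β - Sx N g β)
      rw [Complex.normSq_sub, Complex.normSq_eq_norm_sq, Complex.normSq_eq_norm_sq, ← hR] at this
      linarith
  rw [intervalIntegral.integral_sub ((iR _ _).const_mul _) (iG _ _),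
    intervalIntegral.integral_const_mul] at m
  have fin : 2 * ((∫ β in (-(1 / 2) : ℝ)..(-b), R β) + ∫ β in b..(1 / 2), R β) ≤
      √(nrm N a) * √(∑ n ∈ range (N + 1), ‖g (n + 1) - g n‖ ^ 2) / (2 * b) := by
    rw [le_div_iff₀ (by positivity)]
    linarith
  linarith

end Pool.Agent.MP_f259ea_nt.Q
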