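import Pool.Agent.MP_f259ea_nt.Q_Defs

/-!
Estimates for Dirichlet L-functions that are uniform in the modulus.
-/

set_option autoImplicit false

open Complex MeasureTheory Set Filter Topology Asymptotics Metric DirichletCharacter
open scoped Real ComplexConjugate

namespace Pool.Agent.MP_f259ea_nt.Q

namespace Unif

theorem sums (N : ℕ) (hN : 0 < N) (a : ℕ → ℂ) (ha : ∀ n, a (n + N) = a n)
    (hb : ∀ n, ‖a n‖ ≤ 1) :
    ∃ c : ℂ, ‖c‖ ≤ 1 ∧ ∀ n : ℕ, ‖∑ k ∈ Finset.Icc 1 n, a k - c * n‖ ≤ 2 * N := by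
  have hs : ∀ s : Finset ℕ, ‖∑ k ∈ s, a k‖ ≤ s.card := fun s =>
    (norm_sum_le _ _).trans (by simpa using Finset.sum_le_card_nsmul s _ 1 fun k _ => hb k)
  have hconst : ∀ n, ∑ k ∈ Finset.range N, a (n + k) = ∑ k ∈ Finset.range N, a k := by
    intro n
    induction n with
    | zero => simp
    | succ n ih =>
      have h1 := Finset.sum_range_succ (fun k => a (n + k)) N
      have h2 := Finset.sum_range_succ' (fun k => a (n + k)) N
      have h3 : ∑ k ∈ Finset.range N, a (n + (k + 1)) = ∑ k ∈ Finset.range N, a (n + 1 + k) :=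
        Finset.sum_congr rfl fun k _ => by congr 1; ring
      rw [h1, ha, h3] at h2
      simp only [add_zero] at h2
      rw [← ih]
      exact (add_right_cancel h2).symm
  set c : ℂ := (∑ k ∈ Finset.range N, a k) / N with hc
  have hN' : (N : ℂ) ≠ 0 := by exact_mod_cast hN.ne'
  set D : ℕ → ℂ := fun n => ∑ k ∈ Finset.Icc 1 n, a k - c * n with hD
  have hIcc : ∀ n, ∑ k ∈ Finset.Icc 1 n, a k = ∑ k ∈ Finset.range n, a (1 + k) := by
    intro n
    rw [← Finset.Ico_add_one_right_eq_Icc, Finset.sum_Ico_eq_sum_range]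
    simp
  have hper : ∀ n, D (n + N) = D n := by
    intro n
    simp only [hD, hIcc]
    rw [Finset.sum_range_add]
    have h3 : ∑ k ∈ Finset.range N, a (1 + (n + k)) = ∑ k ∈ Finset.range N, a ((1 + n) + k) :=
      Finset.sum_congr rfl fun k _ => by congr 1; ring
    rw [h3, hconst, hc]
    push_cast
    field_simp
    ring
  have hmod : ∀ q r, D (r + N * q) = D r := by
    intro q
    induction q with
    | zero => simp
    | succ q ih =>
      intro r
      have : r + N * (q + 1) = (r + N * q) + N := by ring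
      rw [this, hper, ih]
  have hc1 : ‖c‖ ≤ 1 := by
    rw [hc, norm_div, Complex.norm_natCast, div_le_one (by exact_mod_cast hN)]
    simpa using hs (Finset.range N)
  refine ⟨c, hc1, fun n => ?_⟩
  have h1 : D n = D (n % N) := by
    conv_lhs => rw [← Nat.mod_add_div n N]
    exact hmod _ _
  change ‖D n‖ ≤ _
  rw [h1]
  have h2 : ((n % N : ℕ) : ℝ) ≤ N := by exact_mod_cast (Nat.mod_lt n hN).le
  have h3 := hs (Finset.Icc 1 (n % N))
  rw [Nat.card_Icc, Nat.add_sub_cancel] at h3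
  refine (norm_sub_le _ _).trans ?_
  rw [norm_mul, Complex.norm_natCast]
  nlinarith [(Nat.cast_nonneg (n % N) : (0 : ℝ) ≤ (n % N : ℕ))]

theorem growth (N : ℕ) [NeZero N] (χ : DirichletCharacter ℂ N) :
    ∀ s : ℂ, 1 / 20 ≤ s.re → 1 ≤ s.im →
      ‖DirichletCharacter.LFunction χ s‖ ≤ 100 * N * ‖s‖ := by
  obtain ⟨c, hc1, h⟩ := sums N (Nat.pos_of_ne_zero (NeZero.ne N))
    (fun n => χ n) (fun n => by simp) (fun n => χ.norm_le_one _)
  have hN1 : (1 : ℝ) ≤ N := by exact_mod_cast Nat.pos_of_ne_zero (NeZero.ne N)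
  set B : ℝ := 2 * N with hBdef
  have hB : 0 ≤ B := (norm_nonneg _).trans (h 0)
  set U : Set ℂ := {s | 0 < s.re} ∩ {s | 0 < s.im} with hU
  have hUo : IsOpen U :=
    (isOpen_lt continuous_const Complex.continuous_re).inter
      (isOpen_lt continuous_const Complex.continuous_im)
  have hUc : IsPreconnected U :=
    ((convex_halfSpace_re_gt 0).inter (convex_halfSpace_im_gt 0)).isPreconnected
  have hne : ∀ s ∈ U, s ≠ 1 := by
    intro s hs h1
    have := hs.2
    simp [h1] at this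
  have h1 : AnalyticOnNhd ℂ (DirichletCharacter.LFunction χ) U := by
    refine DifferentiableOn.analyticOnNhd (fun s hs => ?_) hUo
    exact (DirichletCharacter.differentiableAt_LFunction χ s (Or.inl (hne s hs))).differentiableWithinAt
  have h2 : AnalyticOnNhd ℂ
      (fun s => c * s / (s - 1) + s * mellin (errFun (fun n => χ n) c) (-s)) U := by
    refine DifferentiableOn.analyticOnNhd (fun s hs => ?_) hUo
    refine DifferentiableAt.differentiableWithinAt ?_
    refine DifferentiableAt.add ?_ (differentiableAt_id.mul (differentiableAt_mellin_errFun h hs.1))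
    exact DifferentiableAt.div (by fun_prop) (by fun_prop) (sub_ne_zero.2 (hne s hs))
  have hz : (2 + I : ℂ) ∈ U := by constructor <;> simp
  have heq : DirichletCharacter.LFunction χ =ᶠ[𝓝 (2 + I)]
      fun s => c * s / (s - 1) + s * mellin (errFun (fun n => χ n) c) (-s) := by
    have : ∀ᶠ s in 𝓝 (2 + I : ℂ), 1 < s.re :=
      (isOpen_lt continuous_const Complex.continuous_re).mem_nhds (by simp)
    filter_upwards [this] with s hs
    rw [DirichletCharacter.LFunction_eq_LSeries χ hs]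
    exact LSeries_eq_err h hs (DirichletCharacter.LSeriesSummable_of_one_lt_re χ hs)
  have hEq := h1.eqOn_of_preconnected_of_eventuallyEq h2 hUc hz heq
  intro s hs1 hs2
  have hsU : s ∈ U := ⟨by simp only [mem_ofPred_eq]; linarith, by simp only [mem_ofPred_eq]; linarith⟩
  rw [hEq hsU]
  have hre : 0 < s.re := by linarith
  have hm := norm_mellin_errFun_le h hre
  have hm' : ‖mellin (errFun (fun n => χ n) c) (-s)‖ ≤ 20 * (B + ‖c‖) := by
    refine hm.trans ?_
    rw [div_le_iff₀ hre]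
    have : 0 ≤ B + ‖c‖ := by positivity
    nlinarith
  have hn1 : 1 ≤ ‖s - 1‖ := by
    have := Complex.abs_im_le_norm (s - 1)
    simp only [sub_im, one_im, sub_zero] at this
    exact hs2.trans ((le_abs_self _).trans this)
  have hA : ‖c * s / (s - 1)‖ ≤ ‖c‖ * ‖s‖ := by
    rw [norm_div, norm_mul]
    exact div_le_self (by positivity) hn1
  calc _ ≤ ‖c * s / (s - 1)‖ + ‖s * mellin (errFun (fun n => χ n) c) (-s)‖ := norm_add_le _ _
    _ ≤ ‖c‖ * ‖s‖ + ‖s‖ * (20 * (B + ‖c‖)) := by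
        rw [norm_mul]; gcongr
    _ = (‖c‖ + 20 * (B + ‖c‖)) * ‖s‖ := by ring
    _ ≤ _ := mul_le_mul_of_nonneg_right (by linarith) (norm_nonneg s)

theorem lower : ∃ δ : ℝ, 0 < δ ∧ ∀ (N : ℕ) [NeZero N] (χ : DirichletCharacter ℂ N) (s : ℂ),
    s.re = 2 → δ ≤ ‖DirichletCharacter.LFunction χ s‖ := by
  have hsum : Summable fun n : ℕ => ‖LSeries.term (fun _ => (1 : ℂ)) 2 n‖ := by
    have : LSeriesSummable (fun _ => (1 : ℂ)) 2 :=
      LSeriesSummable_of_bounded_of_one_lt_re (m := 1) (fun n _ => by simp) (by simp)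
    exact this.norm
  set Z : ℝ := ∑' n : ℕ, ‖LSeries.term (fun _ => (1 : ℂ)) 2 n‖ with hZ
  have hZ0 : 0 ≤ Z := tsum_nonneg fun n => norm_nonneg _
  refine ⟨1 / (Z + 1), by positivity, fun N _ χ s hs => ?_⟩
  have hs1 : 1 < s.re := by rw [hs]; norm_num
  rw [DirichletCharacter.LFunction_eq_LSeries χ hs1]
  have hmul := DirichletCharacter.LSeries.mul_mu_eq_one χ hs1
  have hle : ‖LSeries ((fun n : ℕ => χ n) * fun n : ℕ => ((ArithmeticFunction.moebius n : ℤ) : ℂ)) s‖
      ≤ Z := by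
    unfold LSeries
    refine tsum_of_norm_bounded hsum.hasSum fun n => ?_
    rw [LSeries.norm_term_eq, LSeries.norm_term_eq, hs]
    split_ifs with hn
    · exact le_rfl
    · simp only [norm_one, re_ofNat]
      gcongr
      rw [Pi.mul_apply, norm_mul]
      have h1 := χ.norm_le_one (n : ZMod N)
      have h2 : ‖((ArithmeticFunction.moebius n : ℤ) : ℂ)‖ ≤ 1 := by
        rw [Complex.norm_intCast]
        exact_mod_cast ArithmeticFunction.abs_moebius_le_one
      nlinarith [norm_nonneg (χ (n : ZMod N)),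
        norm_nonneg ((ArithmeticFunction.moebius n : ℤ) : ℂ)]
  have h1 := congrArg norm hmul
  rw [norm_mul, norm_one] at h1
  rw [div_le_iff₀ (by positivity)]
  have h0 := norm_nonneg (LSeries (fun n : ℕ => χ n) s)
  nlinarith [mul_le_mul_of_nonneg_left hle h0]

theorem one_le_log (N : ℕ) [NeZero N] {t : ℝ} (ht : 3 ≤ t) : 1 ≤ Real.log (N * t) := by
  have hN1 : (1 : ℝ) ≤ N := by exact_mod_cast Nat.pos_of_ne_zero (NeZero.ne N)
  exact one_le_log_of_three_le (by nlinarith)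

theorem loc : ∃ C : ℝ, 1 ≤ C ∧ ∀ (N : ℕ) [NeZero N] (χ : DirichletCharacter ℂ N) (t : ℝ),
    3 ≤ t → ∃ Z : Finset ℂ,
      (∀ z, z ∈ Z ↔ z ∈ closedBall ((2 : ℂ) + ((t + 1 / 2 : ℝ) : ℂ) * I) (9 / 5) ∧
        DirichletCharacter.LFunction χ z = 0) ∧
      (∀ ρ ∈ Z, 1 ≤ (analyticOrderAt (DirichletCharacter.LFunction χ) ρ).toNat) ∧
      (∑ ρ ∈ Z, ((analyticOrderAt (DirichletCharacter.LFunction χ) ρ).toNat : ℝ)
        ≤ C * Real.log (N * t)) ∧
      ∀ z ∈ closedBall ((2 : ℂ) + ((t + 1 / 2 : ℝ) : ℂ) * I) (8 / 5),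
        DirichletCharacter.LFunction χ z ≠ 0 →
        ‖logDeriv (DirichletCharacter.LFunction χ) z -
          ∑ ρ ∈ Z, ((analyticOrderAt (DirichletCharacter.LFunction χ) ρ).toNat : ℂ) / (z - ρ)‖
          ≤ C * Real.log (N * t) := by
  obtain ⟨δ, hδ, hlow⟩ := lower
  set A : ℝ := 301 / δ with hA
  have hApos : 0 < A := by positivity
  have habs := abs_nonneg (Real.log A)
  refine ⟨30000 * (|Real.log A| + 2), by linarith, fun N _ χ t ht => ?_⟩
  have hgr := growth N χ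
  have hN1 : (1 : ℝ) ≤ N := by exact_mod_cast Nat.pos_of_ne_zero (NeZero.ne N)
  have hNt : 3 ≤ N * t := by nlinarith
  have hlog := one_le_log N ht
  set c : ℂ := (2 : ℂ) + ((t + 1 / 2 : ℝ) : ℂ) * I with hc
  have hcre : c.re = 2 := by simp [hc]
  have hcim : c.im = t + 1 / 2 := by simp [hc]
  set M : ℝ := |Real.log A| + 1 + Real.log (N * t) with hM
  have hM1 : 1 ≤ M := by linarith
  have hMle : M ≤ (|Real.log A| + 2) * Real.log (N * t) := by nlinarith
  have hball : ∀ z ∈ closedBall c (19 / 10 : ℝ), 1 / 20 ≤ z.re ∧ 1 ≤ z.im ∧ ‖z‖ ≤ 3 * t := by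
    intro z hz
    rw [mem_closedBall, dist_eq_norm] at hz
    have h1 := (abs_le.1 ((Complex.abs_re_le_norm (z - c)).trans hz)).1
    have h2 := (abs_le.1 ((Complex.abs_im_le_norm (z - c)).trans hz)).1
    rw [sub_re, hcre] at h1
    rw [sub_im, hcim] at h2
    refine ⟨by linarith, by linarith, ?_⟩
    have h3 : ‖c‖ ≤ 2 + (t + 1 / 2) := by
      refine (Complex.norm_le_abs_re_add_abs_im c).trans ?_
      rw [hcre, hcim, abs_of_pos (by norm_num), abs_of_pos (by linarith)]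
    have h4 : ‖z‖ ≤ ‖z - c‖ + ‖c‖ := norm_le_norm_sub_add _ _
    linarith
  have han : AnalyticOnNhd ℂ (DirichletCharacter.LFunction χ) (closedBall c (19 / 10)) := by
    have hU : IsOpen {s : ℂ | 0 < s.im} := isOpen_lt continuous_const Complex.continuous_im
    refine (DifferentiableOn.analyticOnNhd (s := {s : ℂ | 0 < s.im}) (fun s hs => ?_) hU).mono ?_
    · refine (DirichletCharacter.differentiableAt_LFunction χ s (Or.inl ?_)).differentiableWithinAt
      rintro rfl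
      simp at hs
    · intro z hz
      have := (hball z hz).2.1
      change 0 < z.im
      linarith
  have hLc := hlow N χ c hcre
  have hexp : A * (N * t) ≤ Real.exp M := by
    rw [hM, Real.exp_add, Real.exp_log (by linarith)]
    gcongr
    calc A = Real.exp (Real.log A) := (Real.exp_log hApos).symm
      _ ≤ _ := Real.exp_le_exp.2 (by linarith [le_abs_self (Real.log A)])
  have hbig : 301 * (N * t) ≤ Real.exp M * ‖DirichletCharacter.LFunction χ c‖ := by
    calc 301 * (N * t) = A * (N * t) * δ := by rw [hA]; field_simp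
      _ ≤ _ := by gcongr
  obtain ⟨Z, hZ, hpos, hcount, hpf⟩ := local_structure (DirichletCharacter.LFunction χ) c M hM1 han
    (norm_pos_iff.1 (hδ.trans_le hLc))
    (fun z hz => by
      obtain ⟨h1, h2, h3⟩ := hball z (sphere_subset_closedBall hz)
      have := hgr z h1 h2
      nlinarith)
    (by nlinarith)
  refine ⟨Z, hZ, hpos, hcount.trans (by nlinarith), fun z hz hz0 => (hpf z hz hz0).trans ?_⟩
  nlinarith

theorem count : ∃ C : ℝ, 0 ≤ C ∧ ∀ (N : ℕ) [NeZero N] (χ : DirichletCharacter ℂ N) (t : ℝ),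
    3 ≤ t → ∀ Z : Finset ℂ, (∀ ρ ∈ Z, 1 / 2 ≤ ρ.re ∧ ρ.re ≤ 2 ∧ t ≤ ρ.im ∧ ρ.im ≤ t + 1) →
      ∑ ρ ∈ Z, ((analyticOrderAt (DirichletCharacter.LFunction χ) ρ).toNat : ℝ)
        ≤ C * Real.log (N * t) := by
  classical
  obtain ⟨C, hC, h⟩ := loc
  refine ⟨C, by linarith, fun N _ χ t ht Z' hZ' => ?_⟩
  obtain ⟨Z, hZ, -, hcount, -⟩ := h N χ t ht
  refine le_trans ?_ hcount
  have key : ∑ ρ ∈ Z', (analyticOrderAt (DirichletCharacter.LFunction χ) ρ).toNat ≤
      ∑ ρ ∈ Z, (analyticOrderAt (DirichletCharacter.LFunction χ) ρ).toNat := ?_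
  · exact_mod_cast key
  refine Finset.sum_le_sum_of_ne_zero fun ρ hρ hne => ?_
  obtain ⟨h1, h2, h3, h4⟩ := hZ' ρ hρ
  refine (hZ ρ).2 ⟨closedBall_subset_closedBall (by norm_num) (mem_closedBall_of_rect h1 h2 h3 h4),
    ?_⟩
  refine apply_eq_zero_of_analyticOrderAt_ne_zero fun h0 => hne ?_
  rw [h0]; simp

theorem heights : ∃ C : ℝ, 0 ≤ C ∧ ∀ (N : ℕ) [NeZero N] (χ : DirichletCharacter ℂ N) (t : ℝ),
    3 ≤ t → ∃ t' ∈ Set.Icc t (t + 1), ∀ σ ∈ Set.Icc (1 / 2 : ℝ) 2,
      DirichletCharacter.LFunction χ (σ + t' * I) ≠ 0 ∧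
      ‖logDeriv (DirichletCharacter.LFunction χ) (σ + t' * I)‖ ≤ C * Real.log (N * t) ^ 2 := by
  obtain ⟨C, hC, h⟩ := loc
  refine ⟨C + 4 * C ^ 2, by positivity, fun N _ χ t ht => ?_⟩
  obtain ⟨Z, hZ, hpos, hcount, hpf⟩ := h N χ t ht
  have hlog := one_le_log N ht
  obtain ⟨t', ht', hfar⟩ := exists_far_point Z t
  refine ⟨t', ht', fun σ hσ => ?_⟩
  set z : ℂ := σ + t' * I with hz
  have hzre : z.re = σ := by simp [hz]
  have hzim : z.im = t' := by simp [hz]
  have hzb := mem_closedBall_of_rect (t := t) (z := z) (by rw [hzre]; exact hσ.1)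
    (by rw [hzre]; exact hσ.2) (by rw [hzim]; exact ht'.1) (by rw [hzim]; exact ht'.2)
  have hk : (0 : ℝ) < 1 / (2 * ((Z.card : ℝ) + 1)) := by positivity
  have hne : DirichletCharacter.LFunction χ z ≠ 0 := by
    intro h0
    have hzZ := (hZ z).2 ⟨closedBall_subset_closedBall (by norm_num) hzb, h0⟩
    have := hfar z hzZ
    rw [hzim, sub_self, abs_zero] at this
    linarith
  refine ⟨hne, ?_⟩
  have h1 := hpf z hzb hne
  have hcard : (Z.card : ℝ) ≤ C * Real.log (N * t) := by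
    refine le_trans ?_ hcount
    rw [Finset.card_eq_sum_ones]
    push_cast
    exact Finset.sum_le_sum fun ρ hρ => by exact_mod_cast hpos ρ hρ
  have hCl : 1 ≤ C * Real.log (N * t) := by nlinarith
  have h2 : ‖∑ ρ ∈ Z, ((analyticOrderAt (DirichletCharacter.LFunction χ) ρ).toNat : ℂ) / (z - ρ)‖
      ≤ C * Real.log (N * t) * (4 * (C * Real.log (N * t))) := by
    refine (norm_sum_le _ _).trans ?_
    calc _ ≤ ∑ ρ ∈ Z, ((analyticOrderAt (DirichletCharacter.LFunction χ) ρ).toNat : ℝ) *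
          (4 * (C * Real.log (N * t))) := by
          refine Finset.sum_le_sum fun ρ hρ => ?_
          rw [norm_div, Complex.norm_natCast, div_eq_mul_inv]
          gcongr
          have h3 : 1 / (2 * ((Z.card : ℝ) + 1)) ≤ ‖z - ρ‖ := by
            refine (hfar ρ hρ).trans ?_
            have := Complex.abs_im_le_norm (z - ρ)
            rwa [sub_im, hzim] at this
          calc ‖z - ρ‖⁻¹ ≤ (1 / (2 * ((Z.card : ℝ) + 1)))⁻¹ := inv_anti₀ hk h3
            _ = 2 * ((Z.card : ℝ) + 1) := by simp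
            _ ≤ _ := by linarith
      _ ≤ _ := by rw [← Finset.sum_mul]; gcongr
  have h3 := norm_le_norm_sub_add (logDeriv (DirichletCharacter.LFunction χ) z)
    (∑ ρ ∈ Z, ((analyticOrderAt (DirichletCharacter.LFunction χ) ρ).toNat : ℂ) / (z - ρ))
  have h4 : C * Real.log (N * t) ≤ C * Real.log (N * t) ^ 2 := by
    have : Real.log (N * t) ≤ Real.log (N * t) ^ 2 := by nlinarith
    gcongr
  nlinarith

theorem unit : ∃ C : ℝ, 0 ≤ C ∧ ∀ (N : ℕ) [NeZero N] (χ : DirichletCharacter ℂ N),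
    χ.IsPrimitive → ∀ t : ℝ, 3 ≤ t → ∀ Z : Finset ℂ,
      (∀ z ∈ Z, t ≤ z.re ∧ z.re ≤ t + 1 ∧ |z.im| < 1 / 2) →
        ∑ z ∈ Z, (nn χ z : ℝ) ≤ C * Real.log (N * t) := by
  classical
  obtain ⟨C, hC, h⟩ := count
  refine ⟨2 * C, by positivity, fun N _ χ hχ => ?_⟩
  have key : ∀ t : ℝ, 3 ≤ t → ∀ Z : Finset ℂ,
      (∀ z ∈ Z, t ≤ z.re ∧ z.re ≤ t + 1 ∧ |z.im| < 1 / 2 ∧ z.im ≤ 0) →
        ∑ z ∈ Z, (nn χ z : ℝ) ≤ C * Real.log (N * t) := by
    intro t ht Z hZ
    have h1 := h N χ t ht (Z.image sOf) (by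
      intro ρ hρ
      obtain ⟨z, hz, rfl⟩ := Finset.mem_image.1 hρ
      obtain ⟨h1, h2, h3, h4⟩ := hZ z hz
      rw [abs_lt] at h3
      simp only [sOf_re, sOf_im]
      exact ⟨by linarith, by linarith, h1, h2⟩)
    rw [Finset.sum_image (fun _ _ _ _ h => sOf_injective h)] at h1
    calc ∑ z ∈ Z, (nn χ z : ℝ)
        = ∑ z ∈ Z, ((analyticOrderAt (LFunction χ) (sOf z)).toNat : ℝ) := by
          refine Finset.sum_congr rfl fun z hz => ?_
          obtain ⟨h1, -, -, h4⟩ := hZ z hz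
          unfold nn
          rw [order_Xi_eq χ (by linarith) (by linarith)]
      _ ≤ C * Real.log (N * t) := h1
  intro t ht Z hZ
  rw [← Finset.sum_filter_add_sum_filter_not Z (fun z => z.im ≤ 0)]
  have h1 := key t ht (Z.filter (fun z => z.im ≤ 0)) (by
    intro z hz
    rw [Finset.mem_filter] at hz
    obtain ⟨h1, h2, h3⟩ := hZ z hz.1
    exact ⟨h1, h2, h3, hz.2⟩)
  have h2 := key t ht ((Z.filter (fun z => ¬ z.im ≤ 0)).image conj) (by
    intro ρ hρ
    obtain ⟨z, hz, rfl⟩ := Finset.mem_image.1 hρ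
    rw [Finset.mem_filter] at hz
    obtain ⟨h1, h2, h3⟩ := hZ z hz.1
    simp only [conj_re, conj_im, abs_neg]
    exact ⟨h1, h2, h3, by linarith [not_le.1 hz.2]⟩)
  rw [Finset.sum_image (fun _ _ _ _ h => by simpa using congrArg conj h)] at h2
  have h3 : ∑ z ∈ Z.filter (fun z => ¬ z.im ≤ 0), (nn χ (conj z) : ℝ)
      = ∑ z ∈ Z.filter (fun z => ¬ z.im ≤ 0), (nn χ z : ℝ) := by
    refine Finset.sum_congr rfl fun z hz => ?_
    rw [Finset.mem_filter] at hz
    rw [nn_conj χ hχ (by linarith [(hZ z hz.1).1])]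
  linarith

theorem long : ∃ C : ℝ, 0 ≤ C ∧ ∀ (N : ℕ) [NeZero N] (χ : DirichletCharacter ℂ N),
    χ.IsPrimitive → ∀ t R : ℝ, 3 ≤ t → 0 ≤ R → ∀ Z : Finset ℂ,
      (∀ z ∈ Z, t ≤ z.re ∧ z.re ≤ t + R ∧ |z.im| < 1 / 2) →
        ∑ z ∈ Z, (nn χ z : ℝ) ≤ C * (R + 1) * Real.log (N * (t + R + 1)) := by
  classical
  obtain ⟨C, hC, h⟩ := unit
  refine ⟨C, hC, fun N _ χ hχ => ?_⟩
  replace h := h N χ hχ
  have hN1 : (0 : ℝ) < N := by exact_mod_cast Nat.pos_of_ne_zero (NeZero.ne N)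
  have key : ∀ (n : ℕ) (t : ℝ), 3 ≤ t → ∀ Z : Finset ℂ,
      (∀ z ∈ Z, t ≤ z.re ∧ z.re ≤ t + (n + 1) ∧ |z.im| < 1 / 2) →
        ∑ z ∈ Z, (nn χ z : ℝ) ≤ C * (n + 1) * Real.log (N * (t + n)) := by
    intro n t ht
    induction n with
    | zero => intro Z hZ; simpa using h t ht Z (by simpa using hZ)
    | succ n ih =>
      intro Z hZ
      rw [← Finset.sum_filter_add_sum_filter_not Z (fun z => z.re ≤ t + (n + 1))]
      have h1 := ih (Z.filter (fun z => z.re ≤ t + (n + 1))) (by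
        intro z hz
        rw [Finset.mem_filter] at hz
        obtain ⟨h1, -, h3⟩ := hZ z hz.1
        exact ⟨h1, hz.2, h3⟩)
      have hn : (0 : ℝ) ≤ n := by positivity
      have h2 := h (t + (n + 1)) (by linarith) (Z.filter (fun z => ¬ z.re ≤ t + (n + 1))) (by
        intro z hz
        rw [Finset.mem_filter] at hz
        obtain ⟨-, h2, h3⟩ := hZ z hz.1
        push_cast at h2
        exact ⟨(not_le.1 hz.2).le, by linarith, h3⟩)
      have h3 : Real.log (N * (t + n)) ≤ Real.log (N * (t + (n + 1))) := by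
        gcongr
        linarith
      have h4 : C * (n + 1) * Real.log (N * (t + n)) ≤ C * (n + 1) * Real.log (N * (t + (n + 1))) := by gcongr
      push_cast
      nlinarith
  intro t R ht hR Z hZ
  have h1 := key ⌊R⌋₊ t ht Z (by
    intro z hz
    obtain ⟨h1, h2, h3⟩ := hZ z hz
    exact ⟨h1, by linarith [Nat.lt_floor_add_one R], h3⟩)
  refine h1.trans ?_
  have h2 := Nat.floor_le hR
  have hn : (0 : ℝ) ≤ ⌊R⌋₊ := by positivity
  have h3 : 0 ≤ Real.log (N * (t + ⌊R⌋₊)) := zero_le_one.trans (one_le_log N (by linarith))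
  have h4 : Real.log (N * (t + ⌊R⌋₊)) ≤ Real.log (N * (t + R + 1)) :=
    Real.log_le_log (by positivity) (mul_le_mul_of_nonneg_left (by linarith) hN1.le)
  gcongr

theorem gam (N : ℕ) (χ : DirichletCharacter ℂ N) (t : ℝ) (ht : 2 ≤ t) :
    ‖logDeriv (DirichletCharacter.gammaFactor χ) (1 / 2 + t * I) - ((Real.log t / 2 : ℝ) : ℂ)‖
      ≤ ‖Complex.log π‖ + ‖digamma 1‖ + 9 := by
  by_cases hχ : χ.Even
  · have e : DirichletCharacter.gammaFactor χ = Gammaℝ := funext fun s => hχ.gammaFactor_def s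
    have := logDeriv_Gammaℝ_bound (σ := 1 / 2) le_rfl (by norm_num) ht
    rw [e]
    convert this using 4
    push_cast; rfl
  · have e : DirichletCharacter.gammaFactor χ = fun s => Gammaℝ (s + 1) := funext fun s => by
      simp [DirichletCharacter.gammaFactor, hχ]
    have := logDeriv_Gammaℝ_bound (σ := 3 / 2) (by norm_num) (by norm_num) ht
    rw [e, logDeriv_apply, deriv_comp_add_const, ← logDeriv_apply]
    convert this using 4
    push_cast; ring

theorem btwo : ∃ C : ℝ, 0 ≤ C ∧ ∀ (N : ℕ) [NeZero N] (χ : DirichletCharacter ℂ N),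
    Btwo χ ≤ C := by
  have hs := (ArithmeticFunction.LSeriesSummable_vonMangoldt (s := 2) (by simp)).norm
  refine ⟨_, tsum_nonneg fun _ => norm_nonneg _, fun N _ χ =>
    (summable_Btwo χ).tsum_le_tsum (fun n => LSeries.norm_term_le _ ?_) hs⟩
  rw [chiL, Pi.mul_apply, norm_mul]
  exact mul_le_of_le_one_left (norm_nonneg _) (χ.norm_le_one _)

end Unif

theorem stmtUnif : StmtUnif := by
  obtain ⟨C₁, h₁, H₁⟩ := Unif.heights
  obtain ⟨C₂, h₂, H₂⟩ := Unif.long
  obtain ⟨C₃, h₃, H₃⟩ := Unif.btwo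
  have h₄ : 0 < ‖Complex.log π‖ + ‖digamma 1‖ + 9 := by positivity
  refine ⟨C₁ + C₂ + C₃ + (‖Complex.log π‖ + ‖digamma 1‖ + 9), by positivity, fun N _ χ =>
    ⟨fun t ht => ?_, fun hχ t R ht hR Z hZ => (H₂ N χ hχ t R ht hR Z hZ).trans ?_,
      fun t ht => (Unif.gam N χ t ht).trans (by linarith), (H₃ N χ).trans (by linarith)⟩⟩
  · obtain ⟨t', ht', h⟩ := H₁ N χ t ht
    exact ⟨t', ht', fun σ hσ => ⟨(h σ hσ).1, (h σ hσ).2.trans
      (mul_le_mul_of_nonneg_right (by linarith) (sq_nonneg _))⟩⟩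
  · have := Unif.one_le_log N (t := t + R + 1) (by linarith)
    gcongr
    linarith

end Pool.Agent.MP_f259ea_nt.Q
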