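import Pool.Agent.MP_f259ea_nt.Q_Defs
import Pool.Agent.MP_f259ea_nt.A_Weight1

/-! Gaussian smoothing of the indicator function of an interval. -/

set_option autoImplicit false

open Complex MeasureTheory Set Filter Topology
open scoped Real ComplexConjugate

namespace Pool.Agent.MP_f259ea_nt.Q

namespace WeightG

/-- The Gaussian kernel. -/
noncomputable def K (z : ℂ) (s : ℝ) : ℂ := cexp (-(π * (z - s) ^ 2))

/-- The smoothed indicator function. -/
noncomputable def w (A B : ℝ) (z : ℂ) : ℂ := ∫ s in Ioc A B, K z s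

/-- The Fourier transform of the indicator function. -/
noncomputable def E (A B u : ℝ) : ℂ := ∫ s in A..B, cexp (2 * π * I * u * s)

/-- The Fourier transform of the smoothed indicator function. -/
noncomputable def W (A B u : ℝ) : ℂ := (Real.exp (-(π * u ^ 2)) : ℝ) * E A B u

lemma neg_pi_re : (-(π : ℂ)).re < 0 := by simpa using Real.pi_pos

lemma gauss_int (c d : ℂ) :
    ∫ x : ℝ, cexp (-(π : ℂ) * x ^ 2 + c * x + d) = cexp (d + c ^ 2 / (4 * π)) := by
  have hπ : (π : ℂ) ≠ 0 := ofReal_ne_zero.2 Real.pi_ne_zero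
  rw [integral_cexp_quadratic neg_pi_re, neg_neg, div_self hπ, one_cpow, one_mul]
  congr 1
  field_simp
  ring

lemma norm_K (z : ℂ) (s : ℝ) :
    ‖K z s‖ = Real.exp (π * z.im ^ 2) * Real.exp (-π * (z.re - s) ^ 2) := by
  rw [K, norm_exp, ← Real.exp_add]
  congr 1
  simp [sq]
  ring

lemma K_eq (z : ℂ) : K z = fun s : ℝ => cexp (-(π : ℂ) * s ^ 2 + 2 * π * z * s + -(π * z ^ 2)) := by
  funext s; rw [K]; congr 1; ring

lemma integrable_K (z : ℂ) : Integrable (K z) := by
  rw [K_eq]; exact integrable_cexp_quadratic' neg_pi_re _ _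

lemma integral_K (z : ℂ) : ∫ s, K z s = 1 := by
  have hπ : (π : ℂ) ≠ 0 := ofReal_ne_zero.2 Real.pi_ne_zero
  rw [K_eq, gauss_int, show -(π * z ^ 2) + (2 * π * z) ^ 2 / (4 * π) = 0 by field_simp; ring,
    Complex.exp_zero]

lemma int_g (a : ℝ) : Integrable fun s : ℝ => Real.exp (-1 * (a - s) ^ 2) :=
  (integrable_exp_neg_mul_sq one_pos).comp_sub_left a

lemma integral_g (a : ℝ) : ∫ s : ℝ, Real.exp (-1 * (a - s) ^ 2) ≤ 2 := by
  rw [integral_sub_left_eq_self (fun s : ℝ => Real.exp (-1 * s ^ 2)) volume a, integral_gaussian,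
    div_one]
  exact Real.sqrt_le_iff.2 ⟨by norm_num, by linarith [Real.pi_le_four]⟩

lemma tail {z : ℂ} (hz : |z.im| ≤ 2) {S : Set ℝ} (hS : MeasurableSet S) {D : ℝ} (hD : 0 ≤ D)
    (h : ∀ s ∈ S, D ≤ |z.re - s|) :
    ‖∫ s in S, K z s‖ ≤ 2 * Real.exp (4 * π) * Real.exp (-(2 * D ^ 2)) := by
  have hi := (int_g z.re).const_mul (Real.exp (4 * π) * Real.exp (-(2 * D ^ 2)))
  refine (norm_integral_le_of_norm_le hi.integrableOn
    ((ae_restrict_iff' hS).2 (Eventually.of_forall fun s hs => ?_))).trans ?_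
  · rw [norm_K, ← Real.exp_add, ← Real.exp_add, ← Real.exp_add]
    refine Real.exp_le_exp.2 ?_
    have h1 : z.im ^ 2 ≤ 2 ^ 2 := by rw [← sq_abs]; gcongr
    have h2 : D ^ 2 ≤ (z.re - s) ^ 2 := by rw [← sq_abs (z.re - s)]; gcongr; exact h s hs
    have h3 := Real.pi_gt_three
    nlinarith [sq_nonneg (z.re - s)]
  · refine (setIntegral_le_integral hi (Eventually.of_forall fun x => by positivity)).trans ?_
    rw [integral_const_mul]
    have := mul_le_mul_of_nonneg_left (integral_g z.re)
      (show 0 ≤ Real.exp (4 * π) * Real.exp (-(2 * D ^ 2)) by positivity)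
    linarith

lemma w_diff {A B : ℝ} (hAB : A ≤ B) : Differentiable ℂ (w A B) := by
  have hg : Differentiable ℂ fun z : ℂ => cexp (-(π * z ^ 2)) := by fun_prop
  obtain ⟨G, hG⟩ := hg.isExactOn_univ
  have hG' : Differentiable ℂ G := fun z => (hG z (mem_univ z)).differentiableAt
  have : w A B = fun z => -G (z - B) - -G (z - A) := by
    funext z
    rw [w, ← intervalIntegral.integral_of_le hAB]
    refine intervalIntegral.integral_eq_sub_of_hasDerivAt (f := fun s : ℝ => -G (z - s))
      (fun s _ => ?_) (integrable_K z).intervalIntegrable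
    have h1 := ((hG (z - s) (mem_univ _)).comp (s : ℂ) ((hasDerivAt_id' (s : ℂ)).const_sub z)).neg
    exact h1.comp_ofReal.congr_deriv (by simp [K])
  rw [this]
  fun_prop

lemma w_conj (A B : ℝ) (z : ℂ) : w A B (conj z) = conj (w A B z) := by
  rw [w, w, ← integral_conj]
  congr 1; funext s
  rw [K, K, ← Complex.exp_conj]
  congr 1
  simp

lemma line_eq (v u s : ℝ) :
    (fun t : ℝ => K (t + v * I) s * cexp (2 * π * I * u * (t + v * I))) = fun t : ℝ =>
      cexp (-(π : ℂ) * t ^ 2 + (2 * π * (I * u - (v * I - s))) * t +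
        (-(π * (v * I - s) ^ 2) + 2 * π * I * u * (v * I))) := by
  funext t; rw [K, ← Complex.exp_add]; congr 1; ring

lemma line_int (v u s : ℝ) :
    ∫ t : ℝ, K (t + v * I) s * cexp (2 * π * I * u * (t + v * I)) =
      (Real.exp (-(π * u ^ 2)) : ℝ) * cexp (2 * π * I * u * s) := by
  have hπ : (π : ℂ) ≠ 0 := ofReal_ne_zero.2 Real.pi_ne_zero
  rw [line_eq, gauss_int, ofReal_exp, ← Complex.exp_add]
  congr 1
  push_cast
  field_simp
  linear_combination (4 * (u : ℂ) ^ 2) * I_sq

lemma prod_int (A B v u : ℝ) :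
    Integrable (Function.uncurry fun t s : ℝ =>
      K (t + v * I) s * cexp (2 * π * I * u * (t + v * I)))
      (volume.prod (volume.restrict (Ioc A B))) := by
  refine (integrable_prod_iff' (Continuous.aestronglyMeasurable ?_)).2 ⟨?_, ?_⟩
  · unfold K Function.uncurry; fun_prop
  · refine Eventually.of_forall fun s => ?_
    have h := line_eq v u s
    simp only [Function.uncurry_apply_pair]
    rw [h]
    exact integrable_cexp_quadratic' neg_pi_re _ _
  · have h : ∀ s : ℝ, ∫ t : ℝ, ‖K (t + v * I) s * cexp (2 * π * I * u * (t + v * I))‖ =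
        ∫ t : ℝ, ‖K (t + v * I) 0 * cexp (2 * π * I * u * (t + v * I))‖ := by
      intro s
      rw [← integral_sub_right_eq_self
        (fun t : ℝ => ‖K (t + v * I) 0 * cexp (2 * π * I * u * (t + v * I))‖) s]
      congr 1; funext t
      rw [norm_mul, norm_mul, norm_K, norm_K, norm_exp, norm_exp]
      simp
    simp only [Function.uncurry_apply_pair, h]
    exact integrable_const _

lemma w_int (A B v : ℝ) : Integrable fun t : ℝ => w A B (t + v * I) := by
  simpa [w] using (prod_int A B v 0).integral_prod_left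

lemma w_fourier {A B : ℝ} (hAB : A ≤ B) (v u : ℝ) :
    ∫ t : ℝ, w A B (t + v * I) * cexp (2 * π * I * u * (t + v * I)) = W A B u := by
  simp_rw [w, ← integral_mul_const]
  rw [integral_integral_swap (prod_int A B v u)]
  simp_rw [line_int]
  rw [integral_const_mul, W, E, intervalIntegral.integral_of_le hAB]

lemma norm_e (u s : ℝ) : ‖cexp (2 * π * I * u * s)‖ = 1 := by
  simpa using norm_exp_I (2 * π) u s

lemma norm_E {A B : ℝ} (hAB : A ≤ B) (u : ℝ) : ‖E A B u‖ ≤ B - A := by
  refine (intervalIntegral.norm_integral_le_of_norm_le_const (C := 1)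
    fun s _ => (norm_e u s).le).trans ?_
  rw [one_mul, abs_of_nonneg (sub_nonneg.2 hAB)]

lemma norm_W (A B u : ℝ) : ‖W A B u‖ = Real.exp (-(π * u ^ 2)) * ‖E A B u‖ := by
  rw [W, norm_mul, norm_real, Real.norm_of_nonneg (Real.exp_pos _).le]

lemma exp_le (u : ℝ) : Real.exp (-(π * u ^ 2)) ≤ 1 :=
  Real.exp_le_one_iff.2 (neg_nonpos.2 (by positivity))

lemma decay_E (A B u : ℝ) : |u| * ‖E A B u‖ ≤ 1 := by
  rcases eq_or_ne u 0 with rfl | hu
  · simp
  have hπ : (π : ℂ) ≠ 0 := ofReal_ne_zero.2 Real.pi_ne_zero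
  have hc : (2 * π * I * u : ℂ) ≠ 0 :=
    mul_ne_zero (mul_ne_zero (mul_ne_zero two_ne_zero hπ) I_ne_zero) (ofReal_ne_zero.2 hu)
  have hn : ‖(2 * π * I * u : ℂ)‖ = 2 * π * |u| := by simp [abs_of_pos Real.pi_pos]
  have h0 : 0 < |u| := abs_pos.2 hu
  have h1 : ‖cexp (2 * π * I * u * B) - cexp (2 * π * I * u * A)‖ ≤ 2 :=
    (norm_sub_le _ _).trans (by rw [norm_e, norm_e]; norm_num)
  rw [E, integral_exp_mul_complex hc, norm_div, hn, ← mul_div_assoc, div_le_one (by positivity)]
  have := Real.pi_gt_three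
  nlinarith

lemma lip_e (u v s : ℝ) :
    ‖cexp (2 * π * I * u * s) - cexp (2 * π * I * v * s)‖ ≤ 2 * π * |s| * |u - v| := by
  have h : cexp (2 * π * I * u * s) - cexp (2 * π * I * v * s) =
      cexp (2 * π * I * v * s) * (cexp (I * (2 * π * s * (u - v) : ℝ)) - 1) := by
    rw [mul_sub, ← Complex.exp_add, mul_one]
    congr 2
    push_cast
    ring
  rw [h, norm_mul, norm_e, one_mul]
  refine Real.norm_exp_I_mul_ofReal_sub_one_le.trans (le_of_eq ?_)
  rw [Real.norm_eq_abs, abs_mul, abs_mul, abs_of_pos (by positivity : 0 < 2 * π)]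

lemma lip_E {T A B : ℝ} (hT : 1 ≤ T) (hA : T ≤ A) (hAB : A ≤ B) (hB : B ≤ 2 * T) (u v : ℝ) :
    ‖E A B u - E A B v‖ ≤ 16 * T ^ 2 * |u - v| := by
  rw [E, E, ← intervalIntegral.integral_sub (Continuous.intervalIntegrable (by fun_prop) _ _)
    (Continuous.intervalIntegrable (by fun_prop) _ _)]
  refine (intervalIntegral.norm_integral_le_of_norm_le_const (C := 2 * 4 * (2 * T) * |u - v|)
    fun s hs => (lip_e u v s).trans ?_).trans ?_
  · rw [uIoc_of_le hAB] at hs
    have h1 : |s| ≤ 2 * T := by rw [abs_of_pos (by linarith [hs.1])]; linarith [hs.2]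
    gcongr
    exact Real.pi_le_four
  · rw [abs_of_nonneg (sub_nonneg.2 hAB)]
    calc 2 * 4 * (2 * T) * |u - v| * (B - A) ≤ 2 * 4 * (2 * T) * |u - v| * T := by
          gcongr; linarith
      _ = 16 * T ^ 2 * |u - v| := by ring

lemma lip_g (u v : ℝ) : |Real.exp (-(π * u ^ 2)) - Real.exp (-(π * v ^ 2))| ≤ 4 * |u - v| := by
  have hd : ∀ x : ℝ, HasDerivAt (fun x : ℝ => Real.exp (-(π * x ^ 2)))
      (Real.exp (-(π * x ^ 2)) * -(π * (2 * x))) x := fun x =>
    ((((hasDerivAt_id' x).pow 2).const_mul π).neg.exp).congr_deriv (by simp)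
  have := convex_univ.norm_image_sub_le_of_norm_hasDerivWithin_le (C := 4)
    (fun x _ => (hd x).hasDerivWithinAt) (fun x _ => ?_) (mem_univ v) (mem_univ u)
  · simpa only [Real.norm_eq_abs] using this
  rw [Real.norm_eq_abs, abs_mul, abs_neg, abs_mul, abs_mul, abs_two, abs_of_pos Real.pi_pos,
    abs_of_pos (Real.exp_pos _), Real.exp_neg, inv_mul_le_iff₀ (Real.exp_pos _)]
  have h1 := Real.add_one_le_exp (π * x ^ 2)
  have h2 : 2 * |x| ≤ π * x ^ 2 + 1 := by
    have h3 := Real.pi_gt_three
    rw [← sq_abs x]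
    nlinarith [sq_nonneg (|x| - 1), sq_nonneg |x|]
  have h4 := Real.pi_le_four
  have h5 := abs_nonneg x
  nlinarith

lemma gw {T A B : ℝ} (hT : 1 ≤ T) (hA : T ≤ A) (hAB : A ≤ B) (hB : B ≤ 2 * T) :
    GW T (W A B) := by
  have hE : ∀ u, ‖E A B u‖ ≤ T := fun u => (norm_E hAB u).trans (by linarith)
  have hc : Continuous (W A B) := by
    unfold W E
    exact Continuous.mul (by fun_prop)
      (intervalIntegral.continuous_parametric_intervalIntegral_of_continuous' (by fun_prop) _ _)
  have hg : ∀ u, ‖W A B u‖ ≤ T * Real.exp (-(π * u ^ 2)) := fun u => by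
    rw [norm_W, mul_comm]
    exact mul_le_mul_of_nonneg_right (hE u) (Real.exp_pos _).le
  refine ⟨hc, fun u => ?_, ?_, ?_, hg, fun u => ?_, fun u v => ?_⟩
  · simp only [W, E, map_mul, conj_ofReal, neg_sq]
    rw [intervalIntegral.integral_of_le hAB, intervalIntegral.integral_of_le hAB, ← integral_conj]
    congr 2; funext s
    rw [← Complex.exp_conj]
    congr 1
    simp [map_ofNat]
  · refine ((integrable_exp_neg_mul_sq Real.pi_pos).const_mul (T ^ 2)).mono'
      (hc.norm.pow 2).aestronglyMeasurable (Eventually.of_forall fun u => ?_)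
    rw [Real.norm_of_nonneg (sq_nonneg _), neg_mul]
    calc ‖W A B u‖ ^ 2 ≤ (T * Real.exp (-(π * u ^ 2))) ^ 2 := by gcongr; exact hg u
      _ = T ^ 2 * (Real.exp (-(π * u ^ 2)) * Real.exp (-(π * u ^ 2))) := by ring
      _ ≤ T ^ 2 * Real.exp (-(π * u ^ 2)) := by
          gcongr
          exact mul_le_of_le_one_left (Real.exp_pos _).le (exp_le u)
  · have hf : Integrable ((Ioc A B).indicator fun _ => (1 : ℂ)) :=
      (integrable_indicator_iff measurableSet_Ioc).2 (by simp)
    have h := planch_gauss hf (M := 1) (fun t => by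
      by_cases h : t ∈ Ioc A B <;> simp [h]) two_pos
    have h1 : ∀ u : ℝ, ∫ t : ℝ, (Ioc A B).indicator (fun _ => (1 : ℂ)) t *
        cexp (2 * π * I * u * t) = E A B u := fun u => by
      rw [E, intervalIntegral.integral_of_le hAB, ← integral_indicator measurableSet_Ioc]
      congr 1; funext t
      by_cases h : t ∈ Ioc A B <;> simp [h]
    have h2 : ∫ t : ℝ, ‖(Ioc A B).indicator (fun _ => (1 : ℂ)) t‖ = B - A := by
      simp_rw [norm_indicator_eq_indicator_norm]
      rw [integral_indicator measurableSet_Ioc]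
      simp [hAB]
    simp_rw [h1] at h
    rw [h2] at h
    refine le_trans (le_of_eq ?_) (h.trans (by linarith))
    congr 1; funext u
    rw [norm_W, mul_pow, ← Real.exp_nat_mul, mul_comm]
    congr 2
    push_cast
    ring
  · rw [norm_W, mul_left_comm]
    exact mul_le_one₀ (exp_le u) (by positivity) (decay_E A B u)
  · have h : W A B u - W A B v =
        ((Real.exp (-(π * u ^ 2)) - Real.exp (-(π * v ^ 2)) : ℝ) : ℂ) * E A B u +
          (Real.exp (-(π * v ^ 2)) : ℝ) * (E A B u - E A B v) := by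
      rw [W, W, ofReal_sub]; ring
    rw [h]
    refine (norm_add_le _ _).trans ?_
    rw [norm_mul, norm_mul, norm_real, norm_real, Real.norm_eq_abs,
      Real.norm_of_nonneg (Real.exp_pos _).le]
    have h1 : T ≤ T ^ 2 := by nlinarith
    calc _ ≤ 4 * |u - v| * T ^ 2 + 1 * (16 * T ^ 2 * |u - v|) := by
          gcongr
          · exact lip_g u v
          · exact (hE u).trans h1
          · exact exp_le v
          · exact lip_E hT hA hAB hB u v
      _ = 20 * T ^ 2 * |u - v| := by ring

lemma w_out {A B : ℝ} {z : ℂ} (hz : |z.im| ≤ 2) {D : ℝ} (hD : 0 ≤ D)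
    (h : z.re ≤ A - D ∨ B + D ≤ z.re) :
    ‖w A B z‖ ≤ 2 * Real.exp (4 * π) * Real.exp (-(2 * D ^ 2)) := by
  refine tail hz measurableSet_Ioc hD fun s hs => ?_
  rcases h with h | h
  · exact le_abs.2 (Or.inr (by linarith [hs.1]))
  · exact le_abs.2 (Or.inl (by linarith [hs.2]))

end WeightG

open WeightG in
theorem stmtWeightG : StmtWeightG := by
  have hc := Real.exp_pos (4 * π)
  have hexp : ∀ D : ℝ, 2 * Real.exp (4 * π) * Real.exp (-(2 * D ^ 2)) ≤
      8 * Real.exp (4 * π) * Real.exp (-D ^ 2) := fun D => by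
    gcongr
    · norm_num
    · nlinarith [sq_nonneg D]
  refine ⟨8 * Real.exp (4 * π), by positivity, fun T A B hT hA hAB hB =>
    ⟨w A B, W A B, w_diff hAB, w_conj A B, gw hT hA hAB hB, by simp [W, E],
      fun v _ => ⟨w_int A B v, w_fourier hAB v⟩, fun z hz => ?_, fun z D hz hD h1 h2 => ?_,
      fun z D hz hD h => (w_out hz (by linarith) h).trans (hexp D), fun v D hv hD => ?_⟩⟩
  · have := tail hz (measurableSet_Ioc (a := A) (b := B)) le_rfl fun s _ => abs_nonneg _
    simpa [w] using this.trans (hexp 0)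
  · rw [← integral_K z, ← integral_add_compl (measurableSet_Ioc (a := A) (b := B))
      (integrable_K z), w, sub_add_cancel_left, norm_neg]
    refine (tail hz measurableSet_Ioc.compl (by linarith) fun s hs => ?_).trans (hexp D)
    rw [mem_compl_iff, mem_Ioc, not_and_or, not_lt, not_le] at hs
    rcases hs with hs | hs
    · exact le_abs.2 (Or.inl (by linarith))
    · exact le_abs.2 (Or.inr (by linarith))
  · have hi := ((int_g A).add (int_g B)).const_mul (2 * Real.exp (4 * π) * Real.exp (-D ^ 2))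
    have key : ∀ (a t : ℝ), D ≤ |a - t| → Real.exp (-(2 * |a - t| ^ 2)) ≤
        Real.exp (-D ^ 2) * Real.exp (-1 * (a - t) ^ 2) := fun a t h => by
      rw [← Real.exp_add, ← sq_abs (a - t)]
      refine Real.exp_le_exp.2 ?_
      nlinarith
    refine (setIntegral_mono_on (w_int A B v).norm.integrableOn hi.integrableOn
      measurableSet_Icc.compl fun t ht => ?_).trans ?_
    · have him : |((t : ℂ) + v * I).im| ≤ 2 := by simpa using hv
      have hre : ((t : ℂ) + v * I).re = t := by simp
      rw [mem_compl_iff, mem_Icc, not_and_or, not_le, not_le] at ht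
      simp only [Pi.add_apply]
      rcases ht with ht | ht
      · have h1 : |A - t| = A - t := abs_of_nonneg (by linarith)
        refine (w_out him (abs_nonneg (A - t)) (Or.inl (by rw [hre, h1]; linarith))).trans ?_
        rw [mul_assoc (2 * Real.exp (4 * π))]
        gcongr
        refine (key A t (by rw [h1]; linarith)).trans ?_
        gcongr
        exact le_add_of_nonneg_right (Real.exp_pos _).le
      · have h1 : |B - t| = -(B - t) := abs_of_nonpos (by linarith)
        refine (w_out him (abs_nonneg (B - t)) (Or.inr (by rw [hre, h1]; linarith))).trans ?_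
        rw [mul_assoc (2 * Real.exp (4 * π))]
        gcongr
        refine (key B t (by rw [h1]; linarith)).trans ?_
        gcongr
        exact le_add_of_nonneg_left (Real.exp_pos _).le
    · refine (setIntegral_le_integral hi (Eventually.of_forall fun x => by
        simp only [Pi.add_apply, Pi.zero_apply]; positivity)).trans ?_
      simp only [Pi.add_apply]
      rw [integral_const_mul, integral_add (int_g A) (int_g B)]
      have := mul_le_mul_of_nonneg_left (add_le_add (integral_g A) (integral_g B))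
        (show 0 ≤ 2 * Real.exp (4 * π) * Real.exp (-D ^ 2) by positivity)
      linarith

end Pool.Agent.MP_f259ea_nt.Q
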