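import Pool.Agent.MP_f259ea_nt.Q_Arcs
import Pool.Agent.MP_f259ea_nt.Q_Arith
import Pool.Agent.MP_f259ea_nt.Q_Bad
import Pool.Agent.MP_f259ea_nt.Q_Card
import Pool.Agent.MP_f259ea_nt.Q_Char
import Pool.Agent.MP_f259ea_nt.Q_Conv
import Pool.Agent.MP_f259ea_nt.Q_Gain
import Pool.Agent.MP_f259ea_nt.Q_Gauss
import Pool.Agent.MP_f259ea_nt.Q_LS2
import Pool.Agent.MP_f259ea_nt.Q_MajInt
import Pool.Agent.MP_f259ea_nt.Q_Mert
import Pool.Agent.MP_f259ea_nt.Q_Minor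
import Pool.Agent.MP_f259ea_nt.Q_Orth
import Pool.Agent.MP_f259ea_nt.Q_PerChi
import Pool.Agent.MP_f259ea_nt.Q_Prime
import Pool.Agent.MP_f259ea_nt.Q_Simple
import Pool.Agent.MP_f259ea_nt.Q_Tail
import Pool.Agent.MP_f259ea_nt.Q_Tri
import Pool.Agent.MP_f259ea_nt.Q_Unfold
import Pool.Agent.MP_f259ea_nt.Q_Unif
import Pool.Agent.MP_f259ea_nt.Q_WeightG
import Pool.Agent.MP_f259ea_nt.B_Main

/-!
Conductor aspect: assembling the lemmas.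
-/

set_option autoImplicit false

open Complex MeasureTheory Finset Filter Topology DirichletCharacter
open scoped Real ComplexConjugate Classical

namespace Pool.Agent.MP_f259ea_nt.Q

theorem ls2 : StmtLS2 :=
  stmtLS2 stmtArith stmtOrth (stmtChar stmtOrth) stmtUnfold stmtArcs (stmtGall stmtUnfold)
    (stmtMinor stmtRed stmtTri) (stmtMajor stmtArith stmtOrth (stmtChar stmtOrth) stmtUnfold)
    (stmtInter stmtArith (stmtChar stmtOrth) stmtUnfold stmtArcs)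

theorem prime_of (hD : StmtDiag) : StmtPrime :=
  stmtPrime stmtOrth (stmtLS0 stmtUnfold stmtArcs (stmtGall stmtUnfold)) stmtLS1 stmtTail hD
    (stmtBad stmtMert2) (stmtGain ls2 stmtModel)

theorem perChi : StmtPerChi := stmtPerChi stmtUnif stmtWeightG stmtTail

theorem simple_of (hD : StmtDiag) {d : BData} (hd : d.Good) (hJ : d.J = 0) {c : ℝ} (hc0 : 0 ≤ c)
    (hc : J2 d.K < 2 - c) :
    ∃ θ : ℝ, 0 < θ ∧ ∃ Q₀ : ℕ, ∀ Q : ℕ, Q₀ ≤ Q → ∀ T : ℝ, Real.log Q ≤ T → T ≤ (Q : ℝ) ^ θ →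
      c * ∑ q ∈ Finset.range Q, ∑ᶠ χ ∈ {χ : DirichletCharacter ℂ (q + 1) | χ.IsPrimitive},
          ∑ᶠ ρ ∈ {s : ℂ | 0 < s.re ∧ s.re < 1 ∧ T < s.im ∧ s.im ≤ 2 * T ∧ LFunction χ s = 0},
            ((analyticOrderAt (LFunction χ) ρ).toNat : ℝ)
        ≤ ∑ q ∈ Finset.range Q, ∑ᶠ χ ∈ {χ : DirichletCharacter ℂ (q + 1) | χ.IsPrimitive},
          ({s : ℂ | s.re = 1 / 2 ∧ T < s.im ∧ s.im ≤ 2 * T ∧
            analyticOrderAt (LFunction χ) s = 1}.ncard : ℝ) := by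
  obtain ⟨θ, hθ, Q₀, h⟩ := fam stmtUnif stmtOrth (stmtCard stmtOrth) (prime_of hD) perChi
    (K := d.K) BData.K_continuous (BData.K_nonneg hd) (fun a ha => BData.K_zero hd ha)
    (α := 2) (β := 1) (c := c) (P := fun x m => x.im = 0 ∧ m = 1) one_pos hc0
    (fun ℓ z m hℓ => by simp [hℓ.ne']) (stmtG_of_S (stmtSMain d hd hJ)) (by linarith)
  refine ⟨θ, hθ, Q₀, fun Q hQ T h1 h2 => ?_⟩
  obtain ⟨hT, h⟩ := h Q hQ T h1 h2
  simp only [finsum_prim]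
  convert h using 2
  · exact sum_congr rfl fun q _ => sum_congr rfl fun χ hχ => count_all (mem_prim.1 hχ) hT
  · refine sum_congr rfl fun χ hχ => ?_
    rw [count_simple (mem_prim.1 hχ) hT]
    congr

theorem distinct_of (hD : StmtDiag) {d : BData} (hd : d.Good) (hρ : 0 < d.ρ) {c : ℝ}
    (hc0 : 0 ≤ c) (hc : c * (2 * d.ρ) < 3 * d.ρ - J2 d.K) :
    ∃ θ : ℝ, 0 < θ ∧ ∃ Q₀ : ℕ, ∀ Q : ℕ, Q₀ ≤ Q → ∀ T : ℝ, Real.log Q ≤ T → T ≤ (Q : ℝ) ^ θ →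
      c * ∑ q ∈ Finset.range Q, ∑ᶠ χ ∈ {χ : DirichletCharacter ℂ (q + 1) | χ.IsPrimitive},
          ∑ᶠ ρ ∈ {s : ℂ | 0 < s.re ∧ s.re < 1 ∧ T < s.im ∧ s.im ≤ 2 * T ∧ LFunction χ s = 0},
            ((analyticOrderAt (LFunction χ) ρ).toNat : ℝ)
        ≤ ∑ q ∈ Finset.range Q, ∑ᶠ χ ∈ {χ : DirichletCharacter ℂ (q + 1) | χ.IsPrimitive},
          ({s : ℂ | 0 < s.re ∧ s.re < 1 ∧ T < s.im ∧ s.im ≤ 2 * T ∧
            LFunction χ s = 0}.ncard : ℝ) := by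
  obtain ⟨θ, hθ, Q₀, h⟩ := fam stmtUnif stmtOrth (stmtCard stmtOrth) (prime_of hD) perChi
    (K := d.K) BData.K_continuous (BData.K_nonneg hd) (fun a ha => BData.K_zero hd ha)
    (α := 3 * d.ρ) (β := 2 * d.ρ) (c := c) (P := fun _ _ => True) (by linarith) hc0
    (fun ℓ z m hℓ => Iff.rfl) (stmtG_of_B (stmtBMain d hd)) hc
  refine ⟨θ, hθ, Q₀, fun Q hQ T h1 h2 => ?_⟩
  obtain ⟨hT, h⟩ := h Q hQ T h1 h2
  simp only [finsum_prim]
  convert h using 2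
  · exact sum_congr rfl fun q _ => sum_congr rfl fun χ hχ => count_all (mem_prim.1 hχ) hT
  · refine sum_congr rfl fun χ hχ => ?_
    rw [count_distinct (mem_prim.1 hχ) hT]
    simp

end Pool.Agent.MP_f259ea_nt.Q
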