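import Pool.Agent.MP_f259ea_nt.Q_Defs

/-! The signed density of fractions on the minor arcs. -/

set_option autoImplicit false

open Complex MeasureTheory Finset
open scoped Real ComplexConjugate Classical ArithmeticFunction.Moebius
  ArithmeticFunction.vonMangoldt Nat

namespace Pool.Agent.MP_f259ea_nt.Q

namespace Q_Minor

theorem hyper (F : ℕ → ℕ → ℝ) (X : ℕ) :
    ∑ d ∈ Ioc 0 X, ∑ e ∈ d.divisors, F (d / e) e = ∑ f ∈ Ioc 0 X, ∑ e ∈ Ioc 0 (X / f), F f e := by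
  rw [sum_sigma', sum_sigma']
  refine sum_nbij' (fun p => ⟨p.1 / p.2, p.2⟩) (fun p => ⟨p.1 * p.2, p.2⟩) ?_ ?_ ?_ ?_ ?_
  · rintro ⟨d, e⟩ h
    simp only [mem_sigma, mem_Ioc, Nat.mem_divisors] at h ⊢
    obtain ⟨⟨h1, h2⟩, ⟨f, rfl⟩, -⟩ := h
    have he : 0 < e := Nat.pos_of_mul_pos_right h1
    have hf : 0 < f := Nat.pos_of_mul_pos_left h1
    rw [Nat.mul_div_cancel_left _ he]
    exact ⟨⟨hf, (Nat.le_mul_of_pos_left f he).trans h2⟩, he, (Nat.le_div_iff_mul_le hf).2 h2⟩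
  · rintro ⟨f, e⟩ h
    simp only [mem_sigma, mem_Ioc, Nat.mem_divisors] at h ⊢
    obtain ⟨⟨h1, h2⟩, h3, h4⟩ := h
    rw [Nat.le_div_iff_mul_le h1, mul_comm] at h4
    exact ⟨⟨Nat.mul_pos h1 h3, h4⟩, dvd_mul_left _ _, (Nat.mul_pos h1 h3).ne'⟩
  · rintro ⟨d, e⟩ h
    simp only [mem_sigma, mem_Ioc, Nat.mem_divisors] at h
    simp only [Nat.div_mul_cancel h.2.1]
  · rintro ⟨f, e⟩ h
    simp only [mem_sigma, mem_Ioc] at h
    simp only [Nat.mul_div_cancel _ h.2.1]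
  · rintro ⟨d, e⟩ _
    rfl

theorem phi_div {e : ℕ} (he : 0 < e) :
    (φ e : ℝ) / e = ∑ x ∈ e.divisors, (μ (e / x) : ℝ) / ((e / x : ℕ) : ℝ) := by
  have h := (ArithmeticFunction.sum_eq_iff_sum_mul_moebius_eq (R := ℝ) (f := fun n => (φ n : ℝ))
    (g := fun n => (n : ℝ))).1 (fun n _ => by exact_mod_cast Nat.sum_totient n) e he
  rw [← h, Nat.sum_divisorsAntidiagonal' (f := fun x y => (μ x : ℝ) * (y : ℝ)), sum_div]
  refine sum_congr rfl fun x hx => ?_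
  obtain ⟨f, rfl⟩ := Nat.dvd_of_mem_divisors hx
  have hx0 : 0 < x := Nat.pos_of_mul_pos_right he
  have hf : 0 < f := Nat.pos_of_mul_pos_left he
  rw [Nat.mul_div_cancel_left _ hx0]
  push_cast
  field_simp

theorem count_eq {η θ : ℝ} (hη : η < 1 / 2) {e : ℕ} (he : 0 < e) :
    ((range e).filter fun b : ℕ => dZ (θ - (b : ℝ) / e) ≤ η).card = cnt θ η e := by
  have he' : (0 : ℝ) < e := by exact_mod_cast he
  have heZ : (0 : ℤ) < e := by exact_mod_cast he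
  have key : ∀ (b : ℕ) (r : ℤ), (b + e * r : ℤ) ∈ Icc ⌈(θ - η) * e⌉ ⌊(θ + η) * e⌋ ↔
      |θ - (b : ℝ) / e - r| ≤ η := by
    intro b r
    have e1 : θ - (b : ℝ) / e - r = (θ * e - (b + e * r)) / e := by field_simp; ring
    rw [mem_Icc, Int.ceil_le, Int.le_floor, e1, abs_div, abs_of_pos he', div_le_iff₀ he', abs_le]
    push_cast
    constructor <;> rintro ⟨h1, h2⟩ <;> constructor <;> linarith
  refine card_bij (fun b _ => (b : ℤ) + e * round (θ - (b : ℝ) / e)) ?_ ?_ ?_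
  · intro b hb
    exact (key b _).2 (mem_filter.1 hb).2
  · intro a ha b hb h
    have ha' : a < e := mem_range.1 (mem_filter.1 ha).1
    have hb' : b < e := mem_range.1 (mem_filter.1 hb).1
    have := congrArg (· % (e : ℤ)) h
    simp only [Int.add_mul_emod_self_left] at this
    rw [Int.emod_eq_of_lt (by omega) (by omega), Int.emod_eq_of_lt (by omega) (by omega)] at this
    exact_mod_cast this
  · intro m hm
    have h0 := Int.emod_nonneg m heZ.ne'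
    have h1 := Int.emod_lt_of_pos m heZ
    obtain ⟨b, hb⟩ := Int.eq_ofNat_of_zero_le h0
    have h2 : m = b + e * (m / e) := by rw [← hb]; exact (Int.emod_add_mul_ediv m e).symm
    rw [h2, key] at hm
    have h3 : round (θ - (b : ℝ) / e) = m / e := by
      rw [round_eq_iff]
      rw [abs_le] at hm
      constructor <;> linarith [hm.1, hm.2]
    refine ⟨b, mem_filter.2 ⟨mem_range.2 (by omega), ?_⟩, by rw [h3, ← h2]⟩
    rw [dZ, h3]; exact hm

theorem sum_nB (hR : StmtRed) {η θ : ℝ} (hη : η < 1 / 2) {e : ℕ} (he : 0 < e) :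
    ∑ q ∈ e.divisors, (nB q η θ : ℝ) = cnt θ η e := by
  have h := hR (fun x => if dZ (θ - x) ≤ η then 1 else 0) e he
  rw [← count_eq hη he, card_filter]
  push_cast
  rw [h]
  refine sum_congr rfl fun q _ => ?_
  rw [nB, nS, card_filter]
  push_cast
  rfl

theorem step1 (hR : StmtRed) (Q₁ Q : ℕ) {η θ : ℝ} (hη : η < 1 / 2) :
    ∑ q ∈ Icc 1 Q, cq Q₁ Q q * nB q η θ - 2 * η * ∑ d ∈ Ioc Q₁ Q, phiS d =
      ∑ d ∈ Ioc Q₁ Q, ∑ e ∈ d.divisors,
        (μ (d / e) : ℝ) * ((φ e : ℝ) / e * (cnt θ η e - 2 * η * e)) := by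
  simp only [cq, cc, sum_filter, sum_mul, phiS, mul_sum]
  rw [sum_comm, ← sum_sub_distrib]
  refine sum_congr rfl fun d hd => ?_
  have h1 : ∀ q ∈ Icc 1 Q, (if q ∣ d then ∑ e ∈ d.divisors,
      if q ∣ e then (μ (d / e) : ℝ) * ((φ e : ℝ) / e) else 0 else 0) * (nB q η θ : ℝ) =
      ∑ e ∈ d.divisors, (μ (d / e) : ℝ) * ((φ e : ℝ) / e) * if q ∣ e then (nB q η θ : ℝ) else 0 := by
    intro q _
    split_ifs with h
    · rw [sum_mul]
      refine sum_congr rfl fun e _ => ?_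
      split_ifs <;> simp
    · rw [zero_mul]
      refine (sum_eq_zero fun e he => ?_).symm
      rw [if_neg fun h' => h (h'.trans (Nat.dvd_of_mem_divisors he)), mul_zero]
  rw [sum_congr rfl h1, sum_comm, ← sum_sub_distrib]
  refine sum_congr rfl fun e he => ?_
  have he0 : 0 < e := Nat.pos_of_mem_divisors he
  have he1 : e ≤ Q := (Nat.divisor_le he).trans (mem_Ioc.1 hd).2
  have h2 : (Icc 1 Q).filter (· ∣ e) = e.divisors := by
    ext q
    simp only [mem_filter, mem_Icc, Nat.mem_divisors]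
    exact ⟨fun h => ⟨h.2, he0.ne'⟩, fun h => ⟨⟨Nat.pos_of_dvd_of_pos h.1 he0,
      (Nat.le_of_dvd he0 h.1).trans he1⟩, h.1⟩⟩
  rw [← mul_sum, ← sum_filter, h2, sum_nB hR hη he0]
  have : (e : ℝ) ≠ 0 := by exact_mod_cast he0.ne'
  field_simp

theorem step2 (h : ℕ → ℝ) (X : ℕ) :
    ∑ d ∈ Ioc 0 X, ∑ e ∈ d.divisors, (μ (d / e) : ℝ) * ((φ e : ℝ) / e * h e) =
      ∑ f ∈ Ioc 0 X, (μ f : ℝ) * ∑ g ∈ Ioc 0 (X / f), (μ g : ℝ) / g *
        ∑ x ∈ Ioc 0 (X / f / g), h (g * x) := by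
  rw [hyper (fun f e => (μ f : ℝ) * ((φ e : ℝ) / e * h e))]
  refine sum_congr rfl fun f _ => ?_
  rw [← mul_sum]
  congr 1
  simp only [mul_sum]
  rw [← hyper (fun g x => (μ g : ℝ) / g * h (g * x))]
  refine sum_congr rfl fun e he => ?_
  rw [phi_div (mem_Ioc.1 he).1, sum_mul]
  refine sum_congr rfl fun x hx => ?_
  rw [Nat.div_mul_cancel (Nat.dvd_of_mem_divisors hx)]

theorem sum_id (Y : ℕ) : ∑ x ∈ Ioc 0 Y, (2 * x : ℝ) = Y ^ 2 + Y := by
  induction Y with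
  | zero => simp
  | succ Y ih => rw [sum_Ioc_succ_top (Nat.zero_le Y), ih]; push_cast; ring

theorem step3 (hT : StmtTri) {Q : ℕ} {η W θ : ℝ} (hQ : 1 ≤ Q) (hη : 0 < η) (hW : 0 < W)
    (hm : ∀ (a : ℤ) (k : ℕ), 1 ≤ k → W ≤ Q * (|k * θ - a| + k * η)) {g : ℕ} (hg : 0 < g) (Y : ℕ) :
    |∑ x ∈ Ioc 0 Y, ((cnt θ η (g * x) : ℝ) - 2 * η * (g * x : ℕ))| ≤
      g * (Y * (20 * (√η + η + η * Q / W))) := by
  rcases Nat.eq_zero_or_pos Y with rfl | hY
  · simp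
  have hg1 : (1 : ℝ) ≤ g := by exact_mod_cast hg
  have hY' : (0 : ℝ) < Y := by exact_mod_cast hY
  have hQ' : (0 : ℝ) < Q := by exact_mod_cast hQ
  set ε : ℝ := g * η with hε
  have hε0 : 0 < ε := by positivity
  have hs : 0 < √ε := Real.sqrt_pos.2 hε0
  have hss : √ε * √ε = ε := Real.mul_self_sqrt hε0.le
  obtain ⟨r, hr1, hr2⟩ := Real.exists_rat_abs_sub_le_and_den_le (g * θ) (n := ⌈(√ε)⁻¹⌉₊)
    (Nat.ceil_pos.2 (by positivity))
  have hk : (0 : ℝ) < r.den := by exact_mod_cast r.pos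
  have hn1 : (√ε)⁻¹ ≤ ⌈(√ε)⁻¹⌉₊ := Nat.le_ceil _
  have hn2 : (⌈(√ε)⁻¹⌉₊ : ℝ) < (√ε)⁻¹ + 1 := Nat.ceil_lt_add_one (by positivity)
  have ha : |(r.den : ℝ) * (g * θ) - r.num| ≤ √ε := by
    have e : (r.den : ℝ) * (g * θ) - r.num = r.den * (g * θ - r) := by
      rw [Rat.cast_def]; field_simp
    rw [e, abs_mul, abs_of_pos hk]
    calc (r.den : ℝ) * |g * θ - r| ≤ r.den * (1 / ((⌈(√ε)⁻¹⌉₊ + 1) * r.den)) := by gcongr
      _ = 1 / (⌈(√ε)⁻¹⌉₊ + 1) := by field_simp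
      _ ≤ 1 / (√ε)⁻¹ := one_div_le_one_div_of_le (by positivity) (by linarith)
      _ = √ε := by simp
  have hb : (r.den : ℝ) * ε ≤ √ε + ε := by
    have h1 : (r.den : ℝ) ≤ (√ε)⁻¹ + 1 := le_trans (by exact_mod_cast hr2) hn2.le
    calc (r.den : ℝ) * ε ≤ ((√ε)⁻¹ + 1) * ε := by gcongr
      _ = √ε + ε := by
        rw [add_mul, one_mul, add_left_inj, inv_mul_eq_iff_eq_mul₀ hs.ne', hss]
  have hlow := hm r.num (r.den * g) (Nat.mul_pos r.pos hg)
  have htri := hT (g * θ) ε Y r.num r.den hε0 hY' r.pos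
    (Int.isCoprime_iff_gcd_eq_one.2 (by simpa [Int.gcd] using r.reduced))
  rw [Nat.floor_natCast] at htri
  push_cast at hlow
  rw [mul_assoc, mul_assoc, ← hε] at hlow
  set v : ℝ := |(r.den : ℝ) * (g * θ) - r.num| + r.den * ε with hv
  have hv0 : 0 < v := by positivity
  have h1 : ε * Y ^ 2 / (Y * v) ≤ Y * (ε * Q / W) := by
    have e : ε * Y ^ 2 / (Y * v) = Y * (ε / v) := by field_simp
    rw [e]
    refine mul_le_mul_of_nonneg_left ?_ hY'.le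
    rw [div_le_div_iff₀ hv0 hW, mul_assoc ε Q v]
    exact mul_le_mul_of_nonneg_left hlow hε0.le
  have h2 : √ε ≤ g * √η := by
    rw [hε, Real.sqrt_mul (by positivity)]
    gcongr
    rw [Real.sqrt_le_left (by positivity)]
    nlinarith
  have e : ∑ x ∈ Ioc 0 Y, ((cnt θ η (g * x) : ℝ) - 2 * η * (g * x : ℕ)) =
      (∑ x ∈ Icc 1 Y, (cnt (g * θ) ε x : ℝ) - ε * Y ^ 2) - ε * Y := by
    have e1 : ∀ x : ℕ, cnt θ η (g * x) = cnt (g * θ) ε x := by
      intro x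
      simp only [cnt, hε]
      push_cast
      congr 3 <;> ring
    have e2 : Icc 1 Y = Ioc 0 Y := rfl
    rw [sum_sub_distrib, e2, sub_sub, ← mul_add, ← sum_id, mul_sum]
    congr 1
    · exact sum_congr rfl fun x _ => by rw [e1]
    · exact sum_congr rfl fun x _ => by rw [hε]; push_cast; ring
  rw [e]
  refine (abs_sub _ _).trans ?_
  rw [abs_of_pos (mul_pos hε0 hY')]
  have h3 : Y * v ≤ Y * (2 * (g * √η) + ε) := by gcongr; linarith
  have h4 : 0 ≤ Y * (ε * Q / W) := by positivity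
  have h5 : 0 ≤ Y * ε := by positivity
  have e3 : (g : ℝ) * (Y * (20 * (√η + η + η * Q / W))) =
      20 * (Y * (g * √η)) + 20 * (Y * ε) + 20 * (Y * (ε * Q / W)) := by rw [hε]; ring
  rw [e3]
  linarith

theorem harm {X Q : ℕ} (h : X ≤ Q) : ∑ f ∈ Ioc 0 X, (f : ℝ)⁻¹ ≤ 1 + Real.log Q := by
  have h1 := harmonic_le_one_add_log Q
  simp only [harmonic_eq_sum_Icc, Rat.cast_sum, Rat.cast_inv, Rat.cast_natCast] at h1
  exact (sum_le_sum_of_subset_of_nonneg (Ioc_subset_Ioc_right h)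
    fun _ _ _ => by positivity).trans h1

theorem abs_mu (n : ℕ) : |(μ n : ℝ)| ≤ 1 := by
  exact_mod_cast ArithmeticFunction.abs_moebius_le_one

theorem bound {h : ℕ → ℝ} {K : ℝ} (hK : 0 ≤ K)
    (hh : ∀ g, 0 < g → ∀ Y : ℕ, |∑ x ∈ Ioc 0 Y, h (g * x)| ≤ g * (Y * K)) {X Q : ℕ} (hX : X ≤ Q) :
    |∑ d ∈ Ioc 0 X, ∑ e ∈ d.divisors, (μ (d / e) : ℝ) * ((φ e : ℝ) / e * h e)| ≤
      (1 + Real.log Q) ^ 2 * (Q * K) := by
  have hL : 0 ≤ 1 + Real.log Q := by have := Real.log_natCast_nonneg Q; linarith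
  have inner : ∀ Y : ℕ, Y ≤ Q → |∑ g ∈ Ioc 0 Y, (μ g : ℝ) / g * ∑ x ∈ Ioc 0 (Y / g), h (g * x)| ≤
      (1 + Real.log Q) * (Y * K) := by
    intro Y hY
    refine (abs_sum_le_sum_abs _ _).trans (le_trans (sum_le_sum (g := fun g : ℕ =>
      (g : ℝ)⁻¹ * (Y * K)) fun g hg => ?_) ?_)
    · have hg0 : 0 < g := (mem_Ioc.1 hg).1
      have hg' : (0 : ℝ) < g := by exact_mod_cast hg0
      rw [abs_mul, abs_div, abs_of_pos hg']
      calc |(μ g : ℝ)| / g * |∑ x ∈ Ioc 0 (Y / g), h (g * x)|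
          ≤ 1 / g * (g * ((Y / g : ℕ) * K)) := by
            gcongr
            · exact abs_mu g
            · exact hh g hg0 _
        _ ≤ 1 / g * (g * ((Y / g : ℝ) * K)) := by gcongr; exact Nat.cast_div_le
        _ = (g : ℝ)⁻¹ * (Y * K) := by field_simp
    · rw [← sum_mul]
      gcongr
      exact harm hY
  rw [step2]
  refine (abs_sum_le_sum_abs _ _).trans (le_trans (sum_le_sum (g := fun f : ℕ =>
    (f : ℝ)⁻¹ * ((1 + Real.log Q) * (Q * K))) fun f hf => ?_) ?_)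
  · have hf' : (0 : ℝ) < f := by exact_mod_cast (mem_Ioc.1 hf).1
    rw [abs_mul]
    calc _ ≤ 1 * ((1 + Real.log Q) * ((X / f : ℕ) * K)) :=
          mul_le_mul (abs_mu f) (inner _ ((Nat.div_le_self _ _).trans hX)) (abs_nonneg _) one_pos.le
      _ ≤ 1 * ((1 + Real.log Q) * ((Q / f : ℝ) * K)) := by
          gcongr
          exact Nat.cast_div_le.trans (by gcongr)
      _ = _ := by field_simp
  · rw [← sum_mul, pow_two, mul_assoc]
    gcongr
    exact harm hX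

end Q_Minor

open Q_Minor in
theorem stmtMinor (hR : StmtRed) (hT : StmtTri) : StmtMinor := by
  refine ⟨40, by norm_num, fun Q₁ Q η W θ hQ hQ₁ hη hη' hW hm => ?_⟩
  rw [step1 hR Q₁ Q hη']
  have hb := fun X (hX : X ≤ Q) => bound (h := fun e => (cnt θ η e : ℝ) - 2 * η * e)
    (K := 20 * (√η + η + η * Q / W)) (by positivity)
    (fun g hg Y => step3 hT hQ hη hW hm hg Y) hX
  have e := sum_Ioc_consecutive (fun d => ∑ e ∈ d.divisors,
    (μ (d / e) : ℝ) * ((φ e : ℝ) / e * (cnt θ η e - 2 * η * e))) (Nat.zero_le Q₁) hQ₁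
  rw [eq_sub_of_add_eq' e]
  refine (abs_sub _ _).trans ((add_le_add (hb Q le_rfl) (hb Q₁ hQ₁)).trans (le_of_eq ?_))
  ring

end Pool.Agent.MP_f259ea_nt.Q
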