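import Pool.Agent.MP_f259ea_nt.Q_J2
import Pool.Agent.MP_f259ea_nt.C_Num

/-!
A kernel without multipliers for band width two.
-/

set_option autoImplicit false

open Finset

namespace Pool.Agent.MP_f259ea_nt.Q

def tz (j : ℤ) : ℤ := if j = 0 then 1 else 3 * |j|

def lagI (j : ℤ) : ℤ := (if j = 0 then 5400 else 0) + (2 * tz j + 180 - tz (j - 30) - tz (j + 30))

lemma tau_eq (j : ℤ) : tau (1 / 60) j = (tz j : ℝ) / 648000 := by
  unfold tau tz
  split_ifs
  · norm_num
  · push_cast; ring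

lemma lagT_eq (j : ℤ) : lagT (1 / 60) 30 j = (lagI j : ℝ) / 648000 := by
  unfold lagT lagI
  simp only [tau_eq]
  split_ifs <;> push_cast <;> ring

/-- `J2` from integer lag sums. -/
lemma J2_int {d : BData} (hd : d.Good) (hD : d.D = 1 / 60) (lw : ℕ → ℤ)
    (h : ∀ r : ℕ, ∑ i ∈ range (d.n - r), d.w (i + r) i = (lw r : ℝ) / 100000000000000) :
    J2 d.K = ((∑ r ∈ range d.n, lw r * (lagI r + lagI (-r)) - lw 0 * lagI 0 : ℤ) : ℝ)
      / (100000000000000 * 648000) := by
  rw [J2_lag hd (k := 30) (by rw [hD]; norm_num), hD]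
  have h0 : ∑ i ∈ range d.n, d.w i i = (lw 0 : ℝ) / 100000000000000 := h 0
  simp only [h, h0, lagT_eq]
  push_cast
  rw [sub_div, Finset.sum_div]
  congr 1
  · exact Finset.sum_congr rfl fun r _ => by ring
  · ring

def Lp : List ℤ :=
  [5926338, 6260309, 6594277, 6927453, 7259026, 7588171, 7914041, 8235781, 8552521, 8863384,
   9167489, 9463950, 9751882, 10030403, 10298637, 10555715, 10800782, 11032994, 11251528,
   11455577, 11644360, 11817119, 11973126, 12111683, 12232124, 12333820, 12416180, 12478653,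
   12520729, 12541948, 12541948, 12520729, 12478653, 12416180, 12333820, 12232124, 12111683,
   11973126, 11817119, 11644360, 11455577, 11251528, 11032994, 10800782, 10555715, 10298637,
   10030403, 9751882, 9463950, 9167489, 8863384, 8552521, 8235781, 7914041, 7588171, 7259026,
   6927453, 6594277, 6260309, 5926338]

noncomputable def d1 : BData where
  n := 60
  M := 60
  J := 0
  T := 0
  ψ i := (Lp.getD i 0 : ℝ) / 10000000
  c _ _ := 0
  h i := (Lp.getD i 0 : ℝ) / 10000000
  g _ _ := 0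
  ν := 0
  σ := 2
  τ := 2
  b := 0
  l := 1 / 10
  kl := 1 / 2
  s := 1

theorem lenp : Lp.length = 60 := by decide +kernel
theorem sump : Lp.sum = 600000000 := by decide +kernel
theorem posp : ∀ i < 60, 0 ≤ Lp.getD i 0 := by decide +kernel

def FQ1 (u : ℚ) : ℚ :=
  u - (4 * (987 / 100) * (1 / 10) ^ 2) * u ^ 3 / 6
    + (4 * (987 / 100) * (1 / 10) ^ 2) ^ 2 * u ^ 5 / 120
    - (4 * (987 / 100) * (1 / 10) ^ 2) ^ 3 * u ^ 7 / 5040

theorem klQ1 : (1 / 2 : ℚ) ≤ ∑ i ∈ range 60, (Lp.getD i 0 : ℚ) / 10000000 *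
    (FQ1 ((((i + 1 : ℕ) : ℚ) - 60 / 2) * (1 / 60)) - FQ1 (((i : ℚ) - 60 / 2) * (1 / 60))) := by
  decide +kernel

theorem lagSum1 : ∑ r ∈ range 60, acL Lp r * (lagI r + lagI (-r)) - acL Lp 0 * lagI 0
    = 69189746408335846328 := by decide +kernel

theorem d1_D : d1.D = 1 / 60 := by simp [BData.D, d1]

theorem d1_sum : ∑ i ∈ range 60, (Lp.getD i 0 : ℝ) / 10000000 = 60 := by
  rw [← sum_div, ← Int.cast_sum, ← sumL_eq Lp 60 lenp, sump]; norm_num

theorem d1_h0 : d1.h0 = 1 := by
  rw [BData.h0, d1_D]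
  change 1 / 60 * ∑ i ∈ range 60, (Lp.getD i 0 : ℝ) / 10000000 = _
  rw [d1_sum]; norm_num

theorem d1_ρ : d1.ρ = 1 := by
  rw [BData.ρ, d1_h0]
  simp [d1]

theorem d1_good : d1.Good where
  M_pos := by decide
  ψ_nonneg := fun i hi => div_nonneg (by exact_mod_cast posp i hi) (by norm_num)
  ψ_sum := by
    rw [d1_D]
    change 1 / 60 * ∑ i ∈ range 60, (Lp.getD i 0 : ℝ) / 10000000 = _
    rw [d1_sum]; norm_num
  supp := fun i hi i' _ h => by
    change i' + 60 ≤ i at h
    change i < 60 at hi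
    omega
  c_le := fun i _ => by simp [d1]
  lag := fun r _ => by simp [BData.H, BData.w, d1]
  maj := fun i _ => by simp [d1]
  kl_le := by
    have h := (Rat.cast_le (K := ℝ)).2 klQ1
    simp only [BData.node, d1_D, BData.F]
    simp only [d1, FQ1] at h ⊢
    push_cast at h ⊢
    exact h
  ν_nonneg := by simp only [d1]; norm_num
  ν_le := by simp only [d1]; norm_num
  σ_pos := by simp only [d1]; norm_num
  τ_nonneg := by simp only [d1]; norm_num
  b_nonneg := by simp only [d1]; norm_num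
  l_pos := by simp only [d1]; norm_num
  s_nonneg := by simp only [d1]; norm_num
  h0_nonneg := by rw [d1_h0]; norm_num
  σ_ge := by rw [d1_h0]; simp only [d1]; norm_num
  cp_σ := by simp only [BData.cp, d1]; norm_num
  cp_ρ := by rw [d1_ρ]; simp only [BData.cp, d1]; norm_num
  pair := by rw [d1_ρ]; simp only [BData.cp, BData.t2, d1]; norm_num
  triple := by rw [d1_ρ]; simp only [BData.cp, BData.t2, d1]; norm_num
  cl21 := by rw [d1_ρ]; simp only [BData.cp, BData.t2, BData.ε, d1]; norm_num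
  cl22 := by rw [d1_ρ]; simp only [BData.cp, BData.t2, BData.ε, d1]; norm_num
  cl111 := by rw [d1_ρ]; simp only [BData.cp, BData.t2, BData.ε, d1]; norm_num

theorem d1_J2 : J2 d1.K < 2 - 9322 / 10000 := by
  rw [J2_int d1_good d1_D (acL Lp) (fun r => by
    change ∑ i ∈ range (60 - r), d1.w (i + r) i = _
    rw [acL_eq _ _ _ lenp, Int.cast_sum, sum_div]
    refine sum_congr rfl fun i _ => ?_
    simp only [BData.w, d1, range_zero, sum_empty]
    push_cast; ring)]
  change ((∑ r ∈ range 60, acL Lp r * (lagI r + lagI (-r)) - acL Lp 0 * lagI 0 : ℤ) : ℝ) / _ < _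
  rw [lagSum1]; norm_num

end Pool.Agent.MP_f259ea_nt.Q
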